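import Mathlib

-- merged part: Pool.Agent.Work.MP_4b5e6c_gt.Defs
section
-- merged part: Pool.Agent.Work.MP_4b5e6c_gt.Defs
section
/-! Shared definitions for the torsion-freeness of the Lipschitz homotopy group of the
Heisenberg group in the critical dimension. -/

namespace Pool.Agent.Work.MP_4b5e6c_gt

open Metric Set MeasureTheory

/-- The domain: Euclidean space with the sup norm. -/
abbrev D (n : ℕ) : Type := Fin n → ℝ

section Calculus
variable {n : ℕ} {A Z : Type} {I : Type}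

/-- Lipschitz with a real constant. -/
def Lip [PseudoMetricSpace A] [PseudoMetricSpace Z] (L : ℝ) (f : A → Z) : Prop :=
  ∀ a b, dist (f a) (f b) ≤ L * dist a b

/-- Lipschitz up to an additive error. -/
def ALip [PseudoMetricSpace A] [PseudoMetricSpace Z] (L κ : ℝ) (f : A → Z) : Prop :=
  ∀ a b, dist (f a) (f b) ≤ L * dist a b + κ

/-- A homotopy from `u` to `u'` in time `T`, stationary outside `U`, which is `L`-Lipschitz up to
the additive error `κ`. -/
def Hty [PseudoMetricSpace Z] (L κ T : ℝ) (U : Set (D n)) (u u' : D n → Z) : Prop :=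
  ∃ H : D n × ℝ → Z, ALip L κ H ∧ (∀ x t, t ≤ 0 → H (x, t) = u x) ∧
    (∀ x t, T ≤ t → H (x, t) = u' x) ∧ ∀ x t, x ∉ U → H (x, t) = u x

/-- An `L`-Lipschitz map which is constant, equal to `y`, outside the open unit ball. -/
def Item [PseudoMetricSpace Z] (y : Z) (L : ℝ) (e : D n → Z) : Prop :=
  Lip L e ∧ ∀ x, 1 ≤ ‖x‖ → e x = y

/-- Constant outside a bounded set. -/
def Cpt (y : Z) (u : D n → Z) : Prop := ∃ R : ℝ, ∀ x, R ≤ ‖x‖ → u x = y

/-- A position is a centre and a radius. -/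
abbrev Pos (n : ℕ) : Type := D n × ℝ

/-- The open ball of a position. -/
def Pos.op (P : Pos n) : Set (D n) := ball P.1 P.2

/-- The closed ball of a position. -/
def Pos.cl (P : Pos n) : Set (D n) := closedBall P.1 P.2

/-- The position `P'`, given relative to the unit ball, transported into the position `P`. -/
def Pos.comp (P P' : Pos n) : Pos n := (P.1 + P.2 • P'.1, P.2 * P'.2)

/-- The unit item `e` transported to the position `P`. -/
noncomputable def sc (P : Pos n) (e : D n → Z) : D n → Z := fun x => e (P.2⁻¹ • (x - P.1))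

/-- A map read in the coordinates in which `P` is the unit ball. -/
def unsc (P : Pos n) (u : D n → Z) : D n → Z := fun x => u (P.1 + P.2 • x)

/-- Positive radii and pairwise disjoint open balls. -/
def Arr (s : Finset I) (P : I → Pos n) : Prop :=
  (∀ i ∈ s, 0 < (P i).2) ∧ ∀ i ∈ s, ∀ j ∈ s, i ≠ j → Disjoint (P i).op (P j).op

open Classical in
/-- The background `b` with the items `e i` inserted at the positions `P i`, `i ∈ s`. -/
noncomputable def ins (b : D n → Z) (s : Finset I) (P : I → Pos n) (e : I → D n → Z) :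
    D n → Z :=
  fun x => if h : ∃ i ∈ s, x ∈ (P i).op then sc (P h.choose) (e h.choose) x else b x

/-- The items fit into the background with Lipschitz constant `L`. -/
structure Fit [PseudoMetricSpace Z] (L : ℝ) (b : D n → Z) (s : Finset I) (P : I → Pos n)
    (e : I → D n → Z) : Prop where
  arr : Arr s P
  item : ∀ i ∈ s, Item (b (P i).1) (L * (P i).2) (e i)
  flat : ∀ i ∈ s, ∀ x ∈ (P i).cl, b x = b (P i).1

/-- An `l`-Lipschitz path from `p` to `q` in time one. -/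
def IsPath [PseudoMetricSpace Z] (p q : Z) (l : ℝ) (γ : ℝ → Z) : Prop :=
  Lip l γ ∧ (∀ t, t ≤ 0 → γ t = p) ∧ ∀ t, 1 ≤ t → γ t = q

/-- The item based at the start of `γ` which equals the end of `γ` on the half ball. -/
def bump (γ : ℝ → Z) : D n → Z := fun x => γ (2 - 2 * ‖x‖)

/-- The item `e`, based at the start of `γ`, with a tether: it is based at the end of `γ`. -/
noncomputable def teth (γ : ℝ → Z) (e : D n → Z) : D n → Z :=
  fun x => if ‖x‖ ≤ 1 / 2 then e ((2 : ℝ) • x) else γ (2 * ‖x‖ - 1)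

end Calculus

/-- Dyadic cubes: level `j` (side `2 ^ (-j)`) and integer corner `k`. -/
@[ext] structure DC (n : ℕ) : Type where
  j : ℤ
  k : Fin n → ℤ

namespace DC
variable {n : ℕ}

/-- Side length. -/
noncomputable def side (Q : DC n) : ℝ := (2 : ℝ) ^ (-Q.j)

/-- Centre. -/
noncomputable def c (Q : DC n) : D n := fun i => ((Q.k i : ℝ) + 1 / 2) * Q.side

/-- The cube as a position (centre, half side). -/
noncomputable def pos (Q : DC n) : Pos n := (Q.c, Q.side / 2)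

/-- The open cube. -/
def op (Q : DC n) : Set (D n) := ball Q.c (Q.side / 2)

/-- The closed cube. -/
def cl (Q : DC n) : Set (D n) := closedBall Q.c (Q.side / 2)

/-- The open cube with the same centre and three times the side. -/
def big (Q : DC n) : Set (D n) := ball Q.c (3 * Q.side / 2)

/-- Containment. -/
def Sub (Q Q' : DC n) : Prop := Q.op ⊆ Q'.op

/-- Disjointness of the open cubes. -/
def Disj (Q Q' : DC n) : Prop := Disjoint Q.op Q'.op

/-- The parent cube. -/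
def parent (Q : DC n) : DC n := ⟨Q.j - 1, fun i => Q.k i / 2⟩

/-- The cube two levels deeper which has the centre of `Q` as its lower corner. -/
def core (Q : DC n) : DC n := ⟨Q.j + 2, fun i => 4 * Q.k i + 2⟩

/-- The cube is small with respect to the scale function `σ`. -/
def Small (σ : D n → ℝ) (Q : DC n) : Prop := ∀ x ∈ Q.cl, Q.side ≤ 8 * σ x

/-- The graded partition of `C0`: the maximal subcubes that are small for `σ`. -/
def gp (σ : D n → ℝ) (C0 : DC n) : Set (DC n) :=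
  {Q | Sub Q C0 ∧ Small σ Q ∧ (Q = C0 ∨ ¬ Small σ Q.parent)}

end DC

/-- The cubes `Q i`, `i ∈ s`, are pairwise disjoint subcubes of `C0`. -/
def Pack {n : ℕ} {I : Type} (C0 : DC n) (s : Finset I) (Q : I → DC n) : Prop :=
  (∀ i ∈ s, (Q i).Sub C0) ∧ ∀ i ∈ s, ∀ j ∈ s, i ≠ j → (Q i).Disj (Q j)

section Diff
variable {n : ℕ} {Z I : Type}

/-- The background after blowing bubbles along the paths `γ i` in the cubes `Q i`. -/
noncomputable def bubBg (b : D n → Z) (s : Finset I) (Q : I → DC n) (γ : I → ℝ → Z) : D n → Z :=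
  ins b s (fun i => ((Q i).core.c, (Q i).core.side)) fun i => bump (γ i)

/-- Radial concatenation of `u` on the ball `P`, the homotopy `c` on its boundary sphere and `u'`
on the ball read backwards. -/
noncomputable def diffG (u u' : D n → Z) (c : D n × ℝ → Z) (P : Pos n) (v : D n) : Z :=
  if ‖v‖ ≤ 1 then u (P.1 + P.2 • v)
  else if ‖v‖ ≤ 2 then c (P.1 + (P.2 / ‖v‖) • v, ‖v‖ - 1)
  else u' (P.1 + (P.2 * max (3 - ‖v‖) 0 / ‖v‖) • v)

/-- The difference item of `u` and `u'` on the ball `P`. -/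
noncomputable def diffE (u u' : D n → Z) (c : D n × ℝ → Z) (P : Pos n) : D n → Z :=
  fun x => diffG u u' c P ((3 : ℝ) • x)

/-- The self-map of the domain which collapses the half cubes to the centres. -/
noncomputable def coreMap (s : Finset I) (Q : I → DC n) : D n → D n :=
  ins id s (fun i => (Q i).pos)
    fun i v => (Q i).c + ((Q i).side / 2 * max (2 * ‖v‖ - 1) 0 / ‖v‖) • v

end Diff

/-- Finitely supported weights with the `ℓ¹` norm. -/
def V (α : Type) : Type := α →₀ ℝ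

namespace V
variable {α : Type}

noncomputable instance : AddCommGroup (V α) := inferInstanceAs (AddCommGroup (α →₀ ℝ))
noncomputable instance : Module ℝ (V α) := inferInstanceAs (Module ℝ (α →₀ ℝ))

/-- The underlying finitely supported function. -/
def fs (β : V α) : α →₀ ℝ := β

/-- A finitely supported function as a weight vector. -/
def mk (β : α →₀ ℝ) : V α := β

theorem sum_abs_eq (β : α →₀ ℝ) (s : Finset α) (h : β.support ⊆ s) :
    β.sum (fun _ r => |r|) = ∑ a ∈ s, |β a| :=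
  Finsupp.sum_of_support_subset _ h _ (by simp)

noncomputable instance : NormedAddCommGroup (V α) :=
  AddGroupNorm.toNormedAddCommGroup
    { toFun := fun β => β.fs.sum fun _ r => |r|
      map_zero' := Finsupp.sum_zero_index
      add_le' := fun β γ => by
        classical
        have h : (β + γ).fs = β.fs + γ.fs := rfl
        rw [h, sum_abs_eq _ (β.fs.support ∪ γ.fs.support) Finsupp.support_add,
          sum_abs_eq β.fs (β.fs.support ∪ γ.fs.support) Finset.subset_union_left,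
          sum_abs_eq γ.fs (β.fs.support ∪ γ.fs.support) Finset.subset_union_right,
          ← Finset.sum_add_distrib]
        exact Finset.sum_le_sum fun a _ => abs_add_le _ _
      neg' := fun β => by
        have h : (-β).fs = -β.fs := rfl
        rw [h, sum_abs_eq _ β.fs.support (by simp), sum_abs_eq β.fs β.fs.support subset_rfl]
        simp
      eq_zero_of_map_eq_zero' := fun β h => by
        rw [sum_abs_eq β.fs β.fs.support subset_rfl,
          Finset.sum_eq_zero_iff_of_nonneg fun a _ => abs_nonneg _] at h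
        have : β.fs = 0 := by
          ext a
          by_contra ha
          exact ha (abs_eq_zero.1 (h a (Finsupp.mem_support_iff.2 ha)))
        exact this }

theorem norm_def (β : V α) : ‖β‖ = β.fs.sum fun _ r => |r| := rfl

theorem norm_eq (β : V α) (s : Finset α) (h : β.fs.support ⊆ s) : ‖β‖ = ∑ a ∈ s, |β.fs a| :=
  sum_abs_eq _ s h

noncomputable instance : NormedSpace ℝ (V α) where
  norm_smul_le r β := by
    have h : (r • β).fs = r • β.fs := rfl
    rw [norm_eq _ β.fs.support (h ▸ Finsupp.support_smul), norm_eq β β.fs.support subset_rfl,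
      Finset.mul_sum, h]
    exact Finset.sum_le_sum fun a _ => by simp [abs_mul]

@[simp] theorem fs_add (β γ : V α) : (β + γ).fs = β.fs + γ.fs := rfl
@[simp] theorem fs_sub (β γ : V α) : (β - γ).fs = β.fs - γ.fs := rfl
@[simp] theorem fs_smul (r : ℝ) (β : V α) : (r • β).fs = r • β.fs := rfl
@[simp] theorem fs_zero : (0 : V α).fs = 0 := rfl
@[simp] theorem fs_mk (β : α →₀ ℝ) : (mk β).fs = β := rfl
@[simp] theorem mk_fs (β : V α) : mk β.fs = β := rfl
theorem ext_fs {β γ : V α} (h : β.fs = γ.fs) : β = γ := h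

/-- The unit mass at `a`. -/
noncomputable def pt (a : α) : V α := mk (Finsupp.single a 1)

/-- Push-forward of weights along a map of vertices. -/
noncomputable def map {α' : Type} (ρ : α → α') (β : V α) : V α' := mk (β.fs.mapDomain ρ)

end V

/-- The `n`-skeleton of the full simplex on the vertex set `α`. -/
def Y (n : ℕ) (α : Type) : Set (V α) :=
  {β | (∀ a, 0 ≤ β.fs a) ∧ β.fs.sum (fun _ r => r) = 1 ∧ β.fs.support.card ≤ n + 1}

/-- The `n`-skeleton as a metric space. -/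
abbrev Ys (n : ℕ) (α : Type) : Type := ↥(Y n α)

section Ys
variable {n : ℕ} {α α' : Type}

/-- The support of a point of the skeleton. -/
def Ys.supp (β : Ys n α) : Finset α := β.1.fs.support

/-- The weight of a vertex. -/
def Ys.wt (β : Ys n α) (a : α) : ℝ := β.1.fs a

/-- A vertex as a point of the skeleton. -/
noncomputable def vtx (a : α) : Ys n α :=
  ⟨V.pt a, fun b => by
      classical
      simp only [V.pt, V.fs_mk, Finsupp.single_apply]; split_ifs <;> norm_num,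
    by simp [V.pt],
    (Finset.card_le_card Finsupp.support_single_subset).trans (by simp)⟩

theorem V.map_mem (ρ : α → α') {β : V α} (h : β ∈ Y n α) : β.map ρ ∈ Y n α' := by
  classical
  refine ⟨fun a => ?_, ?_, ?_⟩
  · simp only [V.map, V.fs_mk, Finsupp.mapDomain, Finsupp.sum_apply]
    refine Finset.sum_nonneg fun b _ => ?_
    simp only [Finsupp.single_apply]; split_ifs
    · exact h.1 b
    · exact le_rfl
  · simp only [V.map, V.fs_mk]
    rw [Finsupp.sum_mapDomain_index (fun _ => rfl) fun _ _ _ => rfl]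
    exact h.2.1
  · exact (Finset.card_le_card Finsupp.mapDomain_support).trans
      (Finset.card_image_le.trans h.2.2)

/-- The simplicial map induced by a map of vertices. -/
noncomputable def mapY (ρ : α → α') (β : Ys n α) : Ys n α' := ⟨β.1.map ρ, V.map_mem ρ β.2⟩

open Classical in
/-- A weight vector as a point of the skeleton, with the default value `vtx a`. -/
noncomputable def toY (a : α) (β : V α) : Ys n α := if h : β ∈ Y n α then ⟨β, h⟩ else vtx a

theorem Ys.exists_max (β : Ys n α) : ∃ a, ∀ b, β.wt b ≤ β.wt a := by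
  have hne : β.1.fs.support.Nonempty := by
    rw [Finset.nonempty_iff_ne_empty]
    intro h
    have h1 := β.2.2.1
    rw [Finsupp.sum, h, Finset.sum_empty] at h1
    exact zero_ne_one h1
  obtain ⟨a, -, ha⟩ := β.1.fs.support.exists_max_image β.1.fs hne
  refine ⟨a, fun b => ?_⟩
  by_cases hb : b ∈ β.1.fs.support
  · exact ha b hb
  · rw [Finsupp.notMem_support_iff] at hb
    exact hb.le.trans (β.2.1 a)

/-- A vertex of maximal weight. -/
noncomputable def sel (β : Ys n α) : α := β.exists_max.choose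

/-- `f` is `B`-Lipschitz on the points supported in `S`. -/
def LipS {Z : Type} [PseudoMetricSpace Z] (S : Set α) (B : ℝ) (f : Ys n α → Z) : Prop :=
  ∀ β β' : Ys n α, ↑β.supp ⊆ S → ↑β'.supp ⊆ S → dist (f β) (f β') ≤ B * dist β β'

end Ys

section Chains
variable {n : ℕ} {S : Type}

/-- Alternating integer cochains on lists of labels. -/
def Alt (φ : List S → ℤ) : Prop :=
  ∀ (l₁ : List S) (a b : S) (l₂ : List S), φ (l₁ ++ a :: b :: l₂) = -φ (l₁ ++ b :: a :: l₂)

/-- The coboundary `∑ i, (-1) ^ i * φ (l.eraseIdx i)`. -/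
def cob : (List S → ℤ) → List S → ℤ
  | _, [] => 0
  | φ, a :: l => φ l - cob (fun m => φ (a :: m)) l

/-- The vertices of the Kuhn simplex with lowest vertex `k` and order of directions `π`. -/
def kv (k : Fin n → ℤ) (π : Equiv.Perm (Fin n)) (i : Fin (n + 1)) : Fin n → ℤ :=
  fun j => k j + if ((π.symm j : Fin n) : ℕ) < (i : ℕ) then 1 else 0

/-- The value of a cochain on the image of the fundamental chain of the Kuhn triangulation. -/
noncomputable def pair (φ : List S → ℤ) (l : (Fin n → ℤ) → S) : ℤ :=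
  ∑ᶠ k : Fin n → ℤ, ∑ π : Equiv.Perm (Fin n),
    (Equiv.Perm.sign π : ℤ) * φ (List.ofFn fun i => l (kv k π i))

/-- The labels of the `j`-th simplex of the prism over a Kuhn simplex. -/
def prismL (l₁ l₂ : (Fin n → ℤ) → S) (k : Fin n → ℤ) (π : Equiv.Perm (Fin n))
    (j : Fin (n + 1)) : List S :=
  ((List.ofFn (kv k π)).take (j + 1)).map l₁ ++ ((List.ofFn (kv k π)).drop j).map l₂

/-- The point `k / 2 ^ m` of the dyadic grid of level `m`. -/
noncomputable def grid (m : ℕ) (k : Fin n → ℤ) : D n := fun i => (k i : ℝ) / 2 ^ m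

open Classical in
/-- The eventual value of the pairing on fine grids. -/
noncomputable def deg (φ : List S → ℤ) (l : D n → S) : ℤ :=
  if h : ∃ d : ℤ, ∀ᶠ m in Filter.atTop, pair φ (fun k => l (grid m k)) = d then h.choose else 0

/-- At most `n + 1` labels on the balls of radius `ε` of the set `K`. -/
def Adm {Z : Type} [PseudoMetricSpace Z] (n : ℕ) (W : Z → S) (K : Set Z) (ε : ℝ) : Prop :=
  ∀ z ∈ K, ∃ T : Finset S, T.card ≤ n + 1 ∧ ∀ p ∈ K, dist p z ≤ ε → W p ∈ T

/-- At most `n + 1` labels of `W` and `W'` together on the balls of radius `ε` of `K`. -/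
def Adm2 {Z : Type} [PseudoMetricSpace Z] (n : ℕ) (W W' : Z → S) (K : Set Z) (ε : ℝ) : Prop :=
  ∀ z ∈ K, ∃ T : Finset S, T.card ≤ n + 1 ∧ ∀ p ∈ K, dist p z ≤ ε → W p ∈ T ∧ W' p ∈ T

/-- The simplicial chain of a map into the skeleton, paired with a cochain. -/
noncomputable def degY {α : Type} (φ : List α → ℤ) (f : D n → Ys n α) : ℤ :=
  deg φ fun x => sel (f x)

/-- Homologically trivial maps. -/
def Null {Z : Type} [PseudoMetricSpace Z] (h : D n → Z) : Prop :=
  ∀ (S : Type) (W : Z → S) (ε : ℝ), 0 < ε → Adm n W (range h) ε →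
    ∀ φ : List S → ℤ, Alt φ → deg φ (fun x => W (h x)) = 0

/-- Every Lipschitz image of `K` in dimension `n + 1` is a null set. -/
def Thin {Z : Type} [PseudoMetricSpace Z] (n : ℕ) (K : Set Z) : Prop :=
  ∀ (G : Z → D (n + 1)) (L : ℝ), Lip L G → volume (G '' K) = 0

end Chains

/-- The properties of the Heisenberg group that the proof uses. -/
structure Good (n : ℕ) (X : Type) [MetricSpace X] : Prop where
  proper : ProperSpace X
  doubling : ∀ A : ℝ, ∃ M : ℕ, ∀ (p : X) (r : ℝ), 0 < r → ∀ s : Finset X,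
    (∀ q ∈ s, dist q p ≤ A * r) → (∀ q ∈ s, ∀ q' ∈ s, q ≠ q' → r ≤ dist q q') → s.card ≤ M
  ext : ∃ C : ℝ, ∀ (A : Set (D n)) (f : D n → X) (L : ℝ), 0 ≤ L → IsClosed A → A.Nonempty →
    (∀ a ∈ A, ∀ b ∈ A, dist (f a) (f b) ≤ L * dist a b) →
    ∃ F : D n → X, Lip (C * L) F ∧ ∀ a ∈ A, F a = f a
  thin : ∀ (F : D (n + 1) → X) (L : ℝ), Lip L F → Thin n (range F)

/-- A realization of the `n`-skeleton of the full simplex on the points of `X`. -/
structure Rz (n : ℕ) (X : Type) [MetricSpace X] : Type where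
  ι : Ys n X → X
  C : ℝ
  one_le : 1 ≤ C
  vtx : ∀ p, ι (vtx p) = p
  lip : ∀ (p : X) (r : ℝ), 0 ≤ r → LipS (closedBall p r) (C * r) ι

/-- `f` is a homologically trivial simplicial approximation of `h` at the scale `σ`. -/
structure Nice {n : ℕ} {X : Type} [MetricSpace X] (C0 : DC n) (y : X) (h : D n → X)
    (σ : D n → ℝ) (A : ℝ) (f : D n → Ys n X) : Prop where
  out : ∀ x, x ∉ C0.op → f x = vtx y
  lip : ∀ x x', dist (f x) (f x') * σ x ≤ A * dist x x'
  near : ∀ x, ∀ p ∈ (f x).supp, dist p (h x) ≤ A * σ x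
  wall : ∀ (x : D n) (i : Fin n) (j k : ℤ), x i = k * (2 : ℝ) ^ j → σ x ≤ (2 : ℝ) ^ j →
    (f x).supp.card ≤ n
  null : ∀ φ : List X → ℤ, Alt φ → degY φ f = 0

/-- A scale function on the domain: positive, slowly varying and at most the side of `C0`. -/
structure Scale {n : ℕ} (C0 : DC n) (σ : D n → ℝ) : Prop where
  lip : Lip (1 / 8) σ
  pos : ∃ κ, 0 < κ ∧ ∀ x, κ ≤ σ x
  le : ∀ x, σ x ≤ C0.side

/-- Approximate quantitative filling of homologically trivial items. -/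
def Fill (n : ℕ) (X : Type) [MetricSpace X] (Λ κ : ℝ) : Prop :=
  ∀ (y : X) (L : ℝ) (e : D n → X), 0 ≤ L → Item y L e → Null e →
    Hty (Λ * L) (κ * L) 1 (ball 0 1) e fun _ => y

/-- Concatenation of two items in the direction of the first coordinate. -/
noncomputable def concatD {n : ℕ} {Z : Type} (f g : D (n + 1) → Z) : D (n + 1) → Z :=
  fun x => if x 0 ≤ 0 then f (Function.update x 0 (2 * x 0 + 1))
    else g (Function.update x 0 (2 * x 0 - 1))

/-- Iterated concatenation. -/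
noncomputable def powD {n : ℕ} {Z : Type} (y : Z) (f : D (n + 1) → Z) : ℕ → D (n + 1) → Z
  | 0 => fun _ => y
  | m + 1 => concatD (powD y f m) f

/-- Torsion-freeness in the model of items. -/
def TF (n : ℕ) (X : Type) [MetricSpace X] : Prop :=
  ∀ (y : X) (L : ℝ) (f : D (n + 1) → X) (m : ℕ), 1 ≤ m → Item y L f →
    (∃ L', Hty L' 0 1 (ball 0 1) (powD y f m) fun _ => y) →
    ∃ L', Hty L' 0 1 (ball 0 1) f fun _ => y

end Pool.Agent.Work.MP_4b5e6c_gt
end

-- merged part: Pool.Agent.Work.MP_4b5e6c_gt.ChainA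
section
/-! Task CHAINA: alternating cochains. -/

namespace Pool.Agent.Work.MP_4b5e6c_gt
open Metric Set

variable {n : ℕ} {S S' : Type} {φ ψ : List S → ℤ}

namespace ChainA

theorem alt_cons (h : Alt φ) (a : S) : Alt fun l => φ (a :: l) :=
  fun l₁ b c l₂ => h (a :: l₁) b c l₂

theorem perm_pm {l l' : List S} (p : l.Perm l') :
    ∀ φ : List S → ℤ, Alt φ → φ l = φ l' ∨ φ l = -φ l' := by
  induction p with
  | nil => exact fun _ _ => .inl rfl
  | cons a _ ih => exact fun φ h => ih _ (alt_cons h a)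
  | swap a b l => exact fun φ h => .inr (h [] b a l)
  | trans _ _ ih ih' =>
    intro φ h
    rcases ih φ h with e | e <;> rcases ih' φ h with e' | e' <;> omega

theorem cob_sub (l : List S) : ∀ φ ψ : List S → ℤ,
    cob (fun m => φ m - ψ m) l = cob φ l - cob ψ l := by
  induction l with
  | nil => intro φ ψ; simp [cob]
  | cons a l ih =>
    intro φ ψ
    simp only [cob]
    rw [ih (fun m => φ (a :: m)) fun m => ψ (a :: m)]
    ring

theorem cob_neg (l : List S) : ∀ φ : List S → ℤ, cob (fun m => -φ m) l = -cob φ l := by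
  induction l with
  | nil => intro φ; simp [cob]
  | cons a l ih =>
    intro φ
    simp only [cob]
    rw [ih fun m => φ (a :: m)]
    ring

theorem alt_cob (l₁ : List S) : ∀ φ : List S → ℤ, Alt φ → ∀ a b l₂,
    cob φ (l₁ ++ a :: b :: l₂) = -cob φ (l₁ ++ b :: a :: l₂) := by
  induction l₁ with
  | nil =>
    intro φ h a b l₂
    simp only [List.nil_append, cob]
    have : (fun m => φ (a :: b :: m)) = fun m => -φ (b :: a :: m) := funext fun m => h [] a b m
    rw [this, cob_neg]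
    ring
  | cons c l₁ ih =>
    intro φ h a b l₂
    simp only [List.cons_append, cob]
    rw [ih _ (alt_cons h c), h l₁ a b l₂]
    ring

theorem adj_swap (m : ℕ) : ∀ (φ : List S → ℤ), Alt φ → ∀ (i : Fin m) (v : Fin (m + 1) → S),
    φ (List.ofFn fun j => v (Equiv.swap i.castSucc i.succ j)) = -φ (List.ofFn v) := by
  induction m with
  | zero => exact fun _ _ i => i.elim0
  | succ m ih =>
    intro φ h i v
    induction i using Fin.cases with
    | zero =>
      rw [List.ofFn_succ, List.ofFn_succ, List.ofFn_succ (f := v), List.ofFn_succ]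
      have e0 : Equiv.swap (Fin.castSucc (0 : Fin (m + 1))) (Fin.succ 0) 0 = Fin.succ 0 :=
        Equiv.swap_apply_left _ _
      have e1 : Equiv.swap (Fin.castSucc (0 : Fin (m + 1))) (Fin.succ 0) (Fin.succ 0) = 0 :=
        Equiv.swap_apply_right _ _
      have e2 : ∀ j : Fin m, Equiv.swap (Fin.castSucc (0 : Fin (m + 1))) (Fin.succ 0)
          (Fin.succ (Fin.succ j)) = Fin.succ (Fin.succ j) := fun j =>
        Equiv.swap_apply_of_ne_of_ne (Fin.succ_ne_zero _)
          fun e => Fin.succ_ne_zero _ (Fin.succ_injective _ e)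
      simp only [e0, e1, e2]
      exact h [] _ _ _
    | succ i =>
      rw [List.ofFn_succ, List.ofFn_succ (f := v)]
      have e0 : Equiv.swap (Fin.castSucc i.succ) i.succ.succ 0 = 0 :=
        Equiv.swap_apply_of_ne_of_ne (by rw [← Fin.succ_castSucc]; exact (Fin.succ_ne_zero _).symm)
          (Fin.succ_ne_zero _).symm
      have e1 : ∀ j, Equiv.swap (Fin.castSucc i.succ) i.succ.succ (Fin.succ j) =
          Fin.succ (Equiv.swap i.castSucc i.succ j) := fun j => by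
        rw [← Fin.succ_castSucc]
        exact (Fin.succ_injective _).swap_apply _ _ _
      simp only [e0, e1]
      exact ih _ (alt_cons h (v 0)) i fun j => v j.succ

/-- the product of the differences of the labels -/
def vdm (r : S → ℤ) : List S → ℤ
  | [] => 1
  | a :: l => (l.map fun b => r b - r a).prod * vdm r l

theorem alt_vdm (r : S → ℤ) : Alt (vdm r) := by
  intro l₁ a b l₂
  induction l₁ with
  | nil =>
    simp only [List.nil_append, vdm, List.map_cons, List.prod_cons]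
    ring
  | cons c l₁ ih =>
    simp only [List.cons_append, vdm, ih, List.map_append, List.map_cons, List.prod_append,
      List.prod_cons]
    ring

theorem vdm_ne (r : S → ℤ) (l : List S) (h : (l.map r).Nodup) : vdm r l ≠ 0 := by
  induction l with
  | nil => simp [vdm]
  | cons a l ih =>
    rw [List.map_cons, List.nodup_cons] at h
    refine mul_ne_zero (List.prod_ne_zero fun e => ?_) (ih h.2)
    obtain ⟨b, hb, e⟩ := List.mem_map.1 e
    exact h.1 (List.mem_map.2 ⟨b, hb, sub_eq_zero.1 e⟩)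

end ChainA

theorem Alt.eq_zero (h : Alt φ) {l : List S} (hl : ¬ l.Nodup) : φ l = 0 := by
  obtain ⟨a, ha⟩ := List.exists_duplicate_iff_not_nodup.2 hl
  obtain ⟨l', p⟩ := (List.duplicate_iff_sublist.1 ha).exists_perm_append
  have e : φ ([a, a] ++ l') = -φ ([a, a] ++ l') := h [] a a l'
  rcases ChainA.perm_pm p φ h with e' | e' <;> omega
theorem Alt.cob (h : Alt φ) : Alt (cob φ) := fun l₁ => ChainA.alt_cob l₁ φ h
theorem Alt.cons (h : Alt φ) (a : S) : Alt fun l => φ (a :: l) := ChainA.alt_cons h a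
theorem Alt.map (h : Alt φ) (ρ : S' → S) : Alt fun l => φ (l.map ρ) := by
  intro l₁ a b l₂
  simp only [List.map_append, List.map_cons]
  exact h _ _ _ _
theorem Alt.sub (h : Alt φ) (h' : Alt ψ) : Alt fun l => φ l - ψ l := by
  intro l₁ a b l₂
  beta_reduce
  rw [h l₁ a b l₂, h' l₁ a b l₂]
  ring
theorem Alt.ofFn_perm (h : Alt φ) {m : ℕ} (v : Fin m → S) (g : Equiv.Perm (Fin m)) :
    φ (List.ofFn fun i => v (g i)) = (Equiv.Perm.sign g : ℤ) * φ (List.ofFn v) := by
  cases m with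
  | zero =>
    have : g = 1 := Subsingleton.elim _ _
    subst this
    simp
  | succ m =>
    have hg : g ∈ Submonoid.closure
        (Set.range fun i : Fin m => Equiv.swap i.castSucc i.succ) := by
      rw [Equiv.Perm.mclosure_swap_castSucc_succ]
      trivial
    induction hg using Submonoid.closure_induction generalizing v with
    | mem g hg =>
      obtain ⟨i, rfl⟩ := hg
      beta_reduce
      rw [ChainA.adj_swap m φ h, Equiv.Perm.sign_swap (Fin.castSucc_lt_succ (i := i)).ne]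
      simp
    | one => simp
    | mul g g' _ _ ih ih' =>
      simp only [Equiv.Perm.mul_apply]
      rw [ih' fun i => v (g i), ih v, Equiv.Perm.sign_mul, Units.val_mul]
      ring
theorem cob_map (φ : List S → ℤ) (ρ : S' → S) (l : List S') :
    cob (fun l => φ (l.map ρ)) l = cob φ (l.map ρ) := by
  induction l generalizing φ with
  | nil => rfl
  | cons a l ih =>
    simp only [List.map_cons, cob]
    rw [ih fun m => φ (ρ a :: m)]
theorem cob_cob (φ : List S → ℤ) (l : List S) : cob (cob φ) l = 0 := by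
  induction l generalizing φ with
  | nil => rfl
  | cons a l ih =>
    simp only [cob]
    rw [ChainA.cob_sub, ih]
    ring
theorem cob_eq_sum (φ : List S → ℤ) (l : List S) :
    cob φ l = ∑ i : Fin l.length, (-1) ^ (i : ℕ) * φ (l.eraseIdx i) := by
  induction l generalizing φ with
  | nil => simp [cob]
  | cons a l ih =>
    change _ = ∑ i : Fin (l.length + 1), (-1) ^ (i : ℕ) * φ ((a :: l).eraseIdx i)
    rw [Fin.sum_univ_succ, cob, ih, sub_eq_add_neg, ← Finset.sum_neg_distrib]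
    simp only [Fin.val_zero, pow_zero, one_mul, List.eraseIdx_cons_zero, Fin.val_succ,
      List.eraseIdx_cons_succ, pow_succ]
    refine congrArg _ (Finset.sum_congr rfl fun i _ => ?_)
    ring
/-- Extension of a cochain by zero to a new label. -/
theorem Alt.exists_option (h : Alt φ) : ∃ φ' : List (Option S) → ℤ, Alt φ' ∧
    (∀ l, φ' (l.map some) = φ l) ∧ ∀ l, none ∈ l → φ' l = 0 := by
  classical
  refine ⟨fun l => if none ∈ l then 0 else φ (l.filterMap id), ?_, fun l => ?_,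
    fun l hl => if_pos hl⟩
  · intro l₁ a b l₂
    cases a with
    | none => simp
    | some a =>
      cases b with
      | none => simp
      | some b =>
        by_cases e : none ∈ l₁ ∨ none ∈ l₂
        · simp [e]
        · simp only [List.mem_append, List.mem_cons, reduceCtorEq, false_or, e, if_false,
            List.filterMap_append, List.filterMap_cons, id]
          exact h _ _ _ _
  · simp [List.filterMap_map]
/-- A list with more entries than available labels has a repetition. -/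
theorem not_nodup_of_card {l : List S} (T : Finset S) (hT : T.card < l.length)
    (h : ∀ a ∈ l, a ∈ T) : ¬ l.Nodup := by
  classical
  intro hl
  have := Finset.card_le_card (show l.toFinset ⊆ T from fun a ha => h a (List.mem_toFinset.1 ha))
  rw [List.toFinset_card_of_nodup hl] at this
  omega

namespace ChainA

theorem exists_partner {I : Type} (s : Finset I) (a : S) (v : I → Fin (n + 1) → S)
    (hv : ∀ i ∈ s, Function.Injective (v i) ∧ ∀ j, v i j ≠ a)
    (h : ∀ φ : List S → ℤ, Alt φ → (∀ l, a ∈ l → φ l = 0) → ∑ i ∈ s, φ (List.ofFn (v i)) = 0)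
    {i : I} (hi : i ∈ s) : ∃ j ∈ s, j ≠ i ∧
      ∃ g : Equiv.Perm (Fin (n + 1)), Equiv.Perm.sign g = -1 ∧ v j = fun k => v i (g k) := by
  classical
  set r : S → ℤ := fun x => ((Function.invFun (v i) x : Fin (n + 1)) : ℕ) with hr
  have hV : vdm r (List.ofFn (v i)) ≠ 0 := by
    refine vdm_ne r _ ?_
    rw [List.map_ofFn]
    refine List.nodup_ofFn_ofInjective fun j k e => ?_
    simp only [hr, Function.comp, Function.leftInverse_invFun (hv i hi).1 _, Nat.cast_inj] at e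
    exact Fin.ext e
  have hA : Alt fun l => if ∀ x ∈ l, x ∈ Set.range (v i) then vdm r l else 0 := by
    intro l₁ b c l₂
    have e : (∀ x ∈ l₁ ++ b :: c :: l₂, x ∈ Set.range (v i)) ↔
        ∀ x ∈ l₁ ++ c :: b :: l₂, x ∈ Set.range (v i) :=
      forall_congr' fun x => imp_congr_left
        (((List.Perm.swap c b l₂).append_left l₁).mem_iff)
    beta_reduce
    by_cases e' : ∀ x ∈ l₁ ++ c :: b :: l₂, x ∈ Set.range (v i)
    · rw [if_pos e', if_pos (e.2 e')]
      exact alt_vdm r _ _ _ _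
    · rw [if_neg e', if_neg fun d => e' (e.1 d), neg_zero]
  have h0 := h _ hA fun l hl => if_neg fun d => by
    obtain ⟨k, e⟩ := d a hl
    exact (hv i hi).2 k e
  by_contra hc
  have key : ∀ j ∈ s, (∀ x ∈ List.ofFn (v j), x ∈ Set.range (v i)) →
      vdm r (List.ofFn (v j)) = vdm r (List.ofFn (v i)) := by
    intro j hj d
    by_cases e : j = i
    · rw [e]
    have e1 : ∀ k, v i (Function.invFun (v i) (v j k)) = v j k := fun k =>
      Function.invFun_eq (d _ (List.mem_ofFn.2 ⟨k, rfl⟩))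
    have e2 : Function.Injective fun k => Function.invFun (v i) (v j k) := fun k k' c =>
      (hv j hj).1 (by rw [← e1 k, ← e1 k']; exact congrArg (v i) c)
    let g : Equiv.Perm (Fin (n + 1)) := Equiv.ofBijective _ (Finite.injective_iff_bijective.1 e2)
    have e3 : v j = fun k => v i (g k) := funext fun k => (e1 k).symm
    rcases Int.units_eq_one_or (Equiv.Perm.sign g) with c | c
    · rw [e3, (alt_vdm r).ofFn_perm, c]
      simp
    · exact (hc ⟨j, hj, e, g, c, e3⟩).elim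
  rw [← Finset.sum_filter, Finset.sum_congr rfl fun j hj =>
    key j (Finset.mem_filter.1 hj).1 (Finset.mem_filter.1 hj).2, Finset.sum_const,
    nsmul_eq_mul, mul_eq_zero] at h0
  refine h0.elim (fun c => ?_) hV
  refine Finset.card_ne_zero.2 ⟨i, Finset.mem_filter.2 ⟨hi, fun x hx => ?_⟩⟩ (Nat.cast_eq_zero.1 c)
  exact List.mem_ofFn.1 hx

end ChainA

/-- Tuples whose alternating sums vanish can be matched in pairs of opposite orientation. -/
theorem exists_matching {I : Type} (s : Finset I) (a : S) (v : I → Fin (n + 1) → S)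
    (hv : ∀ i ∈ s, Function.Injective (v i) ∧ ∀ j, v i j ≠ a)
    (h : ∀ φ : List S → ℤ, Alt φ → (∀ l, a ∈ l → φ l = 0) → ∑ i ∈ s, φ (List.ofFn (v i)) = 0) :
    ∃ m : I → I, ∀ i ∈ s, m i ∈ s ∧ m i ≠ i ∧ m (m i) = i ∧
      ∃ g : Equiv.Perm (Fin (n + 1)), Equiv.Perm.sign g = -1 ∧ v (m i) = fun j => v i (g j) := by
  classical
  induction s using Finset.strongInduction with
  | _ s ih =>
  rcases s.eq_empty_or_nonempty with rfl | ⟨i, hi⟩
  · exact ⟨id, fun i hi => absurd hi (Finset.notMem_empty i)⟩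
  obtain ⟨j, hj, ne, g, hg, e⟩ := ChainA.exists_partner s a v hv h hi
  have sub : (s.erase i).erase j ⊆ s := (Finset.erase_subset _ _).trans (Finset.erase_subset _ _)
  obtain ⟨m, hm⟩ := ih ((s.erase i).erase j)
    ((Finset.erase_subset _ _).trans_ssubset (Finset.erase_ssubset hi))
    (fun k hk => hv k (sub hk)) fun φ hφ h0 => by
      have e1 := h φ hφ h0
      rw [← Finset.add_sum_erase _ _ hi,
        ← Finset.add_sum_erase _ _ (Finset.mem_erase.2 ⟨ne, hj⟩), e, hφ.ofFn_perm, hg] at e1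
      simpa using e1
  refine ⟨fun k => if k = i then j else if k = j then i else m k, fun k hk => ?_⟩
  by_cases c : k = i
  · subst c
    simp only [if_true, if_neg ne]
    exact ⟨hj, ne, trivial, g, hg, e⟩
  by_cases c' : k = j
  · subst c'
    simp only [if_neg c, if_true]
    refine ⟨hi, Ne.symm c, trivial, g⁻¹, by rw [Equiv.Perm.sign_inv, hg], ?_⟩
    rw [e]
    simp
  obtain ⟨a1, a2, a3, a4⟩ := hm k (Finset.mem_erase.2 ⟨c', Finset.mem_erase.2 ⟨c, hk⟩⟩)
  have b1 := (Finset.mem_erase.1 a1).1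
  have b2 := (Finset.mem_erase.1 (Finset.mem_erase.1 a1).2).1
  simp only [if_neg c, if_neg c', if_neg b1, if_neg b2]
  exact ⟨sub a1, a2, a3, a4⟩

end Pool.Agent.Work.MP_4b5e6c_gt
end

-- merged part: Pool.Agent.Work.MP_4b5e6c_gt.HDefs
section
/-! The Heisenberg group with a homogeneous gauge metric. -/

namespace Pool.Agent.Work.MP_4b5e6c_gt

/-- The Heisenberg group as a set. -/
@[ext] structure Heis (n : ℕ) : Type where
  x : Fin n → ℝ
  y : Fin n → ℝ
  t : ℝ

namespace Heis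
variable {n : ℕ}

/-- The vertical coordinate of `p⁻¹ * q`. -/
def vert (p q : Heis n) : ℝ := q.t - p.t - 2 * (p.y ⬝ᵥ q.x - p.x ⬝ᵥ q.y)

theorem vert_self (p : Heis n) : vert p p = 0 := by
  simp only [vert]; rw [dotProduct_comm p.y p.x]; ring

theorem vert_symm (p q : Heis n) : vert q p = -vert p q := by
  simp only [vert]; rw [dotProduct_comm q.y p.x, dotProduct_comm q.x p.y]; ring

/-- The cocycle identity. -/
theorem vert_add (p q r : Heis n) : vert p r = vert p q + vert q r +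
    2 * ((q.y - p.y) ⬝ᵥ (r.x - q.x) - (q.x - p.x) ⬝ᵥ (r.y - q.y)) := by
  simp only [vert, sub_dotProduct, dotProduct_sub]
  rw [dotProduct_comm q.y q.x]; ring

theorem abs_dot_le (a b : Fin n → ℝ) : |a ⬝ᵥ b| ≤ n * (‖a‖ * ‖b‖) := by
  calc |a ⬝ᵥ b| ≤ ∑ i, |a i * b i| := Finset.abs_sum_le_sum_abs _ _
    _ ≤ ∑ _i : Fin n, ‖a‖ * ‖b‖ := Finset.sum_le_sum fun i _ => by
        rw [abs_mul]
        exact mul_le_mul (norm_le_pi_norm a i) (norm_le_pi_norm b i) (abs_nonneg _) (norm_nonneg _)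
    _ = n * (‖a‖ * ‖b‖) := by simp

/-- The gauge distance. -/
noncomputable def gauge (p q : Heis n) : ℝ :=
  max (max ‖q.x - p.x‖ ‖q.y - p.y‖) √(|vert p q| / (2 * n + 2))

theorem gauge_le_iff {p q : Heis n} {r : ℝ} (hr : 0 ≤ r) : gauge p q ≤ r ↔
    ‖q.x - p.x‖ ≤ r ∧ ‖q.y - p.y‖ ≤ r ∧ |vert p q| ≤ (2 * n + 2) * r ^ 2 := by
  have h : (0 : ℝ) < 2 * n + 2 := by positivity
  rw [gauge, max_le_iff, max_le_iff, Real.sqrt_le_left hr, div_le_iff₀ h, and_assoc, mul_comm]

theorem gauge_nonneg (p q : Heis n) : 0 ≤ gauge p q := le_max_of_le_right (Real.sqrt_nonneg _)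

theorem gauge_triangle (p q r : Heis n) : gauge p r ≤ gauge p q + gauge q r := by
  have ha := gauge_nonneg p q
  have hb := gauge_nonneg q r
  obtain ⟨a1, a2, a3⟩ := (gauge_le_iff ha).1 le_rfl
  obtain ⟨b1, b2, b3⟩ := (gauge_le_iff hb).1 le_rfl
  set a := gauge p q
  set b := gauge q r
  refine (gauge_le_iff (by positivity)).2 ⟨?_, ?_, ?_⟩
  · calc ‖r.x - p.x‖ = ‖(q.x - p.x) + (r.x - q.x)‖ := by congr 1; abel
      _ ≤ a + b := (norm_add_le _ _).trans (add_le_add a1 b1)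
  · calc ‖r.y - p.y‖ = ‖(q.y - p.y) + (r.y - q.y)‖ := by congr 1; abel
      _ ≤ a + b := (norm_add_le _ _).trans (add_le_add a2 b2)
  · have hn : (0 : ℝ) ≤ n := Nat.cast_nonneg n
    have c1 := (abs_dot_le (q.y - p.y) (r.x - q.x)).trans
      (mul_le_mul_of_nonneg_left (mul_le_mul a2 b1 (norm_nonneg _) ha) hn)
    have c2 := (abs_dot_le (q.x - p.x) (r.y - q.y)).trans
      (mul_le_mul_of_nonneg_left (mul_le_mul a1 b2 (norm_nonneg _) ha) hn)
    have hab := mul_nonneg ha hb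
    rw [vert_add p q r, abs_le]
    rw [abs_le] at a3 b3 c1 c2
    constructor <;> linarith only [a3, b3, c1, c2, hab, a3.1, a3.2, b3.1, b3.2, c1.1, c1.2, c2.1, c2.2]

noncomputable instance : MetricSpace (Heis n) where
  dist := gauge
  dist_self p := by simp [gauge, vert_self]
  dist_comm p q := by
    simp only [gauge]
    rw [vert_symm p q, abs_neg, norm_sub_rev p.x, norm_sub_rev p.y]
  dist_triangle := gauge_triangle
  eq_of_dist_eq_zero := fun {p q} h => by
    obtain ⟨h1, h2, h3⟩ := (gauge_le_iff le_rfl).1 h.le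
    have hx : q.x = p.x := sub_eq_zero.1 (norm_le_zero_iff.1 h1)
    have hy : q.y = p.y := sub_eq_zero.1 (norm_le_zero_iff.1 h2)
    have hv : vert p q = 0 := abs_eq_zero.1 (le_antisymm (by simpa using h3) (abs_nonneg _))
    rw [vert, hx, hy, dotProduct_comm p.y p.x] at hv
    exact Heis.ext hx.symm hy.symm (by linarith)

theorem dist_le_iff {p q : Heis n} {r : ℝ} (hr : 0 ≤ r) : dist p q ≤ r ↔
    ‖q.x - p.x‖ ≤ r ∧ ‖q.y - p.y‖ ≤ r ∧ |vert p q| ≤ (2 * n + 2) * r ^ 2 := gauge_le_iff hr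

theorem norm_x_le (p q : Heis n) : ‖q.x - p.x‖ ≤ dist p q := ((dist_le_iff dist_nonneg).1 le_rfl).1
theorem norm_y_le (p q : Heis n) : ‖q.y - p.y‖ ≤ dist p q :=
  ((dist_le_iff dist_nonneg).1 le_rfl).2.1
theorem abs_vert_le (p q : Heis n) : |vert p q| ≤ (2 * n + 2) * dist p q ^ 2 :=
  ((dist_le_iff dist_nonneg).1 le_rfl).2.2

end Heis

end Pool.Agent.Work.MP_4b5e6c_gt
end

-- merged part: Pool.Agent.Work.MP_4b5e6c_gt.HProper
section
/-! Task HPROPER: the Heisenberg group is proper and doubling. -/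

namespace Pool.Agent.Work.MP_4b5e6c_gt

namespace HProper
open Heis
variable {n : ℕ}

/-- Coordinates. -/
def io (v : (Fin n → ℝ) × (Fin n → ℝ) × ℝ) : Heis n := ⟨v.1, v.2.1, v.2.2⟩

theorem io_cont : Continuous (io (n := n)) := by
  refine continuous_iff_continuousAt.2 fun v₀ => tendsto_iff_dist_tendsto_zero.2 ?_
  have h : Continuous fun v : (Fin n → ℝ) × (Fin n → ℝ) × ℝ => dist (io v) (io v₀) := by
    change Continuous fun v : (Fin n → ℝ) × (Fin n → ℝ) × ℝ => Heis.gauge (io v) (io v₀)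
    simp only [Heis.gauge, vert, io]
    fun_prop
  simpa using h.tendsto v₀

/-- Left translation, in coordinates. -/
def tr (p : Heis n) (v : (Fin n → ℝ) × (Fin n → ℝ) × ℝ) : (Fin n → ℝ) × (Fin n → ℝ) × ℝ :=
  (p.x + v.1, p.y + v.2.1, p.t + v.2.2 + 2 * (p.y ⬝ᵥ v.1 - p.x ⬝ᵥ v.2.1))

theorem tr_cont (p : Heis n) : Continuous (tr p) := by
  unfold tr
  fun_prop

theorem ball_sub (p : Heis n) {r : ℝ} (hr : 0 ≤ r) : Metric.closedBall p r ⊆
    (io ∘ tr p) '' (Metric.closedBall 0 r ×ˢ Metric.closedBall 0 r ×ˢ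
      Metric.closedBall 0 ((2 * n + 2) * r ^ 2)) := by
  intro q hq
  rw [Metric.mem_closedBall, dist_comm, dist_le_iff hr] at hq
  refine ⟨(q.x - p.x, q.y - p.y, vert p q), ⟨by simpa using hq.1, by simpa using hq.2.1,
    by simpa using hq.2.2⟩, Heis.ext (by simp [io, tr]) (by simp [io, tr]) ?_⟩
  simp only [Function.comp, io, tr, vert, dotProduct_sub]
  rw [dotProduct_comm p.y p.x]
  ring

/-- Translation by the inverse of `p` followed by the dilation by `r⁻¹`. -/
noncomputable def nm (p : Heis n) (r : ℝ) (q : Heis n) : Heis n :=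
  ⟨r⁻¹ • (q.x - p.x), r⁻¹ • (q.y - p.y), r⁻¹ ^ 2 * vert p q⟩

theorem nm_vert (p : Heis n) (r : ℝ) (q q' : Heis n) :
    vert (nm p r q) (nm p r q') = r⁻¹ ^ 2 * vert q q' := by
  simp only [nm, vert, smul_dotProduct, dotProduct_smul, sub_dotProduct, dotProduct_sub,
    smul_eq_mul]
  rw [dotProduct_comm q.y p.x, dotProduct_comm q.x p.y, dotProduct_comm p.y p.x]
  ring

theorem nm_le (p : Heis n) {r c : ℝ} (hr : 0 < r) (hc : 0 ≤ c) (q q' : Heis n) :
    dist (nm p r q) (nm p r q') ≤ c ↔ dist q q' ≤ c * r := by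
  have e : ∀ a b u : Fin n → ℝ, ‖r⁻¹ • (a - u) - r⁻¹ • (b - u)‖ ≤ c ↔ ‖a - b‖ ≤ c * r := by
    intro a b u
    rw [← smul_sub, sub_sub_sub_cancel_right, norm_smul, Real.norm_of_nonneg (by positivity),
      inv_mul_le_iff₀ hr, mul_comm]
  rw [dist_le_iff hc, dist_le_iff (by positivity), nm_vert, abs_mul, abs_of_nonneg (sq_nonneg _),
    inv_pow, inv_mul_le_iff₀ (by positivity),
    show r ^ 2 * ((2 * (n : ℝ) + 2) * c ^ 2) = (2 * n + 2) * (c * r) ^ 2 by ring]
  exact and_congr (e _ _ _) (and_congr (e _ _ _) Iff.rfl)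

end HProper

open HProper

instance Heis.properSpace (n : ℕ) : ProperSpace (Heis n) := by
  refine ProperSpace.of_isCompact_closedBall_of_le 0 fun p r hr => ?_
  exact (((isCompact_closedBall _ _).prod ((isCompact_closedBall _ _).prod
    (isCompact_closedBall _ _))).image (io_cont.comp (tr_cont p))).of_isClosed_subset
    Metric.isClosed_closedBall (ball_sub p hr)

theorem Heis.doubling (n : ℕ) (A : ℝ) : ∃ M : ℕ, ∀ (p : Heis n) (r : ℝ), 0 < r →
    ∀ s : Finset (Heis n), (∀ q ∈ s, dist q p ≤ A * r) →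
      (∀ q ∈ s, ∀ q' ∈ s, q ≠ q' → r ≤ dist q q') → s.card ≤ M := by
  obtain ⟨t, -, ht, hc⟩ := finite_cover_balls_of_compact
    (isCompact_closedBall (⟨0, 0, 0⟩ : Heis n) |A|) (show (0 : ℝ) < 1 / 3 by norm_num)
  refine ⟨ht.toFinset.card, fun p r hr s h1 h2 => ?_⟩
  have h0 : nm p r p = ⟨0, 0, 0⟩ := by simp [nm, Heis.vert_self]
  have h3 : ∀ q ∈ s, ∃ c ∈ ht.toFinset, dist (nm p r q) c < 1 / 3 := by
    intro q hq
    have h4 : nm p r q ∈ Metric.closedBall (⟨0, 0, 0⟩ : Heis n) |A| := by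
      rw [Metric.mem_closedBall, ← h0, nm_le p hr (abs_nonneg A)]
      exact (h1 q hq).trans (mul_le_mul_of_nonneg_right (le_abs_self A) hr.le)
    simpa using hc h4
  choose! c hc1 hc2 using h3
  refine Finset.card_le_card_of_injOn c (fun q hq => hc1 q hq) fun q hq q' hq' e => ?_
  by_contra hne
  have h5 : dist (nm p r q) (nm p r q') ≤ 2 / 3 := by
    have := dist_triangle_right (nm p r q) (nm p r q') (c q)
    have h6 := hc2 q' hq'
    rw [← e] at h6
    linarith only [this, h6, hc2, hq, hc2 q hq]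
  rw [nm_le p hr (by norm_num)] at h5
  linarith only [hr, h5, h2, hq, hq', hne, h2 q hq q' hq' hne]

end Pool.Agent.Work.MP_4b5e6c_gt
end
end

-- merged part: Pool.Agent.Work.MP_4b5e6c_gt.Glue
section
/-! Task GLUE: gluing lemmas and the basic calculus of homotopies. -/

namespace Pool.Agent.Work.MP_4b5e6c_gt
open Metric Set

section Basic
variable {A B Z : Type} [PseudoMetricSpace A] [PseudoMetricSpace B] [PseudoMetricSpace Z]

theorem lip_iff_aLip {L : ℝ} {f : A → Z} : Lip L f ↔ ALip L 0 f := by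
  simp [Lip, ALip]
theorem Lip.lipschitzWith {L : ℝ} {f : A → Z} (h : Lip L f) : LipschitzWith L.toNNReal f :=
  LipschitzWith.of_dist_le' h
theorem Lip.continuous {L : ℝ} {f : A → Z} (h : Lip L f) : Continuous f :=
  h.lipschitzWith.continuous
theorem Lip.mono {L L' : ℝ} {f : A → Z} (h : Lip L f) (hL : L ≤ L') : Lip L' f :=
  fun a b => (h a b).trans (mul_le_mul_of_nonneg_right hL dist_nonneg)
theorem Lip.comp {L L' : ℝ} {g : B → Z} {f : A → B} (hg : Lip L g) (hf : Lip L' f) (hL : 0 ≤ L) :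
    Lip (L * L') (fun a => g (f a)) := fun a b => by
  rw [mul_assoc]
  exact (hg _ _).trans (mul_le_mul_of_nonneg_left (hf a b) hL)
theorem lip_const {L : ℝ} (hL : 0 ≤ L) (y : Z) : Lip L (fun _ : A => y) := fun a b => by
  rw [dist_self]
  exact mul_nonneg hL dist_nonneg

namespace Glue

theorem exit_pt {E : Type} [NormedAddCommGroup E] [NormedSpace ℝ E] {O : Set E} (hO : IsOpen O)
    {a c : E} (ha : a ∈ O) (hc : c ∉ O) :
    ∃ p ∈ segment ℝ a c, p ∈ closure O ∧ p ∉ O := by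
  by_contra hne
  have hsub : segment ℝ a c ⊆ O := by
    refine (convex_segment a c).isPreconnected.subset_of_closure_inter_subset hO
      ⟨a, left_mem_segment ℝ a c, ha⟩ ?_
    intro p hp
    by_contra hpO
    exact hne ⟨p, hp.2, hp.1, hpO⟩
  exact hc (hsub (right_mem_segment ℝ a c))

theorem alip_nonneg {L κ : ℝ} {f : A → Z} (h : ALip L κ f) (a : A) : 0 ≤ κ := by
  simpa using h a a

theorem dist_fst_le {n : ℕ} (a b : D n × ℝ) : dist a.1 b.1 ≤ dist a b := by
  rw [Prod.dist_eq]; exact le_max_left _ _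

theorem dist_snd_le {n : ℕ} (a b : D n × ℝ) : |a.2 - b.2| ≤ dist a b := by
  rw [Prod.dist_eq, ← Real.dist_eq]; exact le_max_right _ _

theorem clamp_lip (s t : ℝ) : |max 0 (min s 1) - max 0 (min t 1)| ≤ |s - t| := by
  refine (abs_max_sub_max_le_max _ _ _ _).trans (max_le (by simp) ?_)
  refine (abs_min_sub_min_le_max _ _ _ _).trans (max_le le_rfl (by simp))

end Glue

/-- Gluing along disjoint open sets, on a convex set `W`. -/
theorem glue_on {E J : Type} [NormedAddCommGroup E] [NormedSpace ℝ E] {W : Set E}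
    (hW : Convex ℝ W) (s : Set J) (O : J → Set E) (hO : ∀ i ∈ s, IsOpen (O i))
    (hd : ∀ i ∈ s, ∀ j ∈ s, i ≠ j → Disjoint (O i) (O j)) (H H0 : E → Z) (Hi : J → E → Z)
    {L κ κ0 : ℝ} (hL : 0 ≤ L) (hκ : 0 ≤ κ)
    (h0 : ∀ a ∈ W, ∀ b ∈ W, dist (H0 a) (H0 b) ≤ L * dist a b + κ0)
    (hi : ∀ i ∈ s, (O i ∩ W).Nonempty → ∀ a ∈ W ∩ closure (O i), ∀ b ∈ W ∩ closure (O i),
      dist (Hi i a) (Hi i b) ≤ L * dist a b + κ)
    (hin : ∀ i ∈ s, ∀ a ∈ O i, H a = Hi i a) (hout : ∀ a, (∀ i ∈ s, a ∉ O i) → H a = H0 a)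
    (hfr : ∀ i ∈ s, ∀ a ∈ frontier (O i), a ∈ W → Hi i a = H0 a) :
    ∀ a ∈ W, ∀ b ∈ W, dist (H a) (H b) ≤ L * dist a b + (2 * κ + κ0) := by
  have key : ∀ a ∈ W, ∀ c ∈ W, (∀ i ∈ s, a ∈ O i → c ∉ O i) →
      ∃ p ∈ W, (∀ i ∈ s, p ∉ O i) ∧ dist (H a) (H0 p) ≤ L * dist a p + κ ∧
        dist a p + dist p c = dist a c := by
    intro a ha c hc hac
    by_cases hai : ∃ i ∈ s, a ∈ O i
    · obtain ⟨i, his, hai⟩ := hai
      obtain ⟨p, hp, hpc, hpO⟩ := Glue.exit_pt (hO i his) hai (hac i his hai)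
      have hpW : p ∈ W := hW.segment_subset ha hc hp
      refine ⟨p, hpW, fun j hjs hpj => ?_, ?_, dist_add_dist_of_mem_segment hp⟩
      · by_cases hij : i = j
        · exact hpO (hij ▸ hpj)
        · have hdis := (hd i his j hjs hij).closure_left (hO j hjs)
          exact Set.disjoint_left.1 hdis hpc hpj
      · have hfrp : p ∈ frontier (O i) := by
          rw [(hO i his).frontier_eq]; exact ⟨hpc, hpO⟩
        rw [hin i his a hai, ← hfr i his p hfrp hpW]
        exact hi i his ⟨a, hai, ha⟩ a ⟨ha, subset_closure hai⟩ p ⟨hpW, hpc⟩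
    · push Not at hai
      refine ⟨a, ha, hai, ?_, by simp⟩
      rw [hout a hai]; simpa using hκ
  intro a ha b hb
  have hκ0 : 0 ≤ κ0 := by simpa using h0 a ha a ha
  by_cases hab : ∃ i ∈ s, a ∈ O i ∧ b ∈ O i
  · obtain ⟨i, his, hai, hbi⟩ := hab
    rw [hin i his a hai, hin i his b hbi]
    have := hi i his ⟨a, hai, ha⟩ a ⟨ha, subset_closure hai⟩ b ⟨hb, subset_closure hbi⟩
    linarith
  · push Not at hab
    obtain ⟨p, hpW, hpo, hp1, hp2⟩ := key a ha b hb hab
    obtain ⟨q, hqW, -, hq1, hq2⟩ := key b hb p hpW fun i his _ => hpo i his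
    have h3 := h0 p hpW q hqW
    have h4 := dist_triangle4 (H a) (H0 p) (H0 q) (H b)
    rw [dist_comm (H0 q) (H b)] at h4
    rw [dist_comm q p, dist_comm b p] at hq2
    have h5 : L * dist a b = L * dist a p + L * dist p q + L * dist b q := by
      rw [← hp2, ← hq2]; ring
    linarith

/-- Gluing along a finite closed cover of a convex set. -/
theorem glue_closed {E J : Type} [NormedAddCommGroup E] [NormedSpace ℝ E] {W : Set E}
    (hW : Convex ℝ W) (s : Finset J) (F : J → Set E) (hF : ∀ i ∈ s, IsClosed (F i))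
    (hcov : ∀ a ∈ W, ∃ i ∈ s, a ∈ F i) (H : E → Z) {L : ℝ} (hL : 0 ≤ L)
    (h : ∀ i ∈ s, ∀ a ∈ F i ∩ W, ∀ b ∈ F i ∩ W, dist (H a) (H b) ≤ L * dist a b) :
    ∀ a ∈ W, ∀ b ∈ W, dist (H a) (H b) ≤ L * dist a b := by
  classical
  intro a ha b hb
  set γ : ℝ → E := fun t => AffineMap.lineMap a b t with hγ
  have hγc : Continuous γ := AffineMap.lineMap_continuous
  have hγW : ∀ t ∈ Icc (0 : ℝ) 1, γ t ∈ W := fun t ht => hW.lineMap_mem ha hb ht
  have hγd : ∀ t t' : ℝ, t ≤ t' → dist (γ t) (γ t') = (t' - t) * dist a b := by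
    intro t t' htt
    simp only [hγ]
    rw [dist_lineMap_lineMap, Real.dist_eq, abs_sub_comm, abs_of_nonneg (sub_nonneg.2 htt)]
  have main : ∀ r : Finset J, r ⊆ s → ∀ t0 ∈ Icc (0 : ℝ) 1,
      (∀ t ∈ Icc t0 1, ∃ i ∈ r, γ t ∈ F i) →
      dist (H (γ t0)) (H (γ 1)) ≤ L * ((1 - t0) * dist a b) := by
    intro r
    induction r using Finset.strongInduction with
    | H r ih =>
      intro hrs t0 ht0 hc
      obtain ⟨i, hir, hi0⟩ := hc t0 ⟨le_rfl, ht0.2⟩
      have hK : IsCompact (Icc t0 1 ∩ γ ⁻¹' F i) :=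
        isCompact_Icc.inter_right ((hF i (hrs hir)).preimage hγc)
      obtain ⟨t1, ⟨ht1, ht1F⟩, hmax⟩ := hK.exists_isGreatest ⟨t0, ⟨le_rfl, ht0.2⟩, hi0⟩
      have ht1' : t1 ∈ Icc (0 : ℝ) 1 := ⟨ht0.1.trans ht1.1, ht1.2⟩
      have h01 := h i (hrs hir) (γ t0) ⟨hi0, hγW t0 ht0⟩ (γ t1) ⟨ht1F, hγW t1 ht1'⟩
      rw [hγd t0 t1 ht1.1] at h01
      rcases eq_or_lt_of_le ht1.2 with h1 | h1
      · rw [h1] at h01; exact h01
      · have hcl : IsClosed (⋃ j ∈ r.erase i, γ ⁻¹' F j) :=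
          isClosed_biUnion_finset fun j hj =>
            (hF j (hrs (Finset.mem_of_mem_erase hj))).preimage hγc
        have hsub : Ioc t1 1 ⊆ ⋃ j ∈ r.erase i, γ ⁻¹' F j := by
          intro t ht
          obtain ⟨j, hjr, hj⟩ := hc t ⟨ht1.1.trans ht.1.le, ht.2⟩
          have hji : j ≠ i := by
            rintro rfl
            exact absurd (hmax ⟨⟨ht1.1.trans ht.1.le, ht.2⟩, hj⟩) (not_le.2 ht.1)
          exact mem_biUnion (Finset.mem_erase.2 ⟨hji, hjr⟩) hj
        have hsub' : Icc t1 1 ⊆ ⋃ j ∈ r.erase i, γ ⁻¹' F j := by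
          rw [← closure_Ioc h1.ne]
          exact closure_minimal hsub hcl
        have h12 := ih (r.erase i) (Finset.erase_ssubset hir)
          ((Finset.erase_subset i r).trans hrs) t1 ht1' fun t ht => by
            simpa using hsub' ht
        have h3 := dist_triangle (H (γ t0)) (H (γ t1)) (H (γ 1))
        have h4 : L * ((1 - t0) * dist a b) =
            L * ((t1 - t0) * dist a b) + L * ((1 - t1) * dist a b) := by ring
        linarith
  have := main s subset_rfl 0 ⟨le_rfl, zero_le_one⟩ fun t ht => hcov _ (hγW t ht)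
  simpa [hγ] using this

/-- The final estimate of Whitney type extensions. -/
theorem whitney_glue (S W : Set A) (F : A → Z) {L C ε : ℝ} (hε : 0 < ε) (hε1 : ε ≤ 1)
    (hL : 0 ≤ L) (hC : 1 ≤ C) (near : A → A)
    (hnear : ∀ z, near z ∈ S ∧ dist z (near z) = infDist z S)
    (hF : ∀ a ∈ S, ∀ b ∈ S, dist (F a) (F b) ≤ L * dist a b)
    (h1 : ∀ z ∈ W, z ∉ S → dist (F z) (F (near z)) ≤ C * L * infDist z S)
    (h2 : ∀ z ∈ W, ∀ z' ∈ W, z ∉ S → z' ∉ S → dist z z' ≤ ε * infDist z S →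
      dist (F z) (F z') ≤ C * L * dist z z') :
    ∀ z ∈ S ∪ W, ∀ z' ∈ S ∪ W, dist (F z) (F z') ≤ 10 * C / ε * L * dist z z' := by
  have hC0 : 0 ≤ C := zero_le_one.trans hC
  have fin : ∀ (x d e : ℝ), 0 ≤ d → ε * e = d → x ≤ 10 * (C * L * e) →
      x ≤ 10 * C / ε * L * d := by
    intro x d e _ he hx
    have : 10 * C / ε * L * d = 10 * (C * L * e) := by
      rw [← he]; field_simp
    rw [this]; exact hx
  have mix : ∀ z ∈ S, ∀ z' ∈ W, z' ∉ S → dist (F z) (F z') ≤ 3 * (C * L * dist z z') := by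
    intro z hz z' hz' hz'S
    have a1 := hF z hz _ (hnear z').1
    have a2 := h1 z' hz' hz'S
    have a3 : infDist z' S ≤ dist z z' := by
      rw [dist_comm]; exact infDist_le_dist_of_mem hz
    have a4 : dist z (near z') ≤ 2 * dist z z' := by
      have := dist_triangle z z' (near z')
      rw [(hnear z').2] at this
      linarith
    have a5 := dist_triangle_right (F z) (F z') (F (near z'))
    have a6 : L * dist z (near z') ≤ 2 * (C * L * dist z z') := by
      have b1 := mul_le_mul_of_nonneg_left a4 hL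
      have b2 : L * dist z z' ≤ C * (L * dist z z') :=
        le_mul_of_one_le_left (mul_nonneg hL dist_nonneg) hC
      linarith only [b1, b2]
    have a7 : C * L * infDist z' S ≤ C * L * dist z z' :=
      mul_le_mul_of_nonneg_left a3 (mul_nonneg hC0 hL)
    linarith
  intro z hz z' hz'
  have hd : 0 ≤ dist z z' := dist_nonneg
  set e := dist z z' / ε with he
  have hee : ε * e = dist z z' := by rw [he]; field_simp
  have he0 : 0 ≤ e := div_nonneg hd hε.le
  have hde : dist z z' ≤ e := by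
    rw [he, le_div_iff₀ hε]; exact mul_le_of_le_one_right hd hε1
  have hCL : 0 ≤ C * L := mul_nonneg hC0 hL
  have b0 : C * L * dist z z' ≤ C * L * e := mul_le_mul_of_nonneg_left hde hCL
  have b1 : 0 ≤ C * L * dist z z' := mul_nonneg hCL hd
  have b2 : L * e ≤ C * L * e := by
    rw [mul_assoc]; exact le_mul_of_one_le_left (mul_nonneg hL he0) hC
  refine fin _ _ e hd hee ?_
  by_cases hzS : z ∈ S
  · by_cases hz'S : z' ∈ S
    · have c1 := hF z hzS z' hz'S
      have c2 : L * dist z z' ≤ L * e := mul_le_mul_of_nonneg_left hde hL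
      linarith only [b0, b1, b2, c1, c2]
    · have := mix z hzS z' (hz'.resolve_left hz'S) hz'S
      linarith only [b0, b1, this]
  · by_cases hz'S : z' ∈ S
    · have := mix z' hz'S z (hz.resolve_left hzS) hzS
      rw [dist_comm (F z'), dist_comm z'] at this
      linarith only [b0, b1, this]
    · have hzW := hz.resolve_left hzS
      have hz'W := hz'.resolve_left hz'S
      by_cases hsm : dist z z' ≤ ε * infDist z S
      · have := h2 z hzW z' hz'W hzS hz'S hsm
        linarith only [b0, b1, this]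
      · push Not at hsm
        have c1 : infDist z S ≤ e := by
          rw [he, le_div_iff₀ hε, mul_comm]; exact hsm.le
        have c2 : infDist z' S ≤ 2 * e := by
          have := infDist_le_infDist_add_dist (x := z') (y := z) (s := S)
          rw [dist_comm z' z] at this
          linarith
        have c3 : dist (near z) (near z') ≤ 4 * e := by
          have := dist_triangle4 (near z) z z' (near z')
          rw [dist_comm (near z) z, (hnear z).2, (hnear z').2] at this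
          linarith
        have c4 := hF _ (hnear z).1 _ (hnear z').1
        have c5 := h1 z hzW hzS
        have c6 := h1 z' hz'W hz'S
        have c7 := dist_triangle4 (F z) (F (near z)) (F (near z')) (F z')
        rw [dist_comm (F (near z')) (F z')] at c7
        have c8 := mul_le_mul_of_nonneg_left c1 hCL
        have c9 := mul_le_mul_of_nonneg_left c2 hCL
        have c10 := mul_le_mul_of_nonneg_left c3 hL
        have c11 : C * L * (2 * e) = 2 * (C * L * e) := by ring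
        have c12 : L * (4 * e) = 4 * (L * e) := by ring
        linarith only [b0, b1, b2, c4, c5, c6, c7, c8, c9, c10]

end Basic

namespace Hty
variable {n : ℕ} {Z Z' : Type} [MetricSpace Z] [MetricSpace Z'] {L L' κ κ' T T' : ℝ}
  {U U' : Set (D n)} {u u' v w : D n → Z}

theorem refl (h : Lip L u) (hL : 0 ≤ L) (hκ : 0 ≤ κ) : Hty L κ T U u u := by
  refine ⟨fun a => u a.1, fun a b => ?_, fun _ _ _ => rfl, fun _ _ _ => rfl, fun _ _ _ => rfl⟩
  have h1 := h a.1 b.1
  have h2 := mul_le_mul_of_nonneg_left (Glue.dist_fst_le a b) hL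
  linarith
theorem symm (h : Hty L κ T U u u') : Hty L κ T U u' u := by
  obtain ⟨H, hH, h0, h1, hU⟩ := h
  refine ⟨fun a => H (a.1, T - a.2), fun a b => ?_, fun x t ht => h1 x _ (by simpa using ht),
    fun x t ht => h0 x _ (by simpa using ht), fun x t hx => ?_⟩
  · have := hH (a.1, T - a.2) (b.1, T - b.2)
    rw [Prod.dist_eq, dist_sub_left] at this
    rw [Prod.dist_eq]; exact this
  · exact (hU x _ hx).trans ((hU x T hx).symm.trans (h1 x T le_rfl))
theorem trans (h : Hty L κ T U u v) (h' : Hty L κ' T' U v w) (hL : 0 ≤ L) (hT : 0 ≤ T)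
    (hT' : 0 ≤ T') : Hty L (κ + κ') (T + T') U u w := by
  obtain ⟨H, hH, h0, h1, hU⟩ := h
  obtain ⟨G, hG, g0, g1, gU⟩ := h'
  have hκ : 0 ≤ κ := Glue.alip_nonneg hH (0, 0)
  have hκ' : 0 ≤ κ' := Glue.alip_nonneg hG (0, 0)
  have hGs : ∀ a b : D n × ℝ, dist (G (a.1, a.2 - T)) (G (b.1, b.2 - T)) ≤ L * dist a b + κ' := by
    intro a b
    have := hG (a.1, a.2 - T) (b.1, b.2 - T)
    rw [Prod.dist_eq, dist_sub_right] at this
    rw [Prod.dist_eq]; exact this
  have cross : ∀ a b : D n × ℝ, a.2 ≤ T → T < b.2 →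
      dist (H a) (G (b.1, b.2 - T)) ≤ L * dist a b + (κ + κ') := by
    intro a b ha hb
    have hab : 0 < b.2 - a.2 := by linarith
    set τ := (T - a.2) / (b.2 - a.2) with hτ
    have hτ0 : 0 ≤ τ := div_nonneg (by linarith) hab.le
    have hτ1 : τ ≤ 1 := by rw [hτ, div_le_one hab]; linarith
    set m : D n × ℝ := AffineMap.lineMap a b τ with hm
    have hm2 : m.2 = T := by
      rw [hm, AffineMap.lineMap_apply]
      simp only [vsub_eq_sub, vadd_eq_add, Prod.snd_add, Prod.smul_snd, Prod.snd_sub, smul_eq_mul]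
      rw [hτ]; field_simp; ring
    have hseg : m ∈ segment ℝ a b := by
      rw [segment_eq_image_lineMap]; exact ⟨τ, ⟨hτ0, hτ1⟩, rfl⟩
    have hadd := dist_add_dist_of_mem_segment hseg
    have e1 : H m = G (m.1, m.2 - T) := by
      rw [g0 _ _ (by rw [hm2]; simp), ← h1 m.1 m.2 hm2.ge]
    have c1 := hH a m
    have c2 := hGs m b
    rw [← e1] at c2
    have c3 := dist_triangle (H a) (H m) (G (b.1, b.2 - T))
    have c4 : L * dist a b = L * dist a m + L * dist m b := by rw [← hadd]; ring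
    linarith only [c1, c2, c3, c4]
  refine ⟨fun a => if a.2 ≤ T then H a else G (a.1, a.2 - T), fun a b => ?_, fun x t ht => ?_,
    fun x t ht => ?_, fun x t hx => ?_⟩
  · by_cases ha : a.2 ≤ T <;> by_cases hb : b.2 ≤ T <;> simp only [ha, hb, if_true, if_false]
    · have := hH a b; linarith
    · exact cross a b ha (not_le.1 hb)
    · rw [dist_comm, dist_comm a b]; exact cross b a hb (not_le.1 ha)
    · have := hGs a b; linarith
  · simp only [ht.trans hT, if_true]; exact h0 x t ht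
  · by_cases h : t ≤ T
    · simp only [h, if_true]
      rw [h1 x t (by linarith), ← g0 x T' (by linarith), g1 x T' le_rfl]
    · simp only [h, if_false]; exact g1 x _ (by linarith)
  · by_cases h : t ≤ T
    · simp only [h, if_true]; exact hU x t hx
    · simp only [h, if_false]
      rw [gU x _ hx, ← h1 x T le_rfl, hU x T hx]
theorem mono (h : Hty L κ T U u u') (hL : L ≤ L') (hκ : κ ≤ κ') (hT : T ≤ T') (hU : U ⊆ U') :
    Hty L' κ' T' U' u u' := by
  obtain ⟨H, hH, h0, h1, h2⟩ := h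
  refine ⟨H, fun a b => ?_, h0, fun x t ht => h1 x t (hT.trans ht),
    fun x t hx => h2 x t fun hx' => hx (hU hx')⟩
  exact (hH a b).trans (add_le_add (mul_le_mul_of_nonneg_right hL dist_nonneg) hκ)
theorem speed (h : Hty L κ T U u u') (hL : 0 ≤ L) (hT' : 0 < T') (hT : T' ≤ T) :
    Hty (L * (T / T')) κ T' U u u' := by
  obtain ⟨H, hH, h0, h1, h2⟩ := h
  have hc : 1 ≤ T / T' := (one_le_div hT').2 hT
  have hc0 : 0 ≤ T / T' := zero_le_one.trans hc
  refine ⟨fun a => H (a.1, T / T' * a.2), fun a b => ?_,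
    fun x t ht => h0 x _ (mul_nonpos_of_nonneg_of_nonpos hc0 ht), fun x t ht => h1 x _ ?_,
    fun x t hx => h2 x _ hx⟩
  · refine (hH _ _).trans (add_le_add ?_ le_rfl)
    rw [mul_assoc]
    refine mul_le_mul_of_nonneg_left ?_ hL
    rw [Prod.dist_eq]
    refine max_le ((Glue.dist_fst_le a b).trans (le_mul_of_one_le_left dist_nonneg hc)) ?_
    rw [Real.dist_eq, ← mul_sub, abs_mul, abs_of_nonneg hc0]
    exact mul_le_mul_of_nonneg_left (Glue.dist_snd_le a b) hc0
  · calc T = T / T' * T' := by field_simp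
      _ ≤ T / T' * t := mul_le_mul_of_nonneg_left ht hc0
theorem eq_of_not_mem (h : Hty L κ T U u u') {x : D n} (hx : x ∉ U) : u' x = u x := by
  obtain ⟨H, -, -, h1, h2⟩ := h
  rw [← h1 x T le_rfl, h2 x T hx]
theorem lip_left (h : Hty L 0 T U u u') : Lip L u := by
  obtain ⟨H, hH, h0, -, -⟩ := h
  intro x x'
  have := hH (x, 0) (x', 0)
  rw [h0 x 0 le_rfl, h0 x' 0 le_rfl] at this
  simpa [Prod.dist_eq] using this
theorem lip_right (h : Hty L 0 T U u u') : Lip L u' := h.symm.lip_left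
theorem comp (h : Hty L κ T U u u') {B : ℝ} {g : Z → Z'} (hg : Lip B g) (hB : 0 ≤ B) :
    Hty (B * L) (B * κ) T U (fun x => g (u x)) fun x => g (u' x) := by
  obtain ⟨H, hH, h0, h1, h2⟩ := h
  refine ⟨fun a => g (H a), fun a b => ?_, fun x t ht => by simp only [h0 x t ht],
    fun x t ht => by simp only [h1 x t ht], fun x t hx => by simp only [h2 x t hx]⟩
  refine (hg _ _).trans ((mul_le_mul_of_nonneg_left (hH a b) hB).trans (le_of_eq ?_))
  ring
theorem sc {R : ℝ} (h : Hty L κ T (ball 0 R) u u') (P : Pos n) (hP : 0 < P.2) :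
    Hty (L / P.2) κ (P.2 * T) (ball P.1 (P.2 * R)) (sc P u) (sc P u') := by
  obtain ⟨H, hH, h0, h1, h2⟩ := h
  have hi : 0 < P.2⁻¹ := inv_pos.2 hP
  refine ⟨fun a => H (P.2⁻¹ • (a.1 - P.1), P.2⁻¹ * a.2), fun a b => ?_,
    fun x t ht => h0 _ _ (mul_nonpos_of_nonneg_of_nonpos hi.le ht), fun x t ht => h1 _ _ ?_,
    fun x t hx => h2 _ _ fun hx' => hx ?_⟩
  · refine (hH _ _).trans (le_of_eq ?_)
    congr 1
    rw [Prod.dist_eq, Prod.dist_eq, dist_smul₀, dist_sub_right, Real.dist_eq, Real.dist_eq,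
      ← mul_sub, abs_mul, Real.norm_eq_abs, abs_of_pos hi, ← mul_max_of_nonneg _ _ hi.le,
      div_eq_mul_inv, mul_assoc]
  · rw [le_inv_mul_iff₀ hP]; exact ht
  · rw [mem_ball_zero_iff, norm_smul, Real.norm_eq_abs, abs_of_pos hi, inv_mul_lt_iff₀ hP] at hx'
    rw [mem_ball, dist_eq_norm]; exact hx'
theorem unsc {R : ℝ} (P : Pos n) (hP : 0 < P.2) (h : Hty L κ T (ball P.1 (P.2 * R)) u u') :
    Hty (L * P.2) κ (T / P.2) (ball 0 R) (unsc P u) (unsc P u') := by
  obtain ⟨H, hH, h0, h1, h2⟩ := h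
  refine ⟨fun a => H (P.1 + P.2 • a.1, P.2 * a.2), fun a b => ?_,
    fun x t ht => h0 _ _ (mul_nonpos_of_nonneg_of_nonpos hP.le ht), fun x t ht => h1 _ _ ?_,
    fun x t hx => h2 _ _ fun hx' => hx ?_⟩
  · refine (hH _ _).trans (le_of_eq ?_)
    congr 1
    rw [Prod.dist_eq, Prod.dist_eq, dist_add_left, dist_smul₀, Real.dist_eq, Real.dist_eq,
      ← mul_sub, abs_mul, Real.norm_eq_abs, abs_of_pos hP, ← mul_max_of_nonneg _ _ hP.le,
      mul_assoc]
  · rw [div_le_iff₀ hP] at ht; rw [mul_comm]; exact ht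
  · rw [mem_ball, dist_eq_norm, add_sub_cancel_left, norm_smul, Real.norm_eq_abs,
      abs_of_pos hP] at hx'
    rw [mem_ball_zero_iff]; exact lt_of_mul_lt_mul_left hx' hP.le
theorem jump (h : Lip L u) (h' : Lip L u') (hL : 0 ≤ L) (hd : ∀ x, dist (u x) (u' x) ≤ κ)
    (hU : ∀ x, x ∉ U → u' x = u x) (hT : 0 < T) : Hty L κ T U u u' := by
  have hκ : 0 ≤ κ := dist_nonneg.trans (hd 0)
  refine ⟨fun a => if a.2 ≤ 0 then u a.1 else u' a.1, fun a b => ?_, fun x t ht => ?_,
    fun x t ht => ?_, fun x t hx => ?_⟩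
  · have c0 := mul_le_mul_of_nonneg_left (Glue.dist_fst_le a b) hL
    have c1 := h a.1 b.1
    have c2 := h' a.1 b.1
    by_cases ha : a.2 ≤ 0 <;> by_cases hb : b.2 ≤ 0 <;> simp only [ha, hb, if_true, if_false]
    · linarith
    · have c3 := dist_triangle (u a.1) (u b.1) (u' b.1)
      have c4 := hd b.1
      linarith
    · have c3 := dist_triangle_left (u' a.1) (u b.1) (u a.1)
      have c4 := hd a.1
      linarith
    · linarith
  · simp only [ht, if_true]
  · simp only [not_le.2 (hT.trans_le ht), if_false]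
  · by_cases ht : t ≤ 0 <;> simp only [ht, if_true, if_false]
    exact hU x hx

/-- A homotopy from an explicit family on the time interval `[0, 1]`. -/
theorem of_family (G : D n → ℝ → Z) {M : ℝ} (hL : 0 ≤ L) (hM : 0 ≤ M) (hT : 0 < T)
    (hG : ∀ x x', ∀ τ ∈ Icc (0 : ℝ) 1, ∀ τ' ∈ Icc (0 : ℝ) 1,
      dist (G x τ) (G x' τ') ≤ L * dist x x' + M * |τ - τ'|)
    (h0 : ∀ x, G x 0 = u x) (h1 : ∀ x, G x 1 = u' x)
    (hU : ∀ x, x ∉ U → ∀ τ ∈ Icc (0 : ℝ) 1, G x τ = u x) : Hty (L + M / T) 0 T U u u' := by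
  have hmem : ∀ t : ℝ, max 0 (min (t / T) 1) ∈ Icc (0 : ℝ) 1 := fun t =>
    ⟨le_max_left _ _, max_le zero_le_one (min_le_right _ _)⟩
  refine ⟨fun a => G a.1 (max 0 (min (a.2 / T) 1)), fun a b => ?_, fun x t ht => ?_,
    fun x t ht => ?_, fun x t hx => hU x hx _ (hmem t)⟩
  · refine (hG _ _ _ (hmem _) _ (hmem _)).trans ?_
    have c1 := mul_le_mul_of_nonneg_left (Glue.dist_fst_le a b) hL
    have c2 : |max 0 (min (a.2 / T) 1) - max 0 (min (b.2 / T) 1)| ≤ dist a b / T := by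
      refine (Glue.clamp_lip _ _).trans ?_
      rw [← sub_div, abs_div, abs_of_pos hT]
      exact div_le_div_of_nonneg_right (Glue.dist_snd_le a b) hT.le
    have c3 := mul_le_mul_of_nonneg_left c2 hM
    have c4 : (L + M / T) * dist a b + 0 = L * dist a b + M * (dist a b / T) := by ring
    linarith only [c1, c3, c4]
  · have : max 0 (min (t / T) 1) = 0 :=
      max_eq_left ((min_le_left _ _).trans (div_nonpos_of_nonpos_of_nonneg ht hT.le))
    simp only [this, h0]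
  · have : max 0 (min (t / T) 1) = 1 := by
      rw [min_eq_right ((one_le_div hT).2 ht)]; exact max_eq_right zero_le_one
    simp only [this, h1]

/-- Straight line homotopy in a normed space. -/
theorem segment {E : Type} [NormedAddCommGroup E] [NormedSpace ℝ E] {f f' : D n → E}
    (h : Lip L f) (h' : Lip L f') (hL : 0 ≤ L) (hT : 0 < T)
    (hd : ∀ x, dist (f x) (f' x) ≤ L * T) (hU : ∀ x, x ∉ U → f' x = f x) :
    Hty (2 * L) 0 T U f f' := by
  have key := of_family (L := L) (T := T) (U := U) (u := f) (u' := f') (M := L * T)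
    (fun x τ => (1 - τ) • f x + τ • f' x) hL (mul_nonneg hL hT.le) hT ?_ (fun x => by simp)
    (fun x => by simp) fun x hx τ _ => by rw [hU x hx, ← add_smul]; simp
  · have e : L + L * T / T = 2 * L := by field_simp; ring
    rwa [e] at key
  · intro x x' τ hτ τ' _
    have e : (1 - τ) • f x + τ • f' x - ((1 - τ') • f x' + τ' • f' x') =
        (1 - τ) • (f x - f x') + τ • (f' x - f' x') + (τ - τ') • (f' x' - f x') := by
      module
    have c1 := h x x'
    have c2 := h' x x'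
    have c3 := hd x'
    rw [dist_eq_norm] at c1 c2
    rw [dist_comm, dist_eq_norm] at c3
    rw [dist_eq_norm, e]
    refine (norm_add₃_le).trans ?_
    rw [norm_smul, norm_smul, norm_smul, Real.norm_eq_abs, Real.norm_eq_abs, Real.norm_eq_abs,
      abs_of_nonneg (sub_nonneg.2 hτ.2), abs_of_nonneg hτ.1]
    have d1 := mul_le_mul_of_nonneg_left c1 (sub_nonneg.2 hτ.2)
    have d2 := mul_le_mul_of_nonneg_left c2 hτ.1
    have d3 := mul_le_mul_of_nonneg_left c3 (abs_nonneg (τ - τ'))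
    have d4 : (1 - τ) * (L * dist x x') + τ * (L * dist x x') = L * dist x x' := by ring
    have d5 : |τ - τ'| * (L * T) = L * T * |τ - τ'| := by ring
    linarith only [d1, d2, d3]

theorem chain (f : ℕ → D n → Z) (N : ℕ) (h0 : Lip L (f 0)) (hL : 0 ≤ L) (hT : 0 ≤ T)
    (h : ∀ i < N, Hty L κ T U (f i) (f (i + 1))) : Hty L (N * κ) (N * T) U (f 0) (f N) := by
  induction N with
  | zero => simpa using refl h0 hL le_rfl
  | succ N ih =>
    have := (ih fun i hi => h i (hi.trans (Nat.lt_succ_self N))).trans (h N (Nat.lt_succ_self N))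
      hL (mul_nonneg (Nat.cast_nonneg N) hT) hT
    push_cast
    rwa [add_mul, add_mul, one_mul, one_mul]

/-- Approximate homotopies with errors tending to zero give a Lipschitz homotopy. -/
theorem limit [ProperSpace Z] (h : ∀ ε, 0 < ε → Hty L ε T U u u') : Hty L 0 T U u u' := by
  have hpos : ∀ k : ℕ, (0 : ℝ) < 1 / ((k : ℝ) + 1) := fun k => Nat.one_div_pos_of_nat
  choose H hH h0 h1 h2 using fun k : ℕ => h _ (hpos k)
  have hle : (↑(Filter.hyperfilter ℕ) : Filter ℕ) ≤ Filter.atTop := by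
    rw [← Nat.cofinite_eq_atTop]; exact Filter.hyperfilter_le_cofinite
  have hex : ∀ a : D n × ℝ, ∃ z : Z,
      Filter.Tendsto (fun k => H k a) (↑(Filter.hyperfilter ℕ) : Filter ℕ) (nhds z) := by
    intro a
    have hmem : ∀ k, H k a ∈ closedBall (u a.1) (L * dist a (a.1, 0) + 1) := by
      intro k
      have c1 := hH k a (a.1, 0)
      rw [h0 k a.1 0 le_rfl] at c1
      have c2 : 1 / ((k : ℝ) + 1) ≤ 1 := by
        rw [div_le_one (by positivity)]; simp
      rw [mem_closedBall]; linarith only [c1, c2]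
    obtain ⟨z, -, hz⟩ := (isCompact_closedBall (u a.1) (L * dist a (a.1, 0) + 1)).ultrafilter_le_nhds
      ((Filter.hyperfilter ℕ).map fun k => H k a)
      (by
        rw [Filter.le_principal_iff]
        exact Filter.mem_map.2 (Filter.Eventually.of_forall hmem))
    exact ⟨z, hz⟩
  choose G hG using hex
  have hconst : ∀ a z, (∀ k, H k a = z) → G a = z := by
    intro a z hz
    refine tendsto_nhds_unique (hG a) ?_
    simp only [hz]; exact tendsto_const_nhds
  refine ⟨G, fun a b => ?_, fun x t ht => hconst _ _ fun k => h0 k x t ht,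
    fun x t ht => hconst _ _ fun k => h1 k x t ht, fun x t hx => hconst _ _ fun k => h2 k x t hx⟩
  have c1 := (hG a).dist (hG b)
  have c2 : Filter.Tendsto (fun k : ℕ => L * dist a b + 1 / ((k : ℝ) + 1))
      (↑(Filter.hyperfilter ℕ) : Filter ℕ) (nhds (L * dist a b + 0)) :=
    (tendsto_const_nhds.add tendsto_one_div_add_atTop_nhds_zero_nat).mono_left hle
  exact le_of_tendsto_of_tendsto' c1 c2 fun k => hH k a b

/-- Homotopies in disjoint open sets run in parallel. -/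
theorem patch {J : Type} (s : Set J) (O : J → Set (D n)) (hO : ∀ i ∈ s, IsOpen (O i))
    (hd : ∀ i ∈ s, ∀ j ∈ s, i ≠ j → Disjoint (O i) (O j)) (b : D n → Z) (f f' : J → D n → Z)
    (hb : Lip L b) (hL : 0 ≤ L) (hκ : 0 ≤ κ) (hH : ∀ i ∈ s, Hty L κ T (O i) (f i) (f' i))
    (hin : ∀ i ∈ s, ∀ x ∈ O i, u x = f i x ∧ u' x = f' i x)
    (hout : ∀ x, (∀ i ∈ s, x ∉ O i) → u x = b x ∧ u' x = b x)
    (hfr : ∀ i ∈ s, ∀ x ∈ frontier (O i), f i x = b x) :
    Hty L (2 * κ) T (⋃ i ∈ s, O i) u u' := by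
  classical
  haveI : Nonempty Z := ⟨b 0⟩
  choose! H hH h0 h1 h2 using hH
  let G : D n × ℝ → Z := fun a => if h : ∃ i ∈ s, a.1 ∈ O i then H h.choose a else b a.1
  have hGin : ∀ i ∈ s, ∀ a : D n × ℝ, a.1 ∈ O i → G a = H i a := by
    intro i his a ha
    have hex : ∃ i ∈ s, a.1 ∈ O i := ⟨i, his, ha⟩
    have : hex.choose = i := by
      by_contra hne
      exact Set.disjoint_left.1 (hd _ hex.choose_spec.1 i his hne) hex.choose_spec.2 ha
    simp only [G, dif_pos hex, this]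
  have hGout : ∀ a : D n × ℝ, (∀ i ∈ s, a.1 ∉ O i) → G a = b a.1 := by
    intro a ha
    have : ¬ ∃ i ∈ s, a.1 ∈ O i := fun ⟨i, his, hi⟩ => ha i his hi
    simp only [G, dif_neg this]
  refine ⟨G, fun a c => ?_, fun x t ht => ?_, fun x t ht => ?_, fun x t hx => ?_⟩
  · have := glue_on (W := (univ : Set (D n × ℝ))) convex_univ s (fun i => O i ×ˢ univ)
      (fun i hi => (hO i hi).prod isOpen_univ)
      (fun i hi j hj hij => (hd i hi j hj hij).set_prod_left _ _) G (fun a => b a.1) H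
      (L := L) (κ := κ) (κ0 := 0) hL hκ
      (fun a _ c _ => by
        have c1 := hb a.1 c.1
        have c2 := mul_le_mul_of_nonneg_left (Glue.dist_fst_le a c) hL
        linarith)
      (fun i hi _ a _ c _ => hH i hi a c) (fun i hi a ha => hGin i hi a ha.1)
      (fun a ha => hGout a fun i hi hai => ha i hi ⟨hai, mem_univ _⟩)
      (fun i hi a ha _ => by
        rw [frontier_prod_univ_eq] at ha
        have hna : a.1 ∉ O i := by
          have := ha.1
          rw [(hO i hi).frontier_eq] at this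
          exact this.2
        exact (h2 i hi a.1 a.2 hna).trans (hfr i hi a.1 ha.1))
      a (mem_univ _) c (mem_univ _)
    simpa using this
  · by_cases hx : ∃ i ∈ s, x ∈ O i
    · obtain ⟨i, hi, hx⟩ := hx
      rw [hGin i hi (x, t) hx, h0 i hi x t ht, (hin i hi x hx).1]
    · push Not at hx
      rw [hGout (x, t) hx, (hout x hx).1]
  · by_cases hx : ∃ i ∈ s, x ∈ O i
    · obtain ⟨i, hi, hx⟩ := hx
      rw [hGin i hi (x, t) hx, h1 i hi x t ht, (hin i hi x hx).2]
    · push Not at hx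
      rw [hGout (x, t) hx, (hout x hx).2]
  · have hx' : ∀ i ∈ s, x ∉ O i := fun i hi hxi => hx (mem_biUnion hi hxi)
    rw [hGout (x, t) hx', (hout x hx').1]

end Hty

end Pool.Agent.Work.MP_4b5e6c_gt
end

-- merged part: Pool.Agent.Work.MP_4b5e6c_gt.Ins
section
/-! Task INS: insertion of items. -/

namespace Pool.Agent.Work.MP_4b5e6c_gt
open Metric Set

set_option linter.unusedVariables false

variable {n : ℕ} {Z Z' I I' : Type} {b b' : D n → Z} {s t : Finset I} {P P' : I → Pos n}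
  {e e' : I → D n → Z} {L L' κ T : ℝ}

theorem sc_unsc (Q : Pos n) (hQ : 0 < Q.2) (u : D n → Z) : sc Q (unsc Q u) = u := by
  funext x
  simp [sc, unsc, smul_smul, hQ.ne']

theorem unsc_sc (Q : Pos n) (hQ : 0 < Q.2) (u : D n → Z) : unsc Q (sc Q u) = u := by
  funext x
  simp [sc, unsc, smul_smul, hQ.ne']

theorem sc_comp (Q Q' : Pos n) (hQ : 0 < Q.2) (hQ' : 0 < Q'.2) (u : D n → Z) :
    sc (Q.comp Q') u = sc Q (sc Q' u) := by
  funext x
  simp only [sc, Pos.comp]
  congr 1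
  funext i
  simp only [Pi.smul_apply, Pi.sub_apply, Pi.add_apply, smul_eq_mul]
  field_simp
  ring

namespace Ins

theorem dist_sc (Q : Pos n) (hQ : 0 < Q.2) (x y : D n) :
    dist (Q.2⁻¹ • (x - Q.1)) (Q.2⁻¹ • (y - Q.1)) = dist x y / Q.2 := by
  rw [dist_smul₀, dist_sub_right, norm_inv, Real.norm_of_nonneg hQ.le, div_eq_inv_mul]

theorem dist_unsc (Q : Pos n) (hQ : 0 < Q.2) (x y : D n) :
    dist (Q.1 + Q.2 • x) (Q.1 + Q.2 • y) = Q.2 * dist x y := by
  rw [dist_add_left, dist_smul₀, Real.norm_of_nonneg hQ.le]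

theorem norm_sc (Q : Pos n) (hQ : 0 < Q.2) (x : D n) :
    ‖Q.2⁻¹ • (x - Q.1)‖ = dist x Q.1 / Q.2 := by
  rw [← dist_sc Q hQ, sub_self, smul_zero, dist_zero_right]

theorem dist_cen (Q : Pos n) (hQ : 0 < Q.2) (x : D n) :
    dist (Q.1 + Q.2 • x) Q.1 = Q.2 * ‖x‖ := by
  rw [dist_self_add_left, norm_smul, Real.norm_of_nonneg hQ.le]

theorem mem_op (Q : Pos n) (hQ : 0 < Q.2) {x : D n} : x ∈ Q.op ↔ ‖Q.2⁻¹ • (x - Q.1)‖ < 1 := by
  rw [norm_sc Q hQ, div_lt_one hQ, Pos.op, mem_ball]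

theorem add_mem_op (Q : Pos n) (hQ : 0 < Q.2) {x : D n} : Q.1 + Q.2 • x ∈ Q.op ↔ ‖x‖ < 1 := by
  rw [Pos.op, mem_ball, dist_cen Q hQ, mul_lt_iff_lt_one_right hQ]

theorem mem_comp (Q Q' : Pos n) (hQ : 0 < Q.2) {x : D n} :
    x ∈ (Q.comp Q').op ↔ Q.2⁻¹ • (x - Q.1) ∈ Q'.op := by
  have := dist_unsc Q hQ (Q.2⁻¹ • (x - Q.1)) Q'.1
  rw [smul_inv_smul₀ hQ.ne', add_sub_cancel] at this
  simp only [Pos.op, Pos.comp, mem_ball]
  rw [this, mul_lt_mul_iff_right₀ hQ]

theorem closure_op (Q : Pos n) (hQ : 0 < Q.2) : closure Q.op = Q.cl := closure_ball _ hQ.ne'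

theorem cen_mem (Q : Pos n) (hQ : 0 < Q.2) : Q.1 ∈ Q.op := mem_ball_self hQ

theorem op_sub_cl (Q : Pos n) : Q.op ⊆ Q.cl := ball_subset_closedBall

theorem spec (b : D n → Z) (s : Finset I) (P : I → Pos n) (e : I → D n → Z) (x : D n) :
    ((∀ i ∈ s, x ∉ (P i).op) ∧ ins b s P e x = b x) ∨
      ∃ i ∈ s, x ∈ (P i).op ∧ ins b s P e x = sc (P i) (e i) x := by
  unfold ins
  split_ifs with h
  · exact .inr ⟨_, h.choose_spec.1, h.choose_spec.2, rfl⟩
  · exact .inl ⟨fun i hi hx => h ⟨i, hi, hx⟩, rfl⟩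

theorem uniq (h : Arr s P) {i j : I} (hi : i ∈ s) (hj : j ∈ s) {x : D n} (hx : x ∈ (P i).op)
    (hx' : x ∈ (P j).op) : i = j := by
  by_contra ne
  exact disjoint_left.1 (h.2 i hi j hj ne) hx hx'

end Ins

theorem Pos.comp_op_subset (Q Q' : Pos n) (hQ : 0 < Q.2) (h : Q'.op ⊆ ball 0 1) :
    (Q.comp Q').op ⊆ Q.op := fun x hx =>
  (Ins.mem_op Q hQ).2 (mem_ball_zero_iff.1 (h ((Ins.mem_comp Q Q' hQ).1 hx)))

/-- In positive dimension, containment of sup-norm balls is an inequality. -/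
theorem Pos.op_subset_iff (hn : 1 ≤ n) (Q Q' : Pos n) (hQ : 0 < Q.2) :
    Q.op ⊆ Q'.op ↔ dist Q.1 Q'.1 + Q.2 ≤ Q'.2 := by
  refine ⟨fun h => ?_, fun h => ball_subset_ball' (by linarith only [h])⟩
  have hQ' : 0 < Q'.2 := pos_of_mem_ball (h (Ins.cen_mem Q hQ))
  have h1 : Q.cl ⊆ Q'.cl := by
    rw [← Ins.closure_op Q hQ, ← Ins.closure_op Q' hQ']
    exact closure_mono h
  have h2 : ∀ (a : ℝ) i, |a| = Q.2 → |Q.1 i + a - Q'.1 i| ≤ Q'.2 := fun a i ha => by
    have : (fun i => Q.1 i + a) ∈ Q.cl :=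
      (dist_pi_le_iff hQ.le).2 fun i => by rw [Real.dist_eq, add_sub_cancel_left, ha]
    exact (dist_le_pi_dist _ Q'.1 i).trans (h1 this)
  have h3 : ∀ i, dist (Q.1 i) (Q'.1 i) ≤ Q'.2 - Q.2 := fun i => by
    have a := abs_le.1 (h2 Q.2 i (abs_of_pos hQ))
    have b := abs_le.1 (h2 (-Q.2) i (by rw [abs_neg, abs_of_pos hQ]))
    rw [Real.dist_eq, abs_le]
    constructor <;> linarith only [b, a, a.1, a.2, b.1, b.2]
  have := (dist_pi_le_iff (dist_nonneg.trans (h3 ⟨0, hn⟩))).2 h3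
  linarith

theorem Pos.disjoint_iff (Q Q' : Pos n) (hQ : 0 < Q.2) (hQ' : 0 < Q'.2) :
    Disjoint Q.op Q'.op ↔ Q.2 + Q'.2 ≤ dist Q.1 Q'.1 := disjoint_ball_ball_iff hQ hQ'

theorem Pos.disjoint_op_cl {Q Q' : Pos n} (hQ' : 0 < Q'.2) (h : Disjoint Q.op Q'.op) :
    Disjoint Q.op Q'.cl := by
  rw [← Ins.closure_op Q' hQ']
  exact h.closure_right isOpen_ball


theorem ins_of_mem (h : Arr s P) {i : I} (hi : i ∈ s) {x : D n} (hx : x ∈ (P i).op) :
    ins b s P e x = sc (P i) (e i) x := by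
  rcases Ins.spec b s P e x with ⟨a, -⟩ | ⟨j, hj, a, c⟩
  · exact (a i hi hx).elim
  · rw [c, Ins.uniq h hi hj hx a]

theorem ins_of_not_mem {x : D n} (hx : ∀ i ∈ s, x ∉ (P i).op) : ins b s P e x = b x := by
  rcases Ins.spec b s P e x with ⟨-, c⟩ | ⟨j, hj, a, -⟩
  · exact c
  · exact (hx j hj a).elim

theorem ins_empty : ins b (∅ : Finset I) P e = b :=
  funext fun _ => ins_of_not_mem fun _ hi => absurd hi (Finset.notMem_empty _)

theorem ins_comp (f : Z → Z') :
    (fun x => f (ins b s P e x)) = ins (fun x => f (b x)) s P fun i x => f (e i x) := by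
  funext x
  unfold ins
  split_ifs <;> rfl

theorem ins_congr (h : Arr s P) (hP : ∀ i ∈ s, P i = P' i) (he : ∀ i ∈ s, e i = e' i) :
    ins b s P e = ins b s P' e' := by
  funext x
  rcases Ins.spec b s P' e' x with ⟨a, c⟩ | ⟨j, hj, a, c⟩
  · rw [c, ins_of_not_mem fun i hi => by rw [hP i hi]; exact a i hi]
  · rw [c, ins_of_mem h hj (by rw [hP j hj]; exact a), hP j hj, he j hj]

theorem ins_reindex (h : Arr s P) (s' : Finset I') (g : I' → I) (hg : ∀ i ∈ s', g i ∈ s)
    (hsurj : ∀ i ∈ s, ∃ i' ∈ s', g i' = i) :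
    ins b s P e = ins b s' (fun i => P (g i)) fun i => e (g i) := by
  funext x
  rcases Ins.spec b s' (fun i => P (g i)) (fun i => e (g i)) x with ⟨a, c⟩ | ⟨j, hj, a, c⟩
  · rw [c, ins_of_not_mem fun i hi => ?_]
    obtain ⟨i', hi', rfl⟩ := hsurj i hi
    exact a i' hi'
  · rw [c, ins_of_mem h (hg j hj) a]

theorem ins_union [DecidableEq I] (h : Arr (s ∪ t) P) (hd : Disjoint s t) :
    ins b (s ∪ t) P e = ins (ins b s P e) t P e := by
  funext x
  rcases Ins.spec (ins b s P e) t P e x with ⟨a, c⟩ | ⟨j, hj, a, c⟩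
  · rw [c]
    rcases Ins.spec b s P e x with ⟨a', c'⟩ | ⟨j, hj, a', c'⟩
    · rw [c', ins_of_not_mem fun i hi => (Finset.mem_union.1 hi).elim (a' i) (a i)]
    · rw [c', ins_of_mem h (Finset.mem_union_left _ hj) a']
  · rw [c, ins_of_mem h (Finset.mem_union_right _ hj) a]

theorem ins_trivial (h : Arr s P) (he : ∀ i ∈ s, ∀ x ∈ (P i).op, ∀ z, e i z = b x) :
    ins b s P e = b := by
  funext x
  rcases Ins.spec b s P e x with ⟨-, c⟩ | ⟨j, hj, a, c⟩
  · exact c
  · rw [c]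
    exact he j hj x a _

theorem unsc_ins (Q : Pos n) (hQ : 0 < Q.2) (h : Arr s P) :
    unsc Q (ins b s P e) =
      ins (unsc Q b) s (fun i => (Q.2⁻¹ • ((P i).1 - Q.1), (P i).2 / Q.2)) e := by
  funext x
  have key : ∀ i, x ∈ Pos.op (Q.2⁻¹ • ((P i).1 - Q.1), (P i).2 / Q.2) ↔
      Q.1 + Q.2 • x ∈ (P i).op := fun i => by
    have := Ins.dist_sc Q hQ (Q.1 + Q.2 • x) (P i).1
    rw [add_sub_cancel_left, inv_smul_smul₀ hQ.ne'] at this
    simp only [Pos.op, mem_ball]
    rw [this, div_lt_div_iff_of_pos_right hQ]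
  rcases Ins.spec (unsc Q b) s (fun i => (Q.2⁻¹ • ((P i).1 - Q.1), (P i).2 / Q.2)) e x with
    ⟨a, c⟩ | ⟨j, hj, a, c⟩
  · rw [c]
    exact ins_of_not_mem fun i hi hx => a i hi ((key i).2 hx)
  · rw [c]
    refine (ins_of_mem h hj ((key j).1 a)).trans ?_
    have := (h.1 j hj).ne'
    simp only [sc]
    congr 1
    funext i
    simp only [Pi.smul_apply, Pi.sub_apply, Pi.add_apply, smul_eq_mul]
    field_simp
    ring

theorem Arr.subset (h : Arr s P) (hts : t ⊆ s) : Arr t P :=   ⟨fun i hi => h.1 i (hts hi), fun i hi j hj => h.2 i (hts hi) j (hts hj)⟩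

theorem arr_nest (r : I → Finset I') (R : I → I' → Pos n) (h : Arr s P)
    (h' : ∀ i ∈ s, Arr (r i) (R i)) (hin : ∀ i ∈ s, ∀ j ∈ r i, (R i j).op ⊆ ball 0 1) :
    Arr (s.sigma r) fun k : (_ : I) × I' => (P k.1).comp (R k.1 k.2) := by
  constructor
  · rintro ⟨i, j⟩ hk
    obtain ⟨hi, hj⟩ := Finset.mem_sigma.1 hk
    exact mul_pos (h.1 i hi) ((h' i hi).1 j hj)
  · rintro ⟨i, j⟩ hk ⟨i', j'⟩ hk' ne
    obtain ⟨hi, hj⟩ := Finset.mem_sigma.1 hk
    obtain ⟨hi', hj'⟩ := Finset.mem_sigma.1 hk'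
    refine disjoint_left.2 fun x hx hx' => ne ?_
    obtain rfl : i = i' := Ins.uniq h hi hi'
      (Pos.comp_op_subset _ _ (h.1 i hi) (hin i hi j hj) hx)
      (Pos.comp_op_subset _ _ (h.1 i' hi') (hin i' hi' j' hj') hx')
    obtain rfl : j = j' := Ins.uniq (h' i hi) hj hj' ((Ins.mem_comp _ _ (h.1 i hi)).1 hx)
      ((Ins.mem_comp _ _ (h.1 i hi)).1 hx')
    rfl

theorem ins_nest (r : I → Finset I') (R : I → I' → Pos n) (f : I → I' → D n → Z) (p : I → Z)
    (h : Arr s P) (h' : ∀ i ∈ s, Arr (r i) (R i))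
    (hin : ∀ i ∈ s, ∀ j ∈ r i, (R i j).op ⊆ ball 0 1)
    (hp : ∀ i ∈ s, ∀ x ∈ (P i).op, b x = p i) :
    ins b s P (fun i => ins (fun _ => p i) (r i) (R i) (f i)) =
      ins b (s.sigma r) (fun k : (_ : I) × I' => (P k.1).comp (R k.1 k.2))
        fun k => f k.1 k.2 := by
  funext x
  rcases Ins.spec b (s.sigma r) (fun k : (_ : I) × I' => (P k.1).comp (R k.1 k.2))
    (fun k => f k.1 k.2) x with ⟨a, c⟩ | ⟨⟨i, j⟩, hk, a, c⟩
  · rw [c]
    by_cases hx : ∃ i ∈ s, x ∈ (P i).op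
    · obtain ⟨i, hi, hx⟩ := hx
      rw [ins_of_mem h hi hx, hp i hi x hx]
      exact ins_of_not_mem fun j hj hx' =>
        a ⟨i, j⟩ (Finset.mem_sigma.2 ⟨hi, hj⟩) ((Ins.mem_comp _ _ (h.1 i hi)).2 hx')
    · exact ins_of_not_mem fun i hi hx' => hx ⟨i, hi, hx'⟩
  · obtain ⟨hi, hj⟩ := Finset.mem_sigma.1 hk
    rw [c, ins_of_mem h hi (Pos.comp_op_subset _ _ (h.1 i hi) (hin i hi j hj) a),
      sc_comp _ _ (h.1 i hi) ((h' i hi).1 j hj)]
    exact ins_of_mem (h' i hi) hj ((Ins.mem_comp _ _ (h.1 i hi)).1 a)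


variable [MetricSpace Z] [MetricSpace Z']

theorem Item.mono {y : Z} {f : D n → Z} (h : Item y L f) (hL : L ≤ L') : Item y L' f :=   ⟨h.1.mono hL, h.2⟩

theorem Item.comp {y : Z} {f : D n → Z} (h : Item y L f) {B : ℝ} {g : Z → Z'} (hg : Lip B g)
    (hB : 0 ≤ B) : Item (g y) (B * L) fun x => g (f x) :=   ⟨hg.comp h.1 hB, fun x hx => congrArg g (h.2 x hx)⟩

theorem Item.dist_le (hn : 1 ≤ n) {y : Z} {f : D n → Z} (h : Item y L f) (hL : 0 ≤ L) (x : D n) :
    dist (f x) y ≤ L := by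
  by_cases hx : 1 ≤ ‖x‖
  · rw [h.2 x hx, dist_self]
    exact hL
  · have h1 : ∀ i, |x i| ≤ 1 := fun i => (norm_le_pi_norm x i).trans (not_le.1 hx).le
    obtain ⟨z, hz⟩ : ∃ z : D n, ∀ i, z i = if 0 ≤ x i then 1 else -1 := ⟨_, fun _ => rfl⟩
    have h2 : 1 ≤ ‖z‖ := by
      refine le_trans ?_ (norm_le_pi_norm z ⟨0, hn⟩)
      rw [hz]
      split_ifs <;> simp
    have h3 : dist x z ≤ 1 := (dist_pi_le_iff zero_le_one).2 fun i => by
      have := abs_le.1 (h1 i)
      rw [Real.dist_eq, hz, abs_le]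
      split_ifs with c
      · constructor <;> linarith only [c, this, this.2]
      · constructor <;> linarith only [this, c, this.1, not_le.1 c]
    rw [← h.2 z h2]
    exact (h.1 x z).trans (mul_le_of_le_one_right hL h3)

theorem Item.cpt {y : Z} {f : D n → Z} (h : Item y L f) : Cpt y f := ⟨1, h.2⟩

theorem Item.lip_sc {y : Z} {f : D n → Z} (Q : Pos n) (hQ : 0 < Q.2) (h : Item y (L * Q.2) f) :
    Lip L (sc Q f) := fun x x' => by
  refine (h.1 _ _).trans_eq ?_
  rw [Ins.dist_sc Q hQ]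
  field_simp

theorem Item.sc_eq {y : Z} {f : D n → Z} (Q : Pos n) (hQ : 0 < Q.2) (h : Item y L f) {x : D n}
    (hx : x ∉ Q.op) : sc Q f x = y :=   h.2 _ (not_lt.1 fun c => hx ((Ins.mem_op Q hQ).2 c))

theorem item_unsc {y : Z} {u : D n → Z} (Q : Pos n) (hQ : 0 < Q.2) (h : Lip L u)
    (hy : ∀ x, x ∉ Q.op → u x = y) : Item y (L * Q.2) (unsc Q u) :=   ⟨fun x x' => (h _ _).trans_eq (by rw [Ins.dist_unsc Q hQ, mul_assoc]),
    fun x hx => hy _ fun c => not_lt.2 hx ((Ins.add_mem_op Q hQ).1 c)⟩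

/-- A single item over a constant background. -/
theorem ins_singleton_const {y : Z} {i : I} (hP : 0 < (P i).2) (h : Item y L (e i)) :
    ins (fun _ => y) {i} P e = sc (P i) (e i) := by
  funext x
  rcases Ins.spec (fun _ => y) {i} P e x with ⟨a, c⟩ | ⟨j, hj, -, c⟩
  · rw [c, h.sc_eq _ hP (a i (Finset.mem_singleton_self i))]
  · rw [c, Finset.mem_singleton.1 hj]


theorem Fit.subset (h : Fit L b s P e) (hts : t ⊆ s) : Fit L b t P e :=   ⟨h.arr.subset hts, fun i hi => h.item i (hts hi), fun i hi => h.flat i (hts hi)⟩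

theorem Fit.mono (h : Fit L b s P e) (hL : L ≤ L') : Fit L' b s P e :=   ⟨h.arr, fun i hi => (h.item i hi).mono (mul_le_mul_of_nonneg_right hL (h.arr.1 i hi).le), h.flat⟩

theorem Fit.lip (h : Fit L b s P e) (hb : Lip L b) (hL : 0 ≤ L) : Lip L (ins b s P e) := by
  intro x x'
  have := glue_on (W := univ) convex_univ (s : Set I) (fun i => (P i).op)
    (fun _ _ => isOpen_ball) h.arr.2 (ins b s P e) b (fun i => sc (P i) (e i)) (κ := 0) (κ0 := 0)
    hL le_rfl (fun a _ a' _ => by simpa using hb a a')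
    (fun i hi _ a _ a' _ => by simpa using (h.item i hi).lip_sc _ (h.arr.1 i hi) a a')
    (fun i hi a ha => ins_of_mem h.arr hi ha) (fun a ha => ins_of_not_mem ha)
    (fun i hi a ha _ => by
      have ha' : a ∈ sphere (P i).1 (P i).2 := frontier_ball_subset_sphere ha
      rw [(h.item i hi).sc_eq _ (h.arr.1 i hi) fun c => (mem_ball.1 c).ne ha',
        h.flat i hi a (sphere_subset_closedBall ha')]) x trivial x' trivial
  simpa using this

theorem Fit.ins_left [DecidableEq I] (h : Fit L b (s ∪ t) P e) (hd : Disjoint s t) :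
    Fit L (ins b s P e) t P e := by
  have key : ∀ i ∈ t, ∀ x ∈ (P i).cl, ins b s P e x = b (P i).1 := fun i hi x hx => by
    have hi' := Finset.mem_union_right s hi
    rw [ins_of_not_mem fun j hj c => ?_, h.flat i hi' x hx]
    refine disjoint_left.1 (Pos.disjoint_op_cl (h.arr.1 i hi')
      (h.arr.2 j (Finset.mem_union_left t hj) i hi' ?_)) c hx
    rintro rfl
    exact Finset.disjoint_left.1 hd hj hi
  have cen : ∀ i ∈ t, ins b s P e (P i).1 = b (P i).1 := fun i hi =>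
    key i hi _ (mem_closedBall_self (h.arr.1 i (Finset.mem_union_right s hi)).le)
  exact ⟨h.arr.subset Finset.subset_union_right,
    fun i hi => by rw [cen i hi]; exact h.item i (Finset.mem_union_right s hi),
    fun i hi x hx => by rw [cen i hi, key i hi x hx]⟩

theorem Fit.comp (h : Fit L b s P e) {B : ℝ} {g : Z → Z'} (hg : Lip B g) (hB : 0 ≤ B) :
    Fit (B * L) (fun x => g (b x)) s P fun i x => g (e i x) :=   ⟨h.arr, fun i hi => by rw [mul_assoc]; exact (h.item i hi).comp hg hB,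
    fun i hi x hx => by rw [h.flat i hi x hx]⟩

/-- An arrangement inside the unit ball over a constant background is an item. -/
theorem Fit.item_ins {y : Z} (h : Fit L (fun _ => y) s P e) (hL : 0 ≤ L)
    (hin : ∀ i ∈ s, (P i).op ⊆ ball 0 1) : Item y L (ins (fun _ => y) s P e) :=   ⟨h.lip (lip_const hL y) hL, fun x hx => ins_of_not_mem fun i hi c =>
    not_lt.2 hx (mem_ball_zero_iff.1 (hin i hi c))⟩

theorem fit_nest (r : I → Finset I') (R : I → I' → Pos n) (f : I → I' → D n → Z) (h : Arr s P)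
    (hflat : ∀ i ∈ s, ∀ x ∈ (P i).cl, b x = b (P i).1)
    (h' : ∀ i ∈ s, Fit (L * (P i).2) (fun _ => b (P i).1) (r i) (R i) (f i))
    (hin : ∀ i ∈ s, ∀ j ∈ r i, (R i j).op ⊆ ball 0 1) :
    Fit L b (s.sigma r) (fun k : (_ : I) × I' => (P k.1).comp (R k.1 k.2))
      fun k => f k.1 k.2 := by
  have key : ∀ i ∈ s, ∀ j ∈ r i, ∀ x ∈ ((P i).comp (R i j)).cl, b x = b (P i).1 := by
    intro i hi j hj x hx
    refine hflat i hi x ?_
    rw [← Ins.closure_op _ (mul_pos (h.1 i hi) ((h' i hi).arr.1 j hj))] at hx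
    rw [← Ins.closure_op _ (h.1 i hi)]
    exact closure_mono (Pos.comp_op_subset _ _ (h.1 i hi) (hin i hi j hj)) hx
  have cen : ∀ i ∈ s, ∀ j ∈ r i, b ((P i).comp (R i j)).1 = b (P i).1 := fun i hi j hj =>
    key i hi j hj _ (mem_closedBall_self (mul_pos (h.1 i hi) ((h' i hi).arr.1 j hj)).le)
  refine ⟨arr_nest r R h (fun i hi => (h' i hi).arr) hin, ?_, ?_⟩
  · rintro ⟨i, j⟩ hk
    obtain ⟨hi, hj⟩ := Finset.mem_sigma.1 hk
    have := (h' i hi).item j hj
    rw [mul_assoc] at this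
    rw [cen i hi j hj]
    exact this
  · rintro ⟨i, j⟩ hk x hx
    obtain ⟨hi, hj⟩ := Finset.mem_sigma.1 hk
    rw [cen i hi j hj, key i hi j hj x hx]

theorem Fit.range_ins (h : Fit L b s P e) :
    range (ins b s P e) ⊆ range b ∪ ⋃ i ∈ s, range (e i) := by
  rintro _ ⟨x, rfl⟩
  rcases Ins.spec b s P e x with ⟨-, c⟩ | ⟨j, hj, -, c⟩
  · exact .inl ⟨x, c.symm⟩
  · exact .inr (mem_iUnion₂.2 ⟨j, hj, _, c.symm⟩)

theorem Fit.range_item (h : Fit L b s P e) {i : I} (hi : i ∈ s) :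
    range (e i) ⊆ range (ins b s P e) := by
  rintro _ ⟨z, rfl⟩
  have hP := h.arr.1 i hi
  by_cases hz : ‖z‖ < 1
  · refine ⟨(P i).1 + (P i).2 • z, ?_⟩
    rw [ins_of_mem h.arr hi ((Ins.add_mem_op _ hP).2 hz)]
    exact congrFun (unsc_sc _ hP (e i)) z
  · have h1 : ‖‖z‖⁻¹ • z‖ = 1 := norm_smul_inv_norm (𝕜 := ℝ) (by
      rintro rfl
      exact hz (by simp))
    have h2 : (P i).1 + (P i).2 • ‖z‖⁻¹ • z ∈ (P i).cl := by
      rw [Pos.cl, mem_closedBall, Ins.dist_cen _ hP, h1, mul_one]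
    refine ⟨(P i).1 + (P i).2 • ‖z‖⁻¹ • z, ?_⟩
    rw [ins_of_not_mem fun j hj c => ?_, h.flat i hi _ h2, (h.item i hi).2 z (not_lt.1 hz)]
    by_cases e : j = i
    · subst e
      exact h1.not_lt ((Ins.add_mem_op _ hP).1 c)
    · exact disjoint_left.1 (Pos.disjoint_op_cl hP (h.arr.2 j hj i hi e)) c h2


end Pool.Agent.Work.MP_4b5e6c_gt
end

-- merged part: Pool.Agent.Work.MP_4b5e6c_gt.InsH
section
/-! Task INSH: homotopies of arrangements of items. -/

namespace Pool.Agent.Work.MP_4b5e6c_gt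
open Metric Set

variable {n : ℕ} {Z I I' : Type} [MetricSpace Z] {b b' : D n → Z} {s : Finset I}
  {P P' : I → Pos n} {e e' : I → D n → Z} {L κ T : ℝ}

namespace InsH

omit [MetricSpace Z] in
theorem ins_bg {x : D n} (h : b x = b' x) : ins b s P e x = ins b' s P e x := by
  simp only [ins, h]

theorem frontier_op {Q : Pos n} {x : D n} (h : x ∈ frontier Q.op) : x ∉ Q.op ∧ x ∈ Q.cl := by
  have := frontier_ball_subset_sphere h
  exact ⟨fun a => (mem_ball.1 a).ne (mem_sphere.1 this), sphere_subset_closedBall this⟩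

theorem sc_bd (hf : Fit L b s P e) {i : I} (hi : i ∈ s) {x : D n} (h : x ∉ (P i).op)
    (h' : x ∈ (P i).cl) : sc (P i) (e i) x = b x := by
  rw [(hf.item i hi).sc_eq _ (hf.arr.1 i hi) h, hf.flat i hi x h']

/-- The estimate for an item seen from two positions. -/
theorem sc_est {f : D n → Z} {A B : Pos n} (hA : 0 < A.2) (hB : 0 < B.2) (hL : 0 ≤ L)
    (hf : Lip (L * B.2) f) {x x' : D n} (hx : x ∈ A.cl) :
    dist (sc A f x) (sc B f x') ≤ L * (dist x x' + 2 * dist A B) := by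
  refine (hf _ _).trans ?_
  have h1 : ‖A.2⁻¹ • (x - A.1)‖ ≤ 1 := by
    rw [norm_smul, Real.norm_of_nonneg (inv_pos.2 hA).le, inv_mul_le_iff₀ hA, mul_one,
      ← dist_eq_norm]
    exact hx
  have e : B.2 • (A.2⁻¹ • (x - A.1) - B.2⁻¹ • (x' - B.1)) =
      (x - x') - (A.1 - B.1) - (A.2 - B.2) • (A.2⁻¹ • (x - A.1)) := by
    rw [smul_sub B.2, sub_smul, smul_inv_smul₀ hA.ne', smul_inv_smul₀ hB.ne']
    abel
  have h2 : ‖A.1 - B.1‖ ≤ dist A B := by
    rw [← dist_eq_norm, Prod.dist_eq]; exact le_max_left _ _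
  have h3 : ‖A.2 - B.2‖ ≤ dist A B := by
    rw [← dist_eq_norm, Prod.dist_eq]; exact le_max_right _ _
  have h4 : B.2 * dist (A.2⁻¹ • (x - A.1)) (B.2⁻¹ • (x' - B.1)) ≤ dist x x' + 2 * dist A B := by
    rw [dist_eq_norm, ← Real.norm_of_nonneg hB.le, ← norm_smul, Real.norm_of_nonneg hB.le, e,
      dist_eq_norm x]
    have h5 := norm_sub_le ((x - x') - (A.1 - B.1)) ((A.2 - B.2) • (A.2⁻¹ • (x - A.1)))
    have h6 := norm_sub_le (x - x') (A.1 - B.1)
    rw [norm_smul] at h5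
    have h7 := mul_le_of_le_one_right (norm_nonneg (A.2 - B.2)) h1
    linarith only [h2, h3, h5, h6, h7]
  rw [mul_assoc]
  exact mul_le_mul_of_nonneg_left h4 hL

theorem line_le {A B R : Pos n} (hA : dist A.1 R.1 + A.2 ≤ R.2) (hB : dist B.1 R.1 + B.2 ≤ R.2)
    {θ : ℝ} (h0 : 0 ≤ θ) (h1 : θ ≤ 1) :
    dist (AffineMap.lineMap A B θ : Pos n).1 R.1 + (AffineMap.lineMap A B θ : Pos n).2 ≤ R.2 := by
  have e : (AffineMap.lineMap A B θ : Pos n).1 - R.1 = (1 - θ) • (A.1 - R.1) + θ • (B.1 - R.1) := by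
    simp only [AffineMap.lineMap_apply_module, Prod.fst_add, Prod.smul_fst]
    module
  have h2 := norm_add_le ((1 - θ) • (A.1 - R.1)) (θ • (B.1 - R.1))
  rw [norm_smul, norm_smul, Real.norm_of_nonneg h0, Real.norm_of_nonneg (sub_nonneg.2 h1),
    ← e, ← dist_eq_norm, ← dist_eq_norm, ← dist_eq_norm] at h2
  have h3 := mul_le_mul_of_nonneg_left hA (sub_nonneg.2 h1)
  have h4 := mul_le_mul_of_nonneg_left hB h0
  simp only [AffineMap.lineMap_apply_module, Prod.snd_add, Prod.smul_snd, smul_eq_mul] at h2 ⊢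
  linarith

theorem line_ge {A B : Pos n} {θ : ℝ} (h0 : 0 ≤ θ) (h1 : θ ≤ 1) :
    min A.2 B.2 ≤ (AffineMap.lineMap A B θ : Pos n).2 := by
  have h3 := mul_le_mul_of_nonneg_left (min_le_left A.2 B.2) (sub_nonneg.2 h1)
  have h4 := mul_le_mul_of_nonneg_left (min_le_right A.2 B.2) h0
  simp only [AffineMap.lineMap_apply_module, Prod.snd_add, Prod.smul_snd, smul_eq_mul]
  linarith

end InsH

open InsH

/-- A homotopy of the background which is stationary on the items. -/
theorem Hty.insert {U : Set (D n)} (h : Hty L 0 T U b b') (hL : 0 ≤ L) (hf : Fit L b s P e)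
    (hU : ∀ i ∈ s, Disjoint (P i).op U) :
    Hty L 0 T U (ins b s P e) (ins b' s P e) ∧ Fit L b' s P e := by
  obtain ⟨H, hH, h0, h1, h2⟩ := h
  have hc : Continuous H := (lip_iff_aLip.2 hH).continuous
  have key : ∀ i ∈ s, ∀ t, ∀ x ∈ (P i).cl, H (x, t) = b (P i).1 := fun i hi t x hx => by
    have : EqOn (fun x => H (x, t)) (fun _ => b (P i).1) (closure (P i).op) :=
      EqOn.closure (fun z hz => (h2 z t (disjoint_left.1 (hU i hi) hz)).trans
        (hf.flat i hi z (ball_subset_closedBall hz))) (by fun_prop) continuous_const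
    rw [Pos.op, closure_ball _ (hf.arr.1 i hi).ne'] at this
    exact this hx
  have k' : ∀ i ∈ s, ∀ x ∈ (P i).cl, b' x = b (P i).1 := fun i hi x hx => by
    rw [← h1 x T le_rfl, key i hi T x hx]
  have kc : ∀ i ∈ s, b' (P i).1 = b (P i).1 := fun i hi =>
    k' i hi _ (mem_closedBall_self (hf.arr.1 i hi).le)
  refine ⟨⟨fun p => ins (fun x => H (x, p.2)) s P e p.1, fun p q => ?_,
    fun x t ht => ins_bg (h0 x t ht), fun x t ht => ins_bg (h1 x t ht),
    fun x t ht => ins_bg (h2 x t ht)⟩, hf.arr, fun i hi => kc i hi ▸ hf.item i hi,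
    fun i hi x hx => by rw [k' i hi x hx, kc i hi]⟩
  have := glue_on (W := (univ : Set (D n × ℝ))) convex_univ (s : Set I)
    (fun i => (P i).op ×ˢ univ) (fun i _ => isOpen_ball.prod isOpen_univ)
    (fun i hi j hj hij => (hf.arr.2 i hi j hj hij).set_prod_left _ _)
    (fun p => ins (fun x => H (x, p.2)) s P e p.1) H
    (fun i p => Pool.Agent.Work.MP_4b5e6c_gt.sc (P i) (e i) p.1)
    (κ := 0) (κ0 := 0) hL le_rfl (fun a _ c _ => hH a c)
    (fun i hi _ a _ c _ => by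
      rw [add_zero]
      exact ((hf.item i hi).lip_sc _ (hf.arr.1 i hi) _ _).trans
        (mul_le_mul_of_nonneg_left (le_max_left _ _) hL))
    (fun i hi a ha => ins_of_mem hf.arr hi ha.1)
    (fun a ha => ins_of_not_mem fun i hi c => ha i hi ⟨c, trivial⟩)
    (fun i hi a ha _ => by
      rw [frontier_prod_univ_eq] at ha
      obtain ⟨c, d⟩ := frontier_op ha.1
      rw [sc_bd hf hi c d, hf.flat i hi _ d, ← key i hi a.2 _ d])
    p trivial q trivial
  simpa using this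

/-- Homotopies of the items run in parallel. -/
theorem Hty.items (hb : Lip L b) (hL : 0 ≤ L) (hκ : 0 ≤ κ) (hf : Fit L b s P e) (τ : I → ℝ)
    (hτ : ∀ i ∈ s, (P i).2 * τ i ≤ T)
    (h : ∀ i ∈ s, Hty (L * (P i).2) κ (τ i) (ball 0 1) (e i) (e' i)) :
    Hty L (2 * κ) T (⋃ i ∈ s, (P i).op) (ins b s P e) (ins b s P e') :=
  Hty.patch (s : Set I) (fun i => (P i).op) (fun _ _ => isOpen_ball) hf.arr.2 b
    (fun i => Pool.Agent.Work.MP_4b5e6c_gt.sc (P i) (e i))
    (fun i => Pool.Agent.Work.MP_4b5e6c_gt.sc (P i) (e' i)) hb hL hκ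
    (fun i hi => ((h i hi).sc (P i) (hf.arr.1 i hi)).mono
      (mul_div_cancel_right₀ L (hf.arr.1 i hi).ne').le le_rfl (hτ i hi) (by rw [mul_one]; rfl))
    (fun _ hi _ hx => ⟨ins_of_mem hf.arr hi hx, ins_of_mem hf.arr hi hx⟩)
    (fun _ hx => ⟨ins_of_not_mem hx, ins_of_not_mem hx⟩)
    fun _ hi _ hx => sc_bd hf hi (frontier_op hx).1 (frontier_op hx).2

/-- A homotopy of arrangements over a constant background, in a ball where `b` is constant. -/
theorem Hty.local {y : Z} (hb : Lip L b) (hL : 0 ≤ L) (hκ : 0 ≤ κ) (Q : Pos n)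
    (hy : ∀ x ∈ Q.cl, b x = y) {s' : Finset I'} {R : I' → Pos n} {f : I' → D n → Z}
    (hin : ∀ i ∈ s, (P i).op ⊆ Q.op) (hin' : ∀ i ∈ s', (R i).op ⊆ Q.op)
    (h : Hty L κ T Q.op (ins (fun _ => y) s P e) (ins (fun _ => y) s' R f)) :
    Hty L (2 * κ) T Q.op (ins b s P e) (ins b s' R f) := by
  have := Hty.patch (u := ins b s P e) (u' := ins b s' R f) (univ : Set Unit) (fun _ => Q.op)
    (fun _ _ => isOpen_ball) (fun _ _ _ _ c => (c rfl).elim) b
    (fun _ => ins (fun _ => y) s P e) (fun _ => ins (fun _ => y) s' R f) hb hL hκ (fun _ _ => h)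
    (fun _ _ x hx => ⟨ins_bg (hy x (ball_subset_closedBall hx)),
      ins_bg (hy x (ball_subset_closedBall hx))⟩)
    (fun x hx => ⟨ins_of_not_mem fun i hi c => hx () trivial (hin i hi c),
      ins_of_not_mem fun i hi c => hx () trivial (hin' i hi c)⟩)
    fun _ _ x hx => by
      rw [ins_of_not_mem fun i hi c => (frontier_op hx).1 (hin i hi c), hy x (frontier_op hx).2]
  exact this.mono le_rfl le_rfl le_rfl (iUnion₂_subset fun _ _ => subset_rfl)

/-- Moving items. -/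
theorem Hty.motion {U : Set (D n)} (hb : Lip L b) (hL : 0 ≤ L) (Q : ℝ → I → Pos n) {v : ℝ}
    (hv : 0 ≤ v) (hT : 0 < T) (hfit : ∀ τ ∈ Icc 0 T, Fit L b s (Q τ) e)
    (hsp : ∀ i ∈ s, ∀ τ ∈ Icc 0 T, ∀ τ' ∈ Icc 0 T, dist (Q τ i) (Q τ' i) ≤ v * |τ - τ'|)
    (hU : ∀ τ ∈ Icc 0 T, ∀ i ∈ s, (Q τ i).op ⊆ U) :
    Hty (L * (1 + 2 * v)) 0 T U (ins b s (Q 0) e) (ins b s (Q T) e) := by
  let c : ℝ → ℝ := fun t => (projIcc 0 T hT.le t : ℝ)
  have hc : ∀ t, c t ∈ Icc 0 T := fun t => (projIcc 0 T hT.le t).2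
  have hq : ∀ i ∈ s, Lip v fun t => Q (c t) i := fun i hi t t' =>
    (hsp i hi _ (hc t) _ (hc t')).trans
      (mul_le_mul_of_nonneg_left (abs_projIcc_sub_projIcc hT.le) hv)
  have f1 : ∀ i ∈ s, Continuous fun p : D n × ℝ => dist p.1 (Q (c p.2) i).1 := fun i hi =>
    continuous_fst.dist ((hq i hi).continuous.comp continuous_snd).fst
  have f2 : ∀ i ∈ s, Continuous fun p : D n × ℝ => (Q (c p.2) i).2 := fun i hi =>
    ((hq i hi).continuous.comp continuous_snd).snd
  refine ⟨fun p => ins b s (Q (c p.2)) e p.1, fun p q => ?_, fun x t ht => ?_, fun x t ht => ?_,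
    fun x t hx => ?_⟩
  · have hL' : L ≤ L * (1 + 2 * v) := le_mul_of_one_le_right hL (by linarith)
    have := glue_on (W := (univ : Set (D n × ℝ))) convex_univ (s : Set I)
      (fun i => {p | dist p.1 (Q (c p.2) i).1 < (Q (c p.2) i).2})
      (fun i hi => isOpen_lt (f1 i hi) (f2 i hi))
      (fun i hi j hj hij => disjoint_left.2 fun a x y =>
        disjoint_left.1 ((hfit _ (hc a.2)).arr.2 i hi j hj hij) x y)
      (fun p => ins b s (Q (c p.2)) e p.1) (fun p => b p.1)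
      (fun i p => Pool.Agent.Work.MP_4b5e6c_gt.sc (Q (c p.2) i) (e i) p.1)
      (κ := 0) (κ0 := 0) (hL.trans hL') le_rfl
      (fun a _ d _ => by
        rw [add_zero]
        exact (hb _ _).trans (mul_le_mul hL' (le_max_left _ _) dist_nonneg (hL.trans hL')))
      (fun i hi _ a ha d _ => by
        have h1 := closure_lt_subset_le (f1 i hi) (f2 i hi) ha.2
        refine (sc_est ((hfit _ (hc a.2)).arr.1 i hi) ((hfit _ (hc d.2)).arr.1 i hi) hL
          ((hfit _ (hc d.2)).item i hi).1 h1).trans ?_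
        rw [add_zero, mul_assoc]
        refine mul_le_mul_of_nonneg_left ?_ hL
        have h2 : dist a.1 d.1 ≤ dist a d := le_max_left _ _
        have h3 := (hq i hi a.2 d.2).trans
          (mul_le_mul_of_nonneg_left (show dist a.2 d.2 ≤ dist a d from le_max_right _ _) hv)
        linarith)
      (fun i hi a ha => ins_of_mem (hfit _ (hc a.2)).arr hi ha)
      (fun a ha => ins_of_not_mem ha)
      (fun i hi a ha _ => by
        rw [(isOpen_lt (f1 i hi) (f2 i hi)).frontier_eq] at ha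
        exact sc_bd (hfit _ (hc a.2)) hi ha.2 (closure_lt_subset_le (f1 i hi) (f2 i hi) ha.1))
      p trivial q trivial
    simpa using this
  · simp only [c, projIcc_of_le_left hT.le ht]
  · simp only [c, projIcc_of_right_le hT.le ht]
  · rw [ins_of_not_mem fun i hi a => hx (hU 0 ⟨le_rfl, hT.le⟩ i hi a)]
    exact ins_of_not_mem fun i hi a => hx (hU _ (hc t) i hi a)

/-- Each item moves inside its own region, on which the background is constant. -/
theorem Hty.move (hn : 1 ≤ n) (hb : Lip L b) (hL : 0 ≤ L) (R : I → Pos n) (hR : Arr s R)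
    (hflat : ∀ i ∈ s, ∀ x ∈ (R i).cl, b x = b (R i).1) (hT : 0 < T) (hRT : ∀ i ∈ s, (R i).2 ≤ T)
    (hf : Fit L b s P e) (hf' : Fit L b s P' e)
    (hin : ∀ i ∈ s, (P i).op ⊆ (R i).op ∧ (P' i).op ⊆ (R i).op) :
    Hty (5 * L) 0 T (⋃ i ∈ s, (R i).op) (ins b s P e) (ins b s P' e) := by
  have a1 : ∀ i ∈ s, dist (P i).1 (R i).1 + (P i).2 ≤ (R i).2 := fun i hi =>
    (Pos.op_subset_iff hn _ _ (hf.arr.1 i hi)).1 (hin i hi).1
  have a2 : ∀ i ∈ s, dist (P' i).1 (R i).1 + (P' i).2 ≤ (R i).2 := fun i hi =>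
    (Pos.op_subset_iff hn _ _ (hf'.arr.1 i hi)).1 (hin i hi).2
  let Q : ℝ → I → Pos n := fun τ i => AffineMap.lineMap (P i) (P' i) (τ / T)
  have q1 : ∀ τ ∈ Icc 0 T, ∀ i ∈ s, dist (Q τ i).1 (R i).1 + (Q τ i).2 ≤ (R i).2 :=
    fun τ h i hi => line_le (a1 i hi) (a2 i hi) (div_nonneg h.1 hT.le) ((div_le_one hT).2 h.2)
  have q2 : ∀ τ ∈ Icc 0 T, ∀ i, min (P i).2 (P' i).2 ≤ (Q τ i).2 :=
    fun τ h i => line_ge (div_nonneg h.1 hT.le) ((div_le_one hT).2 h.2)
  have q3 : ∀ τ ∈ Icc 0 T, ∀ i ∈ s, 0 < (Q τ i).2 := fun τ h i hi =>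
    (lt_min (hf.arr.1 i hi) (hf'.arr.1 i hi)).trans_le (q2 τ h i)
  have q4 : ∀ τ ∈ Icc 0 T, ∀ i ∈ s, (Q τ i).op ⊆ (R i).op := fun τ h i hi =>
    (Pos.op_subset_iff hn _ _ (q3 τ h i hi)).2 (q1 τ h i hi)
  have q5 : ∀ i ∈ s, ∀ A : Pos n, dist A.1 (R i).1 + A.2 ≤ (R i).2 → ∀ x ∈ A.cl,
      b x = b (R i).1 := fun i hi A h x hx =>
    hflat i hi x (closedBall_subset_closedBall' (by rwa [add_comm]) hx)
  have q6 : ∀ i ∈ s, ∀ A : Pos n, dist A.1 (R i).1 + A.2 ≤ (R i).2 → 0 < A.2 →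
      b A.1 = b (R i).1 := fun i hi A h hA => q5 i hi A h _ (mem_closedBall_self hA.le)
  have := Hty.motion (U := ⋃ i ∈ s, (R i).op) (s := s) (e := e) hb hL Q (v := 2) zero_le_two hT
    (fun τ h => ⟨⟨q3 τ h, fun i hi j hj hij =>
      (hR.2 i hi j hj hij).mono (q4 τ h i hi) (q4 τ h j hj)⟩, fun i hi => by
        rw [q6 i hi _ (q1 τ h i hi) (q3 τ h i hi)]
        rcases min_le_iff.1 (q2 τ h i) with c | c
        · rw [← q6 i hi _ (a1 i hi) (hf.arr.1 i hi)]
          exact (hf.item i hi).mono (mul_le_mul_of_nonneg_left c hL)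
        · rw [← q6 i hi _ (a2 i hi) (hf'.arr.1 i hi)]
          exact (hf'.item i hi).mono (mul_le_mul_of_nonneg_left c hL),
      fun i hi x hx => by
        rw [q5 i hi _ (q1 τ h i hi) x hx, q6 i hi _ (q1 τ h i hi) (q3 τ h i hi)]⟩)
    (fun i hi τ _ τ' _ => by
      have h1 : dist (P i) (P' i) ≤ 2 * T := by
        have b1 := a1 i hi
        have b2 := a2 i hi
        have b3 := hRT i hi
        have b4 := hf.arr.1 i hi
        have b5 := hf'.arr.1 i hi
        have b6 := dist_triangle_right (P i).1 (P' i).1 (R i).1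
        have b7 := dist_nonneg (x := (P i).1) (y := (R i).1)
        have b8 := dist_nonneg (x := (P' i).1) (y := (R i).1)
        rw [Prod.dist_eq, Real.dist_eq]
        exact max_le (by linarith only [b1, b2, b3, b4, b5, b6]) (abs_le.2 ⟨by linarith, by linarith⟩)
      simp only [Q]
      rw [dist_lineMap_lineMap, Real.dist_eq, ← sub_div, abs_div, abs_of_pos hT,
        div_mul_eq_mul_div, div_le_iff₀ hT]
      have := mul_le_mul_of_nonneg_left h1 (abs_nonneg (τ - τ'))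
      linarith)
    fun τ h i hi => (q4 τ h i hi).trans (subset_biUnion_of_mem (u := fun i => (R i).op) hi)
  have e0 : Q 0 = P := funext fun i => by simp [Q]
  have e1 : Q T = P' := funext fun i => by simp [Q, hT.ne']
  rw [e0, e1] at this
  exact this.mono (by linarith only []) le_rfl le_rfl subset_rfl

end Pool.Agent.Work.MP_4b5e6c_gt
end

-- merged part: Pool.Agent.Work.MP_4b5e6c_gt.YBasic
section
-- merged part: Pool.Agent.Work.MP_4b5e6c_gt.YBasic
section
/-! Task YBASIC: the skeleton of the full simplex. -/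

namespace Pool.Agent.Work.MP_4b5e6c_gt
open Metric Set

variable {n : ℕ} {α α' α'' : Type}

theorem Ys.ext_wt {β β' : Ys n α} (h : ∀ a, β.wt a = β'.wt a) : β = β' :=
  Subtype.ext (V.ext_fs (Finsupp.ext h))
theorem Ys.wt_nonneg (β : Ys n α) (a : α) : 0 ≤ β.wt a := β.2.1 a
theorem Ys.mem_supp {β : Ys n α} {a : α} : a ∈ β.supp ↔ 0 < β.wt a := by
  unfold Ys.supp
  rw [Finsupp.mem_support_iff]
  exact ⟨fun h => lt_of_le_of_ne (β.wt_nonneg a) (Ne.symm h), fun h => h.ne'⟩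
theorem Ys.card_supp (β : Ys n α) : β.supp.card ≤ n + 1 := β.2.2.2
theorem Ys.sum_wt (β : Ys n α) (s : Finset α) (h : β.supp ⊆ s) : ∑ a ∈ s, β.wt a = 1 := by
  have h1 := β.2.2.1
  rw [Finsupp.sum_of_support_subset _ h _ (by simp)] at h1
  exact h1
theorem Ys.wt_le_one (β : Ys n α) (a : α) : β.wt a ≤ 1 := by
  by_cases ha : a ∈ β.supp
  · rw [← β.sum_wt β.supp subset_rfl]
    exact Finset.single_le_sum (f := β.wt) (fun b _ => β.wt_nonneg b) ha
  · have : ¬ 0 < β.wt a := fun h => ha (Ys.mem_supp.2 h)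
    linarith
theorem Ys.supp_nonempty (β : Ys n α) : β.supp.Nonempty := by
  rw [Finset.nonempty_iff_ne_empty]
  intro h
  have h1 := β.sum_wt ∅ h.le
  simp at h1

namespace YBasic

theorem wt_eq_zero {β : Ys n α} {a : α} (h : a ∉ β.supp) : β.wt a = 0 :=
  Finsupp.notMem_support_iff.1 h

theorem V_dist_eq (β β' : V α) (s : Finset α) (h : β.fs.support ⊆ s) (h' : β'.fs.support ⊆ s) :
    dist β β' = ∑ a ∈ s, |β.fs a - β'.fs a| := by
  classical
  rw [dist_eq_norm, V.norm_eq (β - β') s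
    (Finsupp.support_sub.trans (Finset.union_subset h h'))]
  rfl

theorem norm_single (a : α) (r : ℝ) : ‖(V.mk (Finsupp.single a r) : V α)‖ = |r| := by
  rw [V.norm_eq (V.mk (Finsupp.single a r)) {a} Finsupp.support_single_subset]
  simp

theorem norm_map_le (ρ : α → α') (β : V α) : ‖β.map ρ‖ ≤ ‖β‖ := by
  have h : β.map ρ = ∑ a ∈ β.fs.support, (V.mk (Finsupp.single (ρ a) (β.fs a)) : V α') := rfl
  rw [h, V.norm_eq β _ subset_rfl]
  exact (norm_sum_le _ _).trans (Finset.sum_le_sum fun a _ => (norm_single _ _).le)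

theorem map_sub' (ρ : α → α') (β β' : V α) : (β - β').map ρ = β.map ρ - β'.map ρ := by
  have h : ((β - β') + β').map ρ = (β - β').map ρ + β'.map ρ := Finsupp.mapDomain_add
  rw [sub_add_cancel] at h
  rw [h, add_sub_cancel_right]

end YBasic

theorem Ys.dist_eq (β β' : Ys n α) (s : Finset α) (h : β.supp ⊆ s) (h' : β'.supp ⊆ s) :
    dist β β' = ∑ a ∈ s, |β.wt a - β'.wt a| := YBasic.V_dist_eq β.1 β'.1 s h h'
theorem V.abs_sub_le (β β' : V α) (a : α) : |β.fs a - β'.fs a| ≤ dist β β' := by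
  classical
  rw [YBasic.V_dist_eq β β' (insert a (β.fs.support ∪ β'.fs.support))
    (Finset.subset_union_left.trans (Finset.subset_insert _ _))
    (Finset.subset_union_right.trans (Finset.subset_insert _ _))]
  exact Finset.single_le_sum (f := fun a => |β.fs a - β'.fs a|) (fun b _ => abs_nonneg _)
    (Finset.mem_insert_self _ _)
theorem Ys.abs_wt_sub_le (β β' : Ys n α) (a : α) : |β.wt a - β'.wt a| ≤ dist β β' :=
  V.abs_sub_le β.1 β'.1 a
theorem V.norm_pt (a : α) : ‖V.pt a‖ = 1 := (YBasic.norm_single a 1).trans abs_one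
theorem V.norm_of_mem {β : V α} (h : β ∈ Y n α) : ‖β‖ = 1 := by
  rw [V.norm_eq β _ subset_rfl, ← h.2.1]
  exact Finset.sum_congr rfl fun a _ => abs_of_nonneg (h.1 a)
theorem Ys.dist_le_two (β β' : Ys n α) : dist β β' ≤ 2 := by
  have h := dist_le_norm_add_norm β.1 β'.1
  rw [V.norm_of_mem β.2, V.norm_of_mem β'.2] at h
  exact h.trans (by norm_num)
theorem V.map_add (ρ : α → α') (β β' : V α) : (β + β').map ρ = β.map ρ + β'.map ρ :=
  Finsupp.mapDomain_add
theorem V.map_smul (ρ : α → α') (r : ℝ) (β : V α) : (r • β).map ρ = r • β.map ρ :=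
  Finsupp.mapDomain_smul r β.fs
theorem V.map_pt (ρ : α → α') (a : α) : (V.pt a).map ρ = V.pt (ρ a) :=
  Finsupp.mapDomain_single
theorem V.dist_map_le (ρ : α → α') (β β' : V α) : dist (β.map ρ) (β'.map ρ) ≤ dist β β' := by
  rw [dist_eq_norm, dist_eq_norm, ← YBasic.map_sub']
  exact YBasic.norm_map_le ρ _
theorem supp_vtx (a : α) : (vtx a : Ys n α).supp = {a} :=
  Finsupp.support_single a one_ne_zero
theorem eq_vtx_of_supp {β : Ys n α} {a : α} (h : ∀ b ∈ β.supp, b = a) : β = vtx a := by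
  have hs : β.supp ⊆ {a} := fun b hb => Finset.mem_singleton.2 (h b hb)
  have h1 := β.sum_wt _ hs
  have h2 := (vtx a : Ys n α).sum_wt _ (supp_vtx a).le
  rw [Finset.sum_singleton] at h1 h2
  refine Ys.ext_wt fun b => ?_
  by_cases hb : b = a
  · rw [hb, h1, h2]
  · rw [YBasic.wt_eq_zero fun hb' => hb (h b hb'),
      YBasic.wt_eq_zero (by rw [supp_vtx]; simpa using hb)]
theorem wt_sel (β : Ys n α) : 1 / ((n : ℝ) + 1) ≤ β.wt (sel β) := by
  have h1 := β.sum_wt _ subset_rfl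
  have h2 : ∑ a ∈ β.supp, β.wt a ≤ β.supp.card • β.wt (sel β) :=
    Finset.sum_le_card_nsmul _ _ _ fun a _ => β.exists_max.choose_spec a
  have h3 : (β.supp.card : ℝ) ≤ n + 1 := by exact_mod_cast β.card_supp
  rw [h1, nsmul_eq_mul] at h2
  rw [div_le_iff₀ (by positivity)]
  linarith only [h2, h3, β.wt_nonneg (sel β), mul_nonneg_of_nonpos_of_nonpos (Mathlib.Tactic.Linarith.sub_nonpos_of_le h3) (Mathlib.Tactic.Linarith.sub_nonpos_of_le (Ys.wt_nonneg β (sel β)))]
theorem sel_mem (β : Ys n α) : sel β ∈ β.supp :=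
  Ys.mem_supp.2 (lt_of_lt_of_le (by positivity) (wt_sel β))
theorem sel_vtx (a : α) : sel (vtx a : Ys n α) = a := by
  have h := sel_mem (vtx a : Ys n α)
  rwa [supp_vtx, Finset.mem_singleton] at h
/-- A vertex that is heavy at `β'` lies in the support of nearby points. -/
theorem mem_supp_of_wt {β β' : Ys n α} {a : α} (h : dist β' β < β'.wt a) : a ∈ β.supp := by
  have h1 := (abs_le.1 (β'.abs_wt_sub_le β a)).2
  exact Ys.mem_supp.2 (by linarith)
theorem adm_sel (K : Set (Ys n α)) : Adm n sel K (1 / (2 * ((n : ℝ) + 1))) := by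
  intro z _
  refine ⟨z.supp, z.card_supp, fun p _ hp => mem_supp_of_wt (hp.trans_lt ?_)⟩
  refine lt_of_lt_of_le ?_ (wt_sel p)
  have : (0 : ℝ) < n + 1 := by positivity
  exact one_div_lt_one_div_of_lt this (by linarith only [])
theorem mapY_vtx (ρ : α → α') (a : α) : mapY ρ (vtx a : Ys n α) = vtx (ρ a) :=
  Subtype.ext (V.map_pt ρ a)
theorem mapY_id (β : Ys n α) : mapY id β = β :=
  Subtype.ext (Finsupp.mapDomain_id (v := β.1.fs))
theorem mapY_mapY (ρ : α → α') (ρ' : α' → α'') (β : Ys n α) :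
    mapY ρ' (mapY ρ β) = mapY (fun a => ρ' (ρ a)) β :=
  Subtype.ext (Finsupp.mapDomain_comp (v := β.1.fs) (f := ρ) (g := ρ')).symm
theorem mapY_congr {ρ ρ' : α → α'} {β : Ys n α} (h : ∀ a ∈ β.supp, ρ a = ρ' a) :
    mapY ρ β = mapY ρ' β := Subtype.ext (Finsupp.mapDomain_congr (v := β.1.fs) h)
theorem wt_le_wt_mapY (ρ : α → α') (β : Ys n α) (a : α) : β.wt a ≤ (mapY ρ β).wt (ρ a) := by
  classical
  by_cases ha : a ∈ β.supp
  · have h : (mapY ρ β).wt (ρ a) = ∑ b ∈ β.supp, Finsupp.single (ρ b) (β.wt b) (ρ a) :=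
      Finsupp.sum_apply
    rw [h]
    refine le_trans (by simp) (Finset.single_le_sum
      (f := fun b => Finsupp.single (ρ b) (β.wt b) (ρ a)) (fun b _ => ?_) ha)
    simp only [Finsupp.single_apply]
    split_ifs
    · exact β.wt_nonneg b
    · exact le_rfl
  · rw [YBasic.wt_eq_zero ha]
    exact Ys.wt_nonneg _ _
theorem mem_supp_mapY {ρ : α → α'} {β : Ys n α} {b : α'} :
    b ∈ (mapY ρ β).supp ↔ ∃ a ∈ β.supp, ρ a = b := by
  classical
  constructor
  · intro h
    exact Finset.mem_image.1 (Finsupp.mapDomain_support (s := β.1.fs) h)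
  · rintro ⟨a, ha, rfl⟩
    exact Ys.mem_supp.2 ((Ys.mem_supp.1 ha).trans_le (wt_le_wt_mapY ρ β a))
theorem card_supp_mapY_le (ρ : α → α') (β : Ys n α) : (mapY ρ β).supp.card ≤ β.supp.card := by
  classical
  exact (Finset.card_le_card (Finsupp.mapDomain_support (s := β.1.fs))).trans
    Finset.card_image_le
theorem lip_mapY (ρ : α → α') : Lip 1 (mapY ρ : Ys n α → Ys n α') := fun β β' => by
  rw [one_mul]
  exact V.dist_map_le ρ β.1 β'.1
theorem dist_mapY_of_injective {ρ : α → α'} (hρ : Function.Injective ρ) (β β' : Ys n α) :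
    dist (mapY ρ β) (mapY ρ β') = dist β β' := by
  have : Nonempty α := ⟨sel β⟩
  obtain ⟨g, hg⟩ := hρ.hasLeftInverse
  have e : ∀ γ : Ys n α, mapY g (mapY ρ γ) = γ := fun γ => by
    rw [mapY_mapY, mapY_congr (ρ' := id) fun a _ => hg a, mapY_id]
  refine le_antisymm (V.dist_map_le ρ β.1 β'.1) ?_
  have h := lip_mapY g (mapY ρ β) (mapY ρ β')
  rwa [e, e, one_mul] at h
theorem toY_of_mem (a : α) {β : V α} (h : β ∈ Y n α) : (toY a β : Ys n α).1 = β := by
  unfold toY
  rw [dif_pos h]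
theorem toY_coe (a : α) (β : Ys n α) : toY a β.1 = β := Subtype.ext (toY_of_mem a β.2)
/-- Convex combinations stay in the skeleton if the union of the supports is small. -/
theorem segment_mem (β β' : Ys n α) (T : Finset α) (hT : T.card ≤ n + 1) (h : β.supp ⊆ T)
    (h' : β'.supp ⊆ T) {τ : ℝ} (hτ : τ ∈ Icc (0 : ℝ) 1) :
    (1 - τ) • β.1 + τ • β'.1 ∈ Y n α ∧ ((1 - τ) • β.1 + τ • β'.1).fs.support ⊆ T := by
  have hw : ∀ a, ((1 - τ) • β.1 + τ • β'.1).fs a = (1 - τ) * β.wt a + τ * β'.wt a := fun a => rfl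
  have hs : ((1 - τ) • β.1 + τ • β'.1).fs.support ⊆ T := by
    intro a ha
    by_contra hc
    refine Finsupp.mem_support_iff.1 ha ?_
    rw [hw, YBasic.wt_eq_zero fun h1 => hc (h h1), YBasic.wt_eq_zero fun h1 => hc (h' h1)]
    ring
  refine ⟨⟨fun a => ?_, ?_, (Finset.card_le_card hs).trans hT⟩, hs⟩
  · rw [hw]
    exact add_nonneg (mul_nonneg (sub_nonneg.2 hτ.2) (β.wt_nonneg a))
      (mul_nonneg hτ.1 (β'.wt_nonneg a))
  · rw [Finsupp.sum_of_support_subset _ hs _ (by simp)]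
    simp only [hw]
    rw [Finset.sum_add_distrib, ← Finset.mul_sum, ← Finset.mul_sum, β.sum_wt T h, β'.sum_wt T h']
    ring
/-- Maps supported in `S` lift to the skeleton on the subtype. -/
theorem exists_lift {A : Type} (S : Set α) (f : A → Ys n α) (h : ∀ x, ↑(f x).supp ⊆ S) :
    ∃ g : A → Ys n S, ∀ x, mapY Subtype.val (g x) = f x := by
  classical
  refine ⟨fun x => mapY (fun a => if ha : a ∈ S then (⟨a, ha⟩ : S)
    else ⟨sel (f x), h x (sel_mem (f x))⟩) (f x), fun x => ?_⟩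
  rw [mapY_mapY, mapY_congr (ρ' := id), mapY_id]
  intro a ha
  rw [dif_pos (h x ha)]
  rfl
theorem LipS.lip_val {Z : Type} [MetricSpace Z] {S : Set α} {B : ℝ} {f : Ys n α → Z}
    (h : LipS S B f) : Lip B fun β : Ys n S => f (mapY Subtype.val β) := by
  have hs : ∀ β : Ys n S, ↑(mapY Subtype.val β).supp ⊆ S := fun β a ha => by
    obtain ⟨b, -, rfl⟩ := mem_supp_mapY.1 (Finset.mem_coe.1 ha)
    exact b.2
  intro β β'
  rw [← dist_mapY_of_injective Subtype.val_injective β β']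
  exact h _ _ (hs β) (hs β')
theorem LipS.mono {Z : Type} [MetricSpace Z] {S S' : Set α} {B B' : ℝ} {f : Ys n α → Z}
    (h : LipS S B f) (hS : S' ⊆ S) (hB : B ≤ B') : LipS S' B' f := fun β β' h1 h2 =>
  (h β β' (h1.trans hS) (h2.trans hS)).trans (mul_le_mul_of_nonneg_right hB dist_nonneg)

namespace YBasic

theorem dist_comb {E : Type} [NormedAddCommGroup E] [NormedSpace ℝ E] (p q p' q' : E) {τ : ℝ}
    (hτ : τ ∈ Icc (0 : ℝ) 1) (τ' : ℝ) :
    dist ((1 - τ) • p + τ • q) ((1 - τ') • p' + τ' • q')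
      ≤ (1 - τ) * dist p p' + τ * dist q q' + dist p' q' * |τ - τ'| := by
  have e : (1 - τ) • p + τ • q - ((1 - τ') • p' + τ' • q')
      = (1 - τ) • (p - p') + τ • (q - q') + (τ - τ') • (q' - p') := by module
  rw [dist_eq_norm, e, dist_eq_norm, dist_eq_norm, dist_comm, dist_eq_norm]
  refine (norm_add₃_le).trans (le_of_eq ?_)
  rw [norm_smul, norm_smul, norm_smul, Real.norm_of_nonneg (sub_nonneg.2 hτ.2),
    Real.norm_of_nonneg hτ.1, Real.norm_eq_abs, mul_comm |τ - τ'|]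

/-- The straight segment inside a face. -/
theorem exists_seg (β β' : Ys n α) (T : Finset α) (hT : T.card ≤ n + 1) (h : β.supp ⊆ T)
    (h' : β'.supp ⊆ T) : ∃ γ : ℝ → Ys n α, IsPath β β' 2 γ ∧ ∀ t, (γ t).supp ⊆ T := by
  have hc : ∀ t : ℝ, max 0 (min t 1) ∈ Icc (0 : ℝ) 1 := fun t =>
    ⟨le_max_left _ _, max_le zero_le_one (min_le_right _ _)⟩
  refine ⟨fun t => ⟨_, (segment_mem β β' T hT h h' (hc t)).1⟩, ⟨fun t t' => ?_, fun t ht => ?_,
    fun t ht => ?_⟩, fun t => (segment_mem β β' T hT h h' (hc t)).2⟩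
  · refine (dist_comb β.1 β'.1 β.1 β'.1 (hc t) (max 0 (min t' 1))).trans ?_
    rw [dist_self, dist_self, mul_zero, mul_zero, add_zero, zero_add]
    refine mul_le_mul (β.dist_le_two β') ?_ (abs_nonneg _) zero_le_two
    refine (abs_max_sub_max_le_max _ _ _ _).trans (max_le (by simp) ?_)
    refine (abs_min_sub_min_le_max _ _ _ _).trans (max_le (Real.dist_eq t t').ge (by simp))
  · refine Subtype.ext ?_
    have : max 0 (min t 1) = 0 := max_eq_left ((min_le_left _ _).trans ht)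
    simp only [this, sub_zero, one_smul, zero_smul, add_zero]
  · refine Subtype.ext ?_
    have : max 0 (min t 1) = 1 := by rw [min_eq_right ht, max_eq_right zero_le_one]
    simp only [this, sub_self, one_smul, zero_smul, zero_add]

/-- Concatenation of paths. -/
theorem path_trans {Z : Type} [PseudoMetricSpace Z] {p q r : Z} {l : ℝ} {γ δ : ℝ → Z}
    (h : IsPath p q l γ) (h' : IsPath q r l δ) :
    IsPath p r (2 * l) fun t => if t ≤ 1 / 2 then γ (2 * t) else δ (2 * t - 1) := by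
  have key : ∀ t t' : ℝ, t ≤ 1 / 2 → ¬ t' ≤ 1 / 2 →
      dist (γ (2 * t)) (δ (2 * t' - 1)) ≤ 2 * l * dist t t' := by
    intro t t' ht ht'
    have h1 := h.1 (2 * t) 1
    have h2 := h'.1 0 (2 * t' - 1)
    rw [h.2.2 1 le_rfl, Real.dist_eq, abs_of_nonpos (by linarith only [ht])] at h1
    rw [h'.2.1 0 le_rfl, Real.dist_eq, abs_of_nonpos (by linarith only [ht'])] at h2
    rw [Real.dist_eq, abs_of_nonpos (by linarith only [ht, ht'])]
    have h3 := dist_triangle (γ (2 * t)) q (δ (2 * t' - 1))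
    linarith only [h1, h2, h3]
  refine ⟨fun t t' => ?_, fun t ht => ?_, fun t ht => ?_⟩
  · dsimp only
    split_ifs with ht ht' ht'
    · refine (h.1 _ _).trans (le_of_eq ?_)
      rw [Real.dist_eq, Real.dist_eq, ← mul_sub, abs_mul, abs_two]
      ring
    · exact key t t' ht ht'
    · rw [dist_comm, dist_comm t]
      exact key t' t ht' ht
    · refine (h'.1 _ _).trans (le_of_eq ?_)
      rw [Real.dist_eq, Real.dist_eq, sub_sub_sub_cancel_right, ← mul_sub, abs_mul, abs_two]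
      ring
  · dsimp only
    rw [if_pos (by linarith only [ht])]
    exact h.2.1 _ (by linarith)
  · dsimp only
    rw [if_neg (by linarith)]
    exact h'.2.2 _ (by linarith)

theorem exists_edge (hn : 1 ≤ n) (a b : α) : ∃ γ : ℝ → Ys n α,
    IsPath (vtx a) (vtx b) 2 γ ∧ ∀ t, ∀ c ∈ (γ t).supp, c = a ∨ c = b := by
  classical
  obtain ⟨γ, h1, h2⟩ := exists_seg (vtx a : Ys n α) (vtx b) {a, b}
    (Finset.card_le_two.trans (by omega)) (by rw [supp_vtx]; simp) (by rw [supp_vtx]; simp)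
  exact ⟨γ, h1, fun t c hc => by simpa using h2 t hc⟩

end YBasic

/-- A path in the skeleton from a point to a vertex. -/
theorem exists_pathY (hn : 1 ≤ n) (β : Ys n α) (a : α) : ∃ γ : ℝ → Ys n α,
    IsPath β (vtx a) 4 γ ∧ ∀ t, ∀ b ∈ (γ t).supp, b ∈ β.supp ∨ b = a := by
  obtain ⟨γ, h1, h2⟩ := YBasic.exists_seg β (vtx (sel β)) β.supp β.card_supp subset_rfl
    (by rw [supp_vtx]; simpa using sel_mem β)
  obtain ⟨δ, h3, h4⟩ := YBasic.exists_edge hn (sel β) a
  have h5 := YBasic.path_trans h1 h3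
  rw [show (2 : ℝ) * 2 = 4 by norm_num] at h5
  refine ⟨_, h5, fun t b hb => ?_⟩
  split_ifs at hb
  · exact Or.inl (h2 _ hb)
  · rcases h4 _ b hb with rfl | rfl
    · exact Or.inl (sel_mem β)
    · exact Or.inr rfl
/-- The straight line homotopy between two maps with few vertices at each point. -/
theorem hty_segmentY {m : ℕ} {L T : ℝ} {U : Set (D m)} {f f' : D m → Ys n α} (h : Lip L f)
    (h' : Lip L f') (hT : 0 < T) (hL : 2 ≤ L * T) (hU : ∀ x, x ∉ U → f' x = f x)
    (hc : ∀ x, ∃ S : Finset α, S.card ≤ n + 1 ∧ (f x).supp ⊆ S ∧ (f' x).supp ⊆ S) :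
    Hty (2 * L) 0 T U f f' := by
  have hL0 : 0 ≤ L := by
    by_contra hc
    have : L * T < 0 := mul_neg_of_neg_of_pos (not_le.1 hc) hT
    linarith only [hL, this]
  have hG : ∀ x, ∀ τ ∈ Icc (0 : ℝ) 1,
      (toY (sel (f x)) ((1 - τ) • (f x).1 + τ • (f' x).1) : Ys n α).1
        = (1 - τ) • (f x).1 + τ • (f' x).1 := fun x τ hτ => by
    obtain ⟨S, h1, h2, h3⟩ := hc x
    exact toY_of_mem _ (segment_mem _ _ S h1 h2 h3 hτ).1
  refine (Hty.of_family (fun x τ => toY (sel (f x)) ((1 - τ) • (f x).1 + τ • (f' x).1))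
    (M := 2) hL0 zero_le_two hT (fun x x' τ hτ τ' hτ' => ?_) (fun x => ?_) (fun x => ?_)
    (fun x hx τ _ => ?_)).mono ?_ le_rfl le_rfl subset_rfl
  · rw [Subtype.dist_eq, hG x τ hτ, hG x' τ' hτ']
    refine (YBasic.dist_comb _ _ _ _ hτ τ').trans (add_le_add ?_ ?_)
    · have h1 : dist (f x).1 (f x').1 ≤ L * dist x x' := h x x'
      have h2 : dist (f' x).1 (f' x').1 ≤ L * dist x x' := h' x x'
      have h3 := mul_le_mul_of_nonneg_left h1 (sub_nonneg.2 hτ.2)
      have h4 := mul_le_mul_of_nonneg_left h2 hτ.1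
      linarith
    · exact mul_le_mul_of_nonneg_right ((f x').dist_le_two (f' x')) (abs_nonneg _)
  · simp only [sub_zero, one_smul, zero_smul, add_zero, toY_coe]
  · simp only [sub_self, one_smul, zero_smul, zero_add, toY_coe]
  · rw [hU x hx, ← add_smul, sub_add_cancel, one_smul, toY_coe]
  · have : 2 / T ≤ L := by rw [div_le_iff₀ hT]; exact hL
    linarith only [this]
/-- From faces to the skeleton: `k + 1` vertices at a time. -/
theorem lipS_of_faces {Z : Type} [MetricSpace Z] {S : Set α} {B : ℝ} (hB : 0 ≤ B) (k : ℕ)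
    (f : Ys n α → Z)
    (hf : ∀ T : Finset α, ↑T ⊆ S → T.card ≤ k + 1 → ∀ β β' : Ys n α, β.supp ⊆ T → β'.supp ⊆ T →
      dist (f β) (f β') ≤ B * dist β β')
    (hv : ∀ a ∈ S, ∀ b ∈ S, dist (f (vtx a)) (f (vtx b)) ≤ B) (β β' : Ys n α)
    (h : ↑β.supp ⊆ S) (h' : ↑β'.supp ⊆ S) (hk : β.supp.card ≤ k + 1)
    (hk' : β'.supp.card ≤ k + 1) : dist (f β) (f β') ≤ 10 * B * dist β β' := by
  classical
  have hd : 0 ≤ dist β β' := dist_nonneg
  by_cases hc : ∃ c ∈ β.supp, c ∈ β'.supp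
  · obtain ⟨c, hc, hc'⟩ := hc
    set ρ : α → α := fun a => if a ∈ β'.supp then a else c with hρ
    have e : mapY ρ β' = β' := by
      rw [mapY_congr (ρ := ρ) (ρ' := id) (β := β') fun a ha => if_pos ha, mapY_id]
    have s1 : (mapY ρ β).supp ⊆ β.supp := fun b hb => by
      obtain ⟨a, ha, rfl⟩ := mem_supp_mapY.1 hb
      simp only [hρ]
      split_ifs
      exacts [ha, hc]
    have s2 : (mapY ρ β).supp ⊆ β'.supp := fun b hb => by
      obtain ⟨a, -, rfl⟩ := mem_supp_mapY.1 hb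
      simp only [hρ]
      split_ifs with h1
      exacts [h1, hc']
    have d1 : dist (mapY ρ β) β' ≤ dist β β' := by
      have := lip_mapY ρ β β'
      rwa [e, one_mul] at this
    have d2 : dist β (mapY ρ β) ≤ 2 * dist β β' := by
      have := dist_triangle_right β (mapY ρ β) β'
      linarith only [d1, this]
    have t1 := hf _ h hk β (mapY ρ β) subset_rfl s1
    have t2 := hf _ h' hk' (mapY ρ β) β' s2 subset_rfl
    have t3 := dist_triangle (f β) (f (mapY ρ β)) (f β')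
    have t4 := mul_le_mul_of_nonneg_left d1 hB
    have t5 := mul_le_mul_of_nonneg_left d2 hB
    have t6 := mul_nonneg hB hd
    linarith only [t1, t2, t3, t4, t5, t6]
  · have d1 : 1 ≤ dist β β' := by
      rw [β.dist_eq β' (β.supp ∪ β'.supp) Finset.subset_union_left Finset.subset_union_right,
        ← β.sum_wt _ subset_rfl]
      refine le_trans (Finset.sum_le_sum fun a ha => ?_) (Finset.sum_le_sum_of_subset_of_nonneg
        Finset.subset_union_left fun a _ _ => abs_nonneg _)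
      rw [YBasic.wt_eq_zero (β := β') fun ha' => hc ⟨a, ha, ha'⟩, sub_zero]
      exact le_abs_self _
    have t1 := hf _ h hk β (vtx (sel β)) subset_rfl (by rw [supp_vtx]; simpa using sel_mem β)
    have t2 := hf _ h' hk' (vtx (sel β')) β' (by rw [supp_vtx]; simpa using sel_mem β') subset_rfl
    have t3 := hv _ (h (sel_mem β)) _ (h' (sel_mem β'))
    have t4 := dist_triangle4 (f β) (f (vtx (sel β))) (f (vtx (sel β'))) (f β')
    have t5 := mul_le_mul_of_nonneg_left (β.dist_le_two (vtx (sel β))) hB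
    have t6 := mul_le_mul_of_nonneg_left ((vtx (sel β') : Ys n α).dist_le_two β') hB
    have t7 := mul_le_mul_of_nonneg_left d1 hB
    linarith only [hB, t1, t2, t3, t4, t5, t6, t7]

section Rz
variable {X : Type} [MetricSpace X]

theorem Rz.dist_le (R : Rz n X) (β : Ys n X) (p : X) {r : ℝ} (h : ∀ q ∈ β.supp, dist q p ≤ r) :
    dist (R.ι β) p ≤ 2 * R.C * r := by
  have hr : 0 ≤ r := dist_nonneg.trans (h _ (sel_mem β))
  have h1 := R.lip p r hr β (Pool.Agent.Work.MP_4b5e6c_gt.vtx p) (fun q hq => h q hq)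
    (by rw [supp_vtx]; simpa using hr)
  rw [R.vtx] at h1
  have h2 := mul_le_mul_of_nonneg_left (β.dist_le_two (Pool.Agent.Work.MP_4b5e6c_gt.vtx p))
    (mul_nonneg (zero_le_one.trans R.one_le) hr)
  linarith
theorem Rz.exists_path (hn : 1 ≤ n) (R : Rz n X) (p q : X) :
    ∃ γ, IsPath p q (2 * R.C * dist p q) γ := by
  obtain ⟨γ, h1, h2⟩ := YBasic.exists_edge hn p q
  have hs : ∀ t, ↑(γ t).supp ⊆ closedBall p (dist p q) := fun t c hc => by
    rcases h2 t c hc with rfl | rfl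
    · simp
    · rw [mem_closedBall, dist_comm]
  refine ⟨fun t => R.ι (γ t), fun t t' => ?_, fun t ht => ?_, fun t ht => ?_⟩
  · have h3 := R.lip p _ dist_nonneg _ _ (hs t) (hs t')
    have h4 := mul_le_mul_of_nonneg_left (h1.1 t t')
      (mul_nonneg (zero_le_one.trans R.one_le) (dist_nonneg (x := p) (y := q)))
    linarith only [h3, h4]
  · dsimp only
    rw [h1.2.1 t ht, R.vtx]
  · dsimp only
    rw [h1.2.2 t ht, R.vtx]

end Rz

end Pool.Agent.Work.MP_4b5e6c_gt
end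

-- merged part: Pool.Agent.Work.MP_4b5e6c_gt.DW
section
/-! Task DW: domain weights adapted to a scale function. -/

namespace Pool.Agent.Work.MP_4b5e6c_gt
open Metric Set

/-- The properties of the weights `w` for the scale function `σ`.  Vertices are pairs of a colour
and a point of the domain. -/
structure IsDW {m : ℕ} (C : ℝ) (σ : D m → ℝ) (w : D m → V (Fin (m + 1) × D m)) : Prop where
  mem : ∀ x, 0 < σ x → w x ∈ Y m (Fin (m + 1) × D m)
  col : ∀ x, 0 < σ x → ∀ v ∈ (w x).fs.support, ∀ v' ∈ (w x).fs.support, v.1 = v'.1 → v = v'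
  wall : ∀ (x : D m) (i : Fin m) (j k : ℤ), 0 < σ x → x i = k * (2 : ℝ) ^ j →
    σ x ≤ (2 : ℝ) ^ j → (w x).fs.support.card ≤ m
  near : ∀ x, 0 < σ x → ∀ v ∈ (w x).fs.support, dist v.2 x ≤ 3 * σ x
  lip : ∀ x x', 0 < σ x → 0 < σ x' → dist (w x) (w x') * σ x ≤ C * dist x x'
  core : ∀ x, 0 < σ x → ∃ x' v, dist x' x ≤ σ x ∧
    ∀ z, dist z x' ≤ σ x / 100 → w z = V.pt v

namespace DW

/-- The cost of the dyadic point `p.2 * 2 ^ p.1`. -/
noncomputable def cost (t s : ℝ) (p : ℤ × ℤ) : ℝ :=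
  8 * |t - p.2 * (2 : ℝ) ^ p.1| + 2 * max (s - (2 : ℝ) ^ p.1) 0

/-- The truncated distance to the walls that are visible at scale `s`. -/
noncomputable def G (t s : ℝ) : ℝ := min s (⨅ p, cost t s p)

theorem cost_nonneg (t s : ℝ) (p : ℤ × ℤ) : 0 ≤ cost t s p :=
  add_nonneg (by positivity) (mul_nonneg (by norm_num) (le_max_right _ _))

theorem bdd (t s : ℝ) : BddBelow (range (cost t s)) :=
  ⟨0, by rintro _ ⟨p, rfl⟩; exact cost_nonneg t s p⟩

theorem G_lip (t s t' s' : ℝ) : G t s ≤ G t' s' + (8 * |t - t'| + 2 * |s - s'|) := by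
  rw [← sub_le_iff_le_add]
  have h1 := le_abs_self (s - s')
  have h2 := abs_nonneg (t - t')
  have h3 := abs_nonneg (s - s')
  have h0 : G t s ≤ s := min_le_left _ _
  refine le_min (by linarith) (le_ciInf fun p => ?_)
  have h4 : G t s ≤ cost t s p := (min_le_right _ _).trans (ciInf_le (bdd t s) p)
  have h5 := abs_sub_le t t' (p.2 * (2 : ℝ) ^ p.1)
  have h6 : max (s - (2 : ℝ) ^ p.1) 0 ≤ max (s' - (2 : ℝ) ^ p.1) 0 + |s - s'| :=
    max_le (by linarith [le_max_left (s' - (2 : ℝ) ^ p.1) 0])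
      (by linarith [le_max_right (s' - (2 : ℝ) ^ p.1) 0])
  unfold cost at h4 ⊢
  linarith only [h4, h5, h6]

theorem G_wall {t s : ℝ} {j k : ℤ} (ht : t = k * (2 : ℝ) ^ j) (hs : s ≤ (2 : ℝ) ^ j) :
    G t s ≤ 0 := by
  refine (min_le_right _ _).trans ((ciInf_le (bdd t s) (j, k)).trans (le_of_eq ?_))
  simp [cost, ht, hs]

theorem G_mid {t s δ : ℝ} {e k : ℤ} (ht : |t - ((2 : ℝ) ^ e + k * (2 * 2 ^ e))| ≤ δ)
    (h1 : 2 * (2 : ℝ) ^ e ≤ s) (h2 : s ≤ 8 * ((2 : ℝ) ^ e - δ)) : G t s = s := by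
  refine min_eq_left (le_ciInf fun ⟨j, l⟩ => ?_)
  unfold cost
  have h0 : (0 : ℝ) < 2 ^ e := by positivity
  rcases le_or_gt j e with h | h
  · have h3 : (2 : ℝ) ^ j ≤ 2 ^ e := zpow_le_zpow_right₀ (by norm_num) h
    have h4 := le_max_left (s - (2 : ℝ) ^ j) 0
    have h5 := abs_nonneg (t - l * (2 : ℝ) ^ j)
    simp only
    linarith only [h1, h3, h4, h5]
  · obtain ⟨r, rfl⟩ : ∃ r : ℕ, j = e + 1 + r := ⟨(j - (e + 1)).toNat, by omega⟩
    have h3 : (2 : ℝ) ^ e + k * (2 * 2 ^ e) - l * (2 : ℝ) ^ (e + 1 + r) =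
        ((2 * (k - l * 2 ^ r) + 1 : ℤ) : ℝ) * 2 ^ e := by
      rw [zpow_add₀ two_ne_zero, zpow_add₀ two_ne_zero, zpow_natCast]
      push_cast
      ring
    have h4 : (1 : ℝ) ≤ |((2 * (k - l * 2 ^ r) + 1 : ℤ) : ℝ)| := by
      rw [← Int.cast_abs]
      exact_mod_cast Int.one_le_abs (by omega)
    have h5 : (2 : ℝ) ^ e ≤ |(2 : ℝ) ^ e + k * (2 * 2 ^ e) - l * (2 : ℝ) ^ (e + 1 + r)| := by
      rw [h3, abs_mul, abs_of_pos h0]
      exact le_mul_of_one_le_left h0.le h4
    have h6 := abs_sub_le ((2 : ℝ) ^ e + k * (2 * 2 ^ e)) t (l * (2 : ℝ) ^ (e + 1 + r))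
    rw [abs_sub_comm _ t] at h6
    have h7 := le_max_right (s - (2 : ℝ) ^ (e + 1 + r)) 0
    simp only
    linarith only [ht, h2, h5, h6, h7]

variable {m : ℕ}

/-- Upper end of the interval attached to `I`. -/
noncomputable def lo (s : ℝ) (a : Fin m → ℝ) (I : Finset (Fin m)) : ℝ := Iᶜ.fold min s a

/-- Lower end of the interval attached to `I`. -/
noncomputable def hi (a : Fin m → ℝ) (I : Finset (Fin m)) : ℝ := I.fold max 0 a

/-- Length of the interval attached to `I`. -/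
noncomputable def W (s : ℝ) (a : Fin m → ℝ) (I : Finset (Fin m)) : ℝ :=
  max (lo s a I - hi a I) 0

variable {s s' : ℝ} {a a' : Fin m → ℝ} {I J : Finset (Fin m)}

theorem lo_le : lo s a I ≤ s := (Finset.fold_min_le _).2 (.inl le_rfl)

theorem lo_le' {i : Fin m} (h : i ∉ I) : lo s a I ≤ a i :=
  (Finset.fold_min_le _).2 (.inr ⟨i, Finset.mem_compl.2 h, le_rfl⟩)

theorem hi_nonneg : 0 ≤ hi a I := (Finset.le_fold_max _).2 (.inl le_rfl)

theorem le_hi {i : Fin m} (h : i ∈ I) : a i ≤ hi a I :=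
  (Finset.le_fold_max _).2 (.inr ⟨i, h, le_rfl⟩)

theorem W_nonneg : 0 ≤ W s a I := le_max_right _ _

theorem W_pos : 0 < W s a I ↔ hi a I < lo s a I := by simp [W]

theorem W_le (hs : 0 ≤ s) : W s a I ≤ s :=
  max_le (by linarith [lo_le (s := s) (a := a) (I := I), hi_nonneg (a := a) (I := I)]) hs

theorem W_sum (hs : 0 ≤ s) (a : Fin m → ℝ) : ∑ I, W s a I = s := by
  have key : ∀ (I : Finset (Fin m)) (u : ℝ), u ∈ Ico (hi a I) (lo s a I) ↔
      u ∈ Ico 0 s ∧ I = Finset.univ.filter fun i => a i ≤ u := by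
    intro I u
    simp only [mem_Ico, hi, lo, Finset.fold_max_le, Finset.lt_fold_min, Finset.ext_iff,
      Finset.mem_filter, Finset.mem_univ, true_and, Finset.mem_compl]
    constructor
    · rintro ⟨⟨h1, h2⟩, h3, h4⟩
      exact ⟨⟨h1, h3⟩, fun i => ⟨h2 i, fun h => by_contra fun h' => (h4 i h').not_ge h⟩⟩
    · rintro ⟨⟨h1, h2⟩, h3⟩
      exact ⟨⟨h1, fun i h => (h3 i).1 h⟩, h2, fun i h => not_le.1 fun h' => h ((h3 i).2 h')⟩
  have h := MeasureTheory.measureReal_biUnion_finset (μ := MeasureTheory.volume)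
    (s := Finset.univ) (f := fun I : Finset (Fin m) => Ico (hi a I) (lo s a I))
    (fun I _ J _ hIJ => Set.disjoint_left.2 fun u h1 h2 =>
      hIJ (((key I u).1 h1).2.trans ((key J u).1 h2).2.symm))
    (fun _ _ => measurableSet_Ico) (fun _ _ => by simp)
  have e : (⋃ I ∈ (Finset.univ : Finset (Finset (Fin m))), Ico (hi a I) (lo s a I)) = Ico 0 s := by
    ext u
    simp only [mem_iUnion, key]
    exact ⟨fun ⟨_, _, h, _⟩ => h, fun h => ⟨_, Finset.mem_univ _, h, rfl⟩⟩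
  rw [e] at h
  simp only [Real.volume_real_Ico, sub_zero, max_eq_left hs] at h
  exact h.symm

theorem W_inj (hI : 0 < W s a I) (hJ : 0 < W s a J) (h : I.card = J.card) : I = J := by
  rw [W_pos] at hI hJ
  by_contra hne
  obtain ⟨i, h1, h2⟩ := Finset.not_subset.1 fun e => hne (Finset.eq_of_subset_of_card_le e h.ge)
  obtain ⟨j, h3, h4⟩ := Finset.not_subset.1 fun e =>
    hne (Finset.eq_of_subset_of_card_le e h.le).symm
  linarith only [hI, hJ, h1, h3, h2, h4, le_hi (a := a) h1, le_hi (a := a) h3, lo_le' (s := s) (a := a) h2,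
    lo_le' (s := s) (a := a) h4]

theorem W_lip {ε : ℝ} (hε : 0 ≤ ε) (hs : s ≤ s' + ε) (h : ∀ i, a i ≤ a' i + ε)
    (h' : ∀ i, a' i ≤ a i + ε) : W s a I ≤ W s' a' I + 2 * ε := by
  have h1 : lo s a I - ε ≤ lo s' a' I := (Finset.le_fold_min _).2
    ⟨by linarith [lo_le (s := s) (a := a) (I := I)], fun i hi => by
      linarith [lo_le' (s := s) (a := a) (Finset.mem_compl.1 hi), h i]⟩
  have h2 : hi a' I ≤ hi a I + ε := (Finset.fold_max_le _).2
    ⟨by linarith [hi_nonneg (a := a) (I := I)], fun i hi => by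
      linarith [le_hi (a := a) hi, h' i]⟩
  have h3 : lo s' a' I - hi a' I ≤ W s' a' I := le_max_left _ _
  exact max_le (by linarith) (by linarith [W_nonneg (s := s') (a := a') (I := I)])

theorem W_zero_of_not {i : Fin m} (h : i ∉ I) (h' : a i ≤ 0) : ¬ 0 < W s a I := by
  rw [W_pos]
  linarith [lo_le' (s := s) (a := a) h, hi_nonneg (a := a) (I := I)]

theorem W_zero_of_mem {i : Fin m} (h : i ∈ I) (h' : a i = s) : ¬ 0 < W s a I := by
  rw [W_pos]
  linarith [lo_le (s := s) (a := a) (I := I), le_hi (a := a) h]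

/-- The unnormalised weights. -/
noncomputable def wt (σ : D m → ℝ) (I : Finset (Fin m)) (x : D m) : ℝ :=
  W (σ x) (fun i => G (x i) (σ x)) I

/-- The component of `x` in the set where the weight of `I` is positive. -/
def cp (σ : D m → ℝ) (I : Finset (Fin m)) (x : D m) : Set (D m) :=
  connectedComponentIn {z | 0 < wt σ I z} x

/-- The vertex attached to `I` at `x`. -/
noncomputable def vt (σ : D m → ℝ) (I : Finset (Fin m)) (x : D m) : Fin (m + 1) × D m :=
  (⟨I.card, Nat.lt_succ_of_le (by simpa using I.card_le_univ)⟩,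
    Classical.epsilon fun z => z ∈ cp σ I x)

/-- The weight vector. -/
noncomputable def ww (σ : D m → ℝ) (x : D m) : V (Fin (m + 1) × D m) :=
  ∑ I, (wt σ I x / σ x) • V.pt (vt σ I x)

variable {σ σ' : D m → ℝ} {x x' : D m}

theorem wt_nonneg : 0 ≤ wt σ I x := W_nonneg

theorem cp_pos {z : D m} (h : z ∈ cp σ I x) : 0 < wt σ I z :=
  connectedComponentIn_subset {z | 0 < wt σ I z} x h

theorem sig_le (hσ : Lip (1 / 10) σ) (x x' : D m) : |σ x - σ x'| ≤ 1 / 10 * dist x x' := by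
  simpa only [Real.dist_eq] using hσ x x'

theorem wt_lip (hσ : Lip (1 / 10) σ) (I : Finset (Fin m)) (x x' : D m) :
    wt σ I x ≤ wt σ I x' + 18 * dist x x' := by
  have key : ∀ (x x' : D m) (i : Fin m),
      G (x i) (σ x) ≤ G (x' i) (σ x') + 9 * dist x x' := by
    intro x x' i
    have h1 := dist_le_pi_dist x x' i
    rw [Real.dist_eq] at h1
    linarith only [h1, hσ, G_lip (x i) (σ x) (x' i) (σ x'), sig_le hσ x x', dist_nonneg (x := x) (y := x')]
  have h := W_lip (I := I) (s := σ x) (s' := σ x') (ε := 9 * dist x x') (by positivity)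
    (by linarith only [hσ, sig_le hσ x x', le_abs_self (σ x - σ x'), dist_nonneg (x := x) (y := x')])
    (key x x') (fun i => by rw [dist_comm]; exact key x' x i)
  unfold wt
  linarith

theorem ex_int (t c : ℝ) {L : ℝ} (hL : 0 < L) :
    ∃ k : ℤ, c + k * L ≤ t ∧ t ≤ c + ((k + 1 : ℤ) : ℝ) * L := by
  refine ⟨⌊(t - c) / L⌋, ?_, ?_⟩
  · have := (le_div_iff₀ hL).1 (Int.floor_le ((t - c) / L))
    linarith only [this]
  · have := (div_lt_iff₀ hL).1 (Int.lt_floor_add_one ((t - c) / L))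
    push_cast
    linarith only [this]

theorem ex_scale {r : ℝ} (hr : 0 < r) : ∃ e : ℤ, (2 : ℝ) ^ e ≤ r ∧ r < 2 * 2 ^ e := by
  obtain ⟨e, h1, h2⟩ := exists_mem_Ico_zpow hr (one_lt_two (α := ℝ))
  exact ⟨e, h1, by rwa [zpow_add_one₀ two_ne_zero, mul_comm] at h2⟩

theorem cp_sub (hσ : Lip (1 / 10) σ) (hx : 0 < σ x) (hI : 0 < wt σ I x) :
    cp σ I x ⊆ closedBall x (5 / 2 * σ x) := by
  have key : ∀ i : Fin m, ∃ p q : ℝ, p ≤ x i ∧ x i ≤ q ∧ q - p ≤ 5 / 2 * σ x ∧
      ∀ z, dist z x ≤ 5 / 2 * σ x → z i = p ∨ z i = q → ¬ 0 < wt σ I z := by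
    intro i
    by_cases hi : i ∈ I
    · obtain ⟨e, h1, h2⟩ := ex_scale (show 0 < 3 / 8 * σ x by positivity)
      obtain ⟨k, h3, h4⟩ := ex_int (x i) ((2 : ℝ) ^ e) (show (0 : ℝ) < 2 * 2 ^ e by positivity)
      refine ⟨_, _, h3, h4, by push_cast; linarith only [hx, h1], fun z hz h => W_zero_of_mem hi ?_⟩
      have h5 := abs_le.1 (sig_le hσ z x)
      rcases h with h | h <;>
        exact G_mid (δ := 0) (by rw [h, sub_self, abs_zero]) (by linarith only [h1, hz, h5]) (by linarith only [hx, h2, hz, h5])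
    · obtain ⟨e, h1, h2⟩ := ex_scale (show 0 < 5 / 2 * σ x by positivity)
      obtain ⟨k, h3, h4⟩ := ex_int (x i) 0 (show (0 : ℝ) < 2 ^ e by positivity)
      refine ⟨_, _, h3, h4, by push_cast; linarith only [h1], fun z hz h => W_zero_of_not hi ?_⟩
      have h5 := abs_le.1 (sig_le hσ z x)
      rcases h with h | h <;> exact G_wall (by rw [h, zero_add]) (by linarith only [h2, hz, h5])
  choose p q h1 h2 h3 h4 using key
  have hK : Icc p q ⊆ closedBall x (5 / 2 * σ x) := fun z hz =>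
    (dist_pi_le_iff (by positivity)).2 fun i => by
      rw [Real.dist_eq, abs_le]
      constructor <;> linarith only [hz, h2, h3, h1, hz.1 i, hz.2 i, h1 i, h2 i, h3 i]
  have hN : ∀ z ∈ Icc p q, 0 < wt σ I z → z ∈ Set.pi univ fun i => Ioo (p i) (q i) :=
    fun z hz h i _ => ⟨lt_of_le_of_ne (hz.1 i) fun e => h4 i z (hK hz) (.inl e.symm) h,
      lt_of_le_of_ne (hz.2 i) fun e => h4 i z (hK hz) (.inr e) h⟩
  have hs : (Set.pi univ fun i => Ioo (p i) (q i)) ⊆ Icc p q := fun z hz =>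
    ⟨fun i => (hz i trivial).1.le, fun i => (hz i trivial).2.le⟩
  refine (IsPreconnected.subset_left_of_subset_union
    (isOpen_set_pi finite_univ fun _ _ => isOpen_Ioo) isClosed_Icc.isOpen_compl
    (disjoint_compl_right_iff_subset.2 hs) (fun z hz => ?_)
    ⟨x, mem_connectedComponentIn hI, hN x ⟨h1, h2⟩ hI⟩
    isPreconnected_connectedComponentIn).trans (hs.trans hK)
  by_cases h : z ∈ Icc p q
  · exact .inl (hN z h (cp_pos hz))
  · exact .inr h

theorem vt_mem (hI : 0 < wt σ I x) : (vt σ I x).2 ∈ cp σ I x :=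
  Classical.epsilon_spec (p := fun z => z ∈ cp σ I x) ⟨x, mem_connectedComponentIn hI⟩

theorem vt_eq {S : Set (D m)} (hS : IsPreconnected S) (h : ∀ z ∈ S, 0 < wt σ I z) (hx : x ∈ S)
    (hx' : x' ∈ S) : vt σ I x = vt σ I x' := by
  have : cp σ I x = cp σ I x' :=
    connectedComponentIn_eq (hS.subset_connectedComponentIn hx h hx')
  rw [vt, vt, this]

theorem fs_sum {α ι : Type} (t : Finset ι) (β : ι → V α) :
    (∑ i ∈ t, β i).fs = ∑ i ∈ t, (β i).fs := rfl

theorem ww_fs (σ : D m → ℝ) (x : D m) :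
    (ww σ x).fs = ∑ I, Finsupp.single (vt σ I x) (wt σ I x / σ x) := by
  rw [ww, fs_sum]
  exact Finset.sum_congr rfl fun I _ => by simp [V.pt]

theorem supp_ww {v : Fin (m + 1) × D m} (h : v ∈ (ww σ x).fs.support) :
    ∃ I, 0 < wt σ I x ∧ v = vt σ I x := by
  classical
  rw [Finsupp.mem_support_iff, ww_fs, Finsupp.finsetSum_apply] at h
  obtain ⟨I, -, hI⟩ := Finset.exists_ne_zero_of_sum_ne_zero h
  obtain ⟨h1, h2⟩ := Finsupp.single_apply_ne_zero.1 hI
  exact ⟨I, lt_of_le_of_ne wt_nonneg fun e => h2 (by rw [← e, zero_div]), h1⟩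

theorem ww_col {v v' : Fin (m + 1) × D m} (h : v ∈ (ww σ x).fs.support)
    (h' : v' ∈ (ww σ x).fs.support) (e : v.1 = v'.1) : v = v' := by
  obtain ⟨I, hI, rfl⟩ := supp_ww h
  obtain ⟨J, hJ, rfl⟩ := supp_ww h'
  rw [W_inj hI hJ (congrArg Fin.val e)]

theorem ww_mem (hx : 0 < σ x) : ww σ x ∈ Y m (Fin (m + 1) × D m) := by
  classical
  refine ⟨fun v => ?_, ?_, ?_⟩
  · rw [ww_fs, Finsupp.finsetSum_apply]
    refine Finset.sum_nonneg fun I _ => ?_
    rw [Finsupp.single_apply]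
    split_ifs
    · exact div_nonneg W_nonneg hx.le
    · exact le_rfl
  · rw [ww_fs, ← Finsupp.sum_finsetSum_index (fun _ => rfl) fun _ _ _ => rfl]
    simp only [Finsupp.sum_single_index]
    rw [← Finset.sum_div, div_eq_one_iff_eq hx.ne']
    exact W_sum hx.le _
  · simpa using Finset.card_le_card_of_injOn (t := Finset.univ) Prod.fst
      (fun _ _ => Finset.mem_coe.2 (Finset.mem_univ _)) fun v h v' h' => ww_col h h'

theorem ww_wall {i : Fin m} {j k : ℤ} (h : x i = k * (2 : ℝ) ^ j) (h' : σ x ≤ (2 : ℝ) ^ j) :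
    (ww σ x).fs.support.card ≤ m := by
  have := Finset.card_le_card_of_injOn (s := (ww σ x).fs.support) (t := Finset.univ.erase 0)
    Prod.fst (fun v hv => ?_) fun v h v' h' => ww_col h h'
  · simpa using this
  obtain ⟨I, hI, rfl⟩ := supp_ww hv
  refine Finset.mem_coe.2 (Finset.mem_erase.2 ⟨fun e => ?_, Finset.mem_univ _⟩)
  obtain rfl : I = ∅ := Finset.card_eq_zero.1 (congrArg Fin.val e)
  exact W_zero_of_not (Finset.notMem_empty i) (G_wall h h') hI

theorem term_lip (hσ : Lip (1 / 10) σ) (hx : 0 < σ x) (hx' : 0 < σ x') (I : Finset (Fin m)) :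
    ‖(wt σ I x / σ x) • V.pt (vt σ I x) - (wt σ I x' / σ x') • V.pt (vt σ I x')‖ * σ x ≤
      37 * dist x x' := by
  have h0 := dist_nonneg (x := x) (y := x')
  have h1 : |wt σ I x' / σ x' * σ x - wt σ I x'| ≤ 1 / 10 * dist x x' := by
    have e : wt σ I x' / σ x' * σ x - wt σ I x' = wt σ I x' / σ x' * (σ x - σ x') := by
      field_simp
    rw [e, abs_mul, abs_of_nonneg (div_nonneg wt_nonneg hx'.le)]
    exact (mul_le_of_le_one_left (abs_nonneg _) ((div_le_one hx').2 (W_le hx'.le))).trans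
      (sig_le hσ x x')
  rw [abs_le] at h1
  have h2 : wt σ I x / σ x * σ x = wt σ I x := div_mul_cancel₀ _ hx.ne'
  by_cases h : ∀ z ∈ segment ℝ x x', 0 < wt σ I z
  · rw [vt_eq (convex_segment x x').isPreconnected h (left_mem_segment _ _ _)
      (right_mem_segment _ _ _), ← sub_smul, norm_smul, V.norm_pt, mul_one, Real.norm_eq_abs,
      ← abs_of_pos hx, ← abs_mul, abs_of_pos hx, sub_mul, h2, abs_le]
    have h3 := wt_lip hσ I x x'
    have h4 := wt_lip hσ I x' x
    rw [dist_comm] at h4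
    constructor <;> linarith only [h0, h1, h4, h3]
  · push Not at h
    obtain ⟨z, hz, h⟩ := h
    have h3 := wt_lip hσ I x z
    have h4 := wt_lip hσ I x' z
    have h5 := dist_add_dist_of_mem_segment hz
    rw [dist_comm] at h4
    refine (mul_le_mul_of_nonneg_right (norm_sub_le _ _) hx.le).trans ?_
    rw [norm_smul, norm_smul, V.norm_pt, V.norm_pt, mul_one, mul_one,
      Real.norm_of_nonneg (div_nonneg wt_nonneg hx.le),
      Real.norm_of_nonneg (div_nonneg wt_nonneg hx'.le), add_mul]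
    linarith only [h0, h1, h2, h, h3, h4, h5]

theorem ww_lip (hσ : Lip (1 / 10) σ) (hx : 0 < σ x) (hx' : 0 < σ x') :
    dist (ww σ x) (ww σ x') * σ x ≤ 37 * 2 ^ m * dist x x' := by
  rw [dist_eq_norm, ww, ww, ← Finset.sum_sub_distrib]
  refine (mul_le_mul_of_nonneg_right (norm_sum_le _ _) hx.le).trans ?_
  rw [Finset.sum_mul]
  refine (Finset.sum_le_sum fun I _ => term_lip hσ hx hx' I).trans (le_of_eq ?_)
  simp only [Finset.sum_const, Finset.card_univ, Fintype.card_finset, Fintype.card_fin,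
    nsmul_eq_mul]
  push_cast
  ring

theorem ww_core (hσ : Lip (1 / 10) σ) (hx : 0 < σ x) : ∃ x' v, dist x' x ≤ σ x ∧
    ∀ z, dist z x' ≤ σ x / 100 → ww σ z = V.pt v := by
  obtain ⟨e, h1, h2⟩ := ex_scale (show 0 < 3 / 8 * σ x by positivity)
  choose k h3 h4 using fun i =>
    ex_int (x i) ((2 : ℝ) ^ e) (show (0 : ℝ) < 2 * 2 ^ e by positivity)
  let y : D m := fun i => (2 : ℝ) ^ e + k i * (2 * 2 ^ e)
  have hy : dist y x ≤ 3 / 4 * σ x := (dist_pi_le_iff (by positivity)).2 fun i => by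
    have h5 := h4 i
    push_cast at h5
    rw [Real.dist_eq, abs_le]
    constructor <;> simp only [y] <;> linarith only [h1, h5, hx, h3, h3 i]
  have key : ∀ z ∈ closedBall y (σ x / 100), 0 < σ z ∧ (∀ I, I ≠ ∅ → wt σ I z = 0) ∧
      wt σ ∅ z = σ z := by
    intro z hz
    rw [mem_closedBall] at hz
    have h5 := abs_le.1 (sig_le hσ z x)
    have h6 := dist_triangle z y x
    have h7 : 0 < σ z := by linarith only [hx, hy, hz, h5, h6]
    have h8 : ∀ I, I ≠ ∅ → wt σ I z = 0 := fun I hI => by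
      obtain ⟨i, hi⟩ := Finset.nonempty_iff_ne_empty.2 hI
      refine le_antisymm (not_lt.1 (W_zero_of_mem hi ?_)) W_nonneg
      exact G_mid ((dist_le_pi_dist z y i).trans hz) (by linarith only [hx, h1, hy, hz, h5, h6]) (by linarith only [hx, h2, hy, hz, h5, h6])
    refine ⟨h7, h8, ?_⟩
    rw [← Finset.sum_eq_single_of_mem ∅ (Finset.mem_univ _) fun I _ => h8 I]
    exact W_sum h7.le _
  refine ⟨y, vt σ ∅ y, by linarith only [hx, hy], fun z hz => ?_⟩
  obtain ⟨h5, h6, h7⟩ := key z hz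
  rw [ww, Finset.sum_eq_single_of_mem ∅ (Finset.mem_univ _) fun I _ hI => by simp [h6 I hI],
    h7, div_self h5.ne', one_smul,
    vt_eq (convex_closedBall y (σ x / 100)).isPreconnected
      (fun z hz => (key z hz).2.2 ▸ (key z hz).1) hz (mem_closedBall_self (by positivity))]

theorem cp_loc (hσ : Lip (1 / 10) σ) (hx : 0 < σ x) (hI : 0 < wt σ I x)
    (h : ∀ z, dist z x ≤ 3 * σ x → σ z = σ' z) : cp σ I x ⊆ cp σ' I x :=
  isPreconnected_connectedComponentIn.subset_connectedComponentIn (mem_connectedComponentIn hI)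
    fun z hz => by
      have h1 : 0 < wt σ I z := cp_pos hz
      have h2 := mem_closedBall.1 (cp_sub hσ hx hI hz)
      rw [wt, h z (by linarith only [hx, h2])] at h1
      exact h1

theorem ww_loc (hσ : Lip (1 / 10) σ) (hσ' : Lip (1 / 10) σ') (hx : 0 < σ x)
    (h : ∀ z, dist z x ≤ 3 * σ x → σ z = σ' z) : ww σ x = ww σ' x := by
  have e : σ x = σ' x := h x (by rw [dist_self]; positivity)
  refine Finset.sum_congr rfl fun I _ => ?_
  have e' : wt σ I x = wt σ' I x := by rw [wt, wt, e]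
  rcases (wt_nonneg (σ := σ) (I := I) (x := x)).eq_or_lt with hI | hI
  · rw [← e', ← hI]
    simp
  · have : cp σ I x = cp σ' I x := (cp_loc hσ hx hI h).antisymm
      (cp_loc hσ' (e ▸ hx) (e' ▸ hI) fun z hz => (h z (e ▸ hz)).symm)
    rw [vt, vt, this, e, e']

end DW

theorem dw (m : ℕ) : ∃ (C : ℝ) (w : (D m → ℝ) → D m → V (Fin (m + 1) × D m)), 1 ≤ C ∧
    (∀ σ, Lip (1 / 10) σ → (∀ x, 0 ≤ σ x) → IsDW C σ (w σ)) ∧
    ∀ σ σ', Lip (1 / 10) σ → (∀ x, 0 ≤ σ x) → Lip (1 / 10) σ' → (∀ x, 0 ≤ σ' x) →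
      ∀ x, 0 < σ x → (∀ z, dist z x ≤ 3 * σ x → σ z = σ' z) → w σ x = w σ' x := by
  refine ⟨37 * 2 ^ m, DW.ww, by linarith only [one_le_pow₀ (one_le_two (α := ℝ)) (n := m)],
    fun σ hσ _ => ⟨fun x => DW.ww_mem, fun x _ v h v' h' => DW.ww_col h h',
      fun x i j k _ => DW.ww_wall, fun x hx v hv => ?_, fun x x' => DW.ww_lip hσ,
      fun x => DW.ww_core hσ⟩, fun σ σ' hσ _ hσ' _ x => DW.ww_loc hσ hσ'⟩
  obtain ⟨I, hI, rfl⟩ := DW.supp_ww hv
  linarith only [hx, hσ, hI, mem_closedBall.1 (DW.cp_sub hσ hx hI (DW.vt_mem hI))]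

end Pool.Agent.Work.MP_4b5e6c_gt
end

-- merged part: Pool.Agent.Work.MP_4b5e6c_gt.RZ
section
/-! Task RZ: realization of the skeleton from the extension property. -/

namespace Pool.Agent.Work.MP_4b5e6c_gt
open Metric Set

namespace RZ
variable {n : ℕ} {X : Type}

theorem exists_enum (s : Finset X) (hs : s.card ≤ n) (a0 : X) :
    ∃ g : Fin n → X, ∀ a ∈ s, ∃ i, g i = a := by
  refine ⟨fun i => if h : (i : ℕ) < s.card then (s.equivFin.symm ⟨i, h⟩ : X) else a0,
    fun a ha => ⟨⟨s.equivFin ⟨a, ha⟩, (s.equivFin ⟨a, ha⟩).2.trans_le hs⟩, ?_⟩⟩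
  simp

theorem wt_eq_zero {β : Ys n X} {a : X} (h : a ∉ β.supp) : β.wt a = 0 :=
  Finsupp.notMem_support_iff.1 h

/-- Coordinates on a face. -/
def emb (g : Fin n → X) (β : Ys n X) : D n := fun i => β.wt (g i)

theorem dist_emb_le (g : Fin n → X) (β β' : Ys n X) : dist (emb g β) (emb g β') ≤ dist β β' :=
  (dist_pi_le_iff dist_nonneg).2 fun i => β.abs_wt_sub_le β' (g i)

theorem dist_le_emb [DecidableEq X] {g : Fin n → X} {T : Finset X} {a0 : X} (h0 : a0 ∈ T)
    (hT : T.card ≤ n + 1) (hg : ∀ a ∈ T.erase a0, ∃ i, g i = a) {β β' : Ys n X}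
    (h : β.supp ⊆ T) (h' : β'.supp ⊆ T) : dist β β' ≤ 2 * n * dist (emb g β) (emb g β') := by
  have h1 : ∑ a ∈ T.erase a0, |β.wt a - β'.wt a| ≤ n * dist (emb g β) (emb g β') := by
    calc ∑ a ∈ T.erase a0, |β.wt a - β'.wt a| ≤ ∑ _a ∈ T.erase a0, dist (emb g β) (emb g β') := by
          refine Finset.sum_le_sum fun a ha => ?_
          obtain ⟨i, rfl⟩ := hg a ha
          exact dist_le_pi_dist (emb g β) (emb g β') i
      _ = (T.erase a0).card * dist (emb g β) (emb g β') := by simp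
      _ ≤ n * dist (emb g β) (emb g β') := by
          have : (T.erase a0).card ≤ n := by
            rw [Finset.card_erase_of_mem h0]
            omega
          have : ((T.erase a0).card : ℝ) ≤ n := by exact_mod_cast this
          gcongr
  have h2 : |β.wt a0 - β'.wt a0| ≤ ∑ a ∈ T.erase a0, |β.wt a - β'.wt a| := by
    have e1 := β.sum_wt T h
    have e2 := β'.sum_wt T h'
    rw [← Finset.add_sum_erase T _ h0] at e1 e2
    have e3 : β.wt a0 - β'.wt a0 = -∑ a ∈ T.erase a0, (β.wt a - β'.wt a) := by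
      rw [Finset.sum_sub_distrib]
      linarith only [e1, e2]
    rw [e3, abs_neg]
    exact Finset.abs_sum_le_sum_abs _ _
  rw [β.dist_eq β' T h h', ← Finset.add_sum_erase T _ h0]
  linarith

theorem isClosed_bdry (g : Fin n → X) {T : Finset X} {k : ℕ} (hT : T.card = k + 2) (hk : k ≤ n) :
    IsClosed (emb g '' {β : Ys n X | β.supp ⊆ T ∧ β.supp.card ≤ k + 1}) := by
  classical
  let K : Set (X → ℝ) := {w | ∀ a, 0 ≤ w a} ∩ ({w | ∀ a, a ∉ T → w a = 0} ∩
    ({w | ∑ a ∈ T, w a = 1} ∩ ⋃ a ∈ T, {w | w a = 0}))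
  have hK : IsClosed K := by
    refine IsClosed.inter ?_ (IsClosed.inter ?_ (IsClosed.inter ?_ ?_))
    · rw [ofPred_forall]
      exact isClosed_iInter fun a => isClosed_le continuous_const (continuous_apply a)
    · rw [ofPred_forall]
      refine isClosed_iInter fun a => ?_
      rw [ofPred_forall]
      exact isClosed_iInter fun _ => isClosed_eq (continuous_apply a) continuous_const
    · exact isClosed_eq (continuous_finsetSum _ fun a _ => continuous_apply a) continuous_const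
    · exact isClosed_biUnion_finset fun a _ => isClosed_eq (continuous_apply a) continuous_const
  have hc : IsCompact K := by
    refine (isCompact_univ_pi fun _ : X => (isCompact_Icc : IsCompact (Icc (0 : ℝ) 1))).of_isClosed_subset
      hK ?_
    rintro w ⟨h1, h2, h3, -⟩ a -
    refine ⟨h1 a, ?_⟩
    by_cases ha : a ∈ T
    · rw [← (show ∑ a ∈ T, w a = 1 from h3)]
      exact Finset.single_le_sum (fun b _ => h1 b) ha
    · rw [h2 a ha]
      exact zero_le_one
  have he : emb g '' {β : Ys n X | β.supp ⊆ T ∧ β.supp.card ≤ k + 1}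
      = (fun (w : X → ℝ) (i : Fin n) => w (g i)) '' K := by
    ext x
    constructor
    · rintro ⟨β, ⟨h1, h2⟩, rfl⟩
      refine ⟨β.wt, ⟨β.wt_nonneg, fun a ha => wt_eq_zero fun h => ha (h1 h), β.sum_wt T h1, ?_⟩, rfl⟩
      obtain ⟨a, ha, ha'⟩ := Finset.exists_mem_notMem_of_card_lt_card
        (show β.supp.card < T.card by omega)
      exact mem_iUnion₂.2 ⟨a, ha, wt_eq_zero ha'⟩
    · rintro ⟨w, ⟨h1, h2, h3, h4⟩, rfl⟩
      obtain ⟨a, ha, ha'⟩ := mem_iUnion₂.1 h4
      have hw : ∀ b, w b ≠ 0 → b ∈ T := fun b hb => by_contra fun h => hb (h2 b h)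
      have hs : (Finsupp.onFinset T w hw).support ⊆ T.erase a := by
        intro b hb
        have hb' : w b ≠ 0 := Finsupp.mem_support_iff.1 hb
        exact Finset.mem_erase.2 ⟨fun h => hb' (h ▸ ha'), hw b hb'⟩
      have hcard : (Finsupp.onFinset T w hw).support.card ≤ k + 1 := by
        have := Finset.card_le_card hs
        rw [Finset.card_erase_of_mem ha] at this
        omega
      refine ⟨⟨V.mk (Finsupp.onFinset T w hw), h1, ?_, hcard.trans (by omega)⟩,
        ⟨hs.trans (Finset.erase_subset _ _), hcard⟩, rfl⟩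
      rw [V.fs_mk, Finsupp.sum_of_support_subset _ (hs.trans (Finset.erase_subset _ _)) _
        fun _ _ => rfl]
      exact h3
  rw [he]
  exact (hc.image (continuous_pi fun i => continuous_apply (g i))).isClosed

variable [MetricSpace X]

/-- The realization is Lipschitz on the faces with at most `k + 1` vertices. -/
def Ok (k : ℕ) (C : ℝ) (ι : Ys n X → X) : Prop :=
  (∀ p, ι (vtx p) = p) ∧ ∀ T : Finset X, T.card ≤ k + 1 → ∀ d : ℝ, 0 ≤ d →
    (∀ a ∈ T, ∀ b ∈ T, dist a b ≤ d) → ∀ β β' : Ys n X, β.supp ⊆ T → β'.supp ⊆ T →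
      dist (ι β) (ι β') ≤ C * d * dist β β'

theorem Ok.skel {k : ℕ} {C : ℝ} {ι : Ys n X → X} (h : Ok k C ι) (hC : 1 ≤ C) {S : Set X} {d : ℝ}
    (hd : 0 ≤ d) (hS : ∀ a ∈ S, ∀ b ∈ S, dist a b ≤ d) (β β' : Ys n X) (h1 : ↑β.supp ⊆ S)
    (h1' : ↑β'.supp ⊆ S) (h2 : β.supp.card ≤ k + 1) (h2' : β'.supp.card ≤ k + 1) :
    dist (ι β) (ι β') ≤ 10 * (C * d) * dist β β' := by
  refine lipS_of_faces (by positivity) k ι (fun T hT hT' => ?_) (fun a ha b hb => ?_) β β' h1 h1'
    h2 h2'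
  · exact h.2 T hT' d hd fun a ha b hb => hS a (hT ha) b (hT hb)
  · rw [h.1, h.1]
    exact (hS a ha b hb).trans (le_mul_of_one_le_left hd hC)

theorem base : Ok 0 1 (sel : Ys n X → X) := by
  refine ⟨sel_vtx, fun T hT d hd _ β β' h h' => ?_⟩
  have e : sel β = sel β' := Finset.card_le_one.1 hT _ (h (sel_mem β)) _ (h' (sel_mem β'))
  rw [e, dist_self]
  positivity

theorem face {C0 : ℝ} (hext : ∀ (A : Set (D n)) (f : D n → X) (L : ℝ), 0 ≤ L → IsClosed A →
      A.Nonempty → (∀ a ∈ A, ∀ b ∈ A, dist (f a) (f b) ≤ L * dist a b) →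
      ∃ F : D n → X, Lip (C0 * L) F ∧ ∀ a ∈ A, F a = f a)
    {k : ℕ} (hk : k + 1 ≤ n) {C : ℝ} {ι : Ys n X → X} (h : Ok k C ι) (hC : 1 ≤ C)
    (T : Finset X) : ∃ F : Ys n X → X, T.card = k + 2 →
      (∀ β : Ys n X, β.supp ⊆ T → β.supp.card ≤ k + 1 → F β = ι β) ∧
      ∀ β β' : Ys n X, dist (F β) (F β')
        ≤ |C0| * (20 * n * C) * diam (T : Set X) * dist β β' := by
  classical
  by_cases hT : T.card = k + 2
  swap
  · exact ⟨ι, fun h => absurd h hT⟩
  obtain ⟨a0, h0⟩ : T.Nonempty := Finset.card_pos.1 (by omega)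
  obtain ⟨g, hg⟩ := exists_enum (n := n) (T.erase a0)
    (by rw [Finset.card_erase_of_mem h0]; omega) a0
  set B : Set (Ys n X) := {β | β.supp ⊆ T ∧ β.supp.card ≤ k + 1} with hB
  let f : D n → X := fun x => if h : x ∈ emb g '' B then ι h.choose else a0
  have hf : ∀ β ∈ B, f (emb g β) = ι β := by
    intro β hβ
    have h1 : emb g β ∈ emb g '' B := ⟨β, hβ, rfl⟩
    have h2 := dist_le_emb h0 (by omega) hg h1.choose_spec.1.1 hβ.1
    rw [h1.choose_spec.2, dist_self, mul_zero] at h2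
    simp only [f, dif_pos h1]
    rw [dist_le_zero.1 h2]
  have hd : (0 : ℝ) ≤ diam (T : Set X) := diam_nonneg
  have hC0 : 0 ≤ C := by linarith only [hC]
  obtain ⟨F, hF1, hF2⟩ := hext (emb g '' B) f (20 * n * C * diam (T : Set X)) (by positivity)
    (isClosed_bdry g hT (by omega))
    ⟨_, vtx a0, ⟨by rw [supp_vtx]; exact Finset.singleton_subset_iff.2 h0,
      by rw [supp_vtx, Finset.card_singleton]; omega⟩, rfl⟩ (by
      rintro _ ⟨β, hβ, rfl⟩ _ ⟨β', hβ', rfl⟩
      rw [hf β hβ, hf β' hβ']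
      calc dist (ι β) (ι β') ≤ 10 * (C * diam (T : Set X)) * dist β β' :=
            h.skel hC hd (fun a ha b hb => dist_le_diam_of_mem T.finite_toSet.isBounded ha hb) β β'
              hβ.1 hβ'.1 hβ.2 hβ'.2
        _ ≤ 10 * (C * diam (T : Set X)) * (2 * n * dist (emb g β) (emb g β')) := by
            have := dist_le_emb h0 (by omega) hg hβ.1 hβ'.1
            gcongr
        _ = _ := by ring)
  refine ⟨fun β => F (emb g β), fun _ => ⟨fun β h1 h2 => ?_, fun β β' => ?_⟩⟩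
  · rw [← hf β ⟨h1, h2⟩]
    exact hF2 _ ⟨β, ⟨h1, h2⟩, rfl⟩
  · calc dist (F (emb g β)) (F (emb g β'))
        ≤ C0 * (20 * n * C * diam (T : Set X)) * dist (emb g β) (emb g β') := hF1 _ _
      _ ≤ |C0| * (20 * n * C * diam (T : Set X)) * dist β β' := by
          have h1 := dist_emb_le g β β'
          have h2 := le_abs_self C0
          gcongr
      _ = _ := by ring

theorem step {C0 : ℝ} (hext : ∀ (A : Set (D n)) (f : D n → X) (L : ℝ), 0 ≤ L → IsClosed A →
      A.Nonempty → (∀ a ∈ A, ∀ b ∈ A, dist (f a) (f b) ≤ L * dist a b) →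
      ∃ F : D n → X, Lip (C0 * L) F ∧ ∀ a ∈ A, F a = f a)
    {k : ℕ} (hk : k + 1 ≤ n) {C : ℝ} {ι : Ys n X → X} (h : Ok k C ι) (hC : 1 ≤ C) :
    ∃ (C' : ℝ) (ι' : Ys n X → X), 1 ≤ C' ∧ Ok (k + 1) C' ι' := by
  choose F hF using face hext hk h hC
  refine ⟨max C (|C0| * (20 * n * C)),
    fun β => if β.supp.card = k + 2 then F β.supp β else ι β, le_max_of_le_left hC,
    fun p => ?_, fun T hT d hd hTd β β' h1 h1' => ?_⟩
  · beta_reduce
    rw [if_neg (by rw [supp_vtx, Finset.card_singleton]; omega), h.1]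
  beta_reduce
  by_cases hT' : T.card = k + 2
  · have key : ∀ γ : Ys n X, γ.supp ⊆ T →
        (if γ.supp.card = k + 2 then F γ.supp γ else ι γ) = F T γ := by
      intro γ hγ
      split_ifs with hc
      · rw [Finset.eq_of_subset_of_card_le hγ (by omega)]
      · have := Finset.card_le_card hγ
        exact ((hF T hT').1 γ hγ (by omega)).symm
    rw [key β h1, key β' h1']
    refine ((hF T hT').2 β β').trans ?_
    have h2 : diam (T : Set X) ≤ d := diam_le_of_forall_dist_le hd hTd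
    have h3 := le_max_right C (|C0| * (20 * n * C))
    have h4 : (0 : ℝ) ≤ diam (T : Set X) := diam_nonneg
    have h5 : (0 : ℝ) ≤ max C (|C0| * (20 * n * C)) := le_max_of_le_left (by linarith only [hC])
    gcongr
  · have h2 := Finset.card_le_card h1
    have h3 := Finset.card_le_card h1'
    rw [if_neg (by omega), if_neg (by omega)]
    refine (h.2 T (by omega) d hd hTd β β' h1 h1').trans ?_
    have h4 := le_max_left C (|C0| * (20 * n * C))
    gcongr

end RZ

theorem Good.exists_rz {n : ℕ} {X : Type} [MetricSpace X] (G : Good n X) : Nonempty (Rz n X) := by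
  obtain ⟨C0, hext⟩ := G.ext
  have key : ∀ k ≤ n, ∃ (C : ℝ) (ι : Ys n X → X), 1 ≤ C ∧ RZ.Ok k C ι := by
    intro k
    induction k with
    | zero => exact fun _ => ⟨1, sel, le_rfl, RZ.base⟩
    | succ k ih =>
      intro hk
      obtain ⟨C, ι, hC, h⟩ := ih (by omega)
      exact RZ.step hext hk h hC
  obtain ⟨C, ι, hC, h⟩ := key n le_rfl
  refine ⟨⟨ι, 20 * C, by linarith, h.1, fun p r hr β β' h1 h1' => ?_⟩⟩
  refine (h.skel hC (d := 2 * r) (by positivity) (fun a ha b hb => ?_) β β' h1 h1' β.card_supp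
    β'.card_supp).trans (le_of_eq (by ring))
  have h2 := mem_closedBall.1 ha
  have h3 := mem_closedBall.1 hb
  have h4 := dist_triangle_right a b p
  linarith

end Pool.Agent.Work.MP_4b5e6c_gt
end

-- merged part: Pool.Agent.Work.MP_4b5e6c_gt.HJet1
section
/-! Helper for task HJET: sheared coordinates and the linear system for the slopes. -/

namespace Pool.Agent.Work.MP_4b5e6c_gt

namespace HJet

variable {n : ℕ} {α : Type}

/-- The sheared vertical coordinate. -/
def zc (p : Heis n) : ℝ := p.t + 2 * (p.x ⬝ᵥ p.y)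

/-- A point given in sheared coordinates. -/
def mkz (x y : Fin n → ℝ) (z : ℝ) : Heis n := ⟨x, y, z - 2 * (x ⬝ᵥ y)⟩

@[simp] theorem zc_mkz (x y : Fin n → ℝ) (z : ℝ) : zc (mkz x y z) = z := by
  simp [zc, mkz]

@[simp] theorem mkz_x (x y : Fin n → ℝ) (z : ℝ) : (mkz x y z).x = x := rfl
@[simp] theorem mkz_y (x y : Fin n → ℝ) (z : ℝ) : (mkz x y z).y = y := rfl

theorem vert_eq (p q : Heis n) :
    Heis.vert p q = zc q - zc p - 2 * ((p.y + q.y) ⬝ᵥ (q.x - p.x)) := by
  simp only [Heis.vert, zc, add_dotProduct, dotProduct_sub]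
  rw [dotProduct_comm q.y q.x, dotProduct_comm p.y p.x, dotProduct_comm q.y p.x]
  ring

/-- The model simplex. -/
def xi (c : Fin (n + 1)) : Fin n → ℝ := fun j => if c = j.succ then 1 else 0

theorem norm_xi_le (c : Fin (n + 1)) : ‖xi c‖ ≤ 1 := by
  refine (pi_norm_le_iff_of_nonneg zero_le_one).2 fun j => ?_
  unfold xi; split_ifs <;> simp

theorem xi_zero_dot (η : Fin n → ℝ) : xi (0 : Fin (n + 1)) ⬝ᵥ η = 0 := by
  have : xi (0 : Fin (n + 1)) = 0 := by
    funext j; simp [xi, (Fin.succ_ne_zero j).symm]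
  rw [this, zero_dotProduct]

theorem xi_succ_dot (j : Fin n) (η : Fin n → ℝ) : xi j.succ ⬝ᵥ η = η j := by
  simp [xi, dotProduct, Fin.succ_inj]

theorem err_dot (e η : Fin n → ℝ) (he : ‖e‖ ≤ 1 / (4 * ((n : ℝ) + 1))) :
    |e ⬝ᵥ η| ≤ ‖η‖ / 4 := by
  have h1 := Heis.abs_dot_le e η
  have hn : (0 : ℝ) ≤ n := Nat.cast_nonneg n
  have h2 : (n : ℝ) * ‖e‖ ≤ 1 / 4 := by
    calc (n : ℝ) * ‖e‖ ≤ ((n : ℝ) + 1) * (1 / (4 * ((n : ℝ) + 1))) :=
          mul_le_mul (by linarith only []) he (norm_nonneg _) (by positivity)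
      _ = 1 / 4 := by field_simp
  calc |e ⬝ᵥ η| ≤ (n * ‖e‖) * ‖η‖ := by rw [mul_assoc]; exact h1
    _ ≤ 1 / 4 * ‖η‖ := mul_le_mul_of_nonneg_right h2 (norm_nonneg _)
    _ = ‖η‖ / 4 := by ring

theorem apriori (a : Fin (n + 1) → Fin n → ℝ)
    (ha : ∀ c, ‖a c - xi c‖ ≤ 1 / (4 * ((n : ℝ) + 1))) (η : Fin n → ℝ) (ζ R : ℝ)
    (h : ∀ c, |ζ + a c ⬝ᵥ η| ≤ R) : ‖η‖ ≤ 4 * R := by
  have hR : 0 ≤ R := (abs_nonneg _).trans (h 0)
  have key : ∀ c, a c ⬝ᵥ η = xi c ⬝ᵥ η + (a c - xi c) ⬝ᵥ η := fun c => by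
    rw [sub_dotProduct]; ring
  have hj : ‖η‖ ≤ 2 * R + ‖η‖ / 2 := by
    refine (pi_norm_le_iff_of_nonneg (by positivity)).2 fun j => ?_
    have h0 := h 0
    have h1 := h j.succ
    rw [key, xi_zero_dot] at h0
    rw [key, xi_succ_dot] at h1
    have e0 := err_dot _ η (ha 0)
    have e1 := err_dot _ η (ha j.succ)
    rw [Real.norm_eq_abs, abs_le]
    rw [abs_le] at h0 h1 e0 e1
    constructor <;> linarith only [h0, h1, e0, e1, h0.1, h0.2, h1.1, h1.2, e0.1, e0.2, e1.1, e1.2]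
  linarith

/-- The linear map of the system. -/
def sysMap (a : Fin (n + 1) → Fin n → ℝ) : (Fin (n + 1) → ℝ) →ₗ[ℝ] (Fin (n + 1) → ℝ) where
  toFun u := fun c => u 0 + a c ⬝ᵥ fun j => u j.succ
  map_add' u v := by
    funext c
    simp only [dotProduct, Pi.add_apply, mul_add, Finset.sum_add_distrib]; ring
  map_smul' r u := by
    funext c
    simp only [dotProduct, Pi.smul_apply, smul_eq_mul, RingHom.id_apply, mul_add, Finset.mul_sum]
    congr 1
    exact Finset.sum_congr rfl fun j _ => by ring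

theorem solve (a : Fin (n + 1) → Fin n → ℝ)
    (ha : ∀ c, ‖a c - xi c‖ ≤ 1 / (4 * ((n : ℝ) + 1))) (r : Fin (n + 1) → ℝ) (R : ℝ)
    (hr : ∀ c, |r c| ≤ R) :
    ∃ (η : Fin n → ℝ) (ζ : ℝ), (∀ c, ζ + a c ⬝ᵥ η = r c) ∧ ‖η‖ ≤ 4 * R := by
  have hinj : Function.Injective (sysMap a) := by
    rw [injective_iff_map_eq_zero]
    intro u hu
    have h0 : ∀ c, u 0 + a c ⬝ᵥ (fun j => u j.succ) = 0 := fun c => congrFun hu c
    have h1 := apriori a ha (fun j => u j.succ) (u 0) 0 fun c => by rw [h0 c]; simp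
    have h2 : (fun j : Fin n => u j.succ) = 0 := norm_le_zero_iff.1 (by linarith)
    have h3 := h0 0
    rw [h2, dotProduct_zero, add_zero] at h3
    funext c
    refine Fin.cases h3 (fun j => congrFun h2 j) c
  obtain ⟨u, hu⟩ := LinearMap.injective_iff_surjective.1 hinj r
  have h0 : ∀ c, u 0 + a c ⬝ᵥ (fun j => u j.succ) = r c := fun c => congrFun hu c
  exact ⟨_, u 0, h0, apriori a ha _ (u 0) R fun c => by rw [h0 c]; exact hr c⟩

theorem rhs_eq (p q : Heis n) : zc q - zc p - 4 * (p.y ⬝ᵥ (q.x - p.x)) =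
    Heis.vert p q + 2 * ((q.y - p.y) ⬝ᵥ (q.x - p.x)) := by
  rw [vert_eq, add_dotProduct, sub_dotProduct]; ring

theorem rhs_le (p q : Heis n) {r : ℝ} (h : dist q p ≤ r) :
    |zc q - zc p - 4 * (p.y ⬝ᵥ (q.x - p.x))| ≤ (4 * n + 2) * r ^ 2 := by
  have hr : 0 ≤ r := dist_nonneg.trans h
  rw [dist_comm] at h
  obtain ⟨h1, h2, h3⟩ := (Heis.dist_le_iff hr).1 h
  have hn : (0 : ℝ) ≤ n := Nat.cast_nonneg n
  have h4 := (Heis.abs_dot_le (q.y - p.y) (q.x - p.x)).trans
    (mul_le_mul_of_nonneg_left (mul_le_mul h2 h1 (norm_nonneg _) hr) hn)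
  rw [rhs_eq, abs_le]
  rw [abs_le] at h3 h4
  constructor <;> linarith only [h3, h4, h3.1, h3.2, h4.1, h4.2]

/-- A common slope for an injectively coloured set of points near the model simplex. -/
theorem exists_slope (T : Finset α) (col : α → Fin (n + 1)) (hcol : Set.InjOn col T)
    (Q : α → Heis n) (p : Heis n) {m r : ℝ} (hm : 0 < m)
    (hx : ∀ v ∈ T, ‖((Q v).x - p.x) - m • xi (col v)‖ ≤ m * (1 / (4 * ((n : ℝ) + 1))))
    (hd : ∀ v ∈ T, dist (Q v) p ≤ r) :
    ∃ y : Fin n → ℝ, (∀ v ∈ T, ∀ w ∈ T, 4 * (y ⬝ᵥ ((Q w).x - (Q v).x)) = zc (Q w) - zc (Q v)) ∧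
      ‖y - p.y‖ ≤ (4 * n + 2) * r ^ 2 / m := by
  classical
  let a : Fin (n + 1) → Fin n → ℝ := fun c =>
    if h : ∃ v ∈ T, col v = c then m⁻¹ • ((Q h.choose).x - p.x) else xi c
  let ρ : Fin (n + 1) → ℝ := fun c =>
    if h : ∃ v ∈ T, col v = c then
      zc (Q h.choose) - zc p - 4 * (p.y ⬝ᵥ ((Q h.choose).x - p.x)) else 0
  have hn : (0 : ℝ) ≤ n := Nat.cast_nonneg n
  have ha : ∀ c, ‖a c - xi c‖ ≤ 1 / (4 * ((n : ℝ) + 1)) := by
    intro c
    by_cases h : ∃ v ∈ T, col v = c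
    · simp only [a, dif_pos h]
      have h1 := hx _ h.choose_spec.1
      rw [h.choose_spec.2] at h1
      have h2 : m⁻¹ • ((Q h.choose).x - p.x) - xi c =
          m⁻¹ • (((Q h.choose).x - p.x) - m • xi c) := by
        rw [smul_sub m⁻¹ ((Q h.choose).x - p.x), smul_smul, inv_mul_cancel₀ hm.ne', one_smul]
      rw [h2, norm_smul, norm_inv, Real.norm_eq_abs, abs_of_pos hm, inv_mul_le_iff₀ hm]
      exact h1
    · simp only [a, dif_neg h, sub_self, norm_zero]; positivity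
  have hρ : ∀ c, |ρ c| ≤ (4 * n + 2) * r ^ 2 := by
    intro c
    by_cases h : ∃ v ∈ T, col v = c
    · simp only [ρ, dif_pos h]
      exact rhs_le p _ (hd _ h.choose_spec.1)
    · simp only [ρ, dif_neg h, abs_zero]; positivity
  obtain ⟨η, ζ, h1, h2⟩ := solve a ha ρ _ hρ
  have key : ∀ v ∈ T, 4 * ((p.y + (4 * m)⁻¹ • η) ⬝ᵥ ((Q v).x - p.x)) =
      zc (Q v) - zc p - ζ := by
    intro v hv
    have h : ∃ w ∈ T, col w = col v := ⟨v, hv, rfl⟩
    have hc : h.choose = v := hcol h.choose_spec.1 hv h.choose_spec.2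
    have h3 := h1 (col v)
    simp only [a, ρ, dif_pos h, hc, smul_dotProduct, smul_eq_mul] at h3
    rw [add_dotProduct, smul_dotProduct, smul_eq_mul, dotProduct_comm η]
    have h4 : 4 * ((4 * m)⁻¹ * (((Q v).x - p.x) ⬝ᵥ η)) = m⁻¹ * (((Q v).x - p.x) ⬝ᵥ η) := by
      field_simp
    linarith only [h3, h4]
  refine ⟨p.y + (4 * m)⁻¹ • η, fun v hv w hw => ?_, ?_⟩
  · have h3 : (Q w).x - (Q v).x = ((Q w).x - p.x) - ((Q v).x - p.x) := by abel
    rw [h3, dotProduct_sub]
    linarith only [key, hv, hw, key v hv, key w hw]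
  · rw [add_sub_cancel_left, norm_smul, norm_inv, Real.norm_eq_abs, abs_of_pos (by positivity),
      inv_mul_le_iff₀ (by positivity)]
    calc ‖η‖ ≤ 4 * ((4 * n + 2) * r ^ 2) := h2
      _ = 4 * m * ((4 * n + 2) * r ^ 2 / m) := by field_simp

/-- The horizontal displacement of a point in the direction `u`. -/
def disp (q : Heis n) (u : Fin n → ℝ) : Heis n := mkz (q.x + u) q.y (zc q + 4 * (q.y ⬝ᵥ u))

theorem dist_disp (q : Heis n) (u : Fin n → ℝ) : dist (disp q u) q ≤ ‖u‖ := by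
  rw [dist_comm]
  refine (Heis.dist_le_iff (norm_nonneg u)).2 ⟨by simp [disp], by simp [disp], ?_⟩
  have : Heis.vert q (disp q u) = 0 := by
    rw [vert_eq]
    simp only [disp, zc_mkz, mkz_x, mkz_y, add_sub_cancel_left, add_dotProduct]
    ring
  rw [this, abs_zero]; positivity

end HJet

end Pool.Agent.Work.MP_4b5e6c_gt
end

-- merged part: Pool.Agent.Work.MP_4b5e6c_gt.HJet2
section
/-! Helper for task HJET: the two systems of weights. -/

namespace Pool.Agent.Work.MP_4b5e6c_gt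

namespace HJet

variable {n : ℕ} {α : Type}

/-- The threshold. -/
noncomputable def ee (n : ℕ) : ℝ := 1 / (4 * ((n : ℝ) + 1))

theorem ee_pos : 0 < ee n := by unfold ee; positivity

theorem ee_le_one : ee n ≤ 1 := by
  unfold ee
  have hn : (0 : ℝ) ≤ n := Nat.cast_nonneg n
  rw [div_le_one (by positivity)]; linarith only []

/-- The cutoff. -/
noncomputable def chi (n : ℕ) (t : ℝ) : ℝ := max 0 (min 1 (t / ee n))

theorem chi_nonneg (t : ℝ) : 0 ≤ chi n t := le_max_left _ _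
theorem chi_le_one (t : ℝ) : chi n t ≤ 1 := max_le zero_le_one (min_le_left _ _)
theorem chi_zero : chi n 0 = 0 := by simp [chi]
theorem chi_eq_one {t : ℝ} (h : ee n ≤ t) : chi n t = 1 := by
  have : 1 ≤ t / ee n := (one_le_div ee_pos).2 h
  simp [chi, this]

theorem chi_lip (t t' : ℝ) : |chi n t - chi n t'| ≤ |t - t'| / ee n := by
  unfold chi
  calc |max 0 (min 1 (t / ee n)) - max 0 (min 1 (t' / ee n))|
      ≤ |min 1 (t / ee n) - min 1 (t' / ee n)| := by
        rw [max_comm 0, max_comm 0]; exact abs_max_sub_max_le_abs _ _ _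
    _ ≤ max |(1 : ℝ) - 1| |t / ee n - t' / ee n| := abs_min_sub_min_le_max _ _ _ _
    _ = |t - t'| / ee n := by
        rw [sub_self, abs_zero, max_eq_right (abs_nonneg _), ← sub_div, abs_div,
          abs_of_pos ee_pos]

theorem wt_eq_zero {β : Ys n α} {v : α} (h : v ∉ β.supp) : β.wt v = 0 := by
  rw [Ys.mem_supp, not_lt] at h
  exact le_antisymm h (β.wt_nonneg v)

/-- The excess weight. -/
noncomputable def hv (β : Ys n α) (v : α) : ℝ := max 0 (β.wt v - 2 * ee n)

/-- The total excess weight. -/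
noncomputable def tot (β : Ys n α) : ℝ := ∑ v ∈ β.supp, hv β v

/-- The normalised excess weight. -/
noncomputable def rho (β : Ys n α) (v : α) : ℝ := hv β v / tot β

theorem hv_nonneg (β : Ys n α) (v : α) : 0 ≤ hv β v := le_max_left _ _

theorem hv_eq_zero {β : Ys n α} {v : α} (h : β.wt v ≤ 2 * ee n) : hv β v = 0 :=
  max_eq_left (by linarith)

theorem hv_of_not_mem {β : Ys n α} {v : α} (h : v ∉ β.supp) : hv β v = 0 :=
  hv_eq_zero (by rw [wt_eq_zero h]; linarith [@ee_pos n])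

theorem tot_eq (β : Ys n α) {S : Finset α} (h : β.supp ⊆ S) : tot β = ∑ v ∈ S, hv β v :=
  Finset.sum_subset h fun _ _ hv' => hv_of_not_mem hv'

theorem four_ee_le (β : Ys n α) : 4 * ee n ≤ β.wt (sel β) := by
  have h := wt_sel β
  have : 4 * ee n = 1 / ((n : ℝ) + 1) := by unfold ee; field_simp
  rwa [this]

theorem tot_ge (β : Ys n α) : 2 * ee n ≤ tot β := by
  calc 2 * ee n ≤ hv β (sel β) := le_max_of_le_right (by linarith [four_ee_le β])
    _ ≤ tot β := Finset.single_le_sum (fun v _ => hv_nonneg β v) (sel_mem β)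

theorem tot_pos (β : Ys n α) : 0 < tot β := by linarith [tot_ge β, @ee_pos n]

theorem rho_nonneg (β : Ys n α) (v : α) : 0 ≤ rho β v :=
  div_nonneg (hv_nonneg β v) (tot_pos β).le

theorem sum_rho (β : Ys n α) {S : Finset α} (h : β.supp ⊆ S) : ∑ v ∈ S, rho β v = 1 := by
  simp only [rho, ← Finset.sum_div]
  rw [← tot_eq β h, div_self (tot_pos β).ne']

theorem rho_of_not_mem {β : Ys n α} {v : α} (h : v ∉ β.supp) : rho β v = 0 := by
  simp [rho, hv_of_not_mem h]

theorem lt_wt_of_rho {β : Ys n α} {v : α} (h : rho β v ≠ 0) : 2 * ee n < β.wt v := by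
  by_contra hc
  exact h (by simp [rho, hv_eq_zero (not_lt.1 hc)])

theorem hv_lip (β β' : Ys n α) (v : α) : |hv β v - hv β' v| ≤ |β.wt v - β'.wt v| := by
  unfold hv
  rw [max_comm 0, max_comm 0]
  refine (abs_max_sub_max_le_abs _ _ _).trans (le_of_eq ?_)
  congr 1; ring

theorem rho_lip (β β' : Ys n α) {S : Finset α} (h : β.supp ⊆ S) (h' : β'.supp ⊆ S) :
    ∑ v ∈ S, |rho β v - rho β' v| ≤ dist β β' / ee n := by
  have ht := tot_pos β
  have ht' := tot_pos β'
  have hd : ∑ v ∈ S, |hv β v - hv β' v| ≤ dist β β' := by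
    rw [Ys.dist_eq β β' S h h']
    exact Finset.sum_le_sum fun v _ => hv_lip β β' v
  have hd' : |tot β - tot β'| ≤ dist β β' := by
    rw [tot_eq β h, tot_eq β' h', ← Finset.sum_sub_distrib]
    exact (Finset.abs_sum_le_sum_abs _ _).trans hd
  have key : ∀ v, |rho β v - rho β' v| ≤
      |hv β v - hv β' v| / tot β + rho β' v * (|tot β - tot β'| / tot β) := by
    intro v
    have e : rho β v - rho β' v =
        (hv β v - hv β' v) / tot β - rho β' v * ((tot β - tot β') / tot β) := by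
      unfold rho; field_simp; ring
    rw [e]
    refine (abs_sub _ _).trans (le_of_eq ?_)
    rw [abs_div, abs_mul, abs_div, abs_of_pos ht, abs_of_nonneg (rho_nonneg β' v)]
  calc ∑ v ∈ S, |rho β v - rho β' v|
      ≤ ∑ v ∈ S, (|hv β v - hv β' v| / tot β + rho β' v * (|tot β - tot β'| / tot β)) :=
        Finset.sum_le_sum fun v _ => key v
    _ = (∑ v ∈ S, |hv β v - hv β' v|) / tot β + |tot β - tot β'| / tot β := by
        rw [Finset.sum_add_distrib, ← Finset.sum_div, ← Finset.sum_mul, sum_rho β' h', one_mul]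
    _ ≤ dist β β' / tot β + dist β β' / tot β := by gcongr
    _ = 2 * dist β β' / tot β := by ring
    _ ≤ 2 * dist β β' / (2 * ee n) := by
        have := @ee_pos n
        gcongr
        exact tot_ge β
    _ = dist β β' / ee n := by
        have := @ee_pos n
        field_simp

open Classical in
/-- The weight of a subset. -/
noncomputable def ww (β : Ys n α) (S T : Finset α) : ℝ :=
  (∏ v ∈ T, chi n (β.wt v)) * ∏ v ∈ S \ T, (1 - chi n (β.wt v))

theorem ww_nonneg (β : Ys n α) (S T : Finset α) : 0 ≤ ww β S T :=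
  mul_nonneg (Finset.prod_nonneg fun _ _ => chi_nonneg _)
    (Finset.prod_nonneg fun _ _ => sub_nonneg.2 (chi_le_one _))

theorem sum_ww (β : Ys n α) (S : Finset α) : ∑ T ∈ S.powerset, ww β S T = 1 := by
  classical
  have := Finset.prod_add (fun v => chi n (β.wt v)) (fun v => 1 - chi n (β.wt v)) S
  simp only [add_sub_cancel, Finset.prod_const_one] at this
  rw [this]
  refine Finset.sum_congr rfl fun T _ => ?_
  unfold ww
  congr

theorem subset_of_ww {β : Ys n α} {S T : Finset α} (h : ww β S T ≠ 0) : T ⊆ β.supp := by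
  intro v hv
  by_contra hc
  apply h
  unfold ww
  rw [Finset.prod_eq_zero hv (by rw [wt_eq_zero hc, chi_zero]), zero_mul]

theorem mem_of_ww {β : Ys n α} {S T : Finset α} (h : ww β S T ≠ 0) {v : α} (hv : v ∈ S)
    (hw : ee n ≤ β.wt v) : v ∈ T := by
  classical
  by_contra hc
  apply h
  unfold ww
  rw [Finset.prod_eq_zero (i := v) (s := S \ T) (by simp [hv, hc])
    (by rw [chi_eq_one hw, sub_self]), mul_zero]

theorem ww_eq (β : Ys n α) {S : Finset α} (h : β.supp ⊆ S) (T : Finset α) :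
    ww β β.supp T = ww β S T := by
  classical
  unfold ww
  congr 1
  refine Finset.prod_subset (Finset.sdiff_subset_sdiff h subset_rfl) fun v hv hv' => ?_
  have : v ∉ β.supp := fun hc => hv' (Finset.mem_sdiff.2 ⟨hc, (Finset.mem_sdiff.1 hv).2⟩)
  rw [wt_eq_zero this, chi_zero, sub_zero]

theorem abs_prod_sub_prod (S : Finset α) (f g : α → ℝ) (hf : ∀ v, 0 ≤ f v ∧ f v ≤ 1)
    (hg : ∀ v, 0 ≤ g v ∧ g v ≤ 1) : |∏ v ∈ S, f v - ∏ v ∈ S, g v| ≤ ∑ v ∈ S, |f v - g v| := by
  classical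
  induction S using Finset.induction_on with
  | empty => simp
  | insert a S ha ih =>
    rw [Finset.prod_insert ha, Finset.prod_insert ha, Finset.sum_insert ha]
    have h1 : 0 ≤ ∏ v ∈ S, g v := Finset.prod_nonneg fun v _ => (hg v).1
    have h2 : ∏ v ∈ S, g v ≤ 1 := Finset.prod_le_one (fun v _ => (hg v).1) fun v _ => (hg v).2
    have e : f a * ∏ v ∈ S, f v - g a * ∏ v ∈ S, g v =
        (f a - g a) * ∏ v ∈ S, g v + f a * (∏ v ∈ S, f v - ∏ v ∈ S, g v) := by ring
    rw [e]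
    refine (abs_add_le _ _).trans (add_le_add ?_ ?_)
    · rw [abs_mul, abs_of_nonneg h1]
      exact mul_le_of_le_one_right (abs_nonneg _) h2
    · rw [abs_mul, abs_of_nonneg (hf a).1]
      exact (mul_le_of_le_one_left (abs_nonneg _) (hf a).2).trans ih

open Classical in
theorem ww_eq_prod (β : Ys n α) {S T : Finset α} (h : T ⊆ S) :
    ww β S T = ∏ v ∈ S, if v ∈ T then chi n (β.wt v) else 1 - chi n (β.wt v) := by
  unfold ww
  rw [Finset.prod_ite]
  congr 1
  · congr 1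
    ext v; simp only [Finset.mem_filter]
    exact ⟨fun hv => ⟨h hv, hv⟩, fun hv => hv.2⟩
  · congr 1
    ext v; simp

theorem ww_lip (β β' : Ys n α) {S T : Finset α} (h : β.supp ⊆ S) (h' : β'.supp ⊆ S)
    (hT : T ⊆ S) : |ww β S T - ww β' S T| ≤ dist β β' / ee n := by
  classical
  have hb : ∀ (γ : Ys n α) (v : α),
      0 ≤ (if v ∈ T then chi n (γ.wt v) else 1 - chi n (γ.wt v)) ∧
      (if v ∈ T then chi n (γ.wt v) else 1 - chi n (γ.wt v)) ≤ 1 := by
    intro γ v
    have h1 := @chi_nonneg n (γ.wt v)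
    have h2 := @chi_le_one n (γ.wt v)
    split_ifs <;> constructor <;> linarith only [h1, h2]
  rw [ww_eq_prod β hT, ww_eq_prod β' hT]
  refine (abs_prod_sub_prod S _ _ (by convert hb β) (by convert hb β')).trans ?_
  rw [Ys.dist_eq β β' S h h', Finset.sum_div]
  refine Finset.sum_le_sum fun v _ => ?_
  split_ifs
  · exact chi_lip _ _
  · rw [sub_sub_sub_cancel_left, abs_sub_comm]; exact chi_lip _ _

theorem sum_ww_lip (β β' : Ys n α) {S : Finset α} (h : β.supp ⊆ S) (h' : β'.supp ⊆ S)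
    (hS : S.card ≤ 2 * (n + 1)) :
    ∑ T ∈ S.powerset, |ww β S T - ww β' S T| ≤ 2 ^ (2 * (n + 1)) * (dist β β' / ee n) := by
  have he := @ee_pos n
  calc ∑ T ∈ S.powerset, |ww β S T - ww β' S T| ≤ ∑ _T ∈ S.powerset, dist β β' / ee n :=
        Finset.sum_le_sum fun T hT => ww_lip β β' h h' (Finset.mem_powerset.1 hT)
    _ = 2 ^ S.card * (dist β β' / ee n) := by simp
    _ ≤ 2 ^ (2 * (n + 1)) * (dist β β' / ee n) := by
        gcongr
        norm_num

/-- Weighted sums of vectors near a point. -/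
theorem norm_sum_sub {ι : Type} (S : Finset ι) (c : ι → ℝ) (f : ι → Fin n → ℝ) (a : Fin n → ℝ)
    {K : ℝ} (hf : ∀ i ∈ S, c i ≠ 0 → ‖f i - a‖ ≤ K) :
    ‖∑ i ∈ S, c i • f i - (∑ i ∈ S, c i) • a‖ ≤ (∑ i ∈ S, |c i|) * K := by
  rw [Finset.sum_smul, ← Finset.sum_sub_distrib, Finset.sum_mul]
  refine (norm_sum_le _ _).trans (Finset.sum_le_sum fun i hi => ?_)
  rw [← smul_sub, norm_smul, Real.norm_eq_abs]
  by_cases hc : c i = 0
  · simp [hc]
  · exact mul_le_mul_of_nonneg_left (hf i hi hc) (abs_nonneg _)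

theorem norm_convex_sub {ι : Type} (S : Finset ι) (c : ι → ℝ) (f : ι → Fin n → ℝ)
    (a : Fin n → ℝ) {K : ℝ} (hc : ∀ i ∈ S, 0 ≤ c i) (h1 : ∑ i ∈ S, c i = 1)
    (hf : ∀ i ∈ S, c i ≠ 0 → ‖f i - a‖ ≤ K) : ‖∑ i ∈ S, c i • f i - a‖ ≤ K := by
  have h := norm_sum_sub S c f a hf
  rw [h1, one_smul, Finset.sum_congr rfl fun i hi => abs_of_nonneg (hc i hi), h1, one_mul] at h
  exact h

theorem norm_diff_sub {ι : Type} (S : Finset ι) (c c' : ι → ℝ) (f : ι → Fin n → ℝ)
    (a : Fin n → ℝ) {K : ℝ} (h1 : ∑ i ∈ S, c i = 1) (h1' : ∑ i ∈ S, c' i = 1)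
    (hf : ∀ i ∈ S, c i ≠ 0 ∨ c' i ≠ 0 → ‖f i - a‖ ≤ K) :
    ‖∑ i ∈ S, c' i • f i - ∑ i ∈ S, c i • f i‖ ≤ (∑ i ∈ S, |c i - c' i|) * K := by
  have h := norm_sum_sub S (fun i => c i - c' i) f a (K := K) fun i hi hc => hf i hi (by
    by_contra hn
    rw [not_or, not_not, not_not] at hn
    exact hc (by simp [hn.1, hn.2]))
  rw [Finset.sum_sub_distrib, h1, h1', sub_self, zero_smul, sub_zero] at h
  rw [norm_sub_rev, ← Finset.sum_sub_distrib]
  simpa only [sub_smul] using h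

end HJet

end Pool.Agent.Work.MP_4b5e6c_gt
end

-- merged part: Pool.Agent.Work.MP_4b5e6c_gt.HJet
section
/-! Task HJET: Legendrian realization of coloured complexes. -/

namespace Pool.Agent.Work.MP_4b5e6c_gt

namespace HJet

variable {n : ℕ} {α : Type}

/-- The base coordinate of the realization. -/
noncomputable def XX (Q : α → Heis n) (β : Ys n α) : Fin n → ℝ :=
  ∑ v ∈ β.supp, rho β v • (Q v).x

/-- The slope coordinate of the realization. -/
noncomputable def YY (yT : Finset α → Fin n → ℝ) (β : Ys n α) : Fin n → ℝ :=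
  ∑ T ∈ β.supp.powerset, ww β β.supp T • yT T

/-- The height coordinate of the realization. -/
noncomputable def ZZ (Q : α → Heis n) (β : Ys n α) : ℝ := ∑ v ∈ β.supp, rho β v * zc (Q v)

/-- The realization. -/
noncomputable def iota (Q : α → Heis n) (yT : Finset α → Fin n → ℝ) (β : Ys n α) : Heis n :=
  mkz (XX Q β) (YY yT β) (ZZ Q β)

/-- `y` is a common slope for the points indexed by `T`. -/
def IsSlp (Q : α → Heis n) (T : Finset α) (y : Fin n → ℝ) : Prop :=
  ∀ v ∈ T, ∀ w ∈ T, 4 * (y ⬝ᵥ ((Q w).x - (Q v).x)) = zc (Q w) - zc (Q v)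

theorem XX_eq (Q : α → Heis n) (β : Ys n α) {S : Finset α} (h : β.supp ⊆ S) :
    XX Q β = ∑ v ∈ S, rho β v • (Q v).x :=
  Finset.sum_subset h fun _ _ hv => by rw [rho_of_not_mem hv, zero_smul]

theorem YY_eq (yT : Finset α → Fin n → ℝ) (β : Ys n α) {S : Finset α} (h : β.supp ⊆ S) :
    YY yT β = ∑ T ∈ S.powerset, ww β S T • yT T := by
  unfold YY
  simp only [ww_eq β h]
  refine Finset.sum_subset (Finset.powerset_mono.2 h) fun T _ hT => ?_
  have : ww β S T = 0 := by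
    by_contra hc
    exact hT (Finset.mem_powerset.2 (subset_of_ww hc))
  rw [this, zero_smul]

theorem affine_sum (Q : α → Heis n) (β : Ys n α) (y : Fin n → ℝ) (c : ℝ) :
    ZZ Q β - c - 4 * (y ⬝ᵥ XX Q β) =
      ∑ v ∈ β.supp, rho β v * (zc (Q v) - c - 4 * (y ⬝ᵥ (Q v).x)) := by
  have h1 := sum_rho β (subset_refl β.supp)
  unfold ZZ XX
  rw [dotProduct_sum, Finset.mul_sum]
  conv_lhs => rw [← one_mul c, ← h1, Finset.sum_mul]
  rw [← Finset.sum_sub_distrib, ← Finset.sum_sub_distrib]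
  refine Finset.sum_congr rfl fun v _ => ?_
  rw [dotProduct_smul, smul_eq_mul]; ring

theorem slope_one {Q : α → Heis n} {T : Finset α} {y : Fin n → ℝ} (hG : IsSlp Q T y) {v0 : α}
    (h0 : v0 ∈ T) (β : Ys n α) (hβ : ∀ v, rho β v ≠ 0 → v ∈ T) :
    ZZ Q β - 4 * (y ⬝ᵥ XX Q β) = zc (Q v0) - 4 * (y ⬝ᵥ (Q v0).x) := by
  have h := affine_sum Q β y (zc (Q v0) - 4 * (y ⬝ᵥ (Q v0).x))
  rw [Finset.sum_eq_zero] at h
  · linarith only [h]
  · intro v _
    by_cases hv : rho β v = 0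
    · rw [hv, zero_mul]
    · have := hG v0 h0 v (hβ v hv)
      rw [dotProduct_sub] at this
      rw [mul_eq_zero]; right; linarith only [this]

theorem sel_mem_of_ww {β : Ys n α} {S T : Finset α} (h : β.supp ⊆ S) (hw : ww β S T ≠ 0) :
    sel β ∈ T :=
  mem_of_ww hw (h (sel_mem β)) (by linarith [four_ee_le β, @ee_pos n])

/-- The averaged slope at `γ` works for any two points whose heavy vertices are heavy at `γ`. -/
theorem slope_avg {Q : α → Heis n} {yT : Finset α → Fin n → ℝ} (γ β β' : Ys n α)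
    (hG : ∀ T : Finset α, T.Nonempty → T ⊆ γ.supp → IsSlp Q T (yT T))
    (hβ : ∀ v, rho β v ≠ 0 → ee n ≤ γ.wt v) (hβ' : ∀ v, rho β' v ≠ 0 → ee n ≤ γ.wt v) :
    4 * (YY yT γ ⬝ᵥ (XX Q β' - XX Q β)) = ZZ Q β' - ZZ Q β := by
  have he := @ee_pos n
  have h1 := sum_ww γ γ.supp
  unfold YY
  rw [sum_dotProduct, Finset.mul_sum]
  conv_rhs => rw [← one_mul (ZZ Q β' - ZZ Q β), ← h1, Finset.sum_mul]
  refine Finset.sum_congr rfl fun T _ => ?_
  rw [smul_dotProduct, smul_eq_mul]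
  by_cases hw : ww γ γ.supp T = 0
  · rw [hw]; ring
  · have h0 := sel_mem_of_ww subset_rfl hw
    have hg := hG T ⟨_, h0⟩ (subset_of_ww hw)
    have hm : ∀ v, ee n ≤ γ.wt v → v ∈ T := fun v hv =>
      mem_of_ww hw (Ys.mem_supp.2 (by linarith)) hv
    have e1 := slope_one hg h0 β fun v hv => hm v (hβ v hv)
    have e2 := slope_one hg h0 β' fun v hv => hm v (hβ' v hv)
    rw [dotProduct_sub]
    have : 4 * (yT T ⬝ᵥ XX Q β' - yT T ⬝ᵥ XX Q β) = ZZ Q β' - ZZ Q β := by linarith only [e1, e2]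
    rw [← this]; ring

theorem vert_iota {Q : α → Heis n} {yT : Finset α → Fin n → ℝ} (β β' : Ys n α)
    (hG : ∀ T : Finset α, T.Nonempty → T ⊆ β.supp ∨ T ⊆ β'.supp → IsSlp Q T (yT T))
    (hd : dist β β' ≤ ee n) : Heis.vert (iota Q yT β) (iota Q yT β') = 0 := by
  have he := @ee_pos n
  have hw : ∀ v, |β.wt v - β'.wt v| ≤ ee n := fun v => (Ys.abs_wt_sub_le β β' v).trans hd
  have e1 := slope_avg β β β' (fun T h1 h2 => hG T h1 (Or.inl h2))
    (fun v hv => by linarith [lt_wt_of_rho hv])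
    fun v hv => by linarith [lt_wt_of_rho hv, (abs_le.1 (hw v)).1]
  have e2 := slope_avg β' β β' (fun T h1 h2 => hG T h1 (Or.inr h2))
    (fun v hv => by linarith [lt_wt_of_rho hv, (abs_le.1 (hw v)).2])
    fun v hv => by linarith [lt_wt_of_rho hv]
  rw [vert_eq]
  simp only [iota, zc_mkz, mkz_x, mkz_y, add_dotProduct]
  linarith only [e1, e2]

theorem iota_near {Q : α → Heis n} {yT : Finset α → Fin n → ℝ} (β : Ys n α) (p : Heis n) {r : ℝ}
    (hQ : ∀ v ∈ β.supp, dist (Q v) p ≤ r)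
    (hY : ∀ T : Finset α, T.Nonempty → T ⊆ β.supp → ‖yT T - p.y‖ ≤ r) :
    dist (iota Q yT β) p ≤ 2 * r := by
  have hr : 0 ≤ r := dist_nonneg.trans (hQ _ (sel_mem β))
  have hn : (0 : ℝ) ≤ n := Nat.cast_nonneg n
  have hx : ‖XX Q β - p.x‖ ≤ r :=
    norm_convex_sub _ _ _ _ (fun v _ => rho_nonneg β v) (sum_rho β subset_rfl) fun v hv _ =>
      (Heis.norm_x_le p (Q v)).trans (by rw [dist_comm]; exact hQ v hv)
  have hy : ‖YY yT β - p.y‖ ≤ r :=
    norm_convex_sub _ _ _ _ (fun T _ => ww_nonneg β _ T) (sum_ww β _) fun T hT hw =>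
      hY T ⟨_, sel_mem_of_ww subset_rfl hw⟩ (Finset.mem_powerset.1 hT)
  have h1 : |ZZ Q β - (zc p - 4 * (p.y ⬝ᵥ p.x)) - 4 * (p.y ⬝ᵥ XX Q β)| ≤ (4 * n + 2) * r ^ 2 := by
    rw [affine_sum]
    refine (Finset.abs_sum_le_sum_abs _ _).trans ?_
    calc ∑ v ∈ β.supp, |rho β v * (zc (Q v) - (zc p - 4 * (p.y ⬝ᵥ p.x)) - 4 * (p.y ⬝ᵥ (Q v).x))|
        ≤ ∑ v ∈ β.supp, rho β v * ((4 * n + 2) * r ^ 2) := by
          refine Finset.sum_le_sum fun v hv => ?_
          rw [abs_mul, abs_of_nonneg (rho_nonneg β v)]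
          refine mul_le_mul_of_nonneg_left ?_ (rho_nonneg β v)
          have := rhs_le p (Q v) (hQ v hv)
          rw [dotProduct_sub] at this
          refine le_of_eq_of_le (congrArg abs ?_) this
          ring
      _ = (4 * n + 2) * r ^ 2 := by rw [← Finset.sum_mul, sum_rho β subset_rfl, one_mul]
  have h2 := (Heis.abs_dot_le (YY yT β - p.y) (XX Q β - p.x)).trans
    (mul_le_mul_of_nonneg_left (mul_le_mul hy hx (norm_nonneg _) hr) hn)
  rw [dist_comm]
  refine (Heis.dist_le_iff (by positivity)).2 ⟨hx.trans (by linarith), hy.trans (by linarith), ?_⟩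
  have e : Heis.vert p (iota Q yT β) =
      (ZZ Q β - (zc p - 4 * (p.y ⬝ᵥ p.x)) - 4 * (p.y ⬝ᵥ XX Q β)) -
        2 * ((YY yT β - p.y) ⬝ᵥ (XX Q β - p.x)) := by
    rw [vert_eq]
    simp only [iota, zc_mkz, mkz_x, mkz_y, add_dotProduct, sub_dotProduct, dotProduct_sub]
    ring
  have h3 : 0 ≤ (n : ℝ) * r ^ 2 := by positivity
  have h4 : 0 ≤ r ^ 2 := by positivity
  rw [e, abs_le]
  rw [abs_le] at h1 h2
  constructor <;> linarith only [h1, h2, h1.1, h1.2, h2.1, h2.2, mul_self_nonneg r]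

theorem four_le_pow (n : ℕ) : (4 : ℝ) ≤ 2 ^ (2 * (n + 1)) := by
  calc (4 : ℝ) = 2 ^ 2 := by norm_num
    _ ≤ 2 ^ (2 * (n + 1)) := pow_le_pow_right₀ (by norm_num) (by omega)

theorem iota_lip {Q : α → Heis n} {yT : Finset α → Fin n → ℝ} (β β' : Ys n α) (p : Heis n)
    {r : ℝ} (hQ : ∀ v, v ∈ β.supp ∨ v ∈ β'.supp → dist (Q v) p ≤ r)
    (hY : ∀ T : Finset α, T.Nonempty → T ⊆ β.supp ∨ T ⊆ β'.supp →
      IsSlp Q T (yT T) ∧ ‖yT T - p.y‖ ≤ r) :
    dist (iota Q yT β) (iota Q yT β') ≤ 2 ^ (2 * (n + 1)) * (dist β β' / ee n) * r := by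
  classical
  have he := @ee_pos n
  have hr : 0 ≤ r := dist_nonneg.trans (hQ _ (Or.inl (sel_mem β)))
  have h4 := four_le_pow n
  have hd0 : 0 ≤ dist β β' / ee n := by positivity
  rcases le_total (dist β β') (ee n) with hd | hd
  · have hS : β.supp ⊆ β.supp ∪ β'.supp := Finset.subset_union_left
    have hS' : β'.supp ⊆ β.supp ∪ β'.supp := Finset.subset_union_right
    have hc : (β.supp ∪ β'.supp).card ≤ 2 * (n + 1) :=
      (Finset.card_union_le _ _).trans (by linarith only [β.card_supp, β'.card_supp])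
    refine (Heis.dist_le_iff (by positivity)).2 ⟨?_, ?_, ?_⟩
    · simp only [iota, mkz_x]
      rw [XX_eq Q β hS, XX_eq Q β' hS']
      refine (norm_diff_sub _ _ _ _ p.x (K := r) (sum_rho β hS) (sum_rho β' hS')
        fun v hv _ => ?_).trans ?_
      · exact (Heis.norm_x_le p (Q v)).trans
          (by rw [dist_comm]; exact hQ v (Finset.mem_union.1 hv))
      · refine mul_le_mul_of_nonneg_right ((rho_lip β β' hS hS').trans ?_) hr
        exact le_mul_of_one_le_left hd0 (by linarith only [h4])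
    · simp only [iota, mkz_y]
      rw [YY_eq yT β hS, YY_eq yT β' hS']
      refine (norm_diff_sub _ _ _ _ p.y (K := r) (sum_ww β _) (sum_ww β' _)
        fun T _ hT => ?_).trans ?_
      · rcases hT with hT | hT
        · exact (hY T ⟨_, sel_mem_of_ww hS hT⟩ (Or.inl (subset_of_ww hT))).2
        · exact (hY T ⟨_, sel_mem_of_ww hS' hT⟩ (Or.inr (subset_of_ww hT))).2
      · exact mul_le_mul_of_nonneg_right (sum_ww_lip β β' hS hS' hc) hr
    · rw [vert_iota β β' (fun T h1 h2 => (hY T h1 h2).1) hd, abs_zero]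
      positivity
  · have h1 := iota_near (yT := yT) β p (fun v hv => hQ v (Or.inl hv))
      fun T h1 h2 => (hY T h1 (Or.inl h2)).2
    have h2 := iota_near (yT := yT) β' p (fun v hv => hQ v (Or.inr hv))
      fun T h1 h2 => (hY T h1 (Or.inr h2)).2
    have h3 : 1 ≤ dist β β' / ee n := (one_le_div he).2 hd
    calc dist (iota Q yT β) (iota Q yT β') ≤ 4 * r := by
          linarith [dist_triangle_right (iota Q yT β) (iota Q yT β') p]
      _ ≤ 2 ^ (2 * (n + 1)) * (dist β β' / ee n) * r :=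
          mul_le_mul_of_nonneg_right (by linarith only [h3, h4, hd0, mul_nonneg_of_nonpos_of_nonpos (Mathlib.Tactic.Linarith.sub_nonpos_of_le h4) (Mathlib.Tactic.Linarith.sub_nonpos_of_le hd0)]) hr

/-- The displaced vertices. -/
noncomputable def QQ (B : ℝ) (col : α → Fin (n + 1)) (q : α → Heis n) (s : α → ℝ) (v : α) :
    Heis n :=
  disp (q v) ((8 * ((n : ℝ) + 1) * B * s v) • xi (col v))

theorem s_bounds {a l : ℝ} (hl : 0 < l) (h : |a - l| ≤ 1 / (8 * ((n : ℝ) + 1)) * l) :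
    l ≤ 2 * a ∧ a ≤ 2 * l := by
  have hn : (0 : ℝ) ≤ n := Nat.cast_nonneg n
  have h1 : 1 / (8 * ((n : ℝ) + 1)) ≤ 1 / 2 :=
    one_div_le_one_div_of_le (by norm_num) (by linarith only [])
  have h2 := abs_le.1 (h.trans (mul_le_mul_of_nonneg_right h1 hl.le))
  constructor <;> linarith only [h2, hl, h2.1, h2.2]

theorem QQ_near {B l : ℝ} (hB : 1 ≤ B) (hl : 0 < l) (col : α → Fin (n + 1)) (q : α → Heis n)
    (s : α → ℝ) (p : Heis n) (v : α) (hs : |s v - l| ≤ 1 / (8 * ((n : ℝ) + 1)) * l)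
    (hq : dist (q v) p ≤ B * l) :
    dist (QQ B col q s v) p ≤ 17 * ((n : ℝ) + 1) * B * l := by
  have hn : (0 : ℝ) ≤ n := Nat.cast_nonneg n
  obtain ⟨h1, h2⟩ := s_bounds hl hs
  have h3 : dist (QQ B col q s v) (q v) ≤ 8 * ((n : ℝ) + 1) * B * (2 * l) := by
    refine (dist_disp _ _).trans ?_
    have hs0 : 0 ≤ s v := by linarith only [hl, h1]
    rw [norm_smul, Real.norm_eq_abs, abs_of_nonneg (by positivity)]
    refine (mul_le_of_le_one_right (by positivity) (norm_xi_le _)).trans ?_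
    gcongr
  have h4 : 0 ≤ (n : ℝ) * (B * l) := by positivity
  linarith only [hq, h3, h4, dist_triangle (QQ B col q s v) (q v) p]

theorem QQ_model {B l : ℝ} (hB : 1 ≤ B) (col : α → Fin (n + 1)) (q : α → Heis n)
    (s : α → ℝ) (p : Heis n) (v : α) (hs : |s v - l| ≤ 1 / (8 * ((n : ℝ) + 1)) * l)
    (hq : dist (q v) p ≤ B * l) :
    ‖((QQ B col q s v).x - p.x) - (8 * ((n : ℝ) + 1) * B * l) • xi (col v)‖ ≤
      8 * ((n : ℝ) + 1) * B * l * (1 / (4 * ((n : ℝ) + 1))) := by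
  have hn : (0 : ℝ) ≤ n := Nat.cast_nonneg n
  have e : ((QQ B col q s v).x - p.x) - (8 * ((n : ℝ) + 1) * B * l) • xi (col v) =
      ((q v).x - p.x) + (8 * ((n : ℝ) + 1) * B * (s v - l)) • xi (col v) := by
    simp only [QQ, disp, mkz_x, mul_sub, sub_smul]; abel
  have h1 : ‖(q v).x - p.x‖ ≤ B * l :=
    (Heis.norm_x_le p (q v)).trans (by rw [dist_comm]; exact hq)
  have h2 : ‖(8 * ((n : ℝ) + 1) * B * (s v - l)) • xi (col v)‖ ≤ B * l := by
    rw [norm_smul, Real.norm_eq_abs]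
    refine (mul_le_of_le_one_right (abs_nonneg _) (norm_xi_le _)).trans ?_
    rw [abs_mul, abs_of_nonneg (by positivity : 0 ≤ 8 * ((n : ℝ) + 1) * B)]
    calc 8 * ((n : ℝ) + 1) * B * |s v - l|
        ≤ 8 * ((n : ℝ) + 1) * B * (1 / (8 * ((n : ℝ) + 1)) * l) := by gcongr
      _ = B * l := by field_simp
  rw [e]
  calc _ ≤ B * l + B * l := (norm_add_le _ _).trans (add_le_add h1 h2)
    _ = 8 * ((n : ℝ) + 1) * B * l * (1 / (4 * ((n : ℝ) + 1))) := by field_simp; ring

/-- The chosen slope of a set of vertices. -/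
noncomputable def slope (Q : α → Heis n) (s : α → ℝ) (C1 : ℝ) (T : Finset α) : Fin n → ℝ :=
  Classical.epsilon fun y => IsSlp Q T y ∧ ∀ v ∈ T, ‖y - (Q v).y‖ ≤ C1 * s v

theorem slope_spec {B l : ℝ} (hB : 1 ≤ B) (hl : 0 < l) (col : α → Fin (n + 1)) (q : α → Heis n)
    (s : α → ℝ) (p : Heis n) (T : Finset α) (hT : T.Nonempty) (hcol : Set.InjOn col T)
    (h : ∀ v ∈ T, |s v - l| ≤ 1 / (8 * ((n : ℝ) + 1)) * l ∧ dist (q v) p ≤ B * l)
    {E : ℝ} (hE : E = 17 * ((n : ℝ) + 1) * B) :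
    IsSlp (QQ B col q s) T (slope (QQ B col q s) s (2 * ((4 * n + 2) * E ^ 2 + E)) T) ∧
      ‖slope (QQ B col q s) s (2 * ((4 * n + 2) * E ^ 2 + E)) T - p.y‖ ≤
        (4 * ((4 * n + 2) * E ^ 2 + E) + E) * l := by
  have hn : (0 : ℝ) ≤ n := Nat.cast_nonneg n
  have hE0 : 0 ≤ E := by rw [hE]; positivity
  have hnear : ∀ v ∈ T, dist (QQ B col q s v) p ≤ E * l := fun v hv => by
    rw [hE]; exact QQ_near hB hl col q s p v (h v hv).1 (h v hv).2
  have hy : ∀ v ∈ T, ‖(QQ B col q s v).y - p.y‖ ≤ E * l := fun v hv =>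
    (Heis.norm_y_le p _).trans (by rw [dist_comm]; exact hnear v hv)
  have hF : 0 ≤ (4 * n + 2) * E ^ 2 + E := by positivity
  have hex : ∃ y, IsSlp (QQ B col q s) T y ∧
      ∀ v ∈ T, ‖y - (QQ B col q s v).y‖ ≤ 2 * ((4 * n + 2) * E ^ 2 + E) * s v := by
    obtain ⟨y, h1, h2⟩ := exists_slope T col hcol (QQ B col q s) p
      (m := 8 * ((n : ℝ) + 1) * B * l) (by positivity)
      (fun v hv => QQ_model hB col q s p v (h v hv).1 (h v hv).2) hnear
    refine ⟨y, h1, fun v hv => ?_⟩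
    have h3 : ‖y - p.y‖ ≤ (4 * n + 2) * E ^ 2 * l := by
      refine h2.trans ?_
      have h4 : l ≤ 8 * ((n : ℝ) + 1) * B * l :=
        le_mul_of_one_le_left hl.le (by linarith only [hB, mul_nonneg_of_nonpos_of_nonpos (Mathlib.Tactic.Linarith.sub_nonpos_of_le (Mathlib.Tactic.Linarith.natCast_nonneg ℝ n)) (Mathlib.Tactic.Linarith.sub_nonpos_of_le hB)])
      calc (4 * n + 2) * (E * l) ^ 2 / (8 * ((n : ℝ) + 1) * B * l)
          ≤ (4 * n + 2) * (E * l) ^ 2 / l := by gcongr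
        _ = (4 * n + 2) * E ^ 2 * l := by field_simp
    have h5 : ‖y - (QQ B col q s v).y‖ ≤ ‖y - p.y‖ + ‖(QQ B col q s v).y - p.y‖ := by
      rw [← dist_eq_norm, ← dist_eq_norm, ← dist_eq_norm]; exact dist_triangle_right _ _ _
    have h6 := mul_le_mul_of_nonneg_left (s_bounds hl (h v hv).1).1 hF
    linarith only [h3, h5, h6, hy, hv, hy v hv]
  obtain ⟨h1, h2⟩ := Classical.epsilon_spec hex
  refine ⟨h1, ?_⟩
  obtain ⟨v, hv⟩ := hT
  have h3 := h2 v hv
  have h6 := mul_le_mul_of_nonneg_left (s_bounds hl (h v hv).1).2 hF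
  have h5 : ‖slope (QQ B col q s) s (2 * ((4 * n + 2) * E ^ 2 + E)) T - p.y‖ ≤
      ‖slope (QQ B col q s) s (2 * ((4 * n + 2) * E ^ 2 + E)) T - (QQ B col q s v).y‖ +
        ‖(QQ B col q s v).y - p.y‖ := by
    rw [← dist_eq_norm, ← dist_eq_norm, ← dist_eq_norm]; exact dist_triangle _ _ _
  have h7 : ‖slope (QQ B col q s) s (2 * ((4 * n + 2) * E ^ 2 + E)) T - (QQ B col q s v).y‖ ≤
      2 * ((4 * n + 2) * E ^ 2 + E) * s v := h3
  linarith only [h6, h5, h7, hy, hv, hy v hv]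

end HJet

open HJet in
theorem Heis.jet (n : ℕ) : ∃ ε : ℝ, 0 < ε ∧ ∀ B : ℝ, 1 ≤ B → ∃ C : ℝ, 1 ≤ C ∧
    ∀ (α : Type) (col : α → Fin (n + 1)) (q : α → Heis n) (s : α → ℝ),
      ∃ ι : Ys n α → Heis n, ∀ (β β' : Ys n α) (l : ℝ) (p : Heis n), 0 < l →
        Set.InjOn col β.supp → Set.InjOn col β'.supp →
        (∀ v, v ∈ β.supp ∨ v ∈ β'.supp → |s v - l| ≤ ε * l ∧ dist (q v) p ≤ B * l) →
        dist (ι β) (ι β') ≤ C * l * dist β β' ∧ dist (ι β) p ≤ C * l := by
  have hn : (0 : ℝ) ≤ n := Nat.cast_nonneg n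
  refine ⟨1 / (8 * ((n : ℝ) + 1)), by positivity, fun B hB => ?_⟩
  obtain ⟨E, hE⟩ : ∃ E : ℝ, E = 17 * ((n : ℝ) + 1) * B := ⟨_, rfl⟩
  have hE1 : 1 ≤ E := by rw [hE]; linarith only [hB, mul_nonneg_of_nonpos_of_nonpos (Mathlib.Tactic.Linarith.sub_nonpos_of_le (Mathlib.Tactic.Linarith.natCast_nonneg ℝ n)) (Mathlib.Tactic.Linarith.sub_nonpos_of_le hB)]
  obtain ⟨K, hK⟩ : ∃ K : ℝ, K = 4 * ((4 * n + 2) * E ^ 2 + E) + E := ⟨_, rfl⟩
  have hF : 0 ≤ (4 * n + 2) * E ^ 2 + E := by positivity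
  have hEK : E ≤ K := by rw [hK]; linarith
  have he := @ee_pos n
  have h4 := four_le_pow n
  have hC : 4 * K ≤ 2 ^ (2 * (n + 1)) * K / ee n := by
    rw [le_div_iff₀ he]
    have h1 := mul_le_of_le_one_right (show 0 ≤ 4 * K by linarith only [hE1, hK, hF]) (@ee_le_one n)
    have h2 := mul_le_mul_of_nonneg_right h4 (show 0 ≤ K by linarith)
    linarith
  refine ⟨2 ^ (2 * (n + 1)) * K / ee n, by linarith only [hE1, hK, hF, hC], fun α col q s => ?_⟩
  refine ⟨iota (QQ B col q s) (slope (QQ B col q s) s (2 * ((4 * n + 2) * E ^ 2 + E))), ?_⟩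
  intro β β' l p hl hc hc' h
  have hQ : ∀ v, v ∈ β.supp ∨ v ∈ β'.supp → dist (QQ B col q s v) p ≤ K * l := fun v hv => by
    have := QQ_near hB hl col q s p v (h v hv).1 (h v hv).2
    rw [← hE] at this
    exact this.trans (mul_le_mul_of_nonneg_right hEK hl.le)
  have hY : ∀ T : Finset α, T.Nonempty → T ⊆ β.supp ∨ T ⊆ β'.supp →
      IsSlp (QQ B col q s) T (slope (QQ B col q s) s (2 * ((4 * n + 2) * E ^ 2 + E)) T) ∧
      ‖slope (QQ B col q s) s (2 * ((4 * n + 2) * E ^ 2 + E)) T - p.y‖ ≤ K * l := by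
    intro T hT hs
    rw [hK]
    refine slope_spec hB hl col q s p T hT ?_ (fun v hv => h v ?_) hE
    · rcases hs with hs | hs
      · exact hc.mono (Finset.coe_subset.2 hs)
      · exact hc'.mono (Finset.coe_subset.2 hs)
    · exact hs.imp (fun hs => hs hv) fun hs => hs hv
  constructor
  · refine (iota_lip β β' p hQ hY).trans (le_of_eq ?_)
    ring
  · refine (iota_near β p (fun v hv => hQ v (Or.inl hv))
      fun T h1 h2 => (hY T h1 (Or.inl h2)).2).trans ?_
    rw [← mul_assoc]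
    exact mul_le_mul_of_nonneg_right (by linarith only [hE1, hK, hF, hC]) hl.le

end Pool.Agent.Work.MP_4b5e6c_gt
end

-- merged part: Pool.Agent.Work.MP_4b5e6c_gt.HExt
section
/-! Task HEXT: Lipschitz extension from closed subsets of `ℝ ^ n` into the Heisenberg group. -/

namespace Pool.Agent.Work.MP_4b5e6c_gt
open Metric Set

namespace HExt

theorem lip_scale {n : ℕ} (A : Set (D n)) {e : ℝ} (he : 0 ≤ e) :
    Lip e fun z : D n => e * infDist z A := by
  intro a b
  rw [Real.dist_eq, ← mul_sub, abs_mul, abs_of_nonneg he]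
  have h := (lipschitz_infDist_pt A).dist_le_mul a b
  rw [NNReal.coe_one, one_mul, Real.dist_eq] at h
  exact mul_le_mul_of_nonneg_left h he

/-- The data of a vertex close to `z` are comparable with the data at `z`. -/
theorem loc {n : ℕ} {X : Type} [PseudoMetricSpace X] {A : Set (D n)} {f : D n → X} {L e ε : ℝ}
    (hL : 0 ≤ L) (he : 0 < e) (he1 : e ≤ 1 / 10) (he2 : e ≤ ε / 4)
    (hf : ∀ a ∈ A, ∀ b ∈ A, dist (f a) (f b) ≤ L * dist a b) {near : D n → D n}
    (hnear : ∀ z, near z ∈ A ∧ dist z (near z) = infDist z A) {z y : D n}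
    (h : dist y z ≤ 4 * (e * infDist z A)) :
    |L * (e * infDist y A) - L * (e * infDist z A)| ≤ ε * (L * (e * infDist z A)) ∧
      dist (f (near y)) (f (near z)) ≤ 4 / e * (L * (e * infDist z A)) := by
  have h0 : 0 ≤ infDist z A := infDist_nonneg
  have h1 := lip_scale A he.le y z
  rw [Real.dist_eq] at h1
  constructor
  · rw [← mul_sub, abs_mul, abs_of_nonneg hL, mul_left_comm]
    refine mul_le_mul_of_nonneg_left (h1.trans ?_) hL
    calc e * dist y z ≤ ε / 4 * (4 * (e * infDist z A)) :=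
          mul_le_mul he2 h dist_nonneg (he.le.trans he2)
      _ = ε * (e * infDist z A) := by ring
  · have h2 : infDist y A ≤ infDist z A + dist y z := infDist_le_infDist_add_dist
    have h3 : dist (near y) (near z) ≤ infDist y A + dist y z + infDist z A := by
      rw [← (hnear y).2, ← (hnear z).2, dist_comm y (near y)]
      exact dist_triangle4 _ _ _ _
    have h4 : e * infDist z A ≤ 1 / 10 * infDist z A := mul_le_mul_of_nonneg_right he1 h0
    calc dist (f (near y)) (f (near z)) ≤ L * dist (near y) (near z) :=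
          hf _ (hnear y).1 _ (hnear z).1
      _ ≤ L * (4 * infDist z A) := mul_le_mul_of_nonneg_left (by linarith only [h, h0, h2, h3, h4]) hL
      _ = 4 / e * (L * (e * infDist z A)) := by field_simp

end HExt

theorem Heis.ext_lip (n : ℕ) : ∃ C : ℝ, ∀ (A : Set (D n)) (f : D n → Heis n) (L : ℝ), 0 ≤ L →
    IsClosed A → A.Nonempty → (∀ a ∈ A, ∀ b ∈ A, dist (f a) (f b) ≤ L * dist a b) →
    ∃ F : D n → Heis n, Lip (C * L) F ∧ ∀ a ∈ A, F a = f a := by
  classical
  obtain ⟨ε, hε, hjet⟩ := Heis.jet n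
  obtain ⟨C₀, w, hC₀, hw, -⟩ := dw n
  obtain ⟨e, he, he1, he2⟩ : ∃ e : ℝ, 0 < e ∧ e ≤ 1 / 10 ∧ e ≤ ε / 4 :=
    ⟨min (1 / 10) (ε / 4), lt_min (by norm_num) (by positivity), min_le_left _ _, min_le_right _ _⟩
  obtain ⟨C, hC, hj⟩ := hjet (4 / e) (by rw [le_div_iff₀ he]; linarith only [he, he1])
  refine ⟨10 * (C * C₀) / (e / 2), fun A f L hL hA hne hf => ?_⟩
  rcases hL.eq_or_lt with rfl | hL'
  · obtain ⟨a₀, ha₀⟩ := hne
    refine ⟨fun _ => f a₀, lip_const (by simp) _, fun a ha => ?_⟩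
    have := hf a₀ ha₀ a ha
    rw [zero_mul] at this
    exact dist_le_zero.1 this
  choose near hn1 hn2 using fun z => hA.exists_infDist_eq_dist hne z
  have hnear : ∀ z, near z ∈ A ∧ dist z (near z) = infDist z A := fun z => ⟨hn1 z, (hn2 z).symm⟩
  let σ : D n → ℝ := fun z => e * infDist z A
  have hσ : Lip e σ := HExt.lip_scale A he.le
  have hD : IsDW C₀ σ (w σ) := hw σ (hσ.mono he1) fun z => mul_nonneg he.le infDist_nonneg
  have hpos : ∀ z, z ∉ A → 0 < σ z := fun z hz =>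
    mul_pos he ((hA.notMem_iff_infDist_pos hne).1 hz)
  obtain ⟨ι, hι⟩ := hj (Fin (n + 1) × D n) Prod.fst (fun v => f (near v.2)) fun v => L * σ v.2
  let β : D n → Ys n (Fin (n + 1) × D n) := fun z => toY (0, 0) (w σ z)
  have hβ : ∀ z, z ∉ A → (β z).1 = w σ z := fun z hz => toY_of_mem _ (hD.mem z (hpos z hz))
  have hs : ∀ z, z ∉ A → (β z).supp = (w σ z).fs.support := fun z hz => by
    rw [Ys.supp, hβ z hz]
  have key : ∀ z z', z ∉ A → z' ∉ A → dist z z' ≤ e / 2 * infDist z A →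
      dist (ι (β z)) (ι (β z')) ≤ C * (L * σ z) * dist (β z) (β z') ∧
        dist (ι (β z)) (f (near z)) ≤ C * (L * σ z) := by
    intro z z' hz hz' hd
    have hinj : ∀ y, y ∉ A → InjOn Prod.fst ((β y).supp : Set (Fin (n + 1) × D n)) := by
      intro y hy v hv v' hv' h
      rw [hs y hy] at hv hv'
      exact hD.col y (hpos y hy) v hv v' hv' h
    refine hι (β z) (β z') (L * σ z) (f (near z)) (mul_pos hL' (hpos z hz)) (hinj z hz)
      (hinj z' hz') fun v hv => HExt.loc hL he he1 he2 hf hnear ?_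
    have h0 := hpos z hz
    change dist v.2 z ≤ 4 * σ z
    rcases hv with hv | hv
    · rw [hs z hz] at hv
      have := hD.near z h0 v hv
      linarith only [h0, this]
    · rw [hs z' hz'] at hv
      have h1 := hD.near z' (hpos z' hz') v hv
      have h2 : dist z' z ≤ σ z / 2 := by
        rw [dist_comm]
        exact hd.trans_eq (by simp only [σ]; ring)
      have h3 := (hσ.mono he1) z' z
      rw [Real.dist_eq] at h3
      have h4 := (abs_le.1 h3).2
      have h5 := dist_triangle v.2 z' z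
      linarith only [h0, h1, h2, h4, h5]
  have hCL : 0 ≤ C * L := mul_nonneg (zero_le_one.trans hC) hL
  have hW := whitney_glue A univ (fun z => if z ∈ A then f z else ι (β z)) (L := L)
    (C := C * C₀) (ε := e / 2) (by positivity) (by linarith only [he, he1]) hL (one_le_mul_of_one_le_of_one_le hC hC₀)
    near hnear (fun a ha b hb => by simp only [ha, hb, if_true]; exact hf a ha b hb)
    (fun z _ hz => by
      simp only [hz, hn1 z, if_true, if_false]
      have h0 : 0 ≤ infDist z A := infDist_nonneg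
      have h1 := (key z z hz hz (by rw [dist_self]; positivity)).2
      have h2 : σ z ≤ C₀ * infDist z A :=
        mul_le_mul_of_nonneg_right (by linarith only [hC₀, he, he1]) h0
      calc dist (ι (β z)) (f (near z)) ≤ C * L * σ z := h1.trans_eq (by ring)
        _ ≤ C * L * (C₀ * infDist z A) := mul_le_mul_of_nonneg_left h2 hCL
        _ = C * C₀ * L * infDist z A := by ring)
    (fun z _ z' _ hz hz' hd => by
      simp only [hz, hz', if_false]
      have h1 := (key z z' hz hz' hd).1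
      have h2 := hD.lip z z' (hpos z hz) (hpos z' hz')
      rw [Subtype.dist_eq, hβ z hz, hβ z' hz'] at h1
      calc dist (ι (β z)) (ι (β z')) ≤ C * L * (dist (w σ z) (w σ z') * σ z) :=
            h1.trans_eq (by ring)
        _ ≤ C * L * (C₀ * dist z z') := mul_le_mul_of_nonneg_left h2 hCL
        _ = C * C₀ * L * dist z z' := by ring)
  exact ⟨_, fun z z' => hW z (Or.inr (mem_univ z)) z' (Or.inr (mem_univ z')),
    fun a ha => if_pos ha⟩

end Pool.Agent.Work.MP_4b5e6c_gt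
end
end

-- merged part: Pool.Agent.Work.MP_4b5e6c_gt.ChainK
section
/-! Task CHAINK: the fundamental chain of the Kuhn triangulation. -/

namespace Pool.Agent.Work.MP_4b5e6c_gt
open Metric Set

variable {n : ℕ} {S S' : Type} {φ ψ : List S → ℤ}

/-- Constant outside a finite set. -/
def GB (l : (Fin n → ℤ) → S) : Prop := ∃ a, {k | l k ≠ a}.Finite

theorem kv_dist (k : Fin n → ℤ) (π : Equiv.Perm (Fin n)) (i : Fin (n + 1)) (j : Fin n) :
    k j ≤ kv k π i j ∧ kv k π i j ≤ k j + 1 := by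
  unfold kv
  split_ifs <;> omega
theorem kv_zero (k : Fin n → ℤ) (π : Equiv.Perm (Fin n)) : kv k π 0 = k := by
  funext j
  simp [kv]
theorem kv_injective (k : Fin n → ℤ) (π : Equiv.Perm (Fin n)) : Function.Injective (kv k π) := by
  have key : ∀ i i' : Fin (n + 1), i < i' → kv k π i ≠ kv k π i' := fun i i' h e => by
    have h' : (i : ℕ) < i' := h
    have hi : (i : ℕ) < n := by omega
    have := congrFun e (π ⟨i, hi⟩)
    simp [kv, h'] at this
  intro i i' e
  rcases lt_trichotomy i i' with h | h | h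
  exacts [(key _ _ h e).elim, h, (key _ _ h e.symm).elim]
theorem dist_grid_kv (m : ℕ) (k : Fin n → ℤ) (π : Equiv.Perm (Fin n)) (i : Fin (n + 1)) :
    dist (grid m (kv k π i)) (grid m k) ≤ 1 / 2 ^ m := by
  refine (dist_pi_le_iff (by positivity)).2 fun j => ?_
  have h := kv_dist k π i j
  have h1 : (k j : ℝ) ≤ kv k π i j := by exact_mod_cast h.1
  have h2 : (kv k π i j : ℝ) ≤ k j + 1 := by exact_mod_cast h.2
  rw [Real.dist_eq, grid, grid, ← sub_div, abs_div, abs_of_pos (by positivity : (0 : ℝ) < 2 ^ m)]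
  gcongr
  exact abs_le.2 ⟨by linarith, by linarith⟩
theorem length_prismL (l₁ l₂ : (Fin n → ℤ) → S) (k : Fin n → ℤ) (π : Equiv.Perm (Fin n))
    (j : Fin (n + 1)) : (prismL l₁ l₂ k π j).length = n + 2 := by
  have := j.2
  simp only [prismL, List.length_append, List.length_map, List.length_take, List.length_drop,
    List.length_ofFn]
  omega
theorem mem_prismL {l₁ l₂ : (Fin n → ℤ) → S} {k : Fin n → ℤ} {π : Equiv.Perm (Fin n)}
    {j : Fin (n + 1)} {a : S} (h : a ∈ prismL l₁ l₂ k π j) :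
    ∃ i, a = l₁ (kv k π i) ∨ a = l₂ (kv k π i) := by
  rcases List.mem_append.1 h with h | h <;> obtain ⟨x, hx, rfl⟩ := List.mem_map.1 h
  · obtain ⟨i, rfl⟩ := List.mem_ofFn.1 (List.mem_of_mem_take hx)
    exact ⟨i, .inl rfl⟩
  · obtain ⟨i, rfl⟩ := List.mem_ofFn.1 (List.mem_of_mem_drop hx)
    exact ⟨i, .inr rfl⟩

/-- The pairing as a finite sum. -/
theorem pair_eq_sum (φ : List S → ℤ) (l : (Fin n → ℤ) → S) (B : Finset (Fin n → ℤ))
    (h : ∀ k, k ∉ B → ∀ π, φ (List.ofFn fun i => l (kv k π i)) = 0) :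
    pair φ l = ∑ k ∈ B, ∑ π : Equiv.Perm (Fin n),
      (Equiv.Perm.sign π : ℤ) * φ (List.ofFn fun i => l (kv k π i)) := by
  refine finsum_eq_sum_of_support_subset _ fun k hk => ?_
  by_contra c
  exact hk (Finset.sum_eq_zero fun π _ => by rw [h k c π, mul_zero])
/-- Outside a finite set all simplices have constant labels. -/
theorem GB.exists_finset {l : (Fin n → ℤ) → S} (h : GB l) :
    ∃ (a : S) (B : Finset (Fin n → ℤ)), ∀ k, k ∉ B → ∀ π i, l (kv k π i) = a := by
  obtain ⟨a, ha⟩ := h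
  have hf : (⋃ π : Equiv.Perm (Fin n), ⋃ i, (fun k => kv k π i) ⁻¹' {k | l k ≠ a}).Finite :=
    finite_iUnion fun π => finite_iUnion fun i => ha.preimage fun k _ k' _ e => funext fun j =>
      add_right_cancel (congrFun e j)
  refine ⟨a, hf.toFinset, fun k hk π i => ?_⟩
  by_contra c
  exact hk (hf.mem_toFinset.2 (mem_iUnion₂.2 ⟨π, i, c⟩))
theorem pair_map (φ : List S → ℤ) (ρ : S' → S) (l : (Fin n → ℤ) → S') :
    pair φ (fun k => ρ (l k)) = pair (fun l => φ (l.map ρ)) l := by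
  simp only [pair, List.map_ofFn]
  rfl

namespace ChainK

theorem zero_of_card (h : Alt φ) {l : List S} (T : Finset S) (hT : T.card < l.length)
    (e : ∀ a ∈ l, a ∈ T) : φ l = 0 := h.eq_zero (not_nodup_of_card T hT e)

theorem zero_const (h : Alt φ) {m : ℕ} (hm : 2 ≤ m) {v : Fin m → S} {a : S} (e : ∀ i, v i = a) :
    φ (List.ofFn v) = 0 :=
  zero_of_card h {a} (by simp; omega) fun b hb => by
    obtain ⟨i, rfl⟩ := List.mem_ofFn.1 hb
    simp [e]

theorem cob_ofFn {m : ℕ} (φ : List S → ℤ) (v : Fin (m + 1) → S) :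
    cob φ (List.ofFn v) =
      ∑ i : Fin (m + 1), (-1) ^ (i : ℕ) * φ (List.ofFn fun t => v (i.succAbove t)) := by
  induction m generalizing φ with
  | zero => simp [cob]
  | succ m ih =>
    rw [List.ofFn_succ, cob, ih, Fin.sum_univ_succ (n := m + 1), sub_eq_add_neg,
      ← Finset.sum_neg_distrib]
    congr 1
    · simp
    · refine Finset.sum_congr rfl fun i _ => ?_
      rw [List.ofFn_succ (f := fun t => v (i.succ.succAbove t))]
      simp only [Fin.succ_succAbove_zero, Fin.succ_succAbove_succ, Fin.val_succ]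
      ring

/-- The faces of a Kuhn simplex. -/
def face (k : Fin n → ℤ) (π : Equiv.Perm (Fin n)) (i : Fin (n + 1)) : List (Fin n → ℤ) :=
  List.ofFn fun t : Fin n => kv k π (i.succAbove t)

theorem face_swap {m : ℕ} (k : Fin (m + 1) → ℤ) (π : Equiv.Perm (Fin (m + 1))) (i : Fin m) :
    face k (π * Equiv.swap i.castSucc i.succ) i.castSucc.succ = face k π i.castSucc.succ := by
  unfold face
  congr 1
  funext t j
  have ht : ((i.castSucc.succ.succAbove t : Fin (m + 2)) : ℕ) ≠ i + 1 := fun e =>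
    Fin.succAbove_ne i.castSucc.succ t (Fin.ext e)
  generalize i.castSucc.succ.succAbove t = s at ht
  have e : (π * Equiv.swap i.castSucc i.succ).symm j = Equiv.swap i.castSucc i.succ (π.symm j) := by
    rw [Equiv.symm_apply_eq]
    simp
  simp only [kv, e]
  congr 1
  refine if_congr ?_ rfl rfl
  generalize π.symm j = x
  rw [Equiv.swap_apply_def]
  split_ifs with h1 h2
  · subst h1; simp only [Fin.val_succ, Fin.val_castSucc]; omega
  · subst h2; simp only [Fin.val_succ, Fin.val_castSucc]; omega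
  · rfl

theorem face_rot {m : ℕ} (k : Fin (m + 1) → ℤ) (π : Equiv.Perm (Fin (m + 1))) :
    face (k + Pi.single (π 0) 1) (π * finRotate (m + 1)) (Fin.last _) = face k π 0 := by
  unfold face
  congr 1
  funext t j
  obtain ⟨x, rfl⟩ := π.surjective j
  have e : (π * finRotate (m + 1)).symm (π x) = (finRotate (m + 1)).symm x := by
    rw [Equiv.symm_apply_eq]
    simp
  have ht := t.2
  simp only [kv, e, Fin.succAbove_last, Fin.succAbove_zero, Fin.val_castSucc, Fin.val_succ,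
    Equiv.symm_apply_apply, Pi.add_apply]
  by_cases hx : x = 0
  · subst hx
    have : (finRotate (m + 1)).symm 0 = Fin.last m := by
      rw [Equiv.symm_apply_eq, finRotate_last]
    rw [this, Pi.single_eq_same, if_neg (by simp; omega), if_pos (by simp), add_zero]
  · have hx' : (x : ℕ) ≠ 0 := fun c => hx (Fin.ext c)
    rw [coe_finRotate_symm_of_ne_zero hx, Pi.single_eq_of_ne (π.injective.ne hx), add_zero]
    congr 1
    exact if_congr (by omega) rfl rfl

theorem inner_zero {m : ℕ} (Ψ : List (Fin (m + 1) → ℤ) → ℤ) (k : Fin (m + 1) → ℤ) (i : Fin m) :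
    ∑ π : Equiv.Perm (Fin (m + 1)), (Equiv.Perm.sign π : ℤ) * Ψ (face k π i.castSucc.succ) = 0 := by
  have := Equiv.sum_comp (Equiv.mulRight (Equiv.swap i.castSucc i.succ))
    fun π : Equiv.Perm (Fin (m + 1)) => (Equiv.Perm.sign π : ℤ) * Ψ (face k π i.castSucc.succ)
  have ne : i.castSucc ≠ i.succ := (Fin.castSucc_lt_succ (i := i)).ne
  simp only [Equiv.coe_mulRight, face_swap, map_mul, Equiv.Perm.sign_swap ne,
    Units.val_neg, mul_neg, mul_one, neg_mul, Finset.sum_neg_distrib] at this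
  omega

/-- The ordered fundamental chain is a cycle. -/
theorem cycle {m : ℕ} (Ψ : List (Fin (m + 1) → ℤ) → ℤ) (B : Finset (Fin (m + 1) → ℤ))
    (h : ∀ k, k ∉ B → ∀ π i, Ψ (face k π i) = 0) :
    ∑ k ∈ B, ∑ π : Equiv.Perm (Fin (m + 1)),
      (Equiv.Perm.sign π : ℤ) * cob Ψ (List.ofFn (kv k π)) = 0 := by
  have s : ∀ π i, ∑ k ∈ B, Ψ (face k π i) = ∑ᶠ k, Ψ (face k π i) := fun π i =>
    (finsum_eq_sum_of_support_subset _ fun k hk => by
      by_contra c
      exact hk (h k c π i)).symm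
  have e1 : ∀ k, ∑ π : Equiv.Perm (Fin (m + 1)),
      (Equiv.Perm.sign π : ℤ) * cob Ψ (List.ofFn (kv k π)) = ∑ π : Equiv.Perm (Fin (m + 1)),
        ((Equiv.Perm.sign π : ℤ) * Ψ (face k π 0) +
          (-1) ^ (m + 1) * ((Equiv.Perm.sign π : ℤ) * Ψ (face k π (Fin.last _)))) := fun k => by
    have : ∀ π : Equiv.Perm (Fin (m + 1)), (Equiv.Perm.sign π : ℤ) * cob Ψ (List.ofFn (kv k π)) =
        ((Equiv.Perm.sign π : ℤ) * Ψ (face k π 0) +
          (-1) ^ (m + 1) * ((Equiv.Perm.sign π : ℤ) * Ψ (face k π (Fin.last _)))) +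
        ∑ i : Fin m, (-1) ^ ((i : ℕ) + 1) *
          ((Equiv.Perm.sign π : ℤ) * Ψ (face k π i.castSucc.succ)) := fun π => by
      rw [cob_ofFn, Fin.sum_univ_succ, Fin.sum_univ_castSucc, mul_add, mul_add, Finset.mul_sum]
      simp only [face, Fin.val_zero, pow_zero, one_mul, Fin.val_succ, Fin.val_castSucc,
        Fin.val_last, Fin.succ_last, Nat.succ_eq_add_one]
      rw [Finset.sum_congr rfl fun i _ => mul_left_comm _ _ _]
      ring
    rw [Finset.sum_congr rfl fun π _ => this π, Finset.sum_add_distrib, Finset.sum_comm]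
    simp only [← Finset.mul_sum, inner_zero, mul_zero, Finset.sum_const_zero, add_zero]
  have e2 : ∀ π : Equiv.Perm (Fin (m + 1)), ∑ k ∈ B, Ψ (face k π 0) =
      ∑ k ∈ B, Ψ (face k (π * finRotate (m + 1)) (Fin.last _)) := fun π => by
    rw [s, s, ← finsum_comp_equiv (Equiv.addRight (Pi.single (π 0) (1 : ℤ)))
      (f := fun k => Ψ (face k (π * finRotate (m + 1)) (Fin.last _)))]
    simp only [Equiv.coe_addRight, face_rot]
  have e3 := Equiv.sum_comp (Equiv.mulRight (finRotate (m + 1)))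
    fun π : Equiv.Perm (Fin (m + 1)) =>
      (Equiv.Perm.sign π : ℤ) * ∑ k ∈ B, Ψ (face k π (Fin.last _))
  simp only [Equiv.coe_mulRight, map_mul, sign_finRotate, Units.val_mul, Nat.add_sub_cancel,
    Units.val_pow_eq_pow_val, Units.val_neg, Units.val_one, ← e2] at e3
  rw [Finset.sum_congr rfl fun k _ => e1 k, Finset.sum_comm]
  simp only [Finset.sum_add_distrib, ← Finset.mul_sum]
  rw [← e3, Finset.mul_sum, ← Finset.sum_add_distrib]
  refine Finset.sum_eq_zero fun π _ => ?_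
  have : ((-1 : ℤ) ^ m) * (-1) ^ m = 1 := by rw [← mul_pow]; simp
  linear_combination (-((Equiv.Perm.sign π : ℤ) * ∑ k ∈ B, Ψ (face k π 0))) * this

/-- The prism operator. -/
def pr (l₁ l₂ : S' → S) : (List S → ℤ) → List S' → ℤ
  | _, [] => 0
  | φ, x :: l => φ (l₁ x :: l₂ x :: l.map l₂) - pr l₁ l₂ (fun m => φ (l₁ x :: m)) l

theorem pr_sub (l₁ l₂ : S' → S) (φ ψ : List S → ℤ) (l : List S') :
    pr l₁ l₂ (fun m => φ m - ψ m) l = pr l₁ l₂ φ l - pr l₁ l₂ ψ l := by
  induction l generalizing φ ψ with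
  | nil => simp [pr]
  | cons x l ih => simp only [pr, ih]; ring

theorem cob_sub (φ ψ : List S → ℤ) (l : List S) :
    cob (fun m => φ m - ψ m) l = cob φ l - cob ψ l := by
  induction l generalizing φ ψ with
  | nil => simp [cob]
  | cons x l ih => simp only [cob, ih]; ring

theorem pr_cob (l₁ l₂ : S' → S) (φ : List S → ℤ) (l : List S') :
    pr l₁ l₂ (cob φ) l + cob (pr l₁ l₂ φ) l = φ (l.map l₂) - φ (l.map l₁) := by
  induction l generalizing φ with
  | nil => simp [pr, cob]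
  | cons x l ih =>
    have h1 := ih fun m => φ (l₁ x :: m)
    have h2 := cob_map (fun m => φ (l₁ x :: l₂ x :: m)) l₂ l
    simp only [pr, cob, pr_sub, cob_sub, List.map_cons]
    linear_combination h1 - h2

theorem pr_eq_sum (l₁ l₂ : S' → S) (φ : List S → ℤ) (l : List S') :
    pr l₁ l₂ φ l = ∑ j ∈ Finset.range l.length,
      (-1) ^ j * φ ((l.take (j + 1)).map l₁ ++ (l.drop j).map l₂) := by
  induction l generalizing φ with
  | nil => simp [pr]
  | cons x l ih =>
    rw [pr, ih, List.length_cons, Finset.sum_range_succ', sub_eq_neg_add, ← Finset.sum_neg_distrib]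
    congr 1
    · exact Finset.sum_congr rfl fun j _ => by simp; ring
    · simp

theorem pr_zero (h : Alt φ) {l₁ l₂ : S' → S} {l : List S'} (hl : 2 ≤ l.length) {a b : S}
    (e : ∀ x ∈ l, l₁ x = a ∧ l₂ x = b) : pr l₁ l₂ φ l = 0 := by
  classical
  rw [pr_eq_sum]
  refine Finset.sum_eq_zero fun j hj => ?_
  have hj' := Finset.mem_range.1 hj
  rw [zero_of_card h {a, b}, mul_zero]
  · refine Finset.card_le_two.trans_lt ?_
    simp only [List.length_append, List.length_map, List.length_take, List.length_drop]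
    omega
  · intro c hc
    rcases List.mem_append.1 hc with hc | hc <;> obtain ⟨x, hx, rfl⟩ := List.mem_map.1 hc
    · simp [(e x (List.mem_of_mem_take hx)).1]
    · simp [(e x (List.mem_of_mem_drop hx)).2]

end ChainK

open ChainK

theorem pair_const (hn : 2 ≤ n) (h : Alt φ) (a : S) : pair φ (fun _ : Fin n → ℤ => a) = 0 := by
  rw [pair_eq_sum φ _ ∅ fun k _ π => zero_const h (by omega) fun _ => rfl, Finset.sum_empty]
theorem pair_sub (hn : 2 ≤ n) (h : Alt φ) (h' : Alt ψ) {l : (Fin n → ℤ) → S} (hl : GB l) :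
    pair (fun m => φ m - ψ m) l = pair φ l - pair ψ l := by
  obtain ⟨a, B, hB⟩ := hl.exists_finset
  rw [pair_eq_sum φ l B fun k hk π => zero_const h (by omega) (hB k hk π),
    pair_eq_sum ψ l B fun k hk π => zero_const h' (by omega) (hB k hk π),
    pair_eq_sum _ l B fun k hk π => zero_const (h.sub h') (by omega) (hB k hk π)]
  simp only [mul_sub, Finset.sum_sub_distrib]
/-- The fundamental chain is a cycle. -/
theorem pair_cob (hn : 2 ≤ n) (h : Alt ψ) {l : (Fin n → ℤ) → S} (hl : GB l) :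
    pair (cob ψ) l = 0 := by
  obtain ⟨a, B, hB⟩ := hl.exists_finset
  rw [pair_eq_sum _ l B fun k hk π => zero_const h.cob (by omega) (hB k hk π)]
  obtain ⟨m, rfl⟩ : ∃ m, n = m + 1 := ⟨n - 1, by omega⟩
  have := cycle (fun s => ψ (s.map l)) B fun k hk π i => by
    rw [face, List.map_ofFn]
    exact zero_const h hn fun t => hB k hk π _
  simp only [cob_map, List.map_ofFn] at this
  exact this
/-- The prism identity. -/
theorem pair_prism (hn : 2 ≤ n) (h : Alt φ) {l₁ l₂ : (Fin n → ℤ) → S} (h₁ : GB l₁) (h₂ : GB l₂)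
    (B : Finset (Fin n → ℤ)) (hB : ∀ k, k ∉ B → ∀ π j, ¬ (prismL l₁ l₂ k π j).Nodup) :
    pair φ l₂ - pair φ l₁ = ∑ k ∈ B, ∑ π : Equiv.Perm (Fin n), ∑ j : Fin (n + 1),
      (Equiv.Perm.sign π : ℤ) * (-1) ^ (j : ℕ) * cob φ (prismL l₁ l₂ k π j) := by
  classical
  obtain ⟨a, B₁, e₁⟩ := h₁.exists_finset
  obtain ⟨b, B₂, e₂⟩ := h₂.exists_finset
  have n₁ : ∀ k, k ∉ B ∪ (B₁ ∪ B₂) → k ∉ B₁ := fun k hk c => hk (by simp [c])
  have n₂ : ∀ k, k ∉ B ∪ (B₁ ∪ B₂) → k ∉ B₂ := fun k hk c => hk (by simp [c])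
  rw [pair_eq_sum φ l₁ _ fun k hk π => zero_const h (by omega) (e₁ k (n₁ k hk) π),
    pair_eq_sum φ l₂ _ fun k hk π => zero_const h (by omega) (e₂ k (n₂ k hk) π),
    Finset.sum_subset (s₁ := B) (s₂ := B ∪ (B₁ ∪ B₂)) Finset.subset_union_left fun k _ hk =>
      Finset.sum_eq_zero fun π _ => Finset.sum_eq_zero fun j _ => by
        rw [h.cob.eq_zero (hB k hk π j), mul_zero]]
  obtain ⟨m, rfl⟩ : ∃ m, n = m + 1 := ⟨n - 1, by omega⟩
  have c := cycle (pr l₁ l₂ φ) (B ∪ (B₁ ∪ B₂)) fun k hk π i =>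
    pr_zero h (a := a) (b := b) (by simpa [face] using hn) fun x hx => by
      obtain ⟨t, rfl⟩ := List.mem_ofFn.1 hx
      exact ⟨e₁ k (n₁ k hk) π _, e₂ k (n₂ k hk) π _⟩
  rw [← add_zero (∑ k ∈ B ∪ (B₁ ∪ B₂), ∑ π : Equiv.Perm (Fin (m + 1)), ∑ j : Fin (m + 1 + 1), _),
    ← c, ← Finset.sum_add_distrib, ← Finset.sum_sub_distrib]
  refine Finset.sum_congr rfl fun k _ => ?_
  rw [← Finset.sum_add_distrib, ← Finset.sum_sub_distrib]
  refine Finset.sum_congr rfl fun π _ => ?_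
  have p := pr_cob l₁ l₂ φ (List.ofFn (kv k π))
  rw [pr_eq_sum, List.length_ofFn, Finset.sum_range, List.map_ofFn, List.map_ofFn] at p
  simp only [mul_assoc, ← Finset.mul_sum]
  rw [← mul_add, ← mul_sub]
  congr 1
  exact p.symm
theorem pair_eq_of_prism (hn : 2 ≤ n) (h : Alt φ) {l₁ l₂ : (Fin n → ℤ) → S} (h₁ : GB l₁)
    (h₂ : GB l₂) (hB : ∀ k π, ∃ T : Finset S, T.card ≤ n + 1 ∧
      ∀ i, l₁ (kv k π i) ∈ T ∧ l₂ (kv k π i) ∈ T) : pair φ l₁ = pair φ l₂ := by
  have := pair_prism hn h h₁ h₂ ∅ fun k _ π j => by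
    obtain ⟨T, hT, e⟩ := hB k π
    refine not_nodup_of_card T (by rw [length_prismL]; omega) fun a ha => ?_
    obtain ⟨i, rfl | rfl⟩ := mem_prismL ha
    exacts [(e i).1, (e i).2]
  rw [Finset.sum_empty] at this
  omega
/-- Invariance under the halving map. -/
theorem pair_half (hn : 2 ≤ n) (h : Alt φ) {l : (Fin n → ℤ) → S} (hl : GB l) :
    pair φ (fun k => l fun i => k i / 2) = pair φ l := by
  have inj : Function.Injective fun (k : Fin n → ℤ) (i : Fin n) => 2 * k i + 1 :=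
    fun k k' e => funext fun i => by have := congrFun e i; simp only at this; omega
  unfold pair
  rw [← finsum_mem_univ, finsum_mem_inter_support_eq' _ univ
    (range fun (k : Fin n → ℤ) (i : Fin n) => 2 * k i + 1), finsum_mem_range inj]
  · refine finsum_congr fun k => Finset.sum_congr rfl fun π _ => ?_
    congr 3
    funext i
    refine congrArg l (funext fun j => ?_)
    simp only [kv]
    split_ifs <;> omega
  · intro k hk
    refine iff_of_true trivial ⟨fun i => k i / 2, funext fun j => ?_⟩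
    by_contra c
    refine hk (Finset.sum_eq_zero fun π _ => ?_)
    rw [h.eq_zero, mul_zero]
    rw [List.nodup_ofFn]
    intro i
    have e : (fun t => kv k π (π.symm j).castSucc t / 2) =
        fun t => kv k π (π.symm j).succ t / 2 := by
      funext t
      obtain ⟨x, rfl⟩ := π.surjective t
      obtain ⟨y, rfl⟩ := π.surjective j
      simp only [kv, Equiv.symm_apply_apply, Fin.val_castSucc, Fin.val_succ] at c ⊢
      by_cases o : x = y
      · subst o
        rw [if_neg (lt_irrefl _), if_pos (Nat.lt_succ_self _)]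
        omega
      · have : (x : ℕ) ≠ y := fun c => o (Fin.ext c)
        rw [if_congr (show (x : ℕ) < y ↔ (x : ℕ) < y + 1 by omega) rfl rfl]
    exact (Fin.castSucc_lt_succ (i := π.symm j)).ne (i (congrArg l e))
/-- The labelling which puts `v` on the standard simplex and `a` elsewhere. -/
theorem exists_cone_label (hn : 2 ≤ n) (a : S) (v : Fin (n + 1) → S) :
    ∃ l : (Fin n → ℤ) → S, (∀ k, l k = a ∨ ((∀ j, 0 ≤ k j ∧ k j ≤ 1) ∧ ∃ i, l k = v i)) ∧
      ∀ φ : List S → ℤ, Alt φ → pair φ l = cob φ (a :: List.ofFn v) := by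
  classical
  let l : (Fin n → ℤ) → S := Function.extend (kv 0 1) v fun _ => a
  have l1 : ∀ i, l (kv 0 1 i) = v i := fun i => (kv_injective 0 1).extend_apply _ _ i
  have l2 : ∀ k, (¬ ∃ i, kv 0 1 i = k) → l k = a := fun k hk => Function.extend_apply' _ _ _ hk
  have box : ∀ (i : Fin (n + 1)) (j : Fin n), 0 ≤ kv 0 1 i j ∧ kv 0 1 i j ≤ 1 := fun i j => by
    simpa using kv_dist 0 1 i j
  have gb : GB l := ⟨a, (finite_range (kv (0 : Fin n → ℤ) 1)).subset fun k hk => by
    by_contra c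
    exact hk (l2 k c)⟩
  refine ⟨l, fun k => ?_, fun φ h => ?_⟩
  · by_cases c : ∃ i, kv 0 1 i = k
    · obtain ⟨i, rfl⟩ := c
      exact .inr ⟨box i, i, l1 i⟩
    · exact .inl (l2 k c)
  have z : ∀ k π, ¬ (k = 0 ∧ π = 1) → cob φ (a :: List.ofFn fun i => l (kv k π i)) = 0 := by
    intro k π c
    refine h.cob.eq_zero fun o => (List.nodup_cons.1 o).1 (List.mem_ofFn.2 ?_)
    by_contra d
    have e : ∀ i, ∃ i', kv 0 1 i' = kv k π i := fun i => by
      by_contra f
      exact d ⟨i, l2 _ f⟩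
    have k0 : k = 0 := funext fun j => by
      obtain ⟨i, hi⟩ := e 0
      obtain ⟨i', hi'⟩ := e (Fin.last n)
      have u := (box i j).1
      have w := (box i' j).2
      rw [hi, kv_zero] at u
      rw [hi', kv, if_pos (by simp)] at w
      change k j = 0
      omega
    subst k0
    have mono : StrictMono π.symm := Monotone.strictMono_of_injective (fun j j' hj => by
      obtain ⟨i, hi⟩ := e (π.symm j').succ
      have u := congrFun hi j
      have w := congrFun hi j'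
      have hj' : (j : ℕ) ≤ j' := hj
      simp only [kv, Fin.val_succ, Equiv.Perm.one_def, Equiv.refl_symm, Equiv.refl_apply] at u w
      change (π.symm j : ℕ) ≤ π.symm j'
      split_ifs at u w <;> omega) π.symm.injective
    refine c ⟨rfl, ?_⟩
    have : π.symm = 1 := Equiv.ext fun j => congrFun mono.eq_id j
    rw [← π.symm_symm, this]
    rfl
  have e := pair_sub hn h (h.cons a).cob gb
  rw [pair_cob hn (h.cons a) gb, sub_zero] at e
  rw [← e, pair_eq_sum _ l {0} fun k hk π => z k π fun c => hk (by simp [c.1]),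
    Finset.sum_singleton, Finset.sum_eq_single 1]
  · simp only [l1, map_one, Units.val_one, one_mul]
    rfl
  · intro π _ c
    exact (congrArg _ (z 0 π fun o => c o.2)).trans (mul_zero _)
  · simp

end Pool.Agent.Work.MP_4b5e6c_gt
end

-- merged part: Pool.Agent.Work.MP_4b5e6c_gt.ChainB
section
/-! Task CHAINB: the degree pairing. -/

namespace Pool.Agent.Work.MP_4b5e6c_gt
open Metric Set

set_option linter.unusedSectionVars false

variable {n : ℕ} {S S' : Type} {φ : List S → ℤ}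

namespace ChainB

theorem gb_of {a : S} {l : (Fin n → ℤ) → S} (m : ℕ) (R : ℝ)
    (h : ∀ k, l k ≠ a → ‖grid m k‖ < R) : GB l := by
  refine ⟨a, (Set.finite_Icc (fun _ : Fin n => -⌈R * 2 ^ m⌉) fun _ => ⌈R * 2 ^ m⌉).subset ?_⟩
  intro k hk
  have h1 : ∀ i, |(k i : ℝ)| ≤ ⌈R * 2 ^ m⌉ := fun i => by
    have h2 := (norm_le_pi_norm (grid m k) i).trans_lt (h k hk)
    have h3 : (0 : ℝ) < 2 ^ m := by positivity
    rw [grid, Real.norm_eq_abs, abs_div, abs_of_pos h3, div_lt_iff₀ h3] at h2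
    exact h2.le.trans (Int.le_ceil _)
  constructor
  · intro i
    have := (abs_le.1 (h1 i)).1
    exact_mod_cast this
  · intro i
    have := (abs_le.1 (h1 i)).2
    exact_mod_cast this

open Classical in
/-- The eventual value of a sequence. -/
noncomputable def ev (a : ℕ → ℤ) : ℤ :=
  if h : ∃ d : ℤ, ∀ᶠ m in Filter.atTop, a m = d then h.choose else 0

theorem deg_eq_ev (φ : List S → ℤ) (l : D n → S) :
    deg φ l = ev fun m => pair φ fun k => l (grid m k) := rfl

theorem deg_eq_of {l : D n → S} {d : ℤ}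
    (h : ∀ᶠ m in Filter.atTop, pair φ (fun k => l (grid m k)) = d) : deg φ l = d := by
  have e : ∃ d : ℤ, ∀ᶠ m in Filter.atTop, pair φ (fun k => l (grid m k)) = d := ⟨d, h⟩
  have e' : deg φ l = e.choose := dif_pos e
  obtain ⟨m, h1, h2⟩ := (h.and e.choose_spec).exists
  rw [e', ← h1, h2]

theorem dist_half (m : ℕ) (k : Fin n → ℤ) :
    dist (grid m fun i => k i / 2) (grid (m + 1) k) ≤ 1 / 2 ^ (m + 1) := by
  refine (dist_pi_le_iff (by positivity)).2 fun i => ?_
  have h3 : (0 : ℝ) < 2 ^ (m + 1) := by positivity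
  have e : ((k i / 2 : ℤ) : ℝ) / 2 ^ m - (k i : ℝ) / 2 ^ (m + 1) =
      ((2 * (k i / 2) - k i : ℤ) : ℝ) / 2 ^ (m + 1) := by
    push_cast
    field_simp
    ring
  rw [Real.dist_eq, grid, grid, e, abs_div, abs_of_pos h3]
  refine div_le_div_of_nonneg_right ?_ h3.le
  have : |2 * (k i / 2) - k i| ≤ 1 := abs_le.2 ⟨by omega, by omega⟩
  exact_mod_cast this

theorem exists_level {r : ℝ} (hr : 0 < r) : ∀ᶠ m : ℕ in Filter.atTop, 2 / 2 ^ m ≤ r := by
  have : Filter.Tendsto (fun m : ℕ => (2 : ℝ) / 2 ^ m) Filter.atTop (nhds 0) :=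
    (tendsto_pow_atTop_atTop_of_one_lt one_lt_two).const_div_atTop 2
  exact this.eventually (ge_mem_nhds hr)

theorem const_zero (hn : 2 ≤ n) (h : Alt φ) {v : Fin (n + 1) → S} {a : S} (hv : ∀ i, v i = a) :
    φ (List.ofFn v) = 0 := by
  refine h.eq_zero (not_nodup_of_card {a} (by simp; omega) fun b hb => ?_)
  obtain ⟨i, rfl⟩ := List.mem_ofFn.1 hb
  simp [hv]

theorem pair_add (hn : 2 ≤ n) (h : Alt φ) {l l₁ l₂ : (Fin n → ℤ) → S} (h₁ : GB l₁) (h₂ : GB l₂)
    {a : S} (hs : ∀ k π, (∀ i, l (kv k π i) = l₁ (kv k π i) ∧ l₂ (kv k π i) = a) ∨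
      ∀ i, l (kv k π i) = l₂ (kv k π i) ∧ l₁ (kv k π i) = a) :
    pair φ l = pair φ l₁ + pair φ l₂ := by
  classical
  obtain ⟨a₁, B₁, e₁⟩ := h₁.exists_finset
  obtain ⟨a₂, B₂, e₂⟩ := h₂.exists_finset
  have key : ∀ k π, φ (List.ofFn fun i => l (kv k π i)) =
      φ (List.ofFn fun i => l₁ (kv k π i)) + φ (List.ofFn fun i => l₂ (kv k π i)) := by
    intro k π
    rcases hs k π with q | q
    · rw [const_zero hn h fun i => (q i).2, add_zero, funext fun i => (q i).1]
    · rw [const_zero hn h fun i => (q i).2, zero_add, funext fun i => (q i).1]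
  have z₁ : ∀ k, k ∉ B₁ ∪ B₂ → ∀ π, φ (List.ofFn fun i => l₁ (kv k π i)) = 0 := fun k hk π =>
    const_zero hn h (e₁ k (fun q => hk (Finset.mem_union_left _ q)) π)
  have z₂ : ∀ k, k ∉ B₁ ∪ B₂ → ∀ π, φ (List.ofFn fun i => l₂ (kv k π i)) = 0 := fun k hk π =>
    const_zero hn h (e₂ k (fun q => hk (Finset.mem_union_right _ q)) π)
  rw [pair_eq_sum φ l (B₁ ∪ B₂) fun k hk π => by rw [key, z₁ k hk, z₂ k hk, add_zero],
    pair_eq_sum φ l₁ _ z₁, pair_eq_sum φ l₂ _ z₂, ← Finset.sum_add_distrib]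
  refine Finset.sum_congr rfl fun k _ => ?_
  rw [← Finset.sum_add_distrib]
  exact Finset.sum_congr rfl fun π _ => by rw [key, mul_add]

end ChainB

theorem Cpt.gb {a : S} {l : D n → S} (h : Cpt a l) (m : ℕ) : GB fun k => l (grid m k) := by
  obtain ⟨R, hR⟩ := h
  exact ChainB.gb_of (a := a) m R fun k hk => not_le.1 fun q => hk (hR _ q)

theorem deg_map (φ : List S → ℤ) (ρ : S' → S) (l : D n → S') :
    deg φ (fun x => ρ (l x)) = deg (fun l => φ (l.map ρ)) l := by
  rw [ChainB.deg_eq_ev, ChainB.deg_eq_ev]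
  exact congrArg ChainB.ev (funext fun m => pair_map φ ρ _)

theorem deg_const (hn : 2 ≤ n) (h : Alt φ) (a : S) : deg φ (fun _ : D n => a) = 0 :=
  ChainB.deg_eq_of (Filter.Eventually.of_forall fun _ => pair_const hn h a)

theorem deg_eq_pair (hn : 2 ≤ n) (h : Alt φ) {a : S} {l : D n → S} (hl : Cpt a l) {r : ℝ}
    (hr : Adm n l univ r) {m : ℕ} (hm : 2 / 2 ^ m ≤ r) :
    deg φ l = pair φ fun k => l (grid m k) := by
  have step : ∀ j : ℕ, 2 / 2 ^ (j + 1) ≤ r →
      (pair φ fun k => l (grid (j + 1) k)) = pair φ fun k => l (grid j k) := by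
    intro j hj
    rw [← pair_half hn h (hl.gb j)]
    have h3 : (0 : ℝ) < 2 ^ (j + 1) := by positivity
    have h4 : (2 : ℝ) / 2 ^ (j + 1) = 1 / 2 ^ (j + 1) + 1 / 2 ^ (j + 1) := by ring
    have h5 : (0 : ℝ) < 1 / 2 ^ (j + 1) := by positivity
    refine pair_eq_of_prism hn h (hl.gb _) ?_ fun k π => ?_
    · obtain ⟨R, hR⟩ := hl
      refine ChainB.gb_of (a := a) (j + 1) (R + 1 / 2 ^ (j + 1)) fun k hk => ?_
      have h1 : ‖grid j fun i => k i / 2‖ < R := not_le.1 fun q => hk (hR _ q)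
      have h2 := ChainB.dist_half j k
      rw [dist_comm, dist_eq_norm] at h2
      have := norm_le_insert' (grid (j + 1) k) (grid j fun i => k i / 2)
      linarith only [h1, h2, this]
    · obtain ⟨T, hT, hT'⟩ := hr (grid (j + 1) k) (mem_univ _)
      refine ⟨T, hT, fun i => ⟨hT' _ (mem_univ _) ?_, hT' _ (mem_univ _) ?_⟩⟩
      · have := dist_grid_kv (j + 1) k π i
        linarith only [hj, h4, h5, this]
      · have h1 := dist_grid_kv (j + 1) k π i
        have h2 := ChainB.dist_half j (kv k π i)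
        have := dist_triangle (grid j fun t => kv k π i t / 2) (grid (j + 1) (kv k π i))
          (grid (j + 1) k)
        linarith only [hj, h4, h1, h2, this]
  refine ChainB.deg_eq_of (Filter.eventually_atTop.2 ⟨m, fun j hj => ?_⟩)
  induction j, hj using Nat.le_induction with
  | base => rfl
  | succ j hj ih =>
    rw [step j, ih]
    refine le_trans ?_ hm
    exact div_le_div_of_nonneg_left two_pos.le (by positivity)
      (pow_le_pow_right₀ one_le_two (by omega))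

theorem deg_congr (hn : 2 ≤ n) (h : Alt φ) {a a' : S} {l l' : D n → S} (hl : Cpt a l)
    (hl' : Cpt a' l') {r : ℝ} (hr0 : 0 < r) (hr : Adm2 n l l' univ r) : deg φ l = deg φ l' := by
  obtain ⟨m, hm⟩ := (ChainB.exists_level hr0).exists
  rw [deg_eq_pair hn h hl (fun z hz => (hr z hz).imp fun T q => ⟨q.1, fun p a b => (q.2 p a b).1⟩) hm,
    deg_eq_pair hn h hl' (fun z hz => (hr z hz).imp fun T q => ⟨q.1, fun p a b => (q.2 p a b).2⟩) hm]
  refine pair_eq_of_prism hn h (hl.gb m) (hl'.gb m) fun k π => ?_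
  obtain ⟨T, hT, hT'⟩ := hr (grid m k) (mem_univ _)
  refine ⟨T, hT, fun i => hT' _ (mem_univ _) ((dist_grid_kv m k π i).trans (le_trans ?_ hm))⟩
  exact div_le_div_of_nonneg_right one_le_two (by positivity)

section Metric
variable {Z : Type} [MetricSpace Z] {I : Type}

theorem Adm.mono {W : Z → S} {K K' : Set Z} {ε ε' : ℝ} (h : Adm n W K ε) (hK : K' ⊆ K)
    (hε : ε' ≤ ε) : Adm n W K' ε' := fun z hz =>
  (h z (hK hz)).imp fun _ q => ⟨q.1, fun p a b => q.2 p (hK a) (b.trans hε)⟩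

theorem Adm.comp {A : Type} [PseudoMetricSpace A] {W : Z → S} {K : Set Z} {ε L r : ℝ}
    (h : Adm n W K ε) {f : A → Z} (hf : Lip L f) (hK : range f ⊆ K) (hL : 0 ≤ L)
    (hr : L * r ≤ ε) : Adm n (fun x => W (f x)) univ r := fun z _ =>
  (h (f z) (hK ⟨z, rfl⟩)).imp fun _ q => ⟨q.1, fun p _ b => q.2 _ (hK ⟨p, rfl⟩)
    ((hf p z).trans ((mul_le_mul_of_nonneg_left b hL).trans hr))⟩

namespace ChainB

theorem cpt_comp {y : Z} {e : D n → Z} (hy : Cpt y e) (W : Z → S) :
    Cpt (W y) fun x => W (e x) :=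
  hy.imp fun _ q x hx => congrArg W (q x hx)

theorem ev_pair (hn : 2 ≤ n) (h : Alt φ) {W : Z → S} {K : Set Z} {ε : ℝ} (hε : 0 < ε)
    (hW : Adm n W K ε) {L : ℝ} {y : Z} {e : D n → Z} (he : Lip L e) (hy : Cpt y e)
    (hK : range e ⊆ K) :
    ∀ᶠ m in Filter.atTop, (pair φ fun k => W (e (grid m k))) = deg φ fun x => W (e x) := by
  have hL : 0 < max L 1 := lt_max_of_lt_right one_pos
  have ha := hW.comp (he.mono (le_max_left L 1)) hK hL.le (r := ε / max L 1)
    (mul_div_cancel₀ _ hL.ne').le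
  filter_upwards [exists_level (div_pos hε hL)] with m hm
  exact (deg_eq_pair hn h (cpt_comp hy W) ha hm).symm

theorem deg_family (hn : 2 ≤ n) (h : Alt φ) {W : Z → S} {K : Set Z} {ε : ℝ} (hε : 0 < ε)
    (hW : Adm n W K ε) {T : Type} [PseudoMetricSpace T] [PreconnectedSpace T] {L M : ℝ} {y : Z}
    (f : T → D n → Z) (hf : ∀ t, Lip L (f t)) (hy : ∀ t, Cpt y (f t))
    (hK : ∀ t, range (f t) ⊆ K) (hM : ∀ t t' x, dist (f t x) (f t' x) ≤ M * dist t t') (t t' : T) :
    deg φ (fun x => W (f t x)) = deg φ fun x => W (f t' x) := by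
  have hL : 0 < max L 1 := lt_max_of_lt_right one_pos
  have hM' : 0 < max M 1 := lt_max_of_lt_right one_pos
  have lc : IsLocallyConstant fun t => deg φ fun x => W (f t x) := by
    refine (IsLocallyConstant.iff_eventually_eq _).2 fun t => ?_
    filter_upwards [closedBall_mem_nhds t (div_pos (half_pos hε) hM')] with t' ht
    refine deg_congr hn h (cpt_comp (hy t') W) (cpt_comp (hy t) W) (div_pos (half_pos hε) hL)
      fun z _ => ?_
    obtain ⟨T, hT, hT'⟩ := hW (f t z) (hK t ⟨z, rfl⟩)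
    refine ⟨T, hT, fun p _ hp => ?_⟩
    have h1 : dist (f t p) (f t z) ≤ ε / 2 := by
      refine ((hf t).mono (le_max_left L 1) p z).trans ?_
      rwa [le_div_iff₀' hL] at hp
    have h2 : dist (f t' p) (f t p) ≤ ε / 2 := by
      refine (hM t' t p).trans ((mul_le_mul_of_nonneg_right (le_max_left M 1) dist_nonneg).trans ?_)
      rwa [mem_closedBall, le_div_iff₀' hM'] at ht
    have h3 := dist_triangle (f t' p) (f t p) (f t z)
    exact ⟨hT' _ (hK t' ⟨p, rfl⟩) (by linarith only [h1, h2, h3]), hT' _ (hK t ⟨p, rfl⟩) (by linarith only [hε, h1])⟩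
  exact lc.apply_eq_of_preconnectedSpace t t'

theorem deg_interp (hn : 2 ≤ n) (h : Alt φ) {W : Z → S} {K : Set Z} {ε : ℝ} (hε : 0 < ε)
    (hW : Adm n W K ε) {L M R R' : ℝ} {y : Z} {e : D n → Z} (he : Lip L e)
    (hy : ∀ x, R ≤ ‖x‖ → e x = y) (hK : range e ⊆ K) {A : D n → D n} (hA : Lip M A)
    (hR : ∀ t ∈ Icc (0 : ℝ) 1, ∀ x, R' ≤ ‖x‖ → R ≤ ‖x + t • (A x - x)‖) :
    deg φ (fun x => W (e (A x))) = deg φ fun x => W (e x) := by
  have : PreconnectedSpace (Icc (0 : ℝ) 1) := Subtype.preconnectedSpace isPreconnected_Icc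
  have hL : 0 ≤ max L 0 := le_max_right _ _
  have hM : 0 ≤ max M 0 := le_max_right _ _
  have he' := he.mono (le_max_left L 0)
  have hA' := hA.mono (le_max_left M 0)
  generalize max L 0 = L' at hL he'
  generalize max M 0 = M' at hM hA'
  have := deg_family hn h hε hW (T := Icc (0 : ℝ) 1) (L := L' * (M' + 2))
    (M := L' * (‖A 0‖ + (M' + 1) * |R'|)) (y := y) (fun t x => e (x + t.1 • (A x - x)))
    (fun t => he'.comp (fun x x' => ?_) hL) (fun t => ⟨R', fun x hx => hy _ (hR t.1 t.2 x hx)⟩)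
    (fun t => by rintro _ ⟨x, rfl⟩; exact hK ⟨_, rfl⟩) (fun t t' x => ?_) ⟨1, by simp⟩ ⟨0, by simp⟩
  · simpa using this
  · have e1 : x + t.1 • (A x - x) - (x' + t.1 • (A x' - x')) =
        (x - x') + t.1 • ((A x - A x') - (x - x')) := by module
    have h1 := hA' x x'
    rw [dist_eq_norm, dist_eq_norm] at h1
    rw [dist_eq_norm, dist_eq_norm, e1]
    have h2 := norm_add_le (x - x') (t.1 • ((A x - A x') - (x - x')))
    have h3 := norm_sub_le (A x - A x') (x - x')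
    have h4 : ‖t.1 • ((A x - A x') - (x - x'))‖ ≤ ‖(A x - A x') - (x - x')‖ := by
      rw [norm_smul, Real.norm_of_nonneg t.2.1]
      exact mul_le_of_le_one_left (norm_nonneg _) t.2.2
    linarith only [h1, h2, h3, h4]
  · rcases le_total R' ‖x‖ with hx | hx
    · rw [hy _ (hR t.1 t.2 x hx), hy _ (hR t'.1 t'.2 x hx), dist_self]
      positivity
    · refine (he' _ _).trans ?_
      have e1 : x + t.1 • (A x - x) - (x + t'.1 • (A x - x)) = (t.1 - t'.1) • (A x - x) := by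
        module
      rw [mul_assoc, dist_eq_norm, e1, norm_smul, mul_comm ‖t.1 - t'.1‖, Subtype.dist_eq,
        dist_eq_norm]
      refine mul_le_mul_of_nonneg_left (mul_le_mul_of_nonneg_right ?_ (norm_nonneg _)) hL
      have h1 := hA' x 0
      rw [dist_eq_norm, dist_zero_right] at h1
      have h2 := norm_le_insert' (A x) (A 0)
      have h3 := norm_sub_le (A x) x
      have h4 : (M' + 1) * ‖x‖ ≤ (M' + 1) * |R'| :=
        mul_le_mul_of_nonneg_left (hx.trans (le_abs_self _)) (by linarith)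
      linarith only [h1, h2, h3, h4]

end ChainB

/-- Homotopy invariance for labellings admissible on the range of the homotopy. -/
theorem deg_hty (hn : 2 ≤ n) (h : Alt φ) {W : Z → S} {K : Set Z} {ε : ℝ} (hε : 0 < ε)
    (hW : Adm n W K ε) {L R : ℝ} {y : Z} {H : D n × ℝ → Z} (hH : Lip L H) (hK : range H ⊆ K)
    (hR : ∀ x t, R ≤ ‖x‖ → H (x, t) = y) (t t' : ℝ) :
    deg φ (fun x => W (H (x, t))) = deg φ fun x => W (H (x, t')) :=
  ChainB.deg_family hn h hε hW (L := L) (M := L) (y := y) (fun t x => H (x, t))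
    (fun t x x' => by simpa using hH (x, t) (x', t)) (fun t => ⟨R, fun x => hR x t⟩)
    (fun t => by rintro _ ⟨x, rfl⟩; exact hK ⟨_, rfl⟩)
    (fun t t' x => by simpa using hH (x, t) (x, t')) t t'

theorem deg_sc (hn : 2 ≤ n) (h : Alt φ) {W : Z → S} {K : Set Z} {ε : ℝ} (hε : 0 < ε)
    (hW : Adm n W K ε) {L : ℝ} {y : Z} {e : D n → Z} (he : Lip L e) (hy : Cpt y e)
    (hK : range e ⊆ K) (P : Pos n) (hP : 0 < P.2) :
    deg φ (fun x => W (sc P e x)) = deg φ fun x => W (e x) := by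
  obtain ⟨R, hR⟩ := hy
  have ha : 0 < P.2⁻¹ := inv_pos.2 hP
  have hμ : 0 < min 1 P.2⁻¹ := lt_min one_pos ha
  refine ChainB.deg_interp hn h hε hW he hR hK (A := fun x => P.2⁻¹ • (x - P.1)) (M := P.2⁻¹)
    (R' := (R + P.2⁻¹ * ‖P.1‖) / min 1 P.2⁻¹) (fun x x' => ?_) fun t ht x hx => ?_
  · rw [dist_smul₀, dist_sub_right, Real.norm_of_nonneg ha.le]
  · have e1 : x + t • (P.2⁻¹ • (x - P.1) - x) =
        ((1 - t) + t * P.2⁻¹) • x - (t * P.2⁻¹) • P.1 := by module
    have h1 : min 1 P.2⁻¹ ≤ (1 - t) + t * P.2⁻¹ := by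
      have h2 := mul_le_mul_of_nonneg_left (min_le_left 1 P.2⁻¹) (sub_nonneg.2 ht.2)
      have h3 := mul_le_mul_of_nonneg_left (min_le_right 1 P.2⁻¹) ht.1
      linarith only [h2, h3]
    have h2 := norm_sub_norm_le (((1 - t) + t * P.2⁻¹) • x) ((t * P.2⁻¹) • P.1)
    rw [norm_smul, norm_smul, Real.norm_of_nonneg (hμ.le.trans h1),
      Real.norm_of_nonneg (mul_nonneg ht.1 ha.le)] at h2
    rw [div_le_iff₀' hμ] at hx
    have h3 := mul_le_mul_of_nonneg_right h1 (norm_nonneg x)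
    have h4 : t * P.2⁻¹ * ‖P.1‖ ≤ P.2⁻¹ * ‖P.1‖ :=
      mul_le_mul_of_nonneg_right (mul_le_of_le_one_left ha.le ht.2) (norm_nonneg _)
    rw [e1]
    linarith only [hx, h2, h3, h4]

theorem Cpt.ins {y : Z} {b : D n → Z} (hy : Cpt y b) {s : Finset I} {P : I → Pos n}
    {e : I → D n → Z} : Cpt y (ins b s P e) := by
  obtain ⟨R, hR⟩ := hy
  have h0 : ∀ i ∈ s, 0 ≤ ‖(P i).1‖ + |(P i).2| := fun i _ => by positivity
  refine ⟨max R (∑ i ∈ s, (‖(P i).1‖ + |(P i).2|)), fun x hx => ?_⟩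
  rw [ins_of_not_mem fun i hi q => ?_, hR x ((le_max_left _ _).trans hx)]
  have h1 := (Finset.single_le_sum h0 hi).trans ((le_max_right _ _).trans hx)
  have h2 : ‖x - (P i).1‖ < (P i).2 := by rwa [Pos.op, mem_ball, dist_eq_norm] at q
  have h3 := norm_le_insert' x (P i).1
  have h4 := le_abs_self (P i).2
  linarith

namespace ChainB

theorem unit_cases (m : ℕ) (k : Fin n → ℤ) (π : Equiv.Perm (Fin n)) :
    (∀ i, ‖grid m (kv k π i)‖ ≤ 1) ∨ ∀ i, 1 ≤ ‖grid m (kv k π i)‖ := by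
  have h3 : (0 : ℝ) < 2 ^ m := by positivity
  by_cases c : ∀ j, -2 ^ m ≤ k j ∧ k j + 1 ≤ 2 ^ m
  · refine .inl fun i => (pi_norm_le_iff_of_nonneg zero_le_one).2 fun j => ?_
    rw [grid, Real.norm_eq_abs, abs_div, abs_of_pos h3, div_le_one h3]
    have h1 := kv_dist k π i j
    have h2 := c j
    have : |kv k π i j| ≤ 2 ^ m := abs_le.2 ⟨by omega, by omega⟩
    exact_mod_cast this
  · obtain ⟨j, hj⟩ := not_forall.1 c
    refine .inr fun i => le_trans ?_ (norm_le_pi_norm _ j)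
    rw [grid, Real.norm_eq_abs, abs_div, abs_of_pos h3, one_le_div h3]
    have h1 := kv_dist k π i j
    have : 2 ^ m ≤ |kv k π i j| := le_abs.2 (by omega)
    exact_mod_cast this

theorem lip_unsc {L : ℝ} {u : D n → Z} (h : Lip L u) (P : Pos n) (hP : 0 < P.2) :
    Lip (L * P.2) (unsc P u) := fun x x' => by
  refine (h _ _).trans_eq ?_
  rw [dist_add_left, dist_smul₀, Real.norm_of_nonneg hP.le, mul_assoc]

theorem cpt_unsc {y : Z} {u : D n → Z} (h : Cpt y u) (P : Pos n) (hP : 0 < P.2) :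
    Cpt y (unsc P u) := by
  obtain ⟨R, hR⟩ := h
  refine ⟨(R + ‖P.1‖) / P.2, fun x hx => hR _ ?_⟩
  rw [div_le_iff₀' hP] at hx
  have h1 := norm_sub_le (P.1 + P.2 • x) P.1
  rw [add_sub_cancel_left, norm_smul, Real.norm_of_nonneg hP.le] at h1
  linarith

theorem deg_unsc (hn : 2 ≤ n) (h : Alt φ) {W : Z → S} {K : Set Z} {ε : ℝ} (hε : 0 < ε)
    (hW : Adm n W K ε) {L : ℝ} {y : Z} {u : D n → Z} (he : Lip L u) (hy : Cpt y u)
    (hK : range u ⊆ K) (P : Pos n) (hP : 0 < P.2) :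
    deg φ (fun x => W (unsc P u x)) = deg φ fun x => W (u x) := by
  rw [← deg_sc hn h hε hW (lip_unsc he P hP) (cpt_unsc hy P hP)
    (by rintro _ ⟨x, rfl⟩; exact hK ⟨_, rfl⟩) P hP, sc_unsc P hP]

theorem deg_one (hn : 2 ≤ n) (h : Alt φ) {W : Z → S} {K : Set Z} {ε : ℝ} (hε : 0 < ε)
    (hW : Adm n W K ε) {L : ℝ} (hL : 0 ≤ L) {y : Z} {b : D n → Z} (hb : Lip L b) (hy : Cpt y b)
    {i : I} {P : I → Pos n} {e : I → D n → Z} (hf : Fit L b {i} P e) (hK : range b ⊆ K)
    (hK' : range (e i) ⊆ K) :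
    deg φ (fun x => W (ins b {i} P e x)) =
      deg φ (fun x => W (b x)) + deg φ fun x => W (e i x) := by
  have hi : i ∈ ({i} : Finset I) := Finset.mem_singleton_self i
  have hP := hf.arr.1 i hi
  have it := hf.item i hi
  have hr : range (ins b {i} P e) ⊆ K := hf.range_ins.trans (union_subset hK (by simpa using hK'))
  rw [← deg_unsc hn h hε hW (hf.lip hb hL) hy.ins hr (P i) hP, ← deg_unsc hn h hε hW hb hy hK (P i) hP]
  have nm : ∀ x : D n, dist ((P i).1 + (P i).2 • x) (P i).1 = (P i).2 * ‖x‖ := fun x => by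
    rw [dist_eq_norm, add_sub_cancel_left, norm_smul, Real.norm_of_nonneg hP.le]
  have out : ∀ x : D n, 1 ≤ ‖x‖ → unsc (P i) (ins b {i} P e) x = unsc (P i) b x := fun x hx => by
    refine ins_of_not_mem fun j hj q => ?_
    rw [Finset.mem_singleton.1 hj, Pos.op, mem_ball, nm] at q
    exact (lt_irrefl _ (q.trans_le (le_mul_of_one_le_right hP.le hx)))
  have fl : ∀ x : D n, ‖x‖ ≤ 1 → unsc (P i) b x = b (P i).1 := fun x hx => by
    refine hf.flat i hi _ ?_
    rw [Pos.cl, mem_closedBall, nm]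
    exact mul_le_of_le_one_right hP.le hx
  have inn : ∀ x : D n, ‖x‖ ≤ 1 → unsc (P i) (ins b {i} P e) x = e i x := fun x hx => by
    rcases hx.eq_or_lt with c | c
    · rw [out x c.ge, fl x hx, it.2 x c.ge]
    · have : unsc (P i) (ins b {i} P e) x = unsc (P i) (sc (P i) (e i)) x := by
        refine ins_of_mem hf.arr hi ?_
        rw [Pos.op, mem_ball, nm]
        exact mul_lt_of_lt_one_right hP c
      rw [this, unsc_sc _ hP]
  refine deg_eq_of ?_
  filter_upwards [ev_pair hn h hε hW (lip_unsc hb _ hP) (cpt_unsc hy _ hP)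
    (by rintro _ ⟨x, rfl⟩; exact hK ⟨_, rfl⟩), ev_pair hn h hε hW it.1 it.cpt hK'] with m h1 h2
  rw [← h1, ← h2]
  refine pair_add hn h ((cpt_comp (cpt_unsc hy _ hP) W).gb m) ((cpt_comp it.cpt W).gb m)
    (a := W (b (P i).1)) fun k π => ?_
  rcases unit_cases m k π with c | c
  · exact .inr fun j => ⟨congrArg W (inn _ (c j)), congrArg W (fl _ (c j))⟩
  · exact .inl fun j => ⟨congrArg W (out _ (c j)), congrArg W (it.2 _ (c j))⟩

end ChainB

/-- Additivity. -/
theorem deg_ins (hn : 2 ≤ n) (h : Alt φ) {W : Z → S} {K : Set Z} {ε : ℝ} (hε : 0 < ε)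
    (hW : Adm n W K ε) {L : ℝ} (hL : 0 ≤ L) {y : Z} {b : D n → Z} (hb : Lip L b) (hy : Cpt y b)
    {s : Finset I} {P : I → Pos n} {e : I → D n → Z} (hf : Fit L b s P e) (hK : range b ⊆ K)
    (hK' : ∀ i ∈ s, range (e i) ⊆ K) :
    deg φ (fun x => W (ins b s P e x)) =
      deg φ (fun x => W (b x)) + ∑ i ∈ s, deg φ fun x => W (e i x) := by
  classical
  induction s using Finset.induction_on with
  | empty => rw [ins_empty, Finset.sum_empty, add_zero]
  | insert i s hi ih =>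
    have e1 : insert i s = s ∪ {i} := by rw [Finset.union_comm]; rfl
    have hd : Disjoint s {i} := Finset.disjoint_singleton_right.2 hi
    have hs := hf.subset (Finset.subset_insert i s)
    have hK₁ : ∀ j ∈ s, range (e j) ⊆ K := fun j hj => hK' j (Finset.mem_insert_of_mem hj)
    have hi' := hK' i (Finset.mem_insert_self i s)
    rw [Finset.sum_insert hi, add_comm (deg φ fun x => W (e i x)), ← add_assoc, ← ih hs hK₁]
    rw [e1] at hf ⊢
    rw [ins_union hf.arr hd]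
    exact ChainB.deg_one hn h hε hW hL (hs.lip hb hL) hy.ins (hf.ins_left hd)
      (hs.range_ins.trans (union_subset hK (iUnion₂_subset hK₁))) hi'

theorem null_const (hn : 2 ≤ n) (y : Z) : Null fun _ : D n => y :=
  fun _ W _ _ _ _ h => deg_const hn h (W y)

theorem null_sc_iff (hn : 2 ≤ n) {L : ℝ} {y : Z} {e : D n → Z} (he : Lip L e) (hy : Cpt y e)
    (P : Pos n) (hP : 0 < P.2) : Null (sc P e) ↔ Null e := by
  have hr : range (sc P e) = range e := by
    refine subset_antisymm (by rintro _ ⟨x, rfl⟩; exact ⟨_, rfl⟩) ?_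
    rintro _ ⟨x, rfl⟩
    exact ⟨P.1 + P.2 • x, congrFun (unsc_sc P hP e) x⟩
  constructor
  · intro hN S W ε hε hW φ h
    rw [← deg_sc hn h hε hW he hy subset_rfl P hP]
    exact hN S W ε hε (hr ▸ hW) φ h
  · intro hN S W ε hε hW φ h
    rw [hr] at hW
    rw [deg_sc hn h hε hW he hy subset_rfl P hP]
    exact hN S W ε hε hW φ h

namespace ChainB

theorem lip_upd (c : ℝ) : Lip 2 fun x : D (n + 1) => Function.update x 0 (2 * x 0 + c) := by
  intro x x'
  refine (dist_pi_le_iff (by positivity)).2 fun i => ?_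
  have h1 := dist_le_pi_dist x x' i
  beta_reduce
  by_cases e : i = 0
  · subst e
    rw [Function.update_self, Function.update_self, Real.dist_eq, add_sub_add_right_eq_sub,
      ← mul_sub, abs_mul, abs_two, ← Real.dist_eq]
    linarith
  · rw [Function.update_of_ne e, Function.update_of_ne e]
    linarith [dist_nonneg (x := x) (y := x')]

theorem dist_upd (x : D (n + 1)) (s t : ℝ) :
    dist (Function.update x 0 s) (Function.update x 0 t) ≤ |s - t| := by
  refine (dist_pi_le_iff (abs_nonneg _)).2 fun i => ?_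
  by_cases e : i = 0
  · subst e
    rw [Function.update_self, Function.update_self, Real.dist_eq]
  · rw [Function.update_of_ne e, Function.update_of_ne e, dist_self]
    exact abs_nonneg _

theorem le_norm_upd (x : D (n + 1)) (s : ℝ) : |s| ≤ ‖Function.update x 0 s‖ := by
  simpa using norm_le_pi_norm (Function.update x 0 s) 0

theorem le_norm_upd' {x : D (n + 1)} {r r' s : ℝ} (hx : r ≤ ‖x‖) (hr : r' ≤ r)
    (hs : r ≤ |x 0| → r' ≤ |s|) : r' ≤ ‖Function.update x 0 s‖ := by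
  obtain ⟨i, hi⟩ : ∃ i, r ≤ |x i| := by
    by_contra hc
    push Not at hc
    exact absurd hx (not_le.2 ((pi_norm_lt_iff ((abs_nonneg _).trans_lt (hc 0))).2 hc))
  by_cases e : i = 0
  · subst e
    exact (hs hi).trans (le_norm_upd x s)
  · refine hr.trans (hi.trans ?_)
    simpa [Function.update_of_ne e] using norm_le_pi_norm (Function.update x 0 s) i

theorem dist_left {L : ℝ} (hL : 0 ≤ L) {y : Z} {f : D (n + 1) → Z} (hf : Item y L f)
    (x : D (n + 1)) {c : ℝ} (hc : |c| = 1) :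
    dist (f (Function.update x 0 (2 * x 0 + c))) y ≤ 2 * L * |x 0| := by
  rw [← hf.2 (Function.update x 0 c) (hc ▸ le_norm_upd x c)]
  refine (hf.1 _ _).trans ((mul_le_mul_of_nonneg_left (dist_upd x _ _) hL).trans_eq ?_)
  rw [add_sub_cancel_right, abs_mul, abs_two]
  ring

theorem deg_upd (hn : 2 ≤ n + 1) (h : Alt φ) {W : Z → S} {K : Set Z} {ε : ℝ} (hε : 0 < ε)
    (hW : Adm (n + 1) W K ε) {L : ℝ} {y : Z} {f : D (n + 1) → Z} (hf : Item y L f)
    (hK : range f ⊆ K) {c : ℝ} (hc : |c| = 1) :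
    deg φ (fun x => W (f (Function.update x 0 (2 * x 0 + c)))) = deg φ fun x => W (f x) := by
  refine deg_interp hn h hε hW hf.1 hf.2 hK (lip_upd c) (R' := 2) fun t ht x hx => ?_
  have e1 : x + t • (Function.update x 0 (2 * x 0 + c) - x) =
      Function.update x 0 ((1 + t) * x 0 + t * c) := by
    ext i
    by_cases e : i = 0
    · subst e
      simp only [Pi.add_apply, Pi.smul_apply, Pi.sub_apply, Function.update_self, smul_eq_mul]
      ring
    · simp [Function.update_of_ne e]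
  rw [e1]
  refine le_norm_upd' hx one_le_two fun q => ?_
  have h1 := abs_sub ((1 + t) * x 0 + t * c) (t * c)
  rw [add_sub_cancel_right, abs_mul, abs_mul, hc, abs_of_nonneg ht.1,
    abs_of_nonneg (by linarith only [ht, ht.1] : 0 ≤ 1 + t)] at h1
  have h2 := mul_le_mul_of_nonneg_left q (by linarith [ht.1] : 0 ≤ 1 + t)
  linarith only [h1, h2, ht, ht.1]

theorem cpt_upd {L : ℝ} {y : Z} {f : D (n + 1) → Z} (hf : Item y L f) {c : ℝ} (hc : |c| = 1) :
    Cpt y fun x => f (Function.update x 0 (2 * x 0 + c)) := by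
  refine ⟨1, fun x hx => hf.2 _ (le_norm_upd' hx le_rfl fun q => ?_)⟩
  have h1 := abs_sub (2 * x 0 + c) c
  rw [add_sub_cancel_right, abs_mul, abs_two, hc] at h1
  linarith

theorem deg_concat (hn : 2 ≤ n + 1) (h : Alt φ) {W : Z → S} {K : Set Z} {ε : ℝ} (hε : 0 < ε)
    (hW : Adm (n + 1) W K ε) {L : ℝ} (hL : 0 ≤ L) {y : Z} {f g : D (n + 1) → Z} (hf : Item y L f)
    (hg : Item y L g) (hK : range f ⊆ K) (hK' : range g ⊆ K) :
    deg φ (fun x => W (concatD f g x)) = deg φ (fun x => W (f x)) + deg φ fun x => W (g x) := by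
  have c1 : |(1 : ℝ)| = 1 := abs_one
  have c2 : |(-1 : ℝ)| = 1 := by simp
  rw [← deg_upd hn h hε hW hf hK c1, ← deg_upd hn h hε hW hg hK' c2]
  refine deg_eq_of ?_
  filter_upwards [ev_pair hn h hε hW (hf.1.comp (lip_upd 1) hL) (cpt_upd hf c1)
    (by rintro _ ⟨x, rfl⟩; exact hK ⟨_, rfl⟩), ev_pair hn h hε hW (hg.1.comp (lip_upd (-1)) hL)
    (cpt_upd hg c2) (by rintro _ ⟨x, rfl⟩; exact hK' ⟨_, rfl⟩)] with m h1 h2
  rw [← h1, ← h2]
  refine pair_add hn h ((cpt_comp (cpt_upd hf c1) W).gb m) ((cpt_comp (cpt_upd hg c2) W).gb m)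
    (a := W y) fun k π => ?_
  have h3 : (0 : ℝ) < 2 ^ m := by positivity
  have l1 : ∀ x : D (n + 1), x 0 ≤ 0 → g (Function.update x 0 (2 * x 0 + -1)) = y := fun x hx =>
    hg.2 _ (le_trans (le_abs.2 (.inr (by linarith only [hx]))) (le_norm_upd x _))
  have l2 : ∀ x : D (n + 1), 0 ≤ x 0 → f (Function.update x 0 (2 * x 0 + 1)) = y := fun x hx =>
    hf.2 _ (le_trans (le_abs.2 (.inl (by linarith))) (le_norm_upd x _))
  rcases lt_or_ge (k 0) 0 with c | c
  · refine .inl fun i => ?_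
    have h4 : grid m (kv k π i) 0 ≤ 0 := by
      refine div_nonpos_of_nonpos_of_nonneg ?_ h3.le
      have := (kv_dist k π i 0).2
      exact_mod_cast (by omega : kv k π i 0 ≤ 0)
    exact ⟨congrArg W (if_pos h4), congrArg W (l1 _ h4)⟩
  · refine .inr fun i => ?_
    have h4 : 0 ≤ grid m (kv k π i) 0 := by
      refine div_nonneg ?_ h3.le
      have := (kv_dist k π i 0).1
      exact_mod_cast (by omega : 0 ≤ kv k π i 0)
    refine ⟨congrArg W ?_, congrArg W (l2 _ h4)⟩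
    by_cases q : grid m (kv k π i) 0 ≤ 0
    · exact (if_pos q).trans ((l2 _ h4).trans (l1 _ q).symm)
    · exact (if_neg q).trans (by rw [sub_eq_add_neg])

end ChainB

theorem item_concatD {L : ℝ} (hL : 0 ≤ L) {y : Z} {f g : D (n + 1) → Z} (hf : Item y L f)
    (hg : Item y L g) : Item y (2 * L) (concatD f g) := by
  have c1 : |(1 : ℝ)| = 1 := abs_one
  have c2 : |(-1 : ℝ)| = 1 := by simp
  have e1 : ∀ x : D (n + 1), x 0 ≤ 0 → concatD f g x = f (Function.update x 0 (2 * x 0 + 1)) :=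
    fun x hx => if_pos hx
  have e2 : ∀ x : D (n + 1), ¬ x 0 ≤ 0 → concatD f g x = g (Function.update x 0 (2 * x 0 + -1)) :=
    fun x hx => (if_neg hx).trans (by rw [sub_eq_add_neg])
  have cross : ∀ x x' : D (n + 1), x 0 ≤ 0 → ¬ x' 0 ≤ 0 →
      dist (concatD f g x) (concatD f g x') ≤ 2 * L * dist x x' := by
    intro x x' p q
    rw [e1 x p, e2 x' q]
    have h1 := ChainB.dist_left hL hf x c1
    have h2 := ChainB.dist_left hL hg x' c2
    have h3 := dist_triangle_right (f (Function.update x 0 (2 * x 0 + 1)))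
      (g (Function.update x' 0 (2 * x' 0 + -1))) y
    have h4 := dist_le_pi_dist x x' 0
    rw [Real.dist_eq, abs_of_nonpos (by linarith [not_le.1 q])] at h4
    rw [abs_of_nonpos p] at h1
    rw [abs_of_pos (not_le.1 q)] at h2
    have h5 := mul_le_mul_of_nonneg_left h4 (by positivity : 0 ≤ 2 * L)
    linarith
  refine ⟨fun x x' => ?_, fun x hx => ?_⟩
  · by_cases p : x 0 ≤ 0 <;> by_cases q : x' 0 ≤ 0
    · rw [e1 x p, e1 x' q, mul_comm 2 L]
      exact hf.1.comp (ChainB.lip_upd 1) hL x x'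
    · exact cross x x' p q
    · rw [dist_comm, dist_comm x]
      exact cross x' x q p
    · rw [e2 x p, e2 x' q, mul_comm 2 L]
      exact hg.1.comp (ChainB.lip_upd (-1)) hL x x'
  · have key : ∀ c : ℝ, |c| = 1 → 1 ≤ ‖Function.update x 0 (2 * x 0 + c)‖ := fun c hc => by
      refine ChainB.le_norm_upd' hx le_rfl fun q => ?_
      have h1 := abs_sub (2 * x 0 + c) c
      rw [add_sub_cancel_right, abs_mul, abs_two, hc] at h1
      linarith only [q, h1]
    by_cases p : x 0 ≤ 0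
    · rw [e1 x p, hf.2 _ (key _ c1)]
    · rw [e2 x p, hg.2 _ (key _ c2)]

theorem item_powD {L : ℝ} (hL : 0 ≤ L) {y : Z} {f : D (n + 1) → Z} (hf : Item y L f) (m : ℕ) :
    Item y (2 ^ m * L) (powD y f m) := by
  induction m with
  | zero => exact ⟨lip_const (by positivity) y, fun _ _ => rfl⟩
  | succ m ih =>
    have := item_concatD (by positivity) ih
      (hf.mono (le_mul_of_one_le_left hL (one_le_pow₀ one_le_two)))
    rwa [← mul_assoc, ← pow_succ'] at this

theorem range_powD {L : ℝ} {y : Z} {f : D (n + 1) → Z} (hf : Item y L f) (m : ℕ) :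
    range (powD y f m) ⊆ range f := by
  induction m with
  | zero =>
    rintro _ ⟨x, rfl⟩
    exact ⟨fun _ => 1, hf.2 _ (by simp)⟩
  | succ m ih =>
    rintro _ ⟨x, rfl⟩
    by_cases p : x 0 ≤ 0
    · exact ih ⟨_, (if_pos p).symm⟩
    · exact ⟨_, (if_neg p).symm⟩

/-- Chains have no torsion. -/
theorem null_of_powD (hn : 1 ≤ n) {L : ℝ} (hL : 0 ≤ L) {y : Z} {f : D (n + 1) → Z} (hf : Item y L f) {m : ℕ}
    (hm : 1 ≤ m) (h : Null (powD y f m)) : Null f := by
  intro S W ε hε hW φ hφ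
  have hn' : 2 ≤ n + 1 := by omega
  have key : ∀ m : ℕ, deg φ (fun x => W (powD y f m x)) = m * deg φ fun x => W (f x) := by
    intro m
    induction m with
    | zero => rw [Nat.cast_zero, zero_mul]; exact deg_const hn' hφ (W y)
    | succ m ih =>
      have := ChainB.deg_concat hn' hφ hε hW (by positivity) (item_powD hL hf m)
        (hf.mono (le_mul_of_one_le_left hL (one_le_pow₀ one_le_two))) (range_powD hf m) subset_rfl
      rw [Nat.cast_succ, add_mul, one_mul, ← ih]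
      exact this
  have h1 := h S W ε hε (hW.mono (range_powD hf m) le_rfl) φ hφ
  rw [key] at h1
  exact (mul_eq_zero.1 h1).resolve_left (by exact_mod_cast (by omega : m ≠ 0))

end Metric

end Pool.Agent.Work.MP_4b5e6c_gt
end

-- merged part: Pool.Agent.Work.MP_4b5e6c_gt.Specs
section
-- merged part: Pool.Agent.Work.MP_4b5e6c_gt.KDefs
section
/-! Interfaces between the three stages of the construction of nice approximations. -/

namespace Pool.Agent.Work.MP_4b5e6c_gt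
open Metric Set

variable {n m : ℕ} {X : Type} [MetricSpace X]

/-- The input: a `1`-Lipschitz map `h`, and scale functions `s k` on the target. -/
structure KIn (C0 : DC n) (y : X) (h : D n → X) (κ : ℝ) (s : Fin m → X → ℝ) : Prop where
  lip : Lip 1 h
  out : ∀ x, C0.side / 4 ≤ dist x C0.c → h x = y
  pos : 0 < κ
  small : κ ≤ C0.side / 1000
  slip : ∀ k, Lip (1 / 1000) (s k)
  ge : ∀ k p, κ ≤ s k p
  base : ∀ k, s k y = κ

/-- The vertex `v` (a point with a level) is active for the scale function `s`. -/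
def Act (s : X → ℝ) (v : X × ℤ) : Prop := (2 : ℝ) ^ v.2 ≤ s v.1 ∧ s v.1 < 4 * (2 : ℝ) ^ v.2

/-- The vertex `v` is relevant at the point `p`. -/
def Rel (s : X → ℝ) (v : X × ℤ) (p : X) : Prop :=
  s p ≤ 8 * (2 : ℝ) ^ v.2 ∧ (2 : ℝ) ^ v.2 ≤ 2 * s p ∧ dist v.1 p ≤ 5 * s p

/-- Two vertices are neighbours. -/
def Nbr (v w : X × ℤ) : Prop :=
  |v.2 - w.2| ≤ 10 ∧ dist v.1 w.1 ≤ 1000 * min ((2 : ℝ) ^ v.2) ((2 : ℝ) ^ w.2)

/-- A system of nets in the range of `h`. -/
structure IsNet (y : X) (h : D n → X) (s : Fin m → X → ℝ) (M : ℕ) (N : Finset (X × ℤ)) :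
    Prop where
  mem : ∀ v ∈ N, v.1 ∈ range h
  base : ∀ v ∈ N, v.1 ≠ y → (2 : ℝ) ^ v.2 ≤ dist v.1 y
  cover : ∀ k x, ∃ v ∈ N, Act (s k) v ∧ dist (h x) v.1 < (2 : ℝ) ^ v.2
  deg : ∀ w : X × ℤ, ∀ t ⊆ N, (∀ v ∈ t, Nbr v w) → t.card ≤ M

/-- The first approximation, before the correction of its chain. -/
structure IsApp (C0 : DC n) (y : X) (h : D n → X) (s : Fin m → X → ℝ) (A : ℝ)
    (N : Finset (X × ℤ)) (f : Fin m → D n → Ys n (X × ℤ)) : Prop where
  supp : ∀ k x, ∀ v ∈ (f k x).supp, v ∈ N ∧ Rel (s k) v (h x)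
  lip : ∀ k x x', dist (f k x) (f k x') * s k (h x) ≤ A * dist x x'
  wall : ∀ k (x : D n) (i : Fin n) (j l : ℤ), x i = l * (2 : ℝ) ^ j → s k (h x) ≤ (2 : ℝ) ^ j →
    (f k x).supp.card ≤ n
  out : ∀ k, ∃ j : ℤ, ∀ x, C0.side / 3 ≤ dist x C0.c → f k x = vtx (y, j)
  core : ∀ k x, ∃ x' v, dist x' x ≤ s k (h x) ∧
    ∀ z, dist z x' ≤ s k (h x) / 100 → f k z = vtx v
  loc : ∀ k k' x, (∀ p, dist p (h x) ≤ 20 * s k (h x) → s k p = s k' p) → f k x = f k' x

/-- The type of the indices of the correction terms. -/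
abbrev Tm (n : ℕ) : Type := (Fin n → ℤ) × Equiv.Perm (Fin n) × Fin (n + 1)

/-- The sign of a correction term. -/
def Tm.sg (τ : Tm n) : ℤ := (Equiv.Perm.sign τ.2.1 : ℤ) * (-1) ^ (τ.2.2 : ℕ)

/-- The correction terms `T k w`, charged to the vertex `w`, with their label lists `u k τ`. -/
structure IsCor (C0 : DC n) (h : D n → X) (s : Fin m → X → ℝ) (M : ℕ) (N : Finset (X × ℤ))
    (f : Fin m → D n → Ys n (X × ℤ)) (T : Fin m → X × ℤ → Finset (Tm n))
    (u : Fin m → Tm n → List (X × ℤ)) : Prop where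
  len : ∀ k τ, (u k τ).length = n + 2
  near : ∀ k, ∀ w ∈ N, ∀ τ ∈ T k w, ∀ v ∈ u k τ, Nbr v w
  card : ∀ k, ∀ w ∈ N, ∀ c : Finset (DC n), (∀ Q ∈ c, Q.side ≤ 300 * (2 : ℝ) ^ w.2) →
    (∀ x ∈ C0.cl, Rel (s k) w (h x) → ∃ Q ∈ c, x ∈ Q.cl) → (T k w).card ≤ M * c.card
  chain : ∀ k (φ : List (X × ℤ) → ℤ), Alt φ →
    degY φ (f k) + ∑ w ∈ N, ∑ τ ∈ T k w, τ.sg * cob φ (u k τ) = 0
  loc : ∀ k k', ∀ w ∈ N, (∀ p, dist p w.1 ≤ 1000 * (2 : ℝ) ^ w.2 → s k p = s k' p) →
    T k w = T k' w ∧ ∀ τ ∈ T k w, u k τ = u k' τ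

end Pool.Agent.Work.MP_4b5e6c_gt
end

-- merged part: Pool.Agent.Work.MP_4b5e6c_gt.Specs
section
/-! The statements of the main steps, as propositions. -/

namespace Pool.Agent.Work.MP_4b5e6c_gt
open Metric Set

variable {n : ℕ}

/-- The reflection in the first coordinate. -/
def refl0 (x : D n) : D n := fun i => if (i : ℕ) = 0 then -x i else x i

/-- `c` is a homotopy from `u` to `u'` on the boundary sphere of `P`, with constant `L`. -/
def Side {Z : Type} [MetricSpace Z] (L : ℝ) (u u' : D n → Z) (c : D n × ℝ → Z) (P : Pos n) : Prop :=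
  (∀ x, dist x P.1 = P.2 → c (x, 0) = u x ∧ c (x, 1) = u' x) ∧
  ∀ x x', dist x P.1 = P.2 → dist x' P.1 = P.2 → ∀ τ ∈ Icc (0 : ℝ) 1, ∀ τ' ∈ Icc (0 : ℝ) 1,
    dist (c (x, τ)) (c (x', τ')) ≤ L * (dist x x' + P.2 * |τ - τ'|)

/-- Barycentric coordinates for the simplex `1 ≥ x 0 ≥ x 1 ≥ ⋯ ≥ x (n - 1) ≥ 0`, whose `i`-th
vertex has its first `i` coordinates equal to one and the others equal to zero. -/
def bary (x : D n) (i : Fin (n + 1)) : ℝ :=
  (Fin.cons 1 x : Fin (n + 1) → ℝ) i - (Fin.snoc x 0 : Fin (n + 1) → ℝ) i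

/-- The point of the standard simplex corresponding to `x` in the Kuhn simplex `(k, π)`. -/
def kc (k : Fin n → ℤ) (π : Equiv.Perm (Fin n)) (x : D n) : D n := fun j => x (π j) - k (π j)

/-- The elementary sphere with base vertex `a` and top face `v`, built from a universal one. -/
noncomputable def sph {α : Type} (E : D n → Ys n (Option (Fin (n + 1)))) (a : α)
    (v : Fin (n + 1) → α) : D n → Ys n α := fun x => mapY (fun o => o.elim a v) (E x)

/-- The properties of the universal elementary sphere `E` and of the Kuhn map `κ`. -/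
structure IsSph (L : ℝ) (E : D n → Ys n (Option (Fin (n + 1)))) : Prop where
  lip : Lip L E
  out : ∀ x, (¬ ∀ i, 0 < bary x i) → E x = vtx none
  /-- `E` is equivariant under the permutations of the vertices of the simplex. -/
  symm : ∀ (g : Equiv.Perm (Fin (n + 1))) (x x' : D n), (∀ i, bary x' (g i) = bary x i) →
    E x' = mapY (Option.map g) (E x)
  /-- Simplicial approximation followed by the collapse of the codimension one skeleton. -/
  approx : ∀ L' : ℝ, ∃ (m : ℕ) (C : ℝ), 2 ≤ m ∧ 1 ≤ C ∧ ∀ (α : Type) (a : α) (e : D n → Ys n α),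
    Item (vtx a) L' e → ∃ (l : (Fin n → ℤ) → α) (w : D n → Ys n α),
      (∀ k, l k ≠ a → ∀ j, |(k j : ℝ)| < 2 ^ m / 2) ∧
      (∀ φ : List α → ℤ, Alt φ → degY φ e = pair φ l) ∧
      (∀ x k π, (∀ i, 0 ≤ bary (kc k π ((2 : ℝ) ^ m • x)) i) →
        w x = sph E a (fun i => l (kv k π i)) (kc k π ((2 : ℝ) ^ m • x))) ∧
      Hty C 0 1 (ball 0 1) e w

/-- Finite rearrangement. -/
def FrS (n : ℕ) : Prop :=
  ∀ M : ℕ, ∃ C : ℝ, 1 ≤ C ∧
    ∀ (Z : Type) [MetricSpace Z] (I : Type) (s : Finset I) (y : Z) (L : ℝ) (P P' : I → Pos n)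
      (e : I → D n → Z) (P0 : Pos n), 0 ≤ L → s.card ≤ M → 0 < P0.2 →
      Fit L (fun _ => y) s P e → Fit L (fun _ => y) s P' e →
      (∀ i ∈ s, (P i).op ⊆ P0.op ∧ (P' i).op ⊆ P0.op) →
      Hty (C * L) 0 P0.2 P0.op (ins (fun _ => y) s P e) (ins (fun _ => y) s P' e)

/-- An item and its mirror image cancel. -/
def FoldS (n : ℕ) : Prop :=
  ∃ C : ℝ, 1 ≤ C ∧
    ∀ (Z : Type) [MetricSpace Z] (y : Z) (L : ℝ) (P : Fin 2 → Pos n) (e : D n → Z) (P0 : Pos n),
      0 ≤ L → 0 < P0.2 → Fit L (fun _ => y) Finset.univ P ![e, fun x => e (refl0 x)] →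
      (∀ i, (P i).op ⊆ P0.op) →
      Hty (C * L) 0 P0.2 P0.op (ins (fun _ => y) Finset.univ P ![e, fun x => e (refl0 x)])
        fun _ => y

/-- Routing: any two packings with the same levels are homotopic with a uniform constant. -/
def RouteS (n : ℕ) : Prop :=
  ∃ C : ℝ, 1 ≤ C ∧
    ∀ (Z : Type) [MetricSpace Z] (I : Type) (s : Finset I) (y : Z) (L : ℝ) (C0 : DC n)
      (A B : I → DC n) (e : I → D n → Z), 0 ≤ L → Pack C0 s A → Pack C0 s B →
      (∀ i ∈ s, (A i).j = (B i).j) → (∀ i ∈ s, Item y (L * ((A i).side / 2)) (e i)) →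
      Hty (C * L) 0 C0.side C0.op (ins (fun _ => y) s (fun i => (A i).pos) e)
        (ins (fun _ => y) s (fun i => (B i).pos) e)

/-- The piecewise linear map of the Kuhn triangulation. -/
def KuhnS (n : ℕ) : Prop :=
  ∃ κ : D n → Ys n (Fin n → ℤ), Lip (4 * ((n : ℝ) + 1)) κ ∧
    (∀ x k π, (∀ i, 0 ≤ bary (kc k π x) i) →
      (κ x).1 = ∑ i, bary (kc k π x) i • V.pt (kv k π i)) ∧
    (∀ x, ∀ k ∈ (κ x).supp, ∀ j, |x j - k j| < 1) ∧
    (2 ≤ n → ∀ (S : Type) (φ : List S → ℤ) (l : (Fin n → ℤ) → S), Alt φ →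
      (∃ a, {k | l k ≠ a}.Finite) → degY φ (fun x => mapY l (κ x)) = pair φ l)

/-- Spheres with a prescribed chain. -/
def SphereS (n : ℕ) : Prop :=
  ∃ L : ℝ, 1 ≤ L ∧ ∀ (α : Type) (a : α) (u : List α) (ε : ℤ),
    u.length = n + 2 → (ε = 1 ∨ ε = -1) → ∃ e : D n → Ys n α, Item (vtx a) L e ∧
      (∀ x, ∀ b ∈ (e x).supp, b = a ∨ b ∈ u) ∧
      ∀ φ : List α → ℤ, Alt φ → degY φ e = ε * cob φ u

/-- Normal form: a coordinate permutation is absorbed into the order of the vertices. -/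
def SphNormal (E : D n → Ys n (Option (Fin (n + 1)))) : Prop :=
  ∃ C R : ℝ, 1 ≤ C ∧ 1 ≤ R ∧ ∀ π : Equiv.Perm (Fin n),
      ∃ g : Equiv.Perm (Fin (n + 1)), Equiv.Perm.sign g = Equiv.Perm.sign π ∧
      ∀ (α : Type) (a : α) (v : Fin (n + 1) → α),
        Hty C 0 1 (ball 0 R) (fun x => sph E a v fun j => x (π j))
          (sph E a fun i => v (g i))

/-- Cancellation of two elementary spheres of opposite orientation. -/
def SphCancel (E : D n → Ys n (Option (Fin (n + 1)))) : Prop :=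
  ∃ C : ℝ, 1 ≤ C ∧ ∀ (α : Type) (a : α) (v : Fin (n + 1) → α)
      (g : Equiv.Perm (Fin (n + 1))) (S : Set α) (Z : Type) [MetricSpace Z] (ι : Ys n α → Z)
      (B L : ℝ) (P : Fin 2 → Pos n) (P0 : Pos n), Equiv.Perm.sign g = -1 → a ∈ S →
      (∀ i, v i ∈ S) → 0 ≤ B → LipS S B ι → 0 < P0.2 → Arr Finset.univ P →
      (∀ i, B ≤ L * (P i).2 ∧ (P i).op ⊆ P0.op) →
      Hty (C * L) 0 P0.2 P0.op
        (ins (fun _ => ι (vtx a)) Finset.univ P
          ![fun x => ι (sph E a v x), fun x => ι (sph E a (fun i => v (g i)) x)])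
        fun _ => ι (vtx a)

/-- The quantitative Hurewicz theorem for the skeleton. -/
def SphHur (E : D n → Ys n (Option (Fin (n + 1)))) : Prop :=
  ∀ L : ℝ, ∃ M : ℕ, ∀ η : ℝ, 0 < η → ∃ C : ℝ, 1 ≤ C ∧
    ∀ (α : Type) (a : α) (e : D n → Ys n α) (S : Set α), Item (vtx a) L e → a ∈ S →
      (∀ x, ↑(e x).supp ⊆ S) → ∃ (s : Finset (Fin M)) (v : Fin M → Fin (n + 1) → α),
      (∀ i ∈ s, Function.Injective (v i) ∧ ∀ j, v i j ∈ S ∧ v i j ≠ a) ∧
      (∀ φ : List α → ℤ, Alt φ → (∀ l, a ∈ l → φ l = 0) →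
        ∑ i ∈ s, φ (List.ofFn (v i)) = degY φ e) ∧
      ∀ (Z : Type) [MetricSpace Z] (ι : Ys n α → Z) (B : ℝ) (P : Fin M → Pos n), 0 ≤ B →
        LipS S B ι → Arr s P → (∀ i ∈ s, η ≤ (P i).2 ∧ (P i).op ⊆ ball 0 1) →
        Hty (C * B) 0 1 (ball 0 1) (fun x => ι (e x))
          (ins (fun _ => ι (vtx a)) s P fun i x => ι (sph E a (v i) x))

variable {X : Type} [MetricSpace X]

/-- The cone lemma. -/
def ConeS (n : ℕ) (X : Type) [MetricSpace X] : Prop :=
  ∃ C : ℝ, 1 ≤ C ∧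
    ∀ (u u' : D n → X) (L : ℝ), 0 < L → Lip L u → Lip L u' → ∃ c : D n × ℝ → X,
      (∀ x, u' x = u x → ∀ τ, c (x, τ) = u x) ∧
      ∀ Q : DC n, (∀ x ∈ Q.cl, dist (u x) (u' x) ≤ L * Q.side) → Side (C * L) u u' c Q.pos

/-- Moving items through an arbitrary Lipschitz background. -/
def MoveS (n : ℕ) (X : Type) [MetricSpace X] : Prop :=
  ∃ C : ℝ, 1 ≤ C ∧
    ∀ (I : Type) (s : Finset I) (y y1 : X) (L : ℝ) (C0 : DC n) (b : D n → X) (A B : I → DC n)
      (e : I → D n → X), 0 < L → Lip L b → (∀ x, x ∉ C0.op → b x = y) → Pack C0 s A →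
      Pack C0 s B → (∀ i ∈ s, (A i).j = (B i).j) →
      (∀ i ∈ s, ∀ x ∈ (A i).cl ∪ (B i).cl, b x = y1) →
      (∀ i ∈ s, Item y1 (L * ((A i).side / 2)) (e i)) →
      Hty (C * L) 0 C0.side C0.big (ins b s (fun i => (A i).pos) e)
        (ins b s (fun i => (B i).pos) e)

/-- Simplicial items with total chain zero can be removed. -/
def CancelS (n : ℕ) (X : Type) [MetricSpace X] : Prop :=
  ∀ L : ℝ, 0 < L → ∃ C : ℝ, 1 ≤ C ∧
    ∀ (α I : Type) (ι : Ys n α → X) (a : α) (y : X) (C0 : DC n) (b : D n → X) (s : Finset I)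
      (P : I → DC n) (e : I → D n → Ys n α) (S : I → Set α) (B : I → ℝ), Lip L b →
      (∀ x, x ∉ C0.op → b x = y) → Pack C0 s P →
      (∀ i ∈ s, ∀ x ∈ (P i).cl, b x = ι (vtx a)) →
      (∀ i ∈ s, Item (vtx a) L (e i) ∧ a ∈ S i ∧ (∀ x, ↑(e i x).supp ⊆ S i) ∧ 0 ≤ B i ∧
        B i ≤ L * (P i).side ∧ LipS (S i) (B i) ι) →
      (∀ φ : List α → ℤ, Alt φ → ∑ i ∈ s, degY φ (e i) = 0) →
      Hty C 0 C0.side C0.big (ins b s (fun i => (P i).pos) fun i x => ι (e i x)) b

/-- Relabelling vertices of a nice map to one new vertex. -/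
def RelabelS (R : Rz n X) : Prop :=
  ∀ A : ℝ, 1 ≤ A → ∃ C : ℝ, 1 ≤ C ∧
    ∀ (C0 : DC n) (y a : X) (h : D n → X) (σ : D n → ℝ) (f : D n → Ys n X) (ρ : X → X),
      Lip 1 h → Scale C0 σ → Nice C0 y h σ A f → (∀ p, ρ p = p ∨ ρ p = a) → ρ y = y →
      (∀ x, ∀ p ∈ (f x).supp, dist (ρ p) (h x) ≤ A * σ x) →
      Hty C 0 C0.side C0.big (fun x => R.ι (f x)) fun x => R.ι (mapY ρ (f x))

/-- Nice maps at the scale of the distance to finitely many points contract. -/
def CollapseS (R : Rz n X) : Prop :=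
  ∀ (θ : ℝ) (N : ℕ) (A : ℝ), 0 < θ → θ ≤ 1 / 8 → 1 ≤ A → ∃ C : ℝ, 1 ≤ C ∧
    ∀ (C0 : DC n) (y : X) (h : D n → X) (κ : ℝ) (Y0 : Finset X) (f : D n → Ys n X),
      Lip 1 h → (∀ x, x ∉ C0.op → h x = y) → 0 < κ → κ ≤ C0.side → y ∈ Y0 → Y0.card ≤ N →
      Nice C0 y h (fun x => max κ (θ * infDist (h x) Y0)) A f →
      Hty C 0 C0.side C0.big (fun x => R.ι (f x)) fun _ => y

/-- The realization of a nice map is homologically trivial. -/
def NullRealS (R : Rz n X) : Prop :=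
  ∀ (C0 : DC n) (y : X) (h : D n → X) (σ : D n → ℝ) (A : ℝ) (f : D n → Ys n X),
    Nice C0 y h σ A f → Lip 1 h → (∀ x, x ∉ C0.op → h x = y) → Scale C0 σ →
    Null fun x => R.ι (f x)

/-- Nice approximations for a family of scale functions. -/
def NiceS (n : ℕ) (X : Type) [MetricSpace X] : Prop :=
  ∀ m : ℕ,
    ∃ A : ℝ, 1 ≤ A ∧ ∀ (C0 : DC n) (y : X) (h : D n → X) (κ : ℝ) (s : Fin m → X → ℝ),
      KIn C0 y h κ s → Null h →
      ∃ g : Fin m → D n → Ys n X, (∀ k, Nice C0 y h (fun x => s k (h x)) A (g k)) ∧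
        ∀ k k' x, (∀ p, dist p (h x) ≤ A * s k (h x) → s k p = s k' p) → g k x = g k' x

/-- The difference of two maps as items based at given sites. -/
def ItemsS (R : Rz n X) : Prop :=
  ∀ L : ℝ, 1 ≤ L → ∃ ε : ℝ, 0 < ε ∧ ε ≤ 1 ∧ ∃ L1 : ℝ, L ≤ L1 ∧
    ∀ (C0 : DC n) (y : X) (u u' : D n → X) (s : Finset (DC n)) (v : DC n → X) (r : DC n → ℝ),
      Lip L u → Lip L u' → (∀ x, x ∉ C0.op → u x = y ∧ u' x = y) → Pack C0 s id →
      (∀ x, (∀ Q ∈ s, x ∉ Q.cl) → u' x = u x) →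
      (∀ Q ∈ s, ε * r Q / 2 ≤ Q.side ∧ Q.side ≤ ε * r Q ∧
        ∀ x ∈ Q.cl, dist (u x) (u' x) ≤ L * Q.side ∧ dist (u' x) (v Q) ≤ 10 * r Q) →
      ∃ (b : D n → X) (e : DC n → D n → X), Lip L1 b ∧ (∀ x, x ∉ C0.op → b x = y) ∧
        Fit L1 b s (fun Q => Q.core.core.pos) e ∧ (∀ Q ∈ s, b Q.core.core.c = v Q) ∧
        (∀ Q ∈ s, ∀ x, dist (e Q x) (v Q) ≤ 30 * R.C * r Q) ∧
        Hty L1 0 C0.side C0.cl u (ins b s (fun Q => Q.core.core.pos) e) ∧
        Hty L1 0 C0.side C0.cl b u'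

open Classical in
/-- Removal of one layer of groups of items. -/
def KillS (n : ℕ) (X : Type) [MetricSpace X] : Prop :=
  ∀ L η : ℝ, 1 ≤ L → 0 < η → η ≤ 1 → ∃ δ A : ℝ, 0 < δ ∧ 1 ≤ A ∧
    ∀ (θ θ' : ℝ) (N : ℕ), 0 < θ → θ ≤ 1 → 0 < θ' → ∃ Λ0 : ℝ,
    ∀ Λ κ : ℝ, Λ0 ≤ Λ → 0 ≤ κ → Fill n X Λ κ →
    ∀ (I : Type) (C0 : DC n) (y : X) (b : D n → X) (s : Finset I) (P : I → DC n)
      (e : I → D n → X) (v : I → X) (par : X → X) (Y0 : Finset X), Lip L b →
      (∀ x, x ∉ C0.op → b x = y) → Pack C0 s P → Fit L b s (fun i => (P i).pos) e →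
      (∀ i ∈ s, b (P i).c = v i) → Y0.card ≤ N → (∀ p ∈ Y0, dist p y ≤ C0.side) →
      (∀ i ∈ s, par (v i) ∈ Y0 ∧ θ' * dist (v i) (par (v i)) ≤ (P i).side) →
      (∀ (p : X) (L' : ℝ) (P' : I → Pos n), 0 ≤ L' →
        Fit L' (fun _ => p) (s.filter fun i => v i = p) P' e →
        Null (ins (fun _ => p) (s.filter fun i => v i = p) P' e)) →
      ∑ i ∈ s, (P i).side ^ n ≤ δ * C0.side ^ n →
      (∀ p, ∑ i ∈ s with v i = p, (P i).side ^ n ≤ (θ * C0.side) ^ n) →
      Hty (η * Λ) (A * θ * κ * C0.side) (A * θ * C0.side) C0.parent.big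
        (ins b s (fun i => (P i).pos) e) b

open Classical in
/-- Two trivial maps that differ over separated light balls. -/
def SplitS (R : Rz n X) : Prop :=
  ∀ L : ℝ, 1 ≤ L → ∃ ε : ℝ, 0 < ε ∧ ε ≤ 1 ∧ ∀ η : ℝ, 0 < η → η ≤ 1 →
    ∃ θ0 : ℝ, 0 < θ0 ∧ ∀ (θ : ℝ) (N : ℕ), 0 < θ → θ ≤ θ0 → ∃ Λ0 : ℝ,
    ∀ Λ κ : ℝ, Λ0 ≤ Λ → 0 ≤ κ → Fill n X Λ κ →
    ∀ (C0 : DC n) (y : X) (u u' : D n → X) (s : Finset (DC n)) (v : DC n → X) (r : X → ℝ)
      (par : X → X) (Y0 : Finset X), Lip L u → Lip L u' →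
      (∀ x, x ∉ C0.op → u x = y ∧ u' x = y) → Null u → Null u' → Pack C0 s id →
      (∀ x, (∀ Q ∈ s, x ∉ Q.cl) → u' x = u x) →
      (∀ Q ∈ s, ε * r (v Q) / 2 ≤ Q.side ∧ Q.side ≤ ε * r (v Q) ∧
        ∀ x ∈ Q.cl, dist (u x) (u' x) ≤ L * Q.side ∧ dist (u' x) (v Q) ≤ 10 * r (v Q)) →
      (∀ Q ∈ s, ∀ Q' ∈ s, v Q ≠ v Q' →
        40 * R.C * (r (v Q) + r (v Q')) ≤ dist (v Q) (v Q')) →
      Y0.card ≤ N → (∀ p ∈ Y0, dist p y ≤ C0.side) →
      (∀ Q ∈ s, par (v Q) ∈ Y0 ∧ θ * dist (v Q) (par (v Q)) ≤ r (v Q)) →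
      (∀ p, ∑ Q ∈ s with v Q = p, Q.side ^ n ≤ (θ * C0.side) ^ n) →
      Hty (η * Λ) (η * κ * C0.side) (η * C0.side) C0.parent.big u u'

/-- The inductive step. -/
def StepS (n : ℕ) (X : Type) [MetricSpace X] : Prop :=
  ∀ η : ℝ, 0 < η → η ≤ 1 → ∃ Λ0 : ℝ, ∀ Λ κ : ℝ, Λ0 ≤ Λ → 0 < κ → Fill n X Λ κ →
    ∀ (C0 : DC n) (y : X) (h : D n → X), Lip 1 h →
      (∀ x, C0.side / 4 ≤ dist x C0.c → h x = y) → Null h →
      Hty (η * Λ) (η * κ * C0.side) C0.side (ball C0.c (4 * C0.side)) h fun _ => y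

end Pool.Agent.Work.MP_4b5e6c_gt
end

-- merged part: Pool.Agent.Work.MP_4b5e6c_gt.Cubes
section
/-! Task CUBES: geometry of dyadic cubes and graded partitions. -/

namespace Pool.Agent.Work.MP_4b5e6c_gt
open Metric Set

namespace DC
variable {n : ℕ} {Q Q' Q'' C0 : DC n}

theorem side_pos (Q : DC n) : 0 < Q.side := zpow_pos (by norm_num) _
@[simp] theorem pos_op (Q : DC n) : Q.pos.op = Q.op := rfl
@[simp] theorem pos_cl (Q : DC n) : Q.pos.cl = Q.cl := rfl
@[simp] theorem pos_fst (Q : DC n) : Q.pos.1 = Q.c := rfl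
@[simp] theorem pos_snd (Q : DC n) : Q.pos.2 = Q.side / 2 := rfl
theorem op_subset_cl (Q : DC n) : Q.op ⊆ Q.cl := ball_subset_closedBall
theorem cl_subset_big (Q : DC n) : Q.cl ⊆ Q.big :=
  closedBall_subset_ball (by linarith only [Q.side_pos])
theorem c_mem_op (Q : DC n) : Q.c ∈ Q.op := mem_ball_self (by linarith only [Q.side_pos])
theorem mem_cl {x : D n} :
    x ∈ Q.cl ↔ ∀ i, (Q.k i : ℝ) * Q.side ≤ x i ∧ x i ≤ ((Q.k i : ℝ) + 1) * Q.side := by
  rw [cl, mem_closedBall, dist_pi_le_iff (by linarith only [Q.side_pos])]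
  refine forall_congr' fun i => ?_
  rw [Real.dist_eq, abs_le, c]
  constructor <;> rintro ⟨a, b⟩ <;> constructor <;> linarith only [a, b]
theorem mem_op {x : D n} :
    x ∈ Q.op ↔ ∀ i, (Q.k i : ℝ) * Q.side < x i ∧ x i < ((Q.k i : ℝ) + 1) * Q.side := by
  rw [op, mem_ball, dist_pi_lt_iff (by linarith only [Q.side_pos])]
  refine forall_congr' fun i => ?_
  rw [Real.dist_eq, abs_lt, c]
  constructor <;> rintro ⟨a, b⟩ <;> constructor <;> linarith only [a, b]
theorem dist_le_side {x x' : D n} (hx : x ∈ Q.cl) (hx' : x' ∈ Q.cl) : dist x x' ≤ Q.side := by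
  have h1 : dist x Q.c ≤ Q.side / 2 := hx
  have h2 : dist x' Q.c ≤ Q.side / 2 := hx'
  linarith only [h1, h2, dist_triangle_right x x' Q.c]
theorem side_le_side_iff : Q.side ≤ Q'.side ↔ Q'.j ≤ Q.j := by
  rw [side, side, zpow_le_zpow_iff_right₀ (by norm_num), neg_le_neg_iff]
theorem side_eq_of_j (h : Q.j = Q'.j) : Q.side = Q'.side := by rw [side, side, h]
theorem side_of_j_add {m : ℕ} (h : Q.j = Q'.j + m) : Q.side = Q'.side / 2 ^ m := by
  rw [side, side, h, neg_add, zpow_add₀ (by norm_num), zpow_neg (2 : ℝ) (m : ℤ), zpow_natCast,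
    div_eq_mul_inv]
theorem Sub.refl (Q : DC n) : Q.Sub Q := subset_rfl
theorem Sub.trans (h : Q.Sub Q') (h' : Q'.Sub Q'') : Q.Sub Q'' := Subset.trans h h'
theorem cubes_closure_op (Q : DC n) : closure Q.op = Q.cl :=
  closure_ball _ (by linarith only [Q.side_pos])
theorem Sub.cl_subset (h : Q.Sub Q') : Q.cl ⊆ Q'.cl := by
  rw [← cubes_closure_op, ← cubes_closure_op]
  exact closure_mono h

theorem cubes_corners (h : Q.cl ⊆ Q'.cl) (i : Fin n) : (Q'.k i : ℝ) * Q'.side ≤ Q.k i * Q.side ∧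
    ((Q.k i : ℝ) + 1) * Q.side ≤ ((Q'.k i : ℝ) + 1) * Q'.side := by
  have p := Q.side_pos
  have h1 : (fun i => (Q.k i : ℝ) * Q.side) ∈ Q.cl := mem_cl.2 fun i => ⟨le_rfl, by linarith⟩
  have h2 : (fun i => ((Q.k i : ℝ) + 1) * Q.side) ∈ Q.cl :=
    mem_cl.2 fun i => ⟨by linarith, le_rfl⟩
  exact ⟨(mem_cl.1 (h h1) i).1, (mem_cl.1 (h h2) i).2⟩

theorem cubes_sub_of_corners (h : ∀ i, (Q'.k i : ℝ) * Q'.side ≤ Q.k i * Q.side ∧
    ((Q.k i : ℝ) + 1) * Q.side ≤ ((Q'.k i : ℝ) + 1) * Q'.side) : Q.Sub Q' := fun _ hx =>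
  mem_op.2 fun i => ⟨(h i).1.trans_lt (mem_op.1 hx i).1, (mem_op.1 hx i).2.trans_le (h i).2⟩

theorem cubes_side_mul {m : ℕ} (h : Q.j = Q'.j + m) : Q'.side = 2 ^ m * Q.side := by
  rw [side_of_j_add h]; field_simp

/-- Containment in terms of the integer corners. -/
theorem cubes_sub_iff_int {m : ℕ} (h : Q.j = Q'.j + m) :
    Q.Sub Q' ↔ ∀ i, Q'.k i * 2 ^ m ≤ Q.k i ∧ Q.k i + 1 ≤ (Q'.k i + 1) * 2 ^ m := by
  have p := Q.side_pos
  have key : ∀ i, ((Q'.k i : ℝ) * Q'.side ≤ Q.k i * Q.side ∧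
      ((Q.k i : ℝ) + 1) * Q.side ≤ ((Q'.k i : ℝ) + 1) * Q'.side) ↔
      (Q'.k i * 2 ^ m ≤ Q.k i ∧ Q.k i + 1 ≤ (Q'.k i + 1) * 2 ^ m) := fun i => by
    rw [cubes_side_mul h, ← mul_assoc, ← mul_assoc, mul_le_mul_iff_left₀ p, mul_le_mul_iff_left₀ p]
    constructor <;> rintro ⟨a, b⟩ <;> constructor <;> first | exact_mod_cast a | exact_mod_cast b
  exact ⟨fun s i => (key i).1 (cubes_corners s.cl_subset i),
    fun s => cubes_sub_of_corners fun i => (key i).2 (s i)⟩

theorem Sub.side_le (hn : 1 ≤ n) (h : Q.Sub Q') : Q.side ≤ Q'.side := by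
  obtain ⟨a, b⟩ := cubes_corners h.cl_subset ⟨0, hn⟩
  linarith only [hn, a, b]
theorem Sub.j_le (hn : 1 ≤ n) (h : Q.Sub Q') : Q'.j ≤ Q.j := side_le_side_iff.1 (h.side_le hn)
theorem Sub.eq_of_j (h : Q.Sub Q') (hj : Q.j = Q'.j) : Q = Q' := by
  have := (cubes_sub_iff_int (m := 0) (by simpa using hj)).1 h
  refine DC.ext hj (funext fun i => ?_)
  have := this i
  omega
theorem Disj.symm (h : Q.Disj Q') : Q'.Disj Q := Disjoint.symm h
theorem Disj.mono {P P' : DC n} (h : Q.Disj Q') (hP : P.Sub Q) (hP' : P'.Sub Q') : P.Disj P' :=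
  Disjoint.mono hP hP' h
theorem Disj.op_cl (h : Q.Disj Q') : Disjoint Q.op Q'.cl := by
  rw [← cubes_closure_op]
  exact Disjoint.closure_right h isOpen_ball
theorem sub_or_disj (h : Q'.j ≤ Q.j) : Q.Sub Q' ∨ Q.Disj Q' := by
  obtain ⟨m, hm⟩ := Int.le.dest h
  have p := Q.side_pos
  by_cases s : Q.Sub Q'
  · exact .inl s
  refine .inr (Set.disjoint_left.2 fun x hx hx' => s ((cubes_sub_iff_int hm.symm).2 fun i => ?_))
  obtain ⟨a, b⟩ := mem_op.1 hx i
  obtain ⟨a', b'⟩ := mem_op.1 hx' i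
  rw [cubes_side_mul hm.symm, ← mul_assoc] at a' b'
  have c1 := lt_of_mul_lt_mul_right (a'.trans b) p.le
  have c2 := lt_of_mul_lt_mul_right (a.trans b') p.le
  have c1' : Q'.k i * 2 ^ m < Q.k i + 1 := by exact_mod_cast c1
  have c2' : Q.k i < (Q'.k i + 1) * 2 ^ m := by exact_mod_cast c2
  omega
theorem disj_of_j_eq (h : Q.j = Q'.j) (hne : Q ≠ Q') : Q.Disj Q' :=
  (sub_or_disj h.ge).resolve_left fun s => hne (s.eq_of_j h)
theorem not_disj_of_sub (h : Q.Sub Q') : ¬ Q.Disj Q' := fun d =>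
  Set.disjoint_left.1 d Q.c_mem_op (h Q.c_mem_op)
theorem cubes_parent_j (Q : DC n) : Q.j = Q.parent.j + (1 : ℕ) := by simp [parent]
theorem sub_parent (Q : DC n) : Q.Sub Q.parent :=
  (cubes_sub_iff_int Q.cubes_parent_j).2 fun i => by simp only [parent]; omega
theorem parent_side (Q : DC n) : Q.parent.side = 2 * Q.side := by
  rw [cubes_side_mul Q.cubes_parent_j, pow_one]
theorem Sub.parent_sub (hn : 1 ≤ n) (h : Q.Sub Q') (hne : Q ≠ Q') : Q.parent.Sub Q' := by
  have h1 := h.j_le hn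
  have h2 : Q.j ≠ Q'.j := fun e => hne (h.eq_of_j e)
  have h3 : Q'.j ≤ Q.parent.j := by simp only [parent]; omega
  exact (sub_or_disj h3).resolve_right fun d =>
    not_disj_of_sub (Sub.refl Q) (d.mono Q.sub_parent h)
theorem parent_big_subset (Q : DC n) : Q.parent.big ⊆ ball Q.c (4 * Q.side) := by
  intro x hx
  have h1 : dist x Q.parent.c < 3 * Q.parent.side / 2 := hx
  have h2 : dist Q.c Q.parent.c < Q.parent.side / 2 := Q.sub_parent Q.c_mem_op
  rw [parent_side] at h1 h2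
  rw [mem_ball]
  linarith only [h1, h2, dist_triangle_right x Q.c Q.parent.c]
theorem cubes_core_j (Q : DC n) : Q.core.j = Q.j + (2 : ℕ) := by simp [core]
theorem core_sub (Q : DC n) : Q.core.Sub Q :=
  (cubes_sub_iff_int Q.cubes_core_j).2 fun i => by simp only [core]; omega
theorem core_side (Q : DC n) : Q.core.side = Q.side / 4 := by
  rw [side_of_j_add Q.cubes_core_j]; norm_num
theorem cubes_core_k (Q : DC n) (i : Fin n) : (Q.core.k i : ℝ) = 4 * Q.k i + 2 := by simp [core]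
theorem core_cl_subset (Q : DC n) : Q.core.cl ⊆ closedBall Q.c (Q.side / 4) := by
  intro x hx
  have p := Q.side_pos
  rw [mem_closedBall, dist_pi_le_iff (by linarith only [p])]
  intro i
  obtain ⟨a, b⟩ := mem_cl.1 hx i
  rw [cubes_core_k, core_side] at a b
  rw [Real.dist_eq, abs_le, c]
  constructor <;> linarith only [p, a, b]
theorem core_double_subset (Q : DC n) : closedBall Q.core.c Q.core.side ⊆ Q.op := by
  intro x hx
  have p := Q.side_pos
  rw [mem_closedBall, dist_pi_le_iff Q.core.side_pos.le] at hx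
  refine mem_op.2 fun i => ?_
  have := hx i
  rw [Real.dist_eq, abs_le, c, cubes_core_k, core_side] at this
  constructor <;> linarith only [p, this, this.1, this.2]

/-- A clamped floor. -/
theorem cubes_exists_int {s t : ℝ} (hs : 0 < s) {a b : ℤ} (hab : a < b) (h1 : a * s ≤ t)
    (h2 : t ≤ b * s) : ∃ k : ℤ, a ≤ k ∧ k + 1 ≤ b ∧ k * s ≤ t ∧ t ≤ (k + 1) * s := by
  have f1 : (⌊t / s⌋ : ℝ) * s ≤ t := (le_div_iff₀ hs).1 (Int.floor_le _)
  have f2 : t < ((⌊t / s⌋ : ℝ) + 1) * s := (div_lt_iff₀ hs).1 (Int.lt_floor_add_one _)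
  have f3 : a ≤ ⌊t / s⌋ := Int.le_floor.2 ((le_div_iff₀ hs).2 h1)
  by_cases h : ⌊t / s⌋ + 1 ≤ b
  · exact ⟨_, f3, h, f1, f2.le⟩
  · refine ⟨b - 1, by omega, by omega, ?_, by simpa using h2⟩
    have : ((b - 1 : ℤ) : ℝ) ≤ ⌊t / s⌋ := by exact_mod_cast (by omega : b - 1 ≤ ⌊t / s⌋)
    exact (mul_le_mul_of_nonneg_right this hs.le).trans f1

theorem exists_cube {x : D n} (hx : x ∈ C0.cl) {j : ℤ} (hj : C0.j ≤ j) :
    ∃ Q : DC n, Q.j = j ∧ Q.Sub C0 ∧ x ∈ Q.cl := by
  obtain ⟨m, rfl⟩ := Int.le.dest hj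
  have hs : (0 : ℝ) < 2 ^ (-(C0.j + m)) := zpow_pos (by norm_num) _
  have e : C0.side = 2 ^ m * 2 ^ (-(C0.j + m)) :=
    cubes_side_mul (Q := ⟨C0.j + m, fun _ => 0⟩) (Q' := C0) rfl
  have : ∀ i, ∃ k : ℤ, C0.k i * 2 ^ m ≤ k ∧ k + 1 ≤ (C0.k i + 1) * 2 ^ m ∧
      k * (2 : ℝ) ^ (-(C0.j + m)) ≤ x i ∧ x i ≤ (k + 1) * (2 : ℝ) ^ (-(C0.j + m)) := fun i => by
    obtain ⟨a, b⟩ := mem_cl.1 hx i
    rw [e, ← mul_assoc] at a b
    refine cubes_exists_int hs ?_ (by exact_mod_cast a) (by exact_mod_cast b)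
    have : (0 : ℤ) < 2 ^ m := by positivity
    linarith only [this]
  choose k hk using this
  exact ⟨⟨C0.j + m, k⟩, rfl, (cubes_sub_iff_int rfl).2 fun i => ⟨(hk i).1, (hk i).2.1⟩,
    mem_cl.2 fun i => (hk i).2.2⟩
theorem exists_cube' (x : D n) (j : ℤ) : ∃ Q : DC n, Q.j = j ∧ x ∈ Q.cl := by
  have hs : (0 : ℝ) < 2 ^ (-j) := zpow_pos (by norm_num) _
  refine ⟨⟨j, fun i => ⌊x i / 2 ^ (-j)⌋⟩, rfl, mem_cl.2 fun i => ⟨?_, ?_⟩⟩
  · exact (le_div_iff₀ hs).1 (Int.floor_le _)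
  · exact ((div_lt_iff₀ hs).1 (Int.lt_floor_add_one _)).le
theorem sub_of_cl_subset (h : Q.cl ⊆ Q'.cl) : Q.Sub Q' := cubes_sub_of_corners (cubes_corners h)
theorem exists_sibling (hn : 1 ≤ n) (Q : DC n) :
    ∃ P : DC n, P.j = Q.j ∧ P.Sub Q.parent ∧ P.Disj Q := by
  refine ⟨⟨Q.j, fun i => 4 * (Q.k i / 2) + 1 - Q.k i⟩, rfl, ?_, disj_of_j_eq rfl fun e => ?_⟩
  · refine (cubes_sub_iff_int (m := 1) (by exact Q.cubes_parent_j)).2 fun i => ?_
    simp only [parent]; omega
  · have := congrFun (congrArg DC.k e) ⟨0, hn⟩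
    simp only at this
    omega
/-- Points of the boundary sphere lie on a wall. -/
theorem exists_wall {x : D n} (hx : dist x Q.c = Q.side / 2) :
    ∃ (i : Fin n) (k : ℤ), x i = k * (2 : ℝ) ^ (-Q.j) := by
  have h1 : x ∈ Q.cl := hx.le
  have h2 : x ∉ Q.op := fun h => (lt_irrefl _ (hx ▸ (mem_ball.1 h)))
  rw [mem_op] at h2
  push Not at h2
  obtain ⟨i, hi⟩ := h2
  obtain ⟨a, b⟩ := mem_cl.1 h1 i
  rcases a.eq_or_lt with a | a
  · exact ⟨i, Q.k i, a.symm⟩
  · exact ⟨i, Q.k i + 1, by push_cast; exact le_antisymm b (hi a)⟩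
/-- An open cube does not meet the walls of coarser levels. -/
theorem not_wall {x : D n} (hx : x ∈ Q.op) {i : Fin n} {j k : ℤ} (h : x i = k * (2 : ℝ) ^ j)
    (hj : Q.side ≤ (2 : ℝ) ^ j) : False := by
  have e0 : (⟨-j, fun _ => 0⟩ : DC n).side = 2 ^ j := by simp [side]
  have hj' : -j ≤ Q.j := (side_le_side_iff (Q' := ⟨-j, fun _ => 0⟩)).1 (e0 ▸ hj)
  obtain ⟨m, hm⟩ := Int.le.dest hj'
  have e := cubes_side_mul (Q := Q) (Q' := ⟨-j, fun _ => 0⟩) hm.symm
  rw [e0] at e
  obtain ⟨a, b⟩ := mem_op.1 hx i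
  rw [h, e, ← mul_assoc] at a b
  have c1 := lt_of_mul_lt_mul_right a Q.side_pos.le
  have c2 := lt_of_mul_lt_mul_right b Q.side_pos.le
  have c1' : Q.k i < k * 2 ^ m := by exact_mod_cast c1
  have c2' : k * 2 ^ m < Q.k i + 1 := by exact_mod_cast c2
  omega
theorem finite_sub (hn : 1 ≤ n) (C0 : DC n) (j : ℤ) : {Q : DC n | Q.Sub C0 ∧ Q.j ≤ j}.Finite := by
  have fin : ∀ m : ℕ, ((fun k => (⟨C0.j + m, k⟩ : DC n)) ''
      {k | ∀ i, k i ∈ Icc (C0.k i * 2 ^ m) ((C0.k i + 1) * 2 ^ m)}).Finite := fun m =>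
    (Set.Finite.pi' fun i => finite_Icc _ _).image _
  refine ((finite_Iic (j - C0.j).toNat).biUnion fun m _ => fin m).subset ?_
  rintro Q ⟨s, hQ⟩
  obtain ⟨m, hm⟩ := Int.le.dest (s.j_le hn)
  refine mem_biUnion (x := m) (by rw [mem_Iic]; omega) ⟨Q.k, fun i => ?_, DC.ext hm rfl⟩
  have := (cubes_sub_iff_int hm.symm).1 s i
  constructor <;> omega
/-- The neighbours of a cube. -/
theorem exists_nbrs (C0 : DC n) : ∃ N : Finset (DC n),
    (∀ Q ∈ N, Q.j = C0.j ∧ Q ≠ C0 ∧ Q.op ⊆ C0.big) ∧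
    ∀ x, dist x C0.c ≤ 3 * C0.side / 2 → x ∈ C0.cl ∨ ∃ Q ∈ N, x ∈ Q.cl := by
  classical
  have p := C0.side_pos
  refine ⟨((Fintype.piFinset fun i => Finset.Icc (C0.k i - 1) (C0.k i + 1)).image
    fun k => (⟨C0.j, k⟩ : DC n)).erase C0, fun Q hQ => ?_, fun x hx => ?_⟩
  · obtain ⟨ne, hQ⟩ := Finset.mem_erase.1 hQ
    obtain ⟨k, hk, rfl⟩ := Finset.mem_image.1 hQ
    refine ⟨rfl, ne, fun x hx => ?_⟩
    rw [big, mem_ball, dist_pi_lt_iff (by linarith only [p])]
    intro i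
    obtain ⟨a, b⟩ := mem_op.1 hx i
    obtain ⟨a', b'⟩ := Finset.mem_Icc.1 (Fintype.mem_piFinset.1 hk i)
    have a'' : (C0.k i : ℝ) - 1 ≤ k i := by exact_mod_cast a'
    have b'' : (k i : ℝ) ≤ C0.k i + 1 := by exact_mod_cast b'
    have a3 := mul_le_mul_of_nonneg_right a'' p.le
    have b3 := mul_le_mul_of_nonneg_right b'' p.le
    change (k i : ℝ) * C0.side < x i at a
    change x i < ((k i : ℝ) + 1) * C0.side at b
    rw [Real.dist_eq, abs_lt, c]
    constructor <;> linarith only [a3, a, b3, b]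
  · rw [dist_pi_le_iff (by linarith only [p])] at hx
    have : ∀ i, ∃ k : ℤ, C0.k i - 1 ≤ k ∧ k + 1 ≤ C0.k i + 2 ∧
        k * C0.side ≤ x i ∧ x i ≤ (k + 1) * C0.side := fun i => by
      have := hx i
      rw [Real.dist_eq, abs_le, c] at this
      refine cubes_exists_int p (by omega) ?_ ?_ <;> push_cast <;> linarith only [this, this.1, this.2]
    choose k hk using this
    have hx' : x ∈ (⟨C0.j, k⟩ : DC n).cl := mem_cl.2 fun i => (hk i).2.2
    by_cases e : (⟨C0.j, k⟩ : DC n) = C0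
    · exact .inl (e ▸ hx')
    · refine .inr ⟨_, Finset.mem_erase.2 ⟨e, Finset.mem_image.2 ⟨k, ?_, rfl⟩⟩, hx'⟩
      refine Fintype.mem_piFinset.2 fun i => Finset.mem_Icc.2 ⟨(hk i).1, ?_⟩
      have := (hk i).2.1
      omega
/-- Number of grid points in a closed cube. -/
theorem exists_grid_finset (Q : DC n) (m : ℕ) : ∃ G : Finset (Fin n → ℤ),
    (∀ k, k ∈ G ↔ grid m k ∈ Q.cl) ∧ (G.card : ℝ) ≤ (Q.side * 2 ^ m + 1) ^ n := by
  have p := Q.side_pos
  have q : (0 : ℝ) < 2 ^ m := by positivity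
  refine ⟨Fintype.piFinset fun i => Finset.Icc ⌈(Q.k i : ℝ) * Q.side * 2 ^ m⌉
    ⌊((Q.k i : ℝ) + 1) * Q.side * 2 ^ m⌋, fun k => ?_, ?_⟩
  · rw [Fintype.mem_piFinset, mem_cl]
    refine forall_congr' fun i => ?_
    rw [Finset.mem_Icc, Int.ceil_le, Int.le_floor, grid, le_div_iff₀ q, div_le_iff₀ q]
  · rw [Fintype.card_piFinset, Nat.cast_prod]
    refine (Finset.prod_le_prod (g := fun _ => Q.side * 2 ^ m + 1) (fun i _ => Nat.cast_nonneg _)
      fun i _ => ?_).trans_eq (by simp)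
    rw [Int.card_Icc]
    have a := Int.le_ceil ((Q.k i : ℝ) * Q.side * 2 ^ m)
    have b := Int.floor_le (((Q.k i : ℝ) + 1) * Q.side * 2 ^ m)
    have r : 0 < Q.side * 2 ^ m := mul_pos p q
    rcases le_total 0 (⌊((Q.k i : ℝ) + 1) * Q.side * 2 ^ m⌋ + 1 - ⌈(Q.k i : ℝ) * Q.side * 2 ^ m⌉)
      with h | h
    · have := Int.toNat_of_nonneg h
      rw [← Int.cast_natCast, this]
      push_cast
      linarith only [a, b]
    · rw [Int.toNat_eq_zero.2 h]
      push_cast
      linarith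
theorem exists_level {x : ℝ} (hx : 0 < x) : ∃ j : ℤ, (2 : ℝ) ^ (-j) ≤ x ∧ x < 2 * 2 ^ (-j) := by
  obtain ⟨j, a, b⟩ := exists_mem_Ico_zpow hx (one_lt_two (α := ℝ))
  refine ⟨-j, by rwa [neg_neg], ?_⟩
  rwa [neg_neg, ← zpow_one_add₀ (by norm_num), add_comm]

section gp
variable {σ σ' : D n → ℝ}

theorem Small.cubes_sub (hn : 1 ≤ n) (h : Small σ Q') (s : Q.Sub Q') : Small σ Q := fun x hx =>
  (s.side_le hn).trans (h x (s.cl_subset hx))

theorem gp_finite (hn : 1 ≤ n) (h : Scale C0 σ) : (gp σ C0).Finite := by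
  obtain ⟨κ, hκ, hσ⟩ := h.pos
  obtain ⟨j, a, -⟩ := exists_level hκ
  refine (finite_sub hn C0 (max j C0.j)).subset ?_
  rintro Q ⟨s, -, e | e⟩
  · exact ⟨s, e ▸ le_max_right _ _⟩
  · refine ⟨s, le_trans ?_ (le_max_left _ _)⟩
    simp only [Small, not_forall, not_le] at e
    obtain ⟨x, -, hx⟩ := e
    rw [parent_side] at hx
    refine (side_le_side_iff (Q := ⟨j, fun _ => 0⟩)).1 ?_
    change (2 : ℝ) ^ (-j) ≤ _
    linarith only [hκ, a, hx, hσ, hσ x]
theorem gp_disj (hn : 1 ≤ n) (hQ : Q ∈ gp σ C0) (hQ' : Q' ∈ gp σ C0) (hne : Q ≠ Q') :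
    Q.Disj Q' := by
  have key : ∀ Q Q' : DC n, Q ∈ gp σ C0 → Q' ∈ gp σ C0 → Q ≠ Q' → Q'.j ≤ Q.j → Q.Disj Q' := by
    intro Q Q' hQ hQ' hne hj
    refine (sub_or_disj hj).resolve_left fun s => ?_
    rcases hQ.2.2 with e | e
    · subst e
      exact hne (s.eq_of_j (le_antisymm (hQ'.1.j_le hn) hj))
    · exact e (hQ'.2.1.cubes_sub hn (s.parent_sub hn hne))
  rcases le_total Q'.j Q.j with h | h
  · exact key Q Q' hQ hQ' hne h
  · exact (key Q' Q hQ' hQ hne.symm h).symm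
theorem gp_cover (hn : 1 ≤ n) (h : Scale C0 σ) {x : D n} (hx : x ∈ C0.cl) :
    ∃ Q ∈ gp σ C0, x ∈ Q.cl := by
  have key : ∀ (m : ℕ) (Q : DC n), Q.j = C0.j + m → Q.Sub C0 → x ∈ Q.cl → Small σ Q →
      ∃ Q ∈ gp σ C0, x ∈ Q.cl := by
    intro m
    induction m with
    | zero => exact fun Q e s a b => ⟨Q, ⟨s, b, .inl (s.eq_of_j (by simpa using e))⟩, a⟩
    | succ m ih =>
      intro Q e s a b
      by_cases c : Q = C0 ∨ ¬ Small σ Q.parent
      · exact ⟨Q, ⟨s, b, c⟩, a⟩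
      · push Not at c
        refine ih Q.parent ?_ (s.parent_sub hn c.1) (Q.sub_parent.cl_subset a) c.2
        simp only [parent]
        push_cast at e
        omega
  obtain ⟨κ, hκ, hσ⟩ := h.pos
  obtain ⟨j, a, -⟩ := exists_level hκ
  obtain ⟨Q, e, s, b⟩ := exists_cube hx (le_max_right j C0.j)
  obtain ⟨m, hm⟩ := Int.le.dest (s.j_le hn)
  refine key m Q hm.symm s b fun y _ => ?_
  have : Q.side ≤ (2 : ℝ) ^ (-j) :=
    (side_le_side_iff (Q' := ⟨j, fun _ => 0⟩)).2 (e ▸ le_max_left _ _)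
  linarith only [hκ, a, this, hσ, hσ y]
theorem gp_bounds (h : Scale C0 σ) (hQ : Q ∈ gp σ C0) {x : D n} (hx : x ∈ Q.cl) :
    σ x ≤ Q.side ∧ Q.side ≤ 8 * σ x := by
  refine ⟨?_, hQ.2.1 x hx⟩
  rcases hQ.2.2 with e | e
  · rw [e]; exact h.le x
  · simp only [Small, not_forall, not_le] at e
    obtain ⟨y, hy, hy'⟩ := e
    have d := dist_le_side (Q.sub_parent.cl_subset hx) hy
    have l := h.lip x y
    rw [Real.dist_eq] at l
    rw [parent_side] at hy' d
    linarith only [hy', d, l, le_abs_self (σ x - σ y), Q.side_pos]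
theorem gp_local (hQ : Q ∈ gp σ C0) (h : ∀ x ∈ Q.parent.cl, σ x = σ' x) : Q ∈ gp σ' C0 :=
  ⟨hQ.1, fun x hx => h x (Q.sub_parent.cl_subset hx) ▸ hQ.2.1 x hx,
    hQ.2.2.imp id fun e s => e fun x hx => (h x hx).symm ▸ s x hx⟩

end gp

end DC

theorem Pack.arr {n : ℕ} {I : Type} {C0 : DC n} {s : Finset I} {Q : I → DC n} (h : Pack C0 s Q) :
    Arr s fun i => (Q i).pos :=
  ⟨fun i _ => half_pos (Q i).side_pos, fun i hi j hj e => h.2 i hi j hj e⟩

end Pool.Agent.Work.MP_4b5e6c_gt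
end

-- merged part: Pool.Agent.Work.MP_4b5e6c_gt.CL
section
/-! Task CL: homotopies on the walls of dyadic cubes. -/

namespace Pool.Agent.Work.MP_4b5e6c_gt
open Metric Set

namespace CL

theorem dist_tail_le {n : ℕ} (a b : D (n + 1)) :
    dist (Fin.tail a : D n) (Fin.tail b) ≤ dist a b :=
  (dist_pi_le_iff dist_nonneg).2 fun i => dist_le_pi_dist a b i.succ

theorem dist_cons_le {n : ℕ} (s t : ℝ) (x y : D n) {r : ℝ} (h1 : |s - t| ≤ r)
    (h2 : dist x y ≤ r) : dist (Fin.cons s x : D (n + 1)) (Fin.cons t y) ≤ r := by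
  refine (dist_pi_le_iff (dist_nonneg.trans h2)).2 fun i => ?_
  refine Fin.cases ?_ (fun j => ?_) i
  · simpa [Real.dist_eq] using h1
  · simpa using (dist_le_pi_dist x y j).trans h2

theorem near_est {E : Type} [PseudoMetricSpace E] {A : Set E} (near : E → E)
    (hnear : ∀ z, near z ∈ A ∧ dist z (near z) = infDist z A) (z v : E)
    (hv : dist v z ≤ infDist z A / 2) : dist (near v) (near z) ≤ 3 * infDist z A := by
  have h1 := (hnear v).2
  have h2 := (hnear z).2
  have h3 : infDist v A ≤ infDist z A + dist v z := infDist_le_infDist_add_dist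
  have h4 := dist_triangle4 (near v) v z (near z)
  rw [dist_comm (near v) v] at h4
  linarith only [hv, h1, h2, h3, h4]

end CL

/-- Extension from a closed subset of dimension `n + 1` to the coarse walls. -/
theorem Rz.ext_wall {n : ℕ} {X : Type} [MetricSpace X] (R : Rz n X) : ∃ C : ℝ, 1 ≤ C ∧
    ∀ (A : Set (D (n + 1))) (f : D (n + 1) → X) (L : ℝ), 0 ≤ L → IsClosed A → A.Nonempty →
      (∀ a ∈ A, ∀ b ∈ A, dist (f a) (f b) ≤ L * dist a b) →
      ∃ F : D (n + 1) → X, (∀ a ∈ A, F a = f a) ∧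
        ∀ z ∈ A ∪ {z | ∃ (i : Fin (n + 1)) (j k : ℤ), z i = k * (2 : ℝ) ^ j ∧
            infDist z A ≤ (2 : ℝ) ^ j},
          ∀ z' ∈ A ∪ {z | ∃ (i : Fin (n + 1)) (j k : ℤ), z i = k * (2 : ℝ) ^ j ∧
            infDist z A ≤ (2 : ℝ) ^ j}, dist (F z) (F z') ≤ C * L * dist z z' := by
  classical
  obtain ⟨Cw, w, hCw, hw, -⟩ := dw (n + 1)
  have hRC := R.one_le
  have hC : 1 ≤ 30 * R.C * Cw := by linarith only [hCw, hRC, mul_nonneg_of_nonpos_of_nonpos (Mathlib.Tactic.Linarith.sub_nonpos_of_le hCw) (Mathlib.Tactic.Linarith.sub_nonpos_of_le hRC)]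
  refine ⟨10 * (30 * R.C * Cw) / (1 / 10), by linarith only [hC], ?_⟩
  intro A f L hL hA hne hf
  set W : Set (D (n + 1)) := {z | ∃ (i : Fin (n + 1)) (j k : ℤ), z i = k * (2 : ℝ) ^ j ∧
    infDist z A ≤ (2 : ℝ) ^ j} with hW
  let σ : D (n + 1) → ℝ := fun z => infDist z A / 10
  have hσ : Lip (1 / 10) σ := by
    intro a b
    have h1 : infDist a A ≤ infDist b A + dist a b := infDist_le_infDist_add_dist
    have h2 : infDist b A ≤ infDist a A + dist b a := infDist_le_infDist_add_dist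
    rw [dist_comm b a] at h2
    rw [Real.dist_eq, abs_le]
    constructor <;> simp only [σ] <;> linarith only [h2, h1]
  have hσ0 : ∀ x, 0 ≤ σ x := fun x => div_nonneg infDist_nonneg (by norm_num)
  have hI := hw σ hσ hσ0
  choose near hn1 hn2 using fun z : D (n + 1) => hA.exists_infDist_eq_dist hne z
  have hnear : ∀ z, near z ∈ A ∧ dist z (near z) = infDist z A := fun z => ⟨hn1 z, (hn2 z).symm⟩
  let β : D (n + 1) → Ys n (Fin (n + 1 + 1) × D (n + 1)) := fun z => toY (0, z) (w σ z)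
  let ρ : Fin (n + 1 + 1) × D (n + 1) → X := fun v => f (near v.2)
  let F : D (n + 1) → X := fun z => if z ∈ A then f z else R.ι (mapY ρ (β z))
  have hFA : ∀ a ∈ A, F a = f a := fun a ha => if_pos ha
  have hFn : ∀ a, a ∉ A → F a = R.ι (mapY ρ (β a)) := fun a ha => if_neg ha
  have hpos : ∀ z, z ∉ A → 0 < infDist z A := fun z hz => (hA.notMem_iff_infDist_pos hne).1 hz
  have hσpos : ∀ z, z ∉ A → 0 < σ z := fun z hz => div_pos (hpos z hz) (by norm_num)
  have hβ : ∀ z ∈ W, z ∉ A → (β z).1 = w σ z := by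
    rintro z ⟨i, j, k, h1, h2⟩ hz
    have hm := hI.mem z (hσpos z hz)
    have hd := hpos z hz
    refine toY_of_mem _ ⟨hm.1, hm.2.1, hI.wall z i j k (hσpos z hz) h1 ?_⟩
    simp only [σ]; linarith
  have hsupp : ∀ z, ∀ z' ∈ W, z' ∉ A → dist z z' ≤ 1 / 10 * infDist z A →
      ∀ q ∈ (mapY ρ (β z')).supp, dist q (f (near z)) ≤ L * (3 * infDist z A) := by
    intro z z' hz' hz'A hd q hq
    obtain ⟨v, hv, rfl⟩ := mem_supp_mapY.1 hq
    have hv' : v ∈ (w σ z').fs.support := by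
      rw [← hβ z' hz' hz'A]; exact hv
    have h1 := hI.near z' (hσpos z' hz'A) v hv'
    have h2 : infDist z' A ≤ infDist z A + dist z' z := infDist_le_infDist_add_dist
    have h3 := dist_triangle v.2 z' z
    rw [dist_comm z' z] at h2 h3
    have h0 : 0 ≤ infDist z A := infDist_nonneg
    have h4 : dist v.2 z ≤ infDist z A / 2 := by
      simp only [σ] at h1; linarith only [hd, h1, h2, h3, h0]
    exact (hf _ (hn1 _) _ (hn1 _)).trans
      (mul_le_mul_of_nonneg_left (CL.near_est near hnear z v.2 h4) hL)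
  refine ⟨F, hFA, whitney_glue A W F (ε := 1 / 10) (by norm_num) (by norm_num) hL hC near hnear
    ?_ ?_ ?_⟩
  · intro a ha b hb
    rw [hFA a ha, hFA b hb]; exact hf a ha b hb
  · intro z hz hzA
    rw [hFA _ (hn1 z), hFn z hzA]
    have h0 : 0 ≤ infDist z A := infDist_nonneg
    have h1 := R.dist_le (mapY ρ (β z)) (f (near z))
      (hsupp z z hz hzA (by rw [dist_self]; positivity))
    have h2 : 0 ≤ R.C * (L * infDist z A) := by positivity
    linarith only [h1, h2, hCw, mul_nonneg_of_nonpos_of_nonpos (Mathlib.Tactic.Linarith.sub_nonpos_of_le hCw) (Mathlib.Tactic.Linarith.sub_nonpos_of_le h2)]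
  · intro z hz z' hz' hzA hz'A hd
    rw [hFn z hzA, hFn z' hz'A]
    have h0 : 0 ≤ infDist z A := infDist_nonneg
    have h1 := R.lip (f (near z)) (L * (3 * infDist z A)) (by positivity) (mapY ρ (β z))
      (mapY ρ (β z'))
      (fun q hq => mem_closedBall.2 (hsupp z z hz hzA (by rw [dist_self]; positivity) q hq))
      fun q hq => mem_closedBall.2 (hsupp z z' hz' hz'A hd q hq)
    have h2 := lip_mapY ρ (β z) (β z')
    have h3 : dist (β z) (β z') = dist (w σ z) (w σ z') := by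
      rw [Subtype.dist_eq, hβ z hz hzA, hβ z' hz' hz'A]
    have h4 := hI.lip z z' (hσpos z hzA) (hσpos z' hz'A)
    rw [h3, one_mul] at h2
    have h5 : dist (mapY ρ (β z)) (mapY ρ (β z')) * infDist z A ≤ 10 * (Cw * dist z z') := by
      have := mul_le_mul_of_nonneg_right h2 h0
      simp only [σ] at h4; linarith only [h4, this]
    have h6 := mul_le_mul_of_nonneg_left h5 (show 0 ≤ 3 * R.C * L by positivity)
    calc _ ≤ _ := h1
      _ = 3 * R.C * L * (dist (mapY ρ (β z)) (mapY ρ (β z')) * infDist z A) := by ring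
      _ ≤ _ := h6
      _ = _ := by ring

theorem Rz.cone {n : ℕ} {X : Type} [MetricSpace X] (R : Rz n X) : ConeS n X := by
  classical
  obtain ⟨C, hC, hext⟩ := R.ext_wall
  refine ⟨4 * C, by linarith only [hC], fun u u' L hL hu hu' => ?_⟩
  let ψ : D n → ℝ := fun x => dist (u x) (u' x) / L
  have hψ0 : ∀ x, 0 ≤ ψ x := fun x => div_nonneg dist_nonneg hL.le
  have hψL : ∀ x, L * ψ x = dist (u x) (u' x) := fun x => mul_div_cancel₀ _ hL.ne'
  have hψ : ∀ x y, |ψ x - ψ y| ≤ 2 * dist x y := by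
    intro x y
    have h1 := dist_dist_dist_le (u x) (u' x) (u y) (u' y)
    rw [Real.dist_eq, ← hψL, ← hψL, ← mul_sub, abs_mul, abs_of_pos hL] at h1
    have h2 := hu x y
    have h3 := hu' x y
    refine le_of_mul_le_mul_left ?_ hL
    linarith
  have hψc : Continuous ψ := (hu.continuous.dist hu'.continuous).div_const L
  let A : Set (D (n + 1)) := {z | z 0 = 0} ∪ {z | z 0 = ψ (Fin.tail z)}
  have hA : IsClosed A :=
    (isClosed_eq (continuous_apply 0) continuous_const).union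
      (isClosed_eq (continuous_apply 0)
        (hψc.comp (continuous_pi fun i => continuous_apply (Fin.succ i))))
  let f : D (n + 1) → X := fun z => if z 0 = 0 then u (Fin.tail z) else u' (Fin.tail z)
  have hmix : ∀ a b : D (n + 1), a 0 = 0 → b 0 = ψ (Fin.tail b) →
      dist (u (Fin.tail a)) (u' (Fin.tail b)) ≤ 2 * L * dist a b := by
    intro a b ha hb
    have h1 := dist_triangle (u (Fin.tail a)) (u (Fin.tail b)) (u' (Fin.tail b))
    have h2 := (hu (Fin.tail a) (Fin.tail b)).trans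
      (mul_le_mul_of_nonneg_left (CL.dist_tail_le a b) hL.le)
    have h3 := dist_le_pi_dist a b 0
    rw [ha, hb, Real.dist_eq, zero_sub, abs_neg, abs_of_nonneg (hψ0 _)] at h3
    have h4 := mul_le_mul_of_nonneg_left h3 hL.le
    rw [hψL] at h4
    linarith
  have hf : ∀ a ∈ A, ∀ b ∈ A, dist (f a) (f b) ≤ 2 * L * dist a b := by
    intro a ha b hb
    have h0 : 0 ≤ L * dist a b := by positivity
    have ht := mul_le_mul_of_nonneg_left (CL.dist_tail_le a b) hL.le
    by_cases ha0 : a 0 = 0 <;> by_cases hb0 : b 0 = 0 <;> simp only [f, ha0, hb0, if_true, if_false]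
    · have := hu (Fin.tail a) (Fin.tail b); linarith only [h0, ht, this]
    · exact hmix a b ha0 (hb.resolve_left hb0)
    · rw [dist_comm, dist_comm a b]; exact hmix b a hb0 (ha.resolve_left ha0)
    · have := hu' (Fin.tail a) (Fin.tail b); linarith
  obtain ⟨F, hFA, hF⟩ := hext A f (2 * L) (by positivity) hA ⟨0, Or.inl rfl⟩ hf
  have hF0 : ∀ x : D n, F (Fin.cons 0 x) = u x := by
    intro x
    rw [hFA _ (Or.inl rfl)]
    simp [f]
  have hF1 : ∀ x : D n, F (Fin.cons (ψ x) x) = u' x := by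
    intro x
    rw [hFA _ (Or.inr (by simp))]
    by_cases h : ψ x = 0
    · have h1 := hψL x
      rw [h, mul_zero, eq_comm, dist_eq_zero] at h1
      simp [f, h, h1]
    · simp [f, h]
  refine ⟨fun p => F (Fin.cons (p.2 * ψ p.1) p.1), ?_, fun Q hQ => ⟨fun x _ => ⟨?_, ?_⟩, ?_⟩⟩
  · intro x hx τ
    have h : ψ x = 0 := by simp [ψ, hx]
    simp only [h, mul_zero]
    exact hF0 x
  · simp only [zero_mul]; exact hF0 x
  · simp only [one_mul]; exact hF1 x
  · have hs : ∀ x, dist x Q.c = Q.side / 2 → ψ x ≤ Q.side := by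
      intro x hx
      have h1 := hQ x (mem_closedBall.2 hx.le)
      rw [← hψL] at h1
      exact le_of_mul_le_mul_left h1 hL
    have hW : ∀ x, dist x Q.c = Q.side / 2 → ∀ τ ∈ Icc (0 : ℝ) 1,
        (Fin.cons (τ * ψ x) x : D (n + 1)) ∈ A ∪ {z | ∃ (i : Fin (n + 1)) (j k : ℤ),
          z i = k * (2 : ℝ) ^ j ∧ infDist z A ≤ (2 : ℝ) ^ j} := by
      intro x hx τ hτ
      obtain ⟨i, k, hi⟩ := DC.exists_wall hx
      refine Or.inr ⟨i.succ, -Q.j, k, by simpa using hi, ?_⟩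
      refine (infDist_le_dist_of_mem (y := Fin.cons 0 x) (Or.inl rfl)).trans
        (CL.dist_cons_le _ _ _ _ ?_ ?_)
      · have h1 := hs x hx
        have h2 := hψ0 x
        rw [sub_zero, abs_of_nonneg (mul_nonneg hτ.1 h2)]
        exact (mul_le_of_le_one_left h2 hτ.2).trans h1
      · rw [dist_self]; positivity
    intro x x' hx hx' τ hτ τ' hτ'
    simp only [DC.pos_fst, DC.pos_snd] at hx hx' ⊢
    have h1 := hF _ (hW x hx τ hτ) _ (hW x' hx' τ' hτ')
    have h0 : 0 ≤ Q.side * |τ - τ'| := mul_nonneg Q.side_pos.le (abs_nonneg _)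
    have hd : 0 ≤ dist x x' := dist_nonneg
    have h2 : dist (Fin.cons (τ * ψ x) x : D (n + 1)) (Fin.cons (τ' * ψ x') x') ≤
        2 * (dist x x' + Q.side / 2 * |τ - τ'|) := by
      refine CL.dist_cons_le _ _ _ _ ?_ (by linarith only [h0, hd])
      have e : τ * ψ x - τ' * ψ x' = (τ - τ') * ψ x + τ' * (ψ x - ψ x') := by ring
      have h3 : |(τ - τ') * ψ x| ≤ Q.side * |τ - τ'| := by
        rw [abs_mul, abs_of_nonneg (hψ0 x), mul_comm]
        exact mul_le_mul_of_nonneg_right (hs x hx) (abs_nonneg _)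
      have h4 : |τ' * (ψ x - ψ x')| ≤ 2 * dist x x' := by
        rw [abs_mul, abs_of_nonneg hτ'.1]
        exact (mul_le_of_le_one_left (abs_nonneg _) hτ'.2).trans (hψ x x')
      rw [e]
      have := abs_add_le ((τ - τ') * ψ x) (τ' * (ψ x - ψ x'))
      linarith only [h3, h4, this]
    calc _ ≤ _ := h1
      _ ≤ C * (2 * L) * (2 * (dist x x' + Q.side / 2 * |τ - τ'|)) :=
        mul_le_mul_of_nonneg_left h2 (by positivity)
      _ = _ := by ring

end Pool.Agent.Work.MP_4b5e6c_gt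
end

-- merged part: Pool.Agent.Work.MP_4b5e6c_gt.Bubble
section
/-! Task BUBBLE: tethers and bubbles. -/

namespace Pool.Agent.Work.MP_4b5e6c_gt
open Metric Set

variable {n : ℕ} {Z Z' I : Type}

namespace Bubble

/-- Clamping to the unit interval. -/
def c01 (t : ℝ) : ℝ := max 0 (min 1 t)

theorem c01_mem (t : ℝ) : 0 ≤ c01 t ∧ c01 t ≤ 1 :=
  ⟨le_max_left _ _, max_le zero_le_one (min_le_left _ _)⟩

theorem c01_of_le {t : ℝ} (h : t ≤ 0) : c01 t = 0 := max_eq_left ((min_le_right _ _).trans h)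

theorem c01_of_ge {t : ℝ} (h : 1 ≤ t) : c01 t = 1 := by
  rw [c01, min_eq_left h, max_eq_right zero_le_one]

theorem lip_c01 : Lip 1 c01 := fun a b => by
  rw [Real.dist_eq, Real.dist_eq, one_mul, c01, c01, max_comm, max_comm 0]
  refine (abs_max_sub_max_le_abs _ _ _).trans ?_
  refine (abs_min_sub_min_le_max _ _ _ _).trans ?_
  simp

theorem lip_aff (a k : ℝ) : Lip |k| fun x : D n => a + k * ‖x‖ := fun x x' => by
  rw [Real.dist_eq, add_sub_add_left_eq_sub, ← mul_sub, abs_mul, dist_eq_norm]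
  exact mul_le_mul_of_nonneg_left (abs_norm_sub_norm_le _ _) (abs_nonneg _)

/-- The radial profile of a tether. -/
def rho (x : D n) : ℝ := c01 (2 * ‖x‖ - 1)

theorem item_rho : Item (1 : ℝ) 2 (rho : D n → ℝ) := by
  refine ⟨?_, fun x hx => c01_of_ge (by linarith only [hx])⟩
  have := lip_c01.comp (lip_aff (n := n) (-1) 2) zero_le_one
  rw [one_mul, abs_two] at this
  convert this using 2
  unfold rho
  congr 1
  ring

theorem mem_op_iff {c x : D n} {a : ℝ} (ha : 0 < a) (k : ℝ) :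
    x ∈ Pos.op (c, a * k) ↔ ‖a⁻¹ • (x - c)‖ < k := by
  rw [Pos.op, mem_ball, dist_eq_norm, norm_smul, norm_inv, Real.norm_of_nonneg ha.le,
    inv_mul_lt_iff₀ ha]

theorem mem_cl_iff {c x : D n} {a : ℝ} (ha : 0 < a) (k : ℝ) :
    x ∈ Pos.cl (c, a * k) ↔ ‖a⁻¹ • (x - c)‖ ≤ k := by
  rw [Pos.cl, mem_closedBall, dist_eq_norm, norm_smul, norm_inv, Real.norm_of_nonneg ha.le,
    inv_mul_le_iff₀ ha]

theorem sc_mul (c x : D n) (a k : ℝ) (e : D n → Z) :
    sc (c, a * k) e x = e (k⁻¹ • a⁻¹ • (x - c)) := by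
  rw [sc, smul_smul, mul_inv, mul_comm]

theorem arr_sub {s : Finset I} {P P' : I → Pos n} (h : Arr s P)
    (h' : ∀ i ∈ s, 0 < (P' i).2 ∧ (P' i).op ⊆ (P i).op) : Arr s P' :=
  ⟨fun i hi => (h' i hi).1, fun i hi j hj e => (h.2 i hi j hj e).mono (h' i hi).2 (h' j hj).2⟩

open Classical in
theorem ins_in {b : D n → Z} {s : Finset I} {P P' : I → Pos n} {e : I → D n → Z} (h : Arr s P)
    (h' : ∀ i ∈ s, 0 < (P' i).2 ∧ (P' i).op ⊆ (P i).op) {i : I} (hi : i ∈ s) {x : D n}
    (hx : x ∈ (P i).op) :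
    ins b s P' e x = if x ∈ (P' i).op then sc (P' i) (e i) x else b x := by
  split_ifs with a
  · exact ins_of_mem (arr_sub h h') hi a
  · refine ins_of_not_mem fun j hj c => ?_
    by_cases d : i = j
    · exact a (d ▸ c)
    · exact Set.disjoint_left.1 (h.2 i hi j hj d) hx ((h' j hj).2 c)

theorem arr_one {P : Pos n} (hP : 0 < P.2) : Arr {()} fun _ => P :=
  ⟨fun _ _ => hP, fun _ _ _ _ e => (e rfl).elim⟩

open Classical in
theorem ins_one {b : D n → Z} {P : Pos n} (hP : 0 < P.2) (e : D n → Z) (x : D n) :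
    ins b {()} (fun _ => P) (fun _ => e) x = if x ∈ P.op then sc P e x else b x := by
  split_ifs with a
  · exact ins_of_mem (arr_one hP) (Finset.mem_singleton_self _) a
  · exact ins_of_not_mem fun _ _ => a

theorem mem_op_zero {x : D n} {k : ℝ} : x ∈ Pos.op ((0 : D n), k) ↔ ‖x‖ < k := mem_ball_zero_iff

theorem sc_zero (k : ℝ) (e : D n → Z) (x : D n) : sc ((0 : D n), k) e x = e (k⁻¹ • x) := by
  rw [sc, sub_zero]

/-- The position of the bubble of a cube. -/
noncomputable def bp (Q : DC n) : Pos n := (Q.core.c, Q.core.side)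

theorem bp_cl (Q : DC n) : (bp Q).cl ⊆ Q.op := Q.core_double_subset

theorem bp_op (Q : DC n) : (bp Q).op ⊆ Q.op := ball_subset_closedBall.trans (bp_cl Q)

theorem core_cl_bp (Q : DC n) : Q.core.cl ⊆ (bp Q).op :=
  closedBall_subset_ball (half_lt_self Q.core.side_pos)

theorem exists_min {L l w : ℝ} (hw : 0 < w) (h : l ≤ L * w) (s : Finset I) (r : I → ℝ)
    (hr : ∀ i ∈ s, 0 < r i ∧ l ≤ L * r i) :
    ∃ m, 0 < m ∧ l ≤ L * m ∧ m ≤ w ∧ ∀ i ∈ s, m ≤ r i := by
  classical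
  induction s using Finset.induction_on with
  | empty => exact ⟨w, hw, h, le_rfl, by simp⟩
  | insert a s _ ih =>
    obtain ⟨m, a1, a2, a3, a4⟩ := ih fun i hi => hr i (Finset.mem_insert_of_mem hi)
    obtain ⟨b1, b2⟩ := hr a (Finset.mem_insert_self _ _)
    refine ⟨min m (r a), lt_min a1 b1, ?_, (min_le_left _ _).trans a3, fun i hi => ?_⟩
    · rcases min_choice m (r a) with c | c <;> rw [c] <;> assumption
    · rcases Finset.mem_insert.1 hi with rfl | c
      · exact min_le_right _ _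
      · exact (min_le_left _ _).trans (a4 i c)

end Bubble

open Bubble

theorem teth_comp (f : Z → Z') (γ : ℝ → Z) (e : D n → Z) :
    (fun x => f (teth γ e x)) = teth (fun t => f (γ t)) fun x => f (e x) := by
  funext x
  unfold teth
  split_ifs <;> rfl
theorem range_teth (γ : ℝ → Z) (e : D n → Z) : range (teth γ e) ⊆ range γ ∪ range e := by
  rintro _ ⟨x, rfl⟩
  unfold teth
  split_ifs
  · exact .inr ⟨_, rfl⟩
  · exact .inl ⟨_, rfl⟩
theorem bubBg_comp (f : Z → Z') (b : D n → Z) (s : Finset I) (Q : I → DC n) (γ : I → ℝ → Z) :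
    (fun x => f (bubBg b s Q γ x)) = bubBg (fun x => f (b x)) s Q fun i t => f (γ i t) :=
  ins_comp f
theorem bubBg_of_not_mem (b : D n → Z) (s : Finset I) (Q : I → DC n) (γ : I → ℝ → Z) {x : D n}
    (hx : ∀ i ∈ s, x ∉ (Q i).op) : bubBg b s Q γ x = b x :=
  ins_of_not_mem fun i hi a => hx i hi (bp_op (Q i) a)

variable [MetricSpace Z]

theorem Bubble.path_c01 {p q : Z} {l : ℝ} {γ : ℝ → Z} (h : IsPath p q l γ) (t : ℝ) :
    γ (c01 t) = γ t := by
  rcases le_total t 0 with a | a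
  · rw [c01_of_le a, h.2.1 _ le_rfl, h.2.1 _ a]
  rcases le_total 1 t with b | b
  · rw [c01_of_ge b, h.2.2 _ le_rfl, h.2.2 _ b]
  · rw [c01, min_eq_right b, max_eq_right a]

theorem IsPath.symm {p q : Z} {l : ℝ} {γ : ℝ → Z} (h : IsPath p q l γ) :
    IsPath q p l fun t => γ (1 - t) :=
  ⟨fun a b => by simpa only [dist_sub_left] using h.1 (1 - a) (1 - b), fun t ht => h.2.2 _ (by linarith),
    fun t ht => h.2.1 _ (by linarith)⟩
theorem IsPath.mono {p q : Z} {l l' : ℝ} {γ : ℝ → Z} (h : IsPath p q l γ) (hl : l ≤ l') :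
    IsPath p q l' γ := ⟨h.1.mono hl, h.2⟩
theorem IsPath.dist_le {p q : Z} {l : ℝ} {γ : ℝ → Z} (h : IsPath p q l γ) (hl : 0 ≤ l) (t : ℝ) :
    dist (γ t) p ≤ l ∧ dist (γ t) q ≤ l := by
  obtain ⟨a, b⟩ := c01_mem t
  rw [← path_c01 h t, ← h.2.1 0 le_rfl, ← h.2.2 1 le_rfl]
  refine ⟨(h.1 _ _).trans (mul_le_of_le_one_right hl ?_),
    (h.1 _ _).trans (mul_le_of_le_one_right hl ?_)⟩ <;> rw [Real.dist_eq, abs_le] <;>
    constructor <;> linarith only [a, b]
theorem item_bump {p q : Z} {l : ℝ} {γ : ℝ → Z} (h : IsPath p q l γ) (hl : 0 ≤ l) :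
    Item p (2 * l) (bump γ : D n → Z) := by
  refine ⟨?_, fun x hx => h.2.1 _ (by linarith)⟩
  have := h.1.comp (lip_aff (n := n) 2 (-2)) hl
  rw [abs_neg, abs_two, mul_comm] at this
  convert this using 2
  unfold bump
  congr 1
  ring

theorem Bubble.teth_eq {p q : Z} {l l' : ℝ} {γ : ℝ → Z} {e : D n → Z} (h : IsPath p q l γ)
    (he : Item p l' e) (x : D n) :
    teth γ e x = if ‖x‖ < 1 / 2 then e ((2 : ℝ) • x) else γ (2 * ‖x‖ - 1) := by
  unfold teth
  split_ifs with a b b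
  · rfl
  · rw [h.2.1 _ (by linarith only [a]), he.2]
    rw [norm_smul, Real.norm_two]
    linarith only [b]
  · exact (a b.le).elim
  · rfl

theorem item_teth {p q : Z} {l : ℝ} {γ : ℝ → Z} {e : D n → Z} (h : IsPath p q l γ) (hl : 0 ≤ l)
    (he : Item p l e) : Item q (2 * l) (teth γ e) := by
  refine ⟨?_, fun x hx => ?_⟩
  · have hb : Lip (2 * l) fun x : D n => γ (2 * ‖x‖ - 1) := by
      have := h.1.comp (lip_aff (n := n) (-1) 2) hl
      rw [abs_two, mul_comm] at this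
      convert this using 3
      ring
    have h0 : γ (2 * ‖(0 : D n)‖ - 1) = p := h.2.1 _ (by simp)
    have hf : Fit (2 * l) (fun x : D n => γ (2 * ‖x‖ - 1)) {()} (fun _ => (0, 1 / 2))
        fun _ => e := by
      refine ⟨arr_one (by norm_num), fun _ _ => ?_, fun _ _ x hx => ?_⟩
      · simp only [h0]
        exact he.mono (by linarith only [])
      · simp only [h0]
        have : ‖x‖ ≤ 1 / 2 := mem_closedBall_zero_iff.1 hx
        exact h.2.1 _ (by linarith)
    convert hf.lip hb (by linarith) using 1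
    funext x
    rw [ins_one (by norm_num), teth_eq h he, sc_zero, one_div, inv_inv]
    simp only [mem_op_zero]
  · rw [teth_eq h he, if_neg (by linarith only [hx]), h.2.2 _ (by linarith)]

/-- The bubble in the unit ball. -/
theorem Bubble.unit_bump {p q : Z} {l : ℝ} {γ : ℝ → Z} (h : IsPath p q l γ) (hl : 0 ≤ l) :
    Hty (4 * l) 0 1 (ball 0 1) (fun _ => p) (bump γ : D n → Z) := by
  have l1 : Lip 2 fun x : D n => c01 (2 - 2 * ‖x‖) := by
    have := lip_c01.comp (lip_aff (n := n) 2 (-2)) zero_le_one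
    rw [one_mul, abs_neg, abs_two] at this
    convert this using 3
    ring
  have h1 := (Hty.segment (U := ball 0 1) (lip_const zero_le_two (0 : ℝ)) l1 zero_le_two one_pos
    (fun x => by
      obtain ⟨a, b⟩ := c01_mem (2 - 2 * ‖x‖)
      rw [Real.dist_eq, abs_le]
      constructor <;> linarith only [b, a])
    (fun x hx => by
      rw [mem_ball_zero_iff, not_lt] at hx
      exact c01_of_le (by linarith))).comp h.1 hl
  simp only [path_c01 h, h.2.1 0 le_rfl] at h1
  exact h1.mono (by linarith) (by simp) le_rfl subset_rfl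

/-- The item with its tether inside the bubble. -/
noncomputable def Bubble.full (γ : ℝ → Z) (e : D n → Z) (x : D n) : Z :=
  if ‖x‖ < 1 / 2 then teth γ e ((2 : ℝ) • x) else γ (2 - 2 * ‖x‖)

theorem Bubble.unit_full {p q : Z} {l : ℝ} {γ : ℝ → Z} {e : D n → Z} (h : IsPath p q l γ)
    (hl : 0 ≤ l) (he : Item p l e) :
    Hty (8 * l) 0 1 (ball 0 1) (sc (0, 1 / 4) e) (full γ e) := by
  have l1 : Lip 4 fun x : D n => c01 (min (4 * ‖x‖ - 1) (2 - 2 * ‖x‖)) := by
    have l2 : Lip 4 fun x : D n => min (4 * ‖x‖ - 1) (2 - 2 * ‖x‖) := fun x x' => by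
      have := abs_norm_sub_norm_le x x'
      rw [← dist_eq_norm, abs_le] at this
      have := dist_nonneg (x := x) (y := x')
      rw [Real.dist_eq]
      refine (abs_min_sub_min_le_max _ _ _ _).trans (max_le ?_ ?_) <;> rw [abs_le] <;>
        constructor <;> linarith
    simpa using lip_c01.comp l2 zero_le_one
  have h1 := (Hty.segment (U := {x : D n | 1 / 4 ≤ ‖x‖ ∧ ‖x‖ < 1})
    (lip_const (by norm_num : (0 : ℝ) ≤ 4) (0 : ℝ)) l1 (by norm_num) one_pos
    (fun x => by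
      obtain ⟨a, b⟩ := c01_mem (min (4 * ‖x‖ - 1) (2 - 2 * ‖x‖))
      rw [Real.dist_eq, abs_le]
      constructor <;> linarith only [b, a])
    (fun x hx => by
      refine c01_of_le ?_
      by_cases a : 1 / 4 ≤ ‖x‖
      · have : 1 ≤ ‖x‖ := not_lt.1 fun b => hx ⟨a, b⟩
        exact (min_le_right _ _).trans (by linarith only [this])
      · exact (min_le_left _ _).trans (by linarith only [a, not_le.1 a]))).comp h.1 hl
  simp only [path_c01 h, h.2.1 0 le_rfl] at h1
  have hf : Fit (8 * l) (fun _ : D n => p) {()} (fun _ => (0, 1 / 4)) fun _ => e :=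
    ⟨arr_one (by norm_num), fun _ _ => he.mono (by simp only; linarith only [hl]), fun _ _ _ _ => rfl⟩
  have h2 := ((h1.mono (L' := 8 * l) (κ' := 0) (by linarith) (by simp) le_rfl subset_rfl).insert
    (by linarith) hf fun _ _ => Set.disjoint_left.2 fun x a b =>
      absurd (mem_op_zero.1 a) (not_lt.2 b.1)).1
  rw [ins_singleton_const (by norm_num) he] at h2
  convert h2.mono le_rfl le_rfl le_rfl fun x hx => mem_ball_zero_iff.2 hx.2 using 1
  funext x
  rw [ins_one (by norm_num), full, teth_eq h he, norm_smul, Real.norm_two, sc_zero, smul_smul]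
  simp only [mem_op_zero]
  by_cases a : ‖x‖ < 1 / 4
  · rw [if_pos a, if_pos (by linarith only [a]), if_pos (by linarith only [a])]
    norm_num
  rw [if_neg a]
  by_cases b : ‖x‖ < 1 / 2
  · rw [if_pos b, if_neg (by linarith only [a]), min_eq_left (by linarith only [b])]
    congr 1
    ring
  · rw [if_neg b, min_eq_right (by linarith only [b])]

theorem Bubble.bg_core {b : D n → Z} {s : Finset I} {Q : I → DC n} {p q : I → Z} {l : I → ℝ}
    {γ : I → ℝ → Z} (ha : Arr s fun i => (Q i).pos) (hγ : ∀ i ∈ s, IsPath (p i) (q i) (l i) (γ i))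
    {i : I} (hi : i ∈ s) {x : D n} (hx : x ∈ (Q i).core.cl) : bubBg b s Q γ x = q i := by
  have hB : Arr s fun i => bp (Q i) := arr_sub ha fun i _ => ⟨(Q i).core.side_pos, bp_op _⟩
  have : ‖(Q i).core.side⁻¹ • (x - (Q i).core.c)‖ ≤ 1 / 2 := by
    rw [← mem_cl_iff (Q i).core.side_pos, mul_one_div]
    exact hx
  exact (ins_of_mem hB hi (core_cl_bp _ hx)).trans ((hγ i hi).2.2 _ (by
    change 1 ≤ 2 - 2 * ‖(Q i).core.side⁻¹ • (x - (Q i).core.c)‖
    linarith only [this]))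

/-- Blowing bubbles: the items are rebased along the paths `γ i` and move to the cores. -/
theorem bubble (hn : 1 ≤ n) {L T : ℝ} (hL : 0 ≤ L) (hT : 0 < T) {b : D n → Z} (hb : Lip L b)
    (s : Finset I) (Q : I → DC n) (e : I → D n → Z) (q : I → Z) (γ : I → ℝ → Z)
    (hf : Fit L b s (fun i => (Q i).pos) e) (hQ : ∀ i ∈ s, (Q i).side ≤ T)
    (hγ : ∀ i ∈ s, IsPath (b (Q i).c) (q i) (L * (Q i).side) (γ i)) :
    Lip (100 * L) (bubBg b s Q γ) ∧
    (∀ i ∈ s, ∀ x ∈ (Q i).core.cl, bubBg b s Q γ x = q i) ∧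
    Hty (100 * L) 0 T (⋃ i ∈ s, (Q i).op) b (bubBg b s Q γ) ∧
    Fit (100 * L) (bubBg b s Q γ) s (fun i => (Q i).core.pos) (fun i => teth (γ i) (e i)) ∧
    Hty (100 * L) 0 T (⋃ i ∈ s, (Q i).op) (ins b s (fun i => (Q i).pos) e)
      (ins (bubBg b s Q γ) s (fun i => (Q i).core.pos) fun i => teth (γ i) (e i)) := by
  have sp : ∀ i, 0 < (Q i).side := fun i => (Q i).side_pos
  have l0 : ∀ i, 0 ≤ L * (Q i).side := fun i => mul_nonneg hL (sp i).le
  have cs : ∀ i, (Q i).core.side = (Q i).side / 4 := fun i => (Q i).core_side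
  have hB : Arr s fun i => bp (Q i) := arr_sub hf.arr fun i _ => ⟨(Q i).core.side_pos, bp_op _⟩
  have fl : ∀ i ∈ s, ∀ x ∈ (bp (Q i)).cl, b x = b (Q i).c := fun i hi x hx =>
    hf.flat i hi x ((Q i).op_subset_cl (bp_cl _ hx))
  have fc : ∀ i ∈ s, b (Q i).core.c = b (Q i).c := fun i hi =>
    fl i hi _ (mem_closedBall_self (Q i).core.side_pos.le)
  have he : ∀ i ∈ s, Item (b (Q i).c) (L * (Q i).side) (e i) := fun i hi =>
    (hf.item i hi).mono (mul_le_mul_of_nonneg_left (half_le_self (sp i).le) hL)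
  have fit : ∀ f : I → D n → Z, (∀ i ∈ s, Item (b (Q i).c) (8 * (L * (Q i).side)) (f i)) →
      Fit (32 * L) b s (fun i => bp (Q i)) f := fun f h =>
    ⟨hB, fun i hi => by
      have := h i hi
      rw [← fc i hi] at this
      exact this.mono (by simp only [bp, cs]; linarith only []),
      fun i hi x hx => (fl i hi x hx).trans (fc i hi).symm⟩
  have hb' : Lip (32 * L) b := hb.mono (by linarith)
  have un : (⋃ i ∈ s, (bp (Q i)).op) ⊆ ⋃ i ∈ s, (Q i).op := iUnion₂_mono fun i _ => bp_op _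
  have h3 : Hty (100 * L) 0 T (⋃ i ∈ s, (Q i).op) b (bubBg b s Q γ) := by
    have := Hty.items (T := T) hb' (by linarith only [hL]) le_rfl (fit (fun i _ => b (Q i).c) fun i hi =>
      ⟨lip_const (by linarith [l0 i]) _, fun _ _ => rfl⟩) (fun _ => 1)
      (fun i hi => by simp only [bp, cs]; linarith only [hT, hQ, hi, hQ i hi, sp i])
      fun i hi => (unit_bump (hγ i hi) (l0 i)).mono (by simp only [bp, cs]; linarith only [l0, l0 i])
        le_rfl le_rfl subset_rfl
    rw [ins_trivial hB fun i hi x hx _ => (fl i hi x (ball_subset_closedBall hx)).symm] at this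
    exact this.mono (by linarith) (by simp) le_rfl un
  have h2 : ∀ i ∈ s, ∀ x ∈ (Q i).core.cl, bubBg b s Q γ x = q i := fun i hi x hx =>
    bg_core hf.arr hγ hi hx
  have hc : ∀ i ∈ s, 0 < (Q i).core.pos.2 ∧ (Q i).core.pos.op ⊆ (bp (Q i)).op := fun i _ =>
    ⟨half_pos (Q i).core.side_pos, (Q i).core.op_subset_cl.trans (core_cl_bp _)⟩
  have cc : ∀ i, (Q i).core.c ∈ (Q i).core.cl := fun i => (Q i).core.op_subset_cl (Q i).core.c_mem_op
  refine ⟨h3.lip_right, h2, h3, ⟨arr_sub hB hc, fun i hi => ?_, fun i hi x hx => ?_⟩, ?_⟩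
  · simp only [DC.pos_fst, DC.pos_snd, h2 i hi _ (cc i), cs]
    exact (item_teth (hγ i hi) (l0 i) (he i hi)).mono (by linarith only [l0, l0 i])
  · exact (h2 i hi x hx).trans (h2 i hi _ (cc i)).symm
  have h4 : ∀ i ∈ s, 0 < ((Q i).core.c, (Q i).core.side * (1 / 4)).2 ∧
      Pos.op ((Q i).core.c, (Q i).core.side * (1 / 4)) ⊆ (bp (Q i)).op := fun i _ =>
    ⟨by simp only [cs]; linarith only [sp, sp i], ball_subset_ball (by simp only [bp, cs]; linarith only [sp, sp i])⟩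
  have f4 : Fit (8 * L) b s (fun i => ((Q i).core.c, (Q i).core.side * (1 / 4))) e :=
    ⟨arr_sub hB h4, fun i hi => by
      simp only [fc i hi, cs]
      exact (hf.item i hi).mono (by simp only [DC.pos_snd]; linarith only []),
      fun i hi x hx => (fl i hi x (closedBall_subset_closedBall
        (by simp only [bp, cs]; linarith only [sp, sp i]) hx)).trans (fc i hi).symm⟩
  have m1 := Hty.move (T := T / 2) hn (hb.mono (by linarith : L ≤ 8 * L)) (by linarith)
    (fun i => (Q i).pos) hf.arr hf.flat (half_pos hT)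
    (fun i hi => by simp only [DC.pos_snd]; linarith only [hQ, hi, hQ i hi]) (hf.mono (by linarith)) f4
    fun i hi => ⟨subset_rfl, (h4 i hi).2.trans (bp_op _)⟩
  have m2 := Hty.items (T := T / 2) hb' (by linarith) le_rfl
    (fit (fun i => sc (0, 1 / 4) (e i)) fun i hi =>
      ⟨(unit_full (hγ i hi) (l0 i) (he i hi)).lip_left, fun x hx =>
        (he i hi).sc_eq _ (by norm_num) fun a => by linarith only [hx, a, mem_op_zero.1 a]⟩) (fun _ => 1)
    (fun i hi => by simp only [bp, cs]; linarith only [hT, hQ, hi, hQ i hi, sp i])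
    fun i hi => (unit_full (hγ i hi) (l0 i) (he i hi)).mono
      (by simp only [bp, cs]; linarith only [l0 i]) le_rfl le_rfl subset_rfl
  have e1 : ins b s (fun i => ((Q i).core.c, (Q i).core.side * (1 / 4))) e
      = ins b s (fun i => bp (Q i)) fun i => sc (0, 1 / 4) (e i) := by
    funext x
    by_cases a : ∃ i ∈ s, x ∈ (bp (Q i)).op
    · obtain ⟨i, hi, a⟩ := a
      rw [ins_in hB h4 hi a, ins_of_mem hB hi a]
      have : sc (bp (Q i)) (sc (0, 1 / 4) (e i)) x
          = sc ((Q i).core.c, (Q i).core.side * (1 / 4)) (e i) x := by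
        rw [sc_mul, sc, sc_zero, bp]
      rw [this]
      split_ifs with c
      · rfl
      · rw [(he i hi).sc_eq _ (h4 i hi).1 c, fl i hi x (ball_subset_closedBall a)]
    · push Not at a
      rw [ins_of_not_mem a, ins_of_not_mem fun i hi c => a i hi ((h4 i hi).2 c)]
  have e2 : ins b s (fun i => bp (Q i)) (fun i => full (γ i) (e i))
      = ins (bubBg b s Q γ) s (fun i => (Q i).core.pos) fun i => teth (γ i) (e i) := by
    funext x
    by_cases a : ∃ i ∈ s, x ∈ (bp (Q i)).op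
    · obtain ⟨i, hi, a⟩ := a
      have p1 : (Q i).core.pos = ((Q i).core.c, (Q i).core.side * (1 / 2)) := by
        rw [mul_one_div]; rfl
      have p2 : bubBg b s Q γ x = sc (bp (Q i)) (bump (γ i)) x := ins_of_mem hB hi a
      rw [ins_in hB hc hi a, ins_of_mem hB hi a, p1, sc_mul, p2, one_div, inv_inv]
      simp only [mem_op_iff (Q i).core.side_pos]
      rw [sc, full, one_div]
      congr
    · push Not at a
      rw [ins_of_not_mem a, ins_of_not_mem fun i hi c => a i hi ((hc i hi).2 c)]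
      exact (ins_of_not_mem a).symm
  rw [← e1, e2] at m2
  exact ((m1.mono (L' := 100 * L) (by linarith only [hL]) le_rfl le_rfl subset_rfl).trans
    (m2.mono (by linarith only [hL]) le_rfl le_rfl un) (by linarith) (half_pos hT).le (half_pos hT).le).mono
    le_rfl (by simp) (by linarith only []) subset_rfl

/-- The position of an untethered item inside its slot. -/
noncomputable def Bubble.hp (Q : DC n) : Pos n := (Q.c, Q.side / 2 * (1 / 2))

theorem Bubble.hp_sub (Q : DC n) : 0 < (hp Q).2 ∧ (hp Q).op ⊆ Q.pos.op :=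
  ⟨by simp only [hp]; linarith only [Q.side_pos],
    ball_subset_ball (by simp only [hp, DC.pos_snd]; linarith only [Q.side_pos])⟩

theorem Bubble.prof0 {s : Finset I} {S : I → DC n} (hA : Arr s fun i => (S i).pos) {i : I}
    (hi : i ∈ s) {x : D n} (hx : x ∈ (hp (S i)).cl) :
    ins (fun _ => (1 : ℝ)) s (fun i => (S i).pos) (fun _ => rho) x = 0 := by
  have sp := (S i).side_pos
  rw [ins_of_mem hA hi (closedBall_subset_ball (by simp only [hp, DC.pos_snd]; linarith only [sp]) hx)]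
  have := (mem_cl_iff (half_pos sp) _).1 hx
  exact c01_of_le (by simp only [DC.pos_fst, DC.pos_snd]; linarith only [this])

theorem Bubble.prof1 {W : DC n} {x : D n} (hx : x ∈ W.core.cl) : sc (bp W) rho x = 0 := by
  have : ‖W.core.side⁻¹ • (x - W.core.c)‖ ≤ 1 / 2 := by
    rw [← mem_cl_iff W.core.side_pos, mul_one_div]
    exact hx
  exact c01_of_le (by simp only [bp]; linarith only [this])

/-- The homotopy of the profiles. -/
theorem Bubble.prof (W : DC n) (s : Finset I) (S : I → DC n) (hS : Pack W.core s S) {m : ℝ}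
    (m0 : 0 < m) (mw : m ≤ W.side) (ms : ∀ i ∈ s, m ≤ (S i).side) :
    Hty (16 / m) 0 (W.side / 4) (W.op \ ⋃ i ∈ s, (hp (S i)).op)
      (ins (fun _ => (1 : ℝ)) s (fun i => (S i).pos) fun _ => rho) (sc (bp W) rho) := by
  have hA := hS.arr
  have k0 : 0 ≤ 8 / m := by positivity
  have k1 : ∀ a, m ≤ a → 8 ≤ 8 / m * a := fun a h => by
    rw [div_mul_eq_mul_div, le_div_iff₀ m0]
    linarith only [h]
  have L0 : Lip (8 / m) (ins (fun _ => (1 : ℝ)) s (fun i => (S i).pos) fun _ => rho) :=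
    Fit.lip ⟨hA, fun i hi => item_rho.mono (by
      simp only [DC.pos_snd]
      linarith only [k1, ms, hi, k1 _ (ms i hi)]), fun _ _ _ _ => rfl⟩ (lip_const k0 _) k0
  have L1 : Lip (8 / m) (sc (bp W) rho) := Item.lip_sc _ W.core.side_pos (item_rho.mono (by
    simp only [bp, W.core_side]
    linarith only [k1, mw, k1 _ mw]))
  have r0 : ∀ x, 0 ≤ ins (fun _ => (1 : ℝ)) s (fun i => (S i).pos) (fun _ => rho) x ∧
      ins (fun _ => (1 : ℝ)) s (fun i => (S i).pos) (fun _ => rho) x ≤ 1 := fun x => by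
    rw [ins]
    split_ifs
    · exact c01_mem _
    · exact ⟨zero_le_one, le_rfl⟩
  refine (Hty.segment L0 L1 k0 (by linarith only [m0, mw, W.side_pos]) (fun x => ?_) fun x hx => ?_).mono
    (le_of_eq (by ring)) le_rfl le_rfl subset_rfl
  · obtain ⟨a, b⟩ := r0 x
    obtain ⟨c, d⟩ : 0 ≤ sc (bp W) rho x ∧ sc (bp W) rho x ≤ 1 := c01_mem _
    have := k1 _ mw
    rw [Real.dist_eq, abs_le]
    constructor <;> linarith only [a, d, this, b, c]
  · by_cases a : x ∈ W.op
    · obtain ⟨i, hi, c⟩ := mem_iUnion₂.1 (not_not.1 fun b => hx ⟨a, b⟩)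
      rw [prof0 hA hi (ball_subset_closedBall c),
        prof1 (W.core.op_subset_cl (hS.1 i hi ((hp_sub _).2 c)))]
    · have d : ∀ i ∈ s, x ∉ (S i).pos.op := fun i hi c => a (W.core_sub (hS.1 i hi c))
      rw [ins_of_not_mem d]
      exact item_rho.sc_eq _ W.core.side_pos fun c => a (bp_op W c)

theorem Bubble.teth_ins {v y : Z} {l : ℝ} {γ : ℝ → Z} (hγ : IsPath v y l γ) {s : Finset I}
    {S : I → DC n} {e : I → D n → Z} {k : I → ℝ} (hA : Arr s fun i => (S i).pos)
    (he : ∀ i ∈ s, Item v (k i) (e i)) :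
    ins (fun x => γ (ins (fun _ => (1 : ℝ)) s (fun i => (S i).pos) (fun _ => rho) x)) s
      (fun i => hp (S i)) e = ins (fun _ => y) s (fun i => (S i).pos) fun i => teth γ (e i) := by
  funext x
  by_cases a : ∃ i ∈ s, x ∈ (S i).pos.op
  · obtain ⟨i, hi, a⟩ := a
    rw [ins_in hA (fun i _ => hp_sub _) hi a, ins_of_mem hA hi a, ins_of_mem hA hi a, hp, sc_mul,
      sc, sc, teth_eq hγ (he i hi), rho, path_c01 hγ]
    simp only [mem_op_iff (half_pos (S i).side_pos), DC.pos_fst, DC.pos_snd, one_div, inv_inv]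
  · push Not at a
    rw [ins_of_not_mem a, ins_of_not_mem fun i hi c => a i hi ((hp_sub _).2 c),
      ins_of_not_mem a, hγ.2.2 1 le_rfl]

theorem Bubble.bg_one {v y : Z} {l : ℝ} {γ : ℝ → Z} (hγ : IsPath v y l γ) (W : DC n) :
    (fun x => γ (sc (bp W) rho x)) = bubBg (fun _ => y) {()} (fun _ => W) fun _ t => γ (1 - t) := by
  funext x
  refine Eq.trans ?_ (ins_one (P := bp W) W.core.side_pos (bump fun t => γ (1 - t)) x).symm
  split_ifs with a
  · rw [sc, sc, rho, path_c01 hγ, bump]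
    congr 1
    ring
  · rw [item_rho.sc_eq _ W.core.side_pos a, hγ.2.2 1 le_rfl]

/-- Merging tethers: items with individual tethers along the same path `γ` from `v` to `y`, in
slots `S i` of the core of `W`, are homotopic to the untethered items inside one bubble. -/
theorem merge_teth (hn : 1 ≤ n) {L : ℝ} (hL : 0 ≤ L) {v y : Z} {l : ℝ} {γ : ℝ → Z}
    (hγ : IsPath v y l γ) (W : DC n) (s : Finset I) (S R : I → DC n) (e : I → D n → Z)
    (hS : Pack W.core s S) (hR : ∀ i ∈ s, (R i).Sub (S i)) (hl0 : 0 ≤ l)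
    (hW : l ≤ L * W.side) (hl : ∀ i ∈ s, l ≤ L * (R i).side)
    (he : ∀ i ∈ s, Item v (L * (R i).side) (e i)) :
    Hty (100 * L) 0 W.side W.op
      (ins (fun _ => y) s (fun i => (R i).pos) fun i => teth γ (e i))
      (ins (bubBg (fun _ => y) {()} (fun _ => W) fun _ t => γ (1 - t)) s
        (fun i => (S i).pos) e) := by
  have hw := W.side_pos
  have sp : ∀ i, 0 < (S i).side := fun i => (S i).side_pos
  have rp : ∀ i, 0 < (R i).side := fun i => (R i).side_pos
  have rs : ∀ i ∈ s, (R i).side ≤ (S i).side := fun i hi => (hR i hi).side_le hn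
  have ls : ∀ i ∈ s, L * (R i).side ≤ L * (S i).side := fun i hi =>
    mul_le_mul_of_nonneg_left (rs i hi) hL
  have l0 : ∀ i, 0 ≤ L * (R i).side := fun i => mul_nonneg hL (rp i).le
  have sw : ∀ i ∈ s, (S i).pos.2 ≤ W.side / 4 := fun i hi =>
    (half_le_self (sp i).le).trans (W.core_side ▸ (hS.1 i hi).side_le hn)
  have hA := hS.arr
  have un : (⋃ i ∈ s, (S i).pos.op) ⊆ W.op :=
    iUnion₂_subset fun i hi => (hS.1 i hi).trans W.core_sub
  obtain ⟨m, m0, ml, mw, mr⟩ := exists_min hw hW s (fun i => (R i).side) fun i hi => ⟨rp i, hl i hi⟩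
  have ti : ∀ i ∈ s, Item y (2 * (L * (R i).side)) (teth γ (e i)) := fun i hi =>
    item_teth (hγ.mono (hl i hi)) (l0 i) (he i hi)
  have w4 : 0 < W.side / 4 := by linarith only [hw]
  have m1 := Hty.move (P := fun i => (R i).pos) (P' := fun i => (S i).pos)
    (e := fun i => teth γ (e i)) hn (lip_const (by linarith only [hL] : 0 ≤ 4 * L) y) (by linarith only [hL])
    (fun i => (S i).pos) hA (fun _ _ _ _ => rfl) w4 sw
    ⟨arr_sub hA fun i hi => ⟨half_pos (rp i), hR i hi⟩, fun i hi => (ti i hi).mono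
      (by simp only [DC.pos_snd]; linarith only []), fun _ _ _ _ => rfl⟩
    ⟨hA, fun i hi => (ti i hi).mono (by simp only [DC.pos_snd]; linarith only [ls, hi, ls i hi]),
      fun _ _ _ _ => rfl⟩ fun i hi => ⟨hR i hi, subset_rfl⟩
  have kL : l * (16 / m) ≤ 16 * L := by
    rw [← mul_div_assoc, div_le_iff₀ m0]
    linarith only [ml]
  have g1 := ((prof W s S hS m0 mw fun i hi => (mr i hi).trans (rs i hi)).comp hγ.1 hl0).mono
    (κ' := 0) kL (by simp) le_rfl subset_rfl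
  have v0 : γ 0 = v := hγ.2.1 0 le_rfl
  have f0 : Fit (16 * L)
      (fun x => γ (ins (fun _ => (1 : ℝ)) s (fun i => (S i).pos) (fun _ => rho) x)) s
      (fun i => hp (S i)) e := by
    have zc := fun i (hi : i ∈ s) => prof0 hA hi (mem_closedBall_self (hp_sub (S i)).1.le)
    refine ⟨arr_sub hA fun i _ => hp_sub _, fun i hi => ?_, fun i hi x hx => ?_⟩
    · simp only [zc i hi, v0]
      exact (he i hi).mono (by simp only [hp]; linarith only [ls, hi, l0, ls i hi, l0 i])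
    · simp only [zc i hi, prof0 hA hi hx]
  obtain ⟨m2, f1⟩ := g1.insert (by linarith only [hL]) f0 fun i hi =>
    Set.disjoint_left.2 fun x a b => b.2 (mem_iUnion₂.2 ⟨i, hi, a⟩)
  have zc : ∀ i ∈ s, sc (bp W) rho (S i).c = 0 := fun i hi =>
    prof1 (W.core.op_subset_cl (hS.1 i hi (S i).c_mem_op))
  have fl : ∀ i ∈ s, ∀ x ∈ (S i).pos.cl, γ (sc (bp W) rho x) = γ (sc (bp W) rho (S i).pos.1) :=
    fun i hi x hx => by rw [prof1 ((hS.1 i hi).cl_subset hx), DC.pos_fst, zc i hi]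
  have m3 := Hty.move (P' := fun i => (S i).pos) hn g1.lip_right (by linarith only [hL])
    (fun i => (S i).pos) hA fl w4 sw f1
    ⟨hA, fun i hi => by
      simp only [DC.pos_fst, DC.pos_snd, zc i hi, v0]
      exact (he i hi).mono (by linarith only [ls, hi, l0, ls i hi, l0 i]), fl⟩
    fun i hi => ⟨(hp_sub _).2, subset_rfl⟩
  rw [teth_ins hγ hA he] at m2
  rw [bg_one hγ] at m2 m3
  exact (((m1.mono (L' := 100 * L) (by linarith only [hL]) le_rfl le_rfl un).trans
    (m2.mono (by linarith only [hL]) le_rfl le_rfl sdiff_subset) (by linarith only [hL]) w4.le w4.le).trans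
    (m3.mono (by linarith only [hL]) le_rfl le_rfl un) (by linarith only [hL]) (by linarith only [hw]) w4.le).mono
    le_rfl (by simp) (by linarith only [hw]) subset_rfl

end Pool.Agent.Work.MP_4b5e6c_gt
end

-- merged part: Pool.Agent.Work.MP_4b5e6c_gt.ChainY
section
/-! Task CHAINY: the chain of a map into the skeleton. -/

namespace Pool.Agent.Work.MP_4b5e6c_gt
open Metric Set

variable {n : ℕ}

namespace ChainY

theorem cpt_comp {Z Z' : Type} {y : Z} {f : D n → Z} (h : Cpt y f) (g : Z → Z') :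
    Cpt (g y) fun x => g (f x) :=
  h.imp fun _ a x b => congrArg g (a x b)

theorem eps_pos : (0 : ℝ) < 1 / (2 * ((n : ℝ) + 1)) := by positivity

end ChainY

section DegY
variable {α α' I : Type} {φ : List α → ℤ}

/-- Any selection of heavy vertices computes the chain. -/
theorem degY_eq_deg (hn : 2 ≤ n) (h : Alt φ) {f : D n → Ys n α} {L : ℝ} (hf : Lip L f)
    {y : Ys n α} (hy : Cpt y f) {l : D n → α} {a : α} (hl : Cpt a l) {c : ℝ} (hc : 0 < c)
    (hw : ∀ x, c ≤ (f x).wt (l x)) : degY φ f = deg φ l := by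
  have hL : 0 < |L| + 1 := by positivity
  have hc' : 0 < min c (1 / ((n : ℝ) + 1)) := lt_min hc (by positivity)
  refine deg_congr hn h (ChainY.cpt_comp hy sel) hl
    (r := min c (1 / ((n : ℝ) + 1)) / (2 * (|L| + 1))) (by positivity) fun z _ =>
    ⟨(f z).supp, (f z).card_supp, fun p _ hp => ?_⟩
  have e : dist (f p) (f z) < min c (1 / ((n : ℝ) + 1)) := by
    have h1 := hf.mono ((le_abs_self L).trans (le_add_of_nonneg_right zero_le_one)) p z
    have h2 := mul_le_mul_of_nonneg_left hp hL.le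
    have h3 : (|L| + 1) * (min c (1 / ((n : ℝ) + 1)) / (2 * (|L| + 1))) =
        min c (1 / ((n : ℝ) + 1)) / 2 := by field_simp
    linarith only [hc', h1, h2, h3]
  exact ⟨mem_supp_of_wt (e.trans_le ((min_le_right _ _).trans (wt_sel _))),
    mem_supp_of_wt (e.trans_le ((min_le_left _ _).trans (hw p)))⟩
/-- The same on a single grid that is fine enough. -/
theorem degY_eq_pair (hn : 2 ≤ n) (h : Alt φ) {f : D n → Ys n α} {L : ℝ} (hL : 0 ≤ L)
    (hf : Lip L f) {y : Ys n α} (hy : Cpt y f) {m : ℕ} {l : (Fin n → ℤ) → α} (hl : GB l) {c : ℝ}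
    (hc : c ≤ 1 / ((n : ℝ) + 1)) (hm : 2 * L / 2 ^ m < c)
    (hw : ∀ k, c ≤ (f (grid m k)).wt (l k)) : degY φ f = pair φ l := by
  have key : ∀ p z, dist p z ≤ 2 / 2 ^ m → dist (f p) (f z) < c := fun p z hp => by
    have h1 := hf p z
    have h2 := mul_le_mul_of_nonneg_left hp hL
    have h3 : L * (2 / 2 ^ m) = 2 * L / 2 ^ m := by ring
    linarith only [hm, h1, h2, h3]
  have hs := ChainY.cpt_comp hy sel
  unfold degY
  rw [deg_eq_pair hn h hs (r := 2 / 2 ^ m) (m := m) (fun z _ => ⟨(f z).supp, (f z).card_supp,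
    fun p _ hp => mem_supp_of_wt ((key p z hp).trans_le (hc.trans (wt_sel _)))⟩) le_rfl]
  refine pair_eq_of_prism hn h (hs.gb m) hl fun k π =>
    ⟨(f (grid m k)).supp, Ys.card_supp _, fun i => ?_⟩
  have e := key _ _ ((dist_grid_kv m k π i).trans
    (div_le_div_of_nonneg_right one_le_two (by positivity)))
  exact ⟨mem_supp_of_wt (e.trans_le (hc.trans (wt_sel _))), mem_supp_of_wt (e.trans_le (hw _))⟩
theorem degY_mapY (hn : 2 ≤ n) {φ : List α' → ℤ} (h : Alt φ) (ρ : α → α') {f : D n → Ys n α}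
    {L : ℝ} (hf : Lip L f) {y : Ys n α} (hy : Cpt y f) :
    degY φ (fun x => mapY ρ (f x)) = degY (fun l => φ (l.map ρ)) f := by
  rw [degY_eq_deg hn h ((lip_mapY ρ).comp hf zero_le_one) (ChainY.cpt_comp hy (mapY ρ))
    (ChainY.cpt_comp hy fun β => ρ (sel β)) (c := 1 / ((n : ℝ) + 1)) (by positivity)
    fun x => (wt_sel _).trans (wt_le_wt_mapY ρ _ _)]
  exact deg_map φ ρ fun x => sel (f x)
theorem degY_hty (hn : 2 ≤ n) (h : Alt φ) {f f' : D n → Ys n α} {L T : ℝ} {U : Set (D n)}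
    (hH : Hty L 0 T U f f') (hU : Bornology.IsBounded U) {y : Ys n α} (hy : Cpt y f) :
    degY φ f = degY φ f' := by
  obtain ⟨H, h1, h2, h3, h4⟩ := hH
  obtain ⟨R, hR⟩ := hy
  obtain ⟨R', hR'⟩ := hU.subset_ball 0
  have e := deg_hty hn h ChainY.eps_pos (adm_sel univ) (lip_iff_aLip.2 h1) (subset_univ _)
    (R := max R R') (y := y) (fun x t hx => by
      rw [h4 x t fun a => ?_, hR x ((le_max_left _ _).trans hx)]
      exact (mem_ball_zero_iff.1 (hR' a)).not_ge ((le_max_right _ _).trans hx)) 0 T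
  simp only [h2 _ 0 le_rfl, h3 _ T le_rfl] at e
  exact e
theorem degY_ins (hn : 2 ≤ n) (h : Alt φ) {L : ℝ} (hL : 0 ≤ L) {y : Ys n α} {b : D n → Ys n α}
    (hb : Lip L b) (hy : Cpt y b) {s : Finset I} {P : I → Pos n} {e : I → D n → Ys n α}
    (hf : Fit L b s P e) : degY φ (ins b s P e) = degY φ b + ∑ i ∈ s, degY φ (e i) :=
  deg_ins hn h ChainY.eps_pos (adm_sel univ) hL hb hy hf (subset_univ _) fun _ _ => subset_univ _
theorem degY_sc (hn : 2 ≤ n) (h : Alt φ) {L : ℝ} {y : Ys n α} {e : D n → Ys n α} (he : Lip L e)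
    (hy : Cpt y e) (P : Pos n) (hP : 0 < P.2) : degY φ (sc P e) = degY φ e :=
  deg_sc hn h ChainY.eps_pos (adm_sel univ) he hy (subset_univ _) P hP

end DegY

end Pool.Agent.Work.MP_4b5e6c_gt
end

-- merged part: Pool.Agent.Work.MP_4b5e6c_gt.NiceB
section
/-! Task NICEB: basic properties of nice maps. -/

namespace Pool.Agent.Work.MP_4b5e6c_gt
open Metric Set

variable {n : ℕ} {X : Type} [MetricSpace X]

theorem Nice.mono {C0 : DC n} {y : X} {h : D n → X} {σ : D n → ℝ} {A A' : ℝ} {f : D n → Ys n X}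
    (hf : Nice C0 y h σ A f) (hσ : ∀ x, 0 ≤ σ x) (hA : A ≤ A') : Nice C0 y h σ A' f :=
  ⟨hf.out, fun x x' => (hf.lip x x').trans (mul_le_mul_of_nonneg_right hA dist_nonneg),
    fun x p hp => (hf.near x p hp).trans (mul_le_mul_of_nonneg_right hA (hσ x)), hf.wall, hf.null⟩

/-- A globally valid Lipschitz constant in the skeleton. -/
theorem Nice.exists_lip {C0 : DC n} {y : X} {h : D n → X} {σ : D n → ℝ} {A : ℝ}
    {f : D n → Ys n X} (hf : Nice C0 y h σ A f) (hσ : Scale C0 σ) :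
    ∃ L, 0 ≤ L ∧ Lip L f := by
  obtain ⟨κ, hκ, hk⟩ := hσ.pos
  refine ⟨|A| / κ, by positivity, fun x x' => ?_⟩
  rw [div_mul_eq_mul_div, le_div_iff₀ hκ]
  exact (mul_le_mul_of_nonneg_left (hk x) dist_nonneg).trans
    ((hf.lip x x').trans (mul_le_mul_of_nonneg_right (le_abs_self A) dist_nonneg))

/-- The realization of a nice map is Lipschitz and close to `h`. -/
theorem Nice.lip_real (R : Rz n X) {C0 : DC n} {y : X} {h : D n → X} {σ : D n → ℝ} {A : ℝ}
    (hA : 1 ≤ A) {f : D n → Ys n X} (hf : Nice C0 y h σ A f) (hh : Lip 1 h)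
    (hσ : Lip (1 / 8) σ) (hσ0 : ∀ x, 0 < σ x) :
    Lip (10 * R.C * A ^ 2) (fun x => R.ι (f x)) ∧
      ∀ x, dist (R.ι (f x)) (h x) ≤ 2 * R.C * A * σ x := by
  have hC := R.one_le
  have close : ∀ x, dist (R.ι (f x)) (h x) ≤ 2 * R.C * A * σ x := fun x => by
    have := R.dist_le (f x) (h x) (hf.near x)
    linarith
  refine ⟨fun x x' => ?_, close⟩
  have hd : 0 ≤ dist x x' := dist_nonneg
  have h1 : σ x' ≤ σ x + dist x x' / 8 := by
    have := hσ x x'
    rw [Real.dist_eq] at this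
    have := neg_abs_le (σ x - σ x')
    linarith
  have h2 : dist (h x) (h x') ≤ dist x x' := by simpa using hh x x'
  have h3 := hσ0 x
  have hCA : 1 ≤ R.C * A := one_le_mul_of_one_le_of_one_le hC hA
  have hAA : R.C * A * dist x x' ≤ R.C * A ^ 2 * dist x x' := by
    have : R.C * A * 1 ≤ R.C * A * A := mul_le_mul_of_nonneg_left hA (by linarith)
    exact mul_le_mul_of_nonneg_right (by linarith) hd
  have hd' : dist x x' ≤ R.C * A * dist x x' := le_mul_of_one_le_left hd hCA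
  beta_reduce
  rcases le_total (dist x x') (σ x) with c | c
  · have hs : σ x ≤ A * σ x := le_mul_of_one_le_left h3.le hA
    have e := R.lip (h x) (3 * A * σ x) (by positivity) (f x) (f x')
      (fun p hp => by
        have := hf.near x p hp
        rw [mem_closedBall]
        linarith only [h3, hs, this])
      fun p hp => by
        have h4 := hf.near x' p hp
        have h5 := dist_triangle p (h x') (h x)
        have h6 : A * σ x' ≤ A * (2 * σ x) :=
          mul_le_mul_of_nonneg_left (by linarith only [h1, h3, c]) (by linarith)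
        rw [dist_comm (h x')] at h5
        rw [mem_closedBall]
        linarith only [h2, c, hs, h4, h5, h6]
    have e' : R.C * A * (dist (f x) (f x') * σ x) ≤ R.C * A * (A * dist x x') :=
      mul_le_mul_of_nonneg_left (hf.lip x x') (by linarith only [hCA])
    linarith only [hd, hAA, hd', e, e']
  · have h4 := close x
    have h5 := close x'
    have h6 := dist_triangle4 (R.ι (f x)) (h x) (h x') (R.ι (f x'))
    rw [dist_comm (h x')] at h6
    have h7 : R.C * A * σ x ≤ R.C * A * dist x x' := mul_le_mul_of_nonneg_left c (by linarith only [hCA])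
    have h8 : R.C * A * σ x' ≤ R.C * A * (2 * dist x x') :=
      mul_le_mul_of_nonneg_left (by linarith only [h1, h3, c]) (by linarith only [hCA])
    linarith only [h2, h3, hAA, hd', c, h4, h5, h6, h7, h8]

/-- Relabelling keeps a map nice. -/
theorem Nice.relabel (hn : 2 ≤ n) {C0 : DC n} {y : X} {h : D n → X} {σ : D n → ℝ} {A : ℝ}
    {f : D n → Ys n X} (hf : Nice C0 y h σ A f) (hσ : Scale C0 σ) (ρ : X → X) (hy : ρ y = y)
    (hρ : ∀ x, ∀ p ∈ (f x).supp, dist (ρ p) (h x) ≤ A * σ x) :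
    Nice C0 y h σ A fun x => mapY ρ (f x) := by
  obtain ⟨L, -, hL⟩ := hf.exists_lip hσ
  obtain ⟨κ, hκ, hk⟩ := hσ.pos
  refine ⟨fun x hx => by rw [hf.out x hx, mapY_vtx, hy], fun x x' => ?_, fun x p hp => ?_,
    fun x i j k a b => (card_supp_mapY_le ρ _).trans (hf.wall x i j k a b), fun φ hφ => ?_⟩
  · refine le_trans (mul_le_mul_of_nonneg_right ?_ (hκ.le.trans (hk x))) (hf.lip x x')
    simpa using lip_mapY ρ (f x) (f x')
  · obtain ⟨q, hq, rfl⟩ := mem_supp_mapY.1 hp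
    exact hρ x q hq
  · rw [degY_mapY hn hφ ρ hL (y := vtx y) ⟨‖C0.c‖ + C0.side / 2, fun x hx => hf.out x fun a => ?_⟩]
    · exact hf.null _ (hφ.map ρ)
    · have h1 : dist x C0.c < C0.side / 2 := a
      have h2 := norm_sub_norm_le x C0.c
      rw [dist_eq_norm] at h1
      linarith only [hx, h1, h2]

end Pool.Agent.Work.MP_4b5e6c_gt
end

-- merged part: Pool.Agent.Work.MP_4b5e6c_gt.KillA
section
/-! Task KILLA: removal of one group of tethered items by the induction hypothesis. -/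

namespace Pool.Agent.Work.MP_4b5e6c_gt
open Metric Set

namespace KillA

/-- A homologically trivial map which is constant outside a ball contracts inside the ball. -/
theorem fill_ball {n : ℕ} (hn : 2 ≤ n) {X : Type} [MetricSpace X] {Λ κ η : ℝ}
    (hF : Fill n X Λ κ) (hη : 0 ≤ η) {v : X} {u : D n → X} (P : Pos n) (hP : 0 < P.2)
    (hu : Lip η u) (hv : ∀ x, x ∉ P.op → u x = v) (hnull : Null u) :
    Hty (η * Λ) (κ * (η * P.2)) P.2 P.op u fun _ => v := by
  have hE := item_unsc P hP hu hv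
  have hN : Null (unsc P u) := by
    rw [← null_sc_iff hn hE.1 hE.cpt P hP, sc_unsc P hP]
    exact hnull
  have h := (hF v _ _ (mul_nonneg hη hP.le) hE hN).sc P hP
  rw [sc_unsc P hP, mul_one, show Λ * (η * P.2) / P.2 = η * Λ by field_simp] at h
  exact h

end KillA

theorem kill_local {n : ℕ} (hn : 2 ≤ n) {X : Type} [MetricSpace X] {Λ κ η L l : ℝ}
    (hF : Fill n X Λ κ) (hκ : 0 ≤ κ) (hη : 0 ≤ η) (hL : 0 ≤ L) (hΛ : 1 ≤ Λ)
    (hLΛ : 100 * L ≤ η * Λ) {v y : X} {γ : ℝ → X} (hγ : IsPath v y l γ) (hl0 : 0 ≤ l)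
    (W : DC n) {I : Type} (s : Finset I) (S R : I → DC n) (e : I → D n → X)
    (hS : Pack W.core s S) (hR : ∀ i ∈ s, (R i).Sub (S i)) (hW : l ≤ L * W.side)
    (hl : ∀ i ∈ s, l ≤ L * (R i).side) (he : ∀ i ∈ s, Item v (L * (R i).side) (e i))
    (he' : ∀ i ∈ s, Item v (η * ((S i).side / 2)) (e i))
    (hnull : Null (ins (fun _ => v) s (fun i => (S i).pos) e)) :
    Hty (η * Λ) (η * κ * W.side) (3 * W.side) W.op
      (ins (fun _ => y) s (fun i => (R i).pos) fun i => teth γ (e i)) fun _ => y := by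
  have hn1 : 1 ≤ n := by omega
  have hs := W.side_pos
  have hc := W.core.side_pos
  have hK : 0 ≤ η * Λ := le_trans (by positivity) hLΛ
  have h1 := merge_teth hn1 hL hγ W s S R e hS hR hl0 hW hl he
  have hf0 : Fit L (fun _ : D n => y) ({()} : Finset Unit) (fun _ => W.pos) fun _ _ => y :=
    ⟨⟨fun _ _ => by simpa using hs, fun i _ j _ h => (h (Subsingleton.elim i j)).elim⟩,
      fun _ _ => ⟨lip_const (by simpa using mul_nonneg hL (by positivity)) y, fun _ _ => rfl⟩,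
      fun _ _ _ _ => rfl⟩
  obtain ⟨b1, b2, b3, -, -⟩ := bubble hn1 hL hs (lip_const hL y) {()} (fun _ => W) (fun _ _ => y)
    (fun _ => v) (fun _ t => γ (1 - t)) hf0 (fun _ _ => le_rfl) fun _ _ => hγ.symm.mono hW
  have hf : Fit η (fun _ : D n => v) s (fun i => (S i).pos) e :=
    ⟨hS.arr, he', fun _ _ _ _ => rfl⟩
  have h2 := KillA.fill_ball hn hF hη W.core.pos (by simpa using hc)
    (hf.lip (lip_const hη v) hη)
    (fun x hx => ins_of_not_mem fun i hi hm => hx (hS.1 i hi hm)) hnull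
  have hp : 0 ≤ κ * (η * W.core.pos.2) := by
    rw [DC.pos_snd]
    positivity
  have h2' : Hty (η * Λ) (κ * (η * W.core.pos.2)) W.core.pos.2 W.core.pos.op
      (ins (fun _ => v) s (fun i => (S i).pos) e)
      (ins (fun _ => v) (∅ : Finset Unit) (fun _ => W.pos) fun _ _ => v) := by
    rw [ins_empty]
    exact h2
  have h3 := Hty.local (b1.mono hLΛ) hK hp W.core.pos (b2 () (Finset.mem_singleton_self _))
    (P := fun i => (S i).pos) (fun i hi => hS.1 i hi) (fun _ h => absurd h (Finset.notMem_empty _))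
    h2'
  rw [ins_empty] at h3
  have h4 := ((h1.mono hLΛ le_rfl le_rfl subset_rfl).trans
    (h3.mono le_rfl le_rfl (show W.core.pos.2 ≤ W.side by
      rw [DC.pos_snd, DC.core_side]; linarith only [hs]) W.core_sub) hK hs.le hs.le).trans
    (b3.symm.mono hLΛ le_rfl le_rfl (by simp)) hK (by positivity) hs.le
  refine h4.mono le_rfl ?_ (by linarith) subset_rfl
  rw [DC.pos_snd, DC.core_side]
  have : 0 ≤ η * κ * W.side := by positivity
  linarith only [this]

end Pool.Agent.Work.MP_4b5e6c_gt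
end
end

-- merged part: Pool.Agent.Work.MP_4b5e6c_gt.Rearr
section
/-! Task REARR: rearrangement of boundedly many items, and cancellation by folding. -/

namespace Pool.Agent.Work.MP_4b5e6c_gt
open Metric Set

namespace Rearr

variable {n : ℕ}

/-- Separation of two positions in the coordinate `k`, with the sign `ε`. -/
def Sp (k : Fin n) (ε : ℝ) (p q : Pos n) : Prop := p.2 + q.2 ≤ ε * (p.1 k - q.1 k)

theorem Sp.disjoint {k : Fin n} {ε : ℝ} {p q : Pos n} (h : Sp k ε p q) (hε : ε = 1 ∨ ε = -1)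
    (hp : 0 < p.2) (hq : 0 < q.2) : Disjoint p.op q.op := by
  rw [Pos.disjoint_iff _ _ hp hq]
  have h1 := dist_le_pi_dist p.1 q.1 k
  rw [Real.dist_eq] at h1
  have h2 := le_abs_self (p.1 k - q.1 k)
  have h3 := neg_abs_le (p.1 k - q.1 k)
  unfold Sp at h
  rcases hε with rfl | rfl <;> linarith only [h1, h2, h, h3]

theorem exists_sp {p q : Pos n} (hp : 0 < p.2) (hq : 0 < q.2)
    (h : Disjoint p.op q.op) : ∃ k ε, (ε = 1 ∨ ε = -1) ∧ Sp k ε p q := by
  rw [Pos.disjoint_iff _ _ hp hq] at h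
  by_contra c
  push Not at c
  have : dist p.1 q.1 < p.2 + q.2 := by
    rw [dist_pi_lt_iff (by linarith)]
    intro k
    have h1 := c k 1 (.inl rfl)
    have h2 := c k (-1) (.inr rfl)
    simp only [Sp, not_le] at h1 h2
    rw [Real.dist_eq, abs_lt]
    constructor <;> linarith only [h2, h1]
  linarith

/-- Linear motion between two arrangements in which all pairs are separated in the same way. -/
theorem lin (hn : 1 ≤ n) {Z : Type} [MetricSpace Z] {I : Type} {s : Finset I} {y : Z} {L : ℝ}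
    {P P' : I → Pos n} {e : I → D n → Z} {P0 : Pos n} (hL : 0 ≤ L) (hR : 0 < P0.2)
    (hf : Fit L (fun _ => y) s P e) (hf' : Fit L (fun _ => y) s P' e)
    (hin : ∀ i ∈ s, (P i).op ⊆ P0.op) (hin' : ∀ i ∈ s, (P' i).op ⊆ P0.op)
    (hsp : ∀ i ∈ s, ∀ j ∈ s, i ≠ j → ∃ k ε, (ε = 1 ∨ ε = -1) ∧ Sp k ε (P i) (P j) ∧
      Sp k ε (P' i) (P' j)) :
    Hty (5 * L) 0 P0.2 P0.op (ins (fun _ => y) s P e) (ins (fun _ => y) s P' e) := by
  obtain ⟨Q, hQ⟩ : ∃ Q : ℝ → I → Pos n,
      ∀ τ i, Q τ i = AffineMap.lineMap (P i) (P' i) (τ / P0.2) := ⟨_, fun _ _ => rfl⟩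
  have q1 : ∀ τ i, (Q τ i).1 = (1 - τ / P0.2) • (P i).1 + (τ / P0.2) • (P' i).1 := by
    intro τ i
    rw [hQ, AffineMap.lineMap_apply_module]; rfl
  have q2 : ∀ τ i, (Q τ i).2 = (1 - τ / P0.2) * (P i).2 + (τ / P0.2) * (P' i).2 := by
    intro τ i
    rw [hQ, AffineMap.lineMap_apply_module]; rfl
  have hθ : ∀ τ ∈ Icc 0 P0.2, 0 ≤ τ / P0.2 ∧ 0 ≤ 1 - τ / P0.2 := fun τ hτ =>
    ⟨div_nonneg hτ.1 hR.le, sub_nonneg.2 ((div_le_one hR).2 hτ.2)⟩
  have hmin : ∀ τ ∈ Icc 0 P0.2, ∀ i, min (P i).2 (P' i).2 ≤ (Q τ i).2 := by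
    intro τ hτ i
    obtain ⟨a, b⟩ := hθ τ hτ
    have h1 := mul_le_mul_of_nonneg_left (min_le_left (P i).2 (P' i).2) b
    have h2 := mul_le_mul_of_nonneg_left (min_le_right (P i).2 (P' i).2) a
    rw [q2]; linarith only [h1, h2]
  have hpos : ∀ τ ∈ Icc 0 P0.2, ∀ i ∈ s, 0 < (Q τ i).2 := fun τ hτ i hi =>
    (lt_min (hf.arr.1 i hi) (hf'.arr.1 i hi)).trans_le (hmin τ hτ i)
  have c1 : ∀ i ∈ s, dist (P i).1 P0.1 + (P i).2 ≤ P0.2 := fun i hi =>
    (Pos.op_subset_iff hn _ _ (hf.arr.1 i hi)).1 (hin i hi)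
  have c2 : ∀ i ∈ s, dist (P' i).1 P0.1 + (P' i).2 ≤ P0.2 := fun i hi =>
    (Pos.op_subset_iff hn _ _ (hf'.arr.1 i hi)).1 (hin' i hi)
  have key := Hty.motion (U := P0.op) (s := s) (e := e) (lip_const hL y) hL Q (v := 2)
    (by norm_num) hR ?_ ?_ ?_
  · have e0 : Q 0 = P := by
      funext i; rw [hQ, zero_div, AffineMap.lineMap_apply_zero]
    have e1 : Q P0.2 = P' := by
      funext i; rw [hQ, div_self hR.ne', AffineMap.lineMap_apply_one]
    rw [e0, e1] at key
    exact key.mono (le_of_eq (by ring)) le_rfl le_rfl subset_rfl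
  · intro τ hτ
    obtain ⟨a, b⟩ := hθ τ hτ
    refine ⟨⟨hpos τ hτ, fun i hi j hj hij => ?_⟩, fun i hi => ?_, fun _ _ _ _ => rfl⟩
    · obtain ⟨k, ε, hε, h1, h2⟩ := hsp i hi j hj hij
      refine Sp.disjoint (k := k) ?_ hε (hpos τ hτ i hi) (hpos τ hτ j hj)
      unfold Sp at h1 h2 ⊢
      have h3 := mul_le_mul_of_nonneg_left h1 b
      have h4 := mul_le_mul_of_nonneg_left h2 a
      rw [q1, q1, q2, q2]
      simp only [Pi.add_apply, Pi.smul_apply, smul_eq_mul]
      linarith only [h3, h4]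
    · have h := hmin τ hτ i
      rcases le_total (P i).2 (P' i).2 with c | c
      · rw [min_eq_left c] at h
        exact (hf.item i hi).mono (mul_le_mul_of_nonneg_left h hL)
      · rw [min_eq_right c] at h
        exact (hf'.item i hi).mono (mul_le_mul_of_nonneg_left h hL)
  · intro i hi τ _ τ' _
    have hd : dist (P i) (P' i) ≤ 2 * P0.2 := by
      have h1 := c1 i hi
      have h2 := c2 i hi
      have h3 := hf.arr.1 i hi
      have h4 := hf'.arr.1 i hi
      have h5 := dist_triangle_right (P i).1 (P' i).1 P0.1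
      have h6 := dist_nonneg (x := (P i).1) (y := P0.1)
      have h7 := dist_nonneg (x := (P' i).1) (y := P0.1)
      rw [Prod.dist_eq, max_le_iff, Real.dist_eq, abs_le]
      refine ⟨by linarith only [h1, h2, h3, h4, h5], by linarith only [hR, h2, h3, h7], by linarith⟩
    rw [hQ, hQ, dist_lineMap_lineMap, Real.dist_eq, ← sub_div, abs_div, abs_of_pos hR,
      div_mul_eq_mul_div, div_le_iff₀ hR]
    have := mul_le_mul_of_nonneg_left hd (abs_nonneg (τ - τ'))
    linarith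
  · intro τ hτ i hi
    obtain ⟨a, b⟩ := hθ τ hτ
    rw [Pos.op_subset_iff hn _ _ (hpos τ hτ i hi), q1, q2]
    have h1 := mul_le_mul_of_nonneg_left (c1 i hi) b
    have h2 := mul_le_mul_of_nonneg_left (c2 i hi) a
    have h3 : (1 - τ / P0.2) • (P i).1 + (τ / P0.2) • (P' i).1 - P0.1
        = (1 - τ / P0.2) • ((P i).1 - P0.1) + (τ / P0.2) • ((P' i).1 - P0.1) := by
      module
    have h4 := norm_add_le ((1 - τ / P0.2) • ((P i).1 - P0.1)) ((τ / P0.2) • ((P' i).1 - P0.1))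
    rw [norm_smul, norm_smul, Real.norm_of_nonneg a, Real.norm_of_nonneg b, ← dist_eq_norm,
      ← dist_eq_norm, ← h3, ← dist_eq_norm] at h4
    linarith only [h1, h2, h4]

theorem exists_rank {I α : Type} [LinearOrder α] (s : Finset I) (key : I → α) :
    ∃ σ : I → ℕ, (∀ i ∈ s, σ i < s.card) ∧ ∀ i ∈ s, ∀ j ∈ s, key i < key j → σ i < σ j := by
  classical
  refine ⟨fun i => (s.filter fun j => key j < key i).card, fun i hi => ?_, fun i hi j _ h => ?_⟩
  · refine Finset.card_lt_card ⟨Finset.filter_subset _ _, fun c => ?_⟩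
    simpa using c hi
  · refine Finset.card_lt_card ⟨fun m hm => ?_, fun c => ?_⟩
    · rw [Finset.mem_filter] at hm ⊢
      exact ⟨hm.1, hm.2.trans h⟩
    · simpa using c (Finset.mem_filter.2 ⟨hi, h⟩)

theorem exists_rank' {I : Type} (s : Finset I) (f : I → ℝ) :
    ∃ σ : I → ℕ, (∀ i ∈ s, σ i < s.card) ∧ (∀ i ∈ s, ∀ j ∈ s, i ≠ j → σ i ≠ σ j) ∧
      ∀ i ∈ s, ∀ j ∈ s, f i < f j → σ i < σ j := by
  classical
  obtain ⟨τ, hτ⟩ : ∃ τ : I → ℕ, ∀ i ∈ s, ∀ j ∈ s, τ i = τ j → i = j := by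
    refine ⟨fun i => if h : i ∈ s then (s.equivFin ⟨i, h⟩ : ℕ) else 0, fun i hi j hj h => ?_⟩
    simp only [dif_pos hi, dif_pos hj] at h
    simpa using s.equivFin.injective (Fin.ext h)
  obtain ⟨σ, a, b⟩ := exists_rank s fun i => toLex (f i, τ i)
  refine ⟨σ, a, fun i hi j hj h => ?_, fun i hi j hj h => b i hi j hj ?_⟩
  · have : toLex (f i, τ i) ≠ toLex (f j, τ j) := fun c =>
      h (hτ i hi j hj (congrArg Prod.snd (toLex.injective c)))
    rcases lt_or_gt_of_ne this with c | c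
    exacts [(b i hi j hj c).ne, (b j hj i hi c).ne']
  · exact Prod.Lex.toLex_lt_toLex.2 (.inl h)

/-- The grid arrangement with the ranks `σ`. -/
noncomputable def grid {I : Type} (P0 : Pos n) (M : ℕ) (ρ : I → ℝ) (σ : Fin n → I → ℕ) (i : I) :
    Pos n := (fun k => P0.1 k + P0.2 * (-1 / 2 + σ k i / (M + 1)), ρ i)

section grid
variable {I : Type} {P0 : Pos n} {M : ℕ} {ρ : I → ℝ} {σ σ' : Fin n → I → ℕ} {s : Finset I}

theorem grid_sp {k : Fin n} {i j : I} (hR : 0 < P0.2) (hi : ρ i * (4 * (M + 1)) ≤ P0.2)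
    (hj : ρ j * (4 * (M + 1)) ≤ P0.2) (h : σ k j < σ k i) :
    Sp k 1 (grid P0 M ρ σ i) (grid P0 M ρ σ j) ∧ Sp k (-1) (grid P0 M ρ σ j) (grid P0 M ρ σ i) := by
  have hM : (0 : ℝ) < M + 1 := by positivity
  have h1 : (σ k j : ℝ) + 1 ≤ σ k i := by exact_mod_cast h
  have h2 : ρ i + ρ j ≤ P0.2 * ((σ k i : ℝ) / (M + 1) - σ k j / (M + 1)) := by
    rw [← sub_div, ← mul_div_assoc, le_div_iff₀ hM]
    have := mul_le_mul_of_nonneg_left (le_sub_iff_add_le'.2 h1) hR.le
    linarith only [hR, hi, hj, this]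
  simp only [Sp, grid]
  constructor <;> linarith only [h2]

theorem grid_sp' {k : Fin n} {i j : I} (hR : 0 < P0.2) (hi : ρ i * (4 * (M + 1)) ≤ P0.2)
    (hj : ρ j * (4 * (M + 1)) ≤ P0.2) (h : σ k i ≠ σ k j) (ei : σ' k i = σ k i)
    (ej : σ' k j = σ k j) : ∃ ε, (ε = 1 ∨ ε = -1) ∧ Sp k ε (grid P0 M ρ σ i) (grid P0 M ρ σ j) ∧
      Sp k ε (grid P0 M ρ σ' i) (grid P0 M ρ σ' j) := by
  rcases lt_or_gt_of_ne h with c | c
  · exact ⟨-1, .inr rfl, (grid_sp hR hj hi c).2, (grid_sp hR hj hi (by rwa [ei, ej])).2⟩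
  · exact ⟨1, .inl rfl, (grid_sp hR hi hj c).1, (grid_sp hR hi hj (by rwa [ei, ej])).1⟩

theorem grid_in (hn : 1 ≤ n) {i : I} (hR : 0 < P0.2) (h0 : 0 < ρ i)
    (hi : ρ i * (4 * (M + 1)) ≤ P0.2) (h : ∀ k, σ k i ≤ M) : (grid P0 M ρ σ i).op ⊆ P0.op := by
  have hM : (0 : ℝ) < M + 1 := by positivity
  rw [Pos.op_subset_iff hn _ _ h0]
  have h1 : dist (grid P0 M ρ σ i).1 P0.1 ≤ P0.2 / 2 := by
    rw [dist_pi_le_iff (by linarith only [hR])]
    intro k
    have h2 : (σ k i : ℝ) / (M + 1) ≤ 1 := by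
      rw [div_le_one hM]
      have : (σ k i : ℝ) ≤ M := by exact_mod_cast h k
      linarith
    have h3 : (0 : ℝ) ≤ (σ k i : ℝ) / (M + 1) := by positivity
    have h4 := mul_le_mul_of_nonneg_left h2 hR.le
    have h5 := mul_nonneg hR.le h3
    simp only [grid]
    rw [Real.dist_eq, abs_le]
    constructor <;> linarith only [h5, h4]
  have h6 : (0 : ℝ) ≤ ρ i * M := by positivity
  change _ + ρ i ≤ _
  linarith only [h0, hi, h1, h6]

theorem grid_fit {Z : Type} [MetricSpace Z] {y : Z} {L : ℝ} {e : I → D n → Z} (hR : 0 < P0.2)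
    (h0 : ∀ i ∈ s, 0 < ρ i) (hρ : ∀ i ∈ s, ρ i * (4 * (M + 1)) ≤ P0.2)
    (he : ∀ i ∈ s, Item y (L * ρ i) (e i)) (k : Fin n)
    (h : ∀ i ∈ s, ∀ j ∈ s, i ≠ j → σ k i ≠ σ k j) :
    Fit L (fun _ => y) s (grid P0 M ρ σ) e := by
  refine ⟨⟨h0, fun i hi j hj hij => ?_⟩, he, fun _ _ _ _ => rfl⟩
  obtain ⟨ε, a, b, -⟩ := grid_sp' (σ' := σ) hR (hρ i hi) (hρ j hj) (h i hi j hj hij) rfl rfl
  exact b.disjoint a (h0 i hi) (h0 j hj)

theorem canon (hn : 2 ≤ n) {Z : Type} [MetricSpace Z] {y : Z} {L : ℝ} {e : I → D n → Z}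
    {P : I → Pos n} {τ : I → ℕ} (hL : 0 ≤ L) (hR : 0 < P0.2) (hM : s.card ≤ M)
    (h0 : ∀ i ∈ s, 0 < ρ i) (hρ : ∀ i ∈ s, ρ i * (4 * (M + 1)) ≤ P0.2)
    (he : ∀ i ∈ s, Item y (L * ρ i) (e i)) (hf : Fit L (fun _ => y) s P e)
    (hin : ∀ i ∈ s, (P i).op ⊆ P0.op) (hτ : ∀ i ∈ s, τ i < s.card)
    (hτ' : ∀ i ∈ s, ∀ j ∈ s, i ≠ j → τ i ≠ τ j) :
    Hty (5 * L) 0 (3 * P0.2) P0.op (ins (fun _ => y) s P e)
      (ins (fun _ => y) s (grid P0 M ρ fun _ => τ) e) := by
  have hn1 : 1 ≤ n := by omega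
  choose σ s1 s2 s3 using fun k : Fin n => exists_rank' s fun i => (P i).1 k
  obtain ⟨k0, k1, hk⟩ : ∃ k0 k1 : Fin n, k1 ≠ k0 :=
    ⟨⟨0, by omega⟩, ⟨1, by omega⟩, by simp⟩
  obtain ⟨σ', e0, e1⟩ : ∃ σ' : Fin n → I → ℕ, σ' k0 = σ k0 ∧ ∀ k, k ≠ k0 → σ' k = τ :=
    ⟨fun k => if k = k0 then σ k0 else τ, if_pos rfl, fun k h => if_neg h⟩
  have f1 : Fit L (fun _ => y) s (grid P0 M ρ σ) e := grid_fit hR h0 hρ he k0 (s2 k0)
  have f2 : Fit L (fun _ => y) s (grid P0 M ρ σ') e :=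
    grid_fit hR h0 hρ he k0 (by rw [e0]; exact s2 k0)
  have f3 : Fit L (fun _ => y) s (grid P0 M ρ fun _ => τ) e := grid_fit hR h0 hρ he k0 hτ'
  have i1 : ∀ i ∈ s, (grid P0 M ρ σ i).op ⊆ P0.op := fun i hi =>
    grid_in hn1 hR (h0 i hi) (hρ i hi) fun k => ((s1 k i hi).le).trans hM
  have i2 : ∀ i ∈ s, (grid P0 M ρ σ' i).op ⊆ P0.op := fun i hi =>
    grid_in hn1 hR (h0 i hi) (hρ i hi) fun k => by
      by_cases c : k = k0
      · rw [c, e0]; exact ((s1 k0 i hi).le).trans hM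
      · rw [e1 k c]; exact ((hτ i hi).le).trans hM
  have i3 : ∀ i ∈ s, (grid P0 M ρ (fun _ => τ) i).op ⊆ P0.op := fun i hi =>
    grid_in hn1 hR (h0 i hi) (hρ i hi) fun k => ((hτ i hi).le).trans hM
  have m1 := lin hn1 hL hR hf f1 hin i1 fun i hi j hj hij => by
    have pi := hf.arr.1 i hi
    have pj := hf.arr.1 j hj
    obtain ⟨k, ε, hε, h⟩ := exists_sp pi pj (hf.arr.2 i hi j hj hij)
    refine ⟨k, ε, hε, h, ?_⟩
    unfold Sp at h
    rcases hε with rfl | rfl
    · exact (grid_sp hR (hρ i hi) (hρ j hj) (s3 k j hj i hi (by linarith only [pi, pj, h]))).1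
    · exact (grid_sp hR (hρ j hj) (hρ i hi) (s3 k i hi j hj (by linarith))).2
  have m2 := lin hn1 hL hR f1 f2 i1 i2 fun i hi j hj hij =>
    ⟨k0, grid_sp' hR (hρ i hi) (hρ j hj) (s2 k0 i hi j hj hij) (by rw [e0]) (by rw [e0])⟩
  have m3 := lin hn1 hL hR f2 f3 i2 i3 fun i hi j hj hij =>
    ⟨k1, grid_sp' hR (hρ i hi) (hρ j hj) (by rw [e1 k1 hk]; exact hτ' i hi j hj hij)
      (by rw [e1 k1 hk]) (by rw [e1 k1 hk])⟩
  have hL5 : 0 ≤ 5 * L := by linarith
  have m := (m1.trans m2 hL5 hR.le hR.le).trans m3 hL5 (by linarith) hR.le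
  exact m.mono le_rfl (by norm_num) (by linarith) subset_rfl

end grid

theorem refl0_refl0 (x : D n) : refl0 (refl0 x) = x := by
  funext i
  by_cases h : (i : ℕ) = 0 <;> simp [refl0, h]

theorem dist_refl0_le (x x' : D n) : dist (refl0 x) (refl0 x') ≤ dist x x' := by
  rw [dist_pi_le_iff dist_nonneg]
  intro i
  refine le_trans (le_of_eq ?_) (dist_le_pi_dist x x' i)
  by_cases h : (i : ℕ) = 0 <;> simp [refl0, h]

theorem norm_refl0 (x : D n) : ‖x‖ ≤ ‖refl0 x‖ := by
  have h := dist_refl0_le (refl0 x) 0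
  have h0 : refl0 (0 : D n) = 0 := by
    funext i; simp [refl0]
  rwa [refl0_refl0, h0, dist_zero_right, dist_zero_right] at h

theorem item_refl0 {Z : Type} [MetricSpace Z] {y : Z} {L : ℝ} {e : D n → Z} (hL : 0 ≤ L)
    (he : Item y L e) : Item y L fun x => e (refl0 x) :=
  ⟨fun a b => (he.1 _ _).trans (mul_le_mul_of_nonneg_left (dist_refl0_le a b) hL),
    fun x hx => he.2 _ (hx.trans (norm_refl0 x))⟩

/-- The folding map. -/
noncomputable def fm (p : D n × ℝ) : D n :=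
  fun i => if (i : ℕ) = 0 then 2 * |p.1 i| - 1 + 2 * max 0 (min p.2 1) else 2 * p.1 i

theorem fm_lip : Lip 4 (fm : D n × ℝ → D n) := by
  intro a b
  rw [dist_pi_le_iff (by positivity)]
  intro i
  have h1 : |a.1 i - b.1 i| ≤ dist a b :=
    (dist_le_pi_dist a.1 b.1 i).trans (le_max_left _ _)
  have h2 : |a.2 - b.2| ≤ dist a b := le_max_right _ _
  have h3 : |max 0 (min a.2 1) - max 0 (min b.2 1)| ≤ |a.2 - b.2| := by
    refine (abs_max_sub_max_le_max _ _ _ _).trans (max_le (by simp) ?_)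
    refine (abs_min_sub_min_le_max _ _ _ _).trans (max_le le_rfl (by simp))
  have h4 := abs_abs_sub_abs_le_abs_sub (a.1 i) (b.1 i)
  have h5 := dist_nonneg (x := a) (y := b)
  have h6 := abs_le.1 (h3.trans h2)
  have h7 := abs_le.1 (h4.trans h1)
  have h8 := abs_le.1 h1
  rw [Real.dist_eq, abs_le]
  by_cases h : (i : ℕ) = 0 <;> simp only [fm, h, if_true, if_false] <;> constructor <;> linarith only [h6, h7, h5, h8]

end Rearr

open Rearr

theorem fr {n : ℕ} (hn : 2 ≤ n) : FrS n := by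
  intro M
  have hM : (0 : ℝ) < 4 * (M + 1) := by positivity
  have hM0 : (0 : ℝ) ≤ M := by positivity
  refine ⟨120 * (M + 1), by linarith only [], ?_⟩
  intro Z _ I s y L P P' e P0 hL hs hR hf hf' hin
  obtain ⟨τ, t1, t2, -⟩ := exists_rank' s fun _ => 0
  obtain ⟨ρ, hρ⟩ : ∃ ρ : I → ℝ, ∀ i, ρ i * (4 * (M + 1)) = min (P i).2 (P' i).2 :=
    ⟨fun i => min (P i).2 (P' i).2 / (4 * (M + 1)), fun i => div_mul_cancel₀ _ hM.ne'⟩
  have h0 : ∀ i ∈ s, 0 < ρ i := fun i hi =>
    pos_of_mul_pos_left (by rw [hρ]; exact lt_min (hf.arr.1 i hi) (hf'.arr.1 i hi)) hM.le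
  have h1 : ∀ i ∈ s, ρ i * (4 * (M + 1)) ≤ P0.2 := fun i hi => by
    have a := (Pos.op_subset_iff (by omega) _ _ (hf.arr.1 i hi)).1 (hin i hi).1
    have b := min_le_left (P i).2 (P' i).2
    have c := dist_nonneg (x := (P i).1) (y := P0.1)
    rw [hρ]; linarith only [a, b, c]
  have he : ∀ i ∈ s, Item y (4 * (M + 1) * L * ρ i) (e i) := fun i hi => by
    have a : 4 * (M + 1) * L * ρ i = L * min (P i).2 (P' i).2 := by rw [← hρ]; ring
    rw [a]
    rcases le_total (P i).2 (P' i).2 with c | c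
    · rw [min_eq_left c]; exact hf.item i hi
    · rw [min_eq_right c]; exact hf'.item i hi
  have hL' : L ≤ 4 * (M + 1) * L := le_mul_of_one_le_left hL (by linarith)
  have hL'' : 0 ≤ 4 * (M + 1) * L := hL.trans hL'
  have m1 := canon hn hL'' hR hs h0 h1 he (hf.mono hL') (fun i hi => (hin i hi).1) t1 t2
  have m2 := canon hn hL'' hR hs h0 h1 he (hf'.mono hL') (fun i hi => (hin i hi).2) t1 t2
  have m := (m1.trans m2.symm (by linarith) (by linarith only [hR]) (by linarith)).speed (by linarith) hR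
    (by linarith)
  refine m.mono (le_of_eq ?_) (by norm_num) le_rfl subset_rfl
  field_simp
  ring

/-- The standard position version of `fold`, whose homotopy stays in the range of `e`. -/
theorem fold_explicit {n : ℕ} (hn : 1 ≤ n) {Z : Type} [MetricSpace Z] {y : Z} {L : ℝ}
    {e : D n → Z} (hL : 0 ≤ L) (he : Item y L e) :
    ∃ (P : Fin 2 → Pos n) (H : D n × ℝ → Z), (∀ i, (P i).2 = 1 / 2 ∧ (P i).op ⊆ ball 0 1) ∧
      Arr Finset.univ P ∧ Lip (4 * L) H ∧ range H ⊆ range e ∧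
      (∀ x t, t ≤ 0 → H (x, t) = ins (fun _ => y) Finset.univ P ![e, fun x => e (refl0 x)] x) ∧
      (∀ x t, 1 ≤ t → H (x, t) = y) ∧ ∀ x t, 1 ≤ ‖x‖ → H (x, t) = y := by
  obtain ⟨k, hk⟩ : ∃ k : Fin n, (k : ℕ) = 0 := ⟨⟨0, hn⟩, rfl⟩
  have hk' : ∀ i : Fin n, (i : ℕ) = 0 → i = k := fun i h => Fin.ext (by rw [h, hk])
  obtain ⟨c, c0, c1⟩ : ∃ c : D n, c k = 1 / 2 ∧ ∀ i : Fin n, (i : ℕ) ≠ 0 → c i = 0 :=
    ⟨fun i => if (i : ℕ) = 0 then 1 / 2 else 0, if_pos hk, fun i h => if_neg h⟩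
  have hc : ‖c‖ ≤ 1 / 2 := by
    rw [pi_norm_le_iff_of_nonneg (by norm_num)]
    intro i
    by_cases h : (i : ℕ) = 0
    · rw [hk' i h, c0]; norm_num
    · rw [c1 i h]; norm_num
  obtain ⟨P, p0, p1⟩ : ∃ P : Fin 2 → Pos n, P 0 = (c, 1 / 2) ∧ P 1 = (-c, 1 / 2) :=
    ⟨![(c, 1 / 2), (-c, 1 / 2)], rfl, rfl⟩
  have hr : ∀ i, (P i).2 = 1 / 2 := by
    rw [Fin.forall_fin_two, p0, p1]; exact ⟨rfl, rfl⟩
  have hpos : ∀ i, 0 < (P i).2 := fun i => by rw [hr]; norm_num
  have hd : Disjoint (P 0).op (P 1).op := by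
    refine Sp.disjoint (k := k) (ε := 1) ?_ (.inl rfl) (hpos 0) (hpos 1)
    simp only [Sp, p0, p1, Pi.neg_apply, c0]; norm_num
  have harr : Arr Finset.univ P := by
    refine ⟨fun i _ => hpos i, fun i _ j _ hij => ?_⟩
    fin_cases i <;> fin_cases j
    · exact (hij rfl).elim
    · exact hd
    · exact hd.symm
    · exact (hij rfl).elim
  have big : ∀ (p : D n × ℝ) (i : Fin n), 1 ≤ |fm p i| → e (fm p) = y := fun p i h =>
    he.2 _ (h.trans (norm_le_pi_norm (fm p) i))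
  refine ⟨P, fun p => e (fm p), fun i => ⟨hr i, ?_⟩, harr, ?_, ?_, ?_, ?_, ?_⟩
  · refine (Pos.op_subset_iff hn (P i) ((0 : D n), (1 : ℝ)) (hpos i)).2 ?_
    have : ‖(P i).1‖ ≤ 1 / 2 := by
      revert i
      rw [Fin.forall_fin_two, p0, p1]
      exact ⟨hc, by simpa using hc⟩
    rw [hr, dist_zero_right]
    change _ ≤ (1 : ℝ)
    linarith only [this]
  · exact (he.1.comp fm_lip hL).mono (le_of_eq (mul_comm _ _))
  · rintro _ ⟨p, rfl⟩
    exact ⟨_, rfl⟩
  · intro x t ht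
    have hcl : max 0 (min t 1) = 0 := max_eq_left ((min_le_left _ _).trans ht)
    have a0 : 0 ≤ x k → e (fm (x, t)) = sc (P 0) e x := by
      intro h
      rw [p0, sc]
      congr 1
      funext i
      by_cases hi : (i : ℕ) = 0
      · obtain rfl := hk' i hi
        simp only [fm, hi, if_true, hcl, abs_of_nonneg h, Pi.smul_apply, Pi.sub_apply, c0,
          smul_eq_mul]
        ring
      · simp only [fm, hi, if_false, Pi.smul_apply, Pi.sub_apply, c1 i hi, smul_eq_mul]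
        ring
    have a1 : x k ≤ 0 → e (fm (x, t)) = sc (P 1) (fun x => e (refl0 x)) x := by
      intro h
      rw [p1, sc]
      congr 1
      funext i
      by_cases hi : (i : ℕ) = 0
      · obtain rfl := hk' i hi
        simp only [fm, refl0, hi, if_true, hcl, abs_of_nonpos h, Pi.smul_apply, Pi.sub_apply,
          Pi.neg_apply, c0, smul_eq_mul]
        ring
      · simp only [fm, refl0, hi, if_false, Pi.smul_apply, Pi.sub_apply, Pi.neg_apply, c1 i hi,
          smul_eq_mul]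
        ring
    by_cases m0 : x ∈ (P 0).op
    · rw [ins_of_mem harr (Finset.mem_univ 0) m0]
      refine a0 ?_
      have h1 : dist x (P 0).1 < (P 0).2 := m0
      have h2 := (dist_le_pi_dist x (P 0).1 k).trans_lt h1
      rw [p0, Real.dist_eq, abs_lt] at h2
      have h3 := h2.1
      simp only [c0] at h3
      linarith only [c0, h2]
    by_cases m1 : x ∈ (P 1).op
    · rw [ins_of_mem harr (Finset.mem_univ 1) m1]
      refine a1 ?_
      have h1 : dist x (P 1).1 < (P 1).2 := m1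
      have h2 := (dist_le_pi_dist x (P 1).1 k).trans_lt h1
      rw [p1, Real.dist_eq, abs_lt] at h2
      have h3 := h2.2
      simp only [Pi.neg_apply, c0] at h3
      linarith only [h3]
    rw [ins_of_not_mem (fun i _ => by
      revert i
      rw [Fin.forall_fin_two]
      exact ⟨fun _ => m0, fun _ => m1⟩)]
    rcases le_total 0 (x k) with h | h
    · exact (a0 h).trans (he.sc_eq _ (hpos 0) m0)
    · exact (a1 h).trans ((item_refl0 hL he).sc_eq _ (hpos 1) m1)
  · intro x t ht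
    refine big _ k (le_trans ?_ (le_abs_self _))
    have hcl : max 0 (min t 1) = 1 := by rw [min_eq_right ht]; norm_num
    have := abs_nonneg (x k)
    simp only [fm, hk, if_true, hcl]
    linarith only [this]
  · intro x t hx
    obtain ⟨i, hi⟩ : ∃ i, 1 ≤ |x i| := by
      by_contra h
      push Not at h
      exact absurd ((pi_norm_lt_iff one_pos).2 h) (not_lt.2 hx)
    refine big _ i ?_
    by_cases h : (i : ℕ) = 0
    · refine le_trans ?_ (le_abs_self _)
      have := le_max_left 0 (min t 1)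
      simp only [fm, h, if_true]
      linarith only [hi, this]
    · simp only [fm, h, if_false]
      rw [abs_mul, abs_two]
      linarith only [hi]

theorem fold {n : ℕ} (hn : 2 ≤ n) : FoldS n := by
  obtain ⟨C, hC, hfr⟩ := fr hn 2
  refine ⟨4 * C + 8, by linarith only [hC], ?_⟩
  intro Z _ y L P e P0 hL hR hf hin
  have hn1 : 1 ≤ n := by omega
  have p0 := hf.arr.1 0 (Finset.mem_univ _)
  have p1 := hf.arr.1 1 (Finset.mem_univ _)
  obtain ⟨a, ha, haR, he⟩ : ∃ a : ℝ, 0 < a ∧ a ≤ P0.2 ∧ Item y (L * a) e := by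
    refine ⟨(P 0).2, p0, ?_, hf.item 0 (Finset.mem_univ _)⟩
    have a := (Pos.op_subset_iff hn1 _ _ p0).1 (hin 0)
    have c := dist_nonneg (x := (P 0).1) (y := P0.1)
    linarith only [a, c]
  have hLa : 0 ≤ L * a := mul_nonneg hL ha.le
  obtain ⟨S, H, s1, s2, s3, -, s4, s5, s6⟩ := fold_explicit hn1 hLa he
  obtain ⟨E, hE⟩ : ∃ E : Fin 2 → D n → Z, E = ![e, fun x => e (refl0 x)] := ⟨_, rfl⟩
  rw [← hE] at hf s4 ⊢
  have hEi : ∀ i, Item y (L * a) (E i) := by
    rw [Fin.forall_fin_two, hE]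
    exact ⟨he, item_refl0 hLa he⟩
  have h1 : Hty (4 * (L * a)) 0 1 (ball 0 1) (ins (fun _ => y) Finset.univ S E) fun _ => y := by
    refine ⟨H, lip_iff_aLip.1 s3, s4, s5, fun x t hx => ?_⟩
    have hx' : 1 ≤ ‖x‖ := by simpa using hx
    rw [← s4 x 0 le_rfl, s6 x t hx', s6 x 0 hx']
  obtain ⟨Q, q1, q2⟩ : ∃ Q : Pos n, Q.1 = P0.1 ∧ Q.2 = a := ⟨(P0.1, a), rfl, rfl⟩
  have hQ : 0 < Q.2 := q2 ▸ ha
  have hQP : Q.op ⊆ P0.op := by
    rw [Pos.op, Pos.op, q1, q2]; exact ball_subset_ball haR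
  have hr : ∀ i, (Q.comp (S i)).2 = a / 2 := fun i => by
    change Q.2 * (S i).2 = _
    rw [q2, (s1 i).1]; ring
  have harr : Arr Finset.univ fun i => Q.comp (S i) := by
    refine ⟨fun i _ => by rw [hr]; linarith only [ha], fun i hi j hj hij => ?_⟩
    have h := (Pos.disjoint_iff _ _ (s2.1 i hi) (s2.1 j hj)).1 (s2.2 i hi j hj hij)
    rw [Pos.disjoint_iff _ _ (by rw [hr]; linarith only [ha]) (by rw [hr]; linarith only [ha]), hr, hr]
    change _ ≤ dist (Q.1 + Q.2 • (S i).1) (Q.1 + Q.2 • (S j).1)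
    rw [dist_add_left, dist_smul₀, q2, Real.norm_of_nonneg ha.le]
    rw [(s1 i).1, (s1 j).1] at h
    have := mul_le_mul_of_nonneg_left h ha.le
    linarith only [this]
  have hf' : Fit (2 * L) (fun _ => y) Finset.univ (fun i => Q.comp (S i)) E :=
    ⟨harr, fun i _ => by
      rw [hr]
      exact (hEi i).mono (le_of_eq (by ring)), fun _ _ _ _ => rfl⟩
  have h2 := hfr Z (Fin 2) Finset.univ y (2 * L) P (fun i => Q.comp (S i)) E P0 (by linarith)
    (by simp) hR (hf.mono (by linarith)) hf'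
    fun i _ => ⟨hin i, (Pos.comp_op_subset Q _ hQ (s1 i).2).trans hQP⟩
  have h3 := h1.sc Q hQ
  have e1 : sc Q (ins (fun _ => y) Finset.univ S E)
      = ins (fun _ => y) Finset.univ (fun i => Q.comp (S i)) E := by
    rw [← sc_unsc Q hQ (ins (fun _ => y) Finset.univ (fun i => Q.comp (S i)) E),
      unsc_ins Q hQ harr]
    congr 2
    funext i
    refine Prod.ext ?_ ?_
    · change (S i).1 = Q.2⁻¹ • (Q.1 + Q.2 • (S i).1 - Q.1)
      rw [add_sub_cancel_left, inv_smul_smul₀ hQ.ne']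
    · change (S i).2 = Q.2 * (S i).2 / Q.2
      rw [mul_div_cancel_left₀ _ hQ.ne']
  have e2 : sc Q (fun _ : D n => y) = fun _ => y := rfl
  rw [e1, e2, mul_one] at h3
  have hCL : 0 ≤ C * L := mul_nonneg (by linarith only [hC]) hL
  have h4 := h3.mono (L' := (2 * C + 4) * L) (T' := P0.2) (U' := P0.op) (by
    rw [q2, div_le_iff₀ ha]
    have := mul_nonneg hCL ha.le
    linarith only [this]) le_rfl (q2 ▸ haR) hQP
  have h5 := h2.mono (L' := (2 * C + 4) * L) (by linarith) le_rfl le_rfl subset_rfl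
  have h6 := (h5.trans h4 (by linarith only [hL, hCL]) hR.le hR.le).speed (by linarith only [hL, hCL]) hR (by linarith)
  refine h6.mono (le_of_eq ?_) (by norm_num) le_rfl subset_rfl
  field_simp
  ring

end Pool.Agent.Work.MP_4b5e6c_gt
end
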