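import Pool.Agent.Work.MP_4b5e6c_gt.Stmt
import Pool.Agent.Work.MP_4b5e6c_gt.Rearr

-- merged part: Pool.Agent.Work.MP_4b5e6c_gt.SphQ
section
/-! Task SPHQ: the collapse of the unit cube onto the sphere, and descent of homotopies. -/

namespace Pool.Agent.Work.MP_4b5e6c_gt
open Metric Set Stmt

variable {k : ℕ}

/-- The weight `(1 - ‖x‖)₊`. -/
noncomputable def rho (x : D (k + 1)) : ℝ := max (1 - ‖x‖) 0

theorem qden_pos (x : D (k + 1)) : 0 < ∑ i, x i ^ 2 + rho x ^ 2 := by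
  by_cases hx : x = 0
  · simp [hx, rho]
  · obtain ⟨i, hi⟩ := Function.ne_iff.1 hx
    have h1 : x i ^ 2 ≤ ∑ i, x i ^ 2 :=
      Finset.single_le_sum (f := fun i => x i ^ 2) (fun _ _ => sq_nonneg _) (Finset.mem_univ i)
    have h2 : 0 < x i ^ 2 := sq_pos_of_ne_zero hi
    linarith only [h1, h2, sq_nonneg (rho x), sq_nonneg (rho x)]

/-- The inverse stereographic projection of `x / (1 - ‖x‖)`; the base point outside the cube. -/
noncomputable def qS (x : D (k + 1)) : Sph k :=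
  ⟨WithLp.toLp 2 (Fin.cons ((∑ i, x i ^ 2 - rho x ^ 2) / (∑ i, x i ^ 2 + rho x ^ 2))
      fun i : Fin (k + 1) => 2 * rho x * x i / (∑ i, x i ^ 2 + rho x ^ 2)), by
    have h := (qden_pos x).ne'
    rw [mem_sphere_zero_iff_norm, EuclideanSpace.norm_eq, Real.sqrt_eq_one, Fin.sum_univ_succ]
    simp only [Fin.cons_zero, Fin.cons_succ, Real.norm_eq_abs, sq_abs, mul_pow, div_pow,
      ← Finset.sum_div, ← Finset.mul_sum]
    field_simp
    ring⟩

namespace SphQ

section BL
variable {A : Type} [PseudoMetricSpace A]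

/-- Bounded Lipschitz real functions. -/
def BL (f : A → ℝ) : Prop := ∃ L B : ℝ, 0 ≤ L ∧ 0 ≤ B ∧ Lip L f ∧ ∀ a, |f a| ≤ B

theorem BL.const (c : ℝ) : BL fun _ : A => c :=
  ⟨0, |c|, le_rfl, abs_nonneg _, lip_const le_rfl c, fun _ => le_rfl⟩

theorem BL.add {f g : A → ℝ} (hf : BL f) (hg : BL g) : BL fun a => f a + g a := by
  obtain ⟨L, B, hL, hB, h1, h2⟩ := hf
  obtain ⟨L', B', hL', hB', h1', h2'⟩ := hg
  refine ⟨L + L', B + B', by positivity, by positivity, fun a b => ?_,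
    fun a => (abs_add_le _ _).trans (add_le_add (h2 a) (h2' a))⟩
  refine (dist_add_add_le _ _ _ _).trans ?_
  rw [add_mul]
  exact add_le_add (h1 a b) (h1' a b)

theorem BL.mul {f g : A → ℝ} (hf : BL f) (hg : BL g) : BL fun a => f a * g a := by
  obtain ⟨L, B, hL, hB, h1, h2⟩ := hf
  obtain ⟨L', B', hL', hB', h1', h2'⟩ := hg
  refine ⟨L * B' + B * L', B * B', by positivity, by positivity, fun a b => ?_, fun a => ?_⟩
  · have e1 := h1 a b
    have e2 := h1' a b
    rw [Real.dist_eq] at e1 e2 ⊢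
    calc |f a * g a - f b * g b| = |(f a - f b) * g a + f b * (g a - g b)| := by congr 1; ring
      _ ≤ |f a - f b| * |g a| + |f b| * |g a - g b| := by
          rw [← abs_mul, ← abs_mul]
          exact abs_add_le _ _
      _ ≤ L * dist a b * B' + B * (L' * dist a b) :=
          add_le_add (mul_le_mul e1 (h2' a) (abs_nonneg _) (by positivity))
            (mul_le_mul (h2 b) e2 (abs_nonneg _) hB)
      _ = _ := by ring
  · rw [abs_mul]
    exact mul_le_mul (h2 a) (h2' a) (abs_nonneg _) hB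

theorem BL.sub {f g : A → ℝ} (hf : BL f) (hg : BL g) : BL fun a => f a - g a := by
  simpa [sub_eq_add_neg] using hf.add ((BL.const (-1)).mul hg)

theorem BL.sq {f : A → ℝ} (hf : BL f) : BL fun a => f a ^ 2 := by
  simpa [pow_two] using hf.mul hf

theorem BL.sum {I : Type} (s : Finset I) {f : I → A → ℝ} (hf : ∀ i ∈ s, BL (f i)) :
    BL fun a => ∑ i ∈ s, f i a := by
  classical
  induction s using Finset.induction_on with
  | empty => simpa using BL.const 0
  | insert i s hi ih =>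
    simp only [Finset.sum_insert hi]
    exact (hf i (Finset.mem_insert_self _ _)).add (ih fun j hj => hf j (Finset.mem_insert_of_mem hj))

theorem BL.inv {f : A → ℝ} {L c : ℝ} (hL : 0 ≤ L) (hf : Lip L f) (hc : 0 < c) (h : ∀ a, c ≤ f a) :
    BL fun a => (f a)⁻¹ := by
  refine ⟨L / c ^ 2, c⁻¹, by positivity, by positivity, fun a b => ?_, fun a => ?_⟩
  · have e1 := hf a b
    have ha := hc.trans_le (h a)
    have hb := hc.trans_le (h b)
    rw [Real.dist_eq] at e1 ⊢
    rw [inv_sub_inv ha.ne' hb.ne', abs_div, abs_sub_comm, abs_of_pos (mul_pos ha hb),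
      div_mul_eq_mul_div]
    have : c ^ 2 ≤ f a * f b := by
      rw [pow_two]
      exact mul_le_mul (h a) (h b) hc.le ha.le
    gcongr
  · rw [abs_of_pos (inv_pos.2 (hc.trans_le (h a)))]
    exact inv_anti₀ hc (h a)

theorem BL.div {f g : A → ℝ} (hf : BL f) (hg : BL g) {c : ℝ} (hc : 0 < c) (h : ∀ a, c ≤ g a) :
    BL fun a => f a / g a := by
  obtain ⟨L', -, hL', -, h1', -⟩ := hg
  simpa [div_eq_mul_inv] using hf.mul (BL.inv hL' h1' hc h)

theorem lip_pi {m : ℕ} {f : A → D m} (h : ∀ i, BL fun a => f a i) : ∃ L, 0 ≤ L ∧ Lip L f := by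
  choose L B hL hB h1 h2 using h
  refine ⟨∑ i, L i, Finset.sum_nonneg fun i _ => hL i, fun a b => ?_⟩
  refine (dist_pi_le_iff (mul_nonneg (Finset.sum_nonneg fun i _ => hL i) dist_nonneg)).2 fun i => ?_
  exact (h1 i a b).trans (mul_le_mul_of_nonneg_right
    (Finset.single_le_sum (fun j _ => hL j) (Finset.mem_univ i)) dist_nonneg)

theorem lip_sph {f : A → Sph k} (h : ∀ i, BL fun a => (f a).1 i) : ∃ L, 0 ≤ L ∧ Lip L f := by
  choose L B hL hB h1 h2 using h
  refine ⟨∑ i, L i, Finset.sum_nonneg fun i _ => hL i, fun a b => ?_⟩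
  rw [Subtype.dist_eq, EuclideanSpace.dist_eq]
  refine Real.sqrt_le_iff.2 ⟨mul_nonneg (Finset.sum_nonneg fun i _ => hL i) dist_nonneg, ?_⟩
  rw [Finset.sum_mul]
  refine le_trans (Finset.sum_le_sum fun i _ => pow_le_pow_left₀ dist_nonneg (h1 i a b) 2) ?_
  exact Finset.sum_sq_le_sq_sum_of_nonneg fun i _ => mul_nonneg (hL i) dist_nonneg

/-- Cutting off a bounded Lipschitz map along a band on which it is constant. -/
theorem band {Z : Type} [PseudoMetricSpace Z] {φ : A → ℝ} (hφ : Lip 1 φ) {g : A → Z} {y : Z}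
    {M B δ : ℝ} (hM : 0 ≤ M) (hB : 0 ≤ B) (hδ : 0 < δ) (hg : Lip M g) (hb : ∀ a, dist (g a) y ≤ B)
    (h : ∀ a, δ ≤ φ a → φ a ≤ 2 * δ → g a = y) :
    Lip (M + B / δ) fun a => if δ ≤ φ a then g a else y := by
  have key : ∀ a b, δ ≤ φ a → ¬ δ ≤ φ b → dist (g a) y ≤ (M + B / δ) * dist a b := by
    intro a b ha hb'
    by_cases h2 : φ a ≤ 2 * δ
    · rw [h a ha h2, dist_self]
      positivity
    · have h3 := hφ a b
      rw [one_mul, Real.dist_eq] at h3
      have h4 : δ ≤ dist a b := by linarith only [hb', h2, h3, le_abs_self (φ a - φ b)]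
      calc dist (g a) y ≤ B / δ * δ := by rw [div_mul_cancel₀ _ hδ.ne']; exact hb a
        _ ≤ (M + B / δ) * dist a b :=
          mul_le_mul (le_add_of_nonneg_left hM) h4 hδ.le (by positivity)
  intro a b
  beta_reduce
  split_ifs with ha hb'
  · exact (hg a b).trans (mul_le_mul_of_nonneg_right (le_add_of_nonneg_right (by positivity))
      dist_nonneg)
  · exact key a b ha hb'
  · rw [dist_comm, dist_comm a]
    exact key b a ‹_› ha
  · rw [dist_self]
    positivity

end BL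

theorem qS_zero (x : D (k + 1)) :
    (qS x).1 0 = (∑ i, x i ^ 2 - rho x ^ 2) / (∑ i, x i ^ 2 + rho x ^ 2) := rfl

theorem qS_succ (x : D (k + 1)) (i : Fin (k + 1)) :
    (qS x).1 i.succ = 2 * rho x * x i / (∑ i, x i ^ 2 + rho x ^ 2) := rfl

theorem base_zero : (base k).1 0 = 1 := by simp [base]

theorem base_succ (i : Fin (k + 1)) : (base k).1 i.succ = 0 := by simp [base]

theorem qS_out {x : D (k + 1)} (hx : 1 ≤ ‖x‖) : qS x = base k := by
  have h0 : rho x = 0 := max_eq_right (by linarith)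
  have h1 := (qden_pos x).ne'
  refine Subtype.ext (PiLp.ext fun i => ?_)
  refine Fin.cases ?_ (fun i => ?_) i
  · rw [qS_zero, base_zero, div_eq_one_iff_eq h1, h0]
    ring
  · rw [qS_succ, base_succ, h0]
    simp

theorem half_le_den (x : D (k + 1)) : 1 / 2 ≤ ∑ i, x i ^ 2 + rho x ^ 2 := by
  obtain ⟨i, hi⟩ : ∃ i, ‖x‖ ≤ |x i| := by
    by_contra h
    push Not at h
    exact lt_irrefl _ ((pi_norm_lt_iff ((abs_nonneg _).trans_lt (h 0))).2 h)
  have h1 : x i ^ 2 ≤ ∑ i, x i ^ 2 :=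
    Finset.single_le_sum (f := fun i => x i ^ 2) (fun _ _ => sq_nonneg _) (Finset.mem_univ i)
  have h2 : ‖x‖ ^ 2 ≤ x i ^ 2 := by
    rw [← sq_abs (x i)]
    exact pow_le_pow_left₀ (norm_nonneg _) hi 2
  rcases le_total 1 ‖x‖ with h | h
  · linarith only [h1, h2, h, sq_nonneg (rho x), sq_nonneg (rho x), mul_nonneg_of_nonpos_of_nonpos (Mathlib.Tactic.Linarith.sub_nonpos_of_le h) (Mathlib.Tactic.Linarith.sub_nonpos_of_le h)]
  · rw [rho, max_eq_left (by linarith)]
    linarith only [h1, h2, sq_nonneg (‖x‖ - 1 / 2), sq_nonneg ((2 : ℝ) * ‖x‖ - (1 : ℝ) * (1 : ℝ))]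

theorem lip_clamp (u v : ℝ) : Lip 1 fun t : ℝ => max u (min v t) := fun a b => by
  have := ((LipschitzWith.id.const_min v).const_max u).dist_le_mul a b
  simpa using this

theorem lip_rho : Lip 1 (rho : D (k + 1) → ℝ) := fun a b => by
  rw [one_mul, Real.dist_eq]
  refine (abs_max_sub_max_le_abs _ _ _).trans ?_
  rw [show 1 - ‖a‖ - (1 - ‖b‖) = ‖b‖ - ‖a‖ by ring, dist_comm, dist_eq_norm]
  exact abs_norm_sub_norm_le _ _

theorem norm_normalize_sub {E : Type} [NormedAddCommGroup E] [NormedSpace ℝ E] {v w : E} {c : ℝ}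
    (hc : 0 < c) (hv : c ≤ ‖v‖) (hw : c ≤ ‖w‖) : ‖‖v‖⁻¹ • v - ‖w‖⁻¹ • w‖ ≤ 2 / c * ‖v - w‖ := by
  have hv0 := hc.trans_le hv
  have hw0 := hc.trans_le hw
  have e : ‖v‖⁻¹ • v - ‖w‖⁻¹ • w = ‖v‖⁻¹ • (v - w) + (‖v‖⁻¹ - ‖w‖⁻¹) • w := by
    rw [smul_sub, sub_smul]
    abel
  have h1 : |‖v‖⁻¹ - ‖w‖⁻¹| * ‖w‖ ≤ ‖v‖⁻¹ * ‖v - w‖ := by
    rw [inv_sub_inv hv0.ne' hw0.ne', abs_div, abs_of_pos (mul_pos hv0 hw0), abs_sub_comm]
    calc |‖v‖ - ‖w‖| / (‖v‖ * ‖w‖) * ‖w‖ = ‖v‖⁻¹ * |‖v‖ - ‖w‖| := by field_simp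
      _ ≤ _ := mul_le_mul_of_nonneg_left (abs_norm_sub_norm_le _ _) (by positivity)
  have h2 : ‖v‖⁻¹ * ‖v - w‖ ≤ c⁻¹ * ‖v - w‖ :=
    mul_le_mul_of_nonneg_right (inv_anti₀ hc hv) (norm_nonneg _)
  rw [e]
  refine (norm_add_le _ _).trans ?_
  rw [norm_smul, norm_smul, Real.norm_eq_abs, Real.norm_eq_abs, abs_of_pos (inv_pos.2 hv0),
    div_eq_mul_inv]
  linarith only [h1, h2]

theorem norm_sph (X : Sph k) : ‖X.1‖ = 1 := mem_sphere_zero_iff_norm.1 X.2

theorem bl_coord (i : Fin (k + 2)) : BL fun X : Sph k => X.1 i :=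
  ⟨1, 1, zero_le_one, zero_le_one, fun a b => by
    rw [one_mul, Subtype.dist_eq]
    exact PiLp.dist_apply_le _ _ i, fun a => (PiLp.norm_apply_le a.1 i).trans_eq (norm_sph a)⟩

theorem sum_sq (X : Sph k) : X.1 0 ^ 2 + ∑ i : Fin (k + 1), X.1 i.succ ^ 2 = 1 := by
  have h := norm_sph X
  rw [EuclideanSpace.norm_eq, Real.sqrt_eq_one, Fin.sum_univ_succ] at h
  simpa only [Real.norm_eq_abs, sq_abs] using h

theorem lip_time {A Z : Type} [PseudoMetricSpace A] [PseudoMetricSpace Z] {F : A × ℝ → Z} {L : ℝ}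
    (hL : 0 ≤ L) (hF : Lip L F) (c : ℝ) : Lip (L * 2) fun p : A × ℝ => F (p.1, 2 * p.2 - c) := by
  refine hF.comp (f := fun p : A × ℝ => (p.1, 2 * p.2 - c)) (fun p q => ?_) hL
  have h1 : dist p.1 q.1 ≤ dist p q := le_max_left _ _
  have h2 : dist p.2 q.2 ≤ dist p q := le_max_right _ _
  rw [Prod.dist_eq]
  refine max_le (by linarith [dist_nonneg (x := p) (y := q)]) ?_
  rw [Real.dist_eq] at h2 ⊢
  rw [show 2 * p.2 - c - (2 * q.2 - c) = 2 * (p.2 - q.2) by ring, abs_mul, abs_two]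
  linarith

theorem glue_time {A Z : Type} [PseudoMetricSpace A] [PseudoMetricSpace Z] {F F' : A × ℝ → Z}
    {L L' c : ℝ} (hL : 0 ≤ L) (hL' : 0 ≤ L') (hF : Lip L F) (hF' : Lip L' F')
    (h : ∀ a s t, s ≤ c → c ≤ t → F (a, t) = F' (a, s)) :
    Lip (L + L') fun p : A × ℝ => if p.2 ≤ c then F p else F' p := by
  have key : ∀ p q : A × ℝ, p.2 ≤ c → ¬ q.2 ≤ c → dist (F p) (F' q) ≤ (L + L') * dist p q := by
    intro p q hp hq
    have h1 := hF p q
    have h2 := hF' (q.1, p.2) q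
    have h3 : dist (q.1, p.2) q ≤ dist p q := by
      rw [Prod.dist_eq, Prod.dist_eq, dist_self]
      exact max_le_max dist_nonneg le_rfl
    have h4 := mul_le_mul_of_nonneg_left h3 hL'
    rw [← h q.1 p.2 q.2 hp (not_le.1 hq).le] at h2
    linarith only [h1, h2, h4, dist_triangle (F p) (F q) (F' q)]
  intro p q
  beta_reduce
  split_ifs with hp hq
  · exact (hF p q).trans (mul_le_mul_of_nonneg_right (le_add_of_nonneg_right hL') dist_nonneg)
  · exact key p q hp hq
  · rw [dist_comm, dist_comm p]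
    exact key q p ‹_› hp
  · exact (hF' p q).trans (mul_le_mul_of_nonneg_right (le_add_of_nonneg_left hL) dist_nonneg)

end SphQ

open SphQ

theorem item_qS : ∃ L : ℝ, 0 ≤ L ∧ Item (base k) L (qS : D (k + 1) → Sph k) := by
  let c : D (k + 1) → D (k + 1) := fun x i => max (-1) (min 1 (x i))
  have hc : ∀ i, BL fun x => c x i := fun i =>
    ⟨1, 1, zero_le_one, zero_le_one, fun a b => (lip_clamp _ _ _ _).trans
      (mul_le_mul_of_nonneg_left (dist_le_pi_dist a b i) zero_le_one),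
      fun a => abs_le.2 ⟨le_max_left _ _, max_le (by norm_num) (min_le_left _ _)⟩⟩
  obtain ⟨L0, hL0, hc'⟩ := lip_pi hc
  have hr : BL fun x => rho (c x) :=
    ⟨1 * L0, 1, by positivity, zero_le_one, lip_rho.comp hc' zero_le_one, fun a =>
      abs_le.2 ⟨le_max_of_le_right (by norm_num),
        max_le (by linarith [norm_nonneg (c a)]) zero_le_one⟩⟩
  have hS : BL fun x => ∑ i, c x i ^ 2 := BL.sum _ fun i _ => (hc i).sq
  have he : ∀ x, qS (c x) = qS x := by
    intro x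
    rcases le_or_gt ‖x‖ 1 with h | h
    · congr 1
      funext i
      have := abs_le.1 ((norm_le_pi_norm x i).trans h)
      simp only [c]
      rw [min_eq_right this.2, max_eq_right this.1]
    · rw [qS_out h.le, qS_out]
      by_contra h1
      refine absurd ((pi_norm_le_iff_of_nonneg zero_le_one).2 fun i => ?_) (not_le.2 h)
      have := abs_lt.1 ((norm_le_pi_norm (c x) i).trans_lt (not_le.1 h1))
      simp only [c, lt_max_iff, max_lt_iff, lt_min_iff, min_lt_iff, lt_irrefl, false_or] at this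
      exact abs_le.2 ⟨this.1.2.le, this.2.2.le⟩
  obtain ⟨L, hL, h⟩ := lip_sph (f := fun x => qS (c x)) fun i => by
    refine Fin.cases ?_ (fun i => ?_) i
    · exact (hS.sub hr.sq).div (hS.add hr.sq) one_half_pos fun x => half_le_den _
    · exact (((BL.const 2).mul hr).mul (hc i)).div (hS.add hr.sq) one_half_pos
        fun x => half_le_den _
  simp only [he] at h
  exact ⟨L, hL, h, fun x => qS_out⟩

/-- The normalised straight line homotopy between two maps to the sphere that are nowhere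
antipodal; outside a compact set they agree. -/
theorem exists_sphere_segment {A : Type} [PseudoMetricSpace A] {P P' : A → Sph k} {L : ℝ}
    (hP : Lip L P) (hP' : Lip L P') {K : Set A} (hK : IsCompact K)
    (h : ∀ a ∈ K, (P a).1 + (P' a).1 ≠ 0) (h' : ∀ a, a ∉ K → P' a = P a) :
    ∃ (G : A × ℝ → Sph k) (L' : ℝ), 0 ≤ L' ∧ Lip L' G ∧ (∀ a t, t ≤ 0 → G (a, t) = P a) ∧
      (∀ a t, 1 ≤ t → G (a, t) = P' a) ∧ ∀ a t, P' a = P a → G (a, t) = P a := by
  let W : A × ℝ → EuclideanSpace ℝ (Fin (k + 2)) := fun p => (1 - p.2) • (P p.1).1 + p.2 • (P' p.1).1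
  have hW : Continuous fun p => ‖W p‖ := by
    have h1 := hP.continuous
    have h2 := hP'.continuous
    fun_prop
  obtain ⟨c, hc, hc'⟩ := (hK.prod (isCompact_Icc : IsCompact (Icc (0 : ℝ) 1))).exists_forall_le'
    hW.continuousOn (a := 0) (by
      rintro ⟨a, t⟩ ⟨ha, ht0, ht1⟩
      refine norm_pos_iff.2 fun h0 => h a ha ?_
      have h1 : (1 - t) • (P a).1 = -(t • (P' a).1) := eq_neg_of_add_eq_zero_left h0
      have h2 := congrArg norm h1
      rw [norm_neg, norm_smul, norm_smul, norm_sph, norm_sph, Real.norm_of_nonneg ht0,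
        Real.norm_of_nonneg (sub_nonneg.2 ht1)] at h2
      have h3 : t = 1 / 2 := by linarith only [h2]
      have h4 : (1 / 2 : ℝ) • ((P a).1 + (P' a).1) = 0 := by
        refine Eq.trans ?_ h0
        rw [smul_add]
        simp only [W, h3]
        norm_num
      exact (smul_eq_zero.1 h4).resolve_left (by norm_num))
  let τ : ℝ → ℝ := fun t => max 0 (min 1 t)
  have hτ : ∀ t, τ t ∈ Icc (0 : ℝ) 1 := fun t =>
    ⟨le_max_left _ _, max_le zero_le_one (min_le_left _ _)⟩
  have hWe : ∀ a t, P' a = P a → W (a, t) = (P a).1 := fun a t he => by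
    simp only [W, he]
    rw [← add_smul, sub_add_cancel, one_smul]
  have hlow : ∀ p : A × ℝ, min c 1 ≤ ‖W (p.1, τ p.2)‖ := fun p => by
    by_cases ha : p.1 ∈ K
    · exact (min_le_left _ _).trans (hc' (p.1, τ p.2) ⟨ha, hτ _⟩)
    · rw [hWe _ _ (h' _ ha), norm_sph]
      exact min_le_right _ _
  have hc1 : 0 < min c 1 := lt_min hc one_pos
  have hn : ∀ (p : A × ℝ) (X : Sph k), W (p.1, τ p.2) = X.1 →
      ‖W (p.1, τ p.2)‖⁻¹ • W (p.1, τ p.2) = X.1 := fun p X he => by
    rw [he, norm_sph, inv_one, one_smul]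
  refine ⟨fun p => ⟨‖W (p.1, τ p.2)‖⁻¹ • W (p.1, τ p.2), ?_⟩, 2 / min c 1 * (|L| + 2),
    by positivity, fun p q => ?_, fun a t ht => Subtype.ext (hn (a, t) _ ?_),
    fun a t ht => Subtype.ext (hn (a, t) _ ?_), fun a t he => Subtype.ext (hn (a, t) _ (hWe _ _ he))⟩
  · rw [mem_sphere_zero_iff_norm, norm_smul, norm_inv, norm_norm,
      inv_mul_cancel₀ (hc1.trans_le (hlow p)).ne']
  · rw [Subtype.dist_eq, dist_eq_norm, mul_assoc]
    refine (norm_normalize_sub hc1 (hlow p) (hlow q)).trans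
      (mul_le_mul_of_nonneg_left ?_ (by positivity))
    have e : W (p.1, τ p.2) - W (q.1, τ q.2) = (1 - τ p.2) • ((P p.1).1 - (P q.1).1)
        + τ p.2 • ((P' p.1).1 - (P' q.1).1) + (τ p.2 - τ q.2) • ((P' q.1).1 - (P q.1).1) := by
      simp only [W]
      module
    have d1 : dist p.1 q.1 ≤ dist p q := le_max_left _ _
    have d2 : dist p.2 q.2 ≤ dist p q := le_max_right _ _
    have h1 : ‖(P p.1).1 - (P q.1).1‖ ≤ |L| * dist p q := by
      rw [← dist_eq_norm]
      exact (hP p.1 q.1).trans (mul_le_mul (le_abs_self _) d1 dist_nonneg (abs_nonneg _))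
    have h2 : ‖(P' p.1).1 - (P' q.1).1‖ ≤ |L| * dist p q := by
      rw [← dist_eq_norm]
      exact (hP' p.1 q.1).trans (mul_le_mul (le_abs_self _) d1 dist_nonneg (abs_nonneg _))
    have h3 : ‖(P' q.1).1 - (P q.1).1‖ ≤ 2 := by
      refine (norm_sub_le _ _).trans ?_
      rw [norm_sph, norm_sph]
      norm_num
    have h4 : ‖τ p.2 - τ q.2‖ ≤ dist p q := by
      have := lip_clamp 0 1 p.2 q.2
      rw [one_mul, dist_eq_norm] at this
      exact this.trans d2
    have h5 := hτ p.2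
    rw [e]
    refine (norm_add₃_le).trans ?_
    rw [norm_smul, norm_smul, norm_smul, Real.norm_of_nonneg h5.1,
      Real.norm_of_nonneg (sub_nonneg.2 h5.2)]
    have h6 := mul_le_mul_of_nonneg_left h1 (sub_nonneg.2 h5.2)
    have h7 := mul_le_mul_of_nonneg_left h2 h5.1
    have h8 := mul_le_mul h4 h3 (norm_nonneg _) dist_nonneg
    linarith only [h6, h7, h8]
  · have : τ t = 0 := max_eq_left (min_le_of_right_le ht)
    simp [W, this]
  · have : τ t = 1 := by
      simp only [τ]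
      rw [min_eq_left ht, max_eq_right zero_le_one]
    simp [W, this]

/-- A null-homotopy of `f ∘ qS` gives a based null-homotopy of `f`. -/
theorem descend {Z : Type} [MetricSpace Z] {f : Sph k → Z} {y : Z} {L L' : ℝ} (hf : Lip L f)
    (hy : f (base k) = y) (h : Hty L' 0 1 (ball 0 1) (fun x => f (qS x)) fun _ => y) :
    ∃ (F : Sph k × ℝ → Z) (L'' : ℝ), Lip L'' F ∧ (∀ a, F (a, 0) = f a) ∧ (∀ a, F (a, 1) = y) ∧
      ∀ τ, F (base k, τ) = y := by
  obtain ⟨H, hH, h0, h1, hU⟩ := h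
  have hH' : Lip |L'| H := (lip_iff_aLip.2 hH).mono (le_abs_self _)
  have hf' : Lip |L| f := hf.mono (le_abs_self _)
  obtain ⟨Lq, hLq, hq, -⟩ := item_qS (k := k)
  have hk : (0 : ℝ) ≤ k := Nat.cast_nonneg k
  set δ : ℝ := 1 / (k + 2) with hδ
  have hδ0 : 0 < δ := by positivity
  have hδ1 : δ ≤ 1 / 2 := one_div_le_one_div_of_le (by norm_num) (by linarith only [])
  let φ : Sph k → ℝ := fun X => 1 - X.1 0
  have hφ : Lip 1 φ := fun a b => by
    rw [one_mul, Subtype.dist_eq]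
    refine le_trans (le_of_eq ?_) (PiLp.dist_apply_le a.1 b.1 0)
    exact dist_sub_left _ _ _
  let J : Sph k → D (k + 1) := fun X i => X.1 i.succ / max (φ X) δ
  obtain ⟨LJ, hLJ, hJ⟩ := lip_pi (f := J) fun i => by
    have : Lip 1 fun X => max (φ X) δ := fun a b =>
      (abs_max_sub_max_le_abs _ _ _).trans (hφ a b)
    simpa [J, div_eq_mul_inv] using (bl_coord i.succ).mul
      (BL.inv zero_le_one this hδ0 fun X => le_max_right _ _)
  obtain hband : ∀ X, δ ≤ φ X → φ X ≤ 2 * δ → 1 ≤ ‖J X‖ := by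
    intro X ha hb
    by_contra hn
    have hφ0 := hδ0.trans_le ha
    have e1 : ∀ i : Fin (k + 1), X.1 i.succ ^ 2 < φ X ^ 2 := fun i => by
      have := (norm_le_pi_norm (J X) i).trans_lt (not_le.1 hn)
      simp only [J] at this
      rw [max_eq_left ha, Real.norm_eq_abs, abs_div, abs_of_pos hφ0, div_lt_one hφ0] at this
      rw [← sq_abs]
      exact pow_lt_pow_left₀ this (abs_nonneg _) two_ne_zero
    have e2 : ∑ i : Fin (k + 1), X.1 i.succ ^ 2 < ∑ _i : Fin (k + 1), φ X ^ 2 :=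
      Finset.sum_lt_sum_of_nonempty Finset.univ_nonempty fun i _ => e1 i
    have e3 := sum_sq X
    have e4 : X.1 0 = 1 - φ X := by simp [φ]
    obtain e5 : φ X * (k + 2) ≤ 2 := by
      rw [hδ, mul_one_div, le_div_iff₀ (by positivity)] at hb
      exact hb
    rw [Finset.sum_const, Finset.card_univ, Fintype.card_fin, nsmul_eq_mul] at e2
    push_cast at e2
    rw [e4] at e3
    linarith only [e3, hδ0, e5, e2, hδ1, ha, mul_nonneg_of_nonpos_of_nonpos (le_of_lt (Mathlib.Tactic.Linarith.sub_neg_of_lt hδ0)) (Mathlib.Tactic.Linarith.sub_nonpos_of_le e5), mul_pos_of_neg_of_neg (Mathlib.Tactic.Linarith.sub_neg_of_lt hδ0) (Mathlib.Tactic.Linarith.sub_neg_of_lt e2), mul_nonneg_of_nonpos_of_nonpos (Mathlib.Tactic.Linarith.sub_nonpos_of_le hδ1) (le_of_lt (Mathlib.Tactic.Linarith.sub_neg_of_lt e2)), mul_nonneg_of_nonpos_of_nonpos (Mathlib.Tactic.Linarith.sub_nonpos_of_le ha) (Mathlib.Tactic.Linarith.sub_nonpos_of_le e5)]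
  obtain hφb : ¬ δ ≤ φ (base k) := by
    simp only [φ, base_zero, sub_self, not_le]
    exact hδ0
  have hP := band hφ (g := fun X => qS (J X)) (y := base k) (B := 2) (by positivity) zero_le_two hδ0
    (hq.comp hJ hLq) (fun X => by
      rw [Subtype.dist_eq, dist_eq_norm]
      refine (norm_sub_le _ _).trans ?_
      rw [norm_sph, norm_sph]
      norm_num) fun X ha hb => qS_out (hband X ha hb)
  set P' : Sph k → Sph k := fun X => if δ ≤ φ X then qS (J X) else base k with hP'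
  have hJ' : Lip (LJ + 1) fun p : Sph k × ℝ => (J p.1, p.2) := fun p q => by
    have d1 : dist p.1 q.1 ≤ dist p q := le_max_left _ _
    have d2 : dist p.2 q.2 ≤ dist p q := le_max_right _ _
    have d3 := mul_le_mul_of_nonneg_left d1 hLJ
    have d4 := hJ p.1 q.1
    have d5 : 0 ≤ LJ * dist p q := by positivity
    rw [Prod.dist_eq]
    exact max_le (by linarith only [d3, d4, dist_nonneg (x := p) (y := q)]) (by linarith only [d2, d5])
  have hH2 := band (φ := fun p : Sph k × ℝ => φ p.1)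
    (fun p q => (hφ p.1 q.1).trans (mul_le_mul_of_nonneg_left (le_max_left _ _) zero_le_one))
    (g := fun p => H (J p.1, p.2)) (y := y) (B := |L'|) (by positivity) (abs_nonneg _) hδ0
    (hH'.comp hJ' (abs_nonneg _)) (fun p => by
      have key : ∀ t, 0 ≤ t → dist (H (J p.1, t)) y ≤ |L'| := fun t ht => by
        rcases le_total 1 t with h2 | h2
        · rw [h1 _ _ h2, dist_self]
          exact abs_nonneg _
        · have h3 := hH' (J p.1, t) (J p.1, 1)
          rw [h1 _ _ le_rfl] at h3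
          refine h3.trans (mul_le_of_le_one_right (abs_nonneg _) ?_)
          rw [Prod.dist_eq, dist_self, Real.dist_eq]
          exact max_le zero_le_one (abs_le.2 ⟨by linarith only [ht], by linarith only [hδ0, hδ1, h2]⟩)
      rcases le_total 0 p.2 with h2 | h2
      · exact key _ h2
      · rw [h0 _ _ h2, ← h0 _ _ le_rfl]
        exact key 0 le_rfl)
    fun p ha hb => by
      have h2 := hband p.1 ha hb
      rw [hU _ _ (by simpa using h2)]
      beta_reduce
      rw [qS_out h2, hy]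
  obtain ⟨G, LG, hLG, hG, g0, g1, g2⟩ := exists_sphere_segment (P := fun X : Sph k => X) (P' := P')
    (L := Lq * LJ + 2 / δ + 1)
    (fun a b => le_mul_of_one_le_left dist_nonneg (le_add_of_nonneg_left (by positivity)))
    (hP.mono (by linarith only [hδ0, hδ1])) isCompact_univ (fun X _ he => by
      have e0 : X.1 0 + (P' X).1 0 = 0 := congrArg (fun v => v 0) he
      by_cases ha : δ ≤ φ X
      · have e1 : P' X = qS (J X) := if_pos ha
        rw [e1] at he e0
        have hφ0 := hδ0.trans_le ha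
        obtain e2 : J X = 0 := by
          funext i
          have e3 : X.1 i.succ + (qS (J X)).1 i.succ = 0 := congrArg (fun v => v i.succ) he
          obtain e4 : X.1 i.succ = φ X * J X i := by
            simp only [J]
            rw [max_eq_left ha, mul_div_cancel₀ _ hφ0.ne']
          rw [qS_succ, e4, mul_div_right_comm, ← add_mul] at e3
          refine (mul_eq_zero.1 e3).resolve_left (ne_of_gt ?_)
          have e5 := qden_pos (J X)
          have e6 : 0 ≤ rho (J X) := le_max_right _ _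
          positivity
        rw [e2, qS_zero] at e0
        simp only [rho, Pi.zero_apply, norm_zero] at e0
        norm_num at e0
        simp only [φ] at hφ0
        linarith only [hδ0, ha, e0]
      · have e1 : P' X = base k := if_neg ha
        rw [e1, base_zero] at e0
        simp only [φ] at ha
        exact ha (by linarith only [hδ0, hδ1, e0, ha])) fun X hX => absurd (mem_univ X) hX
  have hF := glue_time (c := 1 / 2) (by positivity) (by positivity)
    (lip_time (by positivity) (hf'.comp hG (abs_nonneg _)) 0) (lip_time (by positivity) hH2 1)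
    fun a s t hs ht => by
      rw [g1 _ _ (by linarith only [ht])]
      simp only [hP']
      split_ifs
      · rw [h0 _ _ (by linarith only [hs])]
      · exact hy
  refine ⟨_, _, hF, fun a => ?_, fun a => ?_, fun τ => ?_⟩
  · rw [if_pos (by norm_num), g0 _ _ (by norm_num)]
  · rw [if_neg (by norm_num)]
    split_ifs
    · rw [h1 _ _ (by norm_num)]
    · rfl
  · split_ifs
    · rw [g2 _ _ (if_neg hφb), hy]
    · rfl

end Pool.Agent.Work.MP_4b5e6c_gt
end

-- merged part: Pool.Agent.Work.MP_4b5e6c_gt.Bary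
section
-- merged part: Pool.Agent.Work.MP_4b5e6c_gt.Pack
section
/-! Task PACK: packing, bins, volumes, colourings and nets. -/

namespace Pool.Agent.Work.MP_4b5e6c_gt
open Metric Set MeasureTheory

variable {n : ℕ} {I : Type}

theorem DC.volume_op (Q : DC n) : volume Q.op = ENNReal.ofReal (Q.side ^ n) := by
  rw [DC.op, Real.volume_pi_ball _ (half_pos Q.side_pos), Fintype.card_fin]
  congr 2; ring

theorem sum_side_pow_le_volume (s : Finset I) (Q : I → DC n)
    (hd : ∀ i ∈ s, ∀ j ∈ s, i ≠ j → (Q i).Disj (Q j)) (S : Set (D n))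
    (hS : ∀ i ∈ s, (Q i).op ⊆ S) :
    ENNReal.ofReal (∑ i ∈ s, (Q i).side ^ n) ≤ volume S := by
  rw [ENNReal.ofReal_sum_of_nonneg fun i _ => (pow_pos (Q i).side_pos n).le]
  simp only [← DC.volume_op]
  rw [← measure_biUnion_finset (fun i hi j hj e => hd i hi j hj e)
    fun i _ => (measurableSet_ball : MeasurableSet (Q i).op)]
  exact measure_mono (iUnion₂_subset hS)

theorem DC.volume_cl (Q : DC n) : volume Q.cl = ENNReal.ofReal (Q.side ^ n) := by
  rw [DC.cl, Real.volume_pi_closedBall _ (half_pos Q.side_pos).le, Fintype.card_fin]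
  congr 2; ring

theorem Pack.sum_le {C0 : DC n} {s : Finset I} {Q : I → DC n} (h : Pack C0 s Q) :
    ∑ i ∈ s, (Q i).side ^ n ≤ C0.side ^ n := by
  have := sum_side_pow_le_volume s Q h.2 C0.op h.1
  rwa [DC.volume_op, ENNReal.ofReal_le_ofReal_iff (pow_pos C0.side_pos n).le] at this

/-- A free cell of a level at least the levels of the packed cubes. -/
theorem Pack.exists_free {C0 : DC n} {s : Finset I} {Q : I → DC n} {j : ℤ} (hj : C0.j ≤ j)
    (hQ : ∀ i ∈ s, (Q i).j ≤ j) (h : ∑ i ∈ s, (Q i).side ^ n < C0.side ^ n) :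
    ∃ P : DC n, P.j = j ∧ P.Sub C0 ∧ ∀ i ∈ s, P.Disj (Q i) := by
  by_contra hc
  push Not at hc
  have hs : C0.cl ⊆ ⋃ i ∈ s, (Q i).cl := fun x hx => by
    obtain ⟨P, a, b, c⟩ := DC.exists_cube hx hj
    obtain ⟨i, hi, d⟩ := hc P a b
    exact mem_biUnion hi
      (((DC.sub_or_disj (a ▸ hQ i hi)).resolve_right d).cl_subset c)
  have := (measure_mono (μ := volume) hs).trans (measure_biUnion_finset_le s fun i => (Q i).cl)
  simp only [DC.volume_cl] at this
  rw [← ENNReal.ofReal_sum_of_nonneg fun i _ => (pow_pos (Q i).side_pos n).le,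
    ENNReal.ofReal_le_ofReal_iff
      (Finset.sum_nonneg fun i _ => (pow_pos (Q i).side_pos n).le)] at this
  exact h.not_ge this

/-- Dyadic cubes of prescribed levels and total volume at most that of `C0` can be packed. -/
theorem exists_pack (hn : 1 ≤ n) (C0 : DC n) (s : Finset I) (j : I → ℤ)
    (h : ∑ i ∈ s, ((2 : ℝ) ^ (-j i)) ^ n ≤ C0.side ^ n) :
    ∃ Q : I → DC n, (∀ i, (Q i).j = j i) ∧ Pack C0 s Q := by
  classical
  induction s using Finset.induction_on_max_value j with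
  | empty => exact ⟨fun i => ⟨j i, 0⟩, fun _ => rfl, by simp [Pack]⟩
  | insert a s ha hm ih =>
    rw [Finset.sum_insert ha] at h
    have p : ∀ i, 0 < ((2 : ℝ) ^ (-j i)) ^ n := fun i => by positivity
    have q : 0 ≤ ∑ i ∈ s, ((2 : ℝ) ^ (-j i)) ^ n := Finset.sum_nonneg fun i _ => (p i).le
    obtain ⟨Q, hQ, hP⟩ := ih (by linarith only [h, p, p a])
    have hj : C0.j ≤ j a := by
      refine (DC.side_le_side_iff (Q := Q a)).1 ?_ |>.trans (hQ a).le
      refine (pow_le_pow_iff_left₀ (Q a).side_pos.le C0.side_pos.le (by omega : n ≠ 0)).1 ?_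
      rw [DC.side, hQ]
      linarith only [h, q]
    obtain ⟨P, e, b, c⟩ := Pack.exists_free (s := s) (Q := Q) hj
      (fun i hi => (hQ i).le.trans (hm i hi)) (by
        simp only [DC.side, hQ] at h ⊢
        linarith [p a])
    have u : ∀ i ∈ s, Function.update Q a P i = Q i := fun i hi =>
      Function.update_of_ne (ne_of_mem_of_not_mem hi ha) _ _
    refine ⟨Function.update Q a P, fun i => ?_, fun i hi => ?_, fun i hi k hk ne => ?_⟩
    · by_cases f : i = a
      · rw [f, Function.update_self, e]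
      · rw [Function.update_of_ne f, hQ]
    · rcases Finset.mem_insert.1 hi with rfl | hi
      · rwa [Function.update_self]
      · rw [u i hi]; exact hP.1 i hi
    · rcases Finset.mem_insert.1 hi with rfl | hi' <;> rcases Finset.mem_insert.1 hk with rfl | hk'
      · exact (ne rfl).elim
      · rw [Function.update_self, u k hk']; exact c k hk'
      · rw [Function.update_self, u i hi']; exact (c i hi').symm
      · rw [u i hi', u k hk']; exact hP.2 i hi' k hk' ne

/-- The smallest dyadic volume above a given volume. -/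
theorem exists_level_pow (hn : 1 ≤ n) {x : ℝ} (hx : 0 < x) :
    ∃ j : ℤ, x ≤ ((2 : ℝ) ^ (-j)) ^ n ∧ ((2 : ℝ) ^ (-j)) ^ n ≤ 2 ^ n * x := by
  have hy : 0 < x ^ ((n : ℝ)⁻¹) := Real.rpow_pos_of_pos hx _
  have e : (x ^ ((n : ℝ)⁻¹)) ^ n = x := Real.rpow_inv_natCast_pow hx.le (by omega)
  obtain ⟨j, a, b⟩ := DC.exists_level hy
  have f : (2 : ℝ) ^ (-(j - 1)) = 2 * 2 ^ (-j) := by
    rw [show -(j - 1) = 1 + -j by ring, zpow_add₀ two_ne_zero, zpow_one]
  refine ⟨j - 1, ?_, ?_⟩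
  · rw [f, ← e]
    exact pow_le_pow_left₀ hy.le b.le n
  · rw [f, mul_pow]
    refine mul_le_mul_of_nonneg_left ?_ (by positivity)
    rw [← e]
    exact pow_le_pow_left₀ (by positivity) a n

/-- `M` disjoint subcubes at a bounded depth. -/
theorem exists_slots (hn : 1 ≤ n) (M : ℕ) (Q : DC n) :
    ∃ f : Fin M → DC n, (∀ i, (f i).j = Q.j + M) ∧ Pack Q Finset.univ f := by
  refine exists_pack hn Q Finset.univ (fun _ => Q.j + M) ?_
  have e : (2 : ℝ) ^ (-(Q.j + M)) = Q.side / 2 ^ M :=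
    DC.side_of_j_add (Q := ⟨Q.j + M, 0⟩) (Q' := Q) rfl
  rw [Finset.sum_const, Finset.card_univ, Fintype.card_fin, nsmul_eq_mul, e, div_pow,
    ← mul_div_assoc, div_le_iff₀ (by positivity), mul_comm]
  refine mul_le_mul_of_nonneg_left ?_ (pow_pos Q.side_pos n).le
  have : M ≤ (2 ^ M) ^ n :=
    Nat.lt_two_pow_self.le.trans (Nat.le_self_pow (by omega) _)
  exact_mod_cast this

theorem Pack.exists_batch (s : Finset I) (w : I → ℝ) {δ : ℝ} (hδ : 0 < δ)
    (hw : ∀ i ∈ s, 0 ≤ w i ∧ w i ≤ δ) :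
    ∃ t ⊆ s, ∑ i ∈ t, w i ≤ 2 * δ ∧ (δ ≤ ∑ i ∈ t, w i ∨ t = s) := by
  classical
  induction s using Finset.induction_on with
  | empty => exact ⟨∅, subset_rfl, by simpa using hδ.le, .inr rfl⟩
  | insert a s ha ih =>
    obtain ⟨t, p, q, r⟩ := ih fun i hi => hw i (Finset.mem_insert_of_mem hi)
    by_cases u : δ ≤ ∑ i ∈ t, w i
    · exact ⟨t, p.trans (Finset.subset_insert _ _), q, .inl u⟩
    · obtain rfl := r.resolve_left u
      refine ⟨_, subset_rfl, ?_, .inr rfl⟩
      rw [Finset.sum_insert ha]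
      linarith only [u, hw, (hw a (Finset.mem_insert_self _ _)).2, not_le.1 u]

/-- Distribution of small weights into a bounded number of bins. -/
theorem exists_bins (s : Finset I) (w : I → ℝ) {δ : ℝ} (hδ : 0 < δ) (K : ℕ)
    (hw : ∀ i ∈ s, 0 ≤ w i ∧ w i ≤ δ) (hs : ∑ i ∈ s, w i ≤ K * δ) :
    ∃ g : I → Fin (K + 1), ∀ k, ∑ i ∈ s with g i = k, w i ≤ 2 * δ := by
  classical
  induction K generalizing s with
  | zero =>
    refine ⟨fun _ => 0, fun k => ?_⟩
    have := Finset.sum_le_sum_of_subset_of_nonneg (f := w)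
      (Finset.filter_subset (fun _ => (0 : Fin (0 + 1)) = k) s) fun i hi _ => (hw i hi).1
    simp only [Nat.cast_zero, zero_mul] at hs
    linarith
  | succ K ih =>
    obtain ⟨t, p, q, r⟩ := Pack.exists_batch s w hδ hw
    obtain ⟨g, hg⟩ := ih (s \ t) (fun i hi => hw i (Finset.sdiff_subset hi)) (by
      rcases r with r | rfl
      · have := Finset.sum_sdiff (f := w) p
        push_cast at hs
        linarith
      · rw [Finset.sdiff_self, Finset.sum_empty]; positivity)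
    refine ⟨fun i => if i ∈ t then Fin.last _ else (g i).castSucc, fun k => ?_⟩
    induction k using Fin.lastCases with
    | last =>
      refine le_of_eq_of_le (Finset.sum_congr ?_ fun _ _ => rfl) q
      ext i
      by_cases a : i ∈ t
      · simp [a, p a]
      · simp [a, Fin.castSucc_ne_last]
    | cast k =>
      refine le_of_eq_of_le (Finset.sum_congr ?_ fun _ _ => rfl) (hg k)
      ext i
      by_cases a : i ∈ t <;> simp [a, (Fin.castSucc_ne_last k).symm]

/-- Greedy colouring. -/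
theorem exists_coloring (s : Finset I) (R : I → I → Prop) (hR : ∀ i j, R i j → R j i) (M : ℕ)
    (h : ∀ i ∈ s, ∀ t ⊆ s, (∀ j ∈ t, R i j) → t.card ≤ M) :
    ∃ g : I → Fin (M + 1), ∀ i ∈ s, ∀ j ∈ s, i ≠ j → R i j → g i ≠ g j := by
  classical
  induction s using Finset.induction_on with
  | empty => exact ⟨fun _ => 0, by simp⟩
  | insert a s ha ih =>
    obtain ⟨g, hg⟩ := ih fun i hi t ht =>
      h i (Finset.mem_insert_of_mem hi) t (ht.trans (Finset.subset_insert _ _))
    have c := h a (Finset.mem_insert_self _ _) (s.filter (R a))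
      ((Finset.filter_subset _ _).trans (Finset.subset_insert _ _)) fun j hj =>
        (Finset.mem_filter.1 hj).2
    obtain ⟨k, -, hk⟩ := Finset.exists_mem_notMem_of_card_lt_card
      (s := (s.filter (R a)).image g) (t := Finset.univ)
      (by rw [Finset.card_univ, Fintype.card_fin]; exact Nat.lt_succ_of_le (Finset.card_image_le.trans c))
    have u : ∀ i ∈ s, Function.update g a k i = g i := fun i hi =>
      Function.update_of_ne (ne_of_mem_of_not_mem hi ha) _ _
    have v : ∀ i ∈ s, R a i → k ≠ g i := fun i hi r e =>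
      hk (Finset.mem_image.2 ⟨i, Finset.mem_filter.2 ⟨hi, r⟩, e.symm⟩)
    refine ⟨Function.update g a k, fun i hi j hj ne r => ?_⟩
    rcases Finset.mem_insert.1 hi with rfl | hi' <;> rcases Finset.mem_insert.1 hj with rfl | hj'
    · exact (ne rfl).elim
    · rw [Function.update_self, u j hj']; exact v j hj' r
    · rw [Function.update_self, u i hi']; exact (v i hi' (hR _ _ r)).symm
    · rw [u i hi', u j hj']; exact hg i hi' j hj' ne r

/-- Separated families in a totally bounded set have bounded cardinality. -/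
theorem Pack.card_bound {X : Type} [MetricSpace X] {K : Set X} (hK : TotallyBounded K) {κ : ℝ}
    (hκ : 0 < κ) : ∃ N : ℕ, ∀ s : Finset X, (∀ p ∈ s, p ∈ K) →
      (∀ p ∈ s, ∀ q ∈ s, p ≠ q → κ ≤ dist p q) → s.card ≤ N := by
  obtain ⟨t, ht, hc⟩ := Metric.totallyBounded_iff.1 hK (κ / 2) (half_pos hκ)
  have : ∀ p, ∃ y, p ∈ K → y ∈ t ∧ dist p y < κ / 2 := fun p => by
    by_cases a : p ∈ K
    · obtain ⟨y, b, c⟩ := mem_iUnion₂.1 (hc a)
      exact ⟨y, fun _ => ⟨b, c⟩⟩
    · exact ⟨p, fun b => (a b).elim⟩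
  choose f hf using this
  refine ⟨ht.toFinset.card, fun s a b => Finset.card_le_card_of_injOn f (fun p hp => ?_)
    fun p hp q hq e => ?_⟩
  · simpa using (hf p (a p hp)).1
  · by_contra ne
    have u := (hf p (a p hp)).2
    have v := (hf q (a q hq)).2
    rw [e] at u
    linarith only [u, v, b, hp, hq, ne, b p hp q hq ne, dist_triangle_right p q (f q)]

/-- Maximal separated families for a variable separation radius. -/
theorem exists_net {X : Type} [MetricSpace X] (K : Set X) (hK : TotallyBounded K) (r : X → ℝ)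
    {κ : ℝ} (hκ : 0 < κ) (hr : ∀ p ∈ K, κ ≤ r p) (s0 : Finset X) (h0 : ∀ p ∈ s0, p ∈ K)
    (h0' : ∀ p ∈ s0, ∀ q ∈ s0, p ≠ q → max (r p) (r q) ≤ dist p q) :
    ∃ s : Finset X, s0 ⊆ s ∧ (∀ p ∈ s, p ∈ K) ∧
      (∀ p ∈ s, ∀ q ∈ s, p ≠ q → max (r p) (r q) ≤ dist p q) ∧
      ∀ p ∈ K, ∃ q ∈ s, dist p q < max (r p) (r q) := by
  classical
  obtain ⟨N, hN⟩ := Pack.card_bound hK hκ
  obtain ⟨s, ⟨a, b, c⟩, hm⟩ := (measure fun s : Finset X => N - s.card).wf.has_min
    {s | s0 ⊆ s ∧ (∀ p ∈ s, p ∈ K) ∧ ∀ p ∈ s, ∀ q ∈ s, p ≠ q → max (r p) (r q) ≤ dist p q}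
    ⟨s0, subset_rfl, h0, h0'⟩
  refine ⟨s, a, b, c, fun p hp => ?_⟩
  by_contra hc
  push Not at hc
  have ps : p ∉ s := fun e => by
    have := hc p e
    rw [max_self, dist_self] at this
    linarith [hr p hp]
  have b' : ∀ q ∈ insert p s, q ∈ K := fun q hq => by
    rcases Finset.mem_insert.1 hq with rfl | hq
    exacts [hp, b q hq]
  have c' : ∀ u ∈ insert p s, ∀ q ∈ insert p s, u ≠ q → max (r u) (r q) ≤ dist u q := by
    intro u hu q hq ne
    rcases Finset.mem_insert.1 hu with rfl | hu' <;> rcases Finset.mem_insert.1 hq with rfl | hq'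
    · exact (ne rfl).elim
    · exact hc q hq'
    · rw [max_comm, dist_comm]; exact hc u hu'
    · exact c u hu' q hq' ne
  have d := hN _ b' fun u hu q hq ne =>
    ((hr u (b' u hu)).trans (le_max_left _ _)).trans (c' u hu q hq ne)
  refine hm (insert p s) ⟨a.trans (Finset.subset_insert _ _), b', c'⟩ ?_
  change N - (insert p s).card < N - s.card
  rw [Finset.card_insert_of_notMem ps] at d ⊢
  omega

/-- The range of a Lipschitz map which is constant outside a bounded set is compact. -/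
theorem Cpt.isCompact_range {Z : Type} [MetricSpace Z] {y : Z} {u : D n → Z} {L : ℝ}
    (h : Cpt y u) (hu : Lip L u) : IsCompact (range u) := by
  obtain ⟨R, hR⟩ := h
  have c : IsCompact (u '' closedBall 0 R) := (isCompact_closedBall 0 R).image hu.continuous
  have m : ∀ x, u x ≠ y → u x ∈ u '' closedBall 0 R := fun x a =>
    ⟨x, mem_closedBall_zero_iff.2 (not_lt.1 fun b => a (hR x b.le)), rfl⟩
  by_cases a : y ∈ range u
  · convert c.insert y using 1
    refine Subset.antisymm ?_ (insert_subset a (image_subset_range _ _))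
    rintro _ ⟨x, rfl⟩
    by_cases b : u x = y
    exacts [.inl b, .inr (m x b)]
  · convert c using 1
    refine Subset.antisymm ?_ (image_subset_range _ _)
    rintro _ ⟨x, rfl⟩
    exact m x fun b => a ⟨x, b⟩

/-- An injection of a set into a product, from the cardinality bound. -/
theorem exists_assign {A B : Type} (s : Finset A) (t : Finset B) (M : ℕ) (b0 : B × Fin (M + 1))
    (h : s.card ≤ M * t.card) :
    ∃ g : A → B × Fin (M + 1), Set.InjOn g s ∧ ∀ a ∈ s, (g a).1 ∈ t := by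
  have : Nonempty (B × Fin (M + 1)) := ⟨b0⟩
  obtain ⟨g, a, b⟩ := s.finite_toSet.exists_injOn_of_encard_le
    (t := ((t ×ˢ (Finset.univ : Finset (Fin (M + 1))) : Finset _) : Set (B × Fin (M + 1)))) (by
      rw [encard_coe_eq_coe_finsetCard, encard_coe_eq_coe_finsetCard, Finset.card_product,
        Finset.card_univ, Fintype.card_fin, Nat.cast_le]
      linarith only [h])
  exact ⟨g, b, fun x hx => (Finset.mem_product.1 (a hx)).1⟩

end Pool.Agent.Work.MP_4b5e6c_gt
end

-- merged part: Pool.Agent.Work.MP_4b5e6c_gt.Bary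
section
/-! Task BARY: barycentric coordinates and elementary spheres. -/

namespace Pool.Agent.Work.MP_4b5e6c_gt
open Metric Set

variable {n : ℕ}

namespace Bary

/-- The coordinates of `x` with `1` in front and `0` at the end. -/
def ext (x : D n) : Fin (n + 2) → ℝ := Fin.cons 1 (Fin.snoc x 0 : Fin (n + 1) → ℝ)

theorem ext_zero (x : D n) : ext x 0 = 1 := rfl

theorem ext_last (x : D n) : ext x (Fin.last (n + 1)) = 0 := by
  rw [ext, ← Fin.succ_last, Fin.cons_succ, Fin.snoc_last]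

theorem ext_mid (x : D n) (j : Fin n) : ext x j.castSucc.succ = x j := by
  rw [ext, Fin.cons_succ, Fin.snoc_castSucc]

theorem bary_eq (x : D n) (i : Fin (n + 1)) : bary x i = ext x i.castSucc - ext x i.succ := by
  rw [bary, ext, Fin.cons_succ]
  congr 1
  refine Fin.cases rfl (fun j => ?_) i
  rw [Fin.cons_succ, ← Fin.succ_castSucc, Fin.cons_succ, Fin.snoc_castSucc]

theorem of_pos {x : D n} (h : ∀ i, 0 < bary x i) :
    StrictAnti x ∧ ∀ j, 0 < x j ∧ x j < 1 := by
  have a : StrictAnti (ext x) :=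
    Fin.strictAnti_iff_succ_lt.2 fun i => by have := h i; rw [bary_eq] at this; linarith
  refine ⟨fun i j e => ?_, fun j => ⟨?_, ?_⟩⟩
  · rw [← ext_mid x i, ← ext_mid x j]
    exact a (by simpa using e)
  · rw [← ext_mid x j, ← ext_last x]
    exact a (Fin.succ_lt_succ_iff.2 (Fin.castSucc_lt_last j))
  · rw [← ext_mid x j, ← ext_zero x]
    exact a (Fin.succ_pos _)

theorem of_nonneg {x : D n} (h : ∀ i, 0 ≤ bary x i) :
    Antitone x ∧ ∀ j, 0 ≤ x j ∧ x j ≤ 1 := by
  have a : Antitone (ext x) :=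
    Fin.antitone_iff_succ_le.2 fun i => by have := h i; rw [bary_eq] at this; linarith
  refine ⟨fun i j e => ?_, fun j => ⟨?_, ?_⟩⟩
  · rw [← ext_mid x i, ← ext_mid x j]
    exact a (by simpa using e)
  · rw [← ext_mid x j, ← ext_last x]
    exact a (Fin.le_last _)
  · rw [← ext_mid x j, ← ext_zero x]
    exact a (Fin.zero_le _)

theorem nonneg_of {x : D n} (a : Antitone x) (h : ∀ j, 0 ≤ x j ∧ x j ≤ 1) (i : Fin (n + 1)) :
    0 ≤ bary x i := by
  rw [bary, sub_nonneg]
  have key : ∀ (i' : Fin (n + 1)) (c : ℝ), 0 ≤ c → (∀ j : Fin n, j.castSucc = i' → x j ≤ c) →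
      (Fin.snoc x 0 : Fin (n + 1) → ℝ) i' ≤ c := by
    intro i' c c0
    refine Fin.lastCases (fun _ => ?_) (fun j e => ?_) i'
    · rwa [Fin.snoc_last]
    · rw [Fin.snoc_castSucc]
      exact e j rfl
  refine Fin.cases (key _ _ zero_le_one fun j _ => (h j).2) (fun j => ?_) i
  refine key _ _ (h j).1 fun j' e => a ?_
  have : (j' : ℕ) = j + 1 := congrArg Fin.val e
  exact Fin.le_def.2 (this ▸ Nat.le_succ _)

end Bary

theorem sum_bary (x : D n) : ∑ i, bary x i = 1 := by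
  simp only [bary, Finset.sum_sub_distrib]
  rw [Fin.sum_univ_succ, Fin.sum_univ_castSucc (n := n)]
  simp

theorem lip_bary (i : Fin (n + 1)) : Lip 2 fun x : D n => bary x i := by
  intro x y
  have h₁ : dist ((Fin.cons 1 x : Fin (n + 1) → ℝ) i) ((Fin.cons 1 y : Fin (n + 1) → ℝ) i) ≤
      dist x y := by
    refine Fin.cases ?_ (fun j => ?_) i
    · simp
    · simpa using dist_le_pi_dist x y j
  have h₂ : dist ((Fin.snoc x 0 : Fin (n + 1) → ℝ) i) ((Fin.snoc y 0 : Fin (n + 1) → ℝ) i) ≤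
      dist x y := by
    refine Fin.lastCases ?_ (fun j => ?_) i
    · simp
    · simpa using dist_le_pi_dist x y j
  have := dist_sub_sub_le ((Fin.cons 1 x : Fin (n + 1) → ℝ) i)
    ((Fin.snoc x 0 : Fin (n + 1) → ℝ) i) ((Fin.cons 1 y : Fin (n + 1) → ℝ) i)
    ((Fin.snoc y 0 : Fin (n + 1) → ℝ) i)
  simp only [bary]
  linarith

theorem mem_of_bary_pos {x : D n} (h : ∀ i, 0 < bary x i) (j : Fin n) : 0 < x j ∧ x j < 1 :=
  (Bary.of_pos h).2 j

/-- Every point lies in a closed Kuhn simplex. -/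
theorem exists_kc (x : D n) : ∃ (k : Fin n → ℤ) (π : Equiv.Perm (Fin n)),
    ∀ i, 0 ≤ bary (kc k π x) i := by
  refine ⟨fun j => ⌊x j⌋, Tuple.sort fun j => -Int.fract (x j), Bary.nonneg_of ?_ fun j =>
    ⟨Int.fract_nonneg _, (Int.fract_lt_one _).le⟩⟩
  intro i j e
  exact neg_le_neg_iff.1 (Tuple.monotone_sort (fun j => -Int.fract (x j)) e)

/-- An open Kuhn simplex meets no other closed Kuhn simplex. -/
theorem kc_unique {x : D n} {k k' : Fin n → ℤ} {π π' : Equiv.Perm (Fin n)}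
    (h : ∀ i, 0 < bary (kc k π x) i) (h' : ∀ i, 0 ≤ bary (kc k' π' x) i) : k = k' ∧ π = π' := by
  obtain ⟨a, b⟩ := Bary.of_pos h
  obtain ⟨a', b'⟩ := Bary.of_nonneg h'
  have e : k = k' := by
    funext i
    have h₁ := b (π.symm i)
    have h₂ := b' (π'.symm i)
    simp only [kc, Equiv.apply_symm_apply] at h₁ h₂
    have h₃ : (k i : ℝ) < k' i + 1 := by linarith [h₁.1, h₂.2]
    have h₄ : (k' i : ℝ) < k i + 1 := by linarith [h₁.2, h₂.1]
    have h₅ : k i < k' i + 1 := by exact_mod_cast h₃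
    have h₆ : k' i < k i + 1 := by exact_mod_cast h₄
    omega
  subst e
  refine ⟨rfl, ?_⟩
  have f : (fun i => x i - k i) ∘ π = (fun i => x i - k i) ∘ π' :=
    Tuple.unique_antitone (f := fun i => x i - k i) a.antitone a'
  have inj : Function.Injective fun i => x i - k i :=
    Function.Injective.of_comp_right (g := π) a.injective π.surjective
  ext i : 1
  exact inj (congrFun f i)

theorem IsSph.item {L : ℝ} {E : D n → Ys n (Option (Fin (n + 1)))} (h : IsSph L E) {α : Type}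
    (a : α) (v : Fin (n + 1) → α) : Item (vtx a) L (sph E a v) := by
  refine ⟨fun x y => ?_, fun x hx => ?_⟩
  · have := lip_mapY (n := n) (fun o : Option (Fin (n + 1)) => o.elim a v) (E x) (E y)
    rw [one_mul] at this
    exact this.trans (h.lip x y)
  · have : ¬ ∀ i, 0 < bary x i := fun e => by
      refine hx.not_gt ((pi_norm_lt_iff one_pos).2 fun j => ?_)
      have := mem_of_bary_pos e j
      rw [Real.norm_eq_abs, abs_of_pos this.1]
      exact this.2
    rw [sph, h.out x this, mapY_vtx]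
    rfl

theorem supp_sph {α : Type} (E : D n → Ys n (Option (Fin (n + 1)))) (a : α)
    (v : Fin (n + 1) → α) (x : D n) : ∀ b ∈ (sph E a v x).supp, b = a ∨ ∃ i, b = v i := by
  intro b hb
  obtain ⟨o, -, rfl⟩ := mem_supp_mapY.1 hb
  cases o with
  | none => exact .inl rfl
  | some i => exact .inr ⟨i, rfl⟩

theorem mapY_sph {α α' : Type} (ρ : α → α') (E : D n → Ys n (Option (Fin (n + 1)))) (a : α)
    (v : Fin (n + 1) → α) (x : D n) :
    mapY ρ (sph E a v x) = sph E (ρ a) (fun i => ρ (v i)) x := by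
  rw [sph, sph, mapY_mapY]
  exact mapY_congr fun o _ => by cases o <;> rfl

end Pool.Agent.Work.MP_4b5e6c_gt
end

-- merged part: Pool.Agent.Work.MP_4b5e6c_gt.Kuhn
section
/-! Task KUHN: geometric realization of grid labellings. -/

namespace Pool.Agent.Work.MP_4b5e6c_gt
open Metric Set

namespace Kuhn
variable {n : ℕ}

/-- The sup norm of the positive part. -/
noncomputable def pp (y : D n) : ℝ := ‖fun j => max (y j) 0‖

/-- The hat function of the triangulation. -/
noncomputable def hat (y : D n) : ℝ := max (1 - pp y - pp (-y)) 0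

theorem pp_nonneg (y : D n) : 0 ≤ pp y := norm_nonneg _

theorem le_pp (y : D n) (j : Fin n) : y j ≤ pp y :=
  ((le_max_left _ _).trans (le_abs_self _)).trans (norm_le_pi_norm (fun j => max (y j) 0) j)

theorem pp_le {y : D n} {r : ℝ} (hr : 0 ≤ r) (h : ∀ j, y j ≤ r) : pp y ≤ r :=
  (pi_norm_le_iff_of_nonneg hr).2 fun j => by
    rw [Real.norm_eq_abs, abs_of_nonneg (le_max_right _ _)]
    exact max_le (h j) hr

theorem pp_lt {y : D n} {r : ℝ} (hr : 0 < r) (h : ∀ j, y j < r) : pp y < r :=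
  (pi_norm_lt_iff hr).2 fun j => by
    rw [Real.norm_eq_abs, abs_of_nonneg (le_max_right _ _)]
    exact max_lt (h j) hr

theorem pp_lip (y y' : D n) : pp y ≤ pp y' + dist y y' :=
  pp_le (add_nonneg (pp_nonneg _) dist_nonneg) fun j => by
    linarith [le_pp y' j, dist_le_pi_dist y y' j, Real.dist_eq (y j) (y' j), le_abs_self (y j - y' j)]

theorem hat_lip (y y' : D n) : |hat y - hat y'| ≤ 2 * dist y y' := by
  refine (abs_max_sub_max_le_abs _ _ _).trans (abs_le.2 ⟨?_, ?_⟩)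
  · linarith only [pp_lip y y', pp_lip (-y) (-y'), dist_neg_neg y y']
  · linarith only [pp_lip y' y, pp_lip (-y') (-y), dist_neg_neg y' y, dist_comm y y']

theorem cons_cases (z : D n) (i : Fin (n + 1)) : (Fin.cons 1 z : Fin (n + 1) → ℝ) i = 1 ∨
    ∃ j : Fin n, (j : ℕ) + 1 = i ∧ (Fin.cons 1 z : Fin (n + 1) → ℝ) i = z j := by
  induction i using Fin.cases with
  | zero => exact .inl rfl
  | succ j => exact .inr ⟨j, rfl, rfl⟩

theorem snoc_cases (z : D n) (i : Fin (n + 1)) : (Fin.snoc z 0 : Fin (n + 1) → ℝ) i = 0 ∨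
    ∃ j : Fin n, (j : ℕ) = i ∧ (Fin.snoc z 0 : Fin (n + 1) → ℝ) i = z j := by
  induction i using Fin.lastCases with
  | last => exact .inl (Fin.snoc_last _ _)
  | cast j => exact .inr ⟨j, rfl, Fin.snoc_castSucc _ _ _⟩

theorem anti {z : D n} (h : ∀ i, 0 ≤ bary z i) : Antitone (Fin.cons 1 z : Fin (n + 1) → ℝ) ∧
    Antitone (Fin.snoc z 0 : Fin (n + 1) → ℝ) := by
  refine ⟨Fin.antitone_iff_succ_le.2 fun j => ?_, Fin.antitone_iff_succ_le.2 fun j => ?_⟩
  · simpa [bary] using h j.castSucc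
  · simpa [bary] using h j.succ

theorem simplex_iff {z : D n} :
    (∀ i, 0 ≤ bary z i) ↔ (∀ j, 0 ≤ z j) ∧ (∀ j, z j ≤ 1) ∧ Antitone z := by
  constructor
  · intro h
    obtain ⟨h1, h2⟩ := anti h
    exact ⟨fun j => by simpa using h2 (Fin.le_last j.castSucc),
      fun j => by simpa using h1 (Fin.zero_le j.succ),
      fun j j' l => by simpa using h1 (Fin.succ_le_succ_iff.2 l)⟩
  · rintro ⟨h0, h1, h2⟩ i
    rw [bary, sub_nonneg]
    rcases cons_cases z i with a | ⟨j, l, a⟩ <;> rcases snoc_cases z i with b | ⟨j', l', b⟩ <;>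
      rw [a, b]
    exacts [zero_le_one, h1 _, h0 _, h2 (Fin.le_def.2 (by omega))]

variable {x : D n} {k : Fin n → ℤ} {π : Equiv.Perm (Fin n)}

theorem hat_kv (h : ∀ i, 0 ≤ bary (kc k π x) i) (i : Fin (n + 1)) :
    hat (fun j => x j - kv k π i j) = bary (kc k π x) i := by
  obtain ⟨h1, h2⟩ := anti h
  obtain ⟨z0, z1, -⟩ := simplex_iff.1 h
  have e : ∀ j, x (π j) - kv k π i (π j) = kc k π x j - if (j : ℕ) < i then 1 else 0 := fun j => by
    simp only [kv, kc, Equiv.symm_apply_apply]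
    split_ifs <;> push_cast <;> ring
  have d0 : 0 ≤ (Fin.snoc (kc k π x) 0 : Fin (n + 1) → ℝ) i := by simpa using h2 (Fin.le_last i)
  have c1 : (Fin.cons 1 (kc k π x) : Fin (n + 1) → ℝ) i ≤ 1 := h1 (Fin.zero_le i)
  have a : pp (fun j => x j - kv k π i j) = (Fin.snoc (kc k π x) 0 : Fin (n + 1) → ℝ) i := by
    refine le_antisymm (pp_le d0 (π.surjective.forall.2 fun j => ?_)) ?_
    · rw [e]
      split_ifs with l
      · linarith only [d0, z1, z1 j]
      · simpa using h2 (show i ≤ j.castSucc from not_lt.1 l)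
    · rcases snoc_cases (kc k π x) i with b | ⟨j, l, b⟩ <;> rw [b]
      · exact pp_nonneg _
      · simpa [e, l] using le_pp (fun j => x j - kv k π i j) (π j)
  have b : pp (-fun j => x j - kv k π i j) = 1 - (Fin.cons 1 (kc k π x) : Fin (n + 1) → ℝ) i := by
    refine le_antisymm (pp_le (sub_nonneg.2 c1) (π.surjective.forall.2 fun j => ?_)) ?_
    · rw [Pi.neg_apply, e]
      split_ifs with l
      · linarith only [h1, l, h1 (show j.succ ≤ i from l), Fin.cons_succ (α := fun _ => ℝ) 1 (kc k π x) j]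
      · linarith [z0 j]
    · rcases cons_cases (kc k π x) i with b | ⟨j, l, b⟩ <;> rw [b]
      · exact (sub_self _).trans_le (pp_nonneg _)
      · have := le_pp (-fun j => x j - kv k π i j) (π j)
        rwa [Pi.neg_apply, e, if_pos (by omega), neg_sub] at this
  rw [hat, a, b, max_eq_left (by linarith [h i, bary.eq_1 (kc k π x) i]), bary]
  ring

theorem hat_pos {y : D n} (h : hat y ≠ 0) : pp y + pp (-y) < 1 := by
  by_contra l
  exact h (max_eq_right (by linarith))

theorem exists_kv (h : ∀ i, 0 ≤ bary (kc k π x) i) {q : Fin n → ℤ}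
    (hq : hat (fun j => x j - q j) ≠ 0) : ∃ i, kv k π i = q := by
  classical
  obtain ⟨z0, z1, z2⟩ := simplex_iff.1 h
  have l := hat_pos hq
  have a := le_pp fun j => x j - q j
  have b := le_pp (-fun j => x j - q j)
  have a0 := pp_nonneg fun j => x j - q j
  have b0 := pp_nonneg (-fun j => x j - q j)
  simp only [Pi.neg_apply, kc] at b z0 z1
  have r : ∀ j, q (π j) = k (π j) ∨ q (π j) = k (π j) + 1 := fun j => by
    have h1 : (k (π j) : ℝ) < q (π j) + 1 := by linarith [a (π j), z0 j]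
    have h2 : (q (π j) : ℝ) < k (π j) + 2 := by linarith [b (π j), z1 j]
    norm_cast at h1 h2
    omega
  have ex : ∃ m : ℕ, ∀ j : Fin n, m ≤ j → q (π j) = k (π j) := ⟨n, fun j l => absurd j.2 (by omega)⟩
  refine ⟨⟨Nat.find ex, Nat.lt_succ_of_le (Nat.find_le fun j l => absurd j.2 (by omega))⟩,
    funext (π.surjective.forall.2 fun j => ?_)⟩
  simp only [kv, Equiv.symm_apply_apply]
  split_ifs with m
  · obtain ⟨j', l', n'⟩ : ∃ j' : Fin n, (j : ℕ) ≤ j' ∧ q (π j') ≠ k (π j') := by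
      simpa using Nat.find_min ex m
    refine ((r j).resolve_left fun e => ?_).symm
    have h1 := a (π j)
    have h2 := b (π j')
    have h3 : x (π j') - k (π j') ≤ x (π j) - k (π j) := z2 (Fin.le_def.2 l')
    rw [e] at h1
    rw [(r j').resolve_left n'] at h2
    push_cast at h2
    linarith only [l, h1, h3, h2]
  · rw [add_zero, Nat.find_spec ex j (not_lt.1 m)]

/-- The point of the skeleton with the given barycentric coordinates. -/
noncomputable def pv (k : Fin n → ℤ) (π : Equiv.Perm (Fin n)) (x : D n) : V (Fin n → ℤ) :=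
  ∑ i, bary (kc k π x) i • V.pt (kv k π i)

theorem pv_fs (k : Fin n → ℤ) (π : Equiv.Perm (Fin n)) (x : D n) :
    (pv k π x).fs = ∑ i, Finsupp.single (kv k π i) (bary (kc k π x) i) := by
  change ∑ i, bary (kc k π x) i • Finsupp.single (kv k π i) (1 : ℝ) = _
  simp only [Finsupp.smul_single, smul_eq_mul, mul_one]

theorem pv_apply (h : ∀ i, 0 ≤ bary (kc k π x) i) (q : Fin n → ℤ) :
    (pv k π x).fs q = hat fun j => x j - q j := by
  classical
  rw [pv_fs, Finsupp.finsetSum_apply]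
  by_cases e : ∃ i, kv k π i = q
  · obtain ⟨i, rfl⟩ := e
    rw [hat_kv h, Finset.sum_eq_single i (fun j _ l => Finsupp.single_eq_of_ne' fun e =>
      l (kv_injective k π e)) (by simp), Finsupp.single_eq_same]
  · rw [Finset.sum_eq_zero fun j _ => Finsupp.single_eq_of_ne' fun l => e ⟨j, l⟩,
      not_not.1 (mt (exists_kv h) e)]

theorem pv_mem (h : ∀ i, 0 ≤ bary (kc k π x) i) : pv k π x ∈ Y n (Fin n → ℤ) := by
  classical
  refine ⟨fun q => by rw [pv_apply h]; exact le_max_right _ _, ?_, ?_⟩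
  · rw [pv_fs, ← Finsupp.sum_finsetSum_index (fun _ => rfl) fun _ _ _ => rfl]
    simp only [Finsupp.sum_single_index, sum_bary]
  · refine (Finset.card_le_card (t := Finset.univ.image (kv k π)) fun q hq => ?_).trans
      (Finset.card_image_le.trans (by simp))
    rw [Finsupp.mem_support_iff, pv_apply h] at hq
    simpa using exists_kv h hq

theorem avg {u : Fin (n + 1) → ℤ} {c : ℤ} {m : ℕ} (h : ∀ i j, u i ≤ u j + 1)
    (h0 : (c : ℝ) ≤ (∑ i, (u i : ℝ)) / ((n + 1) * 2 ^ m)) (i : Fin (n + 1)) :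
    (c : ℝ) ≤ u i / 2 ^ m := by
  rw [le_div_iff₀ (by positivity)] at h0 ⊢
  norm_cast at h0 ⊢
  by_contra l
  have := Finset.sum_lt_sum (s := Finset.univ) (f := u) (g := fun _ => c * 2 ^ m)
    (fun j _ => by have := h j i; push_cast at l; omega)
    ⟨i, Finset.mem_univ i, by push_cast at l; omega⟩
  simp only [Finset.sum_const, Finset.card_univ, Fintype.card_fin, nsmul_eq_mul] at this
  push_cast at h0 this
  linarith only [h0, this]

/-- A fine simplex lies in a closed coarse simplex. -/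
theorem fine (m : ℕ) (k : Fin n → ℤ) (π : Equiv.Perm (Fin n)) :
    ∃ k' π', ∀ i j, 0 ≤ bary (kc k' π' (grid m (kv k π i))) j := by
  obtain ⟨k', π', h⟩ := exists_kc fun a => (∑ i, (kv k π i a : ℝ)) / ((n + 1) * 2 ^ m)
  obtain ⟨z0, z1, z2⟩ := simplex_iff.1 h
  refine ⟨k', π', fun i => simplex_iff.2 ⟨fun j => ?_, fun j => ?_, fun j j' l => ?_⟩⟩
  · exact sub_nonneg.2 (avg (u := fun i => kv k π i (π' j))
      (fun a b => by simp only [kv]; split_ifs <;> omega) (sub_nonneg.1 (z0 j)) i)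
  · have := avg (u := fun i => -kv k π i (π' j)) (c := -(k' (π' j) + 1)) (m := m)
      (fun a b => by simp only [kv]; split_ifs <;> omega) (by
        have := z1 j
        simp only [kc] at this
        push_cast
        rw [Finset.sum_neg_distrib, neg_div]
        linarith only [this]) i
    simp only [kc, grid]
    push_cast at this
    rw [neg_div] at this
    linarith only [this]
  · have := avg (u := fun i => kv k π i (π' j) - kv k π i (π' j')) (c := k' (π' j) - k' (π' j'))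
      (m := m) (fun a b => by simp only [kv]; split_ifs <;> omega) (by
        have := z2 l
        simp only [kc] at this
        push_cast
        rw [Finset.sum_sub_distrib, sub_div]
        linarith only [this]) i
    simp only [kc, grid]
    push_cast at this
    rw [sub_div] at this
    linarith only [this]

theorem gb_half {S : Type} {l : (Fin n → ℤ) → S} (h : GB l) : GB fun k => l fun i => k i / 2 := by
  obtain ⟨a, h⟩ := h
  refine ⟨a, (h.biUnion fun q _ => finite_Icc (fun i => 2 * q i) fun i => 2 * q i + 1).subset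
    fun k hk => mem_biUnion hk ⟨fun i => ?_, fun i => ?_⟩⟩ <;> simp only <;> omega

theorem pair_pow (hn : 2 ≤ n) {S : Type} {φ : List S → ℤ} (h : Alt φ) {l : (Fin n → ℤ) → S}
    (hl : GB l) (m : ℕ) : (GB fun k => l fun i => k i / 2 ^ m) ∧
      pair φ (fun k => l fun i => k i / 2 ^ m) = pair φ l := by
  induction m with
  | zero => simpa using hl
  | succ m ih =>
    have e : ∀ a : ℤ, a / 2 ^ (m + 1) = a / 2 / 2 ^ m := fun a => by
      rw [Int.ediv_ediv_of_nonneg zero_le_two, pow_succ']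
    simp only [e]
    exact ⟨gb_half ih.1, (pair_half hn h ih.1).trans ih.2⟩

end Kuhn

open Kuhn in
theorem exists_kuhn (n : ℕ) : KuhnS n := by
  classical
  choose k π h using exists_kc (n := n)
  obtain ⟨κ, hκ⟩ : ∃ κ : D n → Ys n (Fin n → ℤ), ∀ x q, (κ x).wt q = hat fun j => x j - q j :=
    ⟨fun x => ⟨pv (k x) (π x) x, pv_mem (h x)⟩, fun x => pv_apply (h x)⟩
  have h1 : Lip (4 * ((n : ℝ) + 1)) κ := fun x x' => by
    rw [Ys.dist_eq _ _ _ Finset.subset_union_left Finset.subset_union_right]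
    refine (Finset.sum_le_card_nsmul _ _ (2 * dist x x') fun q _ => ?_).trans ?_
    · rw [hκ, hκ]
      exact (hat_lip _ _).trans_eq (congrArg _ (dist_sub_right x x' fun j => (q j : ℝ)))
    · have : (((κ x).supp ∪ (κ x').supp).card : ℝ) ≤ (n + 1 + (n + 1) : ℕ) := Nat.cast_le.2
        ((Finset.card_union_le _ _).trans (add_le_add (κ x).card_supp (κ x').card_supp))
      push_cast at this
      rw [nsmul_eq_mul]
      nlinarith only [this, dist_nonneg (x := x) (y := x')]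
  have h2 : ∀ x, ∀ q ∈ (κ x).supp, ∀ j, |x j - q j| < 1 := fun x q hq j => by
    have l := hat_pos (hκ x q ▸ (Ys.mem_supp.1 hq).ne')
    have a := le_pp (fun j => x j - q j) j
    have b := le_pp (-fun j => x j - q j) j
    rw [Pi.neg_apply] at b
    exact abs_lt.2 ⟨by linarith [pp_nonneg fun j => x j - q j],
      by linarith [pp_nonneg (-fun j => x j - q j)]⟩
  refine ⟨κ, h1, fun x k π h => V.ext_fs (Finsupp.ext fun q => (hκ x q).trans (pv_apply h q).symm),
    h2, fun hn S φ l hφ hl => ?_⟩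
  obtain ⟨a, ha⟩ := id hl
  obtain ⟨R, hR⟩ := (ha.image fun q j => (q j : ℝ)).isBounded.exists_norm_le
  have h3 : ∀ x, R + 2 ≤ ‖x‖ → mapY l (κ x) = vtx a := fun x hx => eq_vtx_of_supp fun b hb => by
    obtain ⟨q, hq, rfl⟩ := mem_supp_mapY.1 hb
    by_contra c
    have h4 : ‖x - fun j => (q j : ℝ)‖ ≤ 1 :=
      (pi_norm_le_iff_of_nonneg zero_le_one).2 fun j => (h2 x q hq j).le
    linarith only [hx, h4, hR, c, hR _ ⟨q, c, rfl⟩, norm_sub_norm_le x fun j => (q j : ℝ)]
  obtain ⟨m, hm⟩ := pow_unbounded_of_one_lt (2 * (1 * (4 * ((n : ℝ) + 1))) * (n + 1)) one_lt_two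
  have h4 : GB fun q => sel (mapY l (κ (grid m q))) :=
    Cpt.gb (a := a) (l := fun x => sel (mapY l (κ x)))
      ⟨R + 2, fun x hx => (congrArg sel (h3 x hx)).trans (sel_vtx a)⟩ m
  rw [degY_eq_pair hn hφ (by positivity) ((lip_mapY l).comp h1 zero_le_one) ⟨_, h3⟩ h4 le_rfl
    (by rwa [div_lt_div_iff₀ (by positivity) (by positivity), one_mul (2 ^ m : ℝ)])
    (fun q => wt_sel _), ← (pair_pow hn hφ hl m).2]
  refine pair_eq_of_prism hn hφ h4 (pair_pow hn hφ hl m).1 fun k π => ?_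
  obtain ⟨k', π', h5⟩ := fine m k π
  have h6 : ∀ i q, hat (fun j => grid m (kv k π i) j - q j) ≠ 0 →
      l q ∈ Finset.univ.image fun i => l (kv k' π' i) := fun i q hq => by
    obtain ⟨j, rfl⟩ := exists_kv (h5 i) hq
    exact Finset.mem_image_of_mem _ (Finset.mem_univ j)
  refine ⟨_, Finset.card_image_le.trans (by simp), fun i => ⟨?_, h6 i _ (ne_of_gt ?_)⟩⟩
  · obtain ⟨q, hq, e⟩ := mem_supp_mapY.1 (sel_mem (mapY l (κ (grid m (kv k π i)))))
    exact e ▸ h6 i q (hκ _ q ▸ (Ys.mem_supp.1 hq).ne')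
  · have e : ∀ j, ((kv k π i j / 2 ^ m : ℤ) : ℝ) = ⌊grid m (kv k π i) j⌋ := fun j => by
      have := Int.floor_div_natCast (kv k π i j : ℝ) (2 ^ m)
      rw [Int.floor_intCast] at this
      push_cast at this
      rw [grid, this]
    simp only [e]
    refine lt_max_of_lt_left ?_
    linarith only [pp_lt (y := fun j => grid m (kv k π i) j - ⌊grid m (kv k π i) j⌋) one_pos
      fun j => Int.fract_lt_one _, pp_le (y := -fun j => grid m (kv k π i) j - ⌊grid m (kv k π i) j⌋)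
      le_rfl fun j => neg_nonpos.2 (Int.fract_nonneg _)]

end Pool.Agent.Work.MP_4b5e6c_gt
end

-- merged part: Pool.Agent.Work.MP_4b5e6c_gt.HurA
section
/-! Task HURA: the universal elementary sphere, and the decomposition of a realized labelling. -/

namespace Pool.Agent.Work.MP_4b5e6c_gt
open Metric Set

namespace HurA

variable {n : ℕ} {α α' : Type}

/-- Subtract a threshold from all weights and keep the positive parts. -/
noncomputable def cut (θ : ℝ) (u : V α) : V α :=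
  V.mk (u.fs.mapRange (fun r => max (r - |θ|) 0) (by simp))

theorem cut_apply (θ : ℝ) (u : V α) (a : α) : (cut θ u).fs a = max (u.fs a - |θ|) 0 := by
  simp [cut]

theorem supp_cut (θ : ℝ) (u : V α) : (cut θ u).fs.support ⊆ u.fs.support := by
  intro a ha
  rw [Finsupp.mem_support_iff] at ha ⊢
  intro h
  rw [cut_apply, h] at ha
  exact ha (by simp)

theorem dist_cut (θ : ℝ) (u v : V α) : dist (cut θ u) (cut θ v) ≤ dist u v := by
  classical
  have h1 : ∀ x y : V α, x.fs.support ⊆ u.fs.support → y.fs.support ⊆ v.fs.support →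
      dist x y = ∑ a ∈ u.fs.support ∪ v.fs.support, |x.fs a - y.fs a| := by
    intro x y hx hy
    rw [dist_eq_norm, V.norm_eq (x - y) (u.fs.support ∪ v.fs.support)
      (Finsupp.support_sub.trans (Finset.union_subset_union hx hy))]
    rfl
  rw [h1 _ _ (supp_cut θ u) (supp_cut θ v), h1 u v subset_rfl subset_rfl]
  refine Finset.sum_le_sum fun a _ => ?_
  rw [cut_apply, cut_apply]
  refine (abs_max_sub_max_le_abs _ _ _).trans (le_of_eq ?_)
  congr 1
  ring

theorem cut_map {ρ : α → α'} (hρ : Function.Injective ρ) (θ : ℝ) (u : V α) :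
    cut θ (u.map ρ) = (cut θ u).map ρ := by
  refine V.ext_fs (Finsupp.ext fun b => ?_)
  rw [cut_apply]
  simp only [V.map, V.fs_mk]
  by_cases hb : b ∈ range ρ
  · obtain ⟨a, rfl⟩ := hb
    rw [Finsupp.mapDomain_apply hρ, Finsupp.mapDomain_apply hρ, cut_apply]
  · rw [Finsupp.mapDomain_of_notMem_range _ _ hb, Finsupp.mapDomain_of_notMem_range _ _ hb]
    simp

theorem norm_map {ρ : α → α'} (hρ : Function.Injective ρ) (u : V α) : ‖u.map ρ‖ = ‖u‖ := by
  rw [V.norm_def, V.norm_def]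
  exact Finsupp.sum_mapDomain_index_inj hρ

/-- Cut and normalize. -/
noncomputable def nc (θ : ℝ) (u : V α) : V α := ‖cut θ u‖⁻¹ • cut θ u

theorem supp_nc (θ : ℝ) (u : V α) : (nc θ u).fs.support ⊆ (cut θ u).fs.support :=
  Finsupp.support_smul

theorem nc_mem {θ : ℝ} {u : V α} (h : 0 < ‖cut θ u‖) (hc : u.fs.support.card ≤ n + 1) :
    nc θ u ∈ Y n α := by
  have h0 : ∀ a, 0 ≤ (nc θ u).fs a := fun a => by
    rw [nc, V.fs_smul, Finsupp.smul_apply, cut_apply]
    exact mul_nonneg (inv_nonneg.2 h.le) (le_max_right _ _)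
  refine ⟨h0, ?_, (Finset.card_le_card ((supp_nc θ u).trans (supp_cut θ u))).trans hc⟩
  have h1 : ‖nc θ u‖ = 1 := by
    rw [nc, norm_smul, norm_inv, norm_norm, inv_mul_cancel₀ h.ne']
  rw [← h1, V.norm_def]
  exact Finsupp.sum_congr fun a _ => (abs_of_nonneg (h0 a)).symm

theorem nc_map {ρ : α → α'} (hρ : Function.Injective ρ) (θ : ℝ) (u : V α) :
    nc θ (u.map ρ) = (nc θ u).map ρ := by
  rw [nc, nc, cut_map hρ, norm_map hρ, V.map_smul]

theorem dist_nrm {E : Type} [NormedAddCommGroup E] [NormedSpace ℝ E] {u v : E} {c : ℝ}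
    (hc : 0 < c) (hu : c ≤ ‖u‖) (hv : 0 < ‖v‖) :
    dist (‖u‖⁻¹ • u) (‖v‖⁻¹ • v) ≤ 2 / c * dist u v := by
  have hu0 : 0 < ‖u‖ := hc.trans_le hu
  have e : ‖u‖⁻¹ • u - ‖v‖⁻¹ • v = ‖u‖⁻¹ • (u - v) + (‖u‖⁻¹ - ‖v‖⁻¹) • v := by
    rw [smul_sub, sub_smul]
    abel
  have e2 : (‖u‖⁻¹ - ‖v‖⁻¹) * ‖v‖ = ‖u‖⁻¹ * (‖v‖ - ‖u‖) := by
    field_simp
  have h1 : ‖(‖u‖⁻¹ - ‖v‖⁻¹) • v‖ ≤ ‖u‖⁻¹ * ‖u - v‖ := by
    rw [norm_smul, Real.norm_eq_abs, ← abs_of_pos hv, ← abs_mul, abs_of_pos hv, e2, abs_mul,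
      abs_of_pos (inv_pos.2 hu0), norm_sub_rev]
    exact mul_le_mul_of_nonneg_left (abs_norm_sub_norm_le _ _) (inv_pos.2 hu0).le
  have h2 : ‖‖u‖⁻¹ • (u - v)‖ = ‖u‖⁻¹ * ‖u - v‖ := by rw [norm_smul, norm_inv, norm_norm]
  have h3 : ‖u‖⁻¹ * ‖u - v‖ ≤ c⁻¹ * ‖u - v‖ :=
    mul_le_mul_of_nonneg_right (inv_anti₀ hc hu) (norm_nonneg _)
  have h4 := norm_add_le (‖u‖⁻¹ • (u - v)) ((‖u‖⁻¹ - ‖v‖⁻¹) • v)
  rw [dist_eq_norm, dist_eq_norm, e, div_eq_mul_inv]
  linarith only [h1, h2, h3, h4]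

theorem dist_nc {θ c : ℝ} {u v : V α} (hc : 0 < c) (hu : c ≤ ‖cut θ u‖) (hv : c ≤ ‖cut θ v‖) :
    dist (nc θ u) (nc θ v) ≤ 2 / c * dist u v :=
  (dist_nrm hc hu (hc.trans_le hv)).trans
    (mul_le_mul_of_nonneg_left (dist_cut θ u v) (by positivity))

/-- The threshold. -/
noncomputable def ep (n : ℕ) : ℝ := 1 / (2 * ((n : ℝ) + 1))

theorem ep_pos (n : ℕ) : 0 < ep n := by unfold ep; positivity

theorem ep_le (β : Ys n α) : ep n ≤ ‖cut (ep n) β.1‖ := by
  have h := V.abs_sub_le (cut (ep n) β.1) 0 (sel β)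
  rw [dist_zero_right, V.fs_zero, Finsupp.zero_apply, sub_zero, cut_apply,
    abs_of_pos (ep_pos n)] at h
  have h2 : 1 / ((n : ℝ) + 1) ≤ β.1.fs (sel β) := wt_sel β
  have h3 : 1 / ((n : ℝ) + 1) = 2 * ep n := by
    unfold ep
    field_simp
  have h4 := le_max_left (β.1.fs (sel β) - ep n) 0
  have h5 := le_abs_self (max (β.1.fs (sel β) - ep n) 0)
  linarith only [h, h2, h3, h4, h5]

/-- The retraction of a neighbourhood of the codimension one skeleton onto it. -/
noncomputable def r1 (β : Ys n α) : Ys n α :=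
  ⟨nc (ep n) β.1, nc_mem ((ep_pos n).trans_le (ep_le β)) β.card_supp⟩

theorem lip_r1 : Lip (2 / ep n) (r1 : Ys n α → Ys n α) :=
  fun β β' => dist_nc (ep_pos n) (ep_le β) (ep_le β')

theorem lt_of_mem_r1 {β : Ys n α} {a : α} (h : a ∈ (r1 β).supp) : ep n < β.wt a := by
  have h1 := Finsupp.mem_support_iff.1 (supp_nc _ _ h)
  rw [cut_apply, abs_of_pos (ep_pos n)] at h1
  by_contra hc
  exact h1 (max_eq_right (sub_nonpos.2 (not_lt.1 hc)))

theorem supp_r1 (β : Ys n α) : (r1 β).supp ⊆ β.supp :=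
  fun _ h => Ys.mem_supp.2 ((ep_pos n).trans (lt_of_mem_r1 h))

theorem r1_map {ρ : α → α'} (hρ : Function.Injective ρ) (β : Ys n α) :
    r1 (mapY ρ β) = mapY ρ (r1 β) := Subtype.ext (nc_map hρ _ _)

/-- The codimension one skeleton. -/
def sk (n : ℕ) (α : Type) : Set (Ys n α) := {β | β.supp.card ≤ n}

theorem sk_ne (hn : 1 ≤ n) (β : Ys n α) : (sk n α).Nonempty :=
  ⟨vtx (sel β), by simp [sk, supp_vtx, hn]⟩

theorem infDist_map_le (hn : 1 ≤ n) (ρ : α → α') (β : Ys n α) :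
    infDist (mapY ρ β) (sk n α') ≤ infDist β (sk n α) := by
  refine (le_infDist (sk_ne hn β)).2 fun β' h => ?_
  have h1 : mapY ρ β' ∈ sk n α' := (card_supp_mapY_le ρ β').trans h
  have h2 := lip_mapY ρ β β'
  rw [one_mul] at h2
  exact (infDist_le_dist_of_mem h1).trans h2

theorem infDist_map (hn : 1 ≤ n) {ρ : α → α'} (hρ : Function.Injective ρ) (β : Ys n α) :
    infDist (mapY ρ β) (sk n α') = infDist β (sk n α) := by
  refine le_antisymm (infDist_map_le hn ρ β) ?_
  have : Nonempty α := ⟨sel β⟩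
  have h := infDist_map_le hn (Function.invFun ρ) (mapY ρ β)
  rwa [mapY_mapY, mapY_congr (ρ' := id) (fun a _ => Function.leftInverse_invFun hρ a),
    mapY_id] at h

/-- The weight of the extra vertex. -/
noncomputable def sw (β : Ys n α) : ℝ := max (1 - infDist β (sk n α) / ep n) 0

theorem sw_mem (β : Ys n α) : sw β ∈ Icc (0 : ℝ) 1 :=
  ⟨le_max_right _ _, max_le (sub_le_self _ (div_nonneg infDist_nonneg (ep_pos n).le)) zero_le_one⟩

theorem abs_sw_sub (β β' : Ys n α) : |sw β - sw β'| ≤ 1 / ep n * dist β β' := by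
  refine (abs_max_sub_max_le_abs _ _ _).trans ?_
  have h1 := infDist_le_infDist_add_dist (x := β) (y := β') (s := sk n α)
  have h2 := infDist_le_infDist_add_dist (x := β') (y := β) (s := sk n α)
  rw [dist_comm] at h2
  have e : 1 - infDist β (sk n α) / ep n - (1 - infDist β' (sk n α) / ep n)
      = 1 / ep n * (infDist β' (sk n α) - infDist β (sk n α)) := by ring
  have hp : 0 < 1 / ep n := one_div_pos.2 (ep_pos n)
  rw [e, abs_mul, abs_of_pos hp]
  exact mul_le_mul_of_nonneg_left (abs_le.2 ⟨by linarith only [h1], by linarith only [h2]⟩) hp.le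

theorem card_r1 (hn : 1 ≤ n) {β : Ys n α} (h : sw β ≠ 0) : (r1 β).supp.card ≤ n := by
  have h1 : infDist β (sk n α) < ep n := by
    by_contra hc
    refine h (max_eq_right (sub_nonpos.2 ?_))
    rw [le_div_iff₀ (ep_pos n), one_mul]
    exact not_lt.1 hc
  obtain ⟨β', hβ', hd⟩ := (infDist_lt_iff (sk_ne hn β)).1 h1
  exact (Finset.card_le_card fun a ha => mem_supp_of_wt (hd.trans (lt_of_mem_r1 ha))).trans hβ'

/-- The weights of the collapse. -/
noncomputable def r2v (β : Ys n α) : V (Option α) :=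
  (1 - sw β) • (mapY some (r1 β)).1 + sw β • (vtx none : Ys n (Option α)).1

open Classical in
theorem r2v_mem (hn : 1 ≤ n) (β : Ys n α) : r2v β ∈ Y n (Option α) ∧
    (r2v β).fs.support ⊆ insert none (mapY some (r1 β)).supp := by
  by_cases h : sw β = 0
  · have e : r2v β = (mapY some (r1 β)).1 := by simp [r2v, h]
    rw [e]
    exact ⟨(mapY some (r1 β)).2, Finset.subset_insert _ _⟩
  · refine segment_mem _ _ _ ((Finset.card_insert_le _ _).trans (Nat.succ_le_succ
      ((card_supp_mapY_le _ _).trans (card_r1 hn h)))) (Finset.subset_insert _ _) ?_ (sw_mem β)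
    rw [supp_vtx]
    simp

/-- The collapse of the codimension one skeleton to the extra vertex. -/
noncomputable def r2 (hn : 1 ≤ n) (β : Ys n α) : Ys n (Option α) := ⟨r2v β, (r2v_mem hn β).1⟩

theorem supp_r2 (hn : 1 ≤ n) (β : Ys n α) {o : Option α} (h : o ∈ (r2 hn β).supp) :
    o = none ∨ ∃ b ∈ (r1 β).supp, some b = o := by
  classical
  have h1 := (r2v_mem hn β).2 h
  rw [Finset.mem_insert, mem_supp_mapY] at h1
  exact h1

theorem r2_of_zero (hn : 1 ≤ n) {β : Ys n α} (h : sw β = 0) : r2 hn β = mapY some (r1 β) :=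
  Subtype.ext (by simp [r2, r2v, h])

theorem r2_of_card (hn : 1 ≤ n) {β : Ys n α} (h : β.supp.card ≤ n) : r2 hn β = vtx none := by
  have h1 : sw β = 1 := by
    rw [sw, infDist_zero_of_mem (show β ∈ sk n α from h)]
    simp
  exact Subtype.ext (by simp [r2, r2v, h1])

theorem lip_r2 (hn : 1 ≤ n) : Lip (4 / ep n) (r2 hn : Ys n α → Ys n (Option α)) := by
  intro β β'
  have hs := sw_mem β
  have h1 := abs_sw_sub β β'
  have h2 := lip_r1 β β'
  have h3 := lip_mapY some (r1 β) (r1 β')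
  have hx := V.norm_of_mem (mapY some (r1 β')).2
  have hp := V.norm_of_mem (vtx none : Ys n (Option α)).2
  change dist (r2v β) (r2v β') ≤ _
  change dist (mapY some (r1 β)).1 (mapY some (r1 β')).1 ≤ _ at h3
  rw [dist_eq_norm] at h3 ⊢
  unfold r2v
  generalize (mapY some (r1 β)).1 = x at *
  generalize (mapY some (r1 β')).1 = x' at *
  generalize (vtx none : Ys n (Option α)).1 = p at *
  have e : (1 - sw β) • x + sw β • p - ((1 - sw β') • x' + sw β' • p)
      = (1 - sw β) • (x - x') + (sw β - sw β') • (p - x') := by module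
  have h4 : ‖(1 - sw β) • (x - x')‖ ≤ ‖x - x'‖ := by
    rw [norm_smul, Real.norm_of_nonneg (sub_nonneg.2 hs.2)]
    exact mul_le_of_le_one_left (norm_nonneg _) (sub_le_self _ hs.1)
  have h5 : ‖(sw β - sw β') • (p - x')‖ ≤ |sw β - sw β'| * 2 := by
    rw [norm_smul, Real.norm_eq_abs]
    refine mul_le_mul_of_nonneg_left ((norm_sub_le _ _).trans ?_) (abs_nonneg _)
    rw [hx, hp]
    norm_num
  have h6 := norm_add_le ((1 - sw β) • (x - x')) ((sw β - sw β') • (p - x'))
  have e2 : 4 / ep n * dist β β' = 2 / ep n * dist β β' + 1 / ep n * dist β β' * 2 := by ring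
  rw [e, e2]
  linarith only [h1, h2, h3, h4, h5, h6]

theorem r2_map (hn : 1 ≤ n) {ρ : α → α'} (hρ : Function.Injective ρ) (β : Ys n α) :
    r2 hn (mapY ρ β) = mapY (Option.map ρ) (r2 hn β) := by
  have h1 : sw (mapY ρ β) = sw β := by rw [sw, sw, infDist_map hn hρ]
  have h2 : mapY some (r1 (mapY ρ β)) = mapY (Option.map ρ) (mapY some (r1 β)) := by
    rw [r1_map hρ, mapY_mapY, mapY_mapY]
    rfl
  have h3 : (vtx none : Ys n (Option α')) = mapY (Option.map ρ) (vtx none) := by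
    rw [mapY_vtx]
    rfl
  refine Subtype.ext ?_
  change r2v (mapY ρ β) = (r2v β).map (Option.map ρ)
  rw [r2v, r2v, V.map_add, V.map_smul, V.map_smul, h1, h2, h3]
  rfl

theorem map_sum {I : Type} (s : Finset I) (ρ : α → α') (c : I → ℝ) (v : I → α) :
    (∑ i ∈ s, c i • V.pt (v i)).map ρ = ∑ i ∈ s, c i • V.pt (ρ (v i)) := by
  classical
  induction s using Finset.induction_on with
  | empty => exact V.ext_fs (by simp [V.map])
  | insert i s hi ih =>
    rw [Finset.sum_insert hi, Finset.sum_insert hi, V.map_add, V.map_smul, V.map_pt, ih]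

/-- The barycentric coordinates as a weight vector. -/
noncomputable def raw (x : D n) : V (Fin (n + 1)) := ∑ i, bary x i • V.pt i

theorem raw_apply (x : D n) (i : Fin (n + 1)) : (raw x).fs i = bary x i := by
  have e : (raw x).fs = ∑ j, bary x j • Finsupp.single j (1 : ℝ) := rfl
  rw [e, Finsupp.finsetSum_apply]
  simp [Finsupp.single_apply]

theorem dist_raw (x x' : D n) : dist (raw x) (raw x') ≤ 2 * ((n : ℝ) + 1) * dist x x' := by
  rw [dist_eq_norm, V.norm_eq _ Finset.univ (Finset.subset_univ _)]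
  have h : ∀ i, |(raw x - raw x').fs i| ≤ 2 * dist x x' := fun i => by
    rw [V.fs_sub, Finsupp.sub_apply, raw_apply, raw_apply]
    exact lip_bary i x x'
  refine (Finset.sum_le_sum fun i _ => h i).trans (le_of_eq ?_)
  rw [Finset.sum_const, Finset.card_univ, Fintype.card_fin, nsmul_eq_mul]
  push_cast
  ring

theorem one_le_raw (x : D n) : 1 ≤ ‖cut 0 (raw x)‖ := by
  rw [V.norm_eq _ Finset.univ (Finset.subset_univ _), ← sum_bary x]
  refine Finset.sum_le_sum fun i _ => ?_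
  rw [cut_apply, raw_apply, abs_zero, sub_zero]
  exact (le_max_left _ _).trans (le_abs_self _)

/-- A retraction of the domain onto the standard simplex. -/
noncomputable def b0 (x : D n) : Ys n (Fin (n + 1)) :=
  ⟨nc 0 (raw x), nc_mem (one_pos.trans_le (one_le_raw x))
    ((Finset.card_le_univ _).trans (by simp))⟩

theorem lip_b0 : Lip (4 * ((n : ℝ) + 1)) (b0 : D n → Ys n (Fin (n + 1))) := by
  intro x x'
  have h1 := dist_nc one_pos (one_le_raw x) (one_le_raw x')
  have h2 := dist_raw x x'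
  change dist (nc 0 (raw x)) (nc 0 (raw x')) ≤ _
  linarith only [h1, h2]

theorem b0_of_nonneg {x : D n} (h : ∀ i, 0 ≤ bary x i) : (b0 x).1 = raw x := by
  have h1 : cut 0 (raw x) = raw x := V.ext_fs (Finsupp.ext fun i => by
    rw [cut_apply, raw_apply, abs_zero, sub_zero, max_eq_left (h i)])
  have h2 : ‖raw x‖ = 1 := by
    rw [V.norm_eq _ Finset.univ (Finset.subset_univ _), ← sum_bary x]
    exact Finset.sum_congr rfl fun i _ => by rw [raw_apply, abs_of_nonneg (h i)]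
  change nc 0 (raw x) = raw x
  rw [nc, h1, h2, inv_one, one_smul]

theorem card_b0 {x : D n} (h : ¬ ∀ i, 0 < bary x i) : (b0 x).supp.card ≤ n := by
  obtain ⟨i, hi⟩ := not_forall.1 h
  have h1 : (b0 x).supp ⊆ Finset.univ.erase i := by
    intro j hj
    have h2 := Finsupp.mem_support_iff.1 (supp_nc _ _ hj)
    rw [cut_apply, raw_apply, abs_zero, sub_zero] at h2
    refine Finset.mem_erase.2 ⟨?_, Finset.mem_univ _⟩
    rintro rfl
    exact h2 (max_eq_right (not_lt.1 hi))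
  exact (Finset.card_le_card h1).trans (by simp)

theorem b0_symm (g : Equiv.Perm (Fin (n + 1))) {x x' : D n} (h : ∀ i, bary x' (g i) = bary x i) :
    b0 x' = mapY g (b0 x) := by
  have h1 : raw x' = (raw x).map g := by
    rw [raw, raw, map_sum Finset.univ g (bary x) fun i => i, ← Equiv.sum_comp g]
    simp only [h]
  refine Subtype.ext ?_
  change nc 0 (raw x') = (nc 0 (raw x)).map g
  rw [h1, nc_map g.injective]

theorem hty_shrink (hn : 1 ≤ n) {Z : Type} [MetricSpace Z] {y : Z} {L : ℝ} (hL : 0 ≤ L)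
    {e : D n → Z} (he : Item y L e) :
    Hty (20 * L) 0 1 (ball 0 1) e (sc ((0 : D n), (1 / 4 : ℝ)) e) := by
  have harr : ∀ r : ℝ, 0 < r → Arr ({()} : Finset Unit) fun _ => ((0 : D n), r) :=
    fun r hr => ⟨fun _ _ => hr, fun _ _ _ _ h => (h rfl).elim⟩
  have h := Hty.move (b := fun _ => y) (s := ({()} : Finset Unit)) (P := fun _ => (0, 1))
    (P' := fun _ => (0, 1 / 4)) (e := fun _ => e) (L := 4 * L) (T := 1) hn
    (lip_const (by linarith only [hL]) y) (by linarith) (fun _ => (0, 1)) (harr 1 one_pos)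
    (fun _ _ _ _ => rfl) one_pos (fun _ _ => le_rfl)
    ⟨harr 1 one_pos, fun _ _ => he.mono (by linarith), fun _ _ _ _ => rfl⟩
    ⟨harr _ (by norm_num), fun _ _ => he.mono (by linarith only []), fun _ _ _ _ => rfl⟩
    (fun _ _ => ⟨subset_rfl, ball_subset_ball (by norm_num)⟩)
  rw [ins_singleton_const one_pos he, ins_singleton_const (by norm_num) he] at h
  have e1 : sc ((0 : D n), (1 : ℝ)) e = e := by
    funext x
    simp [sc]
  rw [e1] at h
  refine h.mono (by linarith only []) le_rfl le_rfl ?_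
  intro x hx
  simpa [Pos.op] using hx

theorem lip_smul {c : ℝ} (hc : 0 ≤ c) : Lip c fun x : D n => c • x := fun x x' => by
  rw [dist_smul₀, Real.norm_of_nonneg hc]

theorem approx (hn : 2 ≤ n) (hn1 : 1 ≤ n) (hk : KuhnS n) (L' : ℝ) :
    ∃ (m : ℕ) (C : ℝ), 2 ≤ m ∧ 1 ≤ C ∧ ∀ (α : Type) (a : α) (e : D n → Ys n α),
    Item (vtx a) L' e → ∃ (l : (Fin n → ℤ) → α) (w : D n → Ys n α),
      (∀ k, l k ≠ a → ∀ j, |(k j : ℝ)| < 2 ^ m / 2) ∧
      (∀ φ : List α → ℤ, Alt φ → degY φ e = pair φ l) ∧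
      (∀ x k π, (∀ i, 0 ≤ bary (kc k π ((2 : ℝ) ^ m • x)) i) →
        w x = sph (fun x => r2 hn1 (b0 x)) a (fun i => l (kv k π i)) (kc k π ((2 : ℝ) ^ m • x))) ∧
      Hty C 0 1 (ball 0 1) e w := by
  classical
  obtain ⟨κ, hκ, hκ1, hκ2, -⟩ := hk
  obtain ⟨L0, hL0, hL1⟩ : ∃ L0 : ℝ, 1 ≤ L0 ∧ L' ≤ L0 := ⟨max L' 1, le_max_right _ _, le_max_left _ _⟩
  have hn0 : (0 : ℝ) < (n : ℝ) + 1 := by positivity
  obtain ⟨m, hm2, hm⟩ : ∃ m : ℕ, 2 ≤ m ∧ 2 * (4 * L0) / 2 ^ m < 1 / ((n : ℝ) + 1) := by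
    obtain ⟨m0, hm0⟩ := pow_unbounded_of_one_lt (8 * L0 * ((n : ℝ) + 1)) (one_lt_two (α := ℝ))
    refine ⟨m0 + 2, by omega, ?_⟩
    rw [div_lt_div_iff₀ (by positivity) hn0, pow_add]
    have : (0 : ℝ) < 2 ^ m0 := by positivity
    linarith only [hm0, this]
  have hp : (0 : ℝ) < 2 ^ m := by positivity
  have hep := ep_pos n
  obtain ⟨K, hK0, hK1, hK2⟩ : ∃ K : ℝ, 4 * L0 ≤ K ∧
      1 * (2 / ep n * (4 * ((n : ℝ) + 1) * 2 ^ m)) ≤ K ∧
      1 * (4 / ep n * (4 * ((n : ℝ) + 1) * 2 ^ m)) ≤ K := by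
    exact ⟨max (4 * L0) (max _ _), le_max_left _ _, (le_max_left _ _).trans (le_max_right _ _),
      (le_max_right _ _).trans (le_max_right _ _)⟩
  refine ⟨m, 5 * K * ((1 + 1 + 1) / 1), hm2, by linarith only [hL0, hK0], fun α a e he => ?_⟩
  have he0 : Item (vtx a) L0 e := he.mono hL1
  have hq : (0 : ℝ) < (((0 : D n), (1 / 4 : ℝ)) : Pos n).2 := by norm_num
  obtain ⟨e2, he2⟩ : ∃ e2, e2 = sc ((0 : D n), (1 / 4 : ℝ)) e := ⟨_, rfl⟩
  have he2L : Lip (4 * L0) e2 := he2 ▸ Item.lip_sc _ hq (he0.mono (by norm_num; linarith only []))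
  have he2o : ∀ x, 1 / 4 ≤ ‖x‖ → e2 x = vtx a := fun x hx =>
    he2 ▸ Item.sc_eq _ hq he0 (by simpa [Pos.op] using hx)
  obtain ⟨l, hl⟩ : ∃ l : (Fin n → ℤ) → α, l = fun k => sel (e2 (grid m k)) := ⟨_, rfl⟩
  have hlab : ∀ x, ∀ k ∈ (κ ((2 : ℝ) ^ m • x)).supp, l k ∈ (e2 x).supp := by
    intro x k hk
    have h1 : dist (grid m k) x ≤ 1 / 2 ^ m := by
      refine (dist_pi_le_iff (by positivity)).2 fun j => ?_
      have h2 := hκ2 _ k hk j
      rw [Pi.smul_apply, smul_eq_mul, abs_sub_comm] at h2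
      have e3 : (k j : ℝ) / 2 ^ m - x j = (k j - 2 ^ m * x j) / 2 ^ m := by field_simp
      rw [Real.dist_eq, grid, e3, abs_div, abs_of_pos hp]
      exact div_le_div_of_nonneg_right h2.le hp.le
    have h2 := he2L (grid m k) x
    have h3 := mul_le_mul_of_nonneg_left h1 (by linarith only [hL0] : 0 ≤ 4 * L0)
    have h4 := wt_sel (e2 (grid m k))
    have h5 : 2 * (4 * L0) / 2 ^ m = 2 * (4 * L0 * (1 / 2 ^ m)) := by ring
    have h6 : 0 ≤ 4 * L0 * (1 / 2 ^ m) := by positivity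
    rw [hl]
    exact mem_supp_of_wt (β' := e2 (grid m k)) (by linarith only [hm, h2, h3, h4, h5, h6])
  obtain ⟨f1, hf1⟩ : ∃ f1 : D n → Ys n α, f1 = fun x => mapY l (r1 (κ ((2 : ℝ) ^ m • x))) :=
    ⟨_, rfl⟩
  obtain ⟨w, hw⟩ : ∃ w : D n → Ys n α,
      w = fun x => mapY (fun o => o.elim a l) (r2 hn1 (κ ((2 : ℝ) ^ m • x))) := ⟨_, rfl⟩
  have hs1 : ∀ x, (f1 x).supp ⊆ (e2 x).supp := by
    intro x b hb
    rw [hf1] at hb
    obtain ⟨k, hk, rfl⟩ := mem_supp_mapY.1 hb
    exact hlab x k (supp_r1 _ hk)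
  have hs2 : ∀ x, (w x).supp ⊆ insert a (f1 x).supp := by
    intro x b hb
    rw [hw] at hb
    obtain ⟨o, ho, rfl⟩ := mem_supp_mapY.1 hb
    rcases supp_r2 hn1 _ ho with rfl | ⟨k, hk, rfl⟩
    · exact Finset.mem_insert_self _ _
    · rw [hf1]
      exact Finset.mem_insert_of_mem (mem_supp_mapY.2 ⟨k, hk, rfl⟩)
  have hout : ∀ x, x ∉ ball (0 : D n) 1 → e2 x = vtx a ∧ f1 x = vtx a ∧ w x = vtx a := by
    intro x hx
    have h1 : e2 x = vtx a := he2o x (by
      rw [mem_ball_zero_iff, not_lt] at hx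
      linarith only [hx])
    have h2 : f1 x = vtx a := eq_vtx_of_supp fun b hb => by
      have := hs1 x hb
      rwa [h1, supp_vtx, Finset.mem_singleton] at this
    refine ⟨h1, h2, eq_vtx_of_supp fun b hb => ?_⟩
    have := hs2 x hb
    rwa [h2, supp_vtx, Finset.mem_insert, Finset.mem_singleton, or_self] at this
  have hκL := hκ.comp (lip_smul (n := n) hp.le) (by positivity)
  have hf1L : Lip K f1 :=
    hf1 ▸ ((lip_mapY l).comp (lip_r1.comp hκL (by positivity)) zero_le_one).mono hK1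
  have hwL : Lip K w :=
    hw ▸ ((lip_mapY _).comp ((lip_r2 hn1).comp hκL (by positivity)) zero_le_one).mono hK2
  refine ⟨l, w, fun k hk j => ?_, fun φ hφ => ?_, fun x k π hx => ?_, ?_⟩
  · have h1 : ‖grid m k‖ < 1 / 4 := by
      by_contra hc
      apply hk
      rw [hl]
      simp only [he2o _ (not_lt.1 hc), sel_vtx]
    have h2 := (norm_le_pi_norm (grid m k) j).trans_lt h1
    rw [grid, Real.norm_eq_abs, abs_div, abs_of_pos hp, div_lt_iff₀ hp] at h2
    linarith only [hp, h2]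
  · rw [← degY_sc hn hφ he0.1 he0.cpt _ hq, ← he2]
    have hc : Cpt a fun x => sel (e2 x) := ⟨1 / 4, fun x hx => by simp only [he2o x hx, sel_vtx]⟩
    rw [hl]
    exact degY_eq_pair hn hφ (by linarith only [hL0]) he2L ⟨1 / 4, he2o⟩ (hc.gb m) le_rfl hm
      fun k => wt_sel _
  · have h1 : κ ((2 : ℝ) ^ m • x) = mapY (kv k π) (b0 (kc k π ((2 : ℝ) ^ m • x))) := by
      refine Subtype.ext ?_
      change _ = (b0 (kc k π ((2 : ℝ) ^ m • x))).1.map (kv k π)
      rw [hκ1 _ k π hx, b0_of_nonneg hx, raw, map_sum Finset.univ (kv k π) _ fun i => i]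
    rw [hw]
    simp only [sph]
    rw [h1, r2_map hn1 (kv_injective k π), mapY_mapY]
    refine mapY_congr fun o _ => ?_
    cases o <;> rfl
  · have H1 : Hty (5 * K) 0 1 (ball 0 1) e e2 :=
      he2 ▸ (hty_shrink hn1 (by linarith only [hL0]) he0).mono (by linarith only [hK0]) le_rfl le_rfl subset_rfl
    have H2 : Hty (5 * K) 0 1 (ball 0 1) e2 f1 :=
      (hty_segmentY (he2L.mono hK0) hf1L one_pos (by linarith only [hL0, hK0])
        (fun x hx => (hout x hx).2.1.trans (hout x hx).1.symm)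
        fun x => ⟨_, (e2 x).card_supp, subset_rfl, hs1 x⟩).mono (by linarith only [hL0, hK0]) le_rfl le_rfl
        subset_rfl
    have H3 : Hty (5 * K) 0 1 (ball 0 1) f1 w := by
      refine (hty_segmentY hf1L hwL one_pos (by linarith only [hL0, hK0])
        (fun x hx => (hout x hx).2.2.trans (hout x hx).2.1.symm) fun x => ?_).mono (by linarith only [hL0, hK0])
        le_rfl le_rfl subset_rfl
      by_cases h : sw (κ ((2 : ℝ) ^ m • x)) = 0
      · refine ⟨_, (f1 x).card_supp, subset_rfl, subset_of_eq ?_⟩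
        rw [hw, hf1]
        simp only [r2_of_zero hn1 h, mapY_mapY]
        rfl
      · refine ⟨insert a (f1 x).supp, (Finset.card_insert_le _ _).trans (Nat.succ_le_succ ?_),
          Finset.subset_insert _ _, hs2 x⟩
        rw [hf1]
        exact (card_supp_mapY_le _ _).trans (card_r1 hn1 h)
    have hK : 0 ≤ 5 * K := by linarith only [hL0, hK0]
    exact (((H1.trans H2 hK zero_le_one zero_le_one).trans H3 hK (by norm_num)
      zero_le_one).speed hK one_pos (by norm_num)).mono le_rfl (by norm_num) le_rfl subset_rfl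

end HurA

theorem exists_isSph {n : ℕ} (hn : 2 ≤ n) (hk : KuhnS n) :
    ∃ (L : ℝ) (E : D n → Ys n (Option (Fin (n + 1)))), 1 ≤ L ∧ IsSph L E := by
  have hn1 : 1 ≤ n := by omega
  have hep := HurA.ep_pos n
  refine ⟨max 1 (4 / HurA.ep n * (4 * ((n : ℝ) + 1))), fun x => HurA.r2 hn1 (HurA.b0 x),
    le_max_left _ _, ((HurA.lip_r2 hn1).comp HurA.lip_b0 (by positivity)).mono (le_max_right _ _),
    fun x hx => HurA.r2_of_card hn1 (HurA.card_b0 hx), fun g x x' h => ?_,
    HurA.approx hn hn1 hk⟩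
  rw [HurA.b0_symm g h, HurA.r2_map hn1 g.injective]

end Pool.Agent.Work.MP_4b5e6c_gt
end

-- merged part: Pool.Agent.Work.MP_4b5e6c_gt.HurC
section
/-! Task HURC: the quantitative Hurewicz theorem for the skeleton. -/

namespace Pool.Agent.Work.MP_4b5e6c_gt
open Metric Set

namespace HurC

variable {n : ℕ}

theorem hty_sc {Z : Type} [MetricSpace Z] {L T : ℝ} {U : Set (D n)} {u u' : D n → Z}
    (h : Hty L 0 T U u u') (P : Pos n) (hP : 0 < P.2) :
    Hty (L / P.2) 0 (P.2 * T) {x | P.2⁻¹ • (x - P.1) ∈ U} (sc P u) (sc P u') := by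
  obtain ⟨H, h1, h2, h3, h4⟩ := h
  have hi : 0 < P.2⁻¹ := inv_pos.2 hP
  refine ⟨fun z => H (P.2⁻¹ • (z - (P.1, 0))), fun z z' => ?_, fun x t ht => ?_,
    fun x t ht => ?_, fun x t hx => ?_⟩
  · refine (h1 _ _).trans (le_of_eq ?_)
    rw [dist_smul₀, dist_sub_right, Real.norm_of_nonneg hi.le]
    ring
  · refine h2 (P.2⁻¹ • (x - P.1)) (P.2⁻¹ * (t - 0)) ?_
    rw [sub_zero]
    exact mul_nonpos_of_nonneg_of_nonpos hi.le ht
  · refine h3 (P.2⁻¹ • (x - P.1)) (P.2⁻¹ * (t - 0)) ?_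
    rw [sub_zero, le_inv_mul_iff₀ hP]
    exact ht
  · exact h4 (P.2⁻¹ • (x - P.1)) (P.2⁻¹ * (t - 0)) hx

theorem shrink {Z : Type} [MetricSpace Z] {K c : ℝ} {U : Set (D n)} {f : D n → Z} {y : Z}
    {p : D n} (hf : Lip K f) (hK : 0 ≤ K) (hc : 1 ≤ c) (hy : ∀ x, x ∉ U → f x = y)
    (hs : ∀ x, x ∉ U → ∀ t : ℝ, 1 ≤ t → p + t • (x - p) ∉ U) (hb : ∀ x ∈ U, ‖x - p‖ ≤ 1) :
    Hty (2 * K * c) 0 1 U f fun x => f (p + c • (x - p)) := by
  have h1 : ∀ τ ∈ Icc (0 : ℝ) 1, 1 ≤ 1 + τ * (c - 1) ∧ 1 + τ * (c - 1) ≤ c := fun τ hτ => by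
    constructor <;> linarith only [hc, hτ, hτ.1, hτ.2, mul_nonneg_of_nonpos_of_nonpos (Mathlib.Tactic.Linarith.sub_nonpos_of_le hc) (Mathlib.Tactic.Linarith.sub_nonpos_of_le hτ.left), mul_nonneg_of_nonpos_of_nonpos (Mathlib.Tactic.Linarith.sub_nonpos_of_le hc) (Mathlib.Tactic.Linarith.sub_nonpos_of_le hτ.right)]
  refine (Hty.of_family (L := K * c) (M := K * c) (T := 1)
    (fun x τ => f (p + (1 + τ * (c - 1)) • (x - p))) (by positivity) (by positivity) one_pos
    (fun x x' τ hτ τ' hτ' => ?_) (fun x => by simp) (fun x => by simp)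
    fun x hx τ hτ => ?_).mono (le_of_eq (by ring)) le_rfl le_rfl Subset.rfl
  · refine (dist_triangle _ (f (p + (1 + τ * (c - 1)) • (x' - p))) _).trans (add_le_add ?_ ?_)
    · refine (hf _ _).trans ?_
      rw [dist_add_left, dist_smul₀, dist_sub_right,
        Real.norm_of_nonneg (by linarith [(h1 τ hτ).1]), mul_assoc]
      exact mul_le_mul_of_nonneg_left (mul_le_mul_of_nonneg_right (h1 τ hτ).2 dist_nonneg) hK
    · by_cases hx : x' ∈ U
      · refine (hf _ _).trans ?_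
        rw [dist_add_left, dist_eq_norm, ← sub_smul, norm_smul, mul_assoc]
        refine mul_le_mul_of_nonneg_left ?_ hK
        have e : 1 + τ * (c - 1) - (1 + τ' * (c - 1)) = (c - 1) * (τ - τ') := by ring
        rw [e, Real.norm_eq_abs, abs_mul, abs_of_nonneg (by linarith)]
        have := hb x' hx
        have h2 := abs_nonneg (τ - τ')
        have h3 := mul_le_mul_of_nonneg_left this (mul_nonneg (sub_nonneg.2 hc) h2)
        linarith
      · rw [hy _ (hs x' hx _ (h1 τ hτ).1), hy _ (hs x' hx _ (h1 τ' hτ').1), dist_self]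
        positivity
  · rw [hy x hx, hy _ (hs x hx _ (h1 τ hτ).1)]

theorem bary_affine (p x : D n) (t : ℝ) (i : Fin (n + 1)) :
    bary (p + t • (x - p)) i = bary p i + t * (bary x i - bary p i) := by
  have h1 : (Fin.cons 1 (p + t • (x - p)) : Fin (n + 1) → ℝ) i =
      (Fin.cons 1 p : Fin (n + 1) → ℝ) i +
        t * ((Fin.cons 1 x : Fin (n + 1) → ℝ) i - (Fin.cons 1 p : Fin (n + 1) → ℝ) i) := by
    refine Fin.cases ?_ (fun j => ?_) i <;> simp
  have h2 : (Fin.snoc (p + t • (x - p)) 0 : Fin (n + 1) → ℝ) i =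
      (Fin.snoc p 0 : Fin (n + 1) → ℝ) i +
        t * ((Fin.snoc x 0 : Fin (n + 1) → ℝ) i - (Fin.snoc p 0 : Fin (n + 1) → ℝ) i) := by
    refine Fin.lastCases ?_ (fun j => ?_) i <;> simp
  simp only [bary, h1, h2]
  ring

/-- The barycentre of the standard simplex. -/
noncomputable def ctr (n : ℕ) : D n := fun j => 1 - ((j : ℝ) + 1) / (n + 1)

theorem bary_ctr (i : Fin (n + 1)) : bary (ctr n) i = 1 / (n + 1) := by
  have h0 : (n : ℝ) + 1 ≠ 0 := by positivity
  have h1 : (Fin.cons 1 (ctr n) : Fin (n + 1) → ℝ) i = 1 - (i : ℝ) / (n + 1) := by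
    refine Fin.cases ?_ (fun j => ?_) i <;> simp [ctr]
  have h2 : (Fin.snoc (ctr n) 0 : Fin (n + 1) → ℝ) i = 1 - ((i : ℝ) + 1) / (n + 1) := by
    refine Fin.lastCases ?_ (fun j => ?_) i
    · simp [h0]
    · simp [ctr]
  rw [bary, h1, h2]
  ring

/-- The open simplex with lowest vertex zero and order of directions `π`. -/
def Us (π : Equiv.Perm (Fin n)) : Set (D n) := {z | ∀ i, 0 < bary (fun j => z (π j)) i}

theorem lip_perm (π : Equiv.Perm (Fin n)) : Lip 1 fun (z : D n) (j : Fin n) => z (π j) :=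
  fun z z' => by
    rw [one_mul, dist_pi_le_iff dist_nonneg]
    exact fun j => dist_le_pi_dist z z' (π j)

theorem sph_out {L : ℝ} {E : D n → Ys n (Option (Fin (n + 1)))} (h : IsSph L E) {α : Type}
    (a : α) (v : Fin (n + 1) → α) {x : D n} (hx : ¬ ∀ i, 0 < bary x i) : sph E a v x = vtx a := by
  rw [sph, h.out x hx, mapY_vtx]
  rfl

theorem one {L : ℝ} {E : D n → Ys n (Option (Fin (n + 1)))} (h : IsSph L E) (hN : SphNormal E) :
    ∃ C ρ : ℝ, 0 ≤ C ∧ 0 < ρ ∧ ∀ π : Equiv.Perm (Fin n), ∃ (g : Equiv.Perm (Fin (n + 1)))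
      (c : D n), Equiv.Perm.sign g = Equiv.Perm.sign π ∧ ball c ρ ⊆ Us π ∧
      ∀ (α : Type) (a : α) (v : Fin (n + 1) → α),
        Hty C 0 2 (Us π) (fun z => sph E a v fun j => z (π j))
          (sc (c, ρ) (sph E a fun i => v (g i))) ∧
        (¬ (Function.Injective v ∧ ∀ i, v i ≠ a) →
          Hty C 0 2 (Us π) (fun z => sph E a v fun j => z (π j)) fun _ => vtx a) := by
  classical
  obtain ⟨C, R, hC, hR, hN⟩ := hN
  set K := |L| + 1 with hK
  have hK1 : 1 ≤ K := by linarith only [abs_nonneg L]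
  have hn1 : (1 : ℝ) ≤ n + 1 := by linarith [Nat.cast_nonneg (α := ℝ) n]
  set t := 2 * ((n : ℝ) + 1) * (R + 1) with ht
  have ht1 : 1 ≤ t := by linarith only [hR, mul_nonneg_of_nonpos_of_nonpos (Mathlib.Tactic.Linarith.sub_nonpos_of_le (Mathlib.Tactic.Linarith.natCast_nonneg ℝ n)) (Mathlib.Tactic.Linarith.sub_nonpos_of_le hR)]
  have ht0 : 0 < t := by linarith
  refine ⟨2 * K * t + C * t, t⁻¹, by positivity, by positivity, fun π => ?_⟩
  obtain ⟨g, hg, hH⟩ := hN π
  set p : D n := fun j => ctr n (π.symm j) with hp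
  have hpπ : (fun j => p (π j)) = ctr n := by
    funext j
    simp [hp]
  have hb : ∀ z ∈ Us π, ∀ j, 0 < z j ∧ z j < 1 := fun z hz j => by
    simpa using mem_of_bary_pos hz (π.symm j)
  have hpU : p ∈ Us π := fun i => by
    rw [hpπ, bary_ctr]
    positivity
  have hsub : ball (p - t⁻¹ • p) (t⁻¹ * R) ⊆ Us π := by
    intro z hz i
    have h1 : dist (p - t⁻¹ • p) p ≤ t⁻¹ := by
      rw [dist_eq_norm, sub_sub_cancel_left, norm_neg, norm_smul,
        Real.norm_of_nonneg (by positivity)]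
      refine mul_le_of_le_one_right (by positivity) ((pi_norm_le_iff_of_nonneg one_pos.le).2 ?_)
      intro j
      rw [Real.norm_of_nonneg (hb p hpU j).1.le]
      exact (hb p hpU j).2.le
    have h2 := dist_triangle z (p - t⁻¹ • p) p
    have h3 := lip_perm π z p
    have h4 := lip_bary i (fun j => z (π j)) fun j => p (π j)
    rw [mem_ball] at hz
    simp only [hpπ, bary_ctr] at h3 h4
    rw [Real.dist_eq, abs_le] at h4
    have h5 : 2 * (t⁻¹ * R + t⁻¹) = 1 / ((n : ℝ) + 1) := by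
      rw [ht]
      field_simp
    linarith only [hz, h1, h2, h3, h4, h5, h4.1]
  refine ⟨g, p - t⁻¹ • p, hg, (ball_subset_ball ?_).trans hsub, fun α a v => ?_⟩
  · exact le_mul_of_one_le_right (by positivity) hR
  have hF : Lip K fun z : D n => sph E a v fun j => z (π j) := by
    have := ((h.item a v).1.mono (L' := K) (by linarith [le_abs_self L])).comp (lip_perm π)
      (by linarith)
    rwa [mul_one] at this
  have hout : ∀ z, z ∉ Us π → (sph E a v fun j => z (π j)) = vtx a := fun z hz =>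
    sph_out h a v hz
  have hCt : 0 ≤ C * t := by positivity
  have hKt : 0 ≤ 2 * K * t := by positivity
  constructor
  · have s1 := shrink (p := p) hF (by linarith) ht1 hout (fun z hz s hs hc => hz fun i => ?_)
      fun z hz => ?_
    · have s2 := (hH α a v).sc (p - t⁻¹ • p, t⁻¹) (by positivity)
      have e : (fun x => (fun z : D n => sph E a v fun j => z (π j)) (p + t • (x - p))) =
          sc (p - t⁻¹ • p, t⁻¹) fun z : D n => sph E a v fun j => z (π j) := by
        funext x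
        have : p + t • (x - p) = t⁻¹⁻¹ • (x - (p - t⁻¹ • p)) := by
          rw [inv_inv, smul_sub, smul_sub, smul_sub, smul_smul, mul_inv_cancel₀ ht0.ne', one_smul]
          abel
        rw [this]
        rfl
      rw [e] at s1
      have s3 := (s1.mono (L' := 2 * K * t + C * t) (by linarith only [hCt]) le_rfl le_rfl Subset.rfl).trans
        (s2.mono (L' := 2 * K * t + C * t) (κ' := 0) (T' := 1) (U' := Us π)
          (by rw [div_inv_eq_mul]; linarith) le_rfl
          (by rw [mul_one]; exact inv_le_one_of_one_le₀ ht1) hsub) (by linarith) one_pos.le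
        one_pos.le
      exact s3.mono le_rfl (by simp) (by norm_num) Subset.rfl
    · have h1 := hc i
      have e : (fun j => (p + s • (z - p)) (π j)) =
          (fun j => p (π j)) + s • ((fun j => z (π j)) - fun j => p (π j)) := rfl
      rw [e, bary_affine, hpπ, bary_ctr] at h1
      by_contra h2
      have h3 : (0 : ℝ) < 1 / (n + 1) := by positivity
      linarith only [h1, h2, hs, h3, mul_nonneg_of_nonpos_of_nonpos (Mathlib.Tactic.Linarith.sub_nonpos_of_le hs) (Mathlib.Tactic.Linarith.sub_nonpos_of_le (le_of_not_gt h2)), mul_nonneg_of_nonpos_of_nonpos (Mathlib.Tactic.Linarith.sub_nonpos_of_le hs) (le_of_lt (Mathlib.Tactic.Linarith.sub_neg_of_lt h3))]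
    · refine (pi_norm_le_iff_of_nonneg one_pos.le).2 fun j => ?_
      have h1 := hb z hz j
      have h2 := hb p hpU j
      rw [Pi.sub_apply, Real.norm_eq_abs, abs_le]
      constructor <;> linarith only [h1, h2, h1.1, h1.2, h2.1, h2.2]
  · intro hv
    refine (hty_segmentY (T := 2) hF (lip_const (by linarith) _) two_pos (by linarith)
      (fun z hz => (hout z hz).symm) fun z => ⟨insert a (Finset.univ.image v), ?_, ?_, ?_⟩).mono
      (by linarith only [hC, hR, ht1, hK1, mul_nonneg_of_nonpos_of_nonpos (Mathlib.Tactic.Linarith.sub_nonpos_of_le (Mathlib.Tactic.Linarith.natCast_nonneg ℝ n)) (Mathlib.Tactic.Linarith.sub_nonpos_of_le hR), mul_nonneg_of_nonpos_of_nonpos (Mathlib.Tactic.Linarith.sub_nonpos_of_le hC) (Mathlib.Tactic.Linarith.sub_nonpos_of_le ht1), mul_nonneg_of_nonpos_of_nonpos (Mathlib.Tactic.Linarith.sub_nonpos_of_le hK1) (Mathlib.Tactic.Linarith.sub_nonpos_of_le ht1)]) le_rfl le_rfl Subset.rfl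
    · have h1 : (Finset.univ.image v).card ≤ n + 1 := Finset.card_image_le.trans (by simp)
      by_cases h2 : ∃ i, v i = a
      · rwa [Finset.insert_eq_of_mem (by simpa using h2)]
      · have h3 : (Finset.univ.image v).card ≠ n + 1 := fun h3 => by
          refine hv ⟨?_, fun i hi => h2 ⟨i, hi⟩⟩
          have := (Finset.card_image_iff (s := Finset.univ) (f := v)).1 (by simpa using h3)
          simpa using this
        have h4 := Finset.card_insert_le a (Finset.univ.image v)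
        omega
    · intro b hb
      rcases supp_sph E a v _ b hb with rfl | ⟨i, rfl⟩ <;> simp
    · rw [supp_vtx]
      simp

theorem kc_eq (m : ℕ) (k : Fin n → ℤ) (π : Equiv.Perm (Fin n)) (x : D n) :
    (fun j => ((((2 : ℝ) ^ m)⁻¹)⁻¹ • (x - grid m k)) (π j)) = kc k π ((2 : ℝ) ^ m • x) := by
  funext j
  simp only [inv_inv, Pi.smul_apply, Pi.sub_apply, grid, kc, smul_eq_mul]
  field_simp

/-- The open Kuhn simplices of the grid of level `m`. -/
def Os (m : ℕ) (q : (Fin n → ℤ) × Equiv.Perm (Fin n)) : Set (D n) :=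
  {x | ∀ i, 0 < bary (kc q.1 q.2 ((2 : ℝ) ^ m • x)) i}

theorem Os_eq (m : ℕ) (q : (Fin n → ℤ) × Equiv.Perm (Fin n)) :
    {x | (((2 : ℝ) ^ m)⁻¹)⁻¹ • (x - grid m q.1) ∈ Us q.2} = Os m q := by
  ext x
  simp only [Us, Os, mem_ofPred_eq, kc_eq]

theorem isOpen_Os (m : ℕ) (q : (Fin n → ℤ) × Equiv.Perm (Fin n)) : IsOpen (Os m q) := by
  rw [Os, ofPred_forall]
  refine isOpen_iInter_of_finite fun i => isOpen_lt continuous_const ?_
  refine (lip_bary i).continuous.comp (f := fun x : D n => kc q.1 q.2 ((2 : ℝ) ^ m • x)) ?_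
  unfold kc
  fun_prop

theorem disj_Os (m : ℕ) {q q' : (Fin n → ℤ) × Equiv.Perm (Fin n)} (h : q ≠ q') :
    Disjoint (Os m q) (Os m q') :=
  Set.disjoint_left.2 fun _ hx hx' =>
    h (Prod.ext (kc_unique hx fun i => (hx' i).le).1 (kc_unique hx fun i => (hx' i).le).2)

theorem Os_sub {m : ℕ} (hm : 2 ≤ m) {q : (Fin n → ℤ) × Equiv.Perm (Fin n)} {i : Fin (n + 1)}
    (h : ∀ j, |(kv q.1 q.2 i j : ℝ)| < 2 ^ m / 2) : Os m q ⊆ ball 0 1 := by
  intro x hx
  rw [mem_ball_zero_iff, pi_norm_lt_iff one_pos]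
  intro j
  have h1 := mem_of_bary_pos hx (q.2.symm j)
  simp only [kc, Equiv.apply_symm_apply, Pi.smul_apply, smul_eq_mul] at h1
  have h2 := abs_lt.1 (h j)
  have h3 : (q.1 j : ℝ) ≤ kv q.1 q.2 i j := by exact_mod_cast (kv_dist q.1 q.2 i j).1
  have h4 : (kv q.1 q.2 i j : ℝ) ≤ q.1 j + 1 := by exact_mod_cast (kv_dist q.1 q.2 i j).2
  have h5 : (2 : ℝ) ^ 2 ≤ 2 ^ m := pow_le_pow_right₀ one_le_two hm
  rw [Real.norm_eq_abs, abs_lt]
  constructor <;> (refine lt_of_not_ge fun h_nl => ?_; linarith only [h_nl, h2, h4, h5, h1, h3, h1.1, h1.2, h2.1, h2.2, mul_pos_of_neg_of_neg (Mathlib.Tactic.Linarith.sub_neg_of_lt h1.left) (Mathlib.Tactic.Linarith.sub_neg_of_lt h1.left), mul_pos_of_neg_of_neg (Mathlib.Tactic.Linarith.sub_neg_of_lt h1.left) (Mathlib.Tactic.Linarith.sub_neg_of_lt h1.right), mul_pos_of_neg_of_neg (Mathlib.Tactic.Linarith.sub_neg_of_lt h1.right) (Mathlib.Tactic.Linarith.sub_neg_of_lt h1.right), mul_nonneg_of_nonpos_of_nonpos (le_of_lt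 (Mathlib.Tactic.Linarith.sub_neg_of_lt h2.left)) (Mathlib.Tactic.Linarith.sub_nonpos_of_le h_nl), mul_nonneg_of_nonpos_of_nonpos (le_of_lt (Mathlib.Tactic.Linarith.sub_neg_of_lt h2.right)) (Mathlib.Tactic.Linarith.sub_nonpos_of_le h_nl), mul_pos_of_neg_of_neg (Mathlib.Tactic.Linarith.sub_neg_of_lt h1.left) (Mathlib.Tactic.Linarith.sub_neg_of_lt h2.right), mul_pos_of_neg_of_neg (Mathlib.Tactic.Linarith.sub_neg_of_lt h1.right) (Mathlib.Tactic.Linarith.sub_neg_of_lt h2.right)])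

theorem box_mem {m : ℕ} (hm : 2 ≤ m) {k : Fin n → ℤ} {π : Equiv.Perm (Fin n)} {i : Fin (n + 1)}
    (h : ∀ j, |(kv k π i j : ℝ)| < 2 ^ m / 2) :
    k ∈ Fintype.piFinset fun _ : Fin n => Finset.Icc (-(2 : ℤ) ^ m) (2 ^ m) := by
  rw [Fintype.mem_piFinset]
  intro j
  have h2 := abs_lt.1 (h j)
  have h3 : (k j : ℝ) ≤ kv k π i j := by exact_mod_cast (kv_dist k π i j).1
  have h4 : (kv k π i j : ℝ) ≤ k j + 1 := by exact_mod_cast (kv_dist k π i j).2
  have h5 : (2 : ℝ) ^ 2 ≤ 2 ^ m := pow_le_pow_right₀ one_le_two hm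
  have h6 : -(2 : ℝ) ^ m ≤ k j := by linarith only [h2, h4, h5, h2.1]
  have h7 : (k j : ℝ) ≤ 2 ^ m := by linarith only [h2, h3, h5, h2.2]
  exact Finset.mem_Icc.2 ⟨by exact_mod_cast h6, by exact_mod_cast h7⟩

theorem comp_op {Q : Pos n} (hQ : 0 < Q.2) {c : D n} {ρ : ℝ} {x : D n}
    (hx : x ∈ (Q.comp (c, ρ)).op) : Q.2⁻¹ • (x - Q.1) ∈ ball c ρ := by
  have e : Q.2⁻¹ • (x - Q.1) - c = Q.2⁻¹ • (x - (Q.1 + Q.2 • c)) := by
    rw [← sub_sub, smul_sub _ (x - Q.1), smul_smul, inv_mul_cancel₀ hQ.ne', one_smul]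
  rw [mem_ball, dist_eq_norm, e, norm_smul, Real.norm_of_nonneg (inv_pos.2 hQ).le,
    inv_mul_lt_iff₀ hQ, ← dist_eq_norm]
  exact hx

theorem core (hfr : FrS n) {L : ℝ} {E : D n → Ys n (Option (Fin (n + 1)))} (h : IsSph L E)
    (hN : SphNormal E) (L' : ℝ) :
    ∃ M : ℕ, ∀ η : ℝ, 0 < η → ∃ C : ℝ, 1 ≤ C ∧ ∀ (α : Type) (a : α) (e : D n → Ys n α),
      Item (vtx a) L' e → ∃ (s : Finset (Fin M)) (v : Fin M → Fin (n + 1) → α),
      (∀ i ∈ s, Function.Injective (v i) ∧ ∀ j, v i j ≠ a) ∧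
      (∀ φ : List α → ℤ, Alt φ → (∀ l, a ∈ l → φ l = 0) →
        ∑ i ∈ s, φ (List.ofFn (v i)) = degY φ e) ∧
      ∀ P : Fin M → Pos n, Arr s P → (∀ i ∈ s, η ≤ (P i).2 ∧ (P i).op ⊆ ball 0 1) →
        Hty C 0 1 (ball 0 1) e (ins (fun _ => vtx a) s P fun i => sph E a (v i)) := by
  classical
  obtain ⟨m, C1, hm, hC1, happ⟩ := h.approx L'
  obtain ⟨C2, ρ, hC2, hρ, hone⟩ := one h hN
  choose g c hg hc hH using hone
  set Bx := Fintype.piFinset fun _ : Fin n => Finset.Icc (-(2 : ℤ) ^ m) (2 ^ m) with hBx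
  set J := Bx ×ˢ (Finset.univ : Finset (Equiv.Perm (Fin n))) with hJ
  obtain ⟨en, en1, en2, en3⟩ : ∃ en : Fin J.card → (Fin n → ℤ) × Equiv.Perm (Fin n),
      Function.Injective en ∧ (∀ i, en i ∈ J) ∧ ∀ q ∈ J, ∃ i, en i = q :=
    ⟨fun i => (J.equivFin.symm i).1, Subtype.val_injective.comp J.equivFin.symm.injective,
      fun i => (J.equivFin.symm i).2, fun q hq => ⟨J.equivFin ⟨q, hq⟩, by simp⟩⟩
  obtain ⟨C3, hC3, hfr⟩ := hfr J.card
  refine ⟨J.card, fun η hη => ?_⟩
  set r : ℝ := ((2 : ℝ) ^ m)⁻¹ with hr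
  have hr0 : 0 < r := by positivity
  have hr2 : r * 2 ≤ 1 := by
    rw [hr, inv_mul_le_iff₀ (by positivity), mul_one]
    exact le_self_pow₀ one_le_two (by omega)
  have hμ : 0 < min η (r * ρ) := by positivity
  set L2 := |L| / min η (r * ρ) with hL2
  have hL20 : 0 ≤ L2 := by positivity
  have hk2 : 0 ≤ C2 / r := by positivity
  have hk3 : 0 ≤ C3 * L2 := by positivity
  refine ⟨(C1 + C2 / r + C3 * L2) * 3, by linarith only [hC1, hr0, hr2, hk2, hk3], fun α a e he => ?_⟩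
  obtain ⟨l, w, hl, hdeg, hw, hH0⟩ := happ α a e he
  set lab : (Fin n → ℤ) × Equiv.Perm (Fin n) → Fin (n + 1) → α := fun q i => l (kv q.1 q.2 i)
    with hlab
  set Gd : (Fin n → ℤ) × Equiv.Perm (Fin n) → Prop :=
    fun q => Function.Injective (lab q) ∧ ∀ i, lab q i ≠ a with hGd
  have hJm : ∀ q i, lab q i ≠ a → q ∈ J := fun q i hq =>
    Finset.mem_product.2 ⟨box_mem hm (hl _ hq), Finset.mem_univ _⟩
  set s := Finset.univ.filter fun i => Gd (en i) with hs
  have hs' : ∀ {i}, i ∈ s ↔ Gd (en i) := by simp [hs]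
  refine ⟨s, fun i j => lab (en i) (g (en i).2 j), fun i hi =>
    ⟨(hs'.1 hi).1.comp (g _).injective, fun j => (hs'.1 hi).2 _⟩, fun φ hφ h0 => ?_,
    fun P hP hPη => ?_⟩
  · have hz : ∀ q, ¬ Gd q → φ (List.ofFn (lab q)) = 0 := fun q hq => by
      by_cases h1 : Function.Injective (lab q)
      · refine h0 _ ?_
        by_contra h2
        exact hq ⟨h1, fun i hi => h2 (List.mem_ofFn.2 ⟨i, hi⟩)⟩
      · exact hφ.eq_zero fun h2 => h1 (List.nodup_ofFn.1 h2)
    rw [hdeg φ hφ, pair_eq_sum φ l Bx fun k hk π => hz (k, π) fun hq =>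
      hk (Finset.mem_product.1 (hJm _ 0 (hq.2 0))).1, ← Finset.sum_product', ← hJ, hs,
      Finset.sum_filter]
    refine Finset.sum_bij (fun i _ => en i) (fun i _ => en2 i) (fun i _ j _ hij => en1 hij)
      (fun q hq => (en3 q hq).imp fun i hi => ⟨Finset.mem_univ _, hi⟩) fun i _ => ?_
    split_ifs with hi
    · rw [hφ.ofFn_perm, hg]
    · exact ((congrArg _ (hz _ hi)).trans (mul_zero _)).symm
  set P1 : Fin J.card → Pos n := fun i => Pos.comp (grid m (en i).1, r) (c (en i).2, ρ) with hP1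
  have hop : ∀ i, (P1 i).op ⊆ Os m (en i) := fun i x hx => by
    rw [← Os_eq]
    exact hc _ (comp_op (Q := (grid m (en i).1, r)) hr0 hx)
  have hA1 : Arr s P1 := ⟨fun i _ => mul_pos hr0 hρ, fun i _ j _ hij =>
    (disj_Os m (en1.ne hij)).mono (hop i) (hop j)⟩
  have hfit : ∀ Q : Fin J.card → Pos n, Arr s Q → (∀ i ∈ s, min η (r * ρ) ≤ (Q i).2) →
      Fit L2 (fun _ => vtx a) s Q fun i => sph E a fun j => lab (en i) (g (en i).2 j) :=
    fun Q hQ hQ' => ⟨hQ, fun i hi => (h.item a _).mono ((le_abs_self L).trans (by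
      rw [hL2, div_mul_eq_mul_div, le_div_iff₀ hμ]
      exact mul_le_mul_of_nonneg_left (hQ' i hi) (abs_nonneg L))), fun _ _ _ _ => rfl⟩
  have s2 := hfr _ _ s (vtx a) L2 P1 P _ (0, 1) hL20 (by simpa using Finset.card_le_univ s)
    one_pos (hfit P1 hA1 fun i _ => min_le_right _ _)
    (hfit P hP fun i hi => (min_le_left _ _).trans (hPη i hi).1)
    fun i hi => ⟨(hop i).trans (Os_sub hm (hl _ ((hs'.1 hi).2 0))), (hPη i hi).2⟩
  have hno : ∀ {x : D n}, (∀ i ∈ s, x ∉ Os m (en i)) → ins (fun _ => vtx a) s P1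
      (fun i => sph E a fun j => lab (en i) (g (en i).2 j)) x = vtx a := fun hx =>
    ins_of_not_mem fun i hi hx' => hx i hi (hop i hx')
  have s1 := Hty.patch (L := C2 / r) (κ := 0) (T := r * 2) (u := w)
    (u' := ins (fun _ => vtx a) s P1 fun i => sph E a fun j => lab (en i) (g (en i).2 j))
    {q | ∃ i, lab q i ≠ a} (Os m) (fun q _ => isOpen_Os m q) (fun q _ q' _ hq => disj_Os m hq)
    (fun _ => vtx a) (fun q => sc (grid m q.1, r) fun z => sph E a (lab q) fun j => z (q.2 j))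
    (fun q => if Gd q then sc (Pos.comp (grid m q.1, r) (c q.2, ρ))
      (sph E a fun j => lab q (g q.2 j)) else fun _ => vtx a)
    (lip_const hk2 _) hk2 le_rfl (fun q _ => ?_) (fun q hq x hx => ⟨?_, ?_⟩)
    (fun x hx => ⟨?_, hno fun i hi => hx _ ⟨0, (hs'.1 hi).2 0⟩⟩) fun q _ x hx => ?_
  · have hK : 0 ≤ C1 + C2 / r + C3 * L2 := by linarith only [hC1, hr0, hr2, hk2, hk3]
    have t1 := hH0.mono (L' := C1 + C2 / r + C3 * L2) (by linarith only [hk2, hk3]) le_rfl le_rfl Subset.rfl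
    have t2 := s1.mono (L' := C1 + C2 / r + C3 * L2) (κ' := 0) (T' := 1) (U' := ball 0 1)
      (by linarith only [hC1, hr0, hr2, hk3]) (by simp) hr2
      (iUnion₂_subset fun q hq => Os_sub hm (hl _ hq.choose_spec))
    have t3 := s2.mono (L' := C1 + C2 / r + C3 * L2) (by linarith only [hC1, hr0, hr2, hk2]) le_rfl le_rfl Subset.rfl
    have t4 := ((t1.trans t2 hK one_pos.le one_pos.le).trans t3 hK (by norm_num)
      one_pos.le).speed hK one_pos (by norm_num)
    exact t4.mono (le_of_eq (by norm_num)) (by simp) le_rfl Subset.rfl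
  · rw [← Os_eq]
    split_ifs with hq
    · rw [sc_comp _ _ hr0 hρ]
      exact hty_sc (hH q.2 α a (lab q)).1 (grid m q.1, r) hr0
    · exact hty_sc ((hH q.2 α a (lab q)).2 hq) (grid m q.1, r) hr0
  · rw [hw x q.1 q.2 fun i => (hx i).le, ← kc_eq]
    rfl
  · split_ifs with hq'
    · obtain ⟨i, rfl⟩ := en3 q (hJm q 0 (hq'.2 0))
      by_cases hx' : x ∈ (P1 i).op
      · exact ins_of_mem hA1 (hs'.2 hq') hx'
      · rw [(h.item a _).sc_eq (P1 i) (mul_pos hr0 hρ) hx']
        refine ins_of_not_mem fun j hj hx'' => ?_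
        by_cases hij : j = i
        · exact hx' (hij ▸ hx'')
        · exact Set.disjoint_left.1 (disj_Os m (en1.ne hij)) (hop j hx'') hx
    · refine hno fun j hj hx' => ?_
      by_cases hij : en j = q
      · exact hq' (hij ▸ hs'.1 hj)
      · exact Set.disjoint_left.1 (disj_Os m hij) hx' hx
  · obtain ⟨k, π, hk⟩ := exists_kc ((2 : ℝ) ^ m • x)
    rw [hw x k π hk]
    by_cases h1 : x ∈ Os m (k, π)
    · refine eq_vtx_of_supp fun b hb => ?_
      rcases supp_sph E a _ _ b hb with rfl | ⟨i, rfl⟩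
      · rfl
      · by_contra h2
        exact hx (k, π) ⟨i, h2⟩ h1
    · exact sph_out h a _ h1
  · have h1 : x ∉ Os m q := fun h1 => by
      rw [(isOpen_Os m q).frontier_eq] at hx
      exact hx.2 h1
    rw [← Os_eq] at h1
    exact sph_out h a _ h1

end HurC

theorem IsSph.hur {n : ℕ} (hn : 2 ≤ n) (hfr : FrS n) {L : ℝ}
    {E : D n → Ys n (Option (Fin (n + 1)))} (h : IsSph L E) (hN : SphNormal E) : SphHur E := by
  intro L'
  obtain ⟨M, hM⟩ := HurC.core hfr h hN L'
  refine ⟨M, fun η hη => ?_⟩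
  obtain ⟨C, hC, hM⟩ := hM η hη
  refine ⟨C, hC, fun α a e S he ha hS => ?_⟩
  obtain ⟨f, hf⟩ := exists_lift S e hS
  have hd : ∀ β β' : Ys n S, dist (mapY Subtype.val β) (mapY Subtype.val β') = dist β β' :=
    dist_mapY_of_injective Subtype.val_injective
  have hi : Item (vtx (⟨a, ha⟩ : S)) L' f := by
    refine ⟨fun x x' => ?_, fun x hx => ?_⟩
    · rw [← hd, hf, hf]
      exact he.1 x x'
    · rw [← dist_eq_zero, ← hd, hf, mapY_vtx, he.2 x hx, dist_self]
  obtain ⟨s, v, h1, h2, h3⟩ := hM S ⟨a, ha⟩ f hi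
  refine ⟨s, fun i j => (v i j).1, fun i hi => ⟨Subtype.val_injective.comp (h1 i hi).1,
    fun j => ⟨(v i j).2, fun c => (h1 i hi).2 j (Subtype.ext c)⟩⟩, fun φ hφ h0 => ?_,
    fun Z _ ι B P hB hι hP hη => ?_⟩
  · have e1 : e = fun x => mapY Subtype.val (f x) := funext fun x => (hf x).symm
    rw [e1, degY_mapY hn hφ _ hi.1 hi.cpt, ← h2 _ (hφ.map _) fun l hl =>
      h0 _ (List.mem_map.2 ⟨_, hl, rfl⟩)]
    refine Finset.sum_congr rfl fun i _ => ?_
    rw [List.map_ofFn]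
    rfl
  · have h4 := (h3 P hP hη).comp hι.lip_val hB
    rw [ins_comp fun β : Ys n S => ι (mapY Subtype.val β)] at h4
    simp only [hf, mapY_vtx, mapY_sph, mul_zero] at h4
    rwa [mul_comm]

end Pool.Agent.Work.MP_4b5e6c_gt
end

-- merged part: Pool.Agent.Work.MP_4b5e6c_gt.Cancel
section
/-! Task CANCEL: simplicial items with total chain zero can be removed. -/

namespace Pool.Agent.Work.MP_4b5e6c_gt
open Metric Set

variable {n : ℕ} {X : Type} [MetricSpace X]

namespace Cancel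

/-- In each pair of a matching choose the member of larger weight. -/
theorem exists_movers {J : Type} (s : Finset J) (m : J → J) (w : J → ℤ)
    (hm : ∀ k ∈ s, m k ∈ s ∧ m k ≠ k ∧ m (m k) = k) :
    ∃ t : Finset J, t ⊆ s ∧ (∀ k ∈ s, k ∈ t ↔ m k ∉ t) ∧ ∀ k ∈ t, w (m k) ≤ w k := by
  classical
  let idx : J → ℕ := fun k => if h : k ∈ s then (s.equivFin ⟨k, h⟩ : ℕ) else 0
  have hidx : ∀ k ∈ s, ∀ k' ∈ s, idx k = idx k' → k = k' := by
    intro k hk k' hk' h
    simp only [idx, dif_pos hk, dif_pos hk'] at h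
    have := s.equivFin.injective (Fin.ext h)
    exact congrArg Subtype.val this
  refine ⟨s.filter fun k => w (m k) < w k ∨ (w (m k) = w k ∧ idx (m k) < idx k),
    Finset.filter_subset _ _, ?_, ?_⟩
  · intro k hk
    obtain ⟨h1, h2, h3⟩ := hm k hk
    have hne : idx (m k) ≠ idx k := fun h => h2 (hidx _ h1 _ hk h)
    simp only [Finset.mem_filter, hk, h1, true_and, h3]
    omega
  · intro k hk
    have := (Finset.mem_filter.1 hk).2
    omega

/-- The moving clause for a fixed constant. -/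
def MoveC (n : ℕ) (X : Type) [MetricSpace X] (C : ℝ) : Prop :=
  ∀ (I : Type) (s : Finset I) (y y1 : X) (L : ℝ) (C0 : DC n) (b : D n → X) (A B : I → DC n)
    (e : I → D n → X), 0 < L → Lip L b → (∀ x, x ∉ C0.op → b x = y) → Pack C0 s A →
    Pack C0 s B → (∀ i ∈ s, (A i).j = (B i).j) →
    (∀ i ∈ s, ∀ x ∈ (A i).cl ∪ (B i).cl, b x = y1) →
    (∀ i ∈ s, Item y1 (L * ((A i).side / 2)) (e i)) →
    Hty (C * L) 0 C0.side C0.big (ins b s (fun i => (A i).pos) e)
      (ins b s (fun i => (B i).pos) e)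

theorem pack_mono {J : Type} {C0 : DC n} {s t : Finset J} {W A : J → DC n} (g : J → J)
    (hW : Pack C0 s W) (hg : ∀ k ∈ t, g k ∈ s)
    (hinj : ∀ k ∈ t, ∀ k' ∈ t, g k = g k' → k = k') (hA : ∀ k ∈ t, (A k).Sub (W (g k))) :
    Pack C0 t A :=
  ⟨fun k hk => (hA k hk).trans (hW.1 _ (hg k hk)), fun k hk k' hk' hne =>
    (hW.2 _ (hg k hk) _ (hg k' hk') fun h => hne (hinj k hk k' hk' h)).mono (hA k hk) (hA k' hk')⟩

theorem arr_two {A B : DC n} (h : A.Disj B) :
    Arr (Finset.univ : Finset (Fin 2)) ![A.pos, B.pos] := by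
  refine ⟨fun i _ => ?_, fun i _ j _ hij => ?_⟩
  · fin_cases i
    · exact half_pos A.side_pos
    · exact half_pos B.side_pos
  · fin_cases i <;> fin_cases j
    · exact absurd rfl hij
    · exact h
    · exact h.symm
    · exact absurd rfl hij

/-- The last phase: the pairs, which are now together, are removed in parallel. -/
theorem remove_pairs {J : Type} {s t r : Finset J} {m : J → J} {C0 : DC n} {W O G : J → DC n}
    {b : D n → X} {y1 : X} {f : J → D n → X} {K T : ℝ} (hK : 0 ≤ K) (hb : Lip K b)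
    (hW : Pack C0 s W) (hrs : r ⊆ s) (hmt : ∀ k ∈ t, m k ∈ r ∧ m (m k) = k)
    (hmr : ∀ k ∈ r, m k ∈ t ∧ m (m k) = k) (hO : ∀ k ∈ r, (O k).Sub (W k))
    (hG : ∀ k ∈ t, (G k).Sub (W (m k))) (hOG : ∀ k ∈ r, (O k).Disj (G (m k)))
    (hy : ∀ k ∈ r, ∀ x ∈ (W k).cl, b x = y1)
    (hH : ∀ k ∈ r, Hty K 0 T (W k).op
      (ins (fun _ => y1) Finset.univ ![(O k).pos, (G (m k)).pos] ![f k, f (m k)]) fun _ => y1) :
    Hty K 0 T C0.big (ins (ins b r (fun k => (O k).pos) f) t (fun k => (G k).pos) f) b := by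
  have pO : Pack C0 r O := pack_mono id hW (fun k hk => hrs hk) (fun _ _ _ _ h => h) hO
  have pG : Pack C0 t G := pack_mono m hW (fun k hk => hrs (hmt k hk).1)
    (fun k hk k' hk' h => by rw [← (hmt k hk).2, h, (hmt k' hk').2]) hG
  have key := Hty.patch (u := ins (ins b r (fun k => (O k).pos) f) t (fun k => (G k).pos) f)
    (u' := b) (κ := 0) (T := T) (↑r : Set J) (fun k => (W k).op) (fun k _ => isOpen_ball)
    (fun k hk k' hk' hne => hW.2 k (hrs hk) k' (hrs hk') hne) b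
    (fun k => ins (fun _ => y1) Finset.univ ![(O k).pos, (G (m k)).pos] ![f k, f (m k)])
    (fun _ _ => y1) hb hK le_rfl hH ?_ ?_ ?_
  · refine key.mono le_rfl (by norm_num) le_rfl ?_
    refine iUnion₂_subset fun k hk => ?_
    exact Subset.trans (hW.1 k (hrs hk)) (C0.op_subset_cl.trans C0.cl_subset_big)
  · intro k hk x hx
    have hk' : k ∈ r := hk
    have hbx : b x = y1 := hy k hk' x ((W k).op_subset_cl hx)
    refine ⟨?_, hbx⟩
    have hA := arr_two (hOG k hk')
    by_cases h1 : x ∈ (G (m k)).op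
    · rw [ins_of_mem pG.arr (hmr k hk').1 h1, ins_of_mem hA (Finset.mem_univ 1) h1]
      rfl
    · have h2 : ∀ k' ∈ t, x ∉ (G k').pos.op := by
        intro k' hkt hx'
        by_cases hkk : m k' = k
        · apply h1
          rw [← hkk, (hmt k' hkt).2]
          exact hx'
        · exact Set.disjoint_left.1 (hW.2 _ (hrs (hmt k' hkt).1) _ (hrs hk') hkk)
            (hG k' hkt hx') hx
      rw [ins_of_not_mem h2]
      by_cases h3 : x ∈ (O k).op
      · rw [ins_of_mem pO.arr hk' h3, ins_of_mem hA (Finset.mem_univ 0) h3]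
        rfl
      · have h4 : ∀ k' ∈ r, x ∉ (O k').pos.op := by
          intro k' hkr hx'
          by_cases hkk : k' = k
          · exact h3 (hkk ▸ hx')
          · exact Set.disjoint_left.1 (hW.2 _ (hrs hkr) _ (hrs hk') hkk) (hO k' hkr hx') hx
        rw [ins_of_not_mem h4, ins_of_not_mem, hbx]
        intro i _
        fin_cases i
        · exact h3
        · exact h1
  · intro x hx
    refine ⟨?_, rfl⟩
    rw [ins_of_not_mem, ins_of_not_mem]
    · exact fun k hk hx' => hx k hk (hO k hk hx')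
    · exact fun k hk hx' => hx (m k) (hmt k hk).1 (hG k hk hx')
  · intro k hk x hx
    have hk' : k ∈ r := hk
    have hxo : x ∉ (W k).op := fun h =>
      Set.disjoint_left.1 (disjoint_frontier_iff_isOpen.2 (isOpen_ball (x := (W k).c))) hx h
    have hxc : x ∈ (W k).cl := closure_ball_subset_closedBall (frontier_subset_closure hx)
    rw [hy k hk' x hxc, ins_of_not_mem]
    intro i _
    fin_cases i
    · exact fun h => hxo (hO k hk' h)
    · intro h
      have := hG (m k) (hmr k hk').1 h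
      rw [(hmr k hk').2] at this
      exact hxo this

/-- Matched items are brought together and removed. -/
theorem move_remove {J : Type} {s : Finset J} {m : J → J} {C0 : DC n} {W O F : J → DC n}
    {b : D n → X} {y y1 : X} {f : J → D n → X} {K K' C T : ℝ} (hM : MoveC n X C) (hK : 0 < K)
    (hKK : K ≤ K') (hCK : C * K ≤ K') (hT : 0 ≤ T) (hb : Lip K b)
    (hby : ∀ x, x ∉ C0.op → b x = y) (hW : Pack C0 s W)
    (hm : ∀ k ∈ s, m k ∈ s ∧ m k ≠ k ∧ m (m k) = k) (hO : ∀ k ∈ s, (O k).Sub (W k))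
    (hF : ∀ k ∈ s, (F k).Sub (W k)) (hOF : ∀ k ∈ s, (O k).Disj (F k))
    (hj : ∀ k ∈ s, (F k).j = (O k).j) (hy : ∀ k ∈ s, ∀ x ∈ (W k).cl, b x = y1)
    (hf : ∀ k ∈ s, Item y1 (K * ((O k).side / 2)) (f k))
    (hH : ∀ k ∈ s, ∀ Q : DC n, Q.j = (O (m k)).j → Q.Sub (F k) → Hty K' 0 T (W k).op
      (ins (fun _ => y1) Finset.univ ![(O k).pos, Q.pos] ![f k, f (m k)]) fun _ => y1) :
    Hty K' 0 (C0.side + T) C0.big (ins b s (fun k => (O k).pos) f) b := by
  classical
  obtain ⟨t, hts, ht, hw⟩ := exists_movers s m (fun k => (O k).j) hm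
  have hG : ∀ k, ∃ Q : DC n, k ∈ t → Q.j = (O k).j ∧ Q.Sub (F (m k)) := by
    intro k
    by_cases hk : k ∈ t
    · have h1 : (F (m k)).j ≤ (O k).j := by
        rw [hj _ (hm k (hts hk)).1]
        exact hw k hk
      obtain ⟨Q, hQ1, hQ2, -⟩ := DC.exists_cube ((F (m k)).op_subset_cl (F (m k)).c_mem_op) h1
      exact ⟨Q, fun _ => ⟨hQ1, hQ2⟩⟩
    · exact ⟨O k, fun h => absurd h hk⟩
  choose G hG using hG
  set r := s \ t with hr
  have hrs : r ⊆ s := Finset.sdiff_subset
  have hmt : ∀ k ∈ t, m k ∈ r ∧ m (m k) = k := fun k hk =>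
    ⟨Finset.mem_sdiff.2 ⟨(hm k (hts hk)).1, (ht k (hts hk)).1 hk⟩, (hm k (hts hk)).2.2⟩
  have hmr : ∀ k ∈ r, m k ∈ t ∧ m (m k) = k := by
    intro k hk
    obtain ⟨h1, h2⟩ := Finset.mem_sdiff.1 hk
    refine ⟨?_, (hm k h1).2.2⟩
    by_contra h3
    exact h2 ((ht k h1).2 h3)
  have hu : r ∪ t = s := Finset.sdiff_union_of_subset hts
  have hd : Disjoint r t := Finset.sdiff_disjoint
  have pO : Pack C0 s O := pack_mono id hW (fun k hk => hk) (fun _ _ _ _ h => h) hO
  have hGW : ∀ k ∈ t, (G k).Sub (W (m k)) := fun k hk =>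
    (hG k hk).2.trans (hF _ (hm k (hts hk)).1)
  have pG : Pack C0 t G := pack_mono m hW (fun k hk => (hm k (hts hk)).1)
    (fun k hk k' hk' h => by rw [← (hmt k hk).2, h, (hmt k' hk').2]) hGW
  have hc : ∀ k ∈ s, ∀ x ∈ (O k).cl, b x = y1 := fun k hk x hx =>
    hy k hk x ((hO k hk).cl_subset hx)
  have hfit : Fit K b s (fun k => (O k).pos) f := by
    refine ⟨pO.arr, fun k hk => ?_, fun k hk x hx => ?_⟩
    · have := hc k hk _ ((O k).op_subset_cl (O k).c_mem_op)
      simp only [DC.pos_fst, DC.pos_snd, this]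
      exact hf k hk
    · rw [hc k hk x hx]
      exact (hc k hk _ ((O k).op_subset_cl (O k).c_mem_op)).symm
  have hb1 : Lip K (ins b r (fun k => (O k).pos) f) := (hfit.subset hrs).lip hb hK.le
  have hOG : ∀ k ∈ r, (O k).Disj (G (m k)) := by
    intro k hk
    have h1 := (hG (m k) (hmr k hk).1).2
    rw [(hmr k hk).2] at h1
    exact (hOF k (hrs hk)).mono (DC.Sub.refl _) h1
  have H1 := hM J t y y1 K C0 (ins b r (fun k => (O k).pos) f) O G f hK hb1 ?_
    (pack_mono id hW (fun k hk => hts hk) (fun _ _ _ _ h => h) fun k hk => hO k (hts hk)) pG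
    (fun k hk => (hG k hk).1.symm) ?_ (fun k hk => hf k (hts hk))
  · have H2 := remove_pairs (T := T) (f := f) (hK.le.trans hKK) (hb.mono hKK) hW hrs hmt hmr
      (fun k hk => hO k (hrs hk)) hGW hOG (fun k hk => hy k (hrs hk)) fun k hk =>
        hH k (hrs hk) _ (hG (m k) (hmr k hk).1).1 (by
          have h1 := (hG (m k) (hmr k hk).1).2
          rwa [(hmr k hk).2] at h1)
    have e1 : ins b s (fun k => (O k).pos) f =
        ins (ins b r (fun k => (O k).pos) f) t (fun k => (O k).pos) f := by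
      rw [← ins_union (hu.symm ▸ pO.arr) hd, hu]
    rw [e1]
    have := (H1.mono hCK le_rfl le_rfl subset_rfl).trans H2 (hK.le.trans hKK) C0.side_pos.le hT
    simpa using this
  · intro x hx
    rw [ins_of_not_mem, hby x hx]
    exact fun k hk hx' => hx (pO.1 k (hrs hk) hx')
  · intro k hk x hx
    rcases hx with hx | hx
    · rw [ins_of_not_mem, hc k (hts hk) x hx]
      intro k' hk' hx'
      have hne : k' ≠ k := fun h => Finset.disjoint_left.1 hd hk' (h ▸ hk)
      exact Set.disjoint_left.1 (pO.2 k' (hrs hk') k (hts hk) hne).op_cl hx' hx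
    · rw [ins_of_not_mem, hy _ (hm k (hts hk)).1 x ((hGW k hk).cl_subset hx)]
      intro k' hk' hx'
      by_cases hne : k' = m k
      · have h1 := hOG k' hk'
        rw [hne, (hmt k hk).2, ← hne] at h1
        exact Set.disjoint_left.1 h1.op_cl hx' hx
      · exact Set.disjoint_left.1 ((hW.2 k' (hrs hk') _ (hm k (hts hk)).1 hne).mono
          (hO k' (hrs hk')) (hGW k hk)).op_cl hx' hx

/-- The position of a subcube relative to a cube. -/
noncomputable def rel (P Q : DC n) : Pos n :=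
  ((P.side / 2)⁻¹ • (Q.c - P.c), Q.side / 2 / (P.side / 2))

theorem comp_rel (P Q : DC n) : P.pos.comp (rel P Q) = Q.pos := by
  have h : P.side / 2 ≠ 0 := (half_pos P.side_pos).ne'
  simp only [Pos.comp, rel, DC.pos]
  refine Prod.ext ?_ ?_
  · simp only [smul_smul, mul_inv_cancel₀ h, one_smul, add_sub_cancel]
  · exact mul_div_cancel₀ _ h

theorem mem_rel {P Q : DC n} {x : D n} :
    x ∈ (rel P Q).op ↔ P.c + (P.side / 2) • x ∈ Q.op := by
  have h : 0 < P.side / 2 := half_pos P.side_pos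
  simp only [rel, Pos.op, DC.op, mem_ball, dist_eq_norm]
  have e : P.c + (P.side / 2) • x - Q.c =
      (P.side / 2) • (x - (P.side / 2)⁻¹ • (Q.c - P.c)) := by
    rw [smul_sub, smul_smul, mul_inv_cancel₀ h.ne', one_smul]
    abel
  rw [e, norm_smul, Real.norm_of_nonneg h.le, lt_div_iff₀ h, mul_comm]

theorem rel_subset {P Q : DC n} (h : Q.Sub P) : (rel P Q).op ⊆ ball 0 1 := by
  intro x hx
  have h0 : 0 < P.side / 2 := half_pos P.side_pos
  have h1 := h (mem_rel.1 hx)
  simp only [DC.op, mem_ball, dist_eq_norm, add_sub_cancel_left, norm_smul,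
    Real.norm_of_nonneg h0.le] at h1
  rw [mem_ball_zero_iff]
  by_contra h2
  linarith only [h1, h0, h2, not_lt.1 h2, mul_nonneg_of_nonpos_of_nonpos (le_of_lt (Mathlib.Tactic.Linarith.sub_neg_of_lt h0)) (Mathlib.Tactic.Linarith.sub_nonpos_of_le (le_of_not_gt h2))]

theorem arr_rel {J : Type} {s : Finset J} {P : DC n} {Q : J → DC n} (h : Pack P s Q) :
    Arr s fun k => rel P (Q k) := by
  refine ⟨fun k _ => div_pos (half_pos (Q k).side_pos) (half_pos P.side_pos), ?_⟩
  intro k hk k' hk' hne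
  rw [Set.disjoint_left]
  intro x hx hx'
  exact Set.disjoint_left.1 (h.2 k hk k' hk' hne) (mem_rel.1 hx) (mem_rel.1 hx')

theorem item_sph {L : ℝ} {E : D n → Ys n (Option (Fin (n + 1)))} (h : IsSph L E) {α : Type}
    {a : α} {v : Fin (n + 1) → α} {S : Set α} (ha : a ∈ S) (hv : ∀ j, v j ∈ S) {B : ℝ}
    (hB : 0 ≤ B) {ι : Ys n α → X} (hι : LipS S B ι) :
    Item (ι (vtx a)) (B * |L|) fun x => ι (sph E a v x) := by
  have h1 := (h.item a v).mono (le_abs_self L)
  have hs : ∀ x, ↑(sph E a v x).supp ⊆ S := by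
    intro x c hc
    rcases supp_sph E a v x c hc with rfl | ⟨j, rfl⟩
    · exact ha
    · exact hv j
  refine ⟨fun x x' => ?_, fun x hx => congrArg ι (h1.2 x hx)⟩
  calc _ ≤ B * dist (sph E a v x) (sph E a v x') := hι _ _ (hs x) (hs x')
    _ ≤ B * (|L| * dist x x') := mul_le_mul_of_nonneg_left (h1.1 x x') hB
    _ = _ := by ring

end Cancel

open Cancel in
theorem cancel (hn : 2 ≤ n) {L : ℝ} {E : D n → Ys n (Option (Fin (n + 1)))} (h : IsSph L E)
    (hc : SphCancel E) (hh : SphHur E) (hm : MoveS n X) : CancelS n X := by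
  classical
  intro L1 hL1
  obtain ⟨M, hM⟩ := hh L1
  obtain ⟨C1, hC1, hM⟩ := hM (1 / 2 ^ (M + 2)) (by positivity)
  obtain ⟨Cc, hCc, hc⟩ := hc
  obtain ⟨Cm, hCm, hm⟩ := hm
  have hm' : MoveC n X Cm := hm
  have hn1 : 1 ≤ n := by omega
  obtain ⟨K, hK1, hK2, hK3, hK4, hK5⟩ : ∃ K : ℝ, 1 ≤ K ∧ L1 ≤ K ∧ 2 * C1 * L1 ≤ K ∧
      2 * L1 * 2 ^ (M + 2) ≤ K ∧ 2 * L1 * 2 ^ (M + 2) * |L| ≤ K := by
    have h1 : 0 ≤ 2 * C1 * L1 := by positivity
    have h2 : 0 ≤ 2 * L1 * 2 ^ (M + 2) := by positivity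
    have h3 : 0 ≤ 2 * L1 * 2 ^ (M + 2) * |L| := by positivity
    exact ⟨1 + L1 + 2 * C1 * L1 + 2 * L1 * 2 ^ (M + 2) + 2 * L1 * 2 ^ (M + 2) * |L|, by linarith only [hL1, h1, h2, h3],
      by linarith only [h1, h2, h3], by linarith only [hL1, h2, h3], by linarith only [hL1, h1, h3], by linarith only [hL1, h1, h2]⟩
  have hK0 : 0 < K := by linarith
  have hKm : Cm * K ≤ (Cm + Cc) * K := by linarith only [hL1, hCc, hK3, hC1, hK1, mul_nonneg_of_nonpos_of_nonpos (le_of_lt (Mathlib.Tactic.Linarith.sub_neg_of_lt hL1)) (Mathlib.Tactic.Linarith.sub_nonpos_of_le hC1), mul_nonneg_of_nonpos_of_nonpos (Mathlib.Tactic.Linarith.sub_nonpos_of_le hCc) (Mathlib.Tactic.Linarith.sub_nonpos_of_le hK1)]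
  have hKc : Cc * K ≤ (Cm + Cc) * K := by linarith only [hL1, hCm, hK3, hC1, hK1, mul_nonneg_of_nonpos_of_nonpos (le_of_lt (Mathlib.Tactic.Linarith.sub_neg_of_lt hL1)) (Mathlib.Tactic.Linarith.sub_nonpos_of_le hC1), mul_nonneg_of_nonpos_of_nonpos (Mathlib.Tactic.Linarith.sub_nonpos_of_le hCm) (Mathlib.Tactic.Linarith.sub_nonpos_of_le hK1)]
  have hKK : K ≤ (Cm + Cc) * K := by linarith only [hCc, hKc, hK1, mul_nonneg_of_nonpos_of_nonpos (Mathlib.Tactic.Linarith.sub_nonpos_of_le hCc) (Mathlib.Tactic.Linarith.sub_nonpos_of_le hK1)]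
  refine ⟨(Cm + Cc) * K * 3, by linarith only [hK1, hKK], ?_⟩
  intro α I ι a y C0 b s P e S B hb hby hP hflat he hsum
  have hex : ∀ i, ∃ (t : Finset (Fin M)) (v : Fin M → Fin (n + 1) → α), i ∈ s →
      (∀ k ∈ t, Function.Injective (v k) ∧ ∀ j, v k j ∈ S i ∧ v k j ≠ a) ∧
      (∀ φ : List α → ℤ, Alt φ → (∀ l, a ∈ l → φ l = 0) →
        ∑ k ∈ t, φ (List.ofFn (v k)) = degY φ (e i)) ∧
      ∀ R : Fin M → Pos n, Arr t R →
        (∀ k ∈ t, 1 / 2 ^ (M + 2) ≤ (R k).2 ∧ (R k).op ⊆ ball 0 1) →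
        Hty (C1 * B i) 0 1 (ball 0 1) (fun x => ι (e i x))
          (ins (fun _ => ι (vtx a)) t R fun k x => ι (sph E a (v k) x)) := by
    intro i
    by_cases hi : i ∈ s
    · obtain ⟨h1, h2, h3, h4, -, h6⟩ := he i hi
      obtain ⟨t, v, h7, h8, h9⟩ := hM α a (e i) (S i) h1 h2 h3
      exact ⟨t, v, fun _ => ⟨h7, h8, fun R hR hR' => h9 X ι (B i) R h4 h6 hR hR'⟩⟩
    · exact ⟨∅, fun _ _ => a, fun h => absurd h hi⟩
  choose t v hv using hex
  choose W hWj hW using fun i => exists_slots hn1 M (P i)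
  choose Sl hSj hSl using fun i k => exists_slots hn1 2 (W i k)
  have hOW : ∀ i k c, (Sl i k c).Sub (W i k) := fun i k c => (hSl i k).1 c (Finset.mem_univ _)
  have hWP : ∀ i k, (W i k).Sub (P i) := fun i k => (hW i).1 k (Finset.mem_univ _)
  have hside : ∀ i k c, (Sl i k c).side = (P i).side / 2 ^ (M + 2) := by
    intro i k c
    apply DC.side_of_j_add
    rw [hSj, hWj]
    push_cast
    ring
  have hBO : ∀ i ∈ s, ∀ k, B i ≤ 2 * L1 * 2 ^ (M + 2) * ((Sl i k 0).side / 2) := by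
    intro i hi k
    rw [hside]
    calc B i ≤ L1 * (P i).side := (he i hi).2.2.2.2.1
      _ = _ := by field_simp
  have pO : ∀ i, Pack (P i) (t i) fun k => Sl i k 0 := fun i =>
    pack_mono id (hW i) (fun k _ => Finset.mem_univ _) (fun _ _ _ _ h => h) fun k _ => hOW i k 0
  have hrel : ∀ i, ∀ k, (rel (P i) (Sl i k 0)).op ⊆ ball 0 1 := fun i k =>
    rel_subset ((hOW i k 0).trans (hWP i k))
  have hbc : ∀ i ∈ s, b (P i).c = ι (vtx a) := fun i hi =>
    hflat i hi _ ((P i).op_subset_cl (P i).c_mem_op)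
  -- first phase
  have H0 : ∀ i ∈ s, Hty (K * (P i).pos.2) 0 1 (ball 0 1) (fun x => ι (e i x))
      (ins (fun _ => ι (vtx a)) (t i) (fun k => rel (P i) (Sl i k 0))
        fun k x => ι (sph E a (v i k) x)) := by
    intro i hi
    refine ((hv i hi).2.2 _ (arr_rel (pO i)) fun k _ => ⟨?_, hrel i k⟩).mono ?_ le_rfl le_rfl
      subset_rfl
    · have := (P i).side_pos
      simp only [rel, hside]
      apply le_of_eq
      field_simp
    · have h1 := (he i hi).2.2.2.2.1
      have h2 := (P i).side_pos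
      calc C1 * B i ≤ C1 * (L1 * (P i).side) := mul_le_mul_of_nonneg_left h1 (by linarith only [hC1])
        _ = 2 * C1 * L1 * ((P i).side / 2) := by ring
        _ ≤ K * ((P i).side / 2) := mul_le_mul_of_nonneg_right hK3 (by linarith only [h2])
  have hfit : Fit K b s (fun i => (P i).pos) fun i x => ι (e i x) := by
    refine ⟨hP.arr, fun i hi => ⟨(H0 i hi).lip_left, fun x hx => ?_⟩, fun i hi x hx => ?_⟩
    · exact (congrArg ι ((he i hi).1.2 x hx)).trans (hbc i hi).symm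
    · rw [hflat i hi x hx]
      exact (hbc i hi).symm
  have H1 := Hty.items (T := C0.side) (hb.mono hK2) hK0.le le_rfl hfit (fun _ => 1)
    (fun i hi => by
      have h1 := (hP.1 i hi).side_le hn1
      have h2 := (P i).side_pos
      simp only [DC.pos_snd]
      linarith only [h1, h2]) H0
  have e1 := ins_nest (b := b) t (fun i k => rel (P i) (Sl i k 0))
    (fun i k x => ι (sph E a (v i k) x)) (fun _ => ι (vtx a)) hP.arr
    (fun i _ => arr_rel (pO i)) (fun i _ k _ => hrel i k)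
    (fun i hi x hx => hflat i hi x ((P i).op_subset_cl hx))
  simp only [comp_rel] at e1
  rw [e1] at H1
  -- the matching
  obtain ⟨m, hmm⟩ := exists_matching (s.sigma t) a (fun k : (_ : I) × Fin M => v k.1 k.2)
    (fun k hk => by
      obtain ⟨h1, h2⟩ := Finset.mem_sigma.1 hk
      exact ⟨((hv _ h1).1 _ h2).1, fun j => (((hv _ h1).1 _ h2).2 j).2⟩)
    (fun φ hφ hφa => by
      rw [Finset.sum_sigma, ← hsum φ hφ]
      exact Finset.sum_congr rfl fun i hi => (hv i hi).2.1 φ hφ hφa)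
  have pW : Pack C0 (s.sigma t) fun k : (_ : I) × Fin M => W k.1 k.2 := by
    refine ⟨fun k hk => (hWP _ _).trans (hP.1 _ (Finset.mem_sigma.1 hk).1), ?_⟩
    rintro ⟨i, k⟩ hk ⟨i', k'⟩ hk' hne
    by_cases hi : i = i'
    · subst hi
      exact (hW i).2 k (Finset.mem_univ _) k' (Finset.mem_univ _) fun h => hne (by rw [h])
    · exact (hP.2 i (Finset.mem_sigma.1 hk).1 i' (Finset.mem_sigma.1 hk').1 hi).mono
        (hWP _ _) (hWP _ _)
  have H2 := move_remove (T := C0.side) (m := m)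
    (O := fun k : (_ : I) × Fin M => Sl k.1 k.2 0) (F := fun k => Sl k.1 k.2 1)
    (f := fun k x => ι (sph E a (v k.1 k.2) x)) (y1 := ι (vtx a)) hm' hK0 hKK hKm
    C0.side_pos.le (hb.mono hK2) hby pW
    (fun k hk => ⟨(hmm k hk).1, (hmm k hk).2.1, (hmm k hk).2.2.1⟩) (fun k _ => hOW _ _ _)
    (fun k _ => hOW _ _ _)
    (fun k _ => (hSl k.1 k.2).2 0 (Finset.mem_univ _) 1 (Finset.mem_univ _) (by decide))
    (fun k _ => by simp only [hSj])
    (fun k hk x hx => hflat _ (Finset.mem_sigma.1 hk).1 x ((hWP _ _).cl_subset hx)) ?_ ?_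
  · have hU : (⋃ i ∈ s, (P i).pos.op) ⊆ C0.big := iUnion₂_subset fun i hi =>
      Subset.trans (hP.1 i hi) (C0.op_subset_cl.trans C0.cl_subset_big)
    have hs := C0.side_pos
    have H3 := (H1.mono hKK (le_refl _) le_rfl hU).trans H2 (by linarith only [hK1, hKK]) hs.le (by linarith only [hs])
    have H4 := H3.speed (by linarith) hs (by linarith only [hs])
    refine H4.mono (le_of_eq ?_) (by norm_num) le_rfl subset_rfl
    field_simp
    ring
  · intro k hk
    obtain ⟨h1, h2⟩ := Finset.mem_sigma.1 hk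
    obtain ⟨-, h3, -, h4, -, h6⟩ := he _ h1
    refine (item_sph h h3 (fun j => (((hv _ h1).1 _ h2).2 j).1) h4 h6).mono ?_
    have h7 := (Sl k.1 k.2 0).side_pos
    calc B k.1 * |L| ≤ 2 * L1 * 2 ^ (M + 2) * ((Sl k.1 k.2 0).side / 2) * |L| :=
          mul_le_mul_of_nonneg_right (hBO _ h1 _) (abs_nonneg _)
      _ = 2 * L1 * 2 ^ (M + 2) * |L| * ((Sl k.1 k.2 0).side / 2) := by ring
      _ ≤ _ := mul_le_mul_of_nonneg_right hK5 (by linarith only [h7])
  · intro k hk Q hQj hQ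
    obtain ⟨h1, h2⟩ := Finset.mem_sigma.1 hk
    obtain ⟨hk', -, -, g, hg, hvg⟩ := hmm k hk
    obtain ⟨h1', h2'⟩ := Finset.mem_sigma.1 hk'
    obtain ⟨-, h3, -, h4, -, h6⟩ := he _ h1
    obtain ⟨-, h3', -, h4', -, h6'⟩ := he _ h1'
    have hd : (Sl k.1 k.2 0).Disj Q :=
      ((hSl k.1 k.2).2 0 (Finset.mem_univ _) 1 (Finset.mem_univ _) (by decide)).mono
        (DC.Sub.refl _) hQ
    have hlip : LipS (S k.1 ∩ S (m k).1) (min (B k.1) (B (m k).1)) ι := by
      rcases le_total (B k.1) (B (m k).1) with hle | hle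
      · rw [min_eq_left hle]
        exact h6.mono inter_subset_left le_rfl
      · rw [min_eq_right hle]
        exact h6'.mono inter_subset_right le_rfl
    have hvS : ∀ j, v k.1 k.2 j ∈ S k.1 ∩ S (m k).1 := by
      intro j
      refine ⟨(((hv _ h1).1 _ h2).2 j).1, ?_⟩
      have := (((hv _ h1').1 _ h2').2 (g.symm j)).1
      rw [hvg] at this
      simpa using this
    have H := hc α a (v k.1 k.2) g (S k.1 ∩ S (m k).1) X ι _ K ![(Sl k.1 k.2 0).pos, Q.pos]
      (W k.1 k.2).pos hg ⟨h3, h3'⟩ hvS (le_min h4 h4') hlip (half_pos (W k.1 k.2).side_pos) (arr_two hd) ?_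
    · rw [← hvg] at H
      refine H.mono hKc le_rfl ?_ subset_rfl
      have h7 := (pW.1 k hk).side_le hn1
      have h8 := (W k.1 k.2).side_pos
      simp only [DC.pos_snd]
      linarith only [h7, h8]
    · intro i
      fin_cases i
      · refine ⟨(min_le_left _ _).trans ((hBO _ h1 k.2).trans ?_), hOW _ _ _⟩
        exact mul_le_mul_of_nonneg_right hK4 (half_pos (Sl k.1 k.2 0).side_pos).le
      · refine ⟨(min_le_right _ _).trans ((hBO _ h1' (m k).2).trans ?_), hQ.trans (hOW _ _ _)⟩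
        rw [← DC.side_eq_of_j hQj]
        exact mul_le_mul_of_nonneg_right hK4 (half_pos Q.side_pos).le

end Pool.Agent.Work.MP_4b5e6c_gt
end

-- merged part: Pool.Agent.Work.MP_4b5e6c_gt.Ext
section
/-! Task EXT: extension of admissible labellings and homotopy invariance of `Null`. -/

namespace Pool.Agent.Work.MP_4b5e6c_gt
open Metric Set

variable {n : ℕ} {X : Type} [MetricSpace X]

theorem Thin.union {K K' : Set X} (h : Thin n K) (h' : Thin n K') : Thin n (K ∪ K') := by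
  intro G L hG
  rw [image_union]
  exact MeasureTheory.measure_union_null (h G L hG) (h' G L hG)

theorem Thin.mono {K K' : Set X} (h : Thin n K) (h' : K' ⊆ K) : Thin n K' := by
  intro G L hG
  exact MeasureTheory.measure_mono_null (image_mono h') (h G L hG)

theorem Good.thin_prod (G : Good n X) {H : D n × ℝ → X} {L : ℝ} (hH : Lip L H) :
    Thin n (range H) := by
  have h1 : Lip 1 fun z : D (n + 1) => ((Fin.tail z, z 0) : D n × ℝ) := by
    intro a b
    rw [one_mul, Prod.dist_eq]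
    exact max_le ((dist_pi_le_iff dist_nonneg).2 fun i => dist_le_pi_dist a b i.succ)
      (dist_le_pi_dist a b 0)
  have h2 := (hH.mono (le_max_left L 0)).comp h1 (le_max_right L 0)
  refine (G.thin _ _ h2).mono ?_
  rintro _ ⟨⟨x, t⟩, rfl⟩
  exact ⟨Fin.cons t x, by simp⟩

theorem Good.thin_dom (G : Good n X) {u : D n → X} {L : ℝ} (hu : Lip L u) : Thin n (range u) := by
  have h1 : Lip 1 (Prod.fst : D n × ℝ → D n) := by
    intro a b
    rw [one_mul, Prod.dist_eq]
    exact le_max_left _ _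
  have h2 := (hu.mono (le_max_left L 0)).comp h1 (le_max_right L 0)
  refine (G.thin_prod h2).mono ?_
  rintro _ ⟨x, rfl⟩
  exact ⟨(x, 0), rfl⟩

namespace Ext

open MeasureTheory Filter Topology

theorem thin_singleton (y : X) : Thin n ({y} : Set X) := by
  intro G L _
  rw [image_singleton]
  exact measure_singleton _

theorem finite_labels {S : Type} {K : Set X} (hK : IsCompact K) {W : X → S} {ε : ℝ} (hε : 0 < ε)
    (hW : Adm n W K ε) : (W '' K).Finite := by
  obtain ⟨t, htK, htf, hcov⟩ := hK.finite_cover_balls hε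
  choose! T hT using hW
  refine (htf.biUnion fun z _ => (T z).finite_toSet).subset ?_
  rintro _ ⟨p, hp, rfl⟩
  obtain ⟨z, hz, hpz⟩ := mem_iUnion₂.1 (hcov hp)
  exact mem_iUnion₂.2 ⟨z, hz, (hT z (htK hz)).2 p hp (le_of_lt hpz)⟩

/-- differences of coordinates -/
def dif {ι : Type} (u : Fin (n + 2) → ι) : (ι → ℝ) →ₗ[ℝ] D (n + 1) where
  toFun t := fun i => t (u 0) - t (u i.succ)
  map_add' a b := by
    funext i
    simp only [Pi.add_apply]
    ring
  map_smul' c a := by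
    funext i
    simp only [Pi.smul_apply, smul_eq_mul, RingHom.id_apply]
    ring

theorem dif_surj {ι : Type} {u : Fin (n + 2) → ι} (hu : Function.Injective u) :
    Function.Surjective (dif u) := by
  intro y
  refine ⟨Function.extend u (Fin.cons 0 (-y) : Fin (n + 2) → ℝ) 0, funext fun i => ?_⟩
  change Function.extend u (Fin.cons 0 (-y) : Fin (n + 2) → ℝ) 0 (u 0) -
    Function.extend u (Fin.cons 0 (-y) : Fin (n + 2) → ℝ) 0 (u i.succ) = y i
  rw [hu.extend_apply, hu.extend_apply]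
  simp

/-- generic shifts exclude ties of `n + 2` functions on a thin compact set -/
theorem exists_shift {ι : Type} [Fintype ι] {K' : Set X} (hK' : IsCompact K') (hthin : Thin n K')
    (f : ι → X → ℝ) (hf : ∀ o, Lip 1 (f o)) {δ : ℝ} (hδ : 0 < δ) :
    ∃ t : ι → ℝ, (∀ o, |t o| < δ) ∧ ∀ u : Fin (n + 2) → ι, Function.Injective u →
      ∀ p ∈ K', ∃ i : Fin (n + 1), f (u i.succ) p + t (u i.succ) ≠ f (u 0) p + t (u 0) := by
  have key : ∀ u : Fin (n + 2) → ι, ∀ᵐ t : ι → ℝ, Function.Injective u →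
      dif u t ∈ ((fun p (i : Fin (n + 1)) => f (u i.succ) p - f (u 0) p) '' K')ᶜ := by
    intro u
    by_cases hu : Function.Injective u
    swap
    · exact Eventually.of_forall fun t h => absurd h hu
    have hl : Lip 2 fun p (i : Fin (n + 1)) => f (u i.succ) p - f (u 0) p := by
      intro a b
      refine (dist_pi_le_iff (by positivity)).2 fun i => ?_
      have h1 := hf (u i.succ) a b
      have h2 := hf (u 0) a b
      have h3 := dist_sub_sub_le (f (u i.succ) a) (f (u 0) a) (f (u i.succ) b) (f (u 0) b)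
      linarith
    have hm := (hK'.image hl.continuous).isClosed.measurableSet.compl
    have := (ae_comp_linearMap_mem_iff (dif u) volume volume (dif_surj hu) hm).2
      (compl_mem_ae_iff.2 (hthin _ _ hl))
    exact this.mono fun t ht _ => ht
  obtain ⟨t, ht, hd⟩ := (Measure.dense_of_ae (ae_all_iff.2 key)).exists_dist_lt 0 hδ
  refine ⟨t, fun o => ?_, fun u hu p hp => ?_⟩
  · have := (dist_le_pi_dist (0 : ι → ℝ) t o).trans_lt hd
    simpa [Real.dist_eq] using this
  · by_contra hcon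
    push Not at hcon
    refine ht u hu ⟨p, hp, funext fun i => ?_⟩
    change f (u i.succ) p - f (u 0) p = t (u 0) - t (u i.succ)
    linarith [hcon i]

/-- a margin by compactness -/
theorem exists_margin {ι : Type} [Fintype ι] {K' : Set X} (hK' : IsCompact K') (g : ι → X → ℝ)
    (hg : ∀ o, Continuous (g o)) (h : ∀ u : Fin (n + 2) → ι, Function.Injective u →
      ∀ p ∈ K', ∃ i : Fin (n + 1), g (u i.succ) p ≠ g (u 0) p) {ε : ℝ} (hε : 0 < ε) :
    ∃ ε', 0 < ε' ∧ ε' ≤ ε ∧ ∀ p ∈ K', ∀ u : Fin (n + 2) → ι, Function.Injective u →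
      ∃ i : Fin (n + 1), 2 * ε' < |g (u i.succ) p - g (u 0) p| := by
  have key := hK'.eventually_forall_of_forall_eventually (x₀ := (0 : ℝ))
    (P := fun (e : ℝ) (p : X) => ∀ u : Fin (n + 2) → ι, Function.Injective u →
      ∃ i : Fin (n + 1), 2 * e < |g (u i.succ) p - g (u 0) p|) fun p hp => by
      refine eventually_all.2 fun u => ?_
      by_cases hu : Function.Injective u
      swap
      · exact Eventually.of_forall fun z h => absurd h hu
      obtain ⟨i, hi⟩ := h u hu p hp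
      have c1 : Continuous fun z : ℝ × X => 2 * z.1 := by fun_prop
      have c2 : Continuous fun z : ℝ × X => |g (u i.succ) z.2 - g (u 0) z.2| :=
        (((hg _).comp continuous_snd).sub ((hg _).comp continuous_snd)).abs
      have := c1.continuousAt.eventually_lt (x₀ := ((0 : ℝ), p)) c2.continuousAt
        (by simpa [sub_eq_zero] using hi)
      exact this.mono fun z hz _ => ⟨i, hz⟩
  obtain ⟨e, h1, h2⟩ := ((key.filter_mono nhdsWithin_le_nhds).and (Ioc_mem_nhdsGT hε)).exists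
  exact ⟨e, h2.1, h2.2, h1⟩

/-- the argmin labelling is admissible -/
theorem adm_argmin {ι : Type} [Fintype ι] {K' : Set X} (g : ι → X → ℝ) (hg : ∀ o, Lip 1 (g o))
    (w : X → ι) (hw : ∀ p o, g (w p) p ≤ g o p) {ε' : ℝ}
    (h : ∀ p ∈ K', ∀ u : Fin (n + 2) → ι, Function.Injective u →
      ∃ i : Fin (n + 1), 2 * ε' < |g (u i.succ) p - g (u 0) p|) : Adm n w K' ε' := by
  classical
  intro z hz
  refine ⟨Finset.univ.filter fun o => ∀ o', g o z ≤ g o' z + 2 * ε', ?_, fun p _ hp => ?_⟩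
  · by_contra hc
    obtain ⟨u⟩ := Function.Embedding.nonempty_of_card_le (α := Fin (n + 2))
      (β := (Finset.univ.filter fun o => ∀ o', g o z ≤ g o' z + 2 * ε' : Finset ι))
      (by rw [Fintype.card_fin, Fintype.card_coe]; omega)
    obtain ⟨i, hi⟩ := h z hz (fun j => (u j).1) (Subtype.val_injective.comp u.injective)
    have h1 := (Finset.mem_filter.1 (u i.succ).2).2 (u 0).1
    have h2 := (Finset.mem_filter.1 (u 0).2).2 (u i.succ).1
    exact absurd hi (not_lt.2 (abs_le.2 ⟨by linarith only [h2], by linarith⟩))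
  · refine Finset.mem_filter.2 ⟨Finset.mem_univ _, fun o' => ?_⟩
    have h1 := hg (w p) p z
    have h2 := hg o' p z
    have h3 := hw p o'
    rw [Real.dist_eq, abs_le] at h1 h2
    linarith [h1.1, h2.2]

theorem Adm.map {S S' : Type} {K : Set X} {w : X → S} {ε : ℝ} (h : Adm n w K ε) (ρ : S → S') :
    Adm n (fun p => ρ (w p)) K ε := by
  classical
  intro z hz
  obtain ⟨T, h1, h2⟩ := h z hz
  exact ⟨T.image ρ, Finset.card_image_le.trans h1,
    fun p hp hd => Finset.mem_image_of_mem ρ (h2 p hp hd)⟩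

/-- the pairing does not change when the labelling is replaced by its extension -/
theorem deg_ext (hn : 2 ≤ n) {S : Type} {K : Set X} {W : X → S} {W' : X → Option S} {ε' : ℝ}
    (hε' : 0 < ε') (h2 : Adm2 n (fun p => some (W p)) W' K ε') {φ : List S → ℤ}
    {φ' : List (Option S) → ℤ} (hφ' : Alt φ') (hφ : ∀ l, φ' (l.map some) = φ l)
    {u : D n → X} {L : ℝ} (hu : Lip L u) {y : X} (hy : Cpt y u) (hK : range u ⊆ K) :
    deg φ (fun x => W (u x)) = deg φ' fun x => W' (u x) := by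
  have e1 : deg φ' (fun x => some (W (u x))) = deg φ fun x => W (u x) := by
    rw [deg_map φ' some fun x => W (u x)]
    simp only [hφ]
  rw [← e1]
  obtain ⟨R, hR⟩ := hy
  have hL : 0 < max L 1 := lt_max_of_lt_right one_pos
  refine deg_congr hn hφ' (a := some (W y)) (a' := W' y) ⟨R, fun x hx => by simp only [hR x hx]⟩
    ⟨R, fun x hx => by simp only [hR x hx]⟩ (div_pos hε' hL) fun z _ => ?_
  obtain ⟨T, h3, h4⟩ := h2 (u z) (hK ⟨z, rfl⟩)
  refine ⟨T, h3, fun p _ hp => h4 (u p) (hK ⟨p, rfl⟩) ?_⟩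
  refine (hu.mono (le_max_left L 1) p z).trans ?_
  rwa [le_div_iff₀ hL, mul_comm] at hp

omit [MetricSpace X] in
theorem mem_range (hn : 2 ≤ n) {y : X} {u : D n → X} (hy : Cpt y u) : y ∈ range u := by
  obtain ⟨R, hR⟩ := hy
  have : Nonempty (Fin n) := ⟨⟨0, by omega⟩⟩
  refine ⟨fun _ => R, hR _ ?_⟩
  rw [pi_norm_const]
  exact le_abs_self R

end Ext

/-- Extension of admissible labellings over thin compact sets. -/
theorem ext_label {S : Type} {K K' : Set X} (hK : IsCompact K) (hne : K.Nonempty)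
    (hK' : IsCompact K') (hthin : Thin n K') {W : X → S} {ε η : ℝ} (hε : 0 < ε) (hη : 0 < η)
    (hW : Adm n W K ε) : ∃ (W' : X → Option S) (ε' : ℝ), 0 < ε' ∧ Adm n W' K' ε' ∧
      Adm2 n (fun p => some (W p)) W' K ε' ∧ ∀ p, η ≤ infDist p K → W' p = none := by
  classical
  have : Finite (W '' K) := (Ext.finite_labels hK hε hW).to_subtype
  let _ : Fintype (Option (W '' K)) := Fintype.ofFinite _
  set δ := min ε η / 4 with hδ
  have hδ0 : 0 < δ := by positivity
  have hδε : 4 * δ ≤ ε := by linarith only [hδ, min_le_left ε η]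
  have hδη : 4 * δ ≤ η := by linarith [min_le_right ε η]
  let f : Option (W '' K) → X → ℝ := fun o =>
    o.elim (fun _ => δ) fun s p => infDist p (K ∩ W ⁻¹' {s.1})
  have hf : ∀ o, Lip 1 (f o) := by
    rintro (_ | s)
    · exact lip_const zero_le_one δ
    · intro a b
      simpa [f] using (lipschitz_infDist_pt (K ∩ W ⁻¹' {s.1})).dist_le_mul a b
  have hne' : ∀ s : W '' K, (K ∩ W ⁻¹' {s.1}).Nonempty := by
    rintro ⟨_, p, hp, rfl⟩
    exact ⟨p, hp, rfl⟩
  obtain ⟨t, ht, hgen⟩ := Ext.exists_shift hK' hthin f hf (half_pos hδ0)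
  have hg : ∀ o, Lip 1 fun p => f o p + t o := fun o a b => by
    rw [dist_add_right]
    exact hf o a b
  obtain ⟨ε', h0, h1, hm⟩ := Ext.exists_margin hK' (fun o p => f o p + t o)
    (fun o => (hg o).continuous) hgen (half_pos hε)
  choose w hw using fun p => Finite.exists_min fun o => f o p + t o
  refine ⟨fun p => (w p).map Subtype.val, ε', h0,
    Ext.Adm.map (Ext.adm_argmin _ hg w hw hm) _, fun z hz => ?_, fun p hp => ?_⟩
  · obtain ⟨T, hT1, hT2⟩ := hW z hz
    refine ⟨T.image some, Finset.card_image_le.trans hT1, fun p hp hd =>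
      ⟨Finset.mem_image_of_mem _ (hT2 p hp (by linarith only [hδ0, hδε, h1, hd])), ?_⟩⟩
    have e1 := hw p (some ⟨W p, p, hp, rfl⟩)
    have e2 : f (some ⟨W p, p, hp, rfl⟩) p = 0 := infDist_zero_of_mem ⟨hp, rfl⟩
    have e3 := abs_lt.1 (ht (some ⟨W p, p, hp, rfl⟩))
    have e4 := abs_lt.1 (ht (w p))
    have e5 : f (w p) p < δ := by linarith only [hp, e1, e2, e3, e4, e3.2, e4.1]
    rcases hwp : w p with _ | s
    · rw [hwp] at e5
      exact absurd e5 (lt_irrefl δ)
    · rw [hwp] at e5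
      obtain ⟨q, hq, hpq⟩ := (infDist_lt_iff (hne' s)).1 e5
      have hqz : dist q z ≤ ε := by
        have := dist_triangle_left q z p
        linarith only [hδ0, hδε, h1, hd, hpq, this]
      simp only [hwp, Option.map_some]
      exact Finset.mem_image_of_mem _ ((show W q = s.1 from hq.2) ▸ hT2 q hq.1 hqz)
  · rcases hwp : w p with _ | s
    · simp only [hwp, Option.map_none]
    · exfalso
      have e1 := hw p none
      rw [hwp] at e1
      have e2 : infDist p K ≤ f (some s) p :=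
        infDist_le_infDist_of_subset inter_subset_left (hne' s)
      have e3 := abs_lt.1 (ht none)
      have e4 := abs_lt.1 (ht (some s))
      have e5 : f none p = δ := rfl
      linarith only [hδ0, hδη, hp, e1, e2, e3, e4, e5, e3.2, e4.1]

/-- Homotopy invariance. -/
theorem Good.null_of_hty (G : Good n X) (hn : 2 ≤ n) {u u' : D n → X} {L T : ℝ} {U : Set (D n)}
    (hH : Hty L 0 T U u u') (hU : Bornology.IsBounded U) {y : X} (hy : Cpt y u) (h : Null u') :
    Null u := by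
  intro S W ε hε hW φ hφ
  have hu := hH.lip_left
  obtain ⟨H, hH1, h0, hT, hUc⟩ := hH
  have hHl : Lip L H := lip_iff_aLip.2 hH1
  obtain ⟨R, hR⟩ := id hy
  obtain ⟨R', hR'⟩ := hU.exists_norm_le
  have hfar : ∀ x t, max R (R' + 1) ≤ ‖x‖ → H (x, t) = y := by
    intro x t hx
    rw [hUc x t fun hxU => by linarith only [hx, hR', hxU, hR' x hxU, le_max_right R (R' + 1)]]
    exact hR x ((le_max_left _ _).trans hx)
  set K' : Set X := {y} ∪ H '' (closedBall 0 (max R (R' + 1)) ×ˢ Icc 0 (max 0 T)) with hK'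
  have hc : IsCompact K' := isCompact_singleton.union
    (((isCompact_closedBall _ _).prod isCompact_Icc).image hHl.continuous)
  have hth : Thin n K' :=
    (Ext.thin_singleton y).union ((G.thin_prod hHl).mono (image_subset_range _ _))
  have hr : range H ⊆ K' := by
    rintro _ ⟨⟨x, t⟩, rfl⟩
    rcases le_total (max R (R' + 1)) ‖x‖ with hx | hx
    · exact Or.inl (hfar x t hx)
    have hx' : x ∈ closedBall (0 : D n) (max R (R' + 1)) := mem_closedBall_zero_iff.2 hx
    rcases le_total t 0 with ht | ht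
    · exact Or.inr ⟨(x, 0), ⟨hx', le_rfl, le_max_left _ _⟩, by rw [h0 x 0 le_rfl, h0 x t ht]⟩
    rcases le_total t (max 0 T) with ht' | ht'
    · exact Or.inr ⟨(x, t), ⟨hx', ht, ht'⟩, rfl⟩
    · exact Or.inr ⟨(x, max 0 T), ⟨hx', le_max_left _ _, le_rfl⟩, by
        rw [hT x _ (le_max_right _ _), hT x t ((le_max_right _ _).trans ht')]⟩
  obtain ⟨W', ε', hε', a1, a2, -⟩ :=
    ext_label (hy.isCompact_range hu) (range_nonempty u) hc hth hε one_pos hW
  obtain ⟨φ', hφ', e1, -⟩ := hφ.exists_option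
  rw [Ext.deg_ext hn hε' a2 hφ' e1 hu hy subset_rfl]
  have e2 := deg_hty hn hφ' hε' a1 hHl hr hfar 0 T
  simp only [h0 _ 0 le_rfl, hT _ T le_rfl] at e2
  rw [e2]
  refine h _ W' ε' hε' (a1.mono ?_ le_rfl) φ' hφ'
  rintro _ ⟨x, rfl⟩
  exact hr ⟨(x, T), hT x T le_rfl⟩

/-- Separated groups of difference items of two trivial maps are trivial. -/
theorem Good.null_piece (G : Good n X) (hn : 2 ≤ n) {I : Type} {L : ℝ} (hL : 0 ≤ L) {y : X}
    {b : D n → X} (hb : Lip L b) (hy : Cpt y b) {s : Finset I} {P : I → Pos n}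
    {e : I → D n → X} (hf : Fit L b s P e) (h1 : Null b) (h2 : Null (ins b s P e))
    {t : Finset I} (ht : t ⊆ s) {v : X} {r η : ℝ} (hr : 0 ≤ r) (hη : 0 < η)
    (hin : ∀ i ∈ t, ∀ x, dist (e i x) v ≤ r)
    (hout : ∀ i ∈ s, i ∉ t → ∀ x, r + η ≤ dist (e i x) v) {L' : ℝ} (hL' : 0 ≤ L')
    {P' : I → Pos n} (hf' : Fit L' (fun _ => v) t P' e) : Null (ins (fun _ => v) t P' e) := by
  classical
  intro S W ε hε hW φ hφ
  have hv : Cpt v fun _ : D n => v := ⟨0, fun _ _ => rfl⟩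
  have hw : Cpt v (ins (fun _ => v) t P' e) := hv.ins
  have hwl : Lip L' (ins (fun _ => v) t P' e) := hf'.lip (lip_const hL' v) hL'
  have hil : Lip L (ins b s P e) := hf.lip hb hL
  have hKb : ∀ q ∈ range (ins (fun _ => v) t P' e), dist q v ≤ r := by
    intro q hq
    rcases hf'.range_ins hq with ⟨x, rfl⟩ | hq
    · simpa using hr
    · obtain ⟨i, hi, x, rfl⟩ := mem_iUnion₂.1 hq
      exact hin i hi x
  obtain ⟨W', ε', hε', a1, a2, a3⟩ := ext_label (hw.isCompact_range hwl) (range_nonempty _)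
    ((hy.isCompact_range hb).union (hy.ins.isCompact_range hil))
    ((G.thin_dom hb).union (G.thin_dom hil)) hε hη hW
  obtain ⟨φ', hφ', e1, -⟩ := hφ.exists_option
  have d1 := deg_ins hn hφ hε hW hL' (lip_const hL' v) hv hf'
    (by rintro _ ⟨x, rfl⟩; exact Ext.mem_range hn hw) fun i hi => hf'.range_item hi
  have d2 := deg_ins hn hφ' hε' a1 hL hb hy hf subset_union_left
    fun i hi => (hf.range_item hi).trans subset_union_right
  rw [h1 _ W' ε' hε' (a1.mono subset_union_left le_rfl) φ' hφ',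
    h2 _ W' ε' hε' (a1.mono subset_union_right le_rfl) φ' hφ', zero_add,
    ← Finset.sum_subset ht] at d2
  · rw [d1, deg_const hn hφ, zero_add, d2]
    exact Finset.sum_congr rfl fun i hi => Ext.deg_ext hn hε' a2 hφ' e1 (hf'.item i hi).1
      (hf'.item i hi).cpt (hf'.range_item hi)
  · intro i hi hit
    have : (fun x => W' (e i x)) = fun _ => none := by
      funext x
      refine a3 _ ((le_infDist (range_nonempty _)).2 fun q hq => ?_)
      have := dist_triangle (e i x) q v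
      linarith only [this, hout, hi, hit, hKb, hq, hout i hi hit x, hKb q hq]
    rw [this]
    exact deg_const hn hφ' _

end Pool.Agent.Work.MP_4b5e6c_gt
end

-- merged part: Pool.Agent.Work.MP_4b5e6c_gt.KA
section
/-! Task KA: nets and the first approximation. -/

namespace Pool.Agent.Work.MP_4b5e6c_gt
open Metric Set

namespace KA

variable {n m : ℕ} {X : Type} [MetricSpace X] {C0 : DC n} {y : X} {h : D n → X} {κ : ℝ}
  {s : Fin m → X → ℝ}

theorem s_le (H : KIn C0 y h κ s) (k : Fin m) (p q : X) : s k p ≤ s k q + dist p q / 1000 := by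
  have h1 := H.slip k p q
  rw [Real.dist_eq] at h1
  have h2 := le_abs_self (s k p - s k q)
  linarith only [h1, h2]

theorem h_le (H : KIn C0 y h κ s) (x z : D n) : dist (h x) (h z) ≤ dist x z := by
  simpa using H.lip x z

theorem s_pos (H : KIn C0 y h κ s) (k : Fin m) (p : X) : 0 < s k p := H.pos.trans_le (H.ge k p)

theorem sig_lip (H : KIn C0 y h κ s) (k : Fin m) : Lip (1 / 10) fun x => s k (h x) := by
  intro a b
  have h1 := H.slip k (h a) (h b)
  have h2 := h_le H a b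
  have h3 := dist_nonneg (x := a) (y := b)
  linarith only [h1, h2, h3]

theorem far (H : KIn C0 y h κ s) {x : D n} (hx : ‖C0.c‖ + C0.side / 4 ≤ ‖x‖) : h x = y := by
  refine H.out x ?_
  have h1 := norm_sub_norm_le x C0.c
  rw [dist_eq_norm]
  linarith only [hx, h1]

theorem mem_range (hn : 1 ≤ n) (H : KIn C0 y h κ s) : y ∈ range h := by
  have : Nonempty (Fin n) := ⟨⟨0, hn⟩⟩
  refine ⟨fun _ => ‖C0.c‖ + C0.side / 4, far H ?_⟩
  rw [pi_norm_const]
  exact le_abs_self _

theorem exists_lev {t : ℝ} (ht : 0 < t) :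
    ∃ j : ℤ, 3 / 2 * (2 : ℝ) ^ j ≤ t ∧ t < 3 * (2 : ℝ) ^ j := by
  obtain ⟨j, h1, h2⟩ := exists_mem_Ico_zpow (x := 2 / 3 * t) (y := (2 : ℝ)) (by positivity)
    one_lt_two
  rw [zpow_add_one₀ two_ne_zero] at h2
  exact ⟨j, by linarith only [h1], by linarith only [h2]⟩

theorem exists_isNet (hn : 1 ≤ n) {M : ℕ}
    (hM : ∀ (p : X) (r : ℝ), 0 < r → ∀ t : Finset X, (∀ q ∈ t, dist q p ≤ 1000 * r) →
      (∀ q ∈ t, ∀ q' ∈ t, q ≠ q' → r ≤ dist q q') → t.card ≤ M)
    (H : KIn C0 y h κ s) : ∃ N : Finset (X × ℤ), IsNet y h s (M * 21) N := by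
  classical
  have hc : IsCompact (range h) := Cpt.isCompact_range ⟨_, fun x hx => far H hx⟩ H.lip
  have hy := mem_range hn H
  have h1 : ∀ j : ℤ, ∃ S : Finset X, y ∈ S ∧ (∀ p ∈ S, p ∈ range h) ∧
      (∀ p ∈ S, ∀ q ∈ S, p ≠ q → (2 : ℝ) ^ j ≤ dist p q) ∧
      ∀ p ∈ range h, ∃ q ∈ S, dist p q < (2 : ℝ) ^ j := by
    intro j
    obtain ⟨S, a, b, c, d⟩ := exists_net (range h) hc.totallyBounded (fun _ => (2 : ℝ) ^ j)
      (κ := (2 : ℝ) ^ j) (by positivity) (fun _ _ => le_rfl) {y}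
      (fun p hp => by rwa [Finset.mem_singleton.1 hp])
      (fun p hp q hq e => (e ((Finset.mem_singleton.1 hp).trans
        (Finset.mem_singleton.1 hq).symm)).elim)
    simp only [max_self] at c d
    exact ⟨S, a (Finset.mem_singleton_self y), b, c, d⟩
  choose S hSy hSr hSs hSc using h1
  obtain ⟨R, hR⟩ := hc.isBounded.subset_closedBall y
  have hR0 : 0 ≤ R := by simpa using hR hy
  obtain ⟨a, ha, -⟩ := exists_lev H.pos
  obtain ⟨b, -, hb⟩ := exists_lev (t := κ + R / 1000) (by have := H.pos; positivity)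
  have hmem : ∀ v : X × ℤ, v ∈ (Finset.Icc (a - 1) (b + 1)).biUnion (fun j => S j ×ˢ {j}) ↔
      v.2 ∈ Finset.Icc (a - 1) (b + 1) ∧ v.1 ∈ S v.2 := by
    intro v
    simp only [Finset.mem_biUnion, Finset.mem_product, Finset.mem_singleton]
    exact ⟨fun ⟨j, c, d, e⟩ => e ▸ ⟨c, d⟩, fun ⟨c, d⟩ => ⟨_, c, d, rfl⟩⟩
  refine ⟨(Finset.Icc (a - 1) (b + 1)).biUnion fun j => S j ×ˢ {j}, fun v hv => ?_,
    fun v hv e => ?_, fun k x => ?_, fun w t ht hw => ?_⟩
  · exact hSr _ _ ((hmem v).1 hv).2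
  · exact hSs _ _ ((hmem v).1 hv).2 _ (hSy _) e
  · obtain ⟨j, c, d⟩ := exists_lev (s_pos H k (h x))
    obtain ⟨q, e, f⟩ := hSc j (h x) ⟨x, rfl⟩
    have i1 := s_le H k (h x) q
    have i2 := s_le H k q (h x)
    rw [dist_comm] at i2
    have i3 := s_le H k (h x) y
    rw [H.base] at i3
    have i4 : dist (h x) y ≤ R := hR ⟨x, rfl⟩
    have i5 := H.ge k (h x)
    have p1 : (0 : ℝ) < 2 ^ j := by positivity
    refine ⟨(q, j), (hmem _).2 ⟨Finset.mem_Icc.2 ⟨?_, ?_⟩, e⟩, ⟨?_, ?_⟩, f⟩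
    · refine ((zpow_lt_zpow_iff_right₀ (one_lt_two : (1 : ℝ) < 2)).1 ?_).le
      rw [zpow_sub_one₀ two_ne_zero]
      change (2 : ℝ) ^ a * 2⁻¹ < 2 ^ j
      linarith only [ha, d, i5]
    · refine ((zpow_lt_zpow_iff_right₀ (one_lt_two : (1 : ℝ) < 2)).1 ?_).le
      rw [zpow_add_one₀ two_ne_zero]
      change (2 : ℝ) ^ j < 2 ^ b * 2
      linarith only [hb, c, i3, i4]
    · change (2 : ℝ) ^ j ≤ s k q
      linarith only [c, f, i1, i2]
    · change s k q < 4 * (2 : ℝ) ^ j
      linarith only [d, f, i1, i2]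
  · have c : (Finset.Icc (w.2 - 10) (w.2 + 10)).card = 21 := by
      rw [Int.card_Icc]
      omega
    rw [← c]
    refine Finset.card_le_mul_card_image_of_maps_to (f := Prod.snd) (fun v hv => ?_) M
      fun j _ => ?_
    · have := abs_le.1 (hw v hv).1
      rw [Finset.mem_Icc]
      omega
    · have d : ∀ v ∈ t.filter (fun v => v.2 = j), v.2 = j ∧ v.1 ∈ S j ∧ Nbr v w := fun v hv => by
        obtain ⟨e, f⟩ := Finset.mem_filter.1 hv
        exact ⟨f, f ▸ ((hmem v).1 (ht e)).2, hw v e⟩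
      rw [← Finset.card_image_of_injOn (f := Prod.fst) fun v hv v' hv' e =>
        Prod.ext e ((d v hv).1.trans (d v' hv').1.symm)]
      refine hM w.1 ((2 : ℝ) ^ j) (by positivity) _ (fun q hq => ?_) fun q hq q' hq' e => ?_
      · obtain ⟨v, f, rfl⟩ := Finset.mem_image.1 hq
        obtain ⟨i, -, -, l⟩ := d v f
        rw [← i]
        have := min_le_left ((2 : ℝ) ^ v.2) ((2 : ℝ) ^ w.2)
        linarith only [l, this]
      · obtain ⟨v, f, rfl⟩ := Finset.mem_image.1 hq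
        obtain ⟨v', f', rfl⟩ := Finset.mem_image.1 hq'
        exact hSs j _ (d v f).2.1 _ (d v' f').2.1 e

/-- A chosen active vertex near `p`. -/
noncomputable def V0 (N : Finset (X × ℤ)) (t : X → ℝ) (p : X) : X × ℤ :=
  @Classical.epsilon _ ⟨(p, 0)⟩ fun v => v ∈ N ∧ Act t v ∧ dist p v.1 < (2 : ℝ) ^ v.2

theorem V0_spec {M : ℕ} {N : Finset (X × ℤ)} (hN : IsNet y h s M N) (k : Fin m) (x : D n) :
    V0 N (s k) (h x) ∈ N ∧ Act (s k) (V0 N (s k) (h x)) ∧
      dist (h x) (V0 N (s k) (h x)).1 < (2 : ℝ) ^ (V0 N (s k) (h x)).2 :=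
  Classical.epsilon_spec (hN.cover k x)

theorem V0_loc (H : KIn C0 y h κ s) (N : Finset (X × ℤ)) {k k' : Fin m} {q : X}
    (e : ∀ p, dist p q ≤ 2 * s k q → s k p = s k' p) : V0 N (s k) q = V0 N (s k') q := by
  have e0 : s k q = s k' q := e q (by rw [dist_self]; have := s_pos H k q; positivity)
  unfold V0
  congr 1
  funext v
  have key : ∀ l : Fin m, s l q = s k q → Act (s l) v → dist q v.1 < (2 : ℝ) ^ v.2 →
      s k v.1 = s k' v.1 := by
    intro l a b c
    refine e _ ?_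
    have i1 := s_le H l v.1 q
    have i2 := b.1
    have i3 := s_pos H k q
    rw [dist_comm] at c
    linarith only [a, c, i1, i2, i3]
  refine propext ⟨fun ⟨a, b, c⟩ => ⟨a, ?_, c⟩, fun ⟨a, b, c⟩ => ⟨a, ?_, c⟩⟩
  · unfold Act
    rw [← key k rfl b c]
    exact b
  · unfold Act
    rw [key k' e0.symm b c]
    exact b

end KA

open KA in
theorem Good.ka {n : ℕ} {X : Type} [MetricSpace X] (G : Good n X) (hn : 1 ≤ n) :
    ∃ (M : ℕ) (A : ℝ), 1 ≤ A ∧
    ∀ (m : ℕ) (C0 : DC n) (y : X) (h : D n → X) (κ : ℝ) (s : Fin m → X → ℝ), KIn C0 y h κ s →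
      ∃ (N : Finset (X × ℤ)) (f : Fin m → D n → Ys n (X × ℤ)),
        IsNet y h s M N ∧ IsApp C0 y h s A N f := by
  obtain ⟨M, hM⟩ := G.doubling 1000
  obtain ⟨C, w, hC, hw, hl⟩ := dw n
  refine ⟨M * 21, C, hC, fun m C0 y h κ s H => ?_⟩
  obtain ⟨N, hN⟩ := exists_isNet hn hM H
  have hp := s_pos H
  have hW : ∀ k, IsDW C (fun x => s k (h x)) (w fun x => s k (h x)) := fun k =>
    hw _ (sig_lip H k) fun x => (hp k _).le
  let β : Fin m → D n → Ys n (Fin (n + 1) × D n) := fun k x =>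
    ⟨w (fun x => s k (h x)) x, (hW k).mem x (hp k _)⟩
  have hnear : ∀ k x, ∀ a ∈ (β k x).supp, dist a.2 x ≤ 3 * s k (h x) := fun k x a ha =>
    (hW k).near x (hp k _) a ha
  refine ⟨N, fun k x => mapY (fun a => V0 N (s k) (h a.2)) (β k x), hN, fun k x v hv => ?_,
    fun k x x' => ?_, fun k x i j l a b => ?_, fun k => ?_, fun k x => ?_, fun k k' x e => ?_⟩
  · obtain ⟨a, ha, rfl⟩ := mem_supp_mapY.1 hv
    obtain ⟨b, ⟨c, d⟩, e⟩ := V0_spec hN k a.2
    refine ⟨b, ?_⟩
    generalize V0 N (s k) (h a.2) = v at c d e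
    have i0 := (h_le H a.2 x).trans (hnear k x a ha)
    have i1 := s_le H k (h a.2) (h x)
    have i2 := s_le H k (h x) (h a.2)
    have i3 := s_le H k (h a.2) v.1
    have i4 := s_le H k v.1 (h a.2)
    have i5 := dist_triangle_left v.1 (h x) (h a.2)
    have i6 := hp k (h x)
    rw [dist_comm] at i2 i4
    exact ⟨by linarith only [d, e, i0, i2, i3, i4], by linarith only [c, e, i0, i1, i3, i4], by linarith only [c, e, i0, i1, i3, i4, i5]⟩
  · have i1 := lip_mapY (fun a : Fin (n + 1) × D n => V0 N (s k) (h a.2)) (β k x) (β k x')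
    rw [one_mul] at i1
    exact (mul_le_mul_of_nonneg_right i1 (hp k _).le).trans ((hW k).lip x x' (hp k _) (hp k _))
  · exact (card_supp_mapY_le _ _).trans ((hW k).wall x i j l (hp k _) a b)
  · obtain ⟨x₀, hx₀⟩ := mem_range hn H
    obtain ⟨b, -, e⟩ := V0_spec hN k x₀
    rw [hx₀] at b e
    have f : (V0 N (s k) y).1 = y := by
      by_contra i
      have := hN.base _ b i
      rw [dist_comm] at e
      linarith
    refine ⟨(V0 N (s k) y).2, fun x hx => eq_vtx_of_supp fun v hv => ?_⟩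
    obtain ⟨a, ha, rfl⟩ := mem_supp_mapY.1 hv
    have i0 := C0.side_pos
    have i1 := hnear k x a ha
    rw [H.out x (by linarith only [hx, i0]), H.base] at i1
    have i2 := dist_triangle_left x C0.c a.2
    have i3 := H.small
    rw [H.out a.2 (by linarith only [hx, i0, i1, i2, i3])]
    exact Prod.ext f rfl
  · obtain ⟨x', v, a, b⟩ := (hW k).core x (hp k _)
    refine ⟨x', V0 N (s k) (h v.2), a, fun z hz => ?_⟩
    have c : β k z = vtx v := Subtype.ext (b z hz)
    rw [c, mapY_vtx]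
  · have i6 := hp k (h x)
    have c : β k x = β k' x := Subtype.ext (hl _ _ (sig_lip H k) (fun x => (hp k _).le)
      (sig_lip H k') (fun x => (hp k' _).le) x i6 fun z hz =>
        e _ (by have := h_le H z x; linarith))
    rw [← c]
    refine mapY_congr fun a ha => V0_loc H N fun p hp' => e p ?_
    have i0 := (h_le H a.2 x).trans (hnear k x a ha)
    have i1 := s_le H k (h a.2) (h x)
    have i2 := dist_triangle p (h a.2) (h x)
    linarith only [i6, hp', i0, i1, i2]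

end Pool.Agent.Work.MP_4b5e6c_gt
end

-- merged part: Pool.Agent.Work.MP_4b5e6c_gt.KC1
section
/-! Task KC, first part: the placement of the correcting spheres. -/

namespace Pool.Agent.Work.MP_4b5e6c_gt
open Metric Set

namespace KC

variable {n m : ℕ} {X : Type} [MetricSpace X]

instance : Nonempty (DC n) := ⟨⟨0, fun _ => 0⟩⟩

theorem nbr_symm {v w : X × ℤ} (h : Nbr v w) : Nbr w v := by
  refine ⟨by rw [abs_sub_comm]; exact h.1, ?_⟩
  rw [dist_comm, min_comm]; exact h.2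

theorem level_le {a b : ℤ} (h : (2 : ℝ) ^ a ≤ 1000 * 2 ^ b) : a - b ≤ 10 := by
  have h1 : (2 : ℝ) ^ a ≤ 2 ^ (b + 10) := by
    rw [zpow_add₀ (by norm_num : (2 : ℝ) ≠ 0)]
    have : (0 : ℝ) < 2 ^ b := by positivity
    norm_num
    linarith
  have := (zpow_le_zpow_iff_right₀ (by norm_num : (1 : ℝ) < 2)).1 h1
  omega

theorem nbr_of_rel {s : X → ℝ} (hs : Lip (1 / 1000) s) {v w : X × ℤ} {p q : X}
    (hv : Rel s v p) (hw : Rel s w q) (hd : dist p q ≤ 40 * s p) : Nbr v w := by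
  obtain ⟨h1, h2, h3⟩ := hv
  obtain ⟨h4, h5, h6⟩ := hw
  have h7 := hs p q
  rw [Real.dist_eq] at h7
  have h8 := (abs_le.1 h7).1
  have h9 := (abs_le.1 h7).2
  have hv0 : (0 : ℝ) < 2 ^ v.2 := by positivity
  have hw0 : (0 : ℝ) < 2 ^ w.2 := by positivity
  have h10 : dist v.1 w.1 ≤ dist v.1 p + dist p q + dist w.1 q := by
    have := dist_triangle4 v.1 p q w.1
    rwa [dist_comm q w.1] at this
  refine ⟨abs_le.2 ⟨?_, level_le (by linarith only [hd, h2, h4, h9, hw0])⟩, ?_⟩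
  · have := level_le (a := w.2) (b := v.2) (by linarith only [hd, h1, h5, h8, hv0])
    omega
  · rw [mul_min_of_nonneg _ _ (by norm_num : (0 : ℝ) ≤ 1000)]
    exact le_min (by linarith only [hd, h1, h3, h6, h8, hv0, h10]) (by linarith only [hd, h3, h4, h6, h9, hw0, h10])

section Scale
variable {C0 : DC n} {y : X} {h : D n → X} {κ : ℝ} {s : Fin m → X → ℝ}

theorem sig_pos (hin : KIn C0 y h κ s) (k : Fin m) (p : X) : 0 < s k p :=
  hin.pos.trans_le (hin.ge k p)

theorem sig_le (hin : KIn C0 y h κ s) (k : Fin m) (x x' : D n) :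
    s k (h x) ≤ s k (h x') + dist x x' / 1000 := by
  have h1 := hin.slip k (h x) (h x')
  have h2 := hin.lip x x'
  rw [Real.dist_eq] at h1
  have := (abs_le.1 h1).2
  linarith only [h2, this]

theorem scale (hn : 1 ≤ n) (hin : KIn C0 y h κ s) (k : Fin m) :
    Scale C0 fun x => 4 * s k (h x) := by
  refine ⟨fun a b => ?_, ⟨4 * κ, by linarith only [hin, hin.pos], fun x => by linarith only [hin, hin.ge k (h x)]⟩,
    fun x => ?_⟩
  · have h1 := sig_le hin k a b
    have h2 := sig_le hin k b a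
    rw [dist_comm b a] at h2
    have h3 : 0 ≤ dist a b := dist_nonneg
    rw [Real.dist_eq, abs_le]
    constructor <;> linarith only [h1, h2]
  · have hs := C0.side_pos
    have hsm := hin.small
    by_cases hx : C0.side / 4 ≤ dist x C0.c
    · rw [hin.out x hx, hin.base]; linarith only [hs, hsm]
    · have : Nonempty (Fin n) := ⟨⟨0, hn⟩⟩
      set z : D n := C0.c + fun _ => C0.side / 4 with hz
      have h1 : dist z C0.c = C0.side / 4 := by
        rw [hz, dist_self_add_left, pi_norm_const, Real.norm_of_nonneg (by positivity)]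
      have h2 := sig_le hin k x z
      rw [hin.out z h1.ge, hin.base] at h2
      have h3 := dist_triangle x C0.c z
      rw [dist_comm C0.c z, h1] at h3
      push Not at hx
      linarith only [hs, hsm, h2, h3, hx]

theorem bounds (hn : 1 ≤ n) (hin : KIn C0 y h κ s) (k : Fin m) {Q : DC n}
    (hQ : Q ∈ DC.gp (fun x => 4 * s k (h x)) C0) {x : D n} (hx : x ∈ Q.cl) :
    4 * s k (h x) ≤ Q.side ∧ Q.side ≤ 32 * s k (h x) := by
  have := DC.gp_bounds (scale hn hin k) hQ hx
  exact ⟨this.1, by linarith only [this, this.2]⟩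

end Scale

/-- A deep subcube of `Q` on which `F` is a constant vertex. -/
noncomputable def cr {α : Type} (F : D n → Ys n α) (Q : DC n) : DC n :=
  Classical.epsilon fun P : DC n => P.j = Q.j + 12 ∧ P.Sub Q ∧ ∃ v, ∀ z ∈ P.cl, F z = vtx v

theorem cr_congr {α : Type} {F F' : D n → Ys n α} {Q : DC n} (h : ∀ z ∈ Q.cl, F z = F' z) :
    cr F Q = cr F' Q := by
  unfold cr
  congr 1
  funext P
  refine propext (and_congr_right fun _ => and_congr_right fun hP => exists_congr fun v =>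
    forall_congr' fun z => forall_congr' fun hz => ?_)
  rw [h z (hP.cl_subset hz)]

/-- The cubes of the graded partition that meet the set where `w` is relevant. -/
def cores (C0 : DC n) (h : D n → X) (s : X → ℝ) (w : X × ℤ) : Set (DC n) :=
  {Q | Q ∈ DC.gp (fun x => 4 * s (h x)) C0 ∧ ∃ x ∈ Q.cl, Rel s w (h x)}

/-- An assignment of the terms to cubes and numbers. -/
noncomputable def asg (M : ℕ) (T : Finset (Tm n)) (c : Set (DC n)) : Tm n → DC n × Fin (M + 1) :=
  Classical.epsilon fun g : Tm n → DC n × Fin (M + 1) => InjOn g T ∧ ∀ a ∈ T, (g a).1 ∈ c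

section Spec
variable {C0 : DC n} {y : X} {h : D n → X} {κ A : ℝ} {s : Fin m → X → ℝ} {M M' : ℕ}
  {N : Finset (X × ℤ)} {f : Fin m → D n → Ys n (X × ℤ)} {T : Fin m → X × ℤ → Finset (Tm n)}
  {u : Fin m → Tm n → List (X × ℤ)}

theorem cr_spec (hn : 1 ≤ n) (hin : KIn C0 y h κ s) (hf : IsApp C0 y h s A N f) (k : Fin m)
    {Q : DC n} (hQ : Q ∈ DC.gp (fun x => 4 * s k (h x)) C0) :
    (cr (f k) Q).j = Q.j + 12 ∧ (cr (f k) Q).Sub Q ∧
      ∀ z ∈ (cr (f k) Q).cl, f k z = vtx (sel (f k (cr (f k) Q).c)) := by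
  have hex : ∃ P : DC n, P.j = Q.j + 12 ∧ P.Sub Q ∧ ∃ v, ∀ z ∈ P.cl, f k z = vtx v := by
    obtain ⟨x', v, h1, h2⟩ := hf.core k Q.c
    obtain ⟨P, hP, hx'⟩ := DC.exists_cube' x' (Q.j + 12)
    have hb := bounds hn hin k hQ (Q.op_subset_cl Q.c_mem_op)
    have hs : P.side = Q.side / 2 ^ 12 := DC.side_of_j_add (m := 12) (by exact_mod_cast hP)
    have h3 : ∀ z ∈ P.cl, dist z x' ≤ s k (h Q.c) / 100 := fun z hz => by
      have := DC.dist_le_side hz hx'
      have h0 := sig_pos hin k (h Q.c)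
      rw [hs] at this
      norm_num at this
      linarith only [hb, h0, this, hb.2]
    refine ⟨P, hP, DC.sub_of_cl_subset fun z hz => ?_, v, fun z hz => h2 z (h3 z hz)⟩
    have h4 := dist_triangle z x' Q.c
    have h0 := sig_pos hin k (h Q.c)
    show dist z Q.c ≤ Q.side / 2
    linarith only [h1, hb, h4, h0, h3, hz, h3 z hz, hb.1]
  obtain ⟨h1, h2, v, hv⟩ := Classical.epsilon_spec hex
  refine ⟨h1, h2, fun z hz => ?_⟩
  have h3 : f k (cr (f k) Q).c = vtx v := hv _ (DC.op_subset_cl _ (DC.c_mem_op _))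
  rw [h3, sel_vtx]
  exact hv z hz

theorem asg_spec (hn : 1 ≤ n) (hin : KIn C0 y h κ s) (hT : IsCor C0 h s M' N f T u) (k : Fin m)
    {w : X × ℤ} (hw : w ∈ N) :
    InjOn (asg M' (T k w) (cores C0 h (s k) w)) (T k w) ∧
      ∀ a ∈ T k w, (asg M' (T k w) (cores C0 h (s k) w) a).1 ∈ cores C0 h (s k) w := by
  have hfin : (cores C0 h (s k) w).Finite :=
    (DC.gp_finite hn (scale hn hin k)).subset fun Q hQ => hQ.1
  have hc := hT.card k w hw hfin.toFinset (fun Q hQ => by
      obtain ⟨h1, x, hx, hr⟩ := hfin.mem_toFinset.1 hQ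
      have := (bounds hn hin k h1 hx).2
      have h0 : (0 : ℝ) < 2 ^ w.2 := by positivity
      linarith only [this, h0, hr, hr.1])
    fun x hx hr => by
      obtain ⟨Q, hQ, hxQ⟩ := DC.gp_cover hn (scale hn hin k) hx
      exact ⟨Q, hfin.mem_toFinset.2 ⟨hQ, x, hxQ, hr⟩, hxQ⟩
  obtain ⟨g, hg, hg'⟩ := exists_assign (T k w) hfin.toFinset M' (C0, 0) hc
  have hex : ∃ g : Tm n → DC n × Fin (M' + 1),
      InjOn g (T k w) ∧ ∀ a ∈ T k w, (g a).1 ∈ cores C0 h (s k) w :=
    ⟨g, hg, fun a ha => hfin.mem_toFinset.1 (hg' a ha)⟩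
  exact Classical.epsilon_spec hex

theorem cores_sub (hn : 1 ≤ n) (hin : KIn C0 y h κ s) {k k' : Fin m} {w : X × ℤ}
    (he : ∀ p, dist p w.1 ≤ 1000 * (2 : ℝ) ^ w.2 → s k p = s k' p) :
    cores C0 h (s k) w ⊆ cores C0 h (s k') w := by
  rintro Q ⟨hQ, x, hx, hr⟩
  have h0 : (0 : ℝ) < 2 ^ w.2 := by positivity
  have h1 : dist (h x) w.1 ≤ 40 * (2 : ℝ) ^ w.2 := by
    rw [dist_comm]; linarith only [hr, hr.1, hr.2.2]
  refine ⟨DC.gp_local hQ fun z hz => ?_, x, hx, ?_⟩
  · have h2 := DC.dist_le_side hz ((DC.sub_parent Q).cl_subset hx)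
    rw [DC.parent_side] at h2
    have h3 := (bounds hn hin k hQ hx).2
    have h4 := hin.lip z x
    have h5 := dist_triangle (h z) (h x) w.1
    rw [he (h z) (by linarith only [h0, h1, h2, h3, h4, h5, hr, hr.1])]
  · have h2 := he (h x) (by linarith)
    unfold Rel at hr ⊢
    rw [← h2]
    exact hr

/-- The properties of a placement of the correction terms. -/
structure Place (d : ℕ) (C0 : DC n) (h : D n → X) (s : Fin m → X → ℝ) (N : Finset (X × ℤ))
    (f : Fin m → D n → Ys n (X × ℤ)) (T : Fin m → X × ℤ → Finset (Tm n))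
    (u : Fin m → Tm n → List (X × ℤ)) (Q P : Fin m → (Σ _ : X × ℤ, Tm n) → DC n)
    (a : Fin m → (Σ _ : X × ℤ, Tm n) → X × ℤ) : Prop where
  mem : ∀ k, ∀ i ∈ N.sigma (T k), Q k i ∈ cores C0 h (s k) i.1
  lev : ∀ k, ∀ i ∈ N.sigma (T k), (P k i).j = (Q k i).j + (12 + d : ℕ)
  sub : ∀ k, ∀ i ∈ N.sigma (T k), (P k i).Sub (Q k i)
  flat : ∀ k, ∀ i ∈ N.sigma (T k), ∀ z ∈ (P k i).cl, f k z = vtx (a k i)
  disj : ∀ k, ∀ i ∈ N.sigma (T k), ∀ j ∈ N.sigma (T k), i ≠ j → (P k i).Disj (P k j)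
  loc : ∀ k k', ∀ i ∈ N.sigma (T k), ∀ x ∈ (P k i).cl,
    (∀ p, dist p (h x) ≤ 20000 * s k (h x) → s k p = s k' p) →
    i ∈ N.sigma (T k') ∧ P k' i = P k i ∧ a k' i = a k i ∧ u k' i.2 = u k i.2

theorem exists_place (hn : 1 ≤ n) (hin : KIn C0 y h κ s) (hN : IsNet y h s M N)
    (hf : IsApp C0 y h s A N f) (hT : IsCor C0 h s M' N f T u) :
    ∃ Q P a, Place ((M + 1) * (M' + 1)) C0 h s N f T u Q P a := by
  obtain ⟨col, hcol⟩ := exists_coloring N Nbr (fun _ _ => nbr_symm) M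
    fun i _ t ht hR => hN.deg i t ht fun v hv => nbr_symm (hR v hv)
  choose sl hsl using exists_slots hn ((M + 1) * (M' + 1))
  set g : Fin m → (Σ _ : X × ℤ, Tm n) → DC n × Fin (M' + 1) :=
    fun k i => asg M' (T k i.1) (cores C0 h (s k) i.1) i.2 with hg
  have hmem : ∀ k, ∀ i ∈ N.sigma (T k), (g k i).1 ∈ cores C0 h (s k) i.1 := fun k i hi =>
    (asg_spec hn hin hT k (Finset.mem_sigma.1 hi).1).2 _ (Finset.mem_sigma.1 hi).2
  have hsub : ∀ (R : DC n) j, (sl R j).Sub R := fun R j => (hsl R).2.1 j (Finset.mem_univ _)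
  refine ⟨fun k i => (g k i).1,
    fun k i => sl (cr (f k) (g k i).1) (finProdFinEquiv (col i.1, (g k i).2)),
    fun k i => sel (f k (cr (f k) (g k i).1).c), hmem, fun k i hi => ?_, fun k i hi => ?_,
    fun k i hi z hz => ?_, fun k i hi j hj hij => ?_, fun k k' i hi x hx he => ?_⟩
  · rw [(hsl _).1, (cr_spec hn hin hf k (hmem k i hi).1).1]
    push_cast
    ring
  · exact (hsub _ _).trans (cr_spec hn hin hf k (hmem k i hi).1).2.1
  · exact (cr_spec hn hin hf k (hmem k i hi).1).2.2 z ((hsub _ _).cl_subset hz)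
  · by_cases hQ : (g k i).1 = (g k j).1
    · rw [← hQ]
      refine (hsl _).2.2 _ (Finset.mem_univ _) _ (Finset.mem_univ _) fun hc => ?_
      have hc' := finProdFinEquiv.injective hc
      obtain ⟨w, τ⟩ := i
      obtain ⟨w', τ'⟩ := j
      have hi' := Finset.mem_sigma.1 hi
      have hj' := Finset.mem_sigma.1 hj
      by_cases hw : w = w'
      · subst hw
        have h1 : g k ⟨w, τ⟩ = g k ⟨w, τ'⟩ := Prod.ext hQ (Prod.ext_iff.1 hc').2
        have h2 := (asg_spec hn hin hT k hi'.1).1 hi'.2 hj'.2 h1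
        exact hij (by rw [show τ = τ' from h2])
      · obtain ⟨h1, x, hx, hr⟩ := hmem k _ hi
        obtain ⟨-, x', hx', hr'⟩ := hmem k _ hj
        rw [← hQ] at hx'
        have h2 := DC.dist_le_side hx hx'
        have h3 := (bounds hn hin k h1 hx).2
        have h4 := hin.lip x x'
        have h5 := sig_pos hin k (h x)
        exact hcol w hi'.1 w' hj'.1 hw
          (nbr_of_rel (hin.slip k) hr hr' (by linarith only [h2, h3, h4, h5])) (Prod.ext_iff.1 hc').1
    · exact (DC.gp_disj hn (hmem k i hi).1 (hmem k j hj).1 hQ).mono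
        ((hsub _ _).trans (cr_spec hn hin hf k (hmem k i hi).1).2.1)
        ((hsub _ _).trans (cr_spec hn hin hf k (hmem k j hj).1).2.1)
  · have hi' := Finset.mem_sigma.1 hi
    obtain ⟨h1, x0, hx0, hr⟩ := hmem k _ hi
    have hc := cr_spec hn hin hf k h1
    have hxQ : x ∈ (g k i).1.cl := ((hsub _ _).trans hc.2.1).cl_subset hx
    have hb := bounds hn hin k h1 hxQ
    have hb0 := bounds hn hin k h1 hx0
    have h0 := sig_pos hin k (h x)
    have he' : ∀ p, dist p i.1.1 ≤ 1000 * (2 : ℝ) ^ i.1.2 → s k p = s k' p := fun p hp => by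
      refine he p ?_
      have h2 := dist_triangle4 p i.1.1 (h x0) (h x)
      have h3 := hin.lip x0 x
      have h4 := DC.dist_le_side hx0 hxQ
      linarith only [hb, hb0, h0, hp, h2, h3, h4, hr, hr.2.1, hr.2.2, hb.2, hb0.1]
    obtain ⟨hT1, hT2⟩ := hT.loc k k' i.1 hi'.1 he'
    have hco : cores C0 h (s k') i.1 = cores C0 h (s k) i.1 :=
      (cores_sub hn hin fun p hp => (he' p hp).symm).antisymm (cores_sub hn hin he')
    have hgg : g k' i = g k i := by
      simp only [hg]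
      rw [hco, ← hT1]
    have hff : ∀ z ∈ (g k i).1.cl, f k' z = f k z := fun z hz => by
      refine (hf.loc k k' z fun p hp => he p ?_).symm
      have h2 := dist_triangle p (h z) (h x)
      have h3 := hin.lip z x
      have h4 := DC.dist_le_side hz hxQ
      linarith only [hb, h0, hp, h2, h3, h4, hn, hin, h1, hz, (bounds hn hin k h1 hz).1, hb.2]
    have hcr : cr (f k') (g k i).1 = cr (f k) (g k i).1 := cr_congr hff
    refine ⟨Finset.mem_sigma.2 ⟨hi'.1, hT1 ▸ hi'.2⟩, ?_, ?_, (hT2 _ hi'.2).symm⟩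
    · rw [hgg, hcr]
    · rw [hgg, hcr, hff _ (hc.2.1.cl_subset (DC.op_subset_cl _ (DC.c_mem_op _)))]

end Spec

end KC

end Pool.Agent.Work.MP_4b5e6c_gt
end

-- merged part: Pool.Agent.Work.MP_4b5e6c_gt.Recur
section
/-! Task RECUR: the recursion, and torsion-freeness in dimension at least two. -/

namespace Pool.Agent.Work.MP_4b5e6c_gt
open Metric Set

variable {n : ℕ} {X : Type} [MetricSpace X]

/-- The trivial filling with error one. -/
theorem Recur.fill_one (hn : 1 ≤ n) {Λ : ℝ} (hΛ : 1 ≤ Λ) : Fill n X Λ 1 := by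
  intro y L e hL he _
  have hΛL : L ≤ Λ * L := by linarith only [hΛ, hL, mul_nonneg_of_nonpos_of_nonpos (Mathlib.Tactic.Linarith.sub_nonpos_of_le hΛ) (Mathlib.Tactic.Linarith.sub_nonpos_of_le hL)]
  refine Hty.jump (he.1.mono hΛL) (lip_const (hL.trans hΛL) y) (hL.trans hΛL) (fun x => ?_)
    (fun x hx => ?_) one_pos
  · rw [one_mul]
    exact he.dist_le hn hL x
  · rw [mem_ball_zero_iff, not_lt] at hx
    exact (he.2 x hx).symm

/-- Shrinking an item by the factor sixteen. -/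
theorem Recur.shrink (hn : 1 ≤ n) {y : X} {L : ℝ} {e : D n → X} (hL : 0 ≤ L) (he : Item y L e) :
    Hty (160 * L) 0 (1 / 2) (ball 0 1) e (sc ((0 : D n), (1 / 16 : ℝ)) e) := by
  have arr : ∀ r : ℝ, 0 < r → Arr ({()} : Finset Unit) fun _ => (((0 : D n), r) : Pos n) :=
    fun r hr => ⟨fun _ _ => hr, fun i _ j _ hij => (hij (Subsingleton.elim i j)).elim⟩
  have f1 : Fit (16 * L) (fun _ => y) ({()} : Finset Unit) (fun _ => (((0 : D n), 1) : Pos n))
      fun _ => e :=
    ⟨arr 1 one_pos, fun _ _ => he.mono (by dsimp only; linarith only [hL]), fun _ _ _ _ => rfl⟩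
  have f2 : Fit (16 * L) (fun _ => y) ({()} : Finset Unit)
      (fun _ => (((0 : D n), 1 / 16) : Pos n)) fun _ => e :=
    ⟨arr _ (by norm_num), fun _ _ => he.mono (by dsimp only; linarith only []), fun _ _ _ _ => rfl⟩
  have h16 : (0 : ℝ) ≤ 16 * L := by positivity
  have hm := Hty.move (T := 1) hn (lip_const h16 y) h16 (fun _ => (((0 : D n), 1) : Pos n))
    (arr 1 one_pos) (fun _ _ _ _ => rfl) one_pos (fun _ _ => le_rfl) f1 f2
    fun _ _ => ⟨subset_rfl, ball_subset_ball (by norm_num)⟩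
  rw [ins_singleton_const (L := L) (by norm_num) he,
    ins_singleton_const (L := L) (by norm_num) he] at hm
  have e1 : sc (((0 : D n), 1) : Pos n) e = e := by
    funext x
    simp [sc]
  rw [e1] at hm
  have hs := hm.speed (T' := 1 / 2) (by positivity) (by norm_num) (by norm_num)
  refine hs.mono (by norm_num; linarith) le_rfl le_rfl ?_
  intro x hx
  simpa [Pos.op] using hx

/-- One step of the recursion halves the error. -/
theorem Recur.fill_half (hn : 2 ≤ n) {Λ κ : ℝ} (hΛ : 160 ≤ Λ) (hκ : 0 < κ)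
    (hs : ∀ (C0 : DC n) (y : X) (h : D n → X), Lip 1 h →
      (∀ x, C0.side / 4 ≤ dist x C0.c → h x = y) → Null h →
      Hty (1 / 32 * Λ) (1 / 32 * κ * C0.side) C0.side (ball C0.c (4 * C0.side)) h fun _ => y) :
    Fill n X Λ (κ / 2) := by
  intro y L e hL he hnull
  have hn1 : 1 ≤ n := by omega
  rcases hL.eq_or_lt with h0 | hL0
  · subst h0
    have : e = fun _ => y := by
      funext x
      exact dist_le_zero.1 (he.dist_le hn1 le_rfl x)
    rw [this]
    exact Hty.refl (lip_const (by simp) y) (by simp) (by simp)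
  obtain ⟨j, hj1, hj2⟩ := DC.exists_level (x := 8 * L) (by positivity)
  let C0 : DC n := ⟨j, 0⟩
  have hS : C0.side = (2 : ℝ) ^ (-j) := rfl
  rw [← hS] at hj1 hj2
  have hSpos : 0 < C0.side := C0.side_pos
  let P : Pos n := (C0.c, C0.side / 4)
  have hP : 0 < P.2 := by dsimp only [P]; positivity
  have h1 : Lip 1 (sc P e) := Item.lip_sc P hP (he.mono (by dsimp only [P]; linarith only [hj2]))
  have h2 : ∀ x, C0.side / 4 ≤ dist x C0.c → sc P e x = y := fun x hx =>
    Item.sc_eq P hP he (by simpa [Pos.op, P] using hx)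
  have h3 : Null (sc P e) := (null_sc_iff hn he.1 he.cpt P hP).2 hnull
  have h4 := hs C0 y (sc P e) h1 h2 h3
  let Q : Pos n := (C0.c, 4 * C0.side)
  have hQ : 0 < Q.2 := by dsimp only [Q]; positivity
  have h5 := Hty.unsc (R := 1) Q hQ (by simpa [Q] using h4)
  have e1 : unsc Q (sc P e) = sc ((0 : D n), (1 / 16 : ℝ)) e := by
    funext x
    simp only [unsc, sc, P, Q, add_sub_cancel_left, smul_smul, sub_zero]
    congr 2
    field_simp
    norm_num
  have e2 : unsc Q (fun _ => y) = fun _ => y := rfl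
  rw [e1, e2] at h5
  have hΛ0 : 0 ≤ Λ := by linarith only [hΛ]
  have h6 : Hty (Λ * L) (κ / 2 * L) (1 / 2) (ball 0 1) (sc ((0 : D n), (1 / 16 : ℝ)) e)
      fun _ => y := by
    refine h5.mono ?_ ?_ ?_ subset_rfl
    · dsimp only [Q]
      linarith only [hj1, hΛ0, mul_le_mul_of_nonneg_left hj1 hΛ0]
    · linarith only [hj1, hκ, hL0, mul_le_mul_of_nonneg_left hj1 hκ.le, mul_pos hκ hL0]
    · dsimp only [Q]
      rw [div_le_iff₀ (by positivity)]
      linarith only [hL0, hj2]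
  have h7 : Hty (Λ * L) 0 (1 / 2) (ball 0 1) e (sc ((0 : D n), (1 / 16 : ℝ)) e) :=
    (Recur.shrink hn1 hL he).mono (by linarith only [hΛ, hL, mul_nonneg_of_nonpos_of_nonpos (Mathlib.Tactic.Linarith.sub_nonpos_of_le hΛ) (Mathlib.Tactic.Linarith.sub_nonpos_of_le hL)]) le_rfl le_rfl subset_rfl
  have h8 := h7.trans h6 (by positivity) (by norm_num) (by norm_num)
  exact h8.mono le_rfl (by simp) (by norm_num) subset_rfl

theorem Good.fill (hn : 2 ≤ n) (G : Good n X) (hs : StepS n X) : ∃ Λ, Fill n X Λ 0 := by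
  obtain ⟨Λ0, hΛ0⟩ := hs (1 / 32) (by norm_num) (by norm_num)
  refine ⟨max Λ0 160, ?_⟩
  have key : ∀ k : ℕ, Fill n X (max Λ0 160) ((1 / 2) ^ k) := by
    intro k
    induction k with
    | zero =>
      rw [pow_zero]
      exact Recur.fill_one (by omega) (le_trans (by norm_num) (le_max_right _ _))
    | succ k ih =>
      have hpos : (0 : ℝ) < (1 / 2) ^ k := by positivity
      have := Recur.fill_half hn (le_max_right Λ0 160) hpos
        (hΛ0 _ _ (le_max_left _ _) hpos ih)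
      rwa [pow_succ, mul_one_div]
  intro y L e hL he hnull
  haveI := G.proper
  rw [zero_mul]
  refine Hty.limit fun ε hε => ?_
  obtain ⟨k, hk⟩ := exists_pow_lt_of_lt_one (x := ε / (L + 1)) (y := (1 / 2 : ℝ))
    (by positivity) (by norm_num)
  refine (key k y L e hL he hnull).mono le_rfl ?_ le_rfl subset_rfl
  rw [lt_div_iff₀ (by positivity)] at hk
  have hpos : (0 : ℝ) < (1 / 2) ^ k := by positivity
  linarith only [hk, hpos]

theorem Good.tf_two (hn : 1 ≤ n) (G : Good (n + 1) X) (hs : StepS (n + 1) X) : TF n X := by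
  intro y L f m hm hf ⟨L', hH⟩
  have hn2 : 2 ≤ n + 1 := by omega
  have hL : 0 ≤ max L 0 := le_max_right _ _
  have hf' : Item y (max L 0) f := hf.mono (le_max_left _ _)
  have h1 : Null (powD y f m) :=
    G.null_of_hty hn2 hH isBounded_ball (item_powD hL hf' m).cpt (null_const hn2 y)
  have h2 : Null f := null_of_powD hn hL hf' hm h1
  obtain ⟨Λ, hΛ⟩ := G.fill hn2 hs
  refine ⟨Λ * max L 0, ?_⟩
  have := hΛ y _ f hL hf' h2
  rwa [zero_mul] at this

end Pool.Agent.Work.MP_4b5e6c_gt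
end

-- merged part: Pool.Agent.Work.MP_4b5e6c_gt.HDcc
section
/-! Task HDCC: the Carnot-Caratheodory distance is comparable to the gauge distance. -/

namespace Pool.Agent.Work.MP_4b5e6c_gt

/-- A point of the product as a point of `Heis n`. -/
def toHeis {n : ℕ} (p : Stmt.H n) : Heis n := ⟨p.1, p.2.1, p.2.2⟩

namespace HDcc

open Set MeasureTheory

variable {n : ℕ}

/-- The horizontal speed. -/
noncomputable def sp (w : Stmt.H n) : ℝ := √(∑ j, w.1 j ^ 2 + ∑ j, w.2.1 j ^ 2)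

theorem sp_le {w : Stmt.H n} {M : ℝ} (hM : 0 ≤ M) (h1 : ∀ j, |w.1 j| ≤ M)
    (h2 : ∀ j, |w.2.1 j| ≤ M) : sp w ≤ (n + 1) * M := by
  have k : ∀ v : Fin n → ℝ, (∀ j, |v j| ≤ M) → ∑ j, v j ^ 2 ≤ n * M ^ 2 := fun v hv => by
    calc ∑ j, v j ^ 2 ≤ ∑ _j : Fin n, M ^ 2 :=
          Finset.sum_le_sum fun j _ => sq_le_sq' (abs_le.1 (hv j)).1 (abs_le.1 (hv j)).2
      _ = n * M ^ 2 := by simp
  refine Real.sqrt_le_iff.2 ⟨by positivity, ?_⟩
  linarith only [k, h1, h2, k _ h1, k _ h2, sq_nonneg M, sq_nonneg (n * M), sq_nonneg M, sq_nonneg (↑n * M)]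

theorem le_sp1 (w : Stmt.H n) (j : Fin n) : |w.1 j| ≤ sp w := by
  refine Real.abs_le_sqrt ?_
  have h1 := Finset.single_le_sum (f := fun j => w.1 j ^ 2) (fun _ _ => sq_nonneg _)
    (Finset.mem_univ j)
  have h2 : 0 ≤ ∑ j, w.2.1 j ^ 2 := by positivity
  linarith

theorem le_sp2 (w : Stmt.H n) (j : Fin n) : |w.2.1 j| ≤ sp w := by
  refine Real.abs_le_sqrt ?_
  have h1 := Finset.single_le_sum (f := fun j => w.2.1 j ^ 2) (fun _ _ => sq_nonneg _)
    (Finset.mem_univ j)
  have h2 : 0 ≤ ∑ j, w.1 j ^ 2 := by positivity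
  linarith

theorem sum_le_sp (w : Stmt.H n) : ∑ j, |w.1 j| + ∑ j, |w.2.1 j| ≤ (n + 1) * sp w := by
  have k : ∀ v : Fin n → ℝ, (∑ j, |v j|) ^ 2 ≤ n * ∑ j, v j ^ 2 := fun v => by
    simpa using sq_sum_le_card_mul_sum_sq (s := Finset.univ) (f := fun j => |v j|)
  have h0 : 0 ≤ ∑ j, w.1 j ^ 2 + ∑ j, w.2.1 j ^ 2 := by positivity
  have h1 : sp w ^ 2 = ∑ j, w.1 j ^ 2 + ∑ j, w.2.1 j ^ 2 := Real.sq_sqrt h0
  have h2 : 0 ≤ sp w := Real.sqrt_nonneg _
  refine le_trans (le_abs_self _) (abs_le_of_sq_le_sq' ?_ (by positivity) |> abs_le.2)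
  rw [mul_pow, h1]
  have hn : (0 : ℝ) ≤ n := Nat.cast_nonneg n
  linarith only [h0, k, k w.1, k w.2.1, sq_nonneg (∑ j, |w.1 j| - ∑ j, |w.2.1 j|),
    mul_nonneg (sq_nonneg (n : ℝ)) h0, sq_nonneg (∑ j, |w.1 j| - ∑ j, |w.2.1 j|), sq_nonneg ↑n]

theorem dot_le {u v : Fin n → ℝ} {l : ℝ} (h : ∀ j, |u j| ≤ l) : |u ⬝ᵥ v| ≤ l * ∑ j, |v j| := by
  rw [Finset.mul_sum]
  refine (Finset.abs_sum_le_sum_abs _ _).trans (Finset.sum_le_sum fun j _ => ?_)
  rw [abs_mul]
  exact mul_le_mul_of_nonneg_right (h j) (abs_nonneg _)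

theorem ac_comp {γ : ℝ → Stmt.H n} (hγ : AbsolutelyContinuousOnInterval γ 0 1)
    (L : Stmt.H n →L[ℝ] ℝ) : AbsolutelyContinuousOnInterval (fun s => L (γ s)) 0 1 := by
  unfold AbsolutelyContinuousOnInterval at hγ ⊢
  refine squeeze_zero (fun E => Finset.sum_nonneg fun _ _ => dist_nonneg) (fun E => ?_)
    (by simpa using hγ.const_mul ‖L‖)
  rw [Finset.mul_sum]
  exact Finset.sum_le_sum fun i _ => L.dist_le_opNorm _ _

theorem key {γ : ℝ → Stmt.H n} (hγ : AbsolutelyContinuousOnInterval γ 0 1)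
    (hl : Stmt.length γ ≠ ⊤) (L : Stmt.H n →ₗ[ℝ] ℝ) {c : ℝ} (hc : 0 ≤ c)
    (h : ∀ᵐ u : ℝ, u ∈ Icc (0 : ℝ) 1 → |L (deriv γ u)| ≤ c * sp (deriv γ u)) {s : ℝ}
    (hs : s ∈ Icc (0 : ℝ) 1) : |L (γ s) - L (γ 0)| ≤ c * (Stmt.length γ).toReal := by
  set L' := LinearMap.toContinuousLinearMap L with hL
  have h1 := ((ac_comp hγ L').mono (c := 0) (d := s) (by
    rw [uIcc_of_le hs.1, uIcc_of_le zero_le_one]
    exact Icc_subset_Icc_right hs.2)).integral_deriv_eq_sub
  have h2 : ‖L (γ s) - L (γ 0)‖ₑ ≤ ENNReal.ofReal c * Stmt.length γ := by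
    refine le_trans (le_of_eq (congrArg _ h1.symm)) ?_
    rw [intervalIntegral.integral_of_le hs.1]
    refine (enorm_integral_le_lintegral_enorm _).trans ?_
    refine (lintegral_mono_set (Ioc_subset_Icc_self.trans (Icc_subset_Icc_right hs.2))).trans ?_
    rw [Stmt.length, ← lintegral_const_mul' _ _ ENNReal.ofReal_ne_top]
    refine lintegral_mono_ae ((ae_restrict_iff' measurableSet_Icc).2 ?_)
    filter_upwards [h, hγ.boundedVariationOn.ae_differentiableAt_of_mem_uIcc] with u p q hu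
    have r := (L'.hasFDerivAt.comp_hasDerivAt u
      (q (by rwa [uIcc_of_le zero_le_one])).hasDerivAt).deriv
    rw [show deriv (fun s => L' (γ s)) u = L (deriv γ u) from r, ← ENNReal.ofReal_mul hc,
      Real.enorm_eq_ofReal_abs]
    exact ENNReal.ofReal_le_ofReal (p hu)
  rw [Real.enorm_eq_ofReal_abs, ← ENNReal.ofReal_toReal hl, ← ENNReal.ofReal_mul hc] at h2
  exact (ENNReal.ofReal_le_ofReal_iff (by positivity)).1 h2

/-- The linear part of the vertical coordinate. -/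
def vl (p : Stmt.H n) : Stmt.H n →ₗ[ℝ] ℝ where
  toFun w := w.2.2 - 2 * (p.2.1 ⬝ᵥ w.1 - p.1 ⬝ᵥ w.2.1)
  map_add' u w := by simp; ring
  map_smul' c w := by simp; ring

theorem dist_le_length {γ : ℝ → Stmt.H n} (hγ : Stmt.IsHorizontal γ) :
    ENNReal.ofReal (dist (toHeis (γ 0)) (toHeis (γ 1))) ≤ Stmt.length γ := by
  by_cases hl : Stmt.length γ = ⊤
  · rw [hl]; exact le_top
  refine ENNReal.ofReal_le_of_le_toReal ?_
  set l := (Stmt.length γ).toReal with hl'
  have l0 : 0 ≤ l := ENNReal.toReal_nonneg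
  have hx : ∀ s ∈ Icc (0 : ℝ) 1, ∀ j, |((γ s).1 - (γ 0).1) j| ≤ l := fun s hs j => by
    simpa using key hγ.1 hl ((LinearMap.proj j).comp (LinearMap.fst ℝ _ _)) zero_le_one
      (ae_of_all _ fun u _ => by simpa using le_sp1 _ j) hs
  have hy : ∀ s ∈ Icc (0 : ℝ) 1, ∀ j, |((γ s).2.1 - (γ 0).2.1) j| ≤ l := fun s hs j => by
    simpa using key hγ.1 hl
      ((LinearMap.proj j).comp ((LinearMap.fst ℝ _ _).comp (LinearMap.snd ℝ _ _))) zero_le_one
      (ae_of_all _ fun u _ => by simpa using le_sp2 _ j) hs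
  have one : (1 : ℝ) ∈ Icc (0 : ℝ) 1 := ⟨zero_le_one, le_rfl⟩
  have hv := key hγ.1 hl (vl (γ 0)) (c := (2 * n + 2) * l) (by positivity) (by
    filter_upwards [hγ.2] with u hu m
    have e : vl (γ 0) (deriv γ u) = 2 * (((γ u).2.1 - (γ 0).2.1) ⬝ᵥ (deriv γ u).1 -
        ((γ u).1 - (γ 0).1) ⬝ᵥ (deriv γ u).2.1) := by
      change (deriv γ u).2.2 - _ = _
      rw [hu m, sub_dotProduct, sub_dotProduct]
      ring
    have a1 := dot_le (v := (deriv γ u).1) (hy u m)
    have a2 := dot_le (v := (deriv γ u).2.1) (hx u m)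
    have a3 := mul_le_mul_of_nonneg_left (sum_le_sp (deriv γ u)) l0
    rw [e]
    rw [abs_le] at a1 a2 ⊢
    constructor <;> linarith only [a1, a2, a3, a1.1, a1.2, a2.1, a2.2]) one
  refine (Heis.dist_le_iff l0).2 ⟨(pi_norm_le_iff_of_nonneg l0).2 (hx 1 one),
    (pi_norm_le_iff_of_nonneg l0).2 (hy 1 one), ?_⟩
  have e : Heis.vert (toHeis (γ 0)) (toHeis (γ 1)) = vl (γ 0) (γ 1) - vl (γ 0) (γ 0) := by
    simp only [Heis.vert, toHeis, vl, LinearMap.coe_mk, AddHom.coe_mk]
    rw [dotProduct_comm (γ 0).2.1 (γ 0).1]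
    ring
  rw [e, ← hl'] at *
  linarith

/-- The polynomial horizontal curve. -/
noncomputable def cv (p : Stmt.H (n + 1)) (u v : Fin (n + 1) → ℝ) (a b s : ℝ) : Stmt.H (n + 1) :=
  (p.1 + s • u + (s - 3 * s ^ 2 + 2 * s ^ 3) • (Pi.single 0 a : Fin (n + 1) → ℝ),
    p.2.1 + s • v + (s - s ^ 2) • (Pi.single 0 b : Fin (n + 1) → ℝ),
    p.2.2 + 2 * ((p.2.1 ⬝ᵥ u - p.1 ⬝ᵥ v) * s + a * p.2.1 0 * (s - 3 * s ^ 2 + 2 * s ^ 3) -
      b * p.1 0 * (s - s ^ 2) + a * v 0 * (s ^ 4 - s ^ 3) + b * u 0 * (s ^ 3 / 3) +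
      a * b * (s ^ 4 - 2 * s ^ 3 / 3 - 2 * s ^ 5 / 5)))

theorem cv_deriv (p : Stmt.H (n + 1)) (u v : Fin (n + 1) → ℝ) (a b s : ℝ) :
    HasDerivAt (cv p u v a b)
      (u + (1 - 6 * s + 6 * s ^ 2) • (Pi.single 0 a : Fin (n + 1) → ℝ),
        v + (1 - 2 * s) • (Pi.single 0 b : Fin (n + 1) → ℝ),
        2 * ((p.2.1 ⬝ᵥ u - p.1 ⬝ᵥ v) + a * p.2.1 0 * (1 - 6 * s + 6 * s ^ 2) -
          b * p.1 0 * (1 - 2 * s) + a * v 0 * (4 * s ^ 3 - 3 * s ^ 2) + b * u 0 * s ^ 2 +
          a * b * (4 * s ^ 3 - 2 * s ^ 2 - 2 * s ^ 4))) s := by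
  have h1 := hasDerivAt_id' s
  have h2 := hasDerivAt_pow 2 s
  have h3 := hasDerivAt_pow 3 s
  have h4 := hasDerivAt_pow 4 s
  have h5 := hasDerivAt_pow 5 s
  have f1 : HasDerivAt (fun s : ℝ => s - 3 * s ^ 2 + 2 * s ^ 3) (1 - 6 * s + 6 * s ^ 2) s := by
    refine ((h1.fun_sub (h2.const_mul 3)).fun_add (h3.const_mul 2)).congr_deriv ?_
    norm_num
    ring
  have f2 : HasDerivAt (fun s : ℝ => s - s ^ 2) (1 - 2 * s) s := by
    refine (h1.fun_sub h2).congr_deriv ?_
    norm_num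
  refine HasDerivAt.prodMk ?_ (HasDerivAt.prodMk ?_ ?_)
  · simpa using ((h1.smul_const u).const_add p.1).fun_add (f1.smul_const _)
  · simpa using ((h1.smul_const v).const_add p.2.1).fun_add (f2.smul_const _)
  · refine ((((((((h1.const_mul (p.2.1 ⬝ᵥ u - p.1 ⬝ᵥ v)).fun_add
      (f1.const_mul (a * p.2.1 0))).fun_sub (f2.const_mul (b * p.1 0))).fun_add
      ((h4.fun_sub h3).const_mul (a * v 0))).fun_add
      ((h3.div_const 3).const_mul (b * u 0))).fun_add
      (((h4.fun_sub ((h3.const_mul 2).div_const 3)).fun_sub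
        ((h5.const_mul 2).div_const 5)).const_mul (a * b))).const_mul 2).const_add p.2.2).congr_deriv ?_
    simp only [Nat.add_one_sub_one, Nat.cast_ofNat]
    ring

theorem cv_hor (p : Stmt.H (n + 1)) (u v : Fin (n + 1) → ℝ) (a b : ℝ) :
    Stmt.IsHorizontal (cv p u v a b) := by
  refine ⟨ContDiffOn.absolutelyContinuousOnInterval (ContDiff.contDiffOn ?_),
    ae_of_all _ fun s _ => ?_⟩
  · unfold cv
    fun_prop
  · rw [(cv_deriv p u v a b s).deriv]
    simp only [cv, add_dotProduct, dotProduct_add, smul_dotProduct, dotProduct_smul,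
      dotProduct_single, single_dotProduct, smul_eq_mul, Pi.single_eq_same, Pi.add_apply,
      Pi.smul_apply]
    rw [dotProduct_comm v u]
    ring

theorem cv_length (p : Stmt.H (n + 1)) {u v : Fin (n + 1) → ℝ} {a b M : ℝ}
    (h1 : ‖u‖ + |a| ≤ M) (h2 : ‖v‖ + |b| ≤ M) :
    Stmt.length (cv p u v a b) ≤ ENNReal.ofReal ((n + 2) * M) := by
  have hM : 0 ≤ M := le_trans (by positivity) h1
  have k : ∀ (w : Fin (n + 1) → ℝ) (c r : ℝ), |r| ≤ 1 → ‖w‖ + |c| ≤ M →
      ∀ j, |(w + r • (Pi.single 0 c : Fin (n + 1) → ℝ)) j| ≤ M := fun w c r hr h j => by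
    refine (norm_le_pi_norm (w + r • (Pi.single 0 c : Fin (n + 1) → ℝ)) j).trans
      ((norm_add_le _ _).trans (le_trans ?_ h))
    rw [norm_smul, Pi.norm_single]
    exact add_le_add_right (mul_le_of_le_one_left (norm_nonneg _) hr) _
  refine (setLIntegral_mono' (g := fun _ => ENNReal.ofReal ((n + 2) * M)) measurableSet_Icc
    fun s hs => ENNReal.ofReal_le_ofReal ?_).trans (by simp)
  have t := sp_le (w := deriv (cv p u v a b) s) hM
  rw [(cv_deriv p u v a b s).deriv] at t ⊢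
  have s1 := mul_nonneg hs.1 (sub_nonneg.2 hs.2)
  have t' := t (k u a _ (abs_le.2 ⟨by linarith only [sq_nonneg (2 * s - 1), sq_nonneg ((2 : ℝ) * s - (1 : ℝ))], by nlinarith⟩) h1)
    (k v b _ (abs_le.2 ⟨by linarith [hs.2], by linarith [hs.1]⟩) h2)
  refine le_trans t' (le_of_eq ?_)
  push_cast
  ring

end HDcc

theorem dcc_le (n : ℕ) : ∃ C : ℝ, 0 ≤ C ∧ ∀ p q : Stmt.H (n + 1),
    Stmt.dcc p q ≤ ENNReal.ofReal (C * dist (toHeis p) (toHeis q)) := by
  refine ⟨(n + 2) * (15 * n + 36), by positivity, fun p q => ?_⟩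
  have h1 : ‖q.1 - p.1‖ ≤ _ := Heis.norm_x_le (toHeis p) (toHeis q)
  have h2 : ‖q.2.1 - p.2.1‖ ≤ _ := Heis.norm_y_le (toHeis p) (toHeis q)
  have h3 := Heis.abs_vert_le (toHeis p) (toHeis q)
  have h0 : 0 ≤ dist (toHeis p) (toHeis q) := dist_nonneg
  have hz : Heis.vert (toHeis p) (toHeis q) =
      q.2.2 - p.2.2 - 2 * (p.2.1 ⬝ᵥ q.1 - p.1 ⬝ᵥ q.2.1) := rfl
  generalize dist (toHeis p) (toHeis q) = D at *
  generalize Heis.vert (toHeis p) (toHeis q) = z at *
  have hn : (0 : ℝ) ≤ n := Nat.cast_nonneg n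
  obtain ⟨r, r1, r2⟩ : ∃ r : ℝ, r * D = z ∧ |r| ≤ (2 * n + 4) * D := by
    rcases h0.eq_or_lt with rfl | h
    · exact ⟨0, by simpa using (abs_nonpos_iff.1 (by simpa using h3)).symm, by simp⟩
    · refine ⟨z / D, div_mul_cancel₀ _ h.ne', ?_⟩
      rw [abs_div, abs_of_pos h, div_le_iff₀ h]
      push_cast at h3
      linarith
  have h4 : |(q.1 - p.1) 0| ≤ D := (norm_le_pi_norm (q.1 - p.1) 0).trans h1
  refine iInf₂_le_of_le (HDcc.cv p (q.1 - p.1) (q.2.1 - p.2.1) (5 * (q.1 - p.1) 0 - 15 / 2 * r) D)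
    ⟨HDcc.cv_hor _ _ _ _ _, by simp [HDcc.cv], ?_⟩ ?_
  · refine Prod.ext ?_ (Prod.ext ?_ ?_)
    · simp only [HDcc.cv]
      norm_num
    · simp only [HDcc.cv]
      norm_num
    · simp only [HDcc.cv, dotProduct_sub]
      rw [dotProduct_comm p.2.1 p.1]
      linear_combination r1 + hz
  · rw [mul_assoc]
    refine HDcc.cv_length p ?_ ?_
    · have : |5 * (q.1 - p.1) 0 - 15 / 2 * r| ≤ 5 * D + 15 / 2 * ((2 * n + 4) * D) := by
        rw [abs_le] at h4 r2 ⊢
        constructor <;> linarith only [r2, h4, h4.1, h4.2, r2.1, r2.2]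
      linarith only [h1, this]
    · rw [abs_of_nonneg h0]
      linarith only [h2, h0, mul_nonneg_of_nonpos_of_nonpos (Mathlib.Tactic.Linarith.sub_nonpos_of_le (Mathlib.Tactic.Linarith.natCast_nonneg ℝ n)) (Mathlib.Tactic.Linarith.sub_nonpos_of_le h0)]

theorem le_dcc (n : ℕ) (p q : Stmt.H n) :
    ENNReal.ofReal (dist (toHeis p) (toHeis q)) ≤ Stmt.dcc p q := by
  refine le_iInf₂ fun γ h => ?_
  obtain ⟨h, rfl, rfl⟩ := h
  exact HDcc.dist_le_length h

end Pool.Agent.Work.MP_4b5e6c_gt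
end

-- merged part: Pool.Agent.Work.MP_4b5e6c_gt.SphC
section
/-! Task SPHC: concatenation of spheres and concatenation of items. -/

namespace Pool.Agent.Work.MP_4b5e6c_gt
open Metric Set Stmt

variable {k : ℕ} {Z : Type} [MetricSpace Z]

namespace SphC

theorem dist_le {x y : Sph k} {c : ℝ} (h : ∀ i, |x.1 i - y.1 i| ≤ c) :
    dist x y ≤ (k + 2) * c := by
  have hc : 0 ≤ c := (abs_nonneg _).trans (h 0)
  have hk : (0 : ℝ) ≤ k := Nat.cast_nonneg k
  rw [Subtype.dist_eq, EuclideanSpace.dist_eq, Real.sqrt_le_left (by positivity)]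
  have h1 : ∑ i, dist (x.1 i) (y.1 i) ^ 2 ≤ (Finset.univ : Finset (Fin (k + 2))).card • c ^ 2 :=
    Finset.sum_le_card_nsmul _ _ _ fun i _ => pow_le_pow_left₀ dist_nonneg (h i) 2
  rw [Finset.card_univ, Fintype.card_fin, nsmul_eq_mul] at h1
  push_cast at h1
  linarith only [h1, hk, mul_nonneg hk (sq_nonneg c), mul_nonneg hk (mul_nonneg hk (sq_nonneg c)), sq_nonneg ((↑k + (2 : ℝ)) * c), sq_nonneg c]

theorem abs_sub_le (x y : Sph k) (i : Fin (k + 2)) : |x.1 i - y.1 i| ≤ dist x y :=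
  PiLp.dist_apply_le x.1 y.1 i

theorem abs_le (x : Sph k) (i : Fin (k + 2)) : |x.1 i| ≤ 1 :=
  (PiLp.norm_apply_le x.1 i).trans (mem_sphere_zero_iff_norm.1 x.2).le

theorem mul_sub {u v u' v' d : ℝ} (h1 : |u| ≤ 1) (h2 : |v'| ≤ 1) (h3 : |u - u'| ≤ d)
    (h4 : |v - v'| ≤ d) : |2 * u * v - 2 * u' * v'| ≤ 4 * d := by
  have e : 2 * u * v - 2 * u' * v' = 2 * (u * (v - v') + (u - u') * v') := by ring
  have h5 := abs_add_le (u * (v - v')) ((u - u') * v')
  rw [abs_mul, abs_mul] at h5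
  have h6 := mul_le_of_le_one_left (abs_nonneg (v - v')) h1
  have h7 := mul_le_of_le_one_right (abs_nonneg (u - u')) h2
  rw [e, abs_mul, abs_two]
  linarith only [h3, h4, h5, h6, h7]

theorem pinch0 (x : Sph k) : (pinch x).1 0 = 1 - 2 * x.1 1 ^ 2 := rfl
theorem pinch1 (x : Sph k) : (pinch x).1 (Fin.succ 0) = 2 * x.1 0 * x.1 1 := rfl
theorem pinch2 (x : Sph k) (i : Fin k) :
    (pinch x).1 i.succ.succ = 2 * |x.1 1| * x.1 i.succ.succ := rfl
theorem qS0 (x : D (k + 1)) :
    (qS x).1 0 = (∑ i, x i ^ 2 - rho x ^ 2) / (∑ i, x i ^ 2 + rho x ^ 2) := rfl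
theorem qS1 (x : D (k + 1)) : (qS x).1 1 = 2 * rho x * x 0 / (∑ i, x i ^ 2 + rho x ^ 2) := rfl
theorem qSs (x : D (k + 1)) (i : Fin (k + 1)) :
    (qS x).1 i.succ = 2 * rho x * x i / (∑ i, x i ^ 2 + rho x ^ 2) := rfl
theorem base0 : (base k).1 0 = 1 := by simp [base]
theorem bases (i : Fin (k + 1)) : (base k).1 i.succ = 0 := by simp [base]
theorem base1 : (base k).1 1 = 0 := bases 0

theorem dist_base (x : Sph k) : dist (pinch x) (base k) ≤ (k + 2) * (2 * |x.1 1|) := by
  have key : ∀ i, |2 * x.1 i * x.1 1| ≤ 2 * |x.1 1| := fun i => by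
    rw [mul_assoc, abs_mul, abs_mul, abs_two]
    linarith only [mul_le_of_le_one_left (abs_nonneg (x.1 1)) (abs_le x i)]
  refine dist_le fun i => ?_
  refine Fin.cases ?_ (fun i => Fin.cases ?_ (fun i => ?_) i) i
  · rw [pinch0, base0, sub_sub_cancel_left, abs_neg, sq, ← mul_assoc]
    exact key 1
  · rw [pinch1, bases, sub_zero]
    exact key 0
  · have := key i.succ.succ
    rw [abs_mul, abs_mul] at this
    rw [pinch2, bases, sub_zero, abs_mul, abs_mul, abs_abs]
    linarith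

theorem glue2 {E : Type} [NormedAddCommGroup E] [NormedSpace ℝ E] {φ : E → ℝ} (hφ : Continuous φ)
    {H₁ H₂ : E → Z} {L : ℝ} (hL : 0 ≤ L) (h1 : Lip L H₁) (h2 : Lip L H₂)
    (e : ∀ a, φ a = 0 → H₁ a = H₂ a) : Lip L fun a => if φ a ≤ 0 then H₁ a else H₂ a := by
  intro a b
  refine glue_closed convex_univ (Finset.univ : Finset Bool)
    (fun i => if i then {a | φ a ≤ 0} else {a | 0 ≤ φ a}) (fun i _ => ?_) (fun a _ => ?_)
    (fun a => if φ a ≤ 0 then H₁ a else H₂ a) hL (fun i _ a ha b hb => ?_) a trivial b trivial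
  · cases i
    exacts [isClosed_le continuous_const hφ, isClosed_le hφ continuous_const]
  · rcases le_total (φ a) 0 with h | h
    exacts [⟨true, Finset.mem_univ _, h⟩, ⟨false, Finset.mem_univ _, h⟩]
  · cases i
    · have key : ∀ c, 0 ≤ φ c → (if φ c ≤ 0 then H₁ c else H₂ c) = H₂ c := fun c hc => by
        split_ifs with h
        exacts [e c (le_antisymm h hc), rfl]
      simp only [key a ha.1, key b hb.1]
      exact h2 a b
    · have ha' : φ a ≤ 0 := ha.1
      have hb' : φ b ≤ 0 := hb.1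
      simp only [if_pos ha', if_pos hb']
      exact h1 a b

theorem lip_update {φ : ℝ → ℝ} {c : ℝ} (hc : 1 ≤ c) (h : Lip c φ) :
    Lip c fun x : D (k + 1) => Function.update x 0 (φ (x 0)) := by
  intro x x'
  have h0 : 0 ≤ dist x x' := dist_nonneg
  refine (dist_pi_le_iff (by positivity)).2 fun i => ?_
  beta_reduce
  by_cases e : i = 0
  · rw [e, Function.update_self, Function.update_self]
    exact (h _ _).trans (mul_le_mul_of_nonneg_left (dist_le_pi_dist x x' 0) (by linarith))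
  · rw [Function.update_of_ne e, Function.update_of_ne e]
    exact (dist_le_pi_dist x x' i).trans (le_mul_of_one_le_left h0 hc)

theorem lip_aff (σ : ℝ) : Lip 2 fun t : ℝ => 2 * t + σ := fun a b => by
  rw [dist_add_right, Real.dist_eq, Real.dist_eq, ← _root_.mul_sub, abs_mul, abs_two]

theorem one_le_norm {x : D (k + 1)} {σ : ℝ} (hσ : |σ| = 1) (h : 1 ≤ ‖x‖ ∨ x 0 = 0) :
    1 ≤ ‖Function.update x 0 (2 * x 0 + σ)‖ := by
  have h0 := norm_le_pi_norm (Function.update x 0 (2 * x 0 + σ)) 0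
  rw [Function.update_self, Real.norm_eq_abs] at h0
  rcases h with h | h
  · by_contra hn
    refine not_lt.2 h ((pi_norm_lt_iff one_pos).2 fun i => ?_)
    by_cases e : i = 0
    · have h1 := abs_sub (2 * x 0 + σ) σ
      rw [add_sub_cancel_right, abs_mul, abs_two, hσ] at h1
      rw [e, Real.norm_eq_abs]
      linarith only [h0, hn, h1, not_le.1 hn]
    · have h1 := norm_le_pi_norm (Function.update x 0 (2 * x 0 + σ)) i
      rw [Function.update_of_ne e] at h1
      exact h1.trans_lt (not_le.1 hn)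
  · rw [h, mul_zero, zero_add, hσ] at h0
    rwa [h, mul_zero, zero_add]

theorem rho_nonneg (x : D (k + 1)) : 0 ≤ rho x := le_max_right _ _

theorem qS1_zero {x : D (k + 1)} (h : 1 ≤ ‖x‖ ∨ x 0 = 0) : (qS x).1 1 = 0 := by
  rw [qS1]
  rcases h with h | h
  · rw [rho, max_eq_right (by linarith), mul_zero, zero_mul, zero_div]
  · rw [h, mul_zero, zero_div]

theorem qS_base {x : D (k + 1)} (h : 1 ≤ ‖x‖) : qS x = base k :=
  item_qS.choose_spec.2.2 x h

theorem qS1_sign (x : D (k + 1)) : (x 0 ≤ 0 → (qS x).1 1 ≤ 0) ∧ (0 ≤ x 0 → 0 ≤ (qS x).1 1) := by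
  have h1 := (qden_pos x).le
  have h2 : 0 ≤ 2 * rho x := mul_nonneg zero_le_two (rho_nonneg x)
  rw [qS1]
  exact ⟨fun h => div_nonpos_of_nonpos_of_nonneg (mul_nonpos_of_nonneg_of_nonpos h2 h) h1,
    fun h => div_nonneg (mul_nonneg h2 h) h1⟩

theorem not_antipodal {x : D (k + 1)} {σ : ℝ} (hσ : |σ| = 1) (h : σ * x 0 ≤ 0) (h1 : ‖x‖ < 1)
    (h2 : x 0 ≠ 0) : (pinch (qS x)).1 + (qS (Function.update x 0 (2 * x 0 + σ))).1 ≠ 0 := by
  intro e
  generalize hx' : Function.update x 0 (2 * x 0 + σ) = x' at e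
  have e' : ∀ i, (pinch (qS x)).1 i + (qS x').1 i = 0 := fun i => by
    simpa using congrArg (fun v => v.ofLp i) e
  have d := qden_pos x
  have d' := qden_pos x'
  have r : rho x = 1 - ‖x‖ := max_eq_left (by linarith)
  have r0 : 0 < rho x := by linarith
  have r' : 0 ≤ 2 * rho x' / (∑ i, x' i ^ 2 + rho x' ^ 2) :=
    div_nonneg (mul_nonneg zero_le_two (rho_nonneg x')) d'.le
  have n1 : (qS x).1 1 ≠ 0 := by
    rw [qS1]
    exact div_ne_zero (mul_ne_zero (by linarith only [h1, r]) h2) d.ne'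
  have z : ∀ i : Fin k, x i.succ = 0 := fun i => by
    have a1 := e' i.succ.succ
    have a2 : x' i.succ = x i.succ := by rw [← hx', Function.update_of_ne (Fin.succ_ne_zero i)]
    rw [pinch2, qSs, qSs, a2] at a1
    have a3 : 0 < 2 * |(qS x).1 1| * (2 * rho x / (∑ i, x i ^ 2 + rho x ^ 2)) := by
      have := abs_pos.2 n1
      positivity
    refine (mul_eq_zero.1 (?_ : x i.succ * _ = 0)).resolve_right (add_pos_of_pos_of_nonneg a3 r').ne'
    rw [← a1]
    ring
  have s2 : σ ^ 2 = 1 := by rw [← sq_abs, hσ, one_pow]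
  have hn : ‖x‖ = -(σ * x 0) := by
    have a1 : |x 0| = -(σ * x 0) := by rw [← abs_of_nonpos h, abs_mul, hσ, one_mul]
    rw [← a1]
    refine le_antisymm ((pi_norm_le_iff_of_nonneg (abs_nonneg _)).2 fun i => ?_)
      (norm_le_pi_norm x 0)
    refine Fin.cases le_rfl (fun i => ?_) i
    rw [z i, norm_zero]
    exact abs_nonneg _
  have hS : ∑ i, x i ^ 2 = x 0 ^ 2 := by simp [Fin.sum_univ_succ, z]
  have a0 : x' 0 = 2 * x 0 + σ := by rw [← hx', Function.update_self]
  have n0 : 0 < -(σ * x 0) := by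
    rw [← hn]
    exact (abs_pos.2 h2).trans_le (norm_le_pi_norm x 0)
  have z0 : x' 0 = 0 := by
    have a1 := e' (Fin.succ 0)
    have a2 : ∑ i, x i ^ 2 - rho x ^ 2 = -σ * x' 0 := by
      rw [hS, r, hn, a0]
      linear_combination (1 - x 0 ^ 2) * s2
    rw [pinch1, qS0, qS1, qSs, a2] at a1
    have a3 : 0 < 4 * rho x * -(σ * x 0) / (∑ i, x i ^ 2 + rho x ^ 2) ^ 2 := by positivity
    refine (mul_eq_zero.1 (?_ : x' 0 * _ = 0)).resolve_right (add_pos_of_pos_of_nonneg a3 r').ne'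
    rw [← a1]
    field_simp
    ring
  have hS' : ∑ i, x' i ^ 2 = 0 := Finset.sum_eq_zero fun i _ => by
    refine Fin.cases (by rw [z0]; simp) (fun i => ?_) i
    rw [← hx', Function.update_of_ne (Fin.succ_ne_zero i), z i]
    simp
  have a1 := e' 0
  rw [hS', zero_add] at d'
  rw [pinch0, qS0, hS', zero_sub, zero_add, neg_div, div_self d'.ne'] at a1
  exact n1 (pow_eq_zero_iff two_ne_zero |>.1 (by linarith only [a1]))

end SphC

open SphC

theorem lip_pinch : ∃ L : ℝ, 0 ≤ L ∧ Lip L (pinch : Sph k → Sph k) := by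
  refine ⟨(k + 2) * 4, by positivity, fun x y => ?_⟩
  rw [mul_assoc]
  refine SphC.dist_le fun i => ?_
  refine Fin.cases ?_ (fun i => Fin.cases ?_ (fun i => ?_) i) i
  · rw [pinch0, pinch0, sub_sub_sub_cancel_left, abs_sub_comm, sq, sq, ← mul_assoc, ← mul_assoc]
    exact SphC.mul_sub (SphC.abs_le x 1) (SphC.abs_le y 1) (SphC.abs_sub_le x y 1)
      (SphC.abs_sub_le x y 1)
  · rw [pinch1, pinch1]
    exact SphC.mul_sub (SphC.abs_le x 0) (SphC.abs_le y 1) (SphC.abs_sub_le x y 0)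
      (SphC.abs_sub_le x y 1)
  · rw [pinch2, pinch2]
    exact SphC.mul_sub (by rw [abs_abs]; exact SphC.abs_le x 1) (SphC.abs_le y _)
      ((abs_abs_sub_abs_le_abs_sub _ _).trans (SphC.abs_sub_le x y 1)) (SphC.abs_sub_le x y _)

theorem pinch_of_eq_zero {x : Sph k} (h : x.1 1 = 0) : pinch x = base k := by
  have := dist_base x
  rw [h, abs_zero, mul_zero, mul_zero] at this
  exact dist_le_zero.1 this

theorem lip_concat {f g : Sph k → Z} {y : Z} {L : ℝ} (hf : Lip L f) (hg : Lip L g)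
    (hfy : f (base k) = y) (hgy : g (base k) = y) :
    (∃ L', 0 ≤ L' ∧ Lip L' (concat f g)) ∧ concat f g (base k) = y := by
  refine ⟨?_, by rw [concat, if_pos base1.le, pinch_of_eq_zero base1, hfy]⟩
  obtain ⟨C, hC, hp⟩ := lip_pinch (k := k)
  have hf' := hf.mono (le_abs_self L)
  have hg' := hg.mono (le_abs_self L)
  have hL := abs_nonneg L
  have hk : (0 : ℝ) ≤ (k + 2) * 2 := by positivity
  have key : ∀ a b : Sph k, a.1 1 ≤ 0 → ¬ b.1 1 ≤ 0 →
      dist (f (pinch a)) (g (pinch b)) ≤ |L| * (C + (k + 2) * 2) * dist a b := fun a b ha hb => by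
    have h1 := (hf' (pinch a) (base k)).trans (mul_le_mul_of_nonneg_left (dist_base a) hL)
    have h2 := (hg' (pinch b) (base k)).trans (mul_le_mul_of_nonneg_left (dist_base b) hL)
    have h3 := SphC.abs_sub_le a b 1
    rw [abs_of_nonpos (by linarith only [ha, hb, not_le.1 hb])] at h3
    rw [hfy, abs_of_nonpos ha] at h1
    rw [hgy, abs_of_pos (not_le.1 hb)] at h2
    have h4 := mul_le_mul_of_nonneg_left h3 (mul_nonneg hL hk)
    have h5 := mul_nonneg (mul_nonneg hL hC) (dist_nonneg (x := a) (y := b))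
    linarith only [h1, h2, h4, h5, dist_triangle_right (f (pinch a)) (g (pinch b)) y]
  have hm : |L| * C ≤ |L| * (C + (k + 2) * 2) := mul_le_mul_of_nonneg_left (by linarith) hL
  refine ⟨|L| * (C + (k + 2) * 2), by positivity, fun a b => ?_⟩
  simp only [concat]
  split_ifs with ha hb hb
  · exact (hf'.comp hp hL).mono hm a b
  · exact key a b ha hb
  · rw [dist_comm, dist_comm a]
    exact key b a hb ha
  · exact (hg'.comp hp hL).mono hm a b

namespace SphC

/-- The homotopy on one half of the cube. -/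
theorem half {σ : ℝ} (hσ : |σ| = 1) {φ : ℝ → ℝ} (hφ : Lip 1 φ) (h1 : ∀ t, σ * φ t ≤ 0)
    (h2 : ∀ t, φ t = t ∨ φ t = 0) :
    ∃ (G : D (k + 1) × ℝ → Sph k) (L : ℝ), 0 ≤ L ∧ Lip L G ∧
      (∀ x t, φ (x 0) = x 0 → t ≤ 0 → G (x, t) = pinch (qS x)) ∧
      (∀ x t, φ (x 0) = x 0 → 1 ≤ t → G (x, t) = qS (Function.update x 0 (2 * x 0 + σ))) ∧
      ∀ x t, 1 ≤ ‖x‖ ∨ x 0 = 0 → G (x, t) = base k := by
  obtain ⟨C, hC, hp⟩ := lip_pinch (k := k)
  obtain ⟨Q, hQ, hq, -⟩ := item_qS (k := k)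
  let A : D (k + 1) → D (k + 1) := fun x => Function.update x 0 (φ (x 0))
  have hA : Lip 1 A := lip_update le_rfl hφ
  have A0 : ∀ x, A x 0 = φ (x 0) := fun x => Function.update_self ..
  have A1 : ∀ x, φ (x 0) = x 0 → A x = x := fun x e => by
    simp only [A, e, Function.update_eq_self]
  have A2 : ∀ x, 1 ≤ ‖x‖ ∨ x 0 = 0 → 1 ≤ ‖A x‖ ∨ A x 0 = 0 := fun x h => by
    rcases h2 (x 0) with e | e
    · rwa [A1 x e]
    · exact Or.inr ((A0 x).trans e)
  have B : ∀ x, 1 ≤ ‖A x‖ ∨ A x 0 = 0 → pinch (qS (A x)) = base k ∧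
      qS (Function.update (A x) 0 (2 * A x 0 + σ)) = base k := fun x h =>
    ⟨pinch_of_eq_zero (qS1_zero h), qS_base (one_le_norm hσ h)⟩
  have l1 := (hp.comp (hq.comp hA hQ) hC).mono (le_max_left _ (Q * (2 * 1)))
  have l2 := (hq.comp ((lip_update one_le_two (lip_aff σ)).comp hA zero_le_two) hQ).mono
    (le_max_right (C * (Q * 1)) _)
  obtain ⟨G, L, g0, g1, g2, g3, g4⟩ := exists_sphere_segment l1 l2 (isCompact_closedBall 0 1)
    (fun x _ => by
      by_cases h : 1 ≤ ‖A x‖ ∨ A x 0 = 0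
      · rw [(B x h).1, (B x h).2]
        intro e
        have := congrArg (fun v => v.ofLp 0) e
        simp [base] at this
      · rw [not_or] at h
        exact not_antipodal hσ (by rw [A0]; exact h1 _) (not_le.1 h.1) h.2)
    fun x hx => by
      have h := B x (A2 x (Or.inl (not_le.1 (mt mem_closedBall_zero_iff.2 hx)).le))
      exact h.2.trans h.1.symm
  refine ⟨G, L, g0, g1, fun x t e ht => ?_, fun x t e ht => ?_, fun x t h => ?_⟩
  · rw [g2 x t ht, A1 x e]
  · rw [g3 x t ht, A1 x e]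
  · have h := B x (A2 x h)
    exact (g4 x t (h.2.trans h.1.symm)).trans h.1

theorem cont0 : Continuous fun a : D (k + 1) × ℝ => a.1 0 :=
  (continuous_apply 0).comp continuous_fst

theorem hty_trans {n : ℕ} {U : Set (D n)} {u v w : D n → Z}
    (h : ∃ L, 0 ≤ L ∧ Hty L 0 1 U u v) (h' : ∃ L, 0 ≤ L ∧ Hty L 0 1 U v w) :
    ∃ L, 0 ≤ L ∧ Hty L 0 1 U u w := by
  obtain ⟨L, a, b⟩ := h
  obtain ⟨L', a', b'⟩ := h'
  have h := ((b.mono (le_add_of_nonneg_right a') le_rfl le_rfl subset_rfl).trans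
    (b'.mono (le_add_of_nonneg_left a) le_rfl le_rfl subset_rfl) (add_nonneg a a') zero_le_one
    zero_le_one).speed (add_nonneg a a') one_pos (by norm_num)
  rw [add_zero] at h
  exact ⟨_, by positivity, h⟩

theorem hty_left {u u' v : D (k + 1) → Z} {y : Z} {L L' : ℝ} (hL : 0 ≤ L) (hL' : 0 ≤ L')
    (h : Hty L 0 1 (ball 0 1) u u') (hu : ∀ x, 1 ≤ ‖x‖ → u x = y) (hv : Item y L' v) :
    ∃ L'', 0 ≤ L'' ∧ Hty L'' 0 1 (ball 0 1) (concatD u v) (concatD u' v) := by
  obtain ⟨H, h0, h1, h2, h3⟩ := h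
  have p1 : Lip 2 fun a : D (k + 1) × ℝ => (Function.update a.1 0 (2 * a.1 0 + 1), a.2) :=
    fun a b => by
      have d0 : 0 ≤ dist a b := dist_nonneg
      have d1 : dist a.1 b.1 ≤ dist a b := le_max_left _ _
      have d2 : dist a.2 b.2 ≤ dist a b := le_max_right _ _
      have d3 := lip_update one_le_two (lip_aff 1) a.1 b.1
      exact max_le (by linarith) (by linarith)
  have p2 : Lip 2 fun a : D (k + 1) × ℝ => Function.update a.1 0 (2 * a.1 0 + -1) :=
    fun a b => by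
      have d1 : dist a.1 b.1 ≤ dist a b := le_max_left _ _
      have d3 := lip_update one_le_two (lip_aff (-1)) a.1 b.1
      linarith
  have out : ∀ (x : D (k + 1)) t, 1 ≤ ‖x‖ → H (x, t) = u x := fun x t hx =>
    h3 x t fun e => not_lt.2 hx (mem_ball_zero_iff.1 e)
  refine ⟨(L + L') * 2, by positivity, _, lip_iff_aLip.1 (glue2 cont0 (by positivity)
    (((lip_iff_aLip.2 h0).mono (le_add_of_nonneg_right hL')).comp p1 (add_nonneg hL hL'))
    ((hv.1.mono (le_add_of_nonneg_left hL)).comp p2 (add_nonneg hL hL')) fun a e => ?_),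
    fun x t ht => ?_, fun x t ht => ?_, fun x t hx => ?_⟩
  · have a1 := one_le_norm abs_one (Or.inr e)
    rw [out _ _ a1, hu _ a1, hv.2 _ (one_le_norm (by simp) (Or.inr e))]
  · simp only [concatD, h1 _ t ht, sub_eq_add_neg]
  · simp only [concatD, h2 _ t ht, sub_eq_add_neg]
  · simp only [concatD, sub_eq_add_neg,
      out _ t (one_le_norm abs_one (Or.inl (not_lt.1 (mt mem_ball_zero_iff.2 hx))))]

end SphC

theorem hty_concat {f g : Sph k → Z} {y : Z} {L : ℝ} (hf : Lip L f) (hg : Lip L g)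
    (hfy : f (base k) = y) (hgy : g (base k) = y) :
    ∃ L', 0 ≤ L' ∧ Hty L' 0 1 (ball 0 1) (fun x => concat f g (qS x))
      (concatD (fun x => f (qS x)) fun x => g (qS x)) := by
  obtain ⟨G, C, c0, c1, c2, c3, c4⟩ := half (k := k) abs_one (φ := fun t => min t 0)
    (fun a b => by simpa using (LipschitzWith.id.min_const (0 : ℝ)).dist_le_mul a b)
    (fun t => by simp) fun t => by rcases le_total t 0 with h | h <;> simp [h]
  obtain ⟨G', C', d0, d1, d2, d3, d4⟩ := half (k := k) (σ := -1) (by simp) (φ := fun t => max t 0)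
    (fun a b => by simpa using (LipschitzWith.id.max_const (0 : ℝ)).dist_le_mul a b)
    (fun t => by simp) fun t => by rcases le_total t 0 with h | h <;> simp [h]
  have hL := abs_nonneg L
  have e1 : ∀ x : D (k + 1), x 0 ≤ 0 → concat f g (qS x) = f (pinch (qS x)) := fun x h =>
    if_pos ((qS1_sign x).1 h)
  have e2 : ∀ x : D (k + 1), 0 ≤ x 0 → concat f g (qS x) = g (pinch (qS x)) := fun x h => by
    rw [concat]
    split_ifs with h'
    · rw [pinch_of_eq_zero (le_antisymm h' ((qS1_sign x).2 h)), hfy, hgy]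
    · rfl
  refine ⟨|L| * (C + C'), by positivity, _, lip_iff_aLip.1 (glue2 cont0 (by positivity)
    ((hf.mono (le_abs_self L)).comp (c1.mono (le_add_of_nonneg_right d0)) hL)
    ((hg.mono (le_abs_self L)).comp (d1.mono (le_add_of_nonneg_left c0)) hL) fun a e => ?_),
    fun x t ht => ?_, fun x t ht => ?_, fun x t hx => ?_⟩
  · rw [c4 a.1 a.2 (Or.inr e), d4 a.1 a.2 (Or.inr e), hfy, hgy]
  · simp only
    split_ifs with h
    · rw [c2 x t (min_eq_left h) ht, e1 x h]
    · rw [d2 x t (max_eq_left (not_le.1 h).le) ht, e2 x (not_le.1 h).le]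
  · simp only [concatD]
    split_ifs with h
    · rw [c3 x t (min_eq_left h) ht]
    · rw [d3 x t (max_eq_left (not_le.1 h).le) ht, sub_eq_add_neg]
  · have h := not_lt.1 (mt mem_ball_zero_iff.2 hx)
    simp only [c4 x t (Or.inl h), d4 x t (Or.inl h), qS_base h, hfy, hgy, ite_self,
      (lip_concat hf hg hfy hgy).2]

theorem hty_pow {f : Sph k → Z} {y : Z} {L : ℝ} (hf : Lip L f) (hfy : f (base k) = y) (m : ℕ) :
    ∃ L', 0 ≤ L' ∧ Hty L' 0 1 (ball 0 1) (fun x => Stmt.pow y f m (qS x))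
      (powD y (fun x => f (qS x)) m) := by
  have key : ∀ m, (∃ L', 0 ≤ L' ∧ Lip L' (Stmt.pow y f m)) ∧ Stmt.pow y f m (base k) = y := by
    intro m
    induction m with
    | zero => exact ⟨⟨0, le_rfl, lip_const le_rfl y⟩, rfl⟩
    | succ m ih =>
      obtain ⟨⟨L', -, h1⟩, h2⟩ := ih
      exact lip_concat (h1.mono (le_max_left L' L)) (hf.mono (le_max_right L' L)) h2 hfy
  obtain ⟨Q, hQ, hq, hq'⟩ := item_qS (k := k)
  induction m with
  | zero => exact ⟨0, le_rfl, Hty.refl (lip_const le_rfl y) le_rfl le_rfl⟩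
  | succ m ih =>
    obtain ⟨⟨L', -, h1⟩, h2⟩ := key m
    obtain ⟨L'', h3, h4⟩ := ih
    exact hty_trans
      (hty_concat (h1.mono (le_max_left L' L)) (hf.mono (le_max_right L' L)) h2 hfy)
      (hty_left h3 (mul_nonneg (abs_nonneg L) hQ) h4 (fun x hx => by rw [hq' x hx, h2])
        ⟨(hf.mono (le_abs_self L)).comp hq (abs_nonneg L), fun x hx => (congrArg f (hq' x hx)).trans hfy⟩)

end Pool.Agent.Work.MP_4b5e6c_gt
end

-- merged part: Pool.Agent.Work.MP_4b5e6c_gt.Final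
section
/-! Task FINAL: from the model of items to spheres. -/

namespace Pool.Agent.Work.MP_4b5e6c_gt
open Stmt

namespace Final

theorem lip_of_isLip {A : Type} [PseudoMetricSpace A] {n : ℕ} {f : A → H n} (h : IsLip f) :
    ∃ L : ℝ, 0 ≤ L ∧ Lip L fun a => toHeis (f a) := by
  obtain ⟨L, hL⟩ := h
  refine ⟨L, L.2, fun a b => ?_⟩
  have := (le_dcc n (f a) (f b)).trans (hL a b)
  rwa [edist_dist, ← ENNReal.ofReal_coe_nnreal, ← ENNReal.ofReal_mul L.coe_nonneg,
    ENNReal.ofReal_le_ofReal_iff (by positivity)] at this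

theorem isLip_of_lip {A : Type} [PseudoMetricSpace A] {n : ℕ} {f : A → H (n + 1)} {L : ℝ}
    (h : Lip L fun a => toHeis (f a)) : IsLip f := by
  obtain ⟨C, hC, e⟩ := dcc_le n
  have h0 : 0 ≤ C * max L 0 := by positivity
  refine ⟨⟨C * max L 0, h0⟩, fun a b => (e _ _).trans ?_⟩
  rw [edist_dist, ← ENNReal.ofReal_coe_nnreal, ← ENNReal.ofReal_mul (NNReal.coe_nonneg _)]
  refine ENNReal.ofReal_le_ofReal ?_
  change _ ≤ C * max L 0 * dist a b
  rw [mul_assoc]
  exact mul_le_mul_of_nonneg_left (h.mono (le_max_left L 0) a b) hC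

theorem map_pow {k : ℕ} {Z Z' : Type} (g : Z → Z') (p : Z) (f : Sph k → Z) (m : ℕ) (x : Sph k) :
    g (Stmt.pow p f m x) = Stmt.pow (g p) (fun a => g (f a)) m x := by
  induction m generalizing x with
  | zero => rfl
  | succ m ih => simp only [Stmt.pow, concat, apply_ite g, ih]

/-- A based homotopy of spheres gives a homotopy of items. -/
theorem hty_of_homotopic {k n : ℕ} {p : H n} {f g : Sph k → H n} (h : Homotopic p f g) :
    ∃ L, 0 ≤ L ∧ Hty L 0 1 (Metric.ball 0 1) (fun x : D (k + 1) => toHeis (f (qS x)))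
      fun x => toHeis (g (qS x)) := by
  obtain ⟨F, hF, h0, h1, hb⟩ := h
  obtain ⟨L, hL, hF⟩ := lip_of_isLip hF
  obtain ⟨Q, hQ, q1, q2⟩ := item_qS (k := k)
  have lip : Lip (Q + 1) fun z : D (k + 1) × ℝ =>
      ((qS z.1, Set.projIcc 0 1 zero_le_one z.2) : Sph k × unitInterval) := fun z z' => by
    have d1 : dist z.1 z'.1 ≤ dist z z' := le_max_left _ _
    have d2 : dist z.2 z'.2 ≤ dist z z' := le_max_right _ _
    have d3 := (LipschitzWith.projIcc (zero_le_one : (0 : ℝ) ≤ 1)).dist_le_mul z.2 z'.2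
    have d4 := mul_le_mul_of_nonneg_left d1 hQ
    have d5 := q1 z.1 z'.1
    have d6 : 0 ≤ dist z z' := dist_nonneg
    have d7 := mul_nonneg hQ d6
    rw [NNReal.coe_one, one_mul] at d3
    rw [Prod.dist_eq]
    exact max_le (by linarith) (by linarith)
  refine ⟨L * (Q + 1), by positivity,
    fun z => toHeis (F (qS z.1, Set.projIcc 0 1 zero_le_one z.2)),
    lip_iff_aLip.1 (hF.comp lip hL), fun x t ht => ?_, fun x t ht => ?_, fun x t hx => ?_⟩
  · simp only [Set.projIcc_of_le_left _ ht]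
    exact congrArg toHeis (h0 _)
  · simp only [Set.projIcc_of_right_le _ ht]
    exact congrArg toHeis (h1 _)
  · have e : qS x = base k := q2 x (by simpa using hx)
    simp only [e, hb, ← h0]

end Final

open Final

theorem final_of_tf (n : ℕ) (htf : TF n (Heis (n + 1))) (p : H (n + 1)) (f : Sph n → H (n + 1))
    (hf : IsLoop p f) (m : ℕ) (hm : 1 ≤ m) (h : Homotopic p (Stmt.pow p f m) fun _ => p) :
    Homotopic p f fun _ => p := by
  obtain ⟨L, hL, hl⟩ := lip_of_isLip hf.1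
  have hb : toHeis (f (base n)) = toHeis p := congrArg toHeis hf.2
  obtain ⟨Q, hQ, q1, q2⟩ := item_qS (k := n)
  obtain ⟨L₁, hL₁, H₁⟩ := hty_pow hl hb m
  obtain ⟨L₂, hL₂, H₂⟩ := hty_of_homotopic h
  simp only [map_pow toHeis] at H₂
  have H₃ := ((H₁.symm.mono (le_max_left L₁ L₂) le_rfl le_rfl subset_rfl).trans
    (H₂.mono (le_max_right L₁ L₂) le_rfl le_rfl subset_rfl) (le_max_of_le_left hL₁) zero_le_one
    zero_le_one).speed (le_max_of_le_left hL₁) one_pos (by norm_num)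
  rw [add_zero] at H₃
  obtain ⟨L₃, H₄⟩ := htf (toHeis p) (L * Q) (fun x => toHeis (f (qS x))) m hm
    ⟨hl.comp q1 hL, fun x hx => by simp only [q2 x hx, hb]⟩ ⟨_, H₃⟩
  obtain ⟨F, L₄, F1, F2, F3, F4⟩ := descend hl hb H₄
  refine ⟨fun z => ((F (z.1, z.2)).x, (F (z.1, z.2)).y, (F (z.1, z.2)).t),
    isLip_of_lip (L := L₄) fun z z' => F1 (z.1, z.2) (z'.1, z'.2), fun a => ?_, fun a => ?_,
    fun τ => ?_⟩
  · simp only [Set.Icc.coe_zero, F2]
    rfl
  · simp only [Set.Icc.coe_one, F3]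
    rfl
  · simp only [F4]
    rfl

end Pool.Agent.Work.MP_4b5e6c_gt
end
end
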