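import Pool.Agent.Work.MP_4b5e6c_gt.Rearr
import Pool.Agent.Work.MP_4b5e6c_gt.Bary

-- merged part: Pool.Agent.Work.MP_4b5e6c_gt.KillB
section
-- merged part: Pool.Agent.Work.MP_4b5e6c_gt.Route1
section
/-! Tools for routing: rigid motions of containers and parallel work in disjoint cubes. -/

namespace Pool.Agent.Work.MP_4b5e6c_gt
open Metric Set

namespace Route

variable {n : ℕ} {Z I O : Type}

/-- The position of `A` in the coordinates in which `W` is the unit ball. -/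
noncomputable def rel (W A : DC n) : Pos n := ((W.side / 2)⁻¹ • (A.c - W.c), A.side / W.side)

theorem half_pos (W : DC n) : 0 < W.pos.2 := _root_.half_pos W.side_pos

theorem mem_comp (Q R : Pos n) (hQ : 0 < Q.2) (z : D n) :
    Q.1 + Q.2 • z ∈ (Q.comp R).op ↔ z ∈ R.op := by
  simp only [Pos.op, Pos.comp, mem_ball, dist_add_left]
  rw [dist_smul₀, Real.norm_of_nonneg hQ.le, mul_lt_mul_iff_right₀ hQ]

theorem exists_coord (Q : Pos n) (hQ : 0 < Q.2) (x : D n) : ∃ z, x = Q.1 + Q.2 • z :=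
  ⟨Q.2⁻¹ • (x - Q.1), by rw [smul_inv_smul₀ hQ.ne', add_sub_cancel]⟩

theorem comp_rel (W A : DC n) : W.pos.comp (rel W A) = A.pos := by
  have h := W.side_pos
  refine Prod.ext ?_ ?_
  · show W.c + (W.side / 2) • (W.side / 2)⁻¹ • (A.c - W.c) = A.c
    rw [smul_inv_smul₀ (by positivity), add_sub_cancel]
  · show W.side / 2 * (A.side / W.side) = A.side / 2
    field_simp

theorem comp_rel_self (Q : Pos n) (W : DC n) : Q.comp (rel W W) = Q := by
  have h := W.side_pos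
  refine Prod.ext ?_ ?_
  · simp [Pos.comp, rel]
  · simp [Pos.comp, rel, h.ne']

theorem rel_pos (W A : DC n) : 0 < (rel W A).2 := div_pos A.side_pos W.side_pos

theorem rel_sub {W A : DC n} (h : A.Sub W) : (rel W A).op ⊆ ball 0 1 := by
  intro z hz
  have h1 := (mem_comp W.pos _ (half_pos W) z).2 hz
  rw [comp_rel] at h1
  have h2 : W.pos.1 + W.pos.2 • z ∈ (W.pos.comp (0, 1)).op := by
    have h3 : W.pos.comp (0, 1) = W.pos := by simp [Pos.comp, DC.pos]
    rw [h3]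
    exact h h1
  exact ((mem_comp W.pos (0, 1) (half_pos W) z).1 h2 :)

theorem rel_disj (W : DC n) {A A' : DC n} (h : A.Disj A') :
    Disjoint (rel W A).op (rel W A').op := by
  refine Set.disjoint_left.2 fun z hz hz' => ?_
  have h1 := (mem_comp W.pos _ (half_pos W) z).2 hz
  have h2 := (mem_comp W.pos _ (half_pos W) z).2 hz'
  rw [comp_rel] at h1 h2
  exact Set.disjoint_left.1 h h1 h2

theorem comp_disj (Q : Pos n) (hQ : 0 < Q.2) {R R' : Pos n} (h : Disjoint R.op R'.op) :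
    Disjoint (Q.comp R).op (Q.comp R').op := by
  refine Set.disjoint_left.2 fun x hx hx' => ?_
  obtain ⟨z, rfl⟩ := exists_coord Q hQ x
  exact Set.disjoint_left.1 h ((mem_comp Q _ hQ z).1 hx) ((mem_comp Q _ hQ z).1 hx')

/-- Translation of a subcube. -/
theorem exists_tr (hn : 1 ≤ n) {W W' A : DC n} (h : W'.j = W.j) (hA : A.Sub W) :
    ∃ B : DC n, B.j = A.j ∧ B.pos = W'.pos.comp (rel W A) := by
  obtain ⟨m, hm⟩ : ∃ m : ℕ, A.j = W.j + m := ⟨(A.j - W.j).toNat, by have := hA.j_le hn; omega⟩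
  have h1 := DC.side_of_j_add hm
  have h2 := DC.side_eq_of_j h
  have h3 := W.side_pos
  refine ⟨⟨A.j, fun i => A.k i + 2 ^ m * (W'.k i - W.k i)⟩, rfl, Prod.ext ?_ ?_⟩
  · funext i
    show (((A.k i + 2 ^ m * (W'.k i - W.k i) : ℤ) : ℝ) + 1 / 2) * A.side =
      (W'.c + (W'.side / 2) • (W.side / 2)⁻¹ • (A.c - W.c)) i
    rw [h2, smul_inv_smul₀ (by positivity)]
    simp only [DC.c, Pi.add_apply, Pi.sub_apply, h1, h2]
    push_cast
    field_simp
    ring
  · show A.side / 2 = W'.side / 2 * (A.side / W.side)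
    rw [h2]
    field_simp

theorem slots (hn : 1 ≤ n) (Q : DC n) (t : Finset O) (r : ℕ) (h : t.card ≤ 2 ^ (r * n)) :
    ∃ f : O → DC n, (∀ o, (f o).j = Q.j + r) ∧ Pack Q t f := by
  refine exists_pack hn Q t (fun _ => Q.j + r) ?_
  have h1 : (2 : ℝ) ^ (-(Q.j + r)) = Q.side / 2 ^ r :=
    DC.side_of_j_add (Q := ⟨Q.j + r, Q.k⟩) rfl
  have h2 : (t.card : ℝ) ≤ (2 ^ r) ^ n := by
    rw [← pow_mul]
    exact_mod_cast h
  have h3 := Q.side_pos
  rw [Finset.sum_const, nsmul_eq_mul, h1, div_pow, ← mul_div_assoc, div_le_iff₀ (by positivity),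
    mul_comm]
  exact mul_le_mul_of_nonneg_left h2 (by positivity)

theorem card_le {Q : DC n} {t : Finset O} {f : O → DC n} (h : Pack Q t f) (r : ℕ)
    (hj : ∀ o ∈ t, (f o).j ≤ Q.j + r) : t.card ≤ 2 ^ (r * n) := by
  have h1 : (⟨Q.j + r, Q.k⟩ : DC n).side = Q.side / 2 ^ r := DC.side_of_j_add rfl
  have h3 := Q.side_pos
  have h2 : (t.card : ℝ) * (Q.side / 2 ^ r) ^ n ≤ Q.side ^ n := by
    refine le_trans ?_ h.sum_le
    rw [← nsmul_eq_mul, ← Finset.sum_const]
    refine Finset.sum_le_sum fun o ho => pow_le_pow_left₀ (by positivity) ?_ _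
    rw [← h1]
    exact DC.side_le_side_iff.2 (hj o ho)
  rw [div_pow, ← mul_div_assoc, div_le_iff₀ (by positivity), mul_comm,
    mul_le_mul_iff_right₀ (by positivity), ← pow_mul] at h2
  exact_mod_cast h2

/-- The items sit at `A0 i` in the reference cubes `X (c i)`. -/
structure Sys (s : Finset I) (c : I → O) (X : O → DC n) (A0 : I → DC n) : Prop where
  sub : ∀ i ∈ s, (A0 i).Sub (X (c i))
  disj : ∀ i ∈ s, ∀ i' ∈ s, i ≠ i' → c i = c i' → (A0 i).Disj (A0 i')

/-- A placement of the containers. -/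
structure Plc (ν : ℝ) (C0 : DC n) (s : Finset I) (c : I → O) (X W : O → DC n) : Prop where
  sub : ∀ i ∈ s, (W (c i)).Sub C0
  disj : ∀ i ∈ s, ∀ i' ∈ s, c i ≠ c i' → (W (c i)).Disj (W (c i'))
  size : ∀ i ∈ s, (X (c i)).side ≤ ν * (W (c i)).side

/-- The positions of the items for a placement of the containers. -/
noncomputable def cfg (c : I → O) (X : O → DC n) (A0 : I → DC n) (W : O → DC n) (i : I) : Pos n :=
  (W (c i)).pos.comp (rel (X (c i)) (A0 i))

variable {ν L : ℝ} {C0 : DC n} {s : Finset I} {c : I → O} {X W W' : O → DC n} {A0 : I → DC n}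
  {y : Z} {e : I → D n → Z}

theorem cfg_sub (hS : Sys s c X A0) {i : I} (hi : i ∈ s) :
    (cfg c X A0 W i).op ⊆ (W (c i)).op :=
  Pos.comp_op_subset _ _ (half_pos _) (rel_sub (hS.sub i hi))

theorem plc_mix {Z0 Z1 : DC n} (h : Plc ν C0 s c X W) (h1 : ∀ i ∈ s, (W (c i)).Sub Z1)
    (h01 : Z0.Disj Z1) (h0 : Z0.Sub C0) (act : I → Prop)
    (hna : ∀ i ∈ s, ¬ act i → W' (c i) = W (c i))
    (ha : ∀ i ∈ s, act i → (W' (c i)).Sub Z0 ∧ (X (c i)).side ≤ ν * (W' (c i)).side)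
    (hd : ∀ i ∈ s, ∀ i' ∈ s, act i → act i' → c i ≠ c i' → (W' (c i)).Disj (W' (c i'))) :
    Plc ν C0 s c X W' := by
  refine ⟨fun i hi => ?_, fun i hi i' hi' hne => ?_, fun i hi => ?_⟩
  · by_cases a : act i
    · exact (ha i hi a).1.trans h0
    · exact hna i hi a ▸ h.sub i hi
  · by_cases a : act i <;> by_cases a' : act i'
    · exact hd i hi i' hi' a a' hne
    · exact hna i' hi' a' ▸ h01.mono (ha i hi a).1 (h1 i' hi')
    · exact hna i hi a ▸ h01.symm.mono (h1 i hi) (ha i' hi' a').1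
    · rw [hna i hi a, hna i' hi' a']
      exact h.disj i hi i' hi' hne
  · by_cases a : act i
    · exact (ha i hi a).2
    · exact hna i hi a ▸ h.size i hi

theorem ins_local {b : D n → Z} {t : Finset I} {P : I → Pos n} (h : Arr s P) (hts : t ⊆ s)
    {x : D n} (hx : ∀ i ∈ s, x ∈ (P i).op → i ∈ t) : ins b s P e x = ins b t P e x := by
  by_cases h1 : ∃ i ∈ s, x ∈ (P i).op
  · obtain ⟨i, hi, h2⟩ := h1
    rw [ins_of_mem h hi h2, ins_of_mem (h.subset hts) (hx i hi h2) h2]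
  · rw [ins_of_not_mem fun i hi h2 => h1 ⟨i, hi, h2⟩,
      ins_of_not_mem fun i hi h2 => h1 ⟨i, hts hi, h2⟩]

variable [MetricSpace Z]

theorem item_cfg (hL : 0 ≤ L) (hP : Plc ν C0 s c X W)
    (he : ∀ i ∈ s, Item y (L * ((A0 i).side / 2)) (e i)) {i : I} (hi : i ∈ s) :
    Item y (ν * L * (W (c i)).pos.2 * (rel (X (c i)) (A0 i)).2) (e i) := by
  refine (he i hi).mono ?_
  have h1 := hP.size i hi
  have h2 := (X (c i)).side_pos
  have h3 := (A0 i).side_pos
  show _ ≤ ν * L * ((W (c i)).side / 2) * ((A0 i).side / (X (c i)).side)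
  rw [← mul_div_assoc (ν * L * _), le_div_iff₀ h2]
  have := mul_le_mul_of_nonneg_left h1 (show 0 ≤ L * ((A0 i).side / 2) by positivity)
  linarith only [this]

theorem fit_cfg (hL : 0 ≤ L) (hS : Sys s c X A0) (hP : Plc ν C0 s c X W)
    (he : ∀ i ∈ s, Item y (L * ((A0 i).side / 2)) (e i)) :
    Fit (ν * L) (fun _ => y) s (cfg c X A0 W) e := by
  refine ⟨⟨fun i _ => mul_pos (half_pos _) (rel_pos _ _), fun i hi i' hi' hne => ?_⟩,
    fun i hi => ?_, fun _ _ _ _ => rfl⟩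
  · by_cases h : c i = c i'
    · unfold cfg
      rw [← h]
      exact comp_disj _ (half_pos _) (rel_disj _ (hS.disj i hi i' hi' hne h))
    · exact Disjoint.mono (cfg_sub hS hi) (cfg_sub hS hi') (hP.disj i hi i' hi' h)
  · have := item_cfg hL hP he hi
    rwa [mul_assoc (ν * L)] at this

open Classical in
theorem nest (hL : 0 ≤ L) (hν : 0 ≤ ν) (hS : Sys s c X A0) (hP : Plc ν C0 s c X W)
    (he : ∀ i ∈ s, Item y (L * ((A0 i).side / 2)) (e i)) :
    Fit (ν * L) (fun _ => y) (s.image c) (fun o => (W o).pos)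
      (fun o => ins (fun _ => y) (s.filter (c · = o)) (fun i => rel (X (c i)) (A0 i)) e) ∧
    ins (fun _ => y) (s.image c) (fun o => (W o).pos)
      (fun o => ins (fun _ => y) (s.filter (c · = o)) (fun i => rel (X (c i)) (A0 i)) e) =
      ins (fun _ => y) s (cfg c X A0 W) e := by
  have a1 : Arr (s.image c) fun o => (W o).pos := by
    refine ⟨fun o _ => half_pos _, fun o ho o' ho' hne => ?_⟩
    obtain ⟨i, hi, rfl⟩ := Finset.mem_image.1 ho
    obtain ⟨i', hi', rfl⟩ := Finset.mem_image.1 ho'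
    exact hP.disj i hi i' hi' hne
  have a2 : ∀ o, Arr (s.filter (c · = o)) fun i => rel (X (c i)) (A0 i) := by
    refine fun o => ⟨fun i _ => rel_pos _ _, fun i hi i' hi' hne => ?_⟩
    rw [Finset.mem_filter] at hi hi'
    have h := hi.2.trans hi'.2.symm
    simp only [← h]
    exact rel_disj _ (hS.disj i hi.1 i' hi'.1 hne h)
  have a3 : ∀ o, ∀ i ∈ s.filter (c · = o), (rel (X (c i)) (A0 i)).op ⊆ ball 0 1 :=
    fun o i hi => rel_sub (hS.sub i (Finset.mem_filter.1 hi).1)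
  have hf := fit_cfg hL hS hP he
  refine ⟨⟨a1, fun o _ => ?_, fun _ _ _ _ => rfl⟩, ?_⟩
  · refine Fit.item_ins ⟨a2 o, fun i hi => ?_, fun _ _ _ _ => rfl⟩
      (mul_nonneg (mul_nonneg hν hL) (half_pos _).le) (a3 o)
    obtain ⟨hi', rfl⟩ := Finset.mem_filter.1 hi
    exact item_cfg hL hP he hi'
  · rw [ins_nest (fun o => s.filter (c · = o)) (fun _ i => rel (X (c i)) (A0 i)) (fun _ => e)
      (fun _ => y) a1 (fun o _ => a2 o) (fun o _ => a3 o) fun _ _ _ _ => rfl,
      ins_reindex hf.arr ((s.image c).sigma fun o => s.filter (c · = o)) (fun k => k.2)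
        (fun k hk => (Finset.mem_filter.1 (Finset.mem_sigma.1 hk).2).1)
        fun i hi => ⟨⟨c i, i⟩, Finset.mem_sigma.2 ⟨Finset.mem_image_of_mem _ hi,
          Finset.mem_filter.2 ⟨hi, rfl⟩⟩, rfl⟩]
    refine ins_congr (arr_nest _ _ a1 (fun o _ => a2 o) fun o _ => a3 o) (fun k hk => ?_)
      fun _ _ => rfl
    have := (Finset.mem_filter.1 (Finset.mem_sigma.1 hk).2).2
    simp only [cfg, this]

/-- Finite rearrangement with the constant `C` for `M` items. -/
def Fr (n M : ℕ) (C : ℝ) : Prop :=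
  ∀ (Z : Type) [MetricSpace Z] (I : Type) (s : Finset I) (y : Z) (L : ℝ) (P P' : I → Pos n)
    (e : I → D n → Z) (P0 : Pos n), 0 ≤ L → s.card ≤ M → 0 < P0.2 →
    Fit L (fun _ => y) s P e → Fit L (fun _ => y) s P' e →
    (∀ i ∈ s, (P i).op ⊆ P0.op ∧ (P' i).op ⊆ P0.op) →
    Hty (C * L) 0 P0.2 P0.op (ins (fun _ => y) s P e) (ins (fun _ => y) s P' e)

open Classical in
/-- Rigid motion of boundedly many containers, in time `side / 2 ^ (r + 1)`. -/
theorem rigid {M : ℕ} {C : ℝ} (hC : 1 ≤ C) (hFr : Fr n M C) (r : ℕ) (hL : 0 ≤ L) (hν : 0 ≤ ν)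
    {t : Finset O} (ht : ∀ i ∈ s, c i ∈ t) (hM : t.card ≤ M) (hS : Sys s c X A0) (hP : Plc ν C0 s c X W)
    (hP' : Plc ν C0 s c X W') (he : ∀ i ∈ s, Item y (L * ((A0 i).side / 2)) (e i)) :
    Hty (C * ν * 2 ^ r * L) 0 (C0.side / 2 ^ (r + 1)) C0.op (ins (fun _ => y) s (cfg c X A0 W) e)
      (ins (fun _ => y) s (cfg c X A0 W') e) := by
  obtain ⟨f1, e1⟩ := nest hL hν hS hP he
  obtain ⟨f2, e2⟩ := nest hL hν hS hP' he
  have h := hFr Z O _ y (ν * L) _ _ _ C0.pos (mul_nonneg hν hL)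
    ((Finset.card_le_card (Finset.image_subset_iff.2 ht)).trans hM) (half_pos _) f1 f2 (by
    intro o ho
    obtain ⟨i, hi, rfl⟩ := Finset.mem_image.1 ho
    exact ⟨hP.sub i hi, hP'.sub i hi⟩)
  rw [e1, e2] at h
  have h0 := C0.side_pos
  have h2 := h.speed (T' := C0.side / 2 ^ (r + 1)) (by positivity) (by positivity) (by
    show _ ≤ C0.side / 2
    refine div_le_div_of_nonneg_left h0.le (by norm_num) ?_
    exact le_self_pow₀ (by norm_num) (by omega))
  refine h2.mono (le_of_eq ?_) le_rfl le_rfl subset_rfl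
  show C * (ν * L) * (C0.side / 2 / (C0.side / 2 ^ (r + 1))) = _
  field_simp
  ring

open Classical in
/-- Parallel work in disjoint cubes. -/
theorem par {Λ T : ℝ} {P P' : I → Pos n} (hΛ : 0 ≤ Λ) (hP : Fit Λ (fun _ => y) s P e)
    (hP' : Arr s P') (act : I → Prop) (w : I → DC n)
    (ha : ∀ i ∈ s, act i → (w i).Sub C0 ∧ (P i).op ⊆ (w i).op ∧ (P' i).op ⊆ (w i).op)
    (hd : ∀ i ∈ s, ∀ i' ∈ s, act i → act i' → w i ≠ w i' → (w i).Disj (w i'))
    (hna : ∀ i ∈ s, ¬ act i → P i = P' i ∧ ∀ i' ∈ s, act i' → Disjoint (P i).op (w i').op)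
    (h : ∀ i ∈ s, act i → ∀ t : Finset I, (∀ j ∈ t, j ∈ s ∧ act j ∧ w j = w i) →
      Hty Λ 0 T (w i).op (ins (fun _ => y) t P e) (ins (fun _ => y) t P' e)) :
    Hty Λ 0 T C0.op (ins (fun _ => y) s P e) (ins (fun _ => y) s P' e) := by
  have key : ∀ Q : I → Pos n, (∀ i ∈ s, act i → (Q i).op ⊆ (w i).op) →
      (∀ i ∈ s, ¬ act i → P i = Q i) → ∀ i ∈ s, act i → ∀ x ∈ (w i).op, ∀ i' ∈ s,
      x ∈ (Q i').op → i' ∈ s.filter fun i' => act i' ∧ w i' = w i := by
    intro Q h1 h2 i hi a x hx i' hi' hx'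
    have a' : act i' := by
      by_contra a'
      rw [← h2 i' hi' a'] at hx'
      exact Set.disjoint_left.1 ((hna i' hi' a').2 i hi a) hx' hx
    refine Finset.mem_filter.2 ⟨hi', a', ?_⟩
    by_contra hne
    exact Set.disjoint_left.1 (hd i' hi' i hi a' a hne) (h1 i' hi' a' hx') hx
  have h1 := Hty.patch (u := ins (fun _ => y) s P e) (u' := ins (fun _ => y) s P' e) (κ := 0)
    (T := T) {V | ∃ i ∈ s, act i ∧ w i = V} (fun V => V.op) (fun _ _ => isOpen_ball)
    (by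
      rintro _ ⟨i, hi, a, rfl⟩ _ ⟨i', hi', a', rfl⟩ hne
      exact hd i hi i' hi' a a' hne)
    (ins (fun _ => y) (s.filter fun i => ¬ act i) P e)
    (fun V => ins (fun _ => y) (s.filter fun i' => act i' ∧ w i' = V) P e)
    (fun V => ins (fun _ => y) (s.filter fun i' => act i' ∧ w i' = V) P' e)
    ((hP.subset (Finset.filter_subset _ _)).lip (lip_const hΛ y) hΛ) hΛ le_rfl
    (by
      rintro _ ⟨i, hi, a, rfl⟩
      exact h i hi a _ fun j hj => Finset.mem_filter.1 hj)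
    (by
      rintro _ ⟨i, hi, a, rfl⟩ x hx
      exact ⟨ins_local hP.arr (Finset.filter_subset _ _)
          (key P (fun i hi a => (ha i hi a).2.1) (fun _ _ _ => rfl) i hi a x hx),
        ins_local hP' (Finset.filter_subset _ _)
          (key P' (fun i hi a => (ha i hi a).2.2) (fun i hi a => (hna i hi a).1) i hi a x hx)⟩)
    (by
      intro x hx
      refine ⟨ins_local hP.arr (Finset.filter_subset _ _) fun i hi h1 =>
        Finset.mem_filter.2 ⟨hi, fun a => hx _ ⟨i, hi, a, rfl⟩ ((ha i hi a).2.1 h1)⟩, ?_⟩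
      rw [ins_congr (hP.arr.subset (Finset.filter_subset _ _))
        (fun i hi => (hna i (Finset.mem_filter.1 hi).1 (Finset.mem_filter.1 hi).2).1)
        fun _ _ => rfl]
      exact ins_local hP' (Finset.filter_subset _ _) fun i hi h1 =>
        Finset.mem_filter.2 ⟨hi, fun a => hx _ ⟨i, hi, a, rfl⟩ ((ha i hi a).2.2 h1)⟩)
    (by
      rintro _ ⟨i, hi, a, rfl⟩ x hx
      have o : IsOpen (w i).op := isOpen_ball
      rw [ins_of_not_mem, ins_of_not_mem]
      · intro i' hi' h1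
        rw [Finset.mem_filter] at hi'
        exact Set.disjoint_left.1 (((hna i' hi'.1 hi'.2).2 i hi a).closure_right isOpen_ball) h1
          (frontier_subset_closure hx)
      · intro i' hi' h1
        rw [Finset.mem_filter] at hi'
        have h2 := (ha i' hi'.1 hi'.2.1).2.1 h1
        rw [hi'.2.2] at h2
        rw [o.frontier_eq] at hx
        exact hx.2 h2)
  refine h1.mono le_rfl (by norm_num) le_rfl (Set.iUnion₂_subset ?_)
  rintro _ ⟨i, hi, a, rfl⟩
  exact (ha i hi a).1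

end Route

end Pool.Agent.Work.MP_4b5e6c_gt
end

-- merged part: Pool.Agent.Work.MP_4b5e6c_gt.Route2
section
/-! Routing: gathering the items of each class into one block. -/

namespace Pool.Agent.Work.MP_4b5e6c_gt
open Metric Set

namespace Route

variable {n : ℕ} {Z I K : Type} [MetricSpace Z]

/-- Routing up to the depth `d`. -/
def RD (y : Z) (Λ L : ℝ) (e : I → D n → Z) (d : ℕ) : Prop :=
  ∀ (s : Finset I) (C0 : DC n) (A B : I → DC n), Pack C0 s A → Pack C0 s B →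
    (∀ i ∈ s, (A i).j = (B i).j) → (∀ i ∈ s, (A i).j ≤ C0.j + d) →
    (∀ i ∈ s, Item y (L * ((A i).side / 2)) (e i)) →
    Hty (Λ * L) 0 C0.side C0.op (ins (fun _ => y) s (fun i => (A i).pos) e)
      (ins (fun _ => y) s (fun i => (B i).pos) e)

theorem Pack.eq_of_sub {C0 : DC n} {s : Finset I} {A : I → DC n} (h : Pack C0 s A) {i i' : I}
    (hi : i ∈ s) (hi' : i' ∈ s) (hs : (A i).Sub (A i')) : i = i' := by
  by_contra hne
  exact DC.not_disj_of_sub hs (h.2 i hi i' hi' hne)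

/-- The cells of a packing: the cubes of level `min (A i).j l` containing the items. -/
theorem cells_disj {C0 : DC n} {s : Finset I} {A a : I → DC n} {l : ℤ} (h : Pack C0 s A)
    (ha : ∀ i ∈ s, (A i).Sub (a i) ∧ (a i).j = min (A i).j l) :
    ∀ i ∈ s, ∀ i' ∈ s, a i ≠ a i' → (a i).Disj (a i') := by
  have key : ∀ i ∈ s, ∀ i' ∈ s, a i ≠ a i' → (a i').j ≤ (a i).j → (a i).Disj (a i') := by
    intro i hi i' hi' hne hj
    refine (DC.sub_or_disj hj).resolve_left fun hs => hne ?_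
    by_cases hj' : (a i).j = (a i').j
    · exact hs.eq_of_j hj'
    · have h1 := (ha i hi).2
      have h2 := (ha i' hi').2
      have h3 : A i' = a i' := (ha i' hi').1.eq_of_j (by omega)
      rw [Pack.eq_of_sub h hi hi' (h3 ▸ (ha i hi).1.trans hs)]
  intro i hi i' hi' hne
  rcases le_total (a i').j (a i).j with hj | hj
  · exact key i hi i' hi' hne hj
  · exact (key i' hi' i hi hne.symm hj).symm

open Classical in
theorem cells_card {C0 : DC n} {s : Finset I} {A a : I → DC n} {r : ℕ} (h : Pack C0 s A)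
    (ha : ∀ i ∈ s, (A i).Sub (a i) ∧ (a i).j = min (A i).j (C0.j + r))
    (ha' : ∀ i ∈ s, (a i).Sub C0) : (s.image a).card ≤ 2 ^ (r * n) := by
  refine card_le (Q := C0) (f := id) ⟨fun o ho => ?_, fun o ho o' ho' hne => ?_⟩ r fun o ho => ?_
  · obtain ⟨i, hi, rfl⟩ := Finset.mem_image.1 ho
    exact ha' i hi
  · obtain ⟨i, hi, rfl⟩ := Finset.mem_image.1 ho
    obtain ⟨i', hi', rfl⟩ := Finset.mem_image.1 ho'
    exact cells_disj h ha i hi i' hi' hne
  · obtain ⟨i, hi, rfl⟩ := Finset.mem_image.1 ho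
    exact (ha i hi).2.le.trans (min_le_right _ _)

open Classical in
/-- Workspaces and batches for the cells. -/
theorem exists_work (hn : 1 ≤ n) (Z0 : DC n) (t : Finset (DC n)) (q : ℕ)
    (ht : t.card ≤ 2 ^ ((q + 3) * n)) :
    ∃ (ws ch : DC n → DC n) (bt : DC n → ℕ), (∀ a, bt a ≤ 8 ^ n) ∧
      (∀ a, (ws a).j = Z0.j + q ∧ (ws a).Sub Z0 ∧ (ch a).j = Z0.j + q + 1 ∧ (ch a).Sub (ws a)) ∧
      ∀ a ∈ t, ∀ a' ∈ t, a ≠ a' → bt a = bt a' → (ws a).Disj (ws a') := by
  obtain ⟨f, hf, hp⟩ := slots hn Z0 (Finset.univ : Finset (Fin (2 ^ (q * n)))) q (by simp)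
  obtain ⟨g, hg, -⟩ := exists_assign t (Finset.univ : Finset (Fin (2 ^ (q * n)))) (8 ^ n)
    (⟨0, by positivity⟩, 0) (by
      rw [Finset.card_univ, Fintype.card_fin, show 8 = 2 ^ 3 by norm_num, ← pow_mul, ← pow_add]
      exact ht.trans (le_of_eq (by ring)))
  choose ch h1 h2 _ using fun a => DC.exists_cube (C0 := f (g a).1)
    (DC.op_subset_cl _ (DC.c_mem_op _)) (show (f (g a).1).j ≤ Z0.j + q + 1 by rw [hf]; omega)
  refine ⟨fun a => f (g a).1, ch, fun a => (g a).2, fun a => Nat.lt_succ_iff.1 (g a).2.2,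
    fun a => ⟨hf _, hp.1 _ (Finset.mem_univ _), h1 a, h2 a⟩, fun a ha a' ha' hne hb => ?_⟩
  exact hp.2 _ (Finset.mem_univ _) _ (Finset.mem_univ _) fun h =>
    hne (hg ha ha' (Prod.ext h (Fin.ext hb)))

open Classical in
/-- The blocks of the classes of one cell fit into a cube of twice the side. -/
theorem exists_blocks [DecidableEq K] (hn : 1 ≤ n) {C0 : DC n} {s : Finset I} {A : I → DC n}
    (hA : Pack C0 s A)
    (κ : I → K) (a T : K → DC n) (ha : ∀ i ∈ s, (A i).Sub (a (κ i)))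
    (hT : ∀ i ∈ s, (T (κ i)).side ^ n ≤ 2 ^ n * ∑ i' ∈ s with κ i' = κ i, (A i').side ^ n)
    (ws : DC n → DC n) : ∃ U : K → DC n, ∀ i ∈ s, (a (κ i)).j = (ws (a (κ i))).j + 1 →
      (U (κ i)).j = (T (κ i)).j ∧ (U (κ i)).Sub (ws (a (κ i))) ∧
      ∀ i' ∈ s, a (κ i') = a (κ i) → κ i ≠ κ i' → (U (κ i)).Disj (U (κ i')) := by
  have h : ∀ a0 : DC n, ∃ U : K → DC n, a0.j = (ws a0).j + 1 →
      (∀ k, (U k).j = (T k).j) ∧ Pack (ws a0) ((s.image κ).filter (a · = a0)) U := by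
    intro a0
    by_cases hj : a0.j = (ws a0).j + 1
    · obtain ⟨U, hU⟩ := exists_pack hn (ws a0) ((s.image κ).filter (a · = a0))
        (fun k => (T k).j) (by
          have h1 : a0.side = (ws a0).side / 2 ^ 1 := DC.side_of_j_add (by simpa using hj)
          have h2 : Pack a0 (s.filter fun i => a (κ i) = a0) A :=
            ⟨fun i hi => (Finset.mem_filter.1 hi).2 ▸ ha i (Finset.mem_filter.1 hi).1,
              fun i hi i' hi' => hA.2 i (Finset.mem_filter.1 hi).1 i' (Finset.mem_filter.1 hi').1⟩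
          have h3 : (ws a0).side ^ n = 2 ^ n * a0.side ^ n := by
            rw [h1, ← mul_pow]
            congr 1
            ring
          rw [h3]
          refine le_trans ?_ (mul_le_mul_of_nonneg_left h2.sum_le (by positivity))
          rw [← Finset.sum_fiberwise_of_maps_to (t := (s.image κ).filter (a · = a0)) (g := κ)
            fun i hi => Finset.mem_filter.2 ⟨Finset.mem_image_of_mem _ (Finset.mem_filter.1 hi).1,
              (Finset.mem_filter.1 hi).2⟩, Finset.mul_sum]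
          refine Finset.sum_le_sum fun k hk => ?_
          obtain ⟨hk1, hk2⟩ := Finset.mem_filter.1 hk
          obtain ⟨i, hi, rfl⟩ := Finset.mem_image.1 hk1
          refine (hT i hi).trans (le_of_eq ?_)
          congr 2
          ext i'
          simp only [Finset.mem_filter]
          exact ⟨fun h => ⟨⟨h.1, h.2 ▸ hk2⟩, h.2⟩, fun h => ⟨h.1.1, h.2⟩⟩)
      exact ⟨U, fun _ => hU⟩
    · exact ⟨T, fun h => absurd h hj⟩
  choose U hU using h
  refine ⟨fun k => U (a k) k, fun i hi hj => ?_⟩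
  obtain ⟨h1, h2⟩ := hU _ hj
  have m : ∀ i' ∈ s, a (κ i') = a (κ i) → κ i' ∈ (s.image κ).filter (a · = a (κ i)) :=
    fun i' hi' h => Finset.mem_filter.2 ⟨Finset.mem_image_of_mem _ hi', h⟩
  refine ⟨h1 _, h2.1 _ (m i hi rfl), fun i' hi' h hne => ?_⟩
  simp only [h]
  exact h2.2 _ (m i hi rfl) _ (m i' hi' h) hne

open Classical in
theorem gather [DecidableEq K] (hn : 1 ≤ n) {C L : ℝ} (hC : 1 ≤ C)
    (hFr : Fr n (2 ^ ((6 * n + 11) * n)) C)
    {y : Z} {e : I → D n → Z} (hL : 0 ≤ L) {d : ℕ}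
    (ih : RD y (C * 2 ^ (6 * n + 13) * 2 ^ (3 * n + 3)) L e d) {C0 : DC n} {s : Finset I}
    {A : I → DC n} (hA : Pack C0 s A) (hd : ∀ i ∈ s, (A i).j ≤ C0.j + (d + 1 : ℕ))
    (he : ∀ i ∈ s, Item y (L * ((A i).side / 2)) (e i)) (κ : I → K) (a T : K → DC n)
    (p : I → DC n)
    (ha : ∀ i ∈ s, (A i).Sub (a (κ i)) ∧ (a (κ i)).j = min (A i).j (C0.j + (3 * n + 5 : ℕ)))
    (ha' : ∀ i ∈ s, (a (κ i)).Sub C0) (hcard : (s.image κ).card ≤ 2 ^ ((6 * n + 10) * n))
    (hp : Sys s κ T p) (hpj : ∀ i ∈ s, (p i).j = (A i).j)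
    (hT : ∀ i ∈ s, (T (κ i)).side ^ n ≤ 2 ^ n * ∑ i' ∈ s with κ i' = κ i, (A i').side ^ n)
    (hTb : ∀ i ∈ s, (A i).j ≤ C0.j + (3 * n + 5 : ℕ) → (T (κ i)).j = (A i).j) :
    ∃ W, Plc (2 ^ (6 * n + 13)) C0 s κ T W ∧
      Hty (C * 2 ^ (6 * n + 13) * 2 ^ (3 * n + 3) * L) 0
        ((3 * (8 ^ n + 1) + 1) * (C0.side / 2 ^ (3 * n + 3 + 1))) C0.op
        (ins (fun _ => y) s (fun i => (A i).pos) e) (ins (fun _ => y) s (cfg κ T p W) e) := by
  set ν : ℝ := 2 ^ (6 * n + 13) with hν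
  have ν1 : 1 ≤ ν := one_le_pow₀ (by norm_num)
  set Λ : ℝ := C * ν * 2 ^ (3 * n + 3) with hΛ
  have hνΛ : ν * L ≤ Λ * L := by
    refine mul_le_mul_of_nonneg_right ?_ hL
    have : (1 : ℝ) ≤ 2 ^ (3 * n + 3) := one_le_pow₀ (by norm_num)
    calc ν = 1 * ν * 1 := by ring
      _ ≤ C * ν * 2 ^ (3 * n + 3) := by gcongr
  have hΛ0 : 0 ≤ Λ * L := le_trans (by positivity) hνΛ
  set τ : ℝ := C0.side / 2 ^ (3 * n + 3 + 1) with hτ
  have τ0 : 0 ≤ τ := by
    have := C0.side_pos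
    positivity
  obtain ⟨Zs, hZj, hZ⟩ := exists_slots hn 2 C0
  have hc := cells_card (a := fun i => a (κ i)) hA ha ha'
  have hcd := cells_disj (a := fun i => a (κ i)) hA ha
  obtain ⟨ws, ch, bt0, hbt0, hws, hwd⟩ := exists_work hn (Zs 0) (s.image fun i => a (κ i))
    (3 * n + 2) hc
  obtain ⟨U, hU⟩ := exists_blocks hn hA κ a T (fun i hi => (ha i hi).1) hT ws
  have hM : ((s.image κ).disjSum (s.image fun i => a (κ i))).card ≤ 2 ^ ((6 * n + 11) * n) := by
    rw [Finset.card_disjSum]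
    have h1 : 2 ^ ((3 * n + 5) * n) ≤ 2 ^ ((6 * n + 10) * n) :=
      Nat.pow_le_pow_right (by norm_num) (Nat.mul_le_mul_right _ (by omega))
    have h2 : 2 ^ ((6 * n + 10) * n + 1) ≤ 2 ^ ((6 * n + 11) * n) :=
      Nat.pow_le_pow_right (by norm_num) (by linarith only [hn])
    omega
  obtain ⟨sl, hslj, hsl⟩ := slots hn (Zs 1) _ (6 * n + 11) hM
  obtain ⟨bt, hbt⟩ : ∃ bt : DC n → ℕ, ∀ a0, bt a0 = if a0 ∈ s.image A then 0 else bt0 a0 + 1 :=
    ⟨_, fun _ => rfl⟩
  have big : ∀ i ∈ s, bt (a (κ i)) = 0 → a (κ i) = A i := by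
    intro i hi h
    rw [hbt] at h
    split_ifs at h with h1
    obtain ⟨i', hi', h2⟩ := Finset.mem_image.1 h1
    obtain rfl := Pack.eq_of_sub hA hi hi' (h2 ▸ (ha i hi).1)
    exact h2.symm
  have bigj : ∀ i ∈ s, bt (a (κ i)) = 0 → (T (κ i)).j = (A i).j := by
    intro i hi h
    have h1 := (ha i hi).2
    rw [big i hi h] at h1
    exact hTb i hi (by omega)
  have small : ∀ i ∈ s, bt (a (κ i)) ≠ 0 → (a (κ i)).j = (ws (a (κ i))).j + 1 := by
    intro i hi h
    have h1 := (ha i hi).2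
    have h2 : (A i).j ≠ (a (κ i)).j := fun h3 => h (by
      rw [hbt, if_pos (Finset.mem_image.2 ⟨i, hi, (ha i hi).1.eq_of_j h3⟩)])
    have h3 := (hws (a (κ i))).1
    have h4 := hZj 0
    push_cast at h1 h3 h4
    omega
  have wdis : ∀ i ∈ s, ∀ i' ∈ s, ∀ β, bt (a (κ i)) = β + 1 → bt (a (κ i')) = β + 1 →
      a (κ i) ≠ a (κ i') → (ws (a (κ i))).Disj (ws (a (κ i'))) := by
    intro i hi i' hi' β h1 h2 hne
    refine hwd _ (Finset.mem_image_of_mem _ hi) _ (Finset.mem_image_of_mem _ hi') hne ?_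
    rw [hbt] at h1 h2
    split_ifs at h1 h2
    omega
  have z0 : (Zs 0).Sub C0 := hZ.1 0 (Finset.mem_univ _)
  have z1 : (Zs 1).Sub C0 := hZ.1 1 (Finset.mem_univ _)
  have z01 : (Zs 0).Disj (Zs 1) := hZ.2 0 (Finset.mem_univ _) 1 (Finset.mem_univ _) (by decide)
  have hTs : ∀ i ∈ s, (T (κ i)).side ≤ C0.side := by
    intro i hi
    by_cases h : bt (a (κ i)) = 0
    · rw [DC.side_eq_of_j (bigj i hi h)]
      exact (hA.1 i hi).side_le hn
    · obtain ⟨h1, h2, -⟩ := hU i hi (small i hi h)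
      rw [← DC.side_eq_of_j h1]
      exact ((h2.trans (hws _).2.1).trans z0).side_le hn
  have le1 : ∀ {Q Q' : DC n}, Q'.j = Q.j → Q.side ≤ ν * Q'.side := fun {Q Q'} h => by
    rw [DC.side_eq_of_j h]
    exact le_mul_of_one_le_left Q.side_pos.le ν1
  obtain ⟨ob, hob⟩ : ∃ ob : ℕ → I → K ⊕ DC n, ∀ β i,
      ob β i = if bt (a (κ i)) ≤ β then Sum.inl (κ i) else Sum.inr (a (κ i)) := ⟨_, fun _ _ => rfl⟩
  obtain ⟨A0, hA0⟩ : ∃ A0 : ℕ → I → DC n, ∀ β i,
      A0 β i = if bt (a (κ i)) ≤ β then p i else A i := ⟨_, fun _ _ => rfl⟩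
  let X : K ⊕ DC n → DC n := Sum.elim T id
  have obm : ∀ β, ∀ i ∈ s, ob β i ∈ (s.image κ).disjSum (s.image fun i => a (κ i)) := by
    intro β i hi
    rw [hob]
    split_ifs
    · exact Finset.inl_mem_disjSum.2 (Finset.mem_image_of_mem _ hi)
    · exact Finset.inr_mem_disjSum.2 (Finset.mem_image_of_mem _ hi)
  have sys : ∀ β, Sys s (ob β) X (A0 β) := by
    refine fun β => ⟨fun i hi => ?_, fun i hi i' hi' hne h => ?_⟩
    · rw [hob, hA0]
      split_ifs
      exacts [hp.sub i hi, (ha i hi).1]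
    · rw [hob, hob] at h
      rw [hA0, hA0]
      split_ifs at h ⊢
      · exact hp.disj i hi i' hi' hne (Sum.inl.inj h)
      · exact hA.2 i hi i' hi' hne
  have A0j : ∀ β, ∀ i ∈ s, (A0 β i).j = (A i).j := by
    intro β i hi
    rw [hA0]
    split_ifs
    exacts [hpj i hi, rfl]
  have itm : ∀ β, ∀ i ∈ s, Item y (L * ((A0 β i).side / 2)) (e i) := fun β i hi => by
    rw [DC.side_eq_of_j (A0j β i hi)]
    exact he i hi
  have sls : ∀ o, C0.side = ν * (sl o).side := by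
    intro o
    have h1 : (sl o).j = C0.j + (6 * n + 13 : ℕ) := by
      rw [hslj, hZj]
      push_cast
      ring
    rw [DC.side_of_j_add h1, hν]
    field_simp
  have park : ∀ β, Plc ν C0 s (ob β) X sl := by
    refine fun β => ⟨fun i hi => (hsl.1 _ (obm β i hi)).trans z1,
      fun i hi i' hi' => hsl.2 _ (obm β i hi) _ (obm β i' hi'), fun i hi => ?_⟩
    rw [← sls, hob]
    split_ifs
    exacts [hTs i hi, (ha' i hi).side_le hn]
  have first : Hty (Λ * L) 0 τ C0.op (ins (fun _ => y) s (fun i => (A i).pos) e)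
      (ins (fun _ => y) s (cfg (ob 0) X (A0 0) sl) e) := by
    have w0 : ∀ i, Sum.elim a id (ob 0 i) = a (κ i) := fun i => by
      rw [hob]
      split_ifs <;> rfl
    have h := rigid (W := Sum.elim a id) hC hFr (3 * n + 3) hL (by positivity) (obm 0) hM (sys 0)
      ⟨fun i hi => w0 i ▸ ha' i hi, fun i hi i' hi' hne => ?_, fun i hi => ?_⟩ (park 0) (itm 0)
    · rwa [← ins_congr hA.arr (fun i hi => ?_) fun _ _ => rfl] at h
      simp only [cfg]
      rw [w0, hob, hA0]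
      split_ifs with h1
      · have h2 : p i = T (κ i) :=
          (hp.sub i hi).eq_of_j ((hpj i hi).trans (bigj i hi (by omega)).symm)
        rw [h2, big i hi (by omega)]
        exact (comp_rel_self _ _).symm
      · exact (comp_rel _ _).symm
    · rw [w0, w0]
      refine hcd i hi i' hi' fun h => hne ?_
      by_cases h1 : bt (a (κ i)) = 0
      · rw [Pack.eq_of_sub hA hi' hi (big i hi h1 ▸ h ▸ (ha i' hi').1)]
      · rw [hob, hob, ← h, if_neg (by omega), if_neg (by omega)]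
    · rw [w0, hob]
      split_ifs with h1
      · exact le1 (by rw [big i hi (by omega)]; exact (bigj i hi (by omega)).symm)
      · exact le1 rfl
  have step : ∀ β, Hty (Λ * L) 0 (3 * τ) C0.op (ins (fun _ => y) s (cfg (ob β) X (A0 β) sl) e)
      (ins (fun _ => y) s (cfg (ob (β + 1)) X (A0 (β + 1)) sl) e) := by
    intro β
    let W1 : K ⊕ DC n → DC n := Sum.elim (fun k => sl (Sum.inl k))
      fun a0 => if bt a0 = β + 1 then ch a0 else sl (Sum.inr a0)
    let W2 : K ⊕ DC n → DC n := Sum.elim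
      (fun k => if bt (a k) = β + 1 then U k else sl (Sum.inl k)) fun a0 => sl (Sum.inr a0)
    have o1 : ∀ i, bt (a (κ i)) = β + 1 → ob β i = Sum.inr (a (κ i)) ∧ A0 β i = A i ∧
        W1 (ob β i) = ch (a (κ i)) := fun i h => by
      rw [hob, hA0, if_neg (by omega), if_neg (by omega)]
      exact ⟨rfl, rfl, if_pos h⟩
    have o2 : ∀ i, bt (a (κ i)) = β + 1 → ob (β + 1) i = Sum.inl (κ i) ∧ A0 (β + 1) i = p i ∧
        W2 (ob (β + 1) i) = U (κ i) := fun i h => by
      rw [hob, hA0, if_pos h.le, if_pos h.le]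
      exact ⟨rfl, rfl, if_pos h⟩
    have o3 : ∀ i, ¬ bt (a (κ i)) = β + 1 → ob (β + 1) i = ob β i ∧ A0 (β + 1) i = A0 β i ∧
        W1 (ob β i) = sl (ob β i) ∧ W2 (ob β i) = sl (ob β i) := fun i h => by
      rw [hob, hob, hA0, hA0]
      by_cases h1 : bt (a (κ i)) ≤ β
      · rw [if_pos h1, if_pos h1, if_pos (by omega), if_pos (by omega)]
        exact ⟨rfl, rfl, rfl, if_neg h⟩
      · rw [if_neg h1, if_neg h1, if_neg (by omega), if_neg (by omega)]
        exact ⟨rfl, rfl, if_neg h, rfl⟩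
    have chj : ∀ i ∈ s, bt (a (κ i)) = β + 1 → (ch (a (κ i))).j = (a (κ i)).j := fun i hi h => by
      have h1 := small i hi (by omega)
      have h2 := hws (a (κ i))
      omega
    have p1 : Plc ν C0 s (ob β) X W1 := by
      refine plc_mix (park β) (fun i hi => hsl.1 _ (obm β i hi)) z01 z0
        (fun i => bt (a (κ i)) = β + 1) (fun i _ h => (o3 i h).2.2.1) (fun i hi h => ?_)
        fun i hi i' hi' h h' hne => ?_
      · rw [(o1 i h).2.2, (o1 i h).1]
        exact ⟨(hws _).2.2.2.trans (hws _).2.1, le1 (chj i hi h)⟩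
      · rw [(o1 i h).2.2, (o1 i' h').2.2]
        rw [(o1 i h).1, (o1 i' h').1] at hne
        exact (wdis i hi i' hi' β h h' fun e => hne (congrArg _ e)).mono (hws _).2.2.2
          (hws _).2.2.2
    have p2 : Plc ν C0 s (ob (β + 1)) X W2 := by
      refine plc_mix (park (β + 1)) (fun i hi => hsl.1 _ (obm _ i hi)) z01 z0
        (fun i => bt (a (κ i)) = β + 1) (fun i _ h => ?_) (fun i hi h => ?_)
        fun i hi i' hi' h h' hne => ?_
      · rw [(o3 i h).1]
        exact (o3 i h).2.2.2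
      · rw [(o2 i h).2.2, (o2 i h).1]
        obtain ⟨h1, h2, -⟩ := hU i hi (small i hi (by omega))
        exact ⟨h2.trans (hws _).2.1, le1 h1⟩
      · rw [(o2 i h).2.2, (o2 i' h').2.2]
        rw [(o2 i h).1, (o2 i' h').1] at hne
        obtain ⟨-, h2, h3⟩ := hU i hi (small i hi (by omega))
        by_cases e : a (κ i) = a (κ i')
        · exact h3 i' hi' e.symm fun e => hne (congrArg _ e)
        · exact (wdis i hi i' hi' β h h' e).mono h2 (hU i' hi' (small i' hi' (by omega))).2.1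
    have f1 := fit_cfg hL (sys β) p1 (itm β)
    have f2 := fit_cfg hL (sys (β + 1)) p2 (itm (β + 1))
    have s1 : ∀ i ∈ s, bt (a (κ i)) = β + 1 →
        (cfg (ob β) X (A0 β) W1 i).op ⊆ (ws (a (κ i))).op := fun i hi h =>
      (cfg_sub (sys β) hi).trans (by rw [(o1 i h).2.2]; exact (hws _).2.2.2)
    have s2 : ∀ i ∈ s, bt (a (κ i)) = β + 1 →
        (cfg (ob (β + 1)) X (A0 (β + 1)) W2 i).op ⊆ (ws (a (κ i))).op := fun i hi h =>
      (cfg_sub (sys (β + 1)) hi).trans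
        (by rw [(o2 i h).2.2]; exact (hU i hi (small i hi (by omega))).2.1)
    have t1 : ∀ i, ∃ B : DC n, i ∈ s → bt (a (κ i)) = β + 1 →
        B.j = (A i).j ∧ B.pos = cfg (ob β) X (A0 β) W1 i := by
      intro i
      by_cases h : i ∈ s ∧ bt (a (κ i)) = β + 1
      · obtain ⟨B, h1, h2⟩ := exists_tr hn (chj i h.1 h.2) (ha i h.1).1
        refine ⟨B, fun _ _ => ⟨h1, h2.trans ?_⟩⟩
        simp only [cfg]
        rw [(o1 i h.2).2.2, (o1 i h.2).1, (o1 i h.2).2.1]
        rfl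
      · exact ⟨C0, fun h1 h2 => absurd ⟨h1, h2⟩ h⟩
    have t2 : ∀ i, ∃ B : DC n, i ∈ s → bt (a (κ i)) = β + 1 →
        B.j = (A i).j ∧ B.pos = cfg (ob (β + 1)) X (A0 (β + 1)) W2 i := by
      intro i
      by_cases h : i ∈ s ∧ bt (a (κ i)) = β + 1
      · obtain ⟨B, h1, h2⟩ := exists_tr hn (hU i h.1 (small i h.1 (by omega))).1 (hp.sub i h.1)
        refine ⟨B, fun _ _ => ⟨h1.trans (hpj i h.1), h2.trans ?_⟩⟩
        simp only [cfg]
        rw [(o2 i h.2).2.2, (o2 i h.2).1, (o2 i h.2).2.1]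
        rfl
      · exact ⟨C0, fun h1 h2 => absurd ⟨h1, h2⟩ h⟩
    choose A' hA' using t1
    choose B' hB' using t2
    have mid : Hty (Λ * L) 0 τ C0.op (ins (fun _ => y) s (cfg (ob β) X (A0 β) W1) e)
        (ins (fun _ => y) s (cfg (ob (β + 1)) X (A0 (β + 1)) W2) e) := by
      refine par hΛ0 (f1.mono hνΛ) f2.arr (fun i => bt (a (κ i)) = β + 1)
        (fun i => ws (a (κ i))) (fun i hi h => ⟨(hws _).2.1.trans z0, s1 i hi h, s2 i hi h⟩)
        (fun i hi i' hi' h h' hne => wdis i hi i' hi' β h h' fun e => hne (congrArg ws e))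
        (fun i hi h => ⟨?_, fun i' hi' h' => ?_⟩) fun i hi h t ht => ?_
      · simp only [cfg]
        rw [(o3 i h).1, (o3 i h).2.1, (o3 i h).2.2.1, (o3 i h).2.2.2]
      · refine Disjoint.mono_left (cfg_sub (sys β) hi) ?_
        rw [(o3 i h).2.2.1]
        exact z01.symm.mono (hsl.1 _ (obm β i hi)) (hws _).2.1
      · have wj : (ws (a (κ i))).j = C0.j + (3 * n + 3 + 1 : ℕ) := by
          rw [(hws _).1, hZj]
          push_cast
          ring
        have pk : ∀ (B : I → DC n) (P : I → Pos n), Arr s P →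
            (∀ i ∈ s, bt (a (κ i)) = β + 1 → (P i).op ⊆ (ws (a (κ i))).op) →
            (∀ i ∈ s, bt (a (κ i)) = β + 1 → (B i).j = (A i).j ∧ (B i).pos = P i) →
            Pack (ws (a (κ i))) t B := by
          refine fun B P h1 h2 h3 => ⟨fun j hj => ?_, fun j hj j' hj' hne => ?_⟩
          · replace hj := ht j hj
            have := h2 j hj.1 hj.2.1
            rwa [← (h3 j hj.1 hj.2.1).2, hj.2.2] at this
          · replace hj := ht j hj
            replace hj' := ht j' hj'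
            have := h1.2 j hj.1 j' hj'.1 hne
            rwa [← (h3 j hj.1 hj.2.1).2, ← (h3 j' hj'.1 hj'.2.1).2] at this
        have q1 := pk A' _ f1.arr s1 hA'
        have q2 := pk B' _ f2.arr s2 hB'
        have h1 := ih _ _ A' B' q1 q2 (fun j hj => ?_) (fun j hj => ?_) fun j hj => ?_
        · rwa [DC.side_of_j_add wj,
            ins_congr q1.arr (fun j hj => (hA' j (ht j hj).1 (ht j hj).2.1).2) fun _ _ => rfl,
            ins_congr q2.arr (fun j hj => (hB' j (ht j hj).1 (ht j hj).2.1).2)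
              fun _ _ => rfl] at h1
        · replace hj := ht j hj
          exact (hA' j hj.1 hj.2.1).1.trans (hB' j hj.1 hj.2.1).1.symm
        · replace hj := ht j hj
          have := hd j hj.1
          rw [(hA' j hj.1 hj.2.1).1, wj]
          push_cast at this ⊢
          omega
        · replace hj := ht j hj
          rw [DC.side_eq_of_j (hA' j hj.1 hj.2.1).1]
          exact he j hj.1
    have r1 := rigid hC hFr (3 * n + 3) hL (by positivity) (obm β) hM (sys β) (park β) p1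
      (itm β)
    have r2 := rigid hC hFr (3 * n + 3) hL (by positivity) (obm _) hM (sys _) p2 (park _)
      (itm (β + 1))
    exact ((r1.trans mid hΛ0 τ0 τ0).trans r2 hΛ0 (by positivity) τ0).mono le_rfl (by norm_num)
      (le_of_eq (by ring)) subset_rfl
  have all := Hty.chain (fun β => ins (fun _ => y) s (cfg (ob β) X (A0 β) sl) e) (8 ^ n + 1)
    (step 0).lip_left hΛ0 (by positivity) fun β _ => step β
  have fin : ∀ i, bt (a (κ i)) ≤ 8 ^ n + 1 := fun i => by
    have := hbt0 (a (κ i))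
    rw [hbt]
    split_ifs <;> omega
  have ofin : ∀ i, ob (8 ^ n + 1) i = Sum.inl (κ i) := fun i => by rw [hob, if_pos (fin i)]
  have pf := park (8 ^ n + 1)
  refine ⟨fun k => sl (Sum.inl k), ⟨fun i hi => ofin i ▸ pf.sub i hi,
    fun i hi i' hi' hne => ?_, fun i hi => ?_⟩, ?_⟩
  · have := pf.disj i hi i' hi'
    rw [ofin, ofin] at this
    exact this fun e => hne (Sum.inl.inj e)
  · rw [← sls]
    exact hTs i hi
  · have e1 : cfg (ob (8 ^ n + 1)) X (A0 (8 ^ n + 1)) sl = cfg κ T p fun k => sl (Sum.inl k) := by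
      funext i
      simp only [cfg]
      rw [ofin, hA0, if_pos (fin i)]
      rfl
    rw [← e1]
    exact (first.trans all hΛ0 τ0 (by positivity)).mono le_rfl (by simp)
      (le_of_eq (by push_cast; ring)) subset_rfl

end Route

end Pool.Agent.Work.MP_4b5e6c_gt
end

-- merged part: Pool.Agent.Work.MP_4b5e6c_gt.Diff
section
/-! Task DIFF: the difference of two maps as inserted items. -/

namespace Pool.Agent.Work.MP_4b5e6c_gt
open Metric Set

variable {n : ℕ} {Z Z' I : Type}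

namespace Diff

lemma norm_rad (α : ℝ) (v : D n) : ‖(α / ‖v‖) • v‖ ≤ |α| := by
  rcases eq_or_ne v 0 with rfl | h
  · simp
  · rw [norm_smul, Real.norm_eq_abs, abs_div, abs_norm, div_mul_cancel₀ _ (norm_ne_zero_iff.2 h)]

lemma norm_rad' {α : ℝ} (hα : 0 ≤ α) {v : D n} (h : 0 < ‖v‖) : ‖(α / ‖v‖) • v‖ = α := by
  rw [norm_smul, Real.norm_eq_abs, abs_div, abs_norm, div_mul_cancel₀ _ h.ne', abs_of_nonneg hα]

lemma rad_lip {α β K δ : ℝ} {v w : D n} (hK : 0 ≤ K) (hα : |α| ≤ K * ‖v‖) (hβ : |β| ≤ K * ‖w‖)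
    (h : |α - β| ≤ δ) : ‖(α / ‖v‖) • v - (β / ‖w‖) • w‖ ≤ 2 * K * ‖v - w‖ + δ := by
  have hδ := (abs_nonneg _).trans h
  rcases eq_or_ne v 0 with rfl | hv
  · have := (norm_rad β w).trans hβ
    simp only [smul_zero, zero_sub, norm_neg]
    linarith only [hδ, this, hK, mul_nonneg hK (norm_nonneg w)]
  have hr := norm_pos_iff.2 hv
  have h1 : |α / ‖v‖| ≤ K := by rwa [abs_div, abs_norm, div_le_iff₀ hr]
  have e : (α / ‖v‖) • v - (β / ‖w‖) • w =
      (α / ‖v‖) • (v - w) + ((α / ‖v‖ * (‖w‖ - ‖v‖) + (α - β)) / ‖w‖) • w := by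
    rcases eq_or_ne w 0 with rfl | hw
    · simp
    have := norm_pos_iff.2 hw
    match_scalars <;> field_simp <;> ring
  rw [e]
  refine (norm_add_le _ _).trans ((add_le_add le_rfl ((norm_rad _ _).trans (abs_add_le _ _))).trans ?_)
  rw [norm_smul, Real.norm_eq_abs, abs_mul]
  have h2 := abs_norm_sub_norm_le w v
  rw [norm_sub_rev] at h2
  have h3 := mul_le_mul_of_nonneg_right h1 (norm_nonneg (v - w))
  have h4 := mul_le_mul h1 h2 (abs_nonneg _) hK
  linarith only [h, h3, h4]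

/-- relative coordinates -/
noncomputable def xi (P : Pos n) (x : D n) : D n := P.2⁻¹ • (x - P.1)

section
variable {P : Pos n} (hP : 0 < P.2) {x x' v : D n}
include hP

lemma xi_dist (x x' : D n) : P.2 * ‖xi P x - xi P x'‖ = dist x x' := by
  rw [xi, xi, ← smul_sub, sub_sub_sub_cancel_right, norm_smul, dist_eq_norm, Real.norm_eq_abs,
    abs_of_pos (inv_pos.2 hP), mul_inv_cancel_left₀ hP.ne']

lemma xi_norm (x : D n) : P.2 * ‖xi P x‖ = dist x P.1 := by
  simpa [xi] using xi_dist hP x P.1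

lemma xi_add (x : D n) : P.1 + P.2 • xi P x = x := by simp [xi, smul_smul, hP.ne']

lemma xi_le (h : x ∈ P.cl) : ‖xi P x‖ ≤ 1 := by
  rwa [Pos.cl, mem_closedBall, ← xi_norm hP, mul_le_iff_le_one_right hP] at h

lemma xi_eq (h : x ∈ P.cl) (h' : x ∉ P.op) : ‖xi P x‖ = 1 := by
  rw [Pos.op, mem_ball, ← xi_norm hP, mul_lt_iff_lt_one_right hP, not_lt] at h'
  exact (xi_le hP h).antisymm h'

lemma mem1 (h : ‖v‖ ≤ 1) : P.1 + P.2 • v ∈ P.cl := by
  simpa [Pos.cl, norm_smul, abs_of_pos hP] using mul_le_of_le_one_right hP.le h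

lemma mem2 (h : 1 ≤ ‖v‖) : dist (P.1 + (P.2 / ‖v‖) • v) P.1 = P.2 := by
  rw [dist_self_add_left, norm_rad' hP.le (by linarith)]

lemma mem3 {α : ℝ} (h : α ≤ 1) (v : D n) : P.1 + (P.2 * max α 0 / ‖v‖) • v ∈ P.cl := by
  rw [Pos.cl, mem_closedBall, dist_self_add_left]
  refine (norm_rad _ _).trans ?_
  rw [abs_of_nonneg (by positivity)]
  exact mul_le_of_le_one_right hP.le (max_le h zero_le_one)

end

lemma not_op {s : Finset I} {P : I → Pos n} (h : Arr s P) {i : I} (hi : i ∈ s) {x : D n}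
    (hx : x ∈ (P i).cl) (hx' : x ∉ (P i).op) : ∀ j ∈ s, x ∉ (P j).op := fun j hj => by
  rcases eq_or_ne j i with rfl | e
  exacts [hx', disjoint_right.1 (Pos.disjoint_op_cl (h.1 i hi) (h.2 j hj i hi e)) hx]

lemma core_eq {s : Finset I} {Q : I → DC n} (h : Arr s fun i => (Q i).pos) {i : I} (hi : i ∈ s)
    {x : D n} (hx : x ∈ (Q i).cl) : coreMap s Q x = (Q i).pos.1 + ((Q i).pos.2 *
      max (2 * ‖xi (Q i).pos x‖ - 1) 0 / ‖xi (Q i).pos x‖) • xi (Q i).pos x := by
  by_cases hx' : x ∈ (Q i).op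
  · exact ins_of_mem h hi hx'
  · rw [coreMap, ins_of_not_mem (not_op h hi hx hx'), xi_eq (h.1 i hi) hx hx']
    norm_num
    exact (xi_add (h.1 i hi) x).symm

lemma core_c {s : Finset I} {Q : I → DC n} (h : Arr s fun i => (Q i).pos) {i : I} (hi : i ∈ s)
    {x : D n} (hx : x ∈ closedBall (Q i).c ((Q i).side / 4)) : coreMap s Q x = (Q i).c := by
  have h0 := (Q i).side_pos
  have h1 := xi_norm (h.1 i hi) x
  rw [core_eq h hi (closedBall_subset_closedBall (by linarith only [h0]) hx), max_eq_right]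
  · simp
  · rw [mem_closedBall] at hx
    simp only [DC.pos_fst, DC.pos_snd] at h1
    (refine le_of_not_gt fun h_nl => ?_; linarith only [h_nl, hx, h1, h0, mul_pos_of_neg_of_neg (Mathlib.Tactic.Linarith.sub_neg_of_lt h0) (Mathlib.Tactic.Linarith.sub_neg_of_lt h_nl)])

end Diff
open Diff

theorem diffE_comp (f : Z → Z') (u u' : D n → Z) (c : D n × ℝ → Z) (P : Pos n) :
    (fun x => f (diffE u u' c P x)) =
      diffE (fun x => f (u x)) (fun x => f (u' x)) (fun z => f (c z)) P := by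
  funext x
  simp only [diffE, diffG, apply_ite f]

/-- The values of the difference item. -/
theorem diffE_prop (p : Z → Prop) (u u' : D n → Z) (c : D n × ℝ → Z) (P : Pos n) (hP : 0 < P.2)
    (hu : ∀ x ∈ P.cl, p (u x) ∧ p (u' x))
    (hc : ∀ x, dist x P.1 = P.2 → ∀ τ ∈ Icc (0 : ℝ) 1, p (c (x, τ))) (x : D n) :
    p (diffE u u' c P x) := by
  unfold diffE diffG
  split_ifs with h1 h2
  · exact (hu _ (mem1 hP h1)).1
  · exact hc _ (mem2 hP (by linarith)) _ ⟨by linarith, by linarith⟩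
  · exact (hu _ (mem3 hP (by linarith) _)).2

theorem coreMap_of_not_mem (s : Finset I) (Q : I → DC n) {x : D n}
    (hx : ∀ i ∈ s, x ∉ (Q i).op) : coreMap s Q x = x := ins_of_not_mem hx
theorem coreMap_mem {s : Finset I} {Q : I → DC n} (h : Arr s fun i => (Q i).pos) {i : I}
    (hi : i ∈ s) {x : D n} (hx : x ∈ (Q i).cl) : coreMap s Q x ∈ (Q i).cl := by
  rw [core_eq h hi hx]
  exact mem3 (h.1 i hi) (by linarith [xi_le (h.1 i hi) hx]) _
theorem coreMap_core {s : Finset I} {Q : I → DC n} (h : Arr s fun i => (Q i).pos) {i : I}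
    (hi : i ∈ s) {x : D n} (hx : x ∈ (Q i).core.cl) : coreMap s Q x = (Q i).c :=
  core_c h hi ((Q i).core_cl_subset hx)

variable [MetricSpace Z]

namespace Diff

section
variable {L : ℝ} {u u' : D n → Z} {c : D n × ℝ → Z} {P : Pos n} (hP : 0 < P.2)
  (hc : Side L u u' c P) {v : D n}
include hP hc

lemma diffG2 (h1 : 1 ≤ ‖v‖) (h2 : ‖v‖ ≤ 2) :
    diffG u u' c P v = c (P.1 + (P.2 / ‖v‖) • v, ‖v‖ - 1) := by
  rcases h1.eq_or_lt with h | h
  · have := (hc.1 _ (mem2 hP h1)).1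
    rw [diffG, if_pos h.ge]
    rw [← h] at this ⊢
    rw [sub_self, this, div_one]
  · rw [diffG, if_neg h.not_ge, if_pos h2]

lemma diffG3 (h2 : 2 ≤ ‖v‖) :
    diffG u u' c P v = u' (P.1 + (P.2 * max (3 - ‖v‖) 0 / ‖v‖) • v) := by
  rcases h2.eq_or_lt with h | h
  · have := (hc.1 _ (mem2 hP (one_le_two.trans h2))).2
    rw [diffG2 hP hc (one_le_two.trans h2) h.ge]
    rw [← h] at this ⊢
    norm_num
    exact this
  · rw [diffG, if_neg (by linarith), if_neg h.not_ge]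

lemma lip_diffG (hL : 0 ≤ L) (hu : ∀ x ∈ P.cl, ∀ x' ∈ P.cl, dist (u x) (u x') ≤ L * dist x x')
    (hu' : ∀ x ∈ P.cl, ∀ x' ∈ P.cl, dist (u' x) (u' x') ≤ L * dist x x') :
    Lip (3 * L * P.2) (diffG u u' c P) := by
  intro v w
  have hLP := mul_nonneg hL hP.le
  refine glue_closed convex_univ Finset.univ
    (![norm ⁻¹' Iic 1, norm ⁻¹' Icc 1 2, norm ⁻¹' Ici 2] : Fin 3 → Set (D n)) (fun i _ => ?_)
    (fun a _ => ?_) _ (by positivity) (fun i _ a ha b hb => ?_) v trivial w trivial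
  · fin_cases i
    exacts [isClosed_Iic.preimage continuous_norm, isClosed_Icc.preimage continuous_norm,
      isClosed_Ici.preimage continuous_norm]
  · rcases le_total ‖a‖ 1 with h | h
    · exact ⟨0, Finset.mem_univ _, h⟩
    rcases le_total ‖a‖ 2 with h' | h'
    exacts [⟨1, Finset.mem_univ _, h, h'⟩, ⟨2, Finset.mem_univ _, h'⟩]
  have h0 := mul_nonneg hLP (norm_nonneg (a - b))
  have h1 := abs_norm_sub_norm_le a b
  rw [dist_eq_norm]
  fin_cases i
  · have ha : ‖a‖ ≤ 1 := ha.1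
    have hb : ‖b‖ ≤ 1 := hb.1
    rw [diffG, diffG, if_pos ha, if_pos hb]
    refine (hu _ (mem1 hP ha) _ (mem1 hP hb)).trans ?_
    rw [dist_add_left, dist_smul₀, Real.norm_eq_abs, abs_of_pos hP, dist_eq_norm]
    linarith only [h0]
  · obtain ⟨a1, a2⟩ : 1 ≤ ‖a‖ ∧ ‖a‖ ≤ 2 := ha.1
    obtain ⟨b1, b2⟩ : 1 ≤ ‖b‖ ∧ ‖b‖ ≤ 2 := hb.1
    rw [diffG2 hP hc a1 a2, diffG2 hP hc b1 b2]
    refine (hc.2 _ _ (mem2 hP a1) (mem2 hP b1) _ ⟨by linarith, by linarith⟩ _
      ⟨by linarith, by linarith⟩).trans ?_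
    have h2 := rad_lip (α := P.2) (β := P.2) (δ := 0) hP.le
      (by rw [abs_of_pos hP]; exact le_mul_of_one_le_right hP.le a1)
      (by rw [abs_of_pos hP]; exact le_mul_of_one_le_right hP.le b1) (by simp)
    rw [dist_add_left, dist_eq_norm, sub_sub_sub_cancel_right]
    refine (mul_le_mul_of_nonneg_left (add_le_add h2 (mul_le_mul_of_nonneg_left h1 hP.le)) hL).trans ?_
    linarith only []
  · have ha : 2 ≤ ‖a‖ := ha.1
    have hb : 2 ≤ ‖b‖ := hb.1
    rw [diffG3 hP hc ha, diffG3 hP hc hb]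
    refine (hu' _ (mem3 hP (by linarith) _) _ (mem3 hP (by linarith) _)).trans ?_
    have k : ∀ a : D n, 2 ≤ ‖a‖ → |P.2 * max (3 - ‖a‖) 0| ≤ P.2 * ‖a‖ := fun a ha => by
      rw [abs_of_nonneg (by positivity)]
      exact mul_le_mul_of_nonneg_left (max_le (by linarith) (by linarith)) hP.le
    have h2 := rad_lip (δ := P.2 * ‖a - b‖) hP.le (k a ha) (k b hb) (by
      rw [← mul_sub, abs_mul, abs_of_pos hP]
      refine mul_le_mul_of_nonneg_left ((abs_max_sub_max_le_abs _ _ _).trans ?_) hP.le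
      rwa [sub_sub_sub_cancel_left, abs_sub_comm])
    rw [dist_add_left, dist_eq_norm]
    refine (mul_le_mul_of_nonneg_left h2 hL).trans ?_
    linarith only []

end

lemma glue {s : Finset I} {P : I → Pos n} {F : Set (D n)} (hF : IsClosed F)
    (hcov : ∀ x, (∀ i ∈ s, x ∉ (P i).cl) → x ∈ F) {f : D n → Z} {L : ℝ} (hL : 0 ≤ L)
    (h1 : ∀ i ∈ s, ∀ x ∈ (P i).cl, ∀ x' ∈ (P i).cl, dist (f x) (f x') ≤ L * dist x x')
    (h2 : ∀ x ∈ F, (∀ i ∈ s, x ∉ (P i).op) → ∀ x' ∈ F, (∀ i ∈ s, x' ∉ (P i).op) →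
      dist (f x) (f x') ≤ L * dist x x') : Lip L f := by
  intro x x'
  refine glue_closed convex_univ (Finset.insertNone s)
    (fun o => o.elim (F \ ⋃ i ∈ s, (P i).op) fun i => (P i).cl) ?_ (fun a _ => ?_) _ hL ?_
    x trivial x' trivial
  · rintro (_ | i) _
    exacts [hF.sdiff (isOpen_biUnion fun _ _ => isOpen_ball), isClosed_closedBall]
  · by_cases h : ∃ i ∈ s, a ∈ (P i).cl
    · obtain ⟨i, hi, h⟩ := h
      exact ⟨some i, by simpa, h⟩
    · push Not at h
      refine ⟨none, by simp, hcov a h, fun h' => ?_⟩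
      obtain ⟨i, hi, h''⟩ := mem_iUnion₂.1 h'
      exact h i hi (ball_subset_closedBall h'')
  · rintro (_ | i) hi a ⟨ha, -⟩ b ⟨hb, -⟩
    · exact h2 a ha.1 (by simpa using ha.2) b hb.1 (by simpa using hb.2)
    · exact h1 i (by simpa using hi) a ha b hb

lemma lip_core {s : Finset I} {Q : I → DC n} (h : Arr s fun i => (Q i).pos) :
    Lip 4 (coreMap s Q) := by
  refine glue (s := s) (P := fun i => (Q i).pos) isClosed_univ (fun _ _ => trivial) (by norm_num)
    (fun i hi x hx x' hx' => ?_) fun x _ hx x' _ hx' => ?_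
  · have hP := h.1 i hi
    have k : ∀ x ∈ (Q i).pos.cl, |(Q i).pos.2 * max (2 * ‖xi (Q i).pos x‖ - 1) 0| ≤
        (Q i).pos.2 * ‖xi (Q i).pos x‖ := fun x hx => by
      rw [abs_of_nonneg (by positivity)]
      exact mul_le_mul_of_nonneg_left (max_le (by linarith [xi_le hP hx]) (norm_nonneg _)) hP.le
    rw [core_eq h hi hx, core_eq h hi hx', dist_add_left, dist_eq_norm, ← xi_dist hP]
    refine (rad_lip (δ := (Q i).pos.2 * (2 * ‖xi (Q i).pos x - xi (Q i).pos x'‖)) hP.le (k x hx)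
      (k x' hx') ?_).trans_eq (by ring)
    rw [← mul_sub, abs_mul, abs_of_pos hP]
    refine mul_le_mul_of_nonneg_left ((abs_max_sub_max_le_abs _ _ _).trans ?_) hP.le
    rw [sub_sub_sub_cancel_right, ← mul_sub, abs_mul, abs_two]
    exact mul_le_mul_of_nonneg_left (abs_norm_sub_norm_le _ _) zero_le_two
  · rw [coreMap_of_not_mem s Q hx, coreMap_of_not_mem s Q hx']
    linarith [dist_nonneg (x := x) (y := x')]

/-- the radial profile of the first phase -/
noncomputable def al (τ r : ℝ) : ℝ := (1 - τ) * r + τ * min (6 * r) (4 - 2 * r)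

lemma al_le {τ r : ℝ} (hτ : τ ∈ Icc (0 : ℝ) 1) (h0 : 0 ≤ r) (h1 : r ≤ 1) : |al τ r| ≤ 6 * r := by
  have m0 : 0 ≤ min (6 * r) (4 - 2 * r) := le_min (by linarith) (by linarith)
  have m1 := mul_le_mul_of_nonneg_left (min_le_left (6 * r) (4 - 2 * r)) hτ.1
  have := mul_nonneg (sub_nonneg.2 hτ.2) h0
  rw [al, abs_of_nonneg (add_nonneg this (mul_nonneg hτ.1 m0))]
  linarith only [m1, this]

lemma al_sub {τ : ℝ} (hτ : τ ∈ Icc (0 : ℝ) 1) (r r' : ℝ) : |al τ r - al τ r'| ≤ 6 * |r - r'| := by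
  have m : |min (6 * r) (4 - 2 * r) - min (6 * r') (4 - 2 * r')| ≤ 6 * |r - r'| := by
    refine (abs_min_sub_min_le_max _ _ _ _).trans (max_le ?_ ?_)
    · rw [← mul_sub, abs_mul]; norm_num
    · rw [sub_sub_sub_cancel_left, ← mul_sub, abs_mul, abs_sub_comm, abs_two]
      linarith only [abs_nonneg (r - r')]
  have e : al τ r - al τ r' = (1 - τ) * (r - r') +
      τ * (min (6 * r) (4 - 2 * r) - min (6 * r') (4 - 2 * r')) := by unfold al; ring
  rw [e]
  refine (abs_add_le _ _).trans ?_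
  rw [abs_mul, abs_mul, abs_of_nonneg hτ.1, abs_of_nonneg (sub_nonneg.2 hτ.2)]
  have := mul_le_mul_of_nonneg_left m hτ.1
  have := mul_nonneg (sub_nonneg.2 hτ.2) (abs_nonneg (r - r'))
  linarith

lemma al_time (τ τ' : ℝ) {r : ℝ} (h0 : 0 ≤ r) (h1 : r ≤ 1) :
    |al τ r - al τ' r| ≤ 4 * |τ - τ'| := by
  have e : al τ r - al τ' r = (min (6 * r) (4 - 2 * r) - r) * (τ - τ') := by unfold al; ring
  have m0 : 0 ≤ min (6 * r) (4 - 2 * r) := le_min (by linarith) (by linarith)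
  have m1 := min_le_right (6 * r) (4 - 2 * r)
  rw [e, abs_mul]
  exact mul_le_mul_of_nonneg_right (abs_le.2 ⟨by linarith, by linarith⟩) (abs_nonneg _)

end Diff

/-- The difference item is an item; only local hypotheses are used. -/
theorem item_diffE {L : ℝ} (hL : 0 ≤ L) {u u' : D n → Z} {c : D n × ℝ → Z} {P : Pos n}
    (hP : 0 < P.2) (hu : ∀ x ∈ P.cl, ∀ x' ∈ P.cl, dist (u x) (u x') ≤ L * dist x x')
    (hu' : ∀ x ∈ P.cl, ∀ x' ∈ P.cl, dist (u' x) (u' x') ≤ L * dist x x')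
    (hc : Side L u u' c P) : Item (u' P.1) (30 * L * P.2) (diffE u u' c P) := by
  refine ⟨fun x x' => (lip_diffG hP hc hL hu hu' _ _).trans ?_, fun x hx => ?_⟩
  · rw [dist_smul₀, Real.norm_eq_abs, abs_of_pos three_pos]
    linarith only [hL, hP, mul_nonneg (mul_nonneg hL hP.le) (dist_nonneg (x := x) (y := x'))]
  · have : 3 ≤ ‖(3 : ℝ) • x‖ := by
      rw [norm_smul, Real.norm_eq_abs, abs_of_pos three_pos]; linarith
    rw [diffE, diffG3 hP hc (by linarith), max_eq_right (by linarith)]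
    simp

theorem Diff.phase1 {L T : ℝ} (hL : 0 ≤ L) (hT : 0 < T) {u u' : D n → Z} (hu : Lip L u)
    (hu' : Lip L u') (c : D n × ℝ → Z) (s : Finset I) (Q : I → DC n)
    (hQ : Arr s fun i => (Q i).pos) (hQT : ∀ i ∈ s, (Q i).side ≤ T) (F : Set (D n))
    (hF : IsClosed F) (hcov : ∀ x, (∀ i ∈ s, x ∉ (Q i).cl) → x ∈ F)
    (hst : ∀ x ∈ F, u' x = u x ∧ ∀ τ ∈ Icc (0 : ℝ) 1, c (x, τ) = u x)
    (hc : ∀ i ∈ s, Side L u u' c (Q i).pos) (hA : Arr s fun i => ((Q i).c, (Q i).side / 4)) :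
    Hty (54 * L + 6 * L * T / (T / 2)) 0 (T / 2) ((⋃ i ∈ s, (Q i).op) ∪ Fᶜ) u
      (ins (fun x => u' (coreMap s Q x)) s (fun i => ((Q i).c, (Q i).side / 4))
        fun i => diffE u u' c (Q i).pos) := by
  classical
  let G : D n → ℝ → Z := fun x τ => ins (fun x => if ∃ i ∈ s, x ∈ (Q i).cl then c (x, τ) else u x)
    s (fun i => (Q i).pos) (fun i v => diffG u u' c (Q i).pos ((al τ ‖v‖ / ‖v‖) • v)) x
  have g1 : ∀ i ∈ s, ∀ x ∈ (Q i).cl, ∀ τ ∈ Icc (0 : ℝ) 1, G x τ = diffG u u' c (Q i).pos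
      ((al τ ‖xi (Q i).pos x‖ / ‖xi (Q i).pos x‖) • xi (Q i).pos x) := by
    intro i hi x hx τ hτ
    by_cases hx' : x ∈ (Q i).op
    · exact ins_of_mem hQ hi hx'
    have hP := hQ.1 i hi
    have e := xi_eq hP hx hx'
    have e1 : al τ 1 = 1 + τ := by norm_num [al]; ring
    have e0 : 0 < 1 + τ := by linarith [hτ.1]
    have e2 : ‖(1 + τ) • xi (Q i).pos x‖ = 1 + τ := by
      rw [norm_smul, e, mul_one, Real.norm_eq_abs, abs_of_pos e0]
    rw [e, e1, div_one, diffG2 hP (hc i hi) (by linarith [hτ.1]) (by linarith [hτ.2]), e2,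
      smul_smul, div_mul_cancel₀ _ e0.ne', xi_add hP, add_sub_cancel_left]
    exact (ins_of_not_mem (not_op hQ hi hx hx')).trans (if_pos ⟨i, hi, hx⟩)
  have g2 : ∀ x ∈ F, (∀ i ∈ s, x ∉ (Q i).op) → ∀ τ ∈ Icc (0 : ℝ) 1, G x τ = u x := by
    intro x hx hx' τ hτ
    refine (ins_of_not_mem (P := fun i => (Q i).pos) hx').trans ?_
    split_ifs
    exacts [(hst x hx).2 τ hτ, rfl]
  have g3 : ∀ x, (∃ i ∈ s, x ∈ (Q i).cl) ∨ (x ∈ F ∧ ∀ i ∈ s, x ∉ (Q i).op) := fun x => by
    rw [or_iff_not_imp_left]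
    push Not
    exact fun h => ⟨hcov x h, fun i hi h' => h i hi ((Q i).op_subset_cl h')⟩
  have gl := fun i hi => lip_diffG (hQ.1 i hi) (hc i hi) hL (fun x _ x' _ => hu x x')
    fun x _ x' _ => hu' x x'
  refine Hty.of_family G (by positivity) (by positivity) (half_pos hT)
    (fun x x' τ hτ τ' hτ' => (dist_triangle _ (G x' τ) _).trans (add_le_add ?_ ?_))
    (fun x => ?_) (fun x => ?_) fun x hx => ?_
  · refine glue (P := fun i => (Q i).pos) (f := fun x => G x τ) hF hcov (by positivity)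
      (fun i hi x hx x' hx' => ?_) (fun x hx h x' hx' h' => ?_) x x'
    · have hP := hQ.1 i hi
      rw [g1 i hi x hx τ hτ, g1 i hi x' hx' τ hτ]
      refine (gl i hi _ _).trans ?_
      rw [dist_eq_norm, ← xi_dist hP]
      refine (mul_le_mul_of_nonneg_left (rad_lip (by norm_num)
        (al_le hτ (norm_nonneg _) (xi_le hP hx)) (al_le hτ (norm_nonneg _) (xi_le hP hx'))
        ((al_sub hτ _ _).trans (mul_le_mul_of_nonneg_left (abs_norm_sub_norm_le _ _)
          (by norm_num)))) (by positivity)).trans_eq (by ring)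
    · rw [g2 x hx h τ hτ, g2 x' hx' h' τ hτ]
      exact hu.mono (by linarith) x x'
  · rcases g3 x' with ⟨i, hi, hx⟩ | h
    · have hP := hQ.1 i hi
      rw [g1 i hi x' hx τ hτ, g1 i hi x' hx τ' hτ']
      refine (gl i hi _ _).trans ?_
      rw [dist_eq_norm, ← sub_smul, ← sub_div]
      refine (mul_le_mul_of_nonneg_left ((norm_rad _ _).trans
        (al_time τ τ' (norm_nonneg _) (xi_le hP hx))) (by positivity)).trans ?_
      have := mul_le_mul_of_nonneg_left (hQT i hi) (mul_nonneg hL (abs_nonneg (τ - τ')))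
      rw [DC.pos_snd]
      linarith only [this]
    · rw [g2 x' h.1 h.2 τ hτ, g2 x' h.1 h.2 τ' hτ', dist_self]
      positivity
  · rcases g3 x with ⟨i, hi, hx⟩ | h
    · have hP := hQ.1 i hi
      have e : ∀ v : D n, (al 0 ‖v‖ / ‖v‖) • v = v := fun v => by
        rcases eq_or_ne v 0 with rfl | hv <;> simp [al, *]
      rw [g1 i hi x hx 0 (by simp), e, diffG, if_pos (xi_le hP hx), xi_add hP]
    · exact g2 x h.1 h.2 0 (by simp)
  · have sub : ∀ i, Pos.op ((Q i).c, (Q i).side / 4) ⊆ (Q i).op := fun i =>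
      ball_subset_ball (by linarith only [(Q i).side_pos])
    rcases g3 x with ⟨i, hi, hx⟩ | h
    swap
    · rw [g2 x h.1 h.2 1 (by simp), ins_of_not_mem fun i hi h' => h.2 i hi (sub i h'),
        coreMap_of_not_mem s Q h.2, (hst x h.1).1]
    have hP := hQ.1 i hi
    have h0 := (Q i).side_pos
    have h1 := xi_norm hP x
    have h2 := xi_le hP hx
    simp only [DC.pos_fst, DC.pos_snd] at h1
    rw [g1 i hi x hx 1 (by simp), al, sub_self, zero_mul, zero_add, one_mul]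
    by_cases hx' : x ∈ Pos.op ((Q i).c, (Q i).side / 4)
    · rw [ins_of_mem hA hi hx', min_eq_left (by have : dist x _ < _ := hx'; (refine le_of_not_gt fun h_nl => ?_; linarith only [h_nl, h1, this, h0, mul_pos_of_neg_of_neg (Mathlib.Tactic.Linarith.sub_neg_of_lt h0) (Mathlib.Tactic.Linarith.sub_neg_of_lt h_nl)])), sc, diffE]
      congr 1
      have e : ∀ v : D n, (6 * ‖v‖ / ‖v‖) • v = (6 : ℝ) • v := fun v => by
        rcases eq_or_ne v 0 with rfl | hv <;> simp [*]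
      rw [e, xi, smul_smul, smul_smul, DC.pos_snd, DC.pos_fst]
      congr 1
      field_simp
      norm_num
    · have h3 : 1 / 2 ≤ ‖xi (Q i).pos x‖ := by
        have : ¬ dist x _ < _ := hx'
        (refine le_of_not_gt fun h_nl => ?_; linarith only [h_nl, h1, this, h0, mul_pos_of_neg_of_neg (Mathlib.Tactic.Linarith.sub_neg_of_lt h0) (Mathlib.Tactic.Linarith.sub_neg_of_lt h_nl)])
      have e := norm_rad' (α := 4 - 2 * ‖xi (Q i).pos x‖) (by linarith only [h2])
        (show 0 < ‖xi (Q i).pos x‖ by linarith only [h3])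
      rw [ins_of_not_mem, min_eq_right (by linarith only [h3]), diffG3 hP (hc i hi) (by linarith only [h2, e]), e,
        core_eq hQ hi hx, smul_smul, div_mul_div_comm, mul_comm (4 - _),
        mul_div_mul_right _ _ (by linarith only [h2])]
      · congr 6
        ring
      · intro j hj h
        rcases eq_or_ne j i with rfl | e
        exacts [hx' h, disjoint_right.1 (Pos.disjoint_op_cl hP (hQ.2 j hj i hi e)) hx (sub j h)]
  · simp only [mem_union, mem_iUnion, not_or, not_exists, mem_compl_iff, not_not] at hx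
    exact g2 x hx.2 hx.1

/-- The difference lemma. -/
theorem diff (hn : 1 ≤ n) {L T : ℝ} (hL : 0 ≤ L) (hT : 0 < T) {u u' : D n → Z} (hu : Lip L u)
    (hu' : Lip L u') (c : D n × ℝ → Z) (s : Finset I) (Q : I → DC n)
    (hQ : Arr s fun i => (Q i).pos) (hQT : ∀ i ∈ s, (Q i).side ≤ T) (F : Set (D n))
    (hF : IsClosed F) (hcov : ∀ x, (∀ i ∈ s, x ∉ (Q i).cl) → x ∈ F)
    (hst : ∀ x ∈ F, u' x = u x ∧ ∀ τ ∈ Icc (0 : ℝ) 1, c (x, τ) = u x)
    (hc : ∀ i ∈ s, Side L u u' c (Q i).pos) :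
    Lip (1000 * L) (fun x => u' (coreMap s Q x)) ∧
    Hty (1000 * L) 0 T (⋃ i ∈ s, (Q i).op) u' (fun x => u' (coreMap s Q x)) ∧
    Fit (1000 * L) (fun x => u' (coreMap s Q x)) s (fun i => (Q i).core.pos)
      (fun i => diffE u u' c (Q i).pos) ∧
    Hty (1000 * L) 0 T ((⋃ i ∈ s, (Q i).op) ∪ Fᶜ) u
      (ins (fun x => u' (coreMap s Q x)) s (fun i => (Q i).core.pos)
        fun i => diffE u u' c (Q i).pos) := by
  have hb : Lip (L * 4) fun x => u' (coreMap s Q x) := hu'.comp (lip_core hQ) hL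
  have it := fun i hi => item_diffE hL (hQ.1 i hi) (fun x _ x' _ => hu x x')
    (fun x _ x' _ => hu' x x') (hc i hi)
  have fit : ∀ P : I → Pos n, (∀ i ∈ s, (Q i).side / 8 ≤ (P i).2 ∧
      (P i).cl ⊆ closedBall (Q i).c ((Q i).side / 4) ∧ (P i).op ⊆ (Q i).op) →
      Fit (120 * L) (fun x => u' (coreMap s Q x)) s P fun i => diffE u u' c (Q i).pos := by
    intro P hP
    have h0 : ∀ i ∈ s, 0 < (P i).2 := fun i hi => by linarith only [hP, hi, (hP i hi).1, (Q i).side_pos]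
    have h1 : ∀ i ∈ s, coreMap s Q (P i).1 = (Q i).c := fun i hi =>
      core_c hQ hi ((hP i hi).2.1 (mem_closedBall_self (h0 i hi).le))
    refine ⟨⟨h0, fun i hi j hj e => (hQ.2 i hi j hj e).mono (hP i hi).2.2 (hP j hj).2.2⟩,
      fun i hi => ?_, fun i hi x hx => by rw [h1 i hi, core_c hQ hi ((hP i hi).2.1 hx)]⟩
    rw [h1 i hi]
    refine (it i hi).mono ?_
    have := mul_le_mul_of_nonneg_left (hP i hi).1 hL
    rw [DC.pos_snd]
    linarith only [this]
  have f1 := fit (fun i => ((Q i).c, (Q i).side / 4)) fun i _ =>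
    ⟨by linarith only [(Q i).side_pos], le_rfl, ball_subset_ball (by linarith only [(Q i).side_pos])⟩
  have f2 := fit (fun i => (Q i).core.pos) fun i _ =>
    ⟨by rw [DC.pos_snd, DC.core_side]; linarith only [], (Q i).core_cl_subset, (Q i).core_sub⟩
  refine ⟨hb.mono (by linarith), ?_, f2.mono (by linarith), ?_⟩
  · refine ((Hty.segment (f := id) (U := ⋃ i ∈ s, (Q i).op) (fun x x' => ?_) (lip_core hQ)
      (by norm_num) hT (fun x => ?_) fun x hx => ?_).comp hu' hL).mono (by linarith) (by simp)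
      le_rfl le_rfl
    · simp only [id]; linarith [dist_nonneg (x := x) (y := x')]
    · by_cases h : ∃ i ∈ s, x ∈ (Q i).op
      · obtain ⟨i, hi, h⟩ := h
        have h' := (Q i).op_subset_cl h
        exact (DC.dist_le_side h' (coreMap_mem hQ hi h')).trans (by linarith only [hT, hQT, hi, hQT i hi])
      · rw [coreMap_of_not_mem s Q (by simpa using h)]
        simp [hT.le]
    · exact coreMap_of_not_mem s Q (by simpa using hx)
  have p1 := Diff.phase1 hL hT hu hu' c s Q hQ hQT F hF hcov hst hc f1.arr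
  have p2 := Hty.move hn (hb.mono (by linarith)) (by positivity) _ f1.arr f1.flat (half_pos hT)
    (fun i hi => by have := hQT i hi; dsimp only; linarith only [hT, this]) f1 f2 fun i _ => ⟨le_rfl, by
      rw [DC.pos_op, DC.op, ← interior_closedBall _ (by linarith only [(Q i).core.side_pos]), Pos.op,
        ← interior_closedBall _ (by linarith only [(Q i).side_pos])]
      exact interior_mono (Q i).core_cl_subset⟩
  have e : 6 * L * T / (T / 2) = 12 * L := by field_simp; ring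
  rw [e] at p1
  refine ((p1.mono (L' := 1000 * L) (by linarith only [hL]) le_rfl le_rfl le_rfl).trans
    (p2.mono (by linarith only [hL]) le_rfl le_rfl ?_) (by positivity) (half_pos hT).le
    (half_pos hT).le).mono le_rfl (by simp) (by simp) le_rfl
  exact (iUnion₂_mono fun i _ => ball_subset_ball (by linarith only [(Q i).side_pos])).trans
    subset_union_left

end Pool.Agent.Work.MP_4b5e6c_gt
end

-- merged part: Pool.Agent.Work.MP_4b5e6c_gt.Relabel
section
/-! Task RELABEL: relabelling vertices of a nice map to one new vertex. -/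

namespace Pool.Agent.Work.MP_4b5e6c_gt
open Metric Set

variable {n : ℕ} {X : Type} [MetricSpace X]

namespace Relabel

section General
variable {Z : Type} [MetricSpace Z]

theorem side_mono {L L' : ℝ} {u u' : D n → Z} {c : D n × ℝ → Z} {P : Pos n} (hP : 0 ≤ P.2)
    (h : Side L u u' c P) (hL : L ≤ L') : Side L' u u' c P :=
  ⟨h.1, fun x x' hx hx' τ hτ τ' hτ' => (h.2 x x' hx hx' τ hτ τ' hτ').trans
    (mul_le_mul_of_nonneg_right hL (by positivity))⟩

/-- The difference lemma followed by blowing bubbles to one common base point. -/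
theorem two_phase (hn : 1 ≤ n) {L : ℝ} (hL : 0 ≤ L) {u u' : D n → Z} (hu : Lip L u)
    (hu' : Lip L u') (c : D n × ℝ → Z) {C0 : DC n} {s : Finset (DC n)}
    (hs : Pack C0 s fun Q => Q) (F : Set (D n)) (hF : IsClosed F)
    (hF0 : ∀ x, x ∉ C0.op → x ∈ F) (hcov : ∀ x, (∀ Q ∈ s, x ∉ Q.cl) → x ∈ F)
    (hst : ∀ x ∈ F, u' x = u x ∧ ∀ τ ∈ Icc (0 : ℝ) 1, c (x, τ) = u x)
    (hc : ∀ Q ∈ s, Side L u u' c Q.pos) (q : Z) (γ : DC n → ℝ → Z)
    (hγ : ∀ Q ∈ s, IsPath (u' Q.c) q (250 * L * Q.side) (γ Q)) :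
    ∃ b : D n → Z, Lip (100000 * L) b ∧ (∀ Q ∈ s, ∀ x ∈ Q.core.core.cl, b x = q) ∧
      Hty (100000 * L) 0 (C0.side + C0.side) C0.op u' b ∧
      Fit (100000 * L) b s (fun Q => Q.core.core.pos)
        (fun Q => teth (γ Q) (diffE u u' c Q.pos)) ∧
      Hty (100000 * L) 0 (C0.side + C0.side) C0.op u
        (ins b s (fun Q => Q.core.core.pos) fun Q => teth (γ Q) (diffE u u' c Q.pos)) := by
  have hT := C0.side_pos
  have harr := hs.arr
  have hside : ∀ Q ∈ s, Q.side ≤ C0.side := fun Q hQ => (hs.1 Q hQ).side_le hn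
  obtain ⟨d1, d2, d3, d4⟩ := diff hn hL hT hu hu' c s (fun Q => Q) harr hside F hF hcov hst hc
  have hL1 : 0 ≤ 1000 * L := by positivity
  have hside' : ∀ Q ∈ s, Q.core.side ≤ C0.side := fun Q hQ => by
    have := Q.side_pos
    rw [DC.core_side]; linarith only [hT, hside, hQ, hside Q hQ]
  have hγ' : ∀ Q ∈ s, IsPath (u' (coreMap s (fun Q => Q) Q.core.c)) q (1000 * L * Q.core.side)
      (γ Q) := fun Q hQ => by
    rw [coreMap_core harr hQ (Q.core.op_subset_cl Q.core.c_mem_op), DC.core_side]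
    exact (hγ Q hQ).mono (le_of_eq (by ring))
  obtain ⟨b1, b2, b3, b4, b5⟩ := bubble hn hL1 hT d1 s (fun Q => Q.core)
    (fun Q => diffE u u' c Q.pos) (fun _ => q) γ d3 hside' hγ'
  have e1 : 100 * (1000 * L) = 100000 * L := by ring
  rw [e1] at b1 b3 b4 b5
  have hU1 : (⋃ Q ∈ s, Q.op) ⊆ C0.op := iUnion₂_subset fun Q hQ => hs.1 Q hQ
  have hU2 : (⋃ Q ∈ s, Q.core.op) ⊆ C0.op :=
    iUnion₂_subset fun Q hQ => (Q.core_sub.trans (hs.1 Q hQ) : Q.core.Sub C0)
  have hU3 : (⋃ Q ∈ s, Q.op) ∪ Fᶜ ⊆ C0.op :=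
    union_subset hU1 fun x hx => by_contra fun h => hx (hF0 x h)
  have hL2 : 0 ≤ 100000 * L := by positivity
  have hL3 : 1000 * L ≤ 100000 * L := by linarith
  refine ⟨_, b1, b2, ?_, b4, ?_⟩
  · have := (d2.mono hL3 le_rfl le_rfl hU1).trans (b3.mono le_rfl le_rfl le_rfl hU2) hL2 hT.le
      hT.le
    rwa [add_zero] at this
  · have := (d4.mono hL3 le_rfl le_rfl hU3).trans (b5.mono le_rfl le_rfl le_rfl hU2) hL2 hT.le
      hT.le
    rwa [add_zero] at this

end General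

/-- The straight line homotopy between two maps into the skeleton. -/
noncomputable def seg (a : X) (f f' : D n → Ys n X) : D n × ℝ → Ys n X :=
  fun z => toY a ((1 - z.2) • (f z.1).1 + z.2 • (f' z.1).1)

omit [MetricSpace X] in
theorem seg_of_eq (a : X) {f f' : D n → Ys n X} {x : D n} (h : f' x = f x) (τ : ℝ) :
    seg a f f' (x, τ) = f x := by
  simp only [seg, h]
  rw [← add_smul, sub_add_cancel, one_smul, toY_coe]

omit [MetricSpace X] in
theorem seg_zero (a : X) (f f' : D n → Ys n X) (x : D n) : seg a f f' (x, 0) = f x := by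
  simp only [seg]
  rw [sub_zero, one_smul, zero_smul, add_zero, toY_coe]

omit [MetricSpace X] in
theorem seg_one (a : X) (f f' : D n → Ys n X) (x : D n) : seg a f f' (x, 1) = f' x := by
  simp only [seg]
  rw [sub_self, one_smul, zero_smul, zero_add, toY_coe]

omit [MetricSpace X] in
theorem seg_val (a : X) {f f' : D n → Ys n X} {x : D n} (T : Finset X) (hT : T.card ≤ n + 1)
    (h : (f x).supp ⊆ T) (h' : (f' x).supp ⊆ T) {τ : ℝ} (hτ : τ ∈ Icc (0 : ℝ) 1) :
    (seg a f f' (x, τ)).1 = (1 - τ) • (f x).1 + τ • (f' x).1 ∧ (seg a f f' (x, τ)).supp ⊆ T := by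
  obtain ⟨h1, h2⟩ := segment_mem (f x) (f' x) T hT h h' hτ
  have e : (seg a f f' (x, τ)).1 = (1 - τ) • (f x).1 + τ • (f' x).1 := toY_of_mem a h1
  refine ⟨e, ?_⟩
  rw [Ys.supp, e]
  exact h2

theorem dist_comb_le {E : Type} [NormedAddCommGroup E] [NormedSpace ℝ E] (p q p' q' : E)
    {τ τ' d e : ℝ} (hτ : τ ∈ Icc (0 : ℝ) 1) (h1 : dist p p' ≤ d) (h2 : dist q q' ≤ d)
    (h3 : dist p' q' ≤ e) :
    dist ((1 - τ) • p + τ • q) ((1 - τ') • p' + τ' • q') ≤ d + e * |τ - τ'| := by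
  rw [dist_eq_norm] at *
  have e1 : (1 - τ) • p + τ • q - ((1 - τ') • p' + τ' • q') =
      (1 - τ) • (p - p') + τ • (q - q') - (τ - τ') • (p' - q') := by module
  rw [e1]
  have h0 : 0 ≤ 1 - τ := by linarith [hτ.2]
  calc _ ≤ ‖(1 - τ) • (p - p')‖ + ‖τ • (q - q')‖ + ‖(τ - τ') • (p' - q')‖ :=
        (norm_sub_le _ _).trans (add_le_add (norm_add_le _ _) le_rfl)
    _ = (1 - τ) * ‖p - p'‖ + τ * ‖q - q'‖ + |τ - τ'| * ‖p' - q'‖ := by
        rw [norm_smul, norm_smul, norm_smul, Real.norm_eq_abs, Real.norm_eq_abs,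
          Real.norm_eq_abs, abs_of_nonneg h0, abs_of_nonneg hτ.1]
    _ ≤ (1 - τ) * d + τ * d + |τ - τ'| * e :=
        add_le_add (add_le_add (mul_le_mul_of_nonneg_left h1 h0)
          (mul_le_mul_of_nonneg_left h2 hτ.1)) (mul_le_mul_of_nonneg_left h3 (abs_nonneg _))
    _ = d + e * |τ - τ'| := by ring

section Cube
variable {C0 Q : DC n} {y a : X} {h : D n → X} {σ : D n → ℝ} {A : ℝ} {f : D n → Ys n X}
  {ρ : X → X}

theorem lip_cube (hA : 0 ≤ A) (hσ : Scale C0 σ) (hf : Nice C0 y h σ A f) (hQ : Q ∈ DC.gp σ C0)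
    {x : D n} (hx : x ∈ Q.cl) (x' : D n) : dist (f x) (f x') ≤ 8 * A / Q.side * dist x x' := by
  have h1 := hf.lip x x'
  have h2 := (DC.gp_bounds hσ hQ hx).2
  have h3 := Q.side_pos
  rw [div_mul_eq_mul_div, le_div_iff₀ h3]
  have h4 := mul_le_mul_of_nonneg_left h2 (dist_nonneg (x := f x) (y := f x'))
  have h5 := mul_nonneg hA (dist_nonneg (x := x) (y := x'))
  linarith only [h1, h4]

theorem supp_cube (hA : 0 ≤ A) (hh : Lip 1 h) (hσ : Scale C0 σ) (hQ : Q ∈ DC.gp σ C0) {x : D n}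
    (hx : x ∈ Q.cl) {p : X} (hp : dist p (h x) ≤ A * σ x) :
    p ∈ closedBall (h Q.c) ((A + 1) * Q.side) := by
  have h1 := mul_le_mul_of_nonneg_left (DC.gp_bounds hσ hQ hx).1 hA
  have h2 := hh x Q.c
  have h3 := DC.dist_le_side hx (Q.op_subset_cl Q.c_mem_op)
  have h4 := dist_triangle p (h x) (h Q.c)
  rw [mem_closedBall]
  linarith

theorem seg_wall (hσ : Scale C0 σ) (hf : Nice C0 y h σ A f) (hρ : ∀ p, ρ p = p ∨ ρ p = a)
    (hQ : Q ∈ DC.gp σ C0) {x : D n} (hx : dist x Q.c = Q.side / 2) {τ : ℝ}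
    (hτ : τ ∈ Icc (0 : ℝ) 1) :
    (seg a f (fun x => mapY ρ (f x)) (x, τ)).1 = (1 - τ) • (f x).1 + τ • (mapY ρ (f x)).1 ∧
      ∀ p ∈ (seg a f (fun x => mapY ρ (f x)) (x, τ)).supp, p = a ∨ p ∈ (f x).supp := by
  classical
  obtain ⟨i, k, hk⟩ := DC.exists_wall hx
  have hxc : x ∈ Q.cl := hx.le
  have hcard := hf.wall x i (-Q.j) k hk (DC.gp_bounds hσ hQ hxc).1
  have := seg_val a (f := f) (f' := fun x => mapY ρ (f x)) (x := x) (insert a (f x).supp)
    ((Finset.card_insert_le _ _).trans (by omega)) (Finset.subset_insert _ _) (fun p hp => by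
      obtain ⟨p', hp', rfl⟩ := mem_supp_mapY.1 hp
      rcases hρ p' with e | e <;> rw [e]
      · exact Finset.mem_insert_of_mem hp'
      · exact Finset.mem_insert_self _ _) hτ
  exact ⟨this.1, fun p hp => Finset.mem_insert.1 (this.2 hp)⟩

theorem side_cube (hA : 1 ≤ A) (hσ : Scale C0 σ) (hf : Nice C0 y h σ A f)
    (hρ : ∀ p, ρ p = p ∨ ρ p = a) (hQ : Q ∈ DC.gp σ C0) :
    Side (8 * A / Q.side) f (fun x => mapY ρ (f x)) (seg a f fun x => mapY ρ (f x)) Q.pos := by
  refine ⟨fun x _ => ⟨seg_zero _ _ _ _, seg_one _ _ _ _⟩, fun x x' hx hx' τ hτ τ' hτ' => ?_⟩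
  rw [Subtype.dist_eq, (seg_wall hσ hf hρ hQ hx hτ).1, (seg_wall hσ hf hρ hQ hx' hτ').1]
  have hxc : x ∈ Q.cl := hx.le
  have h1 := lip_cube (by linarith) hσ hf hQ hxc x'
  have h2 : dist (mapY ρ (f x)) (mapY ρ (f x')) ≤ 8 * A / Q.side * dist x x' := by
    have := lip_mapY ρ (f x) (f x')
    linarith only [h1, this]
  refine (dist_comb_le _ _ _ _ hτ h1 h2 (Ys.dist_le_two (f x') (mapY ρ (f x')))).trans ?_
  have h3 := Q.side_pos
  have h4 : 8 * A / Q.side * (Q.side / 2 * |τ - τ'|) = 4 * A * |τ - τ'| := by field_simp; ring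
  rw [DC.pos_snd, mul_add, h4]
  have h5 := abs_nonneg (τ - τ')
  linarith only [h5, hA, mul_nonneg_of_nonpos_of_nonpos (Mathlib.Tactic.Linarith.sub_nonpos_of_le hA) (Mathlib.Tactic.Linarith.sub_nonpos_of_le h5)]

theorem cpt_of_out {Z : Type} {y : Z} {u : D n → Z} (hu : ∀ x, x ∉ C0.op → u x = y) :
    Cpt y u := by
  refine ⟨‖C0.c‖ + C0.side / 2, fun x hx => hu x fun hx' => ?_⟩
  have h1 : dist x C0.c < C0.side / 2 := hx'
  have h2 := norm_sub_norm_le x C0.c
  rw [dist_eq_norm] at h1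
  linarith only [hx, h1, h2]

/-- The total chain of the difference items vanishes. -/
theorem sum_zero (hn : 2 ≤ n) (hA : 1 ≤ A) (hσ : Scale C0 σ) (hf : Nice C0 y h σ A f)
    (hf' : Nice C0 y h σ A fun x => mapY ρ (f x)) (hρ : ∀ p, ρ p = p ∨ ρ p = a)
    {s : Finset (DC n)} (hs : Pack C0 s fun Q => Q) (hsg : ∀ Q ∈ s, Q ∈ DC.gp σ C0)
    (hcov : ∀ x, (∀ Q ∈ s, x ∉ Q.cl) → mapY ρ (f x) = f x) (γ : DC n → ℝ → Ys n X)
    (hγ : ∀ Q, IsPath (mapY ρ (f Q.c)) (vtx a) 4 (γ Q)) {φ : List X → ℤ} (hφ : Alt φ) :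
    ∑ Q ∈ s, degY φ (teth (γ Q) (diffE f (fun x => mapY ρ (f x))
      (seg a f fun x => mapY ρ (f x)) Q.pos)) = 0 := by
  obtain ⟨κ, hκ, hκσ⟩ := hσ.pos
  have hL : 0 ≤ 8 * A / κ := by positivity
  have hlip : ∀ g : D n → Ys n X, Nice C0 y h σ A g → Lip (8 * A / κ) g := fun g hg x x' => by
    have h1 := hg.lip x x'
    rw [div_mul_eq_mul_div, le_div_iff₀ hκ]
    have h4 := mul_le_mul_of_nonneg_left (hκσ x) (dist_nonneg (x := g x) (y := g x'))
    have h5 := mul_nonneg (by linarith only [hA] : 0 ≤ A) (dist_nonneg (x := x) (y := x'))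
    linarith only [h1, h4, h5]
  have hκQ : ∀ Q ∈ s, κ ≤ Q.side := fun Q hQ =>
    (hκσ Q.c).trans (DC.gp_bounds hσ (hsg Q hQ) (Q.op_subset_cl Q.c_mem_op)).1
  obtain ⟨b, b1, -, b3, b4, b5⟩ := two_phase (by omega) hL (hlip f hf) (hlip _ hf')
    (seg a f fun x => mapY ρ (f x)) hs {x | mapY ρ (f x) = f x}
    (isClosed_eq (hlip _ hf').continuous (hlip f hf).continuous)
    (fun x hx => (hf'.out x hx).trans (hf.out x hx).symm) hcov
    (fun x hx => ⟨hx, fun τ _ =>
      seg_of_eq a (f := f) (f' := fun x => mapY ρ (f x)) (x := x) hx τ⟩)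
    (fun Q hQ => side_mono (by have := Q.side_pos; rw [DC.pos_snd]; positivity)
      (side_cube hA hσ hf hρ (hsg Q hQ))
      (div_le_div_of_nonneg_left (by linarith only [hA]) hκ (hκQ Q hQ)))
    (vtx a) γ fun Q hQ => (hγ Q).mono (by
      have h1 : 8 * A / κ * κ = 8 * A := by field_simp
      have h2 := mul_le_mul_of_nonneg_left (hκQ Q hQ) hL
      linarith only [hA, h1, h2])
  have hU : Bornology.IsBounded C0.op := isBounded_ball
  have e1 := degY_hty hn hφ b3 hU (cpt_of_out hf'.out)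
  have e2 := degY_hty hn hφ b5 hU (cpt_of_out hf.out)
  have hb : Cpt (vtx y) b := cpt_of_out fun x hx => (b3.eq_of_not_mem hx).trans (hf'.out x hx)
  rw [degY_ins hn hφ (by positivity) b1 hb b4, ← e1, hf.null φ hφ, hf'.null φ hφ] at e2
  linarith only [e2]

/-- The supports of the tethered difference item. -/
theorem supp_item (hA : 1 ≤ A) (hh : Lip 1 h) (hσ : Scale C0 σ) (hf : Nice C0 y h σ A f)
    (hf' : Nice C0 y h σ A fun x => mapY ρ (f x)) (hρ : ∀ p, ρ p = p ∨ ρ p = a)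
    (hQ : Q ∈ DC.gp σ C0) (ha : a ∈ closedBall (h Q.c) ((A + 1) * Q.side)) :
    (∀ x ∈ Q.cl, ↑(f x).supp ⊆ closedBall (h Q.c) ((A + 1) * Q.side) ∧
      ↑(mapY ρ (f x)).supp ⊆ closedBall (h Q.c) ((A + 1) * Q.side)) ∧
    ∀ x, dist x Q.c = Q.side / 2 → ∀ τ ∈ Icc (0 : ℝ) 1,
      ↑(seg a f (fun x => mapY ρ (f x)) (x, τ)).supp ⊆
        closedBall (h Q.c) ((A + 1) * Q.side) := by
  have hA0 : 0 ≤ A := by linarith
  refine ⟨fun x hx => ⟨fun p hp => supp_cube hA0 hh hσ hQ hx (hf.near x p hp),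
    fun p hp => supp_cube hA0 hh hσ hQ hx (hf'.near x p hp)⟩, fun x hx τ hτ p hp => ?_⟩
  rcases (seg_wall hσ hf hρ hQ hx hτ).2 p hp with e | e
  · rwa [e]
  · exact supp_cube hA0 hh hσ hQ hx.le (hf.near x p e)

/-- The side homotopy in `X`. -/
theorem side_real (R : Rz n X) (hA : 1 ≤ A) (hh : Lip 1 h) (hσ : Scale C0 σ)
    (hf : Nice C0 y h σ A f) (hf' : Nice C0 y h σ A fun x => mapY ρ (f x))
    (hρ : ∀ p, ρ p = p ∨ ρ p = a) (hQ : Q ∈ DC.gp σ C0)
    (ha : a ∈ closedBall (h Q.c) ((A + 1) * Q.side)) :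
    Side (16 * R.C * A ^ 2) (fun x => R.ι (f x)) (fun x => R.ι (mapY ρ (f x)))
      (fun z => R.ι (seg a f (fun x => mapY ρ (f x)) z)) Q.pos := by
  have h1 := side_cube hA hσ hf hρ hQ
  have h2 := (supp_item hA hh hσ hf hf' hρ hQ ha).2
  have h3 := Q.side_pos
  have hC := R.one_le
  refine ⟨fun x hx => ⟨by simp only [(h1.1 x hx).1], by simp only [(h1.1 x hx).2]⟩,
    fun x x' hx hx' τ hτ τ' hτ' => ?_⟩
  refine (R.lip (h Q.c) ((A + 1) * Q.side) (by positivity) _ _ (h2 x hx τ hτ)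
    (h2 x' hx' τ' hτ')).trans ?_
  refine (mul_le_mul_of_nonneg_left (h1.2 x x' hx hx' τ hτ τ' hτ') (by positivity)).trans ?_
  rw [← mul_assoc]
  refine mul_le_mul_of_nonneg_right ?_ (by rw [DC.pos_snd]; positivity)
  have e : R.C * ((A + 1) * Q.side) * (8 * A / Q.side) = 8 * R.C * (A ^ 2 + A) := by
    field_simp
  rw [e]
  have h4 : A ≤ A ^ 2 := by linarith only [hA, mul_nonneg_of_nonpos_of_nonpos (Mathlib.Tactic.Linarith.sub_nonpos_of_le hA) (Mathlib.Tactic.Linarith.sub_nonpos_of_le hA)]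
  have h5 := mul_le_mul_of_nonneg_left h4 (by linarith only [hC] : 0 ≤ R.C)
  linarith only [h5]

/-- The tether in `X`. -/
theorem path_real (R : Rz n X) {β : Ys n X} {p : X} {r l : ℝ} (hr : 0 ≤ r)
    (hβ : ↑β.supp ⊆ closedBall p r) (ha : a ∈ closedBall p r) {γ : ℝ → Ys n X}
    (hγ : IsPath β (vtx a) 4 γ) (hγ' : ∀ t, ∀ b ∈ (γ t).supp, b ∈ β.supp ∨ b = a)
    (hl : R.C * r * 4 ≤ l) :
    (∀ t, ↑(γ t).supp ⊆ closedBall p r) ∧
      IsPath (R.ι β) (R.ι (vtx a)) l fun t => R.ι (γ t) := by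
  have h1 : ∀ t, ↑(γ t).supp ⊆ closedBall p r := fun t b hb => by
    rcases hγ' t b hb with e | e
    · exact hβ e
    · rwa [e]
  have hC := R.one_le
  refine ⟨h1, fun t t' => ?_, fun t ht => by simp only [hγ.2.1 t ht],
    fun t ht => by simp only [hγ.2.2 t ht]⟩
  refine (R.lip p r hr _ _ (h1 t) (h1 t')).trans ?_
  refine (mul_le_mul_of_nonneg_left (hγ.1 t t') (by positivity)).trans ?_
  rw [← mul_assoc]
  exact mul_le_mul_of_nonneg_right hl dist_nonneg

/-- The tethered difference item is an item with a uniform constant. -/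
theorem item_cube (hA : 1 ≤ A) (hσ : Scale C0 σ) (hf : Nice C0 y h σ A f)
    (hf' : Nice C0 y h σ A fun x => mapY ρ (f x)) (hρ : ∀ p, ρ p = p ∨ ρ p = a)
    (hQ : Q ∈ DC.gp σ C0) {γ : ℝ → Ys n X} (hγ : IsPath (mapY ρ (f Q.c)) (vtx a) 4 γ) :
    Item (vtx a) (240 * A) (teth γ (diffE f (fun x => mapY ρ (f x))
      (seg a f fun x => mapY ρ (f x)) Q.pos)) := by
  have hA0 : 0 ≤ A := by linarith
  have h3 := Q.side_pos
  have h1 := item_diffE (L := 8 * A / Q.side) (by positivity) (P := Q.pos)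
    (by rw [DC.pos_snd]; positivity) (fun x hx x' _ => lip_cube hA0 hσ hf hQ hx x')
    (fun x hx x' _ => lip_cube hA0 hσ hf' hQ hx x') (side_cube hA hσ hf hρ hQ)
  have e : 30 * (8 * A / Q.side) * Q.pos.2 = 120 * A := by
    rw [DC.pos_snd]; field_simp; ring
  rw [e] at h1
  have h2 := item_teth (hγ.mono (l' := 120 * A) (by linarith only [hA])) (by positivity) h1
  exact h2.mono (by linarith)

end Cube

end Relabel

open Relabel in
theorem relabel (hn : 2 ≤ n) (R : Rz n X) (hc : CancelS n X) : RelabelS R := by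
  classical
  intro A hA
  have hC := R.one_le
  have hA2 : A ≤ A ^ 2 := by linarith only [hA, mul_nonneg_of_nonpos_of_nonpos (Mathlib.Tactic.Linarith.sub_nonpos_of_le hA) (Mathlib.Tactic.Linarith.sub_nonpos_of_le hA)]
  have hCA : A ^ 2 ≤ R.C * A ^ 2 := le_mul_of_one_le_left (by positivity) hC
  have hCA' : R.C * A ≤ R.C * A ^ 2 := mul_le_mul_of_nonneg_left hA2 (by linarith)
  have hCA'' : R.C ≤ R.C * A := le_mul_of_one_le_right (by linarith) hA
  have hL : 0 < 16 * R.C * A ^ 2 := by positivity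
  obtain ⟨C, hC1, hcan⟩ := hc (100000 * (16 * R.C * A ^ 2)) (by positivity)
  refine ⟨(C + 100000 * (16 * R.C * A ^ 2)) * 5, by linarith only [hA, hA2, hCA, hC1], ?_⟩
  intro C0 y a h σ f ρ hh hσ hf hρ hy hnear
  have hn1 : 1 ≤ n := by omega
  have hA0 : 0 ≤ A := by linarith only [hA]
  have hf' := hf.relabel hn hσ ρ hy hnear
  have hσ0 : ∀ x, 0 < σ x := fun x => by
    obtain ⟨κ, hκ, hκσ⟩ := hσ.pos
    exact hκ.trans_le (hκσ x)
  have hu : Lip (16 * R.C * A ^ 2) fun x => R.ι (f x) :=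
    (hf.lip_real R hA hh hσ.lip hσ0).1.mono (by linarith only [hA, hA2, hCA])
  have hu' : Lip (16 * R.C * A ^ 2) fun x => R.ι (mapY ρ (f x)) :=
    (hf'.lip_real R hA hh hσ.lip hσ0).1.mono (by linarith only [hA, hA2, hCA])
  set s : Finset (DC n) := (DC.gp_finite hn1 hσ).toFinset.filter
    fun Q => ∃ x ∈ Q.cl, ∃ p ∈ (f x).supp, ρ p ≠ p with hsdef
  have hmem : ∀ Q, Q ∈ s ↔ Q ∈ DC.gp σ C0 ∧ ∃ x ∈ Q.cl, ∃ p ∈ (f x).supp, ρ p ≠ p := fun Q => by
    rw [hsdef, Finset.mem_filter, Finite.mem_toFinset]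
  have hsg : ∀ Q ∈ s, Q ∈ DC.gp σ C0 := fun Q hQ => ((hmem Q).1 hQ).1
  have hs : Pack C0 s fun Q => Q :=
    ⟨fun Q hQ => (hsg Q hQ).1, fun Q hQ Q' hQ' hne => DC.gp_disj hn1 (hsg Q hQ) (hsg Q' hQ') hne⟩
  have hcov : ∀ x, (∀ Q ∈ s, x ∉ Q.cl) → mapY ρ (f x) = f x := fun x hx => by
    by_cases hx0 : x ∈ C0.cl
    · obtain ⟨Q, hQ, hxQ⟩ := DC.gp_cover hn1 hσ hx0
      rw [mapY_congr (ρ' := id) fun p hp => by_contra fun hne =>
        hx Q ((hmem Q).2 ⟨hQ, x, hxQ, p, hp, hne⟩) hxQ, mapY_id]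
    · have hx1 : x ∉ C0.op := fun h1 => hx0 (C0.op_subset_cl h1)
      exact (hf'.out x hx1).trans (hf.out x hx1).symm
  have ha : ∀ Q ∈ s, a ∈ closedBall (h Q.c) ((A + 1) * Q.side) := fun Q hQ => by
    obtain ⟨hQg, x, hx, p, hp, hne⟩ := (hmem Q).1 hQ
    have := hnear x p hp
    rw [(hρ p).resolve_left hne] at this
    exact supp_cube hA0 hh hσ hQg hx this
  choose γ hγ hγ' using fun Q : DC n => exists_pathY hn1 (mapY ρ (f Q.c)) a
  have hsup := fun Q hQ => supp_item hA hh hσ hf hf' hρ (hsg Q hQ) (ha Q hQ)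
  have hpath := fun Q hQ => path_real R (l := 250 * (16 * R.C * A ^ 2) * Q.side)
    (by have := Q.side_pos; positivity) ((hsup Q hQ).1 Q.c (Q.op_subset_cl Q.c_mem_op)).2
    (ha Q hQ) (hγ Q) (hγ' Q) (by
      have h1 : R.C * (A + 1) * 4 ≤ 250 * (16 * R.C * A ^ 2) := by linarith only [hA, hA2, hCA, hCA', hCA'']
      have h2 := mul_le_mul_of_nonneg_right h1 Q.side_pos.le
      linarith only [h2])
  obtain ⟨Lf, -, hLf⟩ := hf.exists_lip hσ
  obtain ⟨Lf', -, hLf'⟩ := hf'.exists_lip hσ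
  obtain ⟨b, b1, b2, b3, -, b5⟩ := two_phase hn1 hL.le hu hu'
    (fun z => R.ι (seg a f (fun x => mapY ρ (f x)) z)) hs {x | mapY ρ (f x) = f x}
    (isClosed_eq hLf'.continuous hLf.continuous)
    (fun x hx => (hf'.out x hx).trans (hf.out x hx).symm) hcov
    (fun x hx => ⟨congrArg R.ι hx, fun τ _ => congrArg R.ι
      (seg_of_eq a (f := f) (f' := fun x => mapY ρ (f x)) (x := x) hx τ)⟩)
    (fun Q hQ => side_real R hA hh hσ hf hf' hρ (hsg Q hQ) (ha Q hQ)) (R.ι (vtx a))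
    (fun Q t => R.ι (γ Q t)) fun Q hQ => (hpath Q hQ).2
  have hcc : ∀ Q : DC n, Q.core.core.Sub Q := fun Q => Q.core.core_sub.trans Q.core_sub
  have H := hcan X (DC n) R.ι a y C0 b s (fun Q => Q.core.core)
    (fun Q => teth (γ Q) (diffE f (fun x => mapY ρ (f x)) (seg a f fun x => mapY ρ (f x)) Q.pos))
    (fun Q => closedBall (h Q.c) ((A + 1) * Q.side)) (fun Q => R.C * ((A + 1) * Q.side)) b1
    (fun x hx => by rw [b3.eq_of_not_mem hx, hf'.out x hx, R.vtx])
    ⟨fun Q hQ => (hcc Q).trans (hs.1 Q hQ),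
      fun Q hQ Q' hQ' hne => (hs.2 Q hQ Q' hQ' hne).mono (hcc Q) (hcc Q')⟩ b2
    (fun Q hQ => by
      have h3 := Q.side_pos
      refine ⟨(item_cube hA hσ hf hf' hρ (hsg Q hQ) (hγ Q)).mono (by linarith only [hA, hA2, hCA]), ha Q hQ,
        fun x => ?_, by positivity, ?_, R.lip _ _ (by positivity)⟩
      · rcases range_teth (γ Q) (diffE f (fun x => mapY ρ (f x))
          (seg a f fun x => mapY ρ (f x)) Q.pos) (mem_range_self x) with ⟨t, e⟩ | ⟨t, e⟩
        · rw [← e]; exact (hpath Q hQ).1 t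
        · rw [← e]
          exact diffE_prop (fun β : Ys n X => ↑β.supp ⊆ closedBall (h Q.c) ((A + 1) * Q.side))
            _ _ _ Q.pos (by rw [DC.pos_snd]; positivity) (hsup Q hQ).1 (hsup Q hQ).2 t
      · rw [DC.core_side, DC.core_side]
        have h1 : R.C * (A + 1) ≤ 100000 * (R.C * A ^ 2) := by linarith only [hA, hA2, hCA, hCA', hCA'']
        have h2 := mul_le_mul_of_nonneg_right h1 h3.le
        linarith only [h2])
    fun φ hφ => sum_zero hn hA hσ hf hf' hρ hs hsg hcov γ hγ hφ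
  have e : (fun (Q : DC n) x => R.ι (teth (γ Q) (diffE f (fun x => mapY ρ (f x))
      (seg a f fun x => mapY ρ (f x)) Q.pos) x)) = fun Q => teth (fun t => R.ι (γ Q t))
        (diffE (fun x => R.ι (f x)) (fun x => R.ι (mapY ρ (f x)))
          (fun z => R.ι (seg a f (fun x => mapY ρ (f x)) z)) Q.pos) := by
    funext Q
    rw [teth_comp R.ι, diffE_comp R.ι]
  rw [e] at H
  have hT := C0.side_pos
  have hU : C0.op ⊆ C0.big := C0.op_subset_cl.trans C0.cl_subset_big
  have hM : 0 ≤ C + 100000 * (16 * R.C * A ^ 2) := by positivity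
  have hM1 : C ≤ C + 100000 * (16 * R.C * A ^ 2) := by linarith only [hA, hA2, hCA]
  have hM2 : 100000 * (16 * R.C * A ^ 2) ≤ C + 100000 * (16 * R.C * A ^ 2) := by linarith only [hC1]
  have H1 := ((b5.mono hM2 le_rfl le_rfl hU).trans (H.mono hM1 le_rfl le_rfl subset_rfl) hM
    (by linarith) hT.le).trans (b3.symm.mono hM2 le_rfl le_rfl hU) hM (by linarith only [hT]) (by linarith only [hT])
  have H2 := H1.speed hM hT (by linarith)
  refine H2.mono (le_of_eq ?_) (by norm_num) le_rfl subset_rfl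
  field_simp
  ring

end Pool.Agent.Work.MP_4b5e6c_gt
end

-- merged part: Pool.Agent.Work.MP_4b5e6c_gt.KC
section
/-! Task KC: insertion of the correcting spheres. -/

namespace Pool.Agent.Work.MP_4b5e6c_gt
open Metric Set

namespace KC

variable {n m : ℕ} {X : Type} [MetricSpace X]
  {C0 : DC n} {y : X} {h : D n → X} {κ A L0 : ℝ} {s : Fin m → X → ℝ} {M' d : ℕ}
  {N : Finset (X × ℤ)} {f : Fin m → D n → Ys n (X × ℤ)} {T : Fin m → X × ℤ → Finset (Tm n)}
  {u : Fin m → Tm n → List (X × ℤ)} {Q P : Fin m → (Σ _ : X × ℤ, Tm n) → DC n}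
  {a : Fin m → (Σ _ : X × ℤ, Tm n) → X × ℤ} {e : (Σ _ : X × ℤ, Tm n) → D n → Ys n (X × ℤ)}

theorem sg_eq (τ : Tm n) : τ.sg = 1 ∨ τ.sg = -1 := by
  unfold Tm.sg
  rcases Int.units_eq_one_or (Equiv.Perm.sign τ.2.1) with h | h <;>
    rcases neg_one_pow_eq_or ℤ (τ.2.2 : ℕ) with h' | h' <;> simp [h, h']

theorem Place.arr (hp : Place d C0 h s N f T u Q P a) (k : Fin m) :
    Arr (N.sigma (T k)) fun i => (P k i).pos :=
  ⟨fun i _ => by have := (P k i).side_pos; simp only [DC.pos_snd]; linarith only [this], hp.disj k⟩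

theorem Place.side (hp : Place d C0 h s N f T u Q P a) {k : Fin m} {i : Σ _ : X × ℤ, Tm n}
    (hi : i ∈ N.sigma (T k)) : (P k i).side = (Q k i).side / 2 ^ (12 + d) :=
  DC.side_of_j_add (hp.lev k i hi)

theorem Place.mem_cl (hp : Place d C0 h s N f T u Q P a) {k : Fin m} {i : Σ _ : X × ℤ, Tm n}
    (hi : i ∈ N.sigma (T k)) {x : D n} (hx : x ∈ (P k i).op) : x ∈ (Q k i).cl :=
  DC.op_subset_cl _ (hp.sub k i hi hx)

/-- The items fit if the constant is large compared with a lower bound for the scale. -/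
theorem Place.item (hn : 1 ≤ n) (hin : KIn C0 y h κ s) (hp : Place d C0 h s N f T u Q P a)
    {k : Fin m} {i : Σ _ : X × ℤ, Tm n} (hi : i ∈ N.sigma (T k)) (hL0 : 0 ≤ L0)
    (he : Item (vtx (a k i)) L0 (e i)) {x : D n} (hx : x ∈ (P k i).op) {r B : ℝ} (hr : 0 < r)
    (hrx : r ≤ 2 * s k (h x)) (hB : L0 * 2 ^ (12 + d) ≤ B) :
    Item (vtx (a k i)) (B / r * (P k i).pos.2) (e i) := by
  refine he.mono ?_
  have h1 := (bounds hn hin k (hp.mem k i hi).1 (hp.mem_cl hi hx)).1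
  have h2 : (0 : ℝ) < 2 ^ (12 + d) := by positivity
  rw [DC.pos_snd, hp.side hi]
  have h3 : B / r * ((Q k i).side / 2 ^ (12 + d) / 2)
      = B / 2 ^ (12 + d) * ((Q k i).side / (2 * r)) := by
    field_simp
  have h4 : L0 ≤ B / 2 ^ (12 + d) := (le_div_iff₀ h2).2 hB
  have h5 : 1 ≤ (Q k i).side / (2 * r) := (le_div_iff₀ (by positivity)).2 (by linarith only [hrx, h1])
  rw [h3]
  calc L0 = L0 * 1 := (mul_one _).symm
    _ ≤ _ := mul_le_mul h4 h5 zero_le_one (hL0.trans h4)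

theorem lip_at (hf : IsApp C0 y h s A N f) (k : Fin m) {x : D n} (x' : D n) {r B : ℝ}
    (hr : 0 < r) (hrx : r ≤ 2 * s k (h x)) (hB : 2 * |A| ≤ B) :
    dist (f k x) (f k x') ≤ B / r * dist x x' := by
  have h1 := hf.lip k x x'
  have h2 : 0 ≤ dist x x' := dist_nonneg
  have h3 : 0 ≤ dist (f k x) (f k x') := dist_nonneg
  rw [div_mul_eq_mul_div, le_div_iff₀ hr]
  have h4 := mul_le_mul_of_nonneg_left hrx h3
  have h5 := mul_le_mul_of_nonneg_right (le_abs_self A) h2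
  have h6 := mul_le_mul_of_nonneg_right hB h2
  linarith only [h1, h4, h5, h6]

theorem Place.lip (hn : 1 ≤ n) (hin : KIn C0 y h κ s) (hf : IsApp C0 y h s A N f)
    (hp : Place d C0 h s N f T u Q P a) {k : Fin m} (hL0 : 0 ≤ L0)
    (he : ∀ i ∈ N.sigma (T k), Item (vtx (a k i)) L0 (e i)) {B : ℝ} (hB2 : 2 ≤ B)
    (hB : L0 * 2 ^ (12 + d) ≤ B) (hB' : 2 * |A| ≤ B) (x x' : D n) :
    dist (ins (f k) (N.sigma (T k)) (fun i => (P k i).pos) e x)
      (ins (f k) (N.sigma (T k)) (fun i => (P k i).pos) e x') * s k (h x) ≤ B * dist x x' := by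
  have h0 := sig_pos hin k (h x)
  by_cases hx : s k (h x) ≤ dist x x'
  · have h1 := mul_le_mul_of_nonneg_right (Ys.dist_le_two
      (ins (f k) (N.sigma (T k)) (fun i => (P k i).pos) e x)
      (ins (f k) (N.sigma (T k)) (fun i => (P k i).pos) e x')) h0.le
    have h2 := mul_le_mul hB2 hx h0.le (by linarith only [hB2])
    linarith
  have hW : ∀ z ∈ closedBall x (s k (h x)), s k (h x) ≤ 2 * s k (h z) := fun z hz => by
    have h1 := sig_le hin k x z
    rw [mem_closedBall, dist_comm] at hz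
    linarith only [h0, hz, h1]
  have hg := glue_on (convex_closedBall x (s k (h x))) (↑(N.sigma (T k)))
    (fun i => (P k i).op) (fun i _ => isOpen_ball) (hp.disj k)
    (ins (f k) (N.sigma (T k)) (fun i => (P k i).pos) e) (f k)
    (fun i => sc (P k i).pos (e i)) (L := B / s k (h x)) (κ := 0) (κ0 := 0)
    (div_nonneg (by linarith only [hB2]) h0.le) le_rfl
    (fun p hp' q _ => by rw [add_zero]; exact lip_at hf k q h0 (hW p hp') hB')
    (fun i hi ⟨z, hz, hz'⟩ p _ q _ => by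
      rw [add_zero]
      exact Item.lip_sc _ ((hp.arr k).1 i hi)
        (hp.item hn hin hi hL0 (he i hi) hz h0 (hW z hz') hB) p q)
    (fun i hi p hp' => ins_of_mem (hp.arr k) hi hp')
    (fun p hp' => ins_of_not_mem (P := fun i => (P k i).pos) hp')
    (fun i hi p hp' _ => by
      have h1 : p ∈ sphere (P k i).c ((P k i).side / 2) := frontier_ball_subset_sphere hp'
      rw [hp.flat k i hi p (sphere_subset_closedBall h1)]
      refine Item.sc_eq _ ((hp.arr k).1 i hi) (he i hi) fun h2 => ?_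
      exact (mem_ball.1 h2).ne (mem_sphere.1 h1))
    x (mem_closedBall_self h0.le) x' (by rw [mem_closedBall, dist_comm]; linarith)
  rw [mul_zero, add_zero, add_zero, div_mul_eq_mul_div, le_div_iff₀ h0] at hg
  exact hg

theorem Place.near (hn : 1 ≤ n) (hin : KIn C0 y h κ s) (hf : IsApp C0 y h s A N f)
    (hT : IsCor C0 h s M' N f T u) (hp : Place d C0 h s N f T u Q P a) {k : Fin m}
    (he : ∀ i ∈ N.sigma (T k), ∀ x, ∀ b ∈ (e i x).supp, b = a k i ∨ b ∈ u k i.2) (x : D n)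
    {v : X × ℤ} (hv : v ∈ (ins (f k) (N.sigma (T k)) (fun i => (P k i).pos) e x).supp) :
    dist v.1 (h x) ≤ 20000 * s k (h x) := by
  have h0 := sig_pos hin k (h x)
  have hF : ∀ v ∈ (f k x).supp, dist v.1 (h x) ≤ 20000 * s k (h x) := fun v hv => by
    linarith only [h0, hf, hv, (hf.supp k x v hv).2.2.2]
  by_cases hx : ∃ i ∈ N.sigma (T k), x ∈ (P k i).op
  · obtain ⟨i, hi, hx⟩ := hx
    rw [ins_of_mem (hp.arr k) hi hx] at hv
    rcases he i hi _ v hv with h1 | h1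
    · refine hF v ?_
      rw [hp.flat k i hi x (DC.op_subset_cl _ hx), supp_vtx, h1]
      exact Finset.mem_singleton_self _
    · have hi' := Finset.mem_sigma.1 hi
      have h2 := (hT.near k i.1 hi'.1 i.2 hi'.2 v h1).2
      have h3 := min_le_right ((2 : ℝ) ^ v.2) ((2 : ℝ) ^ i.1.2)
      obtain ⟨hQ, x0, hx0, hr⟩ := hp.mem k i hi
      have hxQ := hp.mem_cl hi hx
      have h4 := dist_triangle4 v.1 i.1.1 (h x0) (h x)
      have h5 := hin.lip x0 x
      have h6 := DC.dist_le_side hx0 hxQ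
      linarith only [h0, h2, h3, h4, h5, h6, hr, hn, hin, hQ, hxQ, hx0, hr.2.1, hr.2.2, (bounds hn hin k hQ hxQ).2, (bounds hn hin k hQ hx0).1]
  · push Not at hx
    rw [ins_of_not_mem (P := fun i => (P k i).pos) hx] at hv
    exact hF v hv

theorem Place.nice (hn : 2 ≤ n) (hin : KIn C0 y h κ s) (hf : IsApp C0 y h s A N f)
    (hT : IsCor C0 h s M' N f T u) (hp : Place d C0 h s N f T u Q P a) {k : Fin m}
    (hL0 : 0 ≤ L0) (he : ∀ i ∈ N.sigma (T k), Item (vtx (a k i)) L0 (e i) ∧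
      (∀ x, ∀ b ∈ (e i x).supp, b = a k i ∨ b ∈ u k i.2) ∧
      ∀ φ : List (X × ℤ) → ℤ, Alt φ → degY φ (e i) = i.2.sg * cob φ (u k i.2))
    {B : ℝ} (hB2 : 20000 ≤ B) (hB : L0 * 2 ^ (12 + d) ≤ B) (hB' : 2 * |A| ≤ B) :
    Nice C0 y h (fun x => s k (h x)) B fun x =>
      mapY Prod.fst (ins (f k) (N.sigma (T k)) (fun i => (P k i).pos) e x) := by
  have hn1 : 1 ≤ n := by omega
  obtain ⟨j0, hj0⟩ := hf.out k
  refine ⟨fun x hx => ?_, fun x x' => ?_, fun x p hp' => ?_, fun x i j l hx hj => ?_,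
    fun φ hφ => ?_⟩
  · rw [ins_of_not_mem (P := fun i => (P k i).pos)
      fun i hi hx' => hx ((hp.mem k i hi).1.1 (hp.sub k i hi hx')), hj0, mapY_vtx]
    have h1 : C0.side / 2 ≤ dist x C0.c := not_lt.1 fun h1 => hx (mem_ball.2 h1)
    linarith only [h1, C0.side_pos]
  · refine le_trans ?_ (hp.lip hn1 hin hf hL0 (fun i hi => (he i hi).1) (by linarith) hB hB' x x')
    refine mul_le_mul_of_nonneg_right ?_ (sig_pos hin k _).le
    exact (lip_mapY _ _ _).trans_eq (one_mul _)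
  · obtain ⟨v, hv, rfl⟩ := mem_supp_mapY.1 hp'
    exact (hp.near hn1 hin hf hT (fun i hi => (he i hi).2.1) x hv).trans
      (mul_le_mul_of_nonneg_right hB2 (sig_pos hin k _).le)
  · refine (card_supp_mapY_le _ _).trans ?_
    rw [ins_of_not_mem (P := fun i => (P k i).pos)
      fun i' hi hx' => DC.not_wall (Q := P k i') hx' hx (le_trans ?_ hj)]
    · exact hf.wall k x i j l hx hj
    · have h1 := (bounds hn1 hin k (hp.mem k i' hi).1 (hp.mem_cl hi hx')).2
      have h2 : (2 : ℝ) ^ 12 ≤ 2 ^ (12 + d) := pow_le_pow_right₀ (by norm_num) (by omega)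
      have h3 := mul_le_mul_of_nonneg_left h2 (sig_pos hin k (h x)).le
      have h4 := sig_pos hin k (h x)
      rw [hp.side hi, div_le_iff₀ (by positivity)]
      norm_num at h3 ⊢
      linarith only [h1, h4, h3]
  · have hκ := hin.pos
    have hL : 0 ≤ B / κ := div_nonneg (by linarith) hκ.le
    have hr : ∀ x, κ ≤ 2 * s k (h x) := fun x => by linarith only [hκ, hin, hin.ge k (h x)]
    have hb : Lip (B / κ) (f k) := fun x x' => lip_at hf k x' hκ (hr x) hB'
    have hc : Cpt (vtx (y, j0)) (f k) := ⟨‖C0.c‖ + C0.side / 3, fun x hx => hj0 x (by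
      have := norm_sub_norm_le x C0.c
      rw [dist_eq_norm]; linarith only [hx, this])⟩
    have hfit : Fit (B / κ) (f k) (N.sigma (T k)) (fun i => (P k i).pos) e := by
      refine ⟨hp.arr k, fun i hi => ?_, fun i hi x hx => ?_⟩
      · rw [DC.pos_fst, hp.flat k i hi _ (DC.op_subset_cl _ (DC.c_mem_op _))]
        exact hp.item hn1 hin hi hL0 (he i hi).1 (DC.c_mem_op _) hκ (hr _) hB
      · rw [DC.pos_fst, hp.flat k i hi _ (DC.op_subset_cl _ (DC.c_mem_op _)), hp.flat k i hi x hx]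
    have hφ' := hφ.map (Prod.fst : X × ℤ → X)
    rw [degY_mapY hn hφ Prod.fst (hfit.lip hb hL) hc.ins, degY_ins hn hφ' hL hb hc hfit,
      Finset.sum_congr rfl fun i hi => (he i hi).2.2 _ hφ', Finset.sum_sigma]
    exact hT.chain k _ hφ'

end KC

theorem kc_insert {n : ℕ} (hn : 2 ≤ n) (hs : SphereS n) (M M' : ℕ) (A : ℝ) : ∃ A' : ℝ, 1 ≤ A' ∧
    ∀ (m : ℕ) (X : Type) [MetricSpace X] (C0 : DC n) (y : X) (h : D n → X) (κ : ℝ)
      (s : Fin m → X → ℝ) (N : Finset (X × ℤ)) (f : Fin m → D n → Ys n (X × ℤ))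
      (T : Fin m → X × ℤ → Finset (Tm n)) (u : Fin m → Tm n → List (X × ℤ)), KIn C0 y h κ s →
      IsNet y h s M N → IsApp C0 y h s A N f → IsCor C0 h s M' N f T u →
      ∃ g : Fin m → D n → Ys n X, (∀ k, Nice C0 y h (fun x => s k (h x)) A' (g k)) ∧
        ∀ k k' x, (∀ p, dist p (h x) ≤ A' * s k (h x) → s k p = s k' p) → g k x = g k' x := by
  obtain ⟨L0, hL0, hs⟩ := hs
  have h1 : 0 ≤ L0 * 2 ^ (12 + (M + 1) * (M' + 1)) := by positivity
  have h2 : 0 ≤ 2 * |A| := by positivity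
  refine ⟨20000 + L0 * 2 ^ (12 + (M + 1) * (M' + 1)) + 2 * |A|, by linarith only [h1, h2],
    fun m X _ C0 y h κ s N f T u hin hN hf hT => ?_⟩
  obtain ⟨Q, P, a, hp⟩ := KC.exists_place (by omega) hin hN hf hT
  have : Nonempty (Ys n (X × ℤ)) := ⟨vtx (y, 0)⟩
  choose! E hE using hs (X × ℤ)
  refine ⟨fun k x => mapY Prod.fst (ins (f k) (N.sigma (T k)) (fun i => (P k i).pos)
    (fun i => E (a k i) (u k i.2) i.2.sg) x), fun k => ?_, fun k k' x he => ?_⟩
  · exact hp.nice hn hin hf hT (by linarith only [hL0])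
      (fun i _ => hE (a k i) (u k i.2) i.2.sg (hT.len k _) (KC.sg_eq _))
      (by linarith) (by linarith) (by linarith)
  · have h0 := KC.sig_pos hin k (h x)
    have he1 : ∀ p, dist p (h x) ≤ 20000 * s k (h x) → s k p = s k' p := fun p hp' =>
      he p (hp'.trans (mul_le_mul_of_nonneg_right (by linarith) h0.le))
    have he0 : s k (h x) = s k' (h x) := he1 _ (by rw [dist_self]; positivity)
    refine congrArg (mapY Prod.fst) ?_
    by_cases hx : ∃ i ∈ N.sigma (T k), x ∈ (P k i).op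
    · obtain ⟨i, hi, hx⟩ := hx
      obtain ⟨h3, h4, h5, h6⟩ := hp.loc k k' i hi x (DC.op_subset_cl _ hx) he1
      rw [ins_of_mem (hp.arr k) hi hx, ins_of_mem (hp.arr k') h3 (by rw [h4]; exact hx), h4, h5,
        h6]
    by_cases hx' : ∃ i ∈ N.sigma (T k'), x ∈ (P k' i).op
    · obtain ⟨i, hi, hx'⟩ := hx'
      obtain ⟨h3, h4, -, -⟩ := hp.loc k' k i hi x (DC.op_subset_cl _ hx')
        fun p hp' => (he1 p (he0 ▸ hp')).symm
      exact absurd ⟨i, h3, h4 ▸ hx'⟩ hx
    push Not at hx hx'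
    rw [ins_of_not_mem (P := fun i => (P k i).pos) hx,
      ins_of_not_mem (P := fun i => (P k' i).pos) hx']
    exact hf.loc k k' x fun p hp' => he1 p (by linarith only [h0, hp'])

end Pool.Agent.Work.MP_4b5e6c_gt
end

-- merged part: Pool.Agent.Work.MP_4b5e6c_gt.Items
section
/-! Task ITEMS: the difference of two maps as items based at given sites. -/

namespace Pool.Agent.Work.MP_4b5e6c_gt
open Metric Set

variable {n : ℕ} {X : Type} [MetricSpace X]

namespace Items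

/-- Two consecutive homotopies of the same duration, run at double speed. -/
theorem twice {L T : ℝ} {U : Set (D n)} {u v w : D n → X} (hL : 0 ≤ L) (hT : 0 < T)
    (h : Hty L 0 T U u v) (h' : Hty L 0 T U v w) : Hty (2 * L) 0 T U u w := by
  have := (h.trans h' hL hT.le hT.le).speed hL hT (by linarith)
  rwa [add_zero, show L * ((T + T) / T) = 2 * L by field_simp; ring] at this

end Items

theorem exists_items (hn : 1 ≤ n) (R : Rz n X) (hc : ConeS n X) : ItemsS R := by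
  obtain ⟨C, hC, hc⟩ := hc
  intro L hL
  have hR := R.one_le
  have hCL : L ≤ C * L := le_mul_of_one_le_left (by linarith only [hL]) hC
  have hK : 1 ≤ C * L := hL.trans hCL
  obtain ⟨K, hKe⟩ : ∃ K, K = C * L := ⟨_, rfl⟩
  rw [← hKe] at hCL hK
  have hRK : 0 ≤ R.C * K := by positivity
  refine ⟨1 / (15 * K), by positivity, by rw [div_le_one (by positivity)]; linarith only [hK],
    2 * (100 * (1000 * K + 2400 * (R.C * K))), by linarith only [hK, hCL, hRK], ?_⟩
  intro C0 y u u' s v r hu hu' hy hP hout hs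
  obtain ⟨c, hc0, hc1⟩ := hc u u' L (by linarith) hu hu'
  rw [← hKe] at hc1
  have hT := C0.side_pos
  have hA : Arr s fun Q : DC n => Q.pos := hP.arr
  have hsub : ∀ Q ∈ s, Q.Sub C0 := hP.1
  have hside : ∀ Q ∈ s, Side K u u' c Q.pos := fun Q hQ =>
    hc1 Q fun x hx => ((hs Q hQ).2.2 x hx).1
  obtain ⟨d1, d2, d3, d4⟩ := diff hn (by linarith : 0 ≤ K) hT (hu.mono hCL) (hu'.mono hCL) c s
    (fun Q => Q) hA (fun Q hQ => (hsub Q hQ).side_le hn) {x | u' x = u x}
    (isClosed_eq hu'.continuous hu.continuous) hout (fun x hx => ⟨hx, fun τ _ => hc0 x hx τ⟩) hside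
  choose γ hγ using fun Q : DC n => R.exists_path hn (u' Q.c) (v Q)
  have hr : ∀ Q ∈ s, r Q ≤ 30 * K * Q.side ∧ 15 * K * Q.side ≤ r Q := by
    intro Q hQ
    obtain ⟨a, b, -⟩ := hs Q hQ
    rw [one_div, inv_mul_eq_div] at a b
    rw [div_div, div_le_iff₀ (by positivity)] at a
    rw [le_div_iff₀ (by positivity)] at b
    constructor <;> linarith only [a, b]
  have hr0 : ∀ Q ∈ s, 0 ≤ r Q := fun Q hQ =>
    le_trans (by have := Q.side_pos; positivity) (hr Q hQ).2
  have hd : ∀ Q ∈ s, dist (u' Q.c) (v Q) ≤ 10 * r Q := fun Q hQ =>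
    ((hs Q hQ).2.2 _ (Q.op_subset_cl Q.c_mem_op)).2
  have hγ' : ∀ Q ∈ s, IsPath (u' Q.c) (v Q) (20 * R.C * r Q) (γ Q) := fun Q hQ =>
    (hγ Q).mono (by
      have := mul_le_mul_of_nonneg_left (hd Q hQ) (by linarith only [hR] : 0 ≤ 2 * R.C)
      linarith)
  have hM : 1000 * K ≤ 1000 * K + 2400 * (R.C * K) := by linarith
  have hM0 : 0 ≤ 1000 * K + 2400 * (R.C * K) := by linarith only [hK, hRK]
  obtain ⟨b1, b2, b3, b4, b5⟩ := bubble hn hM0 hT (d1.mono hM) s (fun Q => Q.core)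
    (fun Q => diffE u u' c Q.pos) v γ (d3.mono hM)
    (fun Q hQ => (Q.core_sub.trans (hsub Q hQ)).side_le hn) fun Q hQ => by
      rw [coreMap_core (Q := fun Q => Q) hA hQ (Q.core.op_subset_cl Q.core.c_mem_op)]
      refine (hγ' Q hQ).mono ?_
      have := mul_le_mul_of_nonneg_left (hr Q hQ).1 (by linarith : 0 ≤ 20 * R.C)
      have h2 : 0 ≤ K * Q.side := by have := Q.side_pos; positivity
      rw [DC.core_side]
      linarith only [this, h2]
  have hM1 : 1000 * K ≤ 100 * (1000 * K + 2400 * (R.C * K)) := by linarith only [hK, hRK]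
  have hM2 : 100 * (1000 * K + 2400 * (R.C * K)) ≤
    2 * (100 * (1000 * K + 2400 * (R.C * K))) := by linarith only [hK, hRK]
  have hU1 : (⋃ Q ∈ s, Q.op) ⊆ C0.cl :=
    iUnion₂_subset fun Q hQ => Subset.trans (hsub Q hQ) C0.op_subset_cl
  have hU2 : (⋃ Q ∈ s, Q.core.op) ⊆ C0.cl :=
    iUnion₂_subset fun Q hQ => Subset.trans (Q.core_sub.trans (hsub Q hQ)) C0.op_subset_cl
  have hU3 : {x | u' x = u x}ᶜ ⊆ C0.cl := fun x hx => C0.op_subset_cl (by
    by_contra h
    exact hx ((hy x h).2.trans (hy x h).1.symm))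
  refine ⟨_, _, b1.mono hM2, fun x hx => ?_, b4.mono hM2,
    fun Q hQ => b2 Q hQ _ (Q.core.core.op_subset_cl Q.core.core.c_mem_op), fun Q hQ x => ?_,
    Items.twice (by linarith only [hK, hRK]) hT (d4.mono hM1 le_rfl le_rfl (union_subset hU1 hU3))
      (b5.mono le_rfl le_rfl le_rfl hU2),
    Items.twice (by linarith only [hK, hRK]) hT (b3.symm.mono le_rfl le_rfl le_rfl hU2)
      (d2.symm.mono hM1 le_rfl le_rfl hU1)⟩
  · rw [bubBg_of_not_mem _ _ _ _ fun Q hQ h => hx (Q.core_sub.trans (hsub Q hQ) h),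
      coreMap_of_not_mem s (fun Q => Q) fun Q hQ h => hx (hsub Q hQ h)]
    exact (hy x hx).2
  · have h0 := hr0 Q hQ
    have h1 : r Q ≤ R.C * r Q := le_mul_of_one_le_left h0 hR
    rcases range_teth (γ Q) (diffE u u' c Q.pos) ⟨x, rfl⟩ with ⟨t, ht⟩ | ⟨z, hz⟩
    · rw [← ht]
      have := ((hγ' Q hQ).dist_le (by positivity) t).2
      linarith only [h0, h1, this]
    · rw [← hz]
      have hq := Q.side_pos
      have hI := item_diffE (by linarith : 0 ≤ K) (P := Q.pos) (by simpa using hq)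
        (fun a _ b _ => hu.mono hCL a b) (fun a _ b _ => hu'.mono hCL a b) (hside Q hQ)
      have h2 := hI.dist_le hn (by simpa using by positivity) z
      have h3 := dist_triangle (diffE u u' c Q.pos z) (u' Q.c) (v Q)
      have h4 := hd Q hQ
      have h5 := (hr Q hQ).2
      rw [DC.pos_snd, DC.pos_fst] at h2
      linarith only [h0, h1, h2, h3, h4, h5]

end Pool.Agent.Work.MP_4b5e6c_gt
end

-- merged part: Pool.Agent.Work.MP_4b5e6c_gt.KillB
section
/-! Task KILLB: removal of one layer of groups of items. -/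

namespace Pool.Agent.Work.MP_4b5e6c_gt
open Metric Set

variable {n : ℕ} {X : Type} [MetricSpace X]

namespace KillB
open Classical

theorem ins_out {I Z : Type} {b : D n → Z} {s : Finset I} {Q : I → DC n} {e : I → D n → Z}
    {x : D n} (hx : ∀ i ∈ s, x ∉ (Q i).op) : ins b s (fun i => (Q i).pos) e x = b x :=
  ins_of_not_mem hx

theorem level (hn : 1 ≤ n) {x : ℝ} (hx : 0 < x) :
    ∃ j : ℤ, ∀ Q : DC n, Q.j = j → x ≤ Q.core.side ^ n ∧ Q.side ^ n ≤ 8 ^ n * x := by
  obtain ⟨j, h1, h2⟩ := exists_level_pow hn hx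
  refine ⟨j - 2, fun Q hQ => ?_⟩
  have e : Q.core.side = (2 : ℝ) ^ (-j) := by
    unfold DC.side
    congr 1
    simp [DC.core, hQ]
  have e' : Q.side = 4 * 2 ^ (-j) := by
    rw [← e, DC.core_side]
    ring
  refine ⟨e ▸ h1, ?_⟩
  rw [e', mul_pow, show (8 : ℝ) = 4 * 2 by norm_num, mul_pow, mul_assoc]
  exact mul_le_mul_of_nonneg_left h2 (by positivity)

/-- The system of hosts, workspaces, slots and targets. -/
theorem geom (hn : 1 ≤ n) (d N : ℕ) {θ : ℝ} (hθ : 0 < θ) {I Y : Type} (C0 Zs : DC n)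
    (hZs : Zs.side = C0.side) (s : Finset I) (P : I → DC n) (v : I → Y) (par : Y → Y)
    (Y0 : Finset Y) (hN : Y0.card ≤ N) (hpar : ∀ i ∈ s, par (v i) ∈ Y0)
    (h1 : ∑ i ∈ s, (P i).side ^ n ≤ 1 / (2 * 64 ^ n * (2 ^ d) ^ n) * C0.side ^ n)
    (h2 : ∀ p, ∑ i ∈ s with v i = p, (P i).side ^ n ≤ (θ * C0.side) ^ n) :
    ∃ (Z W : Y → DC n) (S R : I → DC n), Pack Zs Y0 Z ∧
      (∀ q ∈ Y0, C0.side ≤ 4 * (N + 1) * (Z q).side) ∧
      (∀ p ∈ s.image v, (W p).Sub (Z (par p)).core ∧ (W p).side ≤ 8 * 2 ^ d * θ * C0.side ∧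
        Pack (W p).core (s.filter fun i => v i = p) S) ∧
      (∀ p ∈ s.image v, ∀ p' ∈ s.image v, p ≠ p' → (W p).Disj (W p')) ∧
      ∀ i, (S i).side = 2 ^ d * (P i).side ∧ (R i).Sub (S i) ∧ (R i).j = (P i).j + 2 := by
  have hC := C0.side_pos
  have hn0 : n ≠ 0 := by omega
  set m : Y → ℝ := fun p => ((2 : ℝ) ^ d) ^ n * ∑ i ∈ s with v i = p, (P i).side ^ n with hm
  have hm0 : ∀ p ∈ s.image v, 0 < m p := fun p hp => by
    obtain ⟨i, hi, rfl⟩ := Finset.mem_image.1 hp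
    refine mul_pos (by positivity) (Finset.sum_pos (fun k _ => pow_pos (P k).side_pos n) ⟨i, ?_⟩)
    simp [hi]
  choose! jW hjW using fun p (hp : p ∈ s.image v) => level hn (hm0 p hp)
  set x : Y → ℝ := fun q => ∑ p ∈ s.image v with par p = q, ((2 : ℝ) ^ (-jW p)) ^ n +
    C0.side ^ n / (2 * 8 ^ n * (N + 1)) with hx
  have hx1 : ∀ q, 0 ≤ ∑ p ∈ s.image v with par p = q, ((2 : ℝ) ^ (-jW p)) ^ n := fun q =>
    Finset.sum_nonneg fun p _ => by positivity
  have hx2 : 0 < C0.side ^ n / (2 * 8 ^ n * (N + 1)) := by positivity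
  choose jZ hjZ using fun q => level hn (x := x q) (add_pos_of_nonneg_of_pos (hx1 q) hx2)
  have hsum : ∑ q ∈ Y0, ((2 : ℝ) ^ (-jZ q)) ^ n ≤ Zs.side ^ n := by
    have a1 : ∑ p ∈ s.image v, ((2 : ℝ) ^ (-jW p)) ^ n ≤ ∑ p ∈ s.image v, 8 ^ n * m p :=
      Finset.sum_le_sum fun p hp => (hjW p hp ⟨jW p, 0⟩ rfl).2
    have a2 : ∑ p ∈ s.image v, 8 ^ n * m p =
        8 ^ n * ((2 ^ d) ^ n * ∑ i ∈ s, (P i).side ^ n) := by
      rw [← Finset.mul_sum, hm, ← Finset.mul_sum, Finset.sum_fiberwise_of_maps_to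
        fun i hi => Finset.mem_image_of_mem v hi]
    have a3 : ∑ q ∈ Y0, x q = ∑ p ∈ s.image v, ((2 : ℝ) ^ (-jW p)) ^ n +
        Y0.card * (C0.side ^ n / (2 * 8 ^ n * (N + 1))) := by
      have hp : ∀ p ∈ s.image v, par p ∈ Y0 := fun p hp => by
        obtain ⟨i, hi, rfl⟩ := Finset.mem_image.1 hp
        exact hpar i hi
      rw [hx, Finset.sum_add_distrib, Finset.sum_const, nsmul_eq_mul,
        Finset.sum_fiberwise_of_maps_to hp]
    have a4 : (Y0.card : ℝ) * (C0.side ^ n / (2 * 8 ^ n * (N + 1))) ≤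
        C0.side ^ n / (2 * 8 ^ n) := by
      have : (Y0.card : ℝ) ≤ N + 1 := by exact_mod_cast hN.trans (Nat.le_succ N)
      refine (mul_le_mul_of_nonneg_right this hx2.le).trans (le_of_eq ?_)
      field_simp
    have a5 : (8 : ℝ) ^ n * ((2 ^ d) ^ n * ∑ i ∈ s, (P i).side ^ n) ≤
        C0.side ^ n / (2 * 8 ^ n) := by
      refine (mul_le_mul_of_nonneg_left (mul_le_mul_of_nonneg_left h1 (by positivity))
        (by positivity)).trans (le_of_eq ?_)
      rw [show (64 : ℝ) = 8 * 8 by norm_num, mul_pow]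
      field_simp
    calc _ ≤ ∑ q ∈ Y0, 8 ^ n * x q := Finset.sum_le_sum fun q _ => (hjZ q ⟨jZ q, 0⟩ rfl).2
      _ ≤ 8 ^ n * (C0.side ^ n / (2 * 8 ^ n) + C0.side ^ n / (2 * 8 ^ n)) := by
          rw [← Finset.mul_sum, a3]
          exact mul_le_mul_of_nonneg_left (by linarith only [a1, a2, a4, a5]) (by positivity)
      _ = _ := by
          rw [hZs]
          field_simp
          norm_num
  obtain ⟨Z, hZ, hZp⟩ := exists_pack hn Zs Y0 jZ hsum
  choose W' hW' hWp using fun q => exists_pack hn (Z q).core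
    ((s.image v).filter fun p => par p = q) jW
    (le_trans (le_add_of_nonneg_right hx2.le) (hjZ q (Z q) (hZ q)).1)
  have hlev : ∀ i, (2 : ℝ) ^ (-((P i).j - d)) = 2 ^ d * (P i).side := fun i => by
    rw [DC.side, neg_sub, sub_eq_add_neg, zpow_add₀ two_ne_zero, zpow_natCast]
  have hS : ∀ p, ∃ S' : I → DC n, (∀ i, (S' i).j = (P i).j - d) ∧
      (p ∈ s.image v → Pack (W' (par p) p).core (s.filter fun i => v i = p) S') := fun p => by
    by_cases hp : p ∈ s.image v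
    · obtain ⟨S', a, b⟩ := exists_pack hn (W' (par p) p).core (s.filter fun i => v i = p)
        (fun i => (P i).j - d) (le_trans (le_of_eq (by
          rw [hm]
          simp only [hlev, mul_pow, Finset.mul_sum])) (hjW p hp _ (hW' _ p)).1)
      exact ⟨S', a, fun _ => b⟩
    · exact ⟨fun i => ⟨(P i).j - d, 0⟩, fun _ => rfl, fun h => (hp h).elim⟩
  choose S' hS' hSp using hS
  choose R hR1 hR2 hR3 using fun i => DC.exists_cube
    ((S' (v i) i).op_subset_cl (S' (v i) i).c_mem_op) (j := (P i).j + 2)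
    (by rw [hS']; omega)
  have hWsub : ∀ p ∈ s.image v, (W' (par p) p).Sub (Z (par p)).core := fun p hp =>
    (hWp (par p)).1 p (Finset.mem_filter.2 ⟨hp, rfl⟩)
  refine ⟨Z, fun p => W' (par p) p, fun i => S' (v i) i, R, hZp, fun q _ => ?_,
    fun p hp => ⟨hWsub p hp, ?_, ?_, ?_⟩, fun p hp p' hp' hne => ?_,
    fun i => ⟨by rw [← hlev, DC.side, hS'], hR2 i, hR1 i⟩⟩
  · have hZ0 := (Z q).side_pos
    refine (pow_le_pow_iff_left₀ hC.le (by positivity) hn0).1 ?_
    have a1 := le_trans (le_add_of_nonneg_left (hx1 q)) (hjZ q (Z q) (hZ q)).1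
    rw [div_le_iff₀ (by positivity), DC.core_side] at a1
    refine a1.trans ?_
    have a2 : (2 : ℝ) * (N + 1) ≤ (2 * (N + 1)) ^ n :=
      le_self_pow₀ (by linarith only [Nat.cast_nonneg (α := ℝ) N]) hn0
    calc ((Z q).side / 4) ^ n * (2 * 8 ^ n * (N + 1))
        = ((Z q).side / 4 * 8) ^ n * (2 * (N + 1)) := by rw [mul_pow]; ring
      _ ≤ ((Z q).side / 4 * 8) ^ n * (2 * (N + 1)) ^ n :=
          mul_le_mul_of_nonneg_left a2 (by positivity)
      _ = _ := by
          rw [← mul_pow]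
          congr 1
          ring
  · refine (pow_le_pow_iff_left₀ (DC.side_pos _).le (by positivity) hn0).1 ?_
    refine (hjW p hp _ (hW' _ p)).2.trans ?_
    refine (mul_le_mul_of_nonneg_left (mul_le_mul_of_nonneg_left (h2 p) (by positivity))
      (by positivity)).trans (le_of_eq ?_)
    rw [← mul_pow, ← mul_pow]
    congr 1
    ring
  · intro i hi
    obtain ⟨-, rfl⟩ := Finset.mem_filter.1 hi
    exact (hSp _ hp).1 i hi
  · intro i hi k hk hik
    have e1 := (Finset.mem_filter.1 hi).2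
    have e2 := (Finset.mem_filter.1 hk).2
    simp only [e1, e2]
    exact (hSp _ hp).2 i hi k hk hik
  · by_cases h : par p = par p'
    · simp only [h]
      exact (hWp (par p')).2 p (Finset.mem_filter.2 ⟨hp, h⟩) p' (Finset.mem_filter.2 ⟨hp', rfl⟩) hne
    · obtain ⟨i, hi, rfl⟩ := Finset.mem_image.1 hp
      obtain ⟨k, hk, rfl⟩ := Finset.mem_image.1 hp'
      exact (hZp.2 _ (hpar i hi) _ (hpar k hk) h).mono ((hWsub _ hp).trans (DC.core_sub _))
        ((hWsub _ hp').trans (DC.core_sub _))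

/-- Moving all items, one base point at a time. -/
theorem move_all {C L : ℝ} (hC : 1 ≤ C) (hL : 0 < L)
    (hm : ∀ (I : Type) (s : Finset I) (y y1 : X) (L : ℝ) (C0 : DC n) (b : D n → X)
      (A B : I → DC n) (e : I → D n → X), 0 < L → Lip L b → (∀ x, x ∉ C0.op → b x = y) →
      Pack C0 s A → Pack C0 s B → (∀ i ∈ s, (A i).j = (B i).j) →
      (∀ i ∈ s, ∀ x ∈ (A i).cl ∪ (B i).cl, b x = y1) →
      (∀ i ∈ s, Item y1 (L * ((A i).side / 2)) (e i)) →
      Hty (C * L) 0 C0.side C0.big (ins b s (fun i => (A i).pos) e)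
        (ins b s (fun i => (B i).pos) e))
    {I : Type} (s : Finset I) (y : X) (C1 : DC n) (b : D n → X) (A B : I → DC n)
    (e : I → D n → X) (g : I → X) (hb : Lip L b) (hout : ∀ x, x ∉ C1.op → b x = y)
    (hA : Pack C1 s A) (hB : Pack C1 s B) (hAB : ∀ i ∈ s, ∀ k ∈ s, (A i).Disj (B k))
    (hj : ∀ i ∈ s, (A i).j = (B i).j) (hg : ∀ i ∈ s, ∀ x ∈ (A i).cl ∪ (B i).cl, b x = g i)
    (he : ∀ i ∈ s, Item (g i) (L * ((A i).side / 2)) (e i)) (T : Finset X) :
    Hty (C * L) 0 (T.card * C1.side) C1.big (ins b s (fun i => (A i).pos) e)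
      (ins b s (fun i => (if g i ∈ T then B i else A i).pos) e) := by
  set Q : Finset X → I → DC n := fun T i => if g i ∈ T then B i else A i with hQ
  have hQj : ∀ T, ∀ i ∈ s, (Q T i).j = (A i).j := fun T i hi => by
    simp only [hQ]
    split_ifs
    exacts [(hj i hi).symm, rfl]
  have hQs : ∀ T, ∀ i ∈ s, (Q T i).Sub C1 := fun T i hi => by
    simp only [hQ]
    split_ifs
    exacts [hB.1 i hi, hA.1 i hi]
  have hQd : ∀ T T', ∀ i ∈ s, ∀ k ∈ s, i ≠ k → (Q T i).Disj (Q T' k) := fun T T' i hi k hk h => by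
    simp only [hQ]
    split_ifs
    exacts [hB.2 i hi k hk h, (hAB k hk i hi).symm, hAB i hi k hk, hA.2 i hi k hk h]
  have hQg : ∀ T, ∀ i ∈ s, ∀ x ∈ (Q T i).cl, b x = g i := fun T i hi x hx => by
    refine hg i hi x ?_
    simp only [hQ] at hx
    split_ifs at hx
    exacts [Or.inr hx, Or.inl hx]
  have hQp : ∀ T, Pack C1 s (Q T) := fun T => ⟨hQs T, hQd T T⟩
  have hQe : ∀ T, ∀ i ∈ s, Item (g i) (L * ((Q T i).side / 2)) (e i) := fun T i hi => by
    rw [DC.side_eq_of_j (hQj T i hi)]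
    exact he i hi
  have hQf : ∀ T, Fit L b s (fun i => (Q T i).pos) e := fun T => by
    have hc : ∀ i ∈ s, b (Q T i).c = g i := fun i hi =>
      hQg T i hi _ ((Q T i).op_subset_cl (Q T i).c_mem_op)
    refine ⟨(hQp T).arr, fun i hi => ?_, fun i hi x hx => ?_⟩
    · simp only [DC.pos_fst, DC.pos_snd, hc i hi]
      exact hQe T i hi
    · simp only [DC.pos_fst, hc i hi]
      exact hQg T i hi x hx
  have hCL : L ≤ C * L := le_mul_of_one_le_left hL.le hC
  change Hty _ _ _ _ _ (ins b s (fun i => (Q T i).pos) e)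
  induction T using Finset.induction_on with
  | empty =>
    have : Q ∅ = A := by
      funext i
      simp [hQ]
    rw [← this]
    exact Hty.refl (((hQf ∅).lip hb hL.le).mono hCL) (by positivity) le_rfl
  | insert q T hq ih =>
    set s1 := s.filter fun i => ¬ g i = q with hs1
    set s2 := s.filter fun i => g i = q with hs2
    have hs : s1 ∪ s2 = s := by
      rw [Finset.union_comm]
      exact Finset.filter_union_filter_not_eq _ s
    have hd : Disjoint s1 s2 := (Finset.disjoint_filter_filter_not s s _).symm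
    have h1 : s1 ⊆ s := Finset.filter_subset _ _
    have h2 : s2 ⊆ s := Finset.filter_subset _ _
    have e1 : ∀ T, ins b s (fun i => (Q T i).pos) e =
        ins (ins b s1 (fun i => (Q T i).pos) e) s2 (fun i => (Q T i).pos) e := fun T => by
      rw [← ins_union (by rw [hs]; exact (hQp T).arr) hd, hs]
    have e2 : ins b s1 (fun i => (Q (insert q T) i).pos) e = ins b s1 (fun i => (Q T i).pos) e := by
      refine ins_congr ((hQp _).arr.subset h1) (fun i hi => ?_) fun _ _ => rfl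
      simp [hQ, (Finset.mem_filter.1 hi).2]
    have key := hm I s2 y q L C1 (ins b s1 (fun i => (Q T i).pos) e) (Q T) (Q (insert q T)) e hL
      (((hQf T).subset h1).lip hb hL.le)
      (fun x hx => (ins_out fun i hi h => hx (hQs T i (h1 hi) h)).trans (hout x hx))
      ⟨fun i hi => hQs _ i (h2 hi), fun i hi k hk => hQd _ _ i (h2 hi) k (h2 hk)⟩
      ⟨fun i hi => hQs _ i (h2 hi), fun i hi k hk => hQd _ _ i (h2 hi) k (h2 hk)⟩
      (fun i hi => (hQj _ i (h2 hi)).trans (hQj _ i (h2 hi)).symm) (fun i hi x hx => ?_)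
      fun i hi => (Finset.mem_filter.1 hi).2 ▸ hQe T i (h2 hi)
    · rw [← e1, ← e2, ← e1] at key
      have := ih.trans key (by positivity) (mul_nonneg (Nat.cast_nonneg _) C1.side_pos.le)
        C1.side_pos.le
      refine this.mono le_rfl (by simp) (le_of_eq ?_) subset_rfl
      rw [Finset.card_insert_of_notMem hq]
      push_cast
      ring
    · have hk : ∀ k ∈ s1, k ≠ i := fun k hk h => Finset.disjoint_left.1 hd hk (h ▸ hi)
      rw [← (Finset.mem_filter.1 hi).2]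
      rcases hx with hx | hx <;>
        exact (ins_out fun k hk' h => Set.disjoint_left.1
          (hQd _ _ k (h1 hk') i (h2 hi) (hk k hk')).op_cl h hx).trans (hQg _ i (h2 hi) x hx)

/-- All groups are removed in parallel. -/
theorem patch_kill (hn : 2 ≤ n) {Λ κ η L ω : ℝ} (hF : Fill n X Λ κ) (hκ : 0 ≤ κ) (hη : 0 ≤ η)
    (hL : 0 ≤ L) (hΛ : 1 ≤ Λ) (hLΛ : 100 * L ≤ η * Λ) (hω : 0 ≤ ω) {I : Type} (s : Finset I)
    (v : I → X) (par : X → X) (γ : X → ℝ → X) (l : X → ℝ) (W : X → DC n) (S R : I → DC n)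
    (e : I → D n → X) (b : D n → X) (hb : Lip (η * Λ) b)
    (hγ : ∀ p, IsPath p (par p) (l p) (γ p)) (hl0 : ∀ p, 0 ≤ l p)
    (hW : ∀ p ∈ s.image v, (∀ x ∈ (W p).cl, b x = par p) ∧ (W p).side ≤ ω ∧
      Pack (W p).core (s.filter fun i => v i = p) S)
    (hWd : ∀ p ∈ s.image v, ∀ p' ∈ s.image v, p ≠ p' → (W p).Disj (W p'))
    (hR : ∀ i, (R i).Sub (S i)) (hRa : Arr s fun i => (R i).pos)
    (hl : ∀ i ∈ s, l (v i) ≤ L * (R i).side) (he : ∀ i ∈ s, Item (v i) (L * (R i).side) (e i))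
    (he' : ∀ i ∈ s, Item (v i) (η * ((S i).side / 2)) (e i))
    (hnull : ∀ (p : X) (L' : ℝ) (P' : I → Pos n), 0 ≤ L' →
      Fit L' (fun _ => p) (s.filter fun i => v i = p) P' e →
      Null (ins (fun _ => p) (s.filter fun i => v i = p) P' e)) :
    Hty (η * Λ) (2 * (η * κ * ω)) (3 * ω) (⋃ p ∈ (s.image v : Set X), (W p).op)
      (ins b s (fun i => (R i).pos) fun i => teth (γ (v i)) (e i)) b := by
  have hRW : ∀ i ∈ s, (R i).Sub (W (v i)) := fun i hi =>
    ((hR i).trans ((hW _ (Finset.mem_image_of_mem v hi)).2.2.1 i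
      (Finset.mem_filter.2 ⟨hi, rfl⟩))).trans (DC.core_sub _)
  refine Hty.patch (s.image v : Set X) (fun p => (W p).op) (fun p _ => isOpen_ball)
    (fun p hp p' hp' h => hWd p hp p' hp' h) b
    (fun p => ins (fun _ => par p) (s.filter fun i => v i = p) (fun i => (R i).pos)
      fun i => teth (γ p) (e i)) (fun p _ => par p) hb (by positivity) (by positivity)
    (fun p hp => ?_) (fun p hp x hx => ?_) (fun x hx => ⟨?_, rfl⟩) fun p hp x hx => ?_
  · obtain ⟨-, h2, h3⟩ := hW p hp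
    obtain ⟨i, hi, rfl⟩ := Finset.mem_image.1 hp
    have hit : ∀ k ∈ s.filter fun k => v k = v i, Item (v i) (η * ((S k).side / 2)) (e k) :=
      fun k hk => (Finset.mem_filter.1 hk).2 ▸ he' k (Finset.mem_filter.1 hk).1
    refine (kill_local hn hF hκ hη hL hΛ hLΛ (hγ (v i)) (hl0 _) (W (v i)) _ S R e h3
      (fun k _ => hR k) ((hl i hi).trans (mul_le_mul_of_nonneg_left
        ((hRW i hi).side_le (by omega)) hL))
      (fun k hk => (Finset.mem_filter.1 hk).2 ▸ hl k (Finset.mem_filter.1 hk).1)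
      (fun k hk => (Finset.mem_filter.1 hk).2 ▸ he k (Finset.mem_filter.1 hk).1) hit
      (hnull _ η _ hη ⟨h3.arr, hit, fun _ _ _ _ => rfl⟩)).mono le_rfl ?_ ?_ subset_rfl
    · exact mul_le_mul_of_nonneg_left h2 (by positivity)
    · linarith only [h2]
  · have hbx := (hW p hp).1 x ((W p).op_subset_cl hx)
    refine ⟨?_, hbx⟩
    by_cases h : ∃ i ∈ s, x ∈ (R i).op
    · obtain ⟨i, hi, h⟩ := h
      have hv : v i = p := by
        by_contra hne
        exact Set.disjoint_left.1 (hWd _ (Finset.mem_image_of_mem v hi) p hp hne) (hRW i hi h) hx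
      rw [ins_of_mem hRa hi h, ins_of_mem (hRa.subset (Finset.filter_subset _ _))
        (Finset.mem_filter.2 ⟨hi, hv⟩) h, hv]
    · rw [ins_out fun i hi h' => h ⟨i, hi, h'⟩,
        ins_out fun i hi h' => h ⟨i, (Finset.mem_filter.1 hi).1, h'⟩, hbx]
  · exact ins_out fun i hi h =>
      hx _ (Finset.mem_coe.2 (Finset.mem_image_of_mem v hi)) (hRW i hi h)
  · have h1 : x ∈ (W p).cl := closure_ball_subset_closedBall (frontier_subset_closure hx)
    have h2 : x ∉ (W p).op := fun h =>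
      hx.2 (by rwa [DC.op, isOpen_ball.interior_eq])
    rw [(hW p hp).1 x h1]
    refine ins_out fun i hi h => h2 ?_
    obtain ⟨hi1, hi2⟩ := Finset.mem_filter.1 hi
    exact hi2 ▸ hRW i hi1 h

end KillB

open Classical KillB in
theorem kill_layer (hn : 2 ≤ n) (R : Rz n X) (hm : MoveS n X) : KillS n X := by
  obtain ⟨Cm, hCm, hm⟩ := hm
  intro L η hL hη hη1
  have hn1 : 1 ≤ n := by omega
  obtain ⟨d, hd⟩ := pow_unbounded_of_one_lt (L / η) (one_lt_two (α := ℝ))
  have hd0 : (0 : ℝ) < 2 ^ d := by positivity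
  refine ⟨1 / (2 * 64 ^ n * (2 ^ d) ^ n), 24 * 2 ^ d + 1, by positivity, by linarith only [hd0],
    fun θ θ' N hθ hθ1 hθ' => ?_⟩
  have hc : 0 < R.C := by linarith only [R.one_le]
  have hN0 : (0 : ℝ) ≤ N := Nat.cast_nonneg N
  obtain ⟨L1, hL1, hL1'⟩ : ∃ L1 : ℝ, L ≤ L1 ∧ 8 * R.C * (N + 1) ≤ L1 :=
    ⟨_, le_max_left _ _, le_max_right _ _⟩
  obtain ⟨L2, hL2, hL2'⟩ : ∃ L2 : ℝ, 100 * L1 ≤ L2 ∧ 8 * R.C / θ' ≤ L2 :=
    ⟨_, le_max_left _ _, le_max_right _ _⟩
  have hL2p : 100 ≤ L2 := by linarith only [hL, hL1, hL2]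
  have hK : 100 * L2 ≤ Cm * (100 * L2) := le_mul_of_one_le_left (by linarith only [hL, hL1, hL2]) hCm
  have hM : 1 ≤ 4 * ((N : ℝ) + 1) / θ := by
    rw [le_div_iff₀ hθ]
    linarith only [hθ1]
  refine ⟨Cm * (100 * L2) * (4 * (N + 1) / θ) / η,
    fun Λ κ hΛ hκ hF I C0 y b s P e v par Y0 hb hout hP hf hv hN hY hpar hnull h1 h2 => ?_⟩
  have hΛ1 : Cm * (100 * L2) * (4 * (N + 1) / θ) ≤ η * Λ := by
    rw [div_le_iff₀ hη] at hΛ
    linarith only [hΛ]
  have hΛ2 : 100 * L2 ≤ η * Λ :=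
    hK.trans ((le_mul_of_one_le_right (by linarith only [hL, hL1, hL2, hK]) hM).trans hΛ1)
  have hΛ3 : 1 ≤ Λ := by
    by_contra h
    have : η * Λ ≤ 1 * 1 := (mul_le_mul_of_nonneg_left (not_le.1 h).le hη.le).trans (by linarith only [hη1])
    linarith only [hL, hL1, hL2, hΛ2, this]
  have hσ := C0.side_pos
  obtain ⟨Zs, hZj, hZs, hZd⟩ := DC.exists_sibling hn1 C0
  obtain ⟨Z, W, S, Q, hZ, hZl, hW, hWd, hS⟩ := geom hn1 d N hθ C0 Zs (DC.side_eq_of_j hZj) s P v
    par Y0 hN (fun i hi => (hpar i hi).1) h1 h2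
  choose γ1 hγ1 using fun q => R.exists_path hn1 y q
  choose γ2 hγ2 using fun p => R.exists_path hn1 p (par p)
  have hbig : ∀ T : DC n, T.Sub C0.parent → T.op ⊆ C0.parent.big := fun T h =>
    Set.Subset.trans h ((DC.op_subset_cl _).trans (DC.cl_subset_big _))
  have hcc : ∀ T : DC n, T.c ∈ T.cl := fun T => T.op_subset_cl T.c_mem_op
  have hCZ : ∀ q ∈ Y0, C0.Disj (Z q) := fun q hq => hZd.symm.mono (DC.Sub.refl _) (hZ.1 q hq)
  have hPZ : ∀ i ∈ s, ∀ q ∈ Y0, (P i).Disj (Z q) := fun i hi q hq =>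
    (hCZ q hq).mono (hP.1 i hi) (DC.Sub.refl _)
  have hZy : ∀ q ∈ Y0, ∀ x ∈ (Z q).cl, b x = y := fun q hq x hx =>
    hout x fun h => Set.disjoint_left.1 (hCZ q hq).op_cl h hx
  have hPs : ∀ i, (P i).side = 4 * (Q i).side := fun i => by
    rw [DC.side_of_j_add (m := 2) (hS i).2.2]
    ring
  have hl : ∀ i ∈ s, 2 * R.C * dist (v i) (par (v i)) ≤ L2 * (Q i).side := fun i hi => by
    have a1 : dist (v i) (par (v i)) ≤ 4 * (Q i).side / θ' := by
      rw [le_div_iff₀ hθ', ← hPs, mul_comm]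
      exact (hpar i hi).2
    refine (mul_le_mul_of_nonneg_left a1 (by positivity)).trans
      (le_trans (le_of_eq (by ring)) (mul_le_mul_of_nonneg_right hL2' (Q i).side_pos.le))
  -- the bubbles at the hosts
  obtain ⟨hb1, hb1q, G1, -, -⟩ := bubble hn1 (L := L1) (by linarith only [hL, hL1]) hσ (hb.mono hL1) Y0 Z
    (fun _ _ => y) (fun q => q) γ1
    ⟨hZ.arr, fun q hq => by
      rw [DC.pos_fst, hZy q hq _ (hcc _)]
      exact ⟨lip_const (mul_nonneg (by linarith only [hL, hL1]) (half_pos (Z q).side_pos).le) y, fun _ _ => rfl⟩,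
      fun q hq x hx => (hZy q hq x hx).trans (hZy q hq _ (hcc _)).symm⟩
    (fun q hq => ((hZ.1 q hq).side_le hn1).trans (DC.side_eq_of_j hZj).le)
    fun q hq => by
      rw [hZy q hq _ (hcc _)]
      refine (hγ1 q).mono ?_
      have a1 : dist y q ≤ 4 * (N + 1) * (Z q).side := by
        rw [dist_comm]
        exact (hY q hq).trans (hZl q hq)
      refine (mul_le_mul_of_nonneg_left a1 (by positivity)).trans
        (le_trans (le_of_eq (by ring)) (mul_le_mul_of_nonneg_right hL1' (Z q).side_pos.le))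
  set b1 := bubBg b Y0 Z γ1 with hb1d
  obtain ⟨H1, hf1⟩ := G1.insert (by linarith only [hL, hL1]) (hf.mono (by linarith only [hL, hL1])) fun i hi =>
    Set.disjoint_iUnion₂_right.2 fun q hq => hPZ i hi q hq
  have hb1v : ∀ i ∈ s, b1 (P i).c = v i := fun i hi =>
    (bubBg_of_not_mem b Y0 Z γ1 fun q hq h =>
      Set.disjoint_left.1 (hPZ i hi q hq) (P i).c_mem_op h).trans (hv i hi)
  -- the bubbles at the items
  obtain ⟨hb2, hb2q, G2, hf2, H2⟩ := bubble hn1 (L := L2) (by linarith only [hL, hL1, hL2]) hσ (hb1.mono hL2) s P e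
    (fun i => par (v i)) (fun i => γ2 (v i)) (hf1.mono hL2)
    (fun i hi => (hP.1 i hi).side_le hn1) fun i hi => by
      rw [hb1v i hi]
      refine (hγ2 _).mono ((hl i hi).trans (mul_le_mul_of_nonneg_left ?_ (by linarith only [hL, hL1, hL2])))
      linarith only [hPs, hPs i, (Q i).side_pos]
  set b2 := bubBg b1 s P fun i => γ2 (v i) with hb2d
  have hb2Z : ∀ q ∈ Y0, ∀ x ∈ (Z q).core.cl, b2 x = q := fun q hq x hx =>
    (bubBg_of_not_mem b1 s P _ fun i hi h => Set.disjoint_left.1 (hPZ i hi q hq).op_cl h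
      ((DC.core_sub _).cl_subset hx)).trans (hb1q q hq x hx)
  have hvi : ∀ i ∈ s, v i ∈ s.image v := fun i hi => Finset.mem_image_of_mem v hi
  have hQW : ∀ i ∈ s, (Q i).Sub (W (v i)) := fun i hi =>
    ((hS i).2.1.trans ((hW _ (hvi i hi)).2.2.1 i (Finset.mem_filter.2 ⟨hi, rfl⟩))).trans
      (DC.core_sub _)
  have hQZ : ∀ i ∈ s, (Q i).Sub (Z (par (v i))).core := fun i hi =>
    (hQW i hi).trans (hW _ (hvi i hi)).1
  have hQp : Pack C0.parent s Q := by
    refine ⟨fun i hi => (((hQZ i hi).trans (DC.core_sub _)).trans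
      (hZ.1 _ (hpar i hi).1)).trans hZs, fun i hi k hk h => ?_⟩
    by_cases a : v i = v k
    · exact ((hW _ (hvi k hk)).2.2.2 i (Finset.mem_filter.2 ⟨hi, a⟩) k
        (Finset.mem_filter.2 ⟨hk, rfl⟩) h).mono (hS i).2.1 (hS k).2.1
    · exact (hWd _ (hvi i hi) _ (hvi k hk) a).mono (hQW i hi) (hQW k hk)
  -- the moves
  have H3 := move_all hCm (L := 100 * L2) (by linarith only [hL, hL1, hL2]) hm s y C0.parent b2 (fun i => (P i).core) Q
    (fun i => teth (γ2 (v i)) (e i)) (fun i => par (v i)) hb2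
    (fun x hx => (bubBg_of_not_mem b1 s P _ fun i hi h =>
      hx (C0.sub_parent (hP.1 i hi h))).trans ((bubBg_of_not_mem b Y0 Z γ1 fun q hq h =>
        hx (hZs (hZ.1 q hq h))).trans (hout x fun h => hx (C0.sub_parent h))))
    ⟨fun i hi => ((DC.core_sub _).trans (hP.1 i hi)).trans C0.sub_parent,
      fun i hi k hk h => (hP.2 i hi k hk h).mono (DC.core_sub _) (DC.core_sub _)⟩ hQp
    (fun i hi k hk => (hPZ i hi _ (hpar k hk).1).mono (DC.core_sub _)
      ((hQZ k hk).trans (DC.core_sub _)))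
    (fun i _ => (hS i).2.2.symm)
    (fun i hi x hx => hx.elim (hb2q i hi x) fun h =>
      hb2Z _ (hpar i hi).1 x ((hQZ i hi).cl_subset h))
    (fun i hi => by
      have := hf2.item i hi
      rwa [DC.pos_fst, hb2q i hi _ (hcc _)] at this) Y0
  rw [← ins_congr (P := fun i => (Q i).pos)
    (P' := fun i => (if par (v i) ∈ Y0 then Q i else (P i).core).pos) hQp.arr
    (fun i hi => by rw [if_pos (hpar i hi).1]) fun _ _ => rfl] at H3
  -- the removal
  have hei : ∀ i ∈ s, Item (v i) (L * ((P i).side / 2)) (e i) := fun i hi => by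
    have := hf.item i hi
    rwa [DC.pos_fst, hv i hi] at this
  have H4 := patch_kill hn hF hκ hη.le (L := L2) (ω := 8 * 2 ^ d * θ * C0.side) (by linarith only [hL, hL1, hL2]) hΛ3
    hΛ2 (by positivity) s v par γ2 _ W S Q e b2 (hb2.mono hΛ2) hγ2 (fun p => by positivity)
    (fun p hp => ⟨fun x hx => by
      obtain ⟨i, hi, rfl⟩ := Finset.mem_image.1 hp
      exact hb2Z _ (hpar i hi).1 x ((hW _ hp).1.cl_subset hx), (hW p hp).2⟩) hWd
    (fun i => (hS i).2.1) hQp.arr hl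
    (fun i hi => (hei i hi).mono (by
      have := mul_le_mul_of_nonneg_right (show 2 * L ≤ L2 by linarith only [hL, hL1, hL2]) (Q i).side_pos.le
      rw [hPs]
      linarith only [this]))
    (fun i hi => (hei i hi).mono (by
      rw [div_lt_iff₀ hη] at hd
      have := mul_le_mul_of_nonneg_right hd.le (P i).side_pos.le
      rw [(hS i).1]
      linarith only [this])) hnull
  -- assembly
  have hU1 : (⋃ q ∈ Y0, (Z q).op) ⊆ C0.parent.big :=
    Set.iUnion₂_subset fun q hq => hbig _ ((hZ.1 q hq).trans hZs)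
  have hU2 : (⋃ i ∈ s, (P i).op) ⊆ C0.parent.big :=
    Set.iUnion₂_subset fun i hi => hbig _ ((hP.1 i hi).trans C0.sub_parent)
  have hU4 : (⋃ p ∈ (s.image v : Set X), (W p).op) ⊆ C0.parent.big :=
    Set.iUnion₂_subset fun p hp => by
      obtain ⟨i, hi, rfl⟩ := Finset.mem_image.1 hp
      exact hbig _ ((((hW _ hp).1.trans (DC.core_sub _)).trans (hZ.1 _ (hpar i hi).1)).trans hZs)
  have hK0 : 0 ≤ Cm * (100 * L2) := by linarith only [hL, hL1, hL2, hK]
  have hK1 : 100 * L1 ≤ Cm * (100 * L2) := by linarith only [hL, hL1, hL2, hK]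
  have hsp : ∀ {u u' : D n → X}, Hty (Cm * (100 * L2)) 0 ((2 * N + 2) * C0.side) C0.parent.big u u' →
      Hty (η * Λ) 0 (θ * C0.side / 2) C0.parent.big u u' := fun h => by
    refine (h.speed hK0 (by positivity) ?_).mono (le_trans (le_of_eq ?_) hΛ1) le_rfl le_rfl
      subset_rfl
    · have := mul_le_mul_of_nonneg_right (show θ / 2 ≤ 2 * N + 2 by linarith only [hθ1]) hσ.le
      linarith only [this]
    · field_simp
      ring
  have hNc : (Y0.card : ℝ) * C0.parent.side ≤ 2 * N * C0.side := by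
    rw [DC.parent_side]
    have := mul_le_mul_of_nonneg_right (show (Y0.card : ℝ) ≤ N by exact_mod_cast hN) hσ.le
    linarith only [this]
  have A1 := hsp ((((H1.mono hK1 le_rfl le_rfl hU1).trans (H2.mono hK le_rfl le_rfl hU2) hK0 hσ.le
    hσ.le).trans (H3.mono le_rfl le_rfl hNc subset_rfl) hK0 (by positivity) (by positivity)).mono
      le_rfl (by norm_num) (le_of_eq (by ring)) subset_rfl)
  have A2 := hsp (((G2.symm.mono hK le_rfl le_rfl hU2).trans (G1.symm.mono hK1 le_rfl le_rfl hU1)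
    hK0 hσ.le hσ.le).mono le_rfl (by norm_num) (by linarith only [hN0, hσ, mul_nonneg hN0 hσ.le]) subset_rfl)
  refine ((A1.trans (H4.mono le_rfl le_rfl le_rfl hU4) (by positivity) (by positivity)
    (by positivity)).trans A2 (by positivity) (by positivity) (by positivity)).mono le_rfl ?_
    (le_of_eq (by ring)) subset_rfl
  have a1 : 0 ≤ θ * κ * C0.side := by positivity
  have a2 : η * (2 ^ d * (θ * κ * C0.side)) ≤ 1 * (2 ^ d * (θ * κ * C0.side)) :=
    mul_le_mul_of_nonneg_right hη1 (by positivity)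
  have a3 : 0 ≤ 2 ^ d * (θ * κ * C0.side) := by positivity
  linarith only [a1, a2, a3]

end Pool.Agent.Work.MP_4b5e6c_gt
end
end

-- merged part: Pool.Agent.Work.MP_4b5e6c_gt.Step
section
-- merged part: Pool.Agent.Work.MP_4b5e6c_gt.Collapse
section
/-! Task COLLAPSE: nice maps at the scale of the distance to finitely many points contract. -/

namespace Pool.Agent.Work.MP_4b5e6c_gt
open Metric Set

variable {n : ℕ} {X : Type} [MetricSpace X]

namespace Collapse

theorem dist_base (hn : 2 ≤ n) {C0 : DC n} {y : X} {h : D n → X} (hh : Lip 1 h)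
    (ho : ∀ x, x ∉ C0.op → h x = y) (x : D n) : dist (h x) y ≤ 2 * C0.side := by
  have hs := C0.side_pos
  by_cases hx : x ∈ C0.op
  · have : Nonempty (Fin n) := ⟨⟨0, by omega⟩⟩
    have e : dist (C0.c + fun _ => C0.side) C0.c = C0.side := by
      rw [dist_self_add_left, pi_norm_const, Real.norm_of_nonneg hs.le]
    have h1 : (C0.c + fun _ => C0.side) ∉ C0.op := by
      rw [DC.op, mem_ball, e]
      linarith only [hs]
    have h2 := hh x (C0.c + fun _ => C0.side)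
    have h3 := dist_triangle_right x (C0.c + fun _ => C0.side) C0.c
    rw [DC.op, mem_ball] at hx
    rw [ho _ h1] at h2
    linarith only [hs, hx, e, h2, h3]
  · rw [ho x hx, dist_self]
    positivity

theorem lip_scale {h : D n → X} (hh : Lip 1 h) {θ : ℝ} (h0 : 0 < θ) (h1 : θ ≤ 1 / 8) (κ : ℝ)
    (S : Set X) : Lip (1 / 8) fun x => max κ (θ * infDist (h x) S) := by
  intro x x'
  have a := (lipschitz_infDist_pt S).dist_le_mul (h x) (h x')
  have b := hh x x'
  have c := abs_max_sub_max_le_abs (θ * infDist (h x) S) (θ * infDist (h x') S) κ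
  rw [max_comm _ κ, max_comm _ κ, ← mul_sub, abs_mul, abs_of_pos h0] at c
  rw [Real.dist_eq] at a ⊢
  simp only [NNReal.coe_one, one_mul] at a b
  have d : θ * |infDist (h x) S - infDist (h x') S| ≤ 1 / 8 * dist x x' :=
    mul_le_mul h1 (a.trans b) (abs_nonneg _) (by norm_num)
  exact c.trans d

theorem scale (hn : 2 ≤ n) {C0 : DC n} {y : X} {h : D n → X} (hh : Lip 1 h)
    (ho : ∀ x, x ∉ C0.op → h x = y) {θ κ : ℝ} (h0 : 0 < θ) (h1 : θ ≤ 1 / 8) (hκ : 0 < κ)
    (hκ' : κ ≤ C0.side) {S : Set X} (hy : y ∈ S) :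
    Scale C0 fun x => max κ (θ * infDist (h x) S) := by
  refine ⟨lip_scale hh h0 h1 κ S, ⟨κ, hκ, fun x => le_max_left _ _⟩, fun x => max_le hκ' ?_⟩
  have a := (infDist_le_dist_of_mem (x := h x) hy).trans (dist_base hn hh ho x)
  have b : θ * infDist (h x) S ≤ 1 / 8 * (2 * C0.side) :=
    mul_le_mul h1 a infDist_nonneg (by norm_num)
  have := C0.side_pos
  linarith only [hκ, hκ', b]

/-- Relabelling everything to the base point. -/
theorem to_base (R : Rz n X) (hr : RelabelS R) {A : ℝ} (hA : 1 ≤ A) : ∃ C : ℝ, 1 ≤ C ∧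
    ∀ (C0 : DC n) (y : X) (h : D n → X) (σ : D n → ℝ) (f : D n → Ys n X),
      Lip 1 h → Scale C0 σ → Nice C0 y h σ A f → (∀ x, dist y (h x) ≤ A * σ x) →
      Hty C 0 C0.side C0.big (fun x => R.ι (f x)) fun _ => y := by
  obtain ⟨C, hC, H⟩ := hr A hA
  refine ⟨C, hC, fun C0 y h σ f hh hσ hf hd => ?_⟩
  have := H C0 y y h σ f (fun _ => y) hh hσ hf (fun _ => Or.inr rfl) rfl fun x _ _ => hd x
  have e : (fun x => R.ι (mapY (fun _ => y) (f x))) = fun _ => y := by
    funext x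
    rw [eq_vtx_of_supp (β := mapY (fun _ => y) (f x)) (a := y) fun b hb => ?_, R.vtx]
    obtain ⟨a, -, e⟩ := mem_supp_mapY.1 hb
    exact e.symm
  rwa [e] at this

/-- Passing to a larger scale which is comparable except where the map is a fixed vertex. -/
theorem nice_up {C0 : DC n} {y a : X} {h : D n → X} {σ σ' : D n → ℝ} {A K : ℝ}
    {f : D n → Ys n X} (hf : Nice C0 y h σ A f) (hA : 1 ≤ A) (hK : 1 ≤ K) (hσ : Lip (1 / 8) σ)
    (hσ' : Lip (1 / 8) σ') (h0 : ∀ x, 0 ≤ σ x) (hle : ∀ x, σ x ≤ σ' x)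
    (hv : ∀ x, K * σ x < σ' x → f x = vtx a) : Nice C0 y h σ' (2 * K * A) f := by
  have hKA : A ≤ 2 * K * A := by linarith only [hA, hK, mul_nonneg_of_nonpos_of_nonpos (Mathlib.Tactic.Linarith.sub_nonpos_of_le hA) (Mathlib.Tactic.Linarith.sub_nonpos_of_le hK)]
  refine ⟨hf.out, fun x x' => ?_, fun x p hp => (hf.near x p hp).trans ?_,
    fun x i j k e q => hf.wall x i j k e ((hle x).trans q), hf.null⟩
  · have d0 := dist_nonneg (x := x) (y := x')
    have e0 := dist_nonneg (x := f x) (y := f x')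
    by_cases c1 : σ' x ≤ 2 * K * σ x
    · calc dist (f x) (f x') * σ' x ≤ dist (f x) (f x') * (2 * K * σ x) :=
            mul_le_mul_of_nonneg_left c1 e0
        _ = 2 * K * (dist (f x) (f x') * σ x) := by ring
        _ ≤ 2 * K * (A * dist x x') := mul_le_mul_of_nonneg_left (hf.lip x x') (by linarith only [hK])
        _ = _ := by ring
    by_cases c2 : σ' x ≤ K * dist x x'
    · calc dist (f x) (f x') * σ' x ≤ 2 * (K * dist x x') :=
            mul_le_mul (Ys.dist_le_two _ _) c2 ((h0 x).trans (hle x)) (by norm_num)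
        _ = 2 * K * (1 * dist x x') := by ring
        _ ≤ 2 * K * (A * dist x x') :=
            mul_le_mul_of_nonneg_left (mul_le_mul_of_nonneg_right hA d0) (by linarith only [hK])
        _ = _ := by ring
    push Not at c1 c2
    have k0 : 0 ≤ K * σ x := mul_nonneg (by linarith) (h0 x)
    have a1 := (abs_le.1 ((Real.dist_eq _ _).symm.trans_le (hσ x x'))).1
    have a2 := (abs_le.1 ((Real.dist_eq _ _).symm.trans_le (hσ' x x'))).2
    have a3 : K * σ x' ≤ K * (σ x + 1 / 8 * dist x x') :=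
      mul_le_mul_of_nonneg_left (by linarith only [a1]) (by linarith only [hK])
    have a4 : dist x x' ≤ K * dist x x' := le_mul_of_one_le_left d0 hK
    rw [hv x (by linarith only [c1, k0]), hv x' (by linarith only [c1, c2, k0, a2, a3, a4]), dist_self, zero_mul]
    positivity
  · exact mul_le_mul hKA (hle x) (h0 x) (by linarith)

theorem near_cases [DecidableEq X] {Y0 : Finset X} (a : X) (hne : Y0.Nonempty) (p : X) :
    infDist p Y0 = dist p a ∨ ∃ q ∈ Y0.erase a, infDist p Y0 = dist p q := by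
  obtain ⟨q, hq, e⟩ := Y0.finite_toSet.isCompact.exists_infDist_eq_dist hne p
  by_cases c : q = a
  · exact Or.inl (c ▸ e)
  · exact Or.inr ⟨q, Finset.mem_erase.2 ⟨c, hq⟩, e⟩

theorem main (hn : 2 ≤ n) (R : Rz n X) (hr : RelabelS R) {θ : ℝ} (h0 : 0 < θ) (h1 : θ ≤ 1 / 8)
    (N : ℕ) : ∀ A : ℝ, 1 ≤ A → ∃ C : ℝ, 1 ≤ C ∧
    ∀ (C0 : DC n) (y : X) (h : D n → X) (κ : ℝ) (Y0 : Finset X) (f : D n → Ys n X),
      Lip 1 h → (∀ x, x ∉ C0.op → h x = y) → 0 < κ → κ ≤ C0.side → y ∈ Y0 → Y0.card ≤ N + 1 →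
      Nice C0 y h (fun x => max κ (θ * infDist (h x) Y0)) A f →
      Hty C 0 C0.side C0.big (fun x => R.ι (f x)) fun _ => y := by
  classical
  have i0 : 0 < θ⁻¹ := inv_pos.2 h0
  have i8 : 8 ≤ θ⁻¹ := by
    rw [le_inv_comm₀ (by norm_num) h0]
    linarith only [h1]
  have key : ∀ κ t : ℝ, t ≤ θ⁻¹ * max κ (θ * t) := fun κ t => by
    have := mul_le_mul_of_nonneg_left (le_max_right κ (θ * t)) i0.le
    rwa [inv_mul_cancel_left₀ h0.ne'] at this
  induction N with
  | zero =>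
    intro A hA
    obtain ⟨C, hC, H⟩ := to_base R hr (A := A + θ⁻¹) (by linarith only [h0, h1, i8, hA])
    refine ⟨C, hC, fun C0 y h κ Y0 f hh ho hκ hκ' hy hc hf => ?_⟩
    have p : ∀ x, 0 ≤ max κ (θ * infDist (h x) Y0) := fun x => hκ.le.trans (le_max_left _ _)
    refine H C0 y h _ f hh (scale hn hh ho h0 h1 hκ hκ' hy) (hf.mono p (by linarith only [h0, h1, i8])) fun x => ?_
    have e : (Y0 : Set X) = {y} := by
      rw [Finset.coe_eq_singleton, Finset.eq_singleton_iff_unique_mem]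
      exact ⟨hy, fun a ha => Finset.card_le_one.1 hc a ha y hy⟩
    have a := key κ (infDist (h x) Y0)
    have b := mul_nonneg (zero_le_one.trans hA) (p x)
    have c : infDist (h x) Y0 = dist y (h x) := by rw [e, infDist_singleton, dist_comm]
    rw [add_mul]
    linarith only [a, b, c]
  | succ N ih =>
    intro A hA
    have hA1 : 1 ≤ 2 * A + θ⁻¹ := by linarith only [h0, h1, i8, hA]
    have hK : 1 ≤ 4 * (A + 1) := by linarith only [h0, h1, hA]
    have hA2 : 2 * A + θ⁻¹ ≤ 2 * (4 * (A + 1)) * (2 * A + θ⁻¹) :=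
      le_mul_of_one_le_left (by linarith only [h0, h1, i8, hA]) (by linarith only [h0, h1, hA])
    obtain ⟨C₁, hC₁, H₁⟩ := hr _ hA1
    obtain ⟨C₂, hC₂, H₂⟩ := ih (2 * (4 * (A + 1)) * (2 * A + θ⁻¹)) (by linarith only [h0, h1, i8, hA, hA2])
    refine ⟨(C₁ + C₂) * 2, by linarith only [h0, h1, hC₁, hC₂], fun C0 y h κ Y0 f hh ho hκ hκ' hy hc hf => ?_⟩
    have p : ∀ x, 0 ≤ max κ (θ * infDist (h x) Y0) := fun x => hκ.le.trans (le_max_left _ _)
    by_cases c : Y0.card ≤ N + 1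
    · exact (H₂ C0 y h κ Y0 f hh ho hκ hκ' hy c (hf.mono p (by linarith only [h0, h1, i8, hA, hA2]))).mono (by linarith only [h0, h1, hC₁, hC₂])
        le_rfl le_rfl subset_rfl
    obtain ⟨a, ha, hay⟩ := Finset.exists_mem_ne (s := Y0) (by omega) y
    have hy' : y ∈ Y0.erase a := Finset.mem_erase.2 ⟨hay.symm, hy⟩
    have hc' : (Y0.erase a).card ≤ N + 1 := by
      rw [Finset.card_erase_of_mem ha]
      omega
    set d := infDist a (Y0.erase a : Set X) with hd
    have hdq : ∀ q ∈ Y0.erase a, d ≤ dist a q := fun q hq => infDist_le_dist_of_mem hq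
    let ρ : X → X := fun q => if dist q a ≤ d / 2 then a else q
    have ρy : ρ y = y := by
      have := hdq y hy'
      have := dist_pos.2 hay
      refine if_neg ?_
      rw [dist_comm]
      linarith
    have hs := scale hn hh ho h0 h1 hκ hκ' (S := Y0) hy
    have hρ : ∀ x, ∀ q ∈ (f x).supp,
        dist (ρ q) (h x) ≤ (2 * A + θ⁻¹) * max κ (θ * infDist (h x) Y0) := by
      clear * - n X f h A κ θ Y0 C0 y hf key hA p i0 ρ a d hy hdq hr
      intro x q hq
      have a1 := hf.near x q hq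
      have a2 := key κ (infDist (h x) Y0)
      have a3 := mul_nonneg (zero_le_one.trans hA) (p x)
      have a4 := mul_nonneg i0.le (p x)
      simp only [ρ]
      split_ifs with e
      · rcases near_cases a ⟨y, hy⟩ (h x) with g | ⟨r, hr, g⟩
        · rw [dist_comm, ← g]
          linarith only [a2, a3]
        · have b1 := hdq r hr
          have b2 := dist_triangle4 a q (h x) r
          have b3 := dist_triangle a q (h x)
          rw [dist_comm a q] at b2 b3
          linarith only [a1, a2, e, g, b1, b2, b3]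
      · linarith only [a1, a3, a4]
    have hf1 := hf.mono p (A' := 2 * A + θ⁻¹) (by linarith only [h0, h1, i8, hA])
    have G₁ := H₁ C0 y a h _ f ρ hh hs hf1 (fun q => by
      simp only [ρ]
      split_ifs
      exacts [Or.inr rfl, Or.inl rfl]) ρy hρ
    have hle : ∀ x, infDist (h x) Y0 ≤ infDist (h x) (Y0.erase a) := fun x =>
      infDist_le_infDist_of_subset (Finset.coe_subset.2 (Finset.erase_subset a Y0)) ⟨y, hy'⟩
    have hf2 := nice_up (a := a) (hf1.relabel hn hs ρ ρy hρ) hA1 hK hs.lip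
      (lip_scale hh h0 h1 κ (Y0.erase a : Set X)) p
      (fun x => max_le_max le_rfl (mul_le_mul_of_nonneg_left (hle x) h0.le)) fun x hx => by
        clear * - κ θ X h x Y0 A p hK a hx key i0 h0 h1 hA i8 y hy n ρ f C0 hf d hr
        have a0 : max κ (θ * infDist (h x) Y0) ≤ 4 * (A + 1) * max κ (θ * infDist (h x) Y0) :=
          le_mul_of_one_le_left (p x) hK
        have a1 : 4 * (A + 1) * max κ (θ * infDist (h x) Y0) < θ * infDist (h x) (Y0.erase a) :=
          (lt_max_iff.1 hx).resolve_left (not_lt.2 ((le_max_left _ _).trans a0))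
        have a2 := key κ (infDist (h x) Y0)
        have a3 := mul_lt_mul_of_pos_left a1 i0
        rw [inv_mul_cancel_left₀ h0.ne'] at a3
        have a4 : A * max κ (θ * infDist (h x) Y0) ≤
            θ⁻¹ * (A * max κ (θ * infDist (h x) Y0)) :=
          le_mul_of_one_le_left (mul_nonneg (by linarith only [h0, h1, hA]) (p x)) (by linarith only [h0, h1, i8])
        have a5 := mul_nonneg i0.le (p x)
        have a6 := mul_nonneg (zero_le_one.trans hA) (p x)
        have g : infDist (h x) Y0 = dist (h x) a := by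
          refine (near_cases a ⟨y, hy⟩ (h x)).resolve_right ?_
          rintro ⟨r, hr, g⟩
          have := infDist_le_dist_of_mem (x := h x) (s := (Y0.erase a : Set X)) hr
          linarith only [a2, a3, a4, a5, a6, g, this]
        have a7 := infDist_le_infDist_add_dist (x := h x) (y := a) (s := (Y0.erase a : Set X))
        refine eq_vtx_of_supp fun b hb => ?_
        obtain ⟨q, hq, rfl⟩ := mem_supp_mapY.1 hb
        have a8 := hf.near x q hq
        have a9 := dist_triangle q (h x) a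
        exact if_pos (by linarith only [a2, a3, a4, a5, a6, g, a7, a8, a9])
    have G₂ := H₂ C0 y h κ (Y0.erase a) _ hh ho hκ hκ' hy' hc' (by clear * - n X C0 y h κ θ Y0 a A ρ f hf2 H₂ hc' hh ho hy' hκ hκ'; simpa using hf2)
    have s0 := C0.side_pos
    have G := ((G₁.mono (L' := C₁ + C₂) (by linarith only [h0, h1, hC₂]) le_rfl le_rfl subset_rfl).trans
      (G₂.mono (L' := C₁ + C₂) (by linarith only [h0, h1, hC₁]) le_rfl le_rfl subset_rfl) (by linarith only [h0, h1, hC₁, hC₂]) s0.le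
      s0.le).speed (by linarith only [h0, h1, hC₁, hC₂]) s0 (by linarith only [hκ, hκ'])
    have e : (C0.side + C0.side) / C0.side = 2 := by field_simp; norm_num
    rwa [e, add_zero] at G

end Collapse

theorem collapse (hn : 2 ≤ n) (R : Rz n X) (hr : RelabelS R) : CollapseS R := by
  intro θ N A h0 h1 hA
  obtain ⟨C, hC, H⟩ := Collapse.main hn R hr h0 h1 N A hA
  exact ⟨C, hC, fun C0 y h κ Y0 f a b c d e g => H C0 y h κ Y0 f a b c d e (by omega)⟩

theorem null_real (hn : 2 ≤ n) (G : Good n X) (R : Rz n X) (hr : RelabelS R) : NullRealS R := by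
  intro C0 y h σ A f hf hh ho hσ
  obtain ⟨κ, hκ, hk⟩ := hσ.pos
  have s0 := C0.side_pos
  have q : 0 < 2 * C0.side / κ := by positivity
  have p : ∀ x, 0 ≤ σ x := fun x => hκ.le.trans (hk x)
  obtain ⟨C, -, H⟩ := Collapse.to_base R hr (A := max A 1 + 2 * C0.side / κ)
    (by linarith only [q, le_max_right A 1])
  have H' := H C0 y h σ f hh hσ (hf.mono p (by linarith only [q, le_max_left A 1])) fun x => by
    have a := Collapse.dist_base hn hh ho x
    have b := mul_le_mul_of_nonneg_left (hk x) q.le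
    have c := mul_nonneg (zero_le_one.trans (le_max_right A 1)) (p x)
    rw [div_mul_cancel₀ _ hκ.ne'] at b
    rw [dist_comm, add_mul]
    linarith only [a, b, c]
  refine G.null_of_hty hn H' isBounded_ball (y := y) ⟨‖C0.c‖ + C0.side, fun x hx => ?_⟩
    (null_const hn y)
  have : x ∉ C0.op := by
    rw [DC.op, mem_ball, dist_eq_norm]
    have := norm_sub_norm_le x C0.c
    linarith only [s0, hx, this]
  simp only [hf.out x this, R.vtx]

end Pool.Agent.Work.MP_4b5e6c_gt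
end

-- merged part: Pool.Agent.Work.MP_4b5e6c_gt.Split
section
/-! Task SPLIT: two trivial maps that differ over separated light balls. -/

namespace Pool.Agent.Work.MP_4b5e6c_gt
open Metric Set

variable {n : ℕ} {X : Type} [MetricSpace X]

namespace Split

omit [MetricSpace X] in
theorem cpt_of_out {C0 : DC n} {y : X} {b : D n → X} (h : ∀ x, x ∉ C0.op → b x = y) :
    Cpt y b := by
  refine ⟨‖C0.c‖ + C0.side / 2, fun x hx => h x fun hx' => ?_⟩
  have h1 : dist x C0.c < C0.side / 2 := hx'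
  have h2 : ‖x‖ ≤ ‖C0.c‖ + dist x C0.c := by
    rw [dist_eq_norm]
    calc ‖x‖ = ‖C0.c + (x - C0.c)‖ := by congr 1; abel
      _ ≤ _ := norm_add_le _ _
  linarith only [hx, h1, h2]

theorem cc_side (Q : DC n) : Q.core.core.side = Q.side / 16 := by
  rw [DC.core_side, DC.core_side]; ring

theorem cc_sub (Q : DC n) : Q.core.core.Sub Q := (DC.core_sub _).trans (DC.core_sub _)

theorem cc_pow_le (Q : DC n) : Q.core.core.side ^ n ≤ Q.side ^ n := by
  have h := Q.side_pos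
  refine pow_le_pow_left₀ (DC.side_pos _).le ?_ n
  rw [cc_side]; linarith only [h]

theorem cl_subset (C0 : DC n) : C0.cl ⊆ C0.parent.big :=
  (DC.sub_parent C0).cl_subset.trans (DC.cl_subset_big _)

theorem fast {L η Λ κ T : ℝ} {C0 : DC n} {u u' : D n → X} (hL : 0 ≤ L) (hη : 0 < η)
    (hη1 : η ≤ 1) (hΛ : 4 * L / η ≤ η * Λ) (hκ : 0 ≤ κ) (hT : η * C0.side / 4 ≤ T)
    (h : Hty L 0 C0.side C0.cl u u') : Hty (η * Λ) κ T C0.parent.big u u' := by
  have hs := C0.side_pos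
  have h1 := h.speed (T' := η * C0.side / 4) hL (by positivity) (by linarith only [hs, hη1, mul_nonneg_of_nonpos_of_nonpos (Mathlib.Tactic.Linarith.sub_nonpos_of_le hη1) (le_of_lt (Mathlib.Tactic.Linarith.sub_neg_of_lt hs))])
  refine h1.mono ?_ hκ hT (cl_subset C0)
  have : L * (C0.side / (η * C0.side / 4)) = 4 * L / η := by field_simp
  rw [this]; exact hΛ

end Split

theorem split (hn : 2 ≤ n) (G : Good n X) (R : Rz n X) (hi : ItemsS R) (hk : KillS n X) :
    SplitS R := by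
  classical
  intro L hL
  obtain ⟨ε, hε, hε1, L1, hL1, hitems⟩ := hi L hL
  refine ⟨ε, hε, hε1, fun η hη hη1 => ?_⟩
  have hL1' : 1 ≤ L1 := hL.trans hL1
  have hL10 : 0 ≤ L1 := by linarith only [hL, hL1]
  obtain ⟨δ, A, hδ, hA, hkill⟩ := hk L1 η hL1' hη hη1
  obtain ⟨K, hK⟩ : ∃ K : ℕ, 2 / δ ≤ K := exists_nat_ge _
  have hKA : 0 < 2 * (((K + 1 : ℕ) : ℝ) * A) := by positivity
  refine ⟨min (min (δ / 2) 1) (η / (2 * (((K + 1 : ℕ) : ℝ) * A))), by positivity,
    fun θ N hθ hθ0 => ?_⟩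
  have hθδ : θ ≤ δ / 2 := hθ0.trans ((min_le_left _ _).trans (min_le_left _ _))
  have hθ1 : θ ≤ 1 := hθ0.trans ((min_le_left _ _).trans (min_le_right _ _))
  have hθη : 2 * (((K + 1 : ℕ) : ℝ) * A) * θ ≤ η := by
    have := hθ0.trans (min_le_right _ _)
    rwa [le_div_iff₀ hKA, mul_comm] at this
  obtain ⟨Λk, hΛk⟩ := hkill θ (ε * θ / 32) N hθ hθ1 (by positivity)
  refine ⟨max Λk (4 * L1 / η / η), fun Λ κ hΛ hκ hfill C0 y u u' s v r par Y0 hu hu' hout hnu
    hnu' hpack heq hQ hsep hcard hY0 hpar hlight => ?_⟩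
  have hs0 := C0.side_pos
  have hC : 0 < R.C := lt_of_lt_of_le one_pos R.one_le
  have hΛ1 : 4 * L1 / η ≤ η * Λ := by
    have := (le_max_right _ _).trans hΛ
    rwa [div_le_iff₀ hη, mul_comm Λ] at this
  have hΛ2 : L1 ≤ η * Λ := by
    clear * - L1 η Λ hη L hL hL1 hη1 hΛ1
    refine le_trans ?_ hΛ1
    rw [le_div_iff₀ hη]; linarith only [hL, hL1, hη1, mul_nonneg_of_nonpos_of_nonpos (Mathlib.Tactic.Linarith.sub_nonpos_of_le hL) (Mathlib.Tactic.Linarith.sub_nonpos_of_le hη1), mul_nonneg_of_nonpos_of_nonpos (Mathlib.Tactic.Linarith.sub_nonpos_of_le hL1) (Mathlib.Tactic.Linarith.sub_nonpos_of_le hη1)]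
  have hr : ∀ Q ∈ s, 0 < r (v Q) := fun Q hQs => by
    have h1 := (hQ Q hQs).2.1
    have h2 := Q.side_pos
    by_contra h3
    have : ε * r (v Q) ≤ 0 := mul_nonpos_of_nonneg_of_nonpos hε.le (not_lt.1 h3)
    linarith only [h1, h2, this]
  obtain ⟨b, e, hb, hby, hfit, hbv, hev, H1, H2⟩ :=
    hitems C0 y u u' s v (fun Q => r (v Q)) hu hu' hout hpack heq hQ
  set P : DC n → Pos n := fun Q => Q.core.core.pos with hP
  have hbc : Cpt y b := Split.cpt_of_out hby
  have hbd : Bornology.IsBounded C0.cl := isBounded_closedBall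
  have hnb : Null b := G.null_of_hty hn H2 hbd hbc hnu'
  have hni : Null (ins b s P e) := G.null_of_hty hn H1.symm hbd hbc.ins hnu
  -- the bins
  let w : X → ℝ := fun p => ∑ Q ∈ s with v Q = p, Q.side ^ n
  have hsn : 0 < C0.side ^ n := pow_pos hs0 n
  have hw : ∀ p ∈ s.image v, 0 ≤ w p ∧ w p ≤ δ * C0.side ^ n / 2 := fun p _ => by
    clear * - w p δ n C0 X v s θ hlight hθ hθ1 hn N Y0 hθδ hsn
    refine ⟨Finset.sum_nonneg fun Q _ => (pow_pos Q.side_pos n).le, (hlight p).trans ?_⟩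
    have h1 : θ ^ n ≤ θ := pow_le_of_le_one hθ.le hθ1 (by omega)
    rw [mul_pow]
    linarith only [hθδ, hsn, h1, mul_nonneg_of_nonpos_of_nonpos (Mathlib.Tactic.Linarith.sub_nonpos_of_le hθδ) (le_of_lt (Mathlib.Tactic.Linarith.sub_neg_of_lt hsn)), mul_nonneg_of_nonpos_of_nonpos (le_of_lt (Mathlib.Tactic.Linarith.sub_neg_of_lt hsn)) (Mathlib.Tactic.Linarith.sub_nonpos_of_le h1)]
  have hwsum : ∑ p ∈ s.image v, w p ≤ K * (δ * C0.side ^ n / 2) := by
    clear * - X n v s w C0 hpack K δ hδ hK hsn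
    have h1 : ∑ p ∈ s.image v, w p = ∑ Q ∈ s, Q.side ^ n :=
      Finset.sum_fiberwise_of_maps_to (fun Q hQs => Finset.mem_image_of_mem v hQs) _
    have h2 : ∑ Q ∈ s, Q.side ^ n ≤ C0.side ^ n := hpack.sum_le
    have h3 : 2 ≤ K * δ := by rwa [div_le_iff₀ hδ] at hK
    rw [h1]
    linarith only [h2, hsn, h3, mul_nonneg_of_nonpos_of_nonpos (le_of_lt (Mathlib.Tactic.Linarith.sub_neg_of_lt hsn)) (Mathlib.Tactic.Linarith.sub_nonpos_of_le h3)]
  obtain ⟨g, hg⟩ := exists_bins (s.image v) w (by positivity) K hw hwsum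
  let sk : ℕ → Finset (DC n) := fun k => s.filter fun Q => k ≤ (g (v Q) : ℕ)
  let f : ℕ → D n → X := fun k => ins b (sk k) P e
  have hsk : ∀ k, sk k ⊆ s := fun k => Finset.filter_subset _ _
  have hf0 : f 0 = ins b s P e := by
    have : sk 0 = s := Finset.filter_true_of_mem fun Q _ => Nat.zero_le _
    simp only [f, this]
  have hfK : f (K + 1) = b := by
    have : sk (K + 1) = ∅ :=
      Finset.filter_false_of_mem fun Q _ => not_le.2 (g (v Q)).2
    simp only [f, this, ins_empty]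
  have hstep : ∀ k < K + 1, Hty (η * Λ) (A * θ * κ * C0.side) (A * θ * C0.side) C0.parent.big
      (f k) (f (k + 1)) := by
    clear * - K n g v s sk X N Y0 L1 b P e hfit hsk f C0 hpack η Λ A θ κ hΛk Λk hΛ hκ hfill y par
      hb hL10 hby hbv hcard hY0 ε r hpar u u' L hQ hε hn hr G hbc hnb hni R hC hev hsep w δ hg
      hlight
    intro k hkK
    let t : Finset (DC n) := s.filter fun Q => g (v Q) = ⟨k, hkK⟩
    have hts : t ⊆ s := Finset.filter_subset _ _
    have hun : sk k = sk (k + 1) ∪ t := by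
      ext Q
      simp only [sk, t, Finset.mem_union, Finset.mem_filter, Fin.ext_iff]
      constructor
      · rintro ⟨h1, h2⟩
        rcases h2.lt_or_eq with h3 | h3
        · exact Or.inl ⟨h1, h3⟩
        · exact Or.inr ⟨h1, h3.symm⟩
      · rintro (⟨h1, h2⟩ | ⟨h1, h2⟩)
        · exact ⟨h1, by omega⟩
        · exact ⟨h1, h2.ge⟩
    have hdis : Disjoint (sk (k + 1)) t := by
      rw [Finset.disjoint_left]
      intro Q h1 h2
      simp only [sk, t, Finset.mem_filter, Fin.ext_iff] at h1 h2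
      omega
    have hfu : Fit L1 b (sk (k + 1) ∪ t) P e := hun ▸ hfit.subset (hsk k)
    have hfk : f k = ins (f (k + 1)) t P e := by
      simp only [f]
      rw [hun, ins_union hfu.arr hdis]
    have hPsub : ∀ Q ∈ s, (P Q).op ⊆ C0.op := fun Q hQs =>
      (Split.cc_sub Q).trans (hpack.1 Q hQs)
    rw [hfk]
    refine hΛk Λ κ ((le_max_left _ _).trans hΛ) hκ hfill (DC n) C0 y (f (k + 1)) t
      (fun Q => Q.core.core) e v par Y0 ((hfit.subset (hsk _)).lip hb hL10) ?_ ?_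
      (hfu.ins_left hdis) ?_ hcard hY0 ?_ ?_ ?_ ?_
    · intro x hx
      simp only [f]
      rw [ins_of_not_mem fun Q hQs hx' => hx (hPsub Q (hsk _ hQs) hx')]
      exact hby x hx
    · refine ⟨fun Q hQt => (Split.cc_sub Q).trans (hpack.1 Q (hts hQt)),
        fun Q hQt Q' hQt' hne => ?_⟩
      exact (hpack.2 Q (hts hQt) Q' (hts hQt') hne).mono (Split.cc_sub Q) (Split.cc_sub Q')
    · intro Q hQt
      simp only [f]
      rw [ins_of_not_mem fun Q' hQ' hx' => ?_]
      · exact hbv Q (hts hQt)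
      · have hne : Q' ≠ Q := fun h => Finset.disjoint_left.1 hdis hQ' (h ▸ hQt)
        exact Set.disjoint_left.1 (hfit.arr.2 Q' (hsk _ hQ') Q (hts hQt) hne) hx'
          (DC.c_mem_op _)
    · intro Q hQt
      refine ⟨(hpar Q (hts hQt)).1, ?_⟩
      have h1 := (hpar Q (hts hQt)).2
      have h2 := (hQ Q (hts hQt)).1
      rw [Split.cc_side]
      have h3 : ε * (θ * dist (v Q) (par (v Q))) ≤ ε * r (v Q) :=
        mul_le_mul_of_nonneg_left h1 hε.le
      linarith only [h2, h3]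
    · intro p L' P' hL' hfit'
      rcases (t.filter fun Q => v Q = p).eq_empty_or_nonempty with hemp | ⟨Q0, hQ0⟩
      · rw [hemp, ins_empty]
        exact null_const hn p
      · obtain ⟨hQ0t, hQ0p⟩ := Finset.mem_filter.1 hQ0
        have hrp : 0 < r p := hQ0p ▸ hr Q0 (hts hQ0t)
        refine G.null_piece hn hL10 hb hbc hfit hnb hni
          ((Finset.filter_subset _ _).trans hts) (r := 30 * R.C * r p) (η := 10 * R.C * r p)
          (by positivity) (by positivity) ?_ ?_ hL' hfit'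
        · intro Q hQm x
          obtain ⟨h1, h2⟩ := Finset.mem_filter.1 hQm
          have := hev Q (hts h1) x
          rwa [h2] at this
        · intro Q hQs hQm x
          have hne : v Q ≠ v Q0 := by
            intro h
            refine hQm (Finset.mem_filter.2 ⟨Finset.mem_filter.2 ⟨hQs, ?_⟩, h.trans hQ0p⟩)
            rw [h]
            exact (Finset.mem_filter.1 hQ0t).2
          have h1 := hsep Q hQs Q0 (hts hQ0t) hne
          rw [hQ0p] at h1
          have h2 : dist (e Q x) (v Q) ≤ 30 * R.C * r (v Q) := hev Q hQs x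
          have h3 := dist_triangle_left (v Q) p (e Q x)
          have h4 : 0 < R.C * r (v Q) := mul_pos hC (hr Q hQs)
          linarith only [h1, h2, h3, h4]
    · have h1 := hg ⟨k, hkK⟩
      have h2 : ∑ p ∈ s.image v with g p = ⟨k, hkK⟩, w p = ∑ Q ∈ t, Q.side ^ n := by
        rw [← Finset.sum_fiberwise_of_maps_to (s := t)
          (t := (s.image v).filter fun p => g p = ⟨k, hkK⟩) (g := v) ?_]
        · refine Finset.sum_congr rfl fun p hp => ?_
          have hp' := (Finset.mem_filter.1 hp).2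
          simp only [w]
          congr 1
          ext Q
          simp only [t, Finset.mem_filter]
          constructor
          · rintro ⟨h3, h4⟩
            exact ⟨⟨h3, h4 ▸ hp'⟩, h4⟩
          · rintro ⟨⟨h3, -⟩, h4⟩
            exact ⟨h3, h4⟩
        · intro Q hQt
          exact Finset.mem_filter.2
            ⟨Finset.mem_image_of_mem v (hts hQt), (Finset.mem_filter.1 hQt).2⟩
      have h3 : ∑ Q ∈ t, Q.core.core.side ^ n ≤ ∑ Q ∈ t, Q.side ^ n :=
        Finset.sum_le_sum fun Q _ => Split.cc_pow_le Q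
      linarith only [hkK, h1, h2, h3]
    · intro p
      refine le_trans ?_ (hlight p)
      refine (Finset.sum_le_sum fun Q _ => Split.cc_pow_le Q).trans ?_
      refine Finset.sum_le_sum_of_subset_of_nonneg ?_ fun Q _ _ => (pow_pos Q.side_pos n).le
      exact Finset.filter_subset_filter _ hts
  have hηΛ : 0 ≤ η * Λ := hL10.trans hΛ2
  have hAθ : 0 ≤ A * θ * C0.side := by positivity
  have hmid := Hty.chain f (K + 1) (hf0 ▸ (hfit.lip hb hL10).mono hΛ2) hηΛ hAθ hstep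
  rw [hf0, hfK] at hmid
  have hq : 0 ≤ η * C0.side / 4 := by positivity
  have hA1 := Split.fast hL10 hη hη1 hΛ1 le_rfl le_rfl H1
  have hA2 := Split.fast hL10 hη hη1 hΛ1 le_rfl le_rfl H2
  have hall := (hA1.trans hmid hηΛ hq (by positivity)).trans hA2 hηΛ (by positivity) hq
  refine hall.mono le_rfl ?_ ?_ subset_rfl
  · have h1 : 0 ≤ κ * C0.side := by positivity
    have h2 : 0 ≤ (((K + 1 : ℕ) : ℝ) * A) * θ := by positivity
    clear * - K A θ κ n C0 η hη h1 hθη
    nlinarith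
  · linarith only [hθη, hs0, mul_nonneg_of_nonpos_of_nonpos (Mathlib.Tactic.Linarith.sub_nonpos_of_le hθη) (le_of_lt (Mathlib.Tactic.Linarith.sub_neg_of_lt hs0))]

end Pool.Agent.Work.MP_4b5e6c_gt
end

-- merged part: Pool.Agent.Work.MP_4b5e6c_gt.Heavy
section
/-! Task HEAVY: heavy points, Whitney nets and scale functions. -/

namespace Pool.Agent.Work.MP_4b5e6c_gt
open Metric Set MeasureTheory

variable {n : ℕ} {X : Type} [MetricSpace X]

/-- Away from boundedly many heavy points, balls have small preimages. -/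
theorem exists_heavy (C0 : DC n) (y : X) {h : D n → X} (hh : Lip 1 h) {δ κ : ℝ} (hδ : 0 < δ)
    (hκ : 0 < κ) (N : ℕ) (hN : C0.side ^ n ≤ N * δ) : ∃ Y0 : Finset X, y ∈ Y0 ∧
      Y0.card ≤ N + 1 ∧ (∀ p ∈ Y0, p = y ∨ p ∈ range h) ∧
      ∀ p ∈ range h, ∀ r, κ ≤ r → 3 * r < infDist p Y0 →
        volume {x | x ∈ C0.cl ∧ dist (h x) p ≤ r} ≤ ENNReal.ofReal δ := by
  classical
  have hc : Continuous h :=
    (LipschitzWith.of_dist_le_mul (K := 1) (by simpa [Lip] using hh)).continuous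
  let A : X × ℝ → Set (D n) := fun a => {x | x ∈ C0.cl ∧ dist (h x) a.1 ≤ a.2}
  have hA : ∀ a, MeasurableSet (A a) := fun a =>
    (isClosed_closedBall.inter (isClosed_le (hc.dist continuous_const) continuous_const)).measurableSet
  obtain ⟨u, u1, u2, u3⟩ := Vitali.exists_disjoint_subfamily_covering_enlargement
    (fun a : X × ℝ => closedBall a.1 a.2)
    {a | a.1 ∈ range h ∧ κ ≤ a.2 ∧ ENNReal.ofReal δ < volume (A a)} (fun a => a.2⁻¹) 2
    (by norm_num) (fun a ha => inv_nonneg.2 (hκ.le.trans ha.2.1)) κ⁻¹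
    (fun a ha => inv_anti₀ hκ ha.2.1)
    fun a ha => nonempty_closedBall.2 (hκ.le.trans ha.2.1)
  have key : ∀ t : Finset (X × ℝ), ↑t ⊆ u → t.card ≤ N := fun t ht => by
    have h1 : volume (⋃ a ∈ t, A a) = ∑ a ∈ t, volume (A a) := by
      refine measure_biUnion_finset (fun a ha b hb e => ?_) fun a _ => hA a
      refine Set.disjoint_left.2 fun x hx hx' => ?_
      exact Set.disjoint_left.1 (u2 (ht ha) (ht hb) e) hx.2 hx'.2
    have h2 : volume (⋃ a ∈ t, A a) ≤ ENNReal.ofReal (N * δ) := by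
      refine (measure_mono (iUnion₂_subset fun a _ x hx => hx.1)).trans ?_
      rw [C0.volume_cl]
      exact ENNReal.ofReal_le_ofReal hN
    have h3 : ENNReal.ofReal (t.card * δ) ≤ ∑ a ∈ t, volume (A a) := by
      rw [ENNReal.ofReal_mul (Nat.cast_nonneg _), ENNReal.ofReal_natCast, ← nsmul_eq_mul]
      exact Finset.card_nsmul_le_sum _ _ _ fun a ha => (u1 (ht ha)).2.2.le
    have h4 := (ENNReal.ofReal_le_ofReal_iff (by positivity)).1 (h3.trans (h1 ▸ h2))
    exact_mod_cast le_of_mul_le_mul_right h4 hδ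
  have fin : u.Finite := by
    by_contra hi
    obtain ⟨t, t1, t2⟩ := Set.Infinite.exists_subset_card_eq hi (N + 1)
    have := key t t1
    omega
  refine ⟨insert y (fin.toFinset.image Prod.fst), Finset.mem_insert_self _ _, ?_, fun p hp => ?_,
    fun p hp r hr h3 => ?_⟩
  · exact (Finset.card_insert_le _ _).trans
      (Nat.succ_le_succ (Finset.card_image_le.trans (key _ (by simp))))
  · rcases Finset.mem_insert.1 hp with e | e
    · exact Or.inl e
    · obtain ⟨a, ha, rfl⟩ := Finset.mem_image.1 e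
      exact Or.inr (u1 (fin.mem_toFinset.1 ha)).1
  · by_contra hv
    obtain ⟨b, b1, ⟨x, x1, x2⟩, b3⟩ := u3 (p, r) ⟨hp, hr, not_le.1 hv⟩
    have h4 : infDist p (insert y (fin.toFinset.image Prod.fst) : Finset X) ≤ dist p b.1 :=
      infDist_le_dist_of_mem (Finset.mem_coe.2 (Finset.mem_insert_of_mem
        (Finset.mem_image_of_mem _ (fin.mem_toFinset.2 b1))))
    have h5 : 0 < b.2 := hκ.trans_le (u1 b1).2.1
    have h6 : 0 < r := hκ.trans_le hr
    have h7 : b.2 ≤ 2 * r := by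
      have : r⁻¹ ≤ 2 / b.2 := b3
      rw [le_div_iff₀ h5, inv_mul_le_iff₀ h6] at this
      linarith only [this]
    have h8 := dist_triangle_left p b.1 x
    rw [mem_closedBall] at x1 x2
    simp only at x1
    linarith only [fin, h3, x1, x2, h4, h7, h8]

/-- A coloured Whitney net for `r p = θ * infDist p Y0`, and the scale functions `s k` that switch
on the colours one after the other. -/
theorem Good.exists_scales (G : Good n X) (R : ℝ) (hR : 1 ≤ R) : ∃ m : ℕ,
    ∀ (K : Set X) (Y0 : Finset X) (θ κ ε : ℝ) (r : X → ℝ), IsCompact K → Y0.Nonempty → 0 < θ →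
      θ * R ≤ 1 / 8 → 0 < κ → 0 < ε → ε ≤ 1 / 4 → (∀ p, r p = θ * infDist p Y0) →
      ∃ (W : Finset X) (col : X → Fin m) (s : Fin (m + 1) → X → ℝ),
        (∀ v ∈ W, v ∈ K ∧ κ ≤ r v) ∧
        (∀ v ∈ W, ∀ v' ∈ W, v ≠ v' → col v = col v' → R * (r v + r v') ≤ dist v v') ∧
        (∀ k, Lip ε (s k)) ∧ (∀ k p, κ ≤ s k p) ∧ (∀ k, ∀ p ∈ Y0, s k p = κ) ∧
        (∀ p, s 0 p = κ) ∧ (∀ k p, s k p ≤ max κ (r p)) ∧
        (∀ p ∈ K, ε / 2 * max κ (r p) ≤ s (Fin.last m) p) ∧
        ∀ (k : Fin m) (p : X), s k.castSucc p ≠ s k.succ p → ∃ v ∈ W, col v = k ∧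
          dist p v ≤ 2 * r v ∧ s k.castSucc p ≤ 2 * ε * r v ∧ s k.succ p ≤ 2 * ε * r v := by
  classical
  obtain ⟨M, hM⟩ := G.doubling (9 * R)
  refine ⟨M + 1, fun K Y0 θ κ ε r hK hY hθ hθR hκ hε hε4 hr => ?_⟩
  have hθ8 : θ ≤ 1 / 8 := le_trans (le_mul_of_one_le_right hθ.le hR) hθR
  have r0 : ∀ p, 0 ≤ r p := fun p => by rw [hr]; exact mul_nonneg hθ.le infDist_nonneg
  have rθ : ∀ p q, r p ≤ r q + θ * dist p q := fun p q => by
    rw [hr, hr, ← mul_add]
    exact mul_le_mul_of_nonneg_left infDist_le_infDist_add_dist hθ.le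
  have r8 : ∀ p q, r p ≤ r q + dist p q / 8 := fun p q => by
    have := mul_le_mul_of_nonneg_right hθ8 (dist_nonneg (x := p) (y := q))
    linarith only [this, rθ, rθ p q]
  obtain ⟨W, -, W1, W2, W3⟩ := exists_net {p ∈ K | κ ≤ r p}
    (hK.totallyBounded.subset fun p hp => hp.1) (fun p => r p / 2) (half_pos hκ)
    (fun p hp => by linarith only [hp, hp.2]) ∅ (by simp) (by simp)
  obtain ⟨col, hcol⟩ := exists_coloring W (fun v v' => dist v v' < R * (r v + r v'))
    (fun v v' h => by rwa [dist_comm, add_comm]) M fun v hv t ht h => by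
      clear * - r v κ hκ X K W1 hv t θ R h hθ hθR r0 hM rθ hR hθ8 W2 ht
      have hv0 : 0 < r v := hκ.trans_le (W1 v hv).2
      have aux : ∀ j ∈ t, θ * dist v j ≤ (r v + r j) / 8 := fun j hj => by
        have h1 := mul_le_mul_of_nonneg_left (h j hj).le hθ.le
        have h2 := mul_le_mul_of_nonneg_right hθR (add_nonneg (r0 v) (r0 j))
        rw [← mul_assoc] at h1
        linarith only [h1, h2]
      refine hM v (r v / 3) (by linarith only [hv0]) t (fun j hj => ?_) fun j hj j' hj' e => ?_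
      · have h1 := rθ j v
        rw [dist_comm] at h1 ⊢
        have h2 : R * (r v + r j) ≤ R * (3 * r v) :=
          mul_le_mul_of_nonneg_left (by linarith only [hv0, h1, aux, hj, aux j hj]) (by linarith only [hR, hθ, hθ8])
        linarith only [h2, h, hj, h j hj]
      · have h1 := (le_max_left _ _).trans (W2 j (ht hj) j' (ht hj') e)
        linarith only [hv0, h1, rθ, aux, hj, rθ v j, aux j hj]
  let b : X → X → ℝ := fun v p => ε * (2 * r v - dist p v)
  let s : Fin (M + 1 + 1) → X → ℝ := fun k p =>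
    (W.filter fun v => (col v : ℕ) < k).fold max κ fun v => b v p
  have s1 : ∀ k p c, s k p ≤ c ↔ κ ≤ c ∧ ∀ v ∈ W, (col v : ℕ) < k → b v p ≤ c := fun k p c => by
    simp only [s, Finset.fold_max_le, Finset.mem_filter, and_imp]
  have s2 : ∀ k p, κ ≤ s k p := fun k p => ((s1 k p _).1 le_rfl).1
  have s3 : ∀ k p, ∀ v ∈ W, (col v : ℕ) < (k : Fin (M + 1 + 1)) → b v p ≤ s k p := fun k p =>
    ((s1 k p _).1 le_rfl).2
  have s4 : ∀ k p q, s k p ≤ s k q + ε * dist p q := fun k p q => by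
    have h0 : 0 ≤ ε * dist p q := mul_nonneg hε.le dist_nonneg
    refine (s1 _ _ _).2 ⟨by linarith only [h0, s2, s2 k q], fun v hv h => ?_⟩
    have h1 := s3 k q v hv h
    have h2 := mul_le_mul_of_nonneg_left (dist_triangle_left q v p) hε.le
    simp only [b] at h1 ⊢
    linarith only [h1, h2]
  refine ⟨W, col, s, W1, fun v hv v' hv' e e' => not_lt.1 fun h => hcol v hv v' hv' e h e',
    fun k p q => ?_, s2, fun k p hp => ?_, fun p => ?_, fun k p => ?_, fun p hp => ?_,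
    fun k p hne => ?_⟩
  · have h1 := s4 k q p
    rw [dist_comm] at h1
    rw [Real.dist_eq, abs_le]
    constructor <;> linarith only [h1, s4, s4 k p q]
  · refine le_antisymm ((s1 _ _ _).2 ⟨le_rfl, fun v _ _ => le_trans ?_ hκ.le⟩) (s2 k p)
    have h1 : r p = 0 := by rw [hr, infDist_zero_of_mem (Finset.mem_coe.2 hp), mul_zero]
    have h2 := r8 v p
    rw [dist_comm] at h2
    exact mul_nonpos_of_nonneg_of_nonpos hε.le (by linarith only [h1, h2, dist_nonneg (x := p) (y := v)])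
  · exact le_antisymm ((s1 _ _ _).2 ⟨le_rfl, fun v _ h => absurd h (Nat.not_lt_zero _)⟩) (s2 0 p)
  · refine (s1 _ _ _).2 ⟨le_max_left _ _, fun v _ _ => le_trans ?_ (le_max_right _ _)⟩
    have h2 := r8 v p
    rw [dist_comm] at h2
    have h3 : ε * (2 * r v - dist p v) ≤ ε * (2 * r p) :=
      mul_le_mul_of_nonneg_left (by linarith only [h2, dist_nonneg (x := p) (y := v)]) hε.le
    have h4 := mul_le_mul_of_nonneg_right hε4 (r0 p)
    simp only [b]
    linarith only [h3, h4, r0, r0 p]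
  · rcases le_total (r p) κ with h | h
    · rw [max_eq_left h]
      exact le_trans (mul_le_of_le_one_left hκ.le (by linarith only [hθ, hε4, hθ8])) (s2 _ p)
    · rw [max_eq_right h]
      obtain ⟨v, hv, hd⟩ := W3 p ⟨hp, h⟩
      refine le_trans ?_ (s3 _ p v hv (col v).2)
      have h1 := r8 p v
      have h2 := r8 v p
      rw [dist_comm] at h2
      have h3 : r p / 2 ≤ 2 * r v - dist p v := by
        clear * - X p v r hd κ hκ h h1 r0
        rcases lt_max_iff.1 hd with h4 | h4 <;> linarith only [hκ, h, h1, h4, r0 p, r0 v]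
      have h4 := mul_le_mul_of_nonneg_left h3 hε.le
      simp only [b]
      linarith only [h4]
  · have h1 : s k.castSucc p ≤ s k.succ p :=
      (s1 _ _ _).2 ⟨s2 _ p, fun v hv h => s3 _ p v hv (Nat.lt_succ_of_lt h)⟩
    have h2 := lt_of_le_of_ne h1 hne
    rcases (Finset.le_fold_max _).1 (le_refl (s k.succ p)) with h3 | ⟨v, hv, h3⟩
    · exact absurd (h3.trans (s2 _ p)) (not_le.2 h2)
    · obtain ⟨h4, h5⟩ := Finset.mem_filter.1 hv
      have h6 : ¬ (col v : ℕ) < k := fun h => not_le.2 h2 (h3.trans (s3 k.castSucc p v h4 h))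
      have h7 : 0 < ε * (2 * r v - dist p v) := hκ.trans_le ((s2 _ p).trans h3)
      have h8 : s k.succ p ≤ 2 * ε * r v := by
        have := mul_nonneg hε.le (dist_nonneg (x := p) (y := v))
        simp only [b] at h3
        linarith only [h3, this]
      refine ⟨v, h4, Fin.ext ?_, ?_, h1.trans h8, h8⟩
      · rw [Fin.val_succ] at h5
        omega
      · linarith only [hε, h7, (mul_pos_iff_of_pos_left hε).1 h7]

end Pool.Agent.Work.MP_4b5e6c_gt
end

-- merged part: Pool.Agent.Work.MP_4b5e6c_gt.Step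
section
/-! Task STEP: the inductive step. -/

namespace Pool.Agent.Work.MP_4b5e6c_gt
open Metric Set MeasureTheory

variable {n : ℕ} {X : Type} [MetricSpace X]

namespace Step

/-- The range of `h` is close to the base point. -/
theorem dist_base (hn : 1 ≤ n) {C0 : DC n} {y : X} {h : D n → X} (hh : Lip 1 h)
    (ho : ∀ x, C0.side / 4 ≤ dist x C0.c → h x = y) (x : D n) : dist (h x) y ≤ C0.side / 2 := by
  have hs := C0.side_pos
  by_cases hx : C0.side / 4 ≤ dist x C0.c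
  · rw [ho x hx, dist_self]; linarith only [hs]
  · push Not at hx
    have : Nonempty (Fin n) := ⟨⟨0, hn⟩⟩
    have h1 : dist (C0.c + fun _ => C0.side / 4) C0.c = C0.side / 4 := by
      rw [dist_eq_norm, add_sub_cancel_left, pi_norm_const, Real.norm_eq_abs, abs_of_pos]
      linarith only [hs]
    have h2 := hh x (C0.c + fun _ => C0.side / 4)
    rw [ho _ h1.ge] at h2
    have h3 := dist_triangle_right x (C0.c + fun _ => C0.side / 4) C0.c
    linarith only [hx, h1, h2, h3]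

omit [MetricSpace X] in
theorem out_op {C0 : DC n} {y : X} {h : D n → X}
    (ho : ∀ x, C0.side / 4 ≤ dist x C0.c → h x = y) (x : D n) (hx : x ∉ C0.op) : h x = y := by
  have hs := C0.side_pos
  refine ho x ?_
  simp only [DC.op, mem_ball, not_lt] at hx
  linarith only [hs, hx]

omit [MetricSpace X] in
theorem cpt {C0 : DC n} {y : X} {h : D n → X}
    (ho : ∀ x, C0.side / 4 ≤ dist x C0.c → h x = y) : Cpt y h := by
  refine ⟨‖C0.c‖ + C0.side / 4, fun x hx => ho x ?_⟩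
  have h1 := norm_sub_norm_le x C0.c
  rw [dist_eq_norm]
  linarith only [hx, h1]

/-- The cubes on which two consecutive approximations differ. -/
theorem exists_cubes (hn : 1 ≤ n) (C0 : DC n) (y : X) {h : D n → X} (hh : Lip 1 h)
    (P : X → Prop) (hP : {v | P v}.Finite) (r : X → ℝ) {ε : ℝ} (hε : 0 < ε) (hε1 : ε ≤ 1)
    (hr : ∀ v, P v → 0 < r v ∧ r v ≤ C0.side)
    (hsep : ∀ v v', P v → P v' → v ≠ v' → 40 * (r v + r v') ≤ dist v v') :
    ∃ (s : Finset (DC n)) (v : DC n → X), Pack C0 s id ∧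
      (∀ Q ∈ s, P (v Q) ∧ ε * r (v Q) / 2 ≤ Q.side ∧ Q.side ≤ ε * r (v Q) ∧
        ∀ x ∈ Q.cl, dist (h x) (v Q) ≤ 5 * r (v Q)) ∧
      ∀ x ∈ C0.cl, ∀ w, P w → dist (h x) w ≤ 4 * r w → ∃ Q ∈ s, x ∈ Q.cl := by
  classical
  have hlev : ∀ v, ∃ j : ℤ, P v → (2 : ℝ) ^ (-j) ≤ ε * r v ∧ ε * r v < 2 * 2 ^ (-j) := by
    intro v
    by_cases hv : P v
    · obtain ⟨j, hj⟩ := DC.exists_level (mul_pos hε (hr v hv).1)
      exact ⟨j, fun _ => hj⟩
    · exact ⟨0, fun h => absurd h hv⟩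
  choose lev hlev using hlev
  let Wit : DC n → X → Prop := fun Q w =>
    P w ∧ Q.j = lev w ∧ ∃ x ∈ Q.cl, dist (h x) w ≤ 4 * r w
  have hfin : {Q : DC n | Q.Sub C0 ∧ ∃ w, Wit Q w}.Finite := by
    refine (hP.biUnion fun w _ => DC.finite_sub hn C0 (lev w)).subset ?_
    rintro Q ⟨h1, w, hw, hj, -⟩
    exact mem_biUnion hw ⟨h1, hj.le⟩
  have hv : ∀ Q, ∃ w, (∃ w', Wit Q w') → Wit Q w := by
    intro Q
    by_cases hQ : ∃ w', Wit Q w'
    · obtain ⟨w, hw⟩ := hQ
      exact ⟨w, fun _ => hw⟩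
    · exact ⟨y, fun h => absurd h hQ⟩
  choose v hv using hv
  have hW : ∀ Q w, Wit Q w → ε * r w / 2 ≤ Q.side ∧ Q.side ≤ ε * r w ∧
      ∀ x ∈ Q.cl, dist (h x) w ≤ 5 * r w := by
    rintro Q w ⟨hw, hj, x, hx, hd⟩
    obtain ⟨h1, h2⟩ := hlev w hw
    have h3 : Q.side = (2 : ℝ) ^ (-lev w) := by rw [DC.side, hj]
    rw [← h3] at h1 h2
    refine ⟨by linarith only [h2], h1, fun x' hx' => ?_⟩
    have h4 := hh x' x
    have h5 := DC.dist_le_side hx' hx
    have h6 := dist_triangle (h x') (h x) w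
    have h7 : ε * r w ≤ r w := mul_le_of_le_one_left (hr w hw).1.le hε1
    linarith
  refine ⟨hfin.toFinset, v, ⟨fun Q hQ => ?_, fun Q hQ Q' hQ' hne => ?_⟩, fun Q hQ => ?_,
    fun x hx w hw hd => ?_⟩
  · exact (hfin.mem_toFinset.1 hQ).1
  · have h1 := hv Q (hfin.mem_toFinset.1 hQ).2
    have h2 := hv Q' (hfin.mem_toFinset.1 hQ').2
    by_cases he : v Q = v Q'
    · exact DC.disj_of_j_eq (by rw [id, id, h1.2.1, h2.2.1, he]) hne
    · refine Set.disjoint_left.2 fun x hx hx' => ?_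
      have h3 := (hW _ _ h1).2.2 x (Q.op_subset_cl hx)
      have h4 := (hW _ _ h2).2.2 x (Q'.op_subset_cl hx')
      have h5 := hsep _ _ h1.1 h2.1 he
      have h6 := dist_triangle_left (v Q) (v Q') (h x)
      have h7 := (hr _ h1.1).1
      have h8 := (hr _ h2.1).1
      linarith only [h3, h4, h5, h6, h7, h8]
  · have h1 := hv Q (hfin.mem_toFinset.1 hQ).2
    exact ⟨h1.1, hW _ _ h1⟩
  · have h1 : C0.j ≤ lev w := by
      have h2 : (⟨lev w, 0⟩ : DC n).side ≤ C0.side := by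
        have h3 := (hlev w hw).1
        have h7 : ε * r w ≤ r w := mul_le_of_le_one_left (hr w hw).1.le hε1
        have h8 := (hr w hw).2
        exact h3.trans (h7.trans h8)
      exact DC.side_le_side_iff.1 h2
    obtain ⟨Q, hj, hs, hxQ⟩ := DC.exists_cube hx h1
    exact ⟨Q, hfin.mem_toFinset.2 ⟨hs, w, hw, hj, x, hxQ, hd⟩, hxQ⟩

/-- The total volume of the cubes charged to one site. -/
theorem mass {C0 : DC n} {h : D n → X} {s t : Finset (DC n)} (hs : Pack C0 s id) (ht : t ⊆ s)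
    {p : X} {ρ δ : ℝ} (hδ : 0 ≤ δ) (h1 : ∀ Q ∈ t, ∀ x ∈ Q.cl, dist (h x) p ≤ ρ)
    (h2 : t.Nonempty → volume {x | x ∈ C0.cl ∧ dist (h x) p ≤ ρ} ≤ ENNReal.ofReal δ) :
    ∑ Q ∈ t, Q.side ^ n ≤ δ := by
  rcases t.eq_empty_or_nonempty with rfl | hne
  · simpa using hδ
  · have h3 := sum_side_pow_le_volume t id (fun i hi j hj => hs.2 i (ht hi) j (ht hj))
      {x | x ∈ C0.cl ∧ dist (h x) p ≤ ρ} fun Q hQ x hx =>
        ⟨C0.op_subset_cl (hs.1 Q (ht hQ) hx), h1 Q hQ x (Q.op_subset_cl hx)⟩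
    exact (ENNReal.ofReal_le_ofReal_iff hδ).1 (h3.trans (h2 hne))

/-- Passing to a comparable larger scale. -/
theorem nice_scale {C0 : DC n} {y : X} {h : D n → X} {σ σ' : D n → ℝ} {A ε : ℝ}
    {f : D n → Ys n X} (hf : Nice C0 y h σ A f) (hA : 1 ≤ A) (hε : 0 < ε) (hε1 : ε ≤ 1)
    (h0 : ∀ x, 0 ≤ σ x) (h1 : ∀ x, σ x ≤ σ' x) (h2 : ∀ x, ε / 2 * σ' x ≤ σ x) :
    Nice C0 y h σ' (2 * A / ε) f where
  out := hf.out
  lip x x' := by
    have h3 := hf.lip x x'
    have h4 : dist (f x) (f x') * (ε / 2 * σ' x) ≤ dist (f x) (f x') * σ x :=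
      mul_le_mul_of_nonneg_left (h2 x) dist_nonneg
    rw [div_mul_eq_mul_div, le_div_iff₀ hε]
    linarith only [h3, h4]
  near x p hp := by
    have h3 := hf.near x p hp
    have h4 : A ≤ 2 * A / ε := by
      rw [le_div_iff₀ hε]
      linarith only [hA, hε1, mul_nonneg_of_nonpos_of_nonpos (Mathlib.Tactic.Linarith.sub_nonpos_of_le hA) (Mathlib.Tactic.Linarith.sub_nonpos_of_le hε1)]
    exact h3.trans (mul_le_mul h4 (h1 x) (h0 x) (by linarith only [hA, h4]))
  wall x i j k hx hσ := hf.wall x i j k hx ((h1 x).trans hσ)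
  null := hf.null

/-- The data for the comparison of two consecutive approximations. -/
theorem colour (hn : 1 ≤ n) (R : Rz n X) {C0 : DC n} {y : X} {h : D n → X} (hh : Lip 1 h)
    {A ε ε3 : ℝ} (hA : 1 ≤ A) (hε : 0 < ε) (hε3 : 0 < ε3) (hε31 : ε3 ≤ 1) (h8 : ε ≤ 1 / 8)
    (he1 : ε ≤ ε3 / 8) (he2 : ε * (R.C * A) ≤ 1 / 4) {σ σ' : X → ℝ} (hσ : Lip ε σ)
    (hσ' : Lip ε σ') (hp : ∀ p, 0 < σ p) (hp' : ∀ p, 0 < σ' p) {f f' : D n → Ys n X}
    (hf : Nice C0 y h (fun x => σ (h x)) A f) (hf' : Nice C0 y h (fun x => σ' (h x)) A f')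
    (hloc : ∀ x, (∀ p, dist p (h x) ≤ A * σ (h x) → σ p = σ' p) → f x = f' x)
    (W : Set X) (hW : W.Finite) (r : X → ℝ) (hr : ∀ v ∈ W, 0 < r v ∧ r v ≤ C0.side)
    (hsep : ∀ v ∈ W, ∀ v' ∈ W, v ≠ v' → 40 * R.C * (r v + r v') ≤ dist v v')
    (hact : ∀ p, σ p ≠ σ' p → ∃ v ∈ W, dist p v ≤ 2 * r v ∧ σ p ≤ 2 * ε * r v ∧
      σ' p ≤ 2 * ε * r v) :
    ∃ (s : Finset (DC n)) (v : DC n → X), Pack C0 s id ∧
      (∀ x, (∀ Q ∈ s, x ∉ Q.cl) → R.ι (f' x) = R.ι (f x)) ∧
      (∀ Q ∈ s, ε3 * r (v Q) / 2 ≤ Q.side ∧ Q.side ≤ ε3 * r (v Q) ∧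
        ∀ x ∈ Q.cl, dist (R.ι (f x)) (R.ι (f' x)) ≤ 10 * R.C * A ^ 2 * Q.side ∧
          dist (R.ι (f' x)) (v Q) ≤ 10 * r (v Q)) ∧
      ∀ Q ∈ s, v Q ∈ W ∧ ∀ x ∈ Q.cl, dist (h x) (v Q) ≤ 5 * r (v Q) := by
  have hC := R.one_le
  have hl : ∀ {τ : X → ℝ}, Lip ε τ → Lip (1 / 8) fun x => τ (h x) := fun hτ =>
    (hτ.comp hh hε.le).mono (by linarith only [h8])
  have hd := (hf.lip_real R hA hh (hl hσ) fun x => hp _).2
  have hd' := (hf'.lip_real R hA hh (hl hσ') fun x => hp' _).2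
  obtain ⟨s, v, h1, h2, h3⟩ := exists_cubes hn C0 y hh
    (fun v => v ∈ W ∧ ∃ p, dist p v ≤ 2 * r v ∧ σ p ≤ 2 * ε * r v ∧ σ' p ≤ 2 * ε * r v)
    (hW.subset fun v hv => hv.1) r hε3 hε31 (fun v hv => hr v hv.1) fun v v' hv hv' hne => by
      clear * - n X R r v v' hsep W σ ε σ' hv hv' hne C0 hr hε h8 hC
      have h4 := hsep v hv.1 v' hv'.1 hne
      have h5 := (hr v hv.1).1
      have h6 := (hr v' hv'.1).1
      (refine le_of_not_gt fun h_nl => ?_; linarith only [h_nl, h4, hε, h8, hC, h5, h6, mul_pos_of_neg_of_neg (Mathlib.Tactic.Linarith.sub_neg_of_lt hε) (Mathlib.Tactic.Linarith.sub_neg_of_lt h_nl), mul_nonneg_of_nonpos_of_nonpos (Mathlib.Tactic.Linarith.sub_nonpos_of_le h8) (le_of_lt (Mathlib.Tactic.Linarith.sub_neg_of_lt h_nl)), mul_nonneg_of_nonpos_of_nonpos (Mathlib.Tactic.Linarith.sub_nonpos_of_le hC) (le_of_lt (Mathlib.Tactic.Linarith.sub_neg_of_lt h5)), mul_nonneg_of_nonpos_of_nonpos (Mathlib.Tactic.Linarith.sub_nonpos_of_le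 hC) (le_of_lt (Mathlib.Tactic.Linarith.sub_neg_of_lt h6))])
  have hCA : 0 < R.C * A := by positivity
  refine ⟨s, v, h1, fun x hx => ?_, fun Q hQ => ?_, fun Q hQ => ⟨(h2 Q hQ).1.1, (h2 Q hQ).2.2.2⟩⟩
  · by_contra hne
    have hx0 : x ∈ C0.op := by
      by_contra hx0
      exact hne (by rw [hf.out x hx0, hf'.out x hx0])
    have h4 : ¬ ∀ p, dist p (h x) ≤ A * σ (h x) → σ p = σ' p := fun h4 =>
      hne (by rw [hloc x h4])
    push Not at h4
    obtain ⟨p, h5, h6⟩ := h4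
    obtain ⟨w, hw, h7, h9, h10⟩ := hact p h6
    have h11 : σ (h x) - σ p ≤ ε * dist p (h x) := by
      have := hσ (h x) p
      rw [Real.dist_eq, dist_comm] at this
      exact (le_abs_self _).trans this
    have hεA : ε * A ≤ 1 / 4 := by
      have : ε * A ≤ ε * (R.C * A) :=
        mul_le_mul_of_nonneg_left (le_mul_of_one_le_left (by linarith only [hA, hε, h8]) hC) hε.le
      linarith only [he2, this]
    have hrw := (hr w hw).1
    have h12 : ε * dist p (h x) ≤ 1 / 4 * σ (h x) := by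
      calc ε * dist p (h x) ≤ ε * (A * σ (h x)) := mul_le_mul_of_nonneg_left h5 hε.le
        _ = ε * A * σ (h x) := by ring
        _ ≤ 1 / 4 * σ (h x) := mul_le_mul_of_nonneg_right hεA (hp _).le
    have h13 : σ (h x) ≤ 3 * (ε * r w) := by
      have : 0 < ε * r w := by positivity
      linarith only [h9, h11, h12, this]
    have h14 : dist p (h x) ≤ r w := by
      clear * - X p h x r w ε A σ h5 h13 hA hε h8 hεA hrw
      calc dist p (h x) ≤ A * σ (h x) := h5
        _ ≤ A * (3 * (ε * r w)) := mul_le_mul_of_nonneg_left h13 (by linarith only [hA, hε, h8])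
        _ = ε * A * (3 * r w) := by ring
        _ ≤ 1 / 4 * (3 * r w) := mul_le_mul_of_nonneg_right hεA (by linarith only [hrw])
        _ ≤ r w := by linarith only [hrw]
    have h15 := dist_triangle_left (h x) w p
    obtain ⟨Q, hQ, hxQ⟩ := h3 x (C0.op_subset_cl hx0) w ⟨hw, p, h7, h9, h10⟩ (by linarith only [h7, hrw, h14, h15])
    exact hx Q hQ hxQ
  · obtain ⟨⟨hw, p, h7, h9, h10⟩, h4, h5, h6⟩ := h2 Q hQ
    refine ⟨h4, h5, fun x hx => ?_⟩
    have hrw := (hr _ hw).1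
    have h11 := h6 x hx
    have h12 : dist (h x) p ≤ 7 * r (v Q) := by
      have := dist_triangle_right (h x) p (v Q)
      linarith only [h7, h11, this]
    have hb : ∀ {τ : X → ℝ}, Lip ε τ → τ p ≤ 2 * ε * r (v Q) →
        2 * R.C * A * τ (h x) ≤ 18 * (ε * (R.C * A) * r (v Q)) := by
      intro τ hτ hτp
      have h13 := hτ (h x) p
      rw [Real.dist_eq] at h13
      have h14 := (le_abs_self _).trans h13
      have h15 := mul_le_mul_of_nonneg_left h12 hε.le
      have h16 : τ (h x) ≤ 9 * (ε * r (v Q)) := by linarith only [hτp, h14, h15]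
      calc 2 * R.C * A * τ (h x) = 2 * (R.C * A) * τ (h x) := by ring
        _ ≤ 2 * (R.C * A) * (9 * (ε * r (v Q))) := mul_le_mul_of_nonneg_left h16 (by linarith only [hCA])
        _ = _ := by ring
    have h13 := (hd x).trans (hb hσ h9)
    have h14 := (hd' x).trans (hb hσ' h10)
    constructor
    · have h15 := dist_triangle_right (R.ι (f x)) (R.ι (f' x)) (h x)
      have h16 : ε * (R.C * A) * r (v Q) ≤ ε3 / 8 * (R.C * A) * r (v Q) :=
        mul_le_mul_of_nonneg_right (mul_le_mul_of_nonneg_right he1 hCA.le) hrw.le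
      have h17 : R.C * A * (ε3 * r (v Q) / 2) ≤ R.C * A * Q.side :=
        mul_le_mul_of_nonneg_left h4 hCA.le
      have h18 : R.C * A * Q.side ≤ A * (R.C * A * Q.side) :=
        le_mul_of_one_le_left (mul_pos hCA Q.side_pos).le hA
      have h19 : 0 < R.C * A * Q.side := mul_pos hCA Q.side_pos
      clear * - X n R f x f' A Q h ε r v ε3 h13 h14 h15 h16 h17 h18 h19
      linarith only [h13, h14, h15, h16, h17, h18, h19]
    · have h15 := dist_triangle (R.ι (f' x)) (h x) (v Q)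
      have h16 : ε * (R.C * A) * r (v Q) ≤ 1 / 4 * r (v Q) :=
        mul_le_mul_of_nonneg_right he2 hrw.le
      linarith only [hrw, h11, h14, h15, h16]

end Step

theorem step (hn : 2 ≤ n) (G : Good n X) (R : Rz n X) (hN : NiceS n X) (h0 : NullRealS R)
    (hc : CollapseS R) (hs : SplitS R) : StepS n X := by
  classical
  intro η hη hη1
  have hn1 : 1 ≤ n := by omega
  have hC := R.one_le
  obtain ⟨m, hm⟩ := G.exists_scales (40 * R.C) (by linarith only [hC])
  obtain ⟨A, hA, hN⟩ := hN (m + 1)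
  have hCA : 1 ≤ R.C * A := one_le_mul_of_one_le_of_one_le hC hA
  have hL : 1 ≤ 10 * R.C * A ^ 2 := by linarith only [hA, hC, mul_nonneg_of_nonpos_of_nonpos (Mathlib.Tactic.Linarith.sub_nonpos_of_le (sq_nonneg A)) (Mathlib.Tactic.Linarith.sub_nonpos_of_le hC), mul_nonneg_of_nonpos_of_nonpos (Mathlib.Tactic.Linarith.sub_nonpos_of_le hA) (Mathlib.Tactic.Linarith.sub_nonpos_of_le hA)]
  obtain ⟨ε3, hε3, hε31, hs⟩ := hs _ hL
  have hm0 : (0 : ℝ) ≤ m := Nat.cast_nonneg m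
  obtain ⟨η', hη'⟩ : ∃ η' : ℝ, η' = η / (2 * (m + 1)) := ⟨_, rfl⟩
  have hη'0 : 0 < η' := by rw [hη']; positivity
  have hη'1 : η' * (2 * (m + 1)) = η := by rw [hη']; field_simp
  have hη'2 : m * η' ≤ η / 2 := by clear * - m η' η hη'0 hη'1; linarith only [hη'0, hη'1]
  have hη'3 : η' ≤ η := by clear * - η' η m hη hη'1 hη'0; nlinarith
  obtain ⟨θ0, hθ0, hs⟩ := hs η' hη'0 (hη'3.trans hη1)
  obtain ⟨θ, hθ, hθ1, hθ2⟩ : ∃ θ : ℝ, 0 < θ ∧ θ ≤ θ0 ∧ θ * (40 * R.C) ≤ 1 / 8 := by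
    refine ⟨min θ0 (1 / 8 / (40 * R.C)), lt_min hθ0 (by positivity), min_le_left _ _, ?_⟩
    rw [← le_div_iff₀ (by positivity)]
    exact min_le_right _ _
  have hθ3 : θ ≤ 1 / 16 := by clear * - θ η n X R hη1 hθ2 hη hθ hC; linarith only [hθ, hθ2, hC, mul_nonneg_of_nonpos_of_nonpos (Mathlib.Tactic.Linarith.sub_nonpos_of_le hC) (le_of_lt (Mathlib.Tactic.Linarith.sub_neg_of_lt hθ))]
  obtain ⟨N, hN1⟩ : ∃ N : ℕ, 1 ≤ N * θ ^ n := by
    refine ⟨⌈1 / θ ^ n⌉₊, ?_⟩
    rw [← div_le_iff₀ (by positivity)]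
    exact Nat.le_ceil _
  obtain ⟨Λ1, hs⟩ := hs θ (N + 1) hθ hθ1
  obtain ⟨ε, hε, hε1, hε2, hε4⟩ :
      ∃ ε : ℝ, 0 < ε ∧ ε ≤ 1 / 1000 ∧ ε ≤ ε3 / 8 ∧ ε * (R.C * A) ≤ 1 / 4 := by
    refine ⟨min (min (1 / 1000) (ε3 / 8)) (1 / 4 / (R.C * A)), by positivity,
      (min_le_left _ _).trans (min_le_left _ _), (min_le_left _ _).trans (min_le_right _ _), ?_⟩
    rw [← le_div_iff₀ (by positivity)]
    exact min_le_right _ _
  obtain ⟨Cc, hCc, hc⟩ := hc θ (N + 1) (2 * A / ε) hθ (by linarith only [hθ3, hε, hε1]) (by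
    rw [le_div_iff₀ hε]; linarith only [hA, hε, hε1])
  refine ⟨max Λ1 (max (10 * R.C * A ^ 2 / η) (Cc * 4 / η)),
    fun Λ κ hΛ hκ hF C0 y h hh ho hnull => ?_⟩
  have hΛ1 : Λ1 ≤ Λ := (le_max_left _ _).trans hΛ
  have hΛ2 : 10 * R.C * A ^ 2 ≤ η * Λ := by
    have := ((le_max_left _ _).trans (le_max_right _ _)).trans hΛ
    rwa [div_le_iff₀' hη] at this
  have hΛ3 : Cc * 4 ≤ η * Λ := by
    have := ((le_max_right _ _).trans (le_max_right _ _)).trans hΛ
    rwa [div_le_iff₀' hη] at this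
  have hΛ0 : 0 < Λ := by
    clear * - Λ ε Cc η hε hε1 hCc hΛ3 hη
    by_contra hneg
    push Not at hneg
    linarith only [hε, hε1, hCc, hΛ3, hη, hneg, mul_nonneg_of_nonpos_of_nonpos (le_of_lt (Mathlib.Tactic.Linarith.sub_neg_of_lt hη)) (Mathlib.Tactic.Linarith.sub_nonpos_of_le hneg)]
  have hsd := C0.side_pos
  obtain ⟨κ', hκ', hκ'1, hκ'2⟩ : ∃ κ' : ℝ, 0 < κ' ∧ κ' ≤ C0.side / 1000 ∧
      κ' * (2 * R.C * A) ≤ η * κ * C0.side / 2 := by
    refine ⟨min (C0.side / 1000) (η * κ * C0.side / 2 / (2 * R.C * A)), by positivity,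
      min_le_left _ _, ?_⟩
    rw [← le_div_iff₀ (by positivity)]
    exact min_le_right _ _
  obtain ⟨Y0, hy, hY0, hY1, hY2⟩ := exists_heavy C0 y hh (δ := (θ * C0.side) ^ n) (by positivity)
    hκ' N (by
      rw [mul_pow, ← mul_assoc]
      exact le_mul_of_one_le_left (by positivity) hN1)
  obtain ⟨r, hr⟩ : ∃ r : X → ℝ, ∀ p, r p = θ * infDist p (Y0 : Set X) := ⟨_, fun _ => rfl⟩
  obtain ⟨W, col, s, hW1, hW2, hs1, hs2, hs3, hs4, hs5, hs6, hs7⟩ :=
    hm (range h) Y0 θ κ' ε r ((Step.cpt ho).isCompact_range hh) ⟨y, hy⟩ hθ hθ2 hκ' hε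
      (by clear * - ε hε hε1 hr; linarith only [hε, hε1]) hr
  obtain ⟨f, hf, hloc⟩ := hN C0 y h κ' s
    ⟨hh, ho, hκ', hκ'1, fun k => (hs1 k).mono hε1, hs2, fun k => hs3 k y hy⟩ hnull
  have hpos : ∀ k p, 0 < s k p := fun k p => hκ'.trans_le (hs2 k p)
  have hrle : ∀ p ∈ range h, r p ≤ C0.side := by
    clear * - X n h r C0 Y0 y hy hn1 hh ho θ ε hθ3 hε hε1 hr κ' hκ' hκ'1
    rintro _ ⟨x, rfl⟩
    have h1 : infDist (h x) (Y0 : Set X) ≤ dist (h x) y := infDist_le_dist_of_mem hy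
    have h2 := Step.dist_base hn1 hh ho x
    have h3 : θ * infDist (h x) (Y0 : Set X) ≤ 1 * infDist (h x) (Y0 : Set X) :=
      mul_le_mul_of_nonneg_right (by linarith only [hθ3, hε, hε1]) infDist_nonneg
    rw [hr]
    linarith only [hκ', hκ'1, h1, h2, h3]
  have hsc : ∀ k, Scale C0 fun x => s k (h x) := fun k =>
    ⟨((hs1 k).comp hh hε.le).mono (by clear * - ε hε hε1 hh hrle hs1 hs2 hs5 hκ' k κ'; linarith only [hε, hε1]), ⟨κ', hκ', fun x => hs2 k _⟩,
      fun x => (hs5 k _).trans (max_le (by clear * - κ' n C0 hκ' hκ'1 hrle hs5 k x; linarith) (hrle _ ⟨x, rfl⟩))⟩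
  have hreal := fun k => (hf k).lip_real R hA hh (hsc k).lip fun x => hpos k _
  have hout : ∀ k x, x ∉ C0.op → R.ι (f k x) = y := fun k x hx => by
    rw [(hf k).out x hx, R.vtx]
  have hnl := fun k => h0 C0 y h _ A (f k) (hf k) hh (Step.out_op ho) (hsc k)
  have hpar : ∀ p : X, ∃ q ∈ (Y0 : Set X), infDist p (Y0 : Set X) = dist p q := fun p =>
    Y0.finite_toSet.isCompact.exists_infDist_eq_dist ⟨y, hy⟩ p
  choose par hpar1 hpar2 using hpar
  have hYd : ∀ p ∈ Y0, dist p y ≤ C0.side := by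
    clear * - X Y0 y n h C0 hY1 m s A f R hsd ho hy hf hout hn1 hh κ' hκ' hκ'1
    intro p hp
    rcases hY1 p hp with rfl | ⟨x, rfl⟩
    · rw [dist_self]; exact hsd.le
    · have := Step.dist_base hn1 hh ho x
      linarith only [hκ', hκ'1, this]
  have hstep : ∀ k : Fin m, Hty (η * Λ) (η' * κ * C0.side) (η' * C0.side)
      (ball C0.c (4 * C0.side)) (fun x => R.ι (f k.castSucc x)) fun x => R.ι (f k.succ x) := by
    clear * - m n X C0 R f ε3 r A W col h η Λ η' κ hn1 y hh ε hA hε hε3 hε31 hε1 hε2 hε4 s hs1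
      hpos hf hloc κ' hκ' hW1 hrle hW2 hs7 hs hΛ1 hκ hF par Y0 hreal hout hnl hY0 hYd θ hpar1 hr
      hpar2 hθ hsd hY2 hC hθ2 hη'3 hΛ0
    intro k
    obtain ⟨t, v, h1, h2, h3, h4⟩ := Step.colour hn1 R hh hA hε hε3 hε31 (by linarith only [hε, hε1]) hε2 hε4
      (hs1 k.castSucc) (hs1 k.succ) (hpos _) (hpos _) (hf _) (hf _) (hloc _ _)
      {v | v ∈ W ∧ col v = k} (W.finite_toSet.subset fun v hv => hv.1) r
      (fun v hv => ⟨hκ'.trans_le (hW1 v hv.1).2, hrle v (hW1 v hv.1).1⟩)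
      (fun v hv v' hv' hne => hW2 v hv.1 v' hv'.1 hne (hv.2.trans hv'.2.symm))
      fun p hp => by
        obtain ⟨v, hv, h1, h2⟩ := hs7 k p hp
        exact ⟨v, ⟨hv, h1⟩, h2⟩
    refine (hs Λ κ hΛ1 hκ.le hF C0 y _ _ t v r par Y0 (hreal _).1 (hreal _).1
      (fun x hx => ⟨hout _ x hx, hout _ x hx⟩) (hnl _) (hnl _) h1 h2 h3
      (fun Q hQ Q' hQ' hne => hW2 _ (h4 Q hQ).1.1 _ (h4 Q' hQ').1.1 hne
        ((h4 Q hQ).1.2.trans (h4 Q' hQ').1.2.symm)) hY0 hYd
      (fun Q hQ => ⟨hpar1 _, by rw [hr, hpar2]⟩) fun p => ?_).mono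
      (mul_le_mul_of_nonneg_right hη'3 hΛ0.le) le_rfl le_rfl C0.parent_big_subset
    refine Step.mass (h := h) (p := p) (ρ := 5 * r p) h1 (Finset.filter_subset _ _)
      (by positivity) (fun Q hQ x hx => ?_) ?_
    · obtain ⟨hQ1, rfl⟩ := Finset.mem_filter.1 hQ
      exact (h4 Q hQ1).2 x hx
    · rintro ⟨Q, hQ⟩
      obtain ⟨hQ1, rfl⟩ := Finset.mem_filter.1 hQ
      obtain ⟨h5, h6⟩ := hW1 _ (h4 Q hQ1).1.1
      refine hY2 _ h5 _ (by linarith only [hκ', h6]) ?_
      have h7 : 0 < infDist (v Q) (Y0 : Set X) := by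
        have h8 : 0 < θ * infDist (v Q) (Y0 : Set X) := by rw [← hr]; linarith only [hκ', h6]
        exact (pos_iff_pos_of_mul_pos h8).1 hθ
      rw [hr]
      (refine lt_of_not_ge fun h_nl => ?_; linarith only [h_nl, hC, h7, hθ, hθ2, mul_nonneg_of_nonpos_of_nonpos (Mathlib.Tactic.Linarith.sub_nonpos_of_le hC) (le_of_lt (Mathlib.Tactic.Linarith.sub_neg_of_lt h7)), mul_nonneg_of_nonpos_of_nonpos (Mathlib.Tactic.Linarith.sub_nonpos_of_le hC) (Mathlib.Tactic.Linarith.sub_nonpos_of_le h_nl), mul_pos_of_neg_of_neg (Mathlib.Tactic.Linarith.sub_neg_of_lt hθ) (Mathlib.Tactic.Linarith.sub_neg_of_lt h7), mul_nonneg_of_nonpos_of_nonpos (Mathlib.Tactic.Linarith.sub_nonpos_of_le hθ2) (le_of_lt (Mathlib.Tactic.Linarith.sub_neg_of_lt h7))])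
  have hball : ∀ x, x ∉ ball C0.c (4 * C0.side) → x ∉ C0.op := fun x hx hx' =>
    hx (ball_subset_ball (by linarith only [hκ', hκ'1]) hx')
  have hL0 : 0 ≤ η * Λ := by positivity
  have H1 : Hty (η * Λ) (η * κ * C0.side / 2) (C0.side / 4) (ball C0.c (4 * C0.side)) h
      fun x => R.ι (f 0 x) := by
    clear * - n X η Λ κ C0 h R f m hh A hL hΛ2 s hreal hL0 κ' hκ'2 hs4 y hout hball ho hκ' hκ'1
    refine Hty.jump (hh.mono (hL.trans hΛ2)) ((hreal 0).1.mono hΛ2) hL0 (fun x => ?_)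
      (fun x hx => ?_) (by linarith only [hκ', hκ'1])
    · have h1 := (hreal 0).2 x
      rw [hs4] at h1
      rw [dist_comm]
      linarith only [hκ'2, h1]
    · rw [hout 0 x (hball x hx), Step.out_op ho x (hball x hx)]
  have H2 := Hty.chain (fun i x => R.ι (f (Fin.ofNat (m + 1) i) x)) m
    (L := η * Λ) (κ := η' * κ * C0.side) (T := η' * C0.side) (U := ball C0.c (4 * C0.side))
    ((hreal _).1.mono hΛ2) hL0 (by positivity) fun i hi => by
      have h1 : Fin.ofNat (m + 1) i = (⟨i, hi⟩ : Fin m).castSucc :=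
        Fin.ext (Nat.mod_eq_of_lt (by omega))
      have h2 : Fin.ofNat (m + 1) (i + 1) = (⟨i, hi⟩ : Fin m).succ :=
        Fin.ext (Nat.mod_eq_of_lt (by omega))
      rw [h1, h2]
      exact hstep _
  have e0 : Fin.ofNat (m + 1) 0 = 0 := Fin.ext (Nat.zero_mod _)
  have em : Fin.ofNat (m + 1) m = Fin.last m := Fin.ext (Nat.mod_eq_of_lt (by omega))
  rw [e0, em] at H2
  have H3 := hc C0 y h κ' Y0 (f (Fin.last m)) hh (Step.out_op ho) hκ' (by linarith only [hκ', hκ'1]) hy hY0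
    (Step.nice_scale (hf _) hA hε (by linarith only [hε, hε1]) (fun x => (hpos _ _).le)
      (fun x => by rw [← hr]; exact hs5 _ _) fun x => by rw [← hr]; exact hs6 _ ⟨x, rfl⟩)
  have H4 := (H3.speed (T' := C0.side / 4) (by linarith only [hε, hε1, hCc]) (by linarith only [hκ', hκ'1]) (by linarith only [hκ', hκ'1])).mono
    (L' := η * Λ) (U' := ball C0.c (4 * C0.side))
    (by rw [show C0.side / (C0.side / 4) = 4 by field_simp]; exact hΛ3) le_rfl le_rfl
    (ball_subset_ball (by linarith only [hκ', hκ'1]))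
  have h1 : (0 : ℝ) ≤ m * (η' * C0.side) := by positivity
  refine ((H1.trans H2 hL0 (by linarith only [hκ', hκ'1]) h1).trans H4 hL0 (by linarith only [hκ', hκ'1, h1]) (by linarith only [hκ', hκ'1])).mono
    le_rfl ?_ ?_ subset_rfl
  · have h2 := mul_le_mul_of_nonneg_right hη'2 (mul_pos hκ hsd).le
    clear * - η κ n C0 m η' h2
    linarith only [h2]
  · have h2 := mul_le_mul_of_nonneg_right (hη'2.trans (by linarith only [hη1] : η / 2 ≤ 1 / 2)) hsd.le
    clear * - n C0 m η' h2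
    linarith only [h2]

end Pool.Agent.Work.MP_4b5e6c_gt
end
end
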