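import Pool.Agent.Work.MP_4b5e6c_gt.Rearr
import Pool.Agent.Work.MP_4b5e6c_gt.Bary
import Pool.Agent.Work.MP_4b5e6c_gt.Step

-- merged part: Pool.Agent.Work.MP_4b5e6c_gt.HurB
section
/-! Task HURB: affine symmetries, normal forms and cancellation of elementary spheres. -/

namespace Pool.Agent.Work.MP_4b5e6c_gt
open Metric Set

variable {n : ℕ}

/-- Precomposition with `T` and with `T'` give uniformly homotopic items. -/
def UH (T T' : D n → D n) : Prop :=
  ∀ R0 : ℝ, ∃ C R : ℝ, 1 ≤ C ∧ 1 ≤ R ∧ ∀ (Z : Type) [MetricSpace Z] (y : Z) (L : ℝ) (e : D n → Z),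
    0 ≤ L → Lip L e → (∀ x, R0 ≤ ‖x‖ → e x = y) →
    Hty (C * L) 0 1 (ball 0 R) (fun x => e (T x)) (fun x => e (T' x)) ∧
      ∀ x, R ≤ ‖x‖ → e (T x) = y

namespace HurB

/-- Lipschitz and proper with one constant. -/
def Pr (S : D n → D n) : Prop := ∃ K : ℝ, 1 ≤ K ∧ Lip K S ∧ ∀ x, ‖x‖ ≤ K * (‖S x‖ + 1)

theorem far {K R0 a b : ℝ} (hK : 1 ≤ K) (h : a ≤ K * (b + 1)) (ha : K * (|R0| + 1) ≤ a) :
    R0 ≤ b := by
  have h1 : |R0| + 1 ≤ b + 1 := le_of_mul_le_mul_left (ha.trans h) (by linarith only [hK])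
  linarith [le_abs_self R0]

theorem one_le_far {K R0 : ℝ} (hK : 1 ≤ K) : 1 ≤ K * (|R0| + 1) :=
  one_le_mul_of_one_le_of_one_le hK (by linarith only [abs_nonneg R0])

theorem uh_symm {T T' : D n → D n} (h : UH T T') : UH T' T := fun R0 => by
  obtain ⟨C, R, hC, hR, H⟩ := h R0
  refine ⟨C, R, hC, hR, fun Z _ y L e hL he h0 => ?_⟩
  obtain ⟨a, b⟩ := H Z y L e hL he h0
  refine ⟨a.symm, fun x hx => ?_⟩
  exact (a.eq_of_not_mem (x := x) (by simpa using hx)).trans (b x hx)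

theorem uh_trans {T T' T'' : D n → D n} (h : UH T T') (h' : UH T' T'') : UH T T'' := fun R0 => by
  obtain ⟨C, R, hC, hR, H⟩ := h R0
  obtain ⟨C', R', hC', hR', H'⟩ := h' R0
  have hm : 1 ≤ max C C' := le_max_of_le_left hC
  refine ⟨2 * max C C', max R R', by linarith, le_max_of_le_left hR,
    fun Z _ y L e hL he h0 => ?_⟩
  obtain ⟨a, b⟩ := H Z y L e hL he h0
  obtain ⟨a', -⟩ := H' Z y L e hL he h0
  refine ⟨?_, fun x hx => b x ((le_max_left _ _).trans hx)⟩
  have h0 : 0 ≤ max C C' * L := by positivity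
  have a1 := a.mono (mul_le_mul_of_nonneg_right (le_max_left C C') hL) le_rfl le_rfl
    (ball_subset_ball (le_max_left R R'))
  have a2 := a'.mono (mul_le_mul_of_nonneg_right (le_max_right C C') hL) le_rfl le_rfl
    (ball_subset_ball (le_max_right R R'))
  have a3 := (a1.trans a2 h0 zero_le_one zero_le_one).speed h0 one_pos (by norm_num)
  exact a3.mono (le_of_eq (by ring)) (by norm_num) le_rfl subset_rfl

theorem uh_left {T T' S : D n → D n} (h : UH T T') (hS : Pr S) :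
    UH (fun x => S (T x)) fun x => S (T' x) := fun R0 => by
  obtain ⟨K, hK, l, p⟩ := hS
  obtain ⟨C, R, hC, hR, H⟩ := h (K * (|R0| + 1))
  refine ⟨C * K, R, one_le_mul_of_one_le_of_one_le hC hK, hR, fun Z _ y L e hL he h0 => ?_⟩
  obtain ⟨a, b⟩ := H Z y (L * K) (fun x => e (S x)) (by positivity) (he.comp l hL)
    fun x hx => h0 _ (far hK (p x) hx)
  exact ⟨a.mono (le_of_eq (by ring)) le_rfl le_rfl subset_rfl, b⟩

theorem uh_right {T T' S : D n → D n} (h : UH T T') (hS : Pr S) :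
    UH (fun x => T (S x)) fun x => T' (S x) := fun R0 => by
  obtain ⟨K, hK, l, p⟩ := hS
  obtain ⟨C, R, hC, hR, H⟩ := h R0
  refine ⟨C * K, K * (|R| + 1), one_le_mul_of_one_le_of_one_le hC hK, one_le_far hK,
    fun Z _ y L e hL he h0 => ?_⟩
  obtain ⟨⟨G, g1, g2, g3, g4⟩, b⟩ := H Z y L e hL he h0
  refine ⟨⟨fun q => G (S q.1, q.2), fun q q' => ?_, fun x t ht => g2 _ t ht,
    fun x t ht => g3 _ t ht, fun x t hx => g4 _ t ?_⟩, fun x hx => b _ (far hK (p x) hx)⟩
  · refine (g1 _ _).trans ?_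
    have h1 : dist (S q.1, q.2) (S q'.1, q'.2) ≤ K * dist q q' := by
      rw [Prod.dist_eq]
      refine max_le ((l _ _).trans ?_) ?_
      · exact mul_le_mul_of_nonneg_left (by rw [Prod.dist_eq]; exact le_max_left _ _)
          (by linarith)
      · have h2 : dist q.2 q'.2 ≤ dist q q' := by rw [Prod.dist_eq]; exact le_max_right _ _
        nlinarith only [h2, hK, dist_nonneg (x := q) (y := q')]
    have h3 := mul_le_mul_of_nonneg_left h1 (show 0 ≤ C * L by positivity)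
    calc C * L * dist (S q.1, q.2) (S q'.1, q'.2) + 0 ≤ C * L * (K * dist q q') + 0 := by linarith
      _ = C * K * L * dist q q' + 0 := by ring
  · have : R ≤ ‖S x‖ := far hK (p x) (by simpa using hx)
    simpa using this

/-- Straight segments of involutions. -/
theorem uh_seg {S S' : D n → D n} {K : ℝ} (hK : 1 ≤ K) (l : Lip K S) (l' : Lip K S')
    (b : ‖S 0‖ ≤ K) (b' : ‖S' 0‖ ≤ K)
    (inv : ∀ τ ∈ Icc (0 : ℝ) 1, ∀ x, (1 - τ) • S ((1 - τ) • S x + τ • S' x) +
      τ • S' ((1 - τ) • S x + τ • S' x) = x) : UH S S' := fun R0 => by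
  have nb : ∀ {S : D n → D n}, Lip K S → ‖S 0‖ ≤ K → ∀ x, ‖S x‖ ≤ K * (‖x‖ + 1) := by
    intro S l b x
    have h1 := l x 0
    rw [dist_zero_right, dist_eq_norm] at h1
    have h2 := norm_sub_norm_le (S x) (S 0)
    linarith only [b, h1, h2]
  have nF : ∀ τ ∈ Icc (0 : ℝ) 1, ∀ x, ‖(1 - τ) • S x + τ • S' x‖ ≤ K * (‖x‖ + 1) := by
    intro τ hτ x
    refine (norm_add_le _ _).trans ?_
    rw [norm_smul, norm_smul, Real.norm_of_nonneg hτ.1, Real.norm_of_nonneg (by linarith [hτ.2])]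
    have h1 := mul_le_mul_of_nonneg_left (nb l b x) (show 0 ≤ 1 - τ by linarith [hτ.2])
    have h2 := mul_le_mul_of_nonneg_left (nb l' b' x) hτ.1
    linarith
  have lF : ∀ τ ∈ Icc (0 : ℝ) 1, Lip K fun x => (1 - τ) • S x + τ • S' x := by
    intro τ hτ x x'
    refine (dist_add_add_le _ _ _ _).trans ?_
    rw [dist_smul₀, dist_smul₀, Real.norm_of_nonneg hτ.1,
      Real.norm_of_nonneg (by linarith [hτ.2])]
    have h1 := mul_le_mul_of_nonneg_left (l x x') (show 0 ≤ 1 - τ by linarith [hτ.2])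
    have h2 := mul_le_mul_of_nonneg_left (l' x x') hτ.1
    linarith
  set R := K * (|R0| + 1) with hR
  have hR1 : 1 ≤ R := one_le_far hK
  have hKR : 0 ≤ K * (R + 1) := by positivity
  refine ⟨K + 2 * (K * (R + 1)), R, by linarith only [hK, hKR], hR1, fun Z _ y L e hL he h0 => ?_⟩
  have out : ∀ τ ∈ Icc (0 : ℝ) 1, ∀ x, R ≤ ‖x‖ → e ((1 - τ) • S x + τ • S' x) = y := by
    intro τ hτ x hx
    refine h0 _ (far hK ?_ hx)
    have := nF τ hτ ((1 - τ) • S x + τ • S' x)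
    rwa [inv τ hτ x] at this
  have out0 : ∀ x, R ≤ ‖x‖ → e (S x) = y := fun x hx => by
    simpa using out 0 ⟨le_rfl, zero_le_one⟩ x hx
  refine ⟨?_, out0⟩
  have key := Hty.of_family (U := ball 0 R) (u := fun x => e (S x)) (u' := fun x => e (S' x))
    (L := L * K) (M := L * (2 * (K * (R + 1)))) (T := 1)
    (fun x τ => e ((1 - τ) • S x + τ • S' x)) (by positivity) (by positivity) one_pos
    (fun x x' τ hτ τ' hτ' => ?_) (fun x => by simp) (fun x => by simp) fun x hx τ hτ => ?_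
  · exact key.mono (le_of_eq (by ring)) le_rfl le_rfl subset_rfl
  · refine (dist_triangle _ (e ((1 - τ) • S x' + τ • S' x')) _).trans (add_le_add ?_ ?_)
    · exact (he.comp (lF τ hτ) hL) x x'
    · by_cases hx : R ≤ ‖x'‖
      · rw [out τ hτ x' hx, out τ' hτ' x' hx, dist_self]
        positivity
      · refine (he _ _).trans ?_
        have e1 : (1 - τ) • S x' + τ • S' x' - ((1 - τ') • S x' + τ' • S' x') =
            (τ - τ') • (S' x' - S x') := by module
        rw [dist_eq_norm, e1, norm_smul, Real.norm_eq_abs, mul_assoc]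
        refine mul_le_mul_of_nonneg_left ?_ hL
        rw [mul_comm]
        refine mul_le_mul_of_nonneg_right ((norm_sub_le _ _).trans ?_) (abs_nonneg _)
        have h1 : K * (‖x'‖ + 1) ≤ K * (R + 1) :=
          mul_le_mul_of_nonneg_left (by linarith [not_le.1 hx]) (by linarith)
        linarith [nb l b x', nb l' b' x']
  · have hx' : R ≤ ‖x‖ := by simpa using hx
    rw [out τ hτ x hx', out0 x hx']

/-- Affine reflections. -/
noncomputable def rf (φ : D n →ₗ[ℝ] ℝ) (c : ℝ) (u : D n) (x : D n) : D n :=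
  x - (2 * (φ x - c)) • u

theorem rf_rf {φ : D n →ₗ[ℝ] ℝ} {u : D n} (h : φ u = 1) (c : ℝ) (x : D n) :
    rf φ c u (rf φ c u x) = x := by
  simp only [rf, map_sub, map_smul, h, smul_eq_mul]
  module

theorem rf_lip (φ : D n →ₗ[ℝ] ℝ) (c : ℝ) (u : D n) :
    ∃ K : ℝ, 1 ≤ K ∧ ∀ K', K ≤ K' → Lip K' (rf φ c u) ∧ ‖rf φ c u 0‖ ≤ K' := by
  set ψ := LinearMap.toContinuousLinearMap φ
  have h1 : 0 ≤ 2 * ‖ψ‖ * ‖u‖ := by positivity
  refine ⟨1 + 2 * ‖ψ‖ * ‖u‖ + ‖rf φ c u 0‖, by linarith only [h1, norm_nonneg (rf φ c u 0)],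
    fun K' hK => ⟨fun x x' => ?_, by linarith⟩⟩
  have e1 : rf φ c u x - rf φ c u x' = (x - x') - (2 * φ (x - x')) • u := by
    simp only [rf, map_sub]
    module
  have e2 : ‖φ (x - x')‖ ≤ ‖ψ‖ * ‖x - x'‖ := ψ.le_opNorm (x - x')
  rw [dist_eq_norm, dist_eq_norm, e1]
  refine (norm_sub_le _ _).trans ?_
  rw [norm_smul, norm_mul, Real.norm_two]
  have h2 := mul_le_mul_of_nonneg_right e2 (norm_nonneg u)
  have h3 := mul_le_mul_of_nonneg_right hK (norm_nonneg (x - x'))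
  linarith only [h2, h3, norm_nonneg (x - x'), norm_nonneg (rf φ c u 0), mul_nonneg_of_nonpos_of_nonpos (Mathlib.Tactic.Linarith.sub_nonpos_of_le (norm_nonneg (x - x'))) (Mathlib.Tactic.Linarith.sub_nonpos_of_le (norm_nonneg (rf φ c u (0 : D n))))]

theorem pr_rf {φ : D n →ₗ[ℝ] ℝ} {u : D n} (h : φ u = 1) (c : ℝ) : Pr (rf φ c u) := by
  obtain ⟨K, hK, H⟩ := rf_lip φ c u
  obtain ⟨l, b⟩ := H K le_rfl
  refine ⟨K, hK, l, fun x => ?_⟩
  have h1 := l (rf φ c u x) 0
  rw [dist_zero_right, dist_eq_norm, rf_rf h] at h1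
  have h2 := norm_sub_norm_le x (rf φ c u 0)
  linarith only [b, h1, h2]

theorem uh_rf_vec {φ : D n →ₗ[ℝ] ℝ} {u u' : D n} (h : φ u = 1) (h' : φ u' = 1) (c : ℝ) :
    UH (rf φ c u) (rf φ c u') := by
  obtain ⟨K, hK, H⟩ := rf_lip φ c u
  obtain ⟨K', -, H'⟩ := rf_lip φ c u'
  obtain ⟨l, b⟩ := H _ (le_max_left K K')
  obtain ⟨l', b'⟩ := H' _ (le_max_right K K')
  refine uh_seg (le_max_of_le_left hK) l l' b b' fun τ _ x => ?_
  have e : ∀ z, (1 - τ) • rf φ c u z + τ • rf φ c u' z = rf φ c ((1 - τ) • u + τ • u') z := by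
    intro z
    simp only [rf]
    module
  rw [e, e, rf_rf (by simp [h, h'])]

theorem uh_rf_form {φ φ' : D n →ₗ[ℝ] ℝ} {u : D n} (h : φ u = 1) (h' : φ' u = 1) (c c' : ℝ) :
    UH (rf φ c u) (rf φ' c' u) := by
  obtain ⟨K, hK, H⟩ := rf_lip φ c u
  obtain ⟨K', -, H'⟩ := rf_lip φ' c' u
  obtain ⟨l, b⟩ := H _ (le_max_left K K')
  obtain ⟨l', b'⟩ := H' _ (le_max_right K K')
  refine uh_seg (le_max_of_le_left hK) l l' b b' fun τ _ x => ?_
  have e : ∀ z, (1 - τ) • rf φ c u z + τ • rf φ' c' u z =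
      rf ((1 - τ) • φ + τ • φ') ((1 - τ) * c + τ * c') u z := by
    intro z
    simp only [rf, LinearMap.add_apply, LinearMap.smul_apply, smul_eq_mul]
    module
  rw [e, e, rf_rf (by simp [h, h'])]

theorem uh_rf {φ φ' : D n →ₗ[ℝ] ℝ} {u u' : D n} (h : φ u = 1) (h' : φ' u' = 1) (c c' : ℝ) :
    UH (rf φ c u) (rf φ' c' u') := by
  obtain ⟨w, hw, hμ⟩ : ∃ w, φ w = 1 ∧ φ' w ≠ 0 := by
    by_cases a : φ' u = 0
    · by_cases b : φ u' = 0
      · exact ⟨u + u', by simp [h, b], by simp [h', a]⟩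
      · exact ⟨(φ u')⁻¹ • u', by simp [b], by simp [h', b]⟩
    · exact ⟨u, h, a⟩
  have e : rf ((φ' w)⁻¹ • φ') ((φ' w)⁻¹ * c') w = rf φ' c' ((φ' w)⁻¹ • w) := by
    funext x
    simp only [rf, LinearMap.smul_apply, smul_eq_mul]
    module
  have h1 := uh_rf_form (φ' := (φ' w)⁻¹ • φ') hw (by simp [hμ]) c ((φ' w)⁻¹ * c')
  rw [e] at h1
  exact uh_trans (uh_trans (uh_rf_vec h hw c) h1) (uh_rf_vec (by simp [hμ]) h' c')

theorem refl0_eq (hn : 1 ≤ n) :
    (refl0 : D n → D n) = rf (LinearMap.proj (⟨0, hn⟩ : Fin n)) 0 (Pi.single ⟨0, hn⟩ 1) := by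
  funext x i
  simp only [refl0, rf, LinearMap.proj_apply, Pi.sub_apply, Pi.smul_apply, smul_eq_mul,
    Pi.single_apply, Fin.ext_iff]
  split_ifs with a
  · have : i = ⟨0, hn⟩ := Fin.ext a
    subst this
    ring
  · ring

theorem refl0_refl0 (x : D n) : refl0 (refl0 x) = x := by
  funext i
  simp only [refl0]
  split_ifs <;> simp

theorem pr_id : Pr (id : D n → D n) :=
  ⟨1, le_rfl, fun a b => by simp, fun x => by simp⟩

theorem uh_id : UH (id : D n → D n) id :=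
  uh_seg le_rfl (fun a b => by simp) (fun a b => by simp) (by simp) (by simp) fun τ _ x => by
    simp only [id]
    module

theorem uh_step (hn : 1 ≤ n) {T : D n → D n} {s : ℤˣ} (h : UH T (if s = 1 then id else refl0))
    {φ : D n →ₗ[ℝ] ℝ} {u : D n} (hu : φ u = 1) (c : ℝ) :
    UH (fun x => T (rf φ c u x)) (if -s = 1 then id else refl0) := by
  have p0 : Pr (refl0 : D n → D n) := by
    rw [refl0_eq hn]
    exact pr_rf (by simp) 0
  have h0 : UH (rf φ c u) refl0 := by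
    rw [refl0_eq hn]
    exact uh_rf hu (by simp) c 0
  have h1 := uh_right h (pr_rf hu c)
  rcases Int.units_eq_one_or s with rfl | rfl
  · rw [if_pos rfl] at h1
    rw [if_neg (by decide)]
    exact uh_trans h1 h0
  · rw [if_neg (by decide)] at h1
    rw [if_pos (by decide)]
    have h2 := uh_left h0 p0
    simp only [refl0_refl0] at h2
    exact uh_trans h1 h2

end HurB

open HurB

/-- A permutation of the coordinates. -/
theorem uh_perm (hn : 1 ≤ n) (π : Equiv.Perm (Fin n)) :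
    UH (fun (x : D n) j => x (π j)) (if Equiv.Perm.sign π = 1 then id else refl0) := by
  induction π using Equiv.Perm.swap_induction_on with
  | one =>
    rw [if_pos (map_one _)]
    exact uh_id
  | swap_mul f i j hij ih =>
    have hu : ((LinearMap.proj i : D n →ₗ[ℝ] ℝ) - (LinearMap.proj j : D n →ₗ[ℝ] ℝ))
        ((1 / 2 : ℝ) • (Pi.single i 1 - Pi.single j 1 : D n)) = 1 := by
      simp [hij, hij.symm]
      norm_num
    have h := uh_step hn ih hu 0
    have e : ∀ x : D n, rf ((LinearMap.proj i : D n →ₗ[ℝ] ℝ) - (LinearMap.proj j : D n →ₗ[ℝ] ℝ)) 0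
        ((1 / 2 : ℝ) • (Pi.single i 1 - Pi.single j 1 : D n)) x = fun k => x (Equiv.swap i j k) := by
      intro x
      funext k
      simp only [rf, LinearMap.sub_apply, LinearMap.proj_apply, Pi.sub_apply, Pi.smul_apply,
        smul_eq_mul, Pi.single_apply, Equiv.swap_apply_def]
      by_cases a : k = i
      · subst a
        simp only [if_true, if_neg hij]
        ring
      · by_cases b : k = j
        · subst b
          simp only [if_true, if_neg a]
          ring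
        · simp only [if_neg a, if_neg b]
          ring
    simp only [e] at h
    rw [map_mul, Equiv.Perm.sign_swap hij, neg_one_mul]
    exact h

namespace HurB

/-- The linear part of a barycentric coordinate. -/
def bl (i : Fin (n + 1)) : D n →ₗ[ℝ] ℝ where
  toFun x := (Fin.cons 0 x : Fin (n + 1) → ℝ) i - (Fin.snoc x 0 : Fin (n + 1) → ℝ) i
  map_add' x y := by
    have h1 : (Fin.cons 0 (x + y) : Fin (n + 1) → ℝ) i =
        (Fin.cons 0 x : Fin (n + 1) → ℝ) i + (Fin.cons 0 y : Fin (n + 1) → ℝ) i := by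
      cases i using Fin.cases <;> simp
    have h2 : (Fin.snoc (x + y) 0 : Fin (n + 1) → ℝ) i =
        (Fin.snoc x 0 : Fin (n + 1) → ℝ) i + (Fin.snoc y 0 : Fin (n + 1) → ℝ) i := by
      cases i using Fin.lastCases <;> simp
    rw [h1, h2]
    ring
  map_smul' r x := by
    have h1 : (Fin.cons 0 (r • x) : Fin (n + 1) → ℝ) i =
        r * (Fin.cons 0 x : Fin (n + 1) → ℝ) i := by
      cases i using Fin.cases <;> simp
    have h2 : (Fin.snoc (r • x) 0 : Fin (n + 1) → ℝ) i =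
        r * (Fin.snoc x 0 : Fin (n + 1) → ℝ) i := by
      cases i using Fin.lastCases <;> simp
    rw [h1, h2, RingHom.id_apply, smul_eq_mul]
    ring

theorem bary_eq (x : D n) (i : Fin (n + 1)) : bary x i = bl i x + if i = 0 then 1 else 0 := by
  have h : (Fin.cons 1 x : Fin (n + 1) → ℝ) i =
      (Fin.cons 0 x : Fin (n + 1) → ℝ) i + if i = 0 then 1 else 0 := by
    cases i using Fin.cases <;> simp
  change _ - _ = ((Fin.cons 0 x : Fin (n + 1) → ℝ) i - (Fin.snoc x 0 : Fin (n + 1) → ℝ) i) + _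
  rw [h]
  ring

/-- The vertices of the standard simplex. -/
def vert (k : Fin (n + 1)) : D n := fun j => if (j : ℕ) < k then 1 else 0

theorem bary_vert (k i : Fin (n + 1)) : bary (vert k) i = if i = k then 1 else 0 := by
  have h1 : (Fin.cons 1 (vert k) : Fin (n + 1) → ℝ) i = if (i : ℕ) ≤ k then 1 else 0 := by
    cases i using Fin.cases with
    | zero => simp
    | succ i => simp [vert]
  have h2 : (Fin.snoc (vert k) 0 : Fin (n + 1) → ℝ) i = if (i : ℕ) < k then 1 else 0 := by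
    cases i using Fin.lastCases with
    | last =>
      have := k.2
      rw [Fin.snoc_last, if_neg (by simp only [Fin.val_last]; omega)]
    | cast i => simp [vert]
  rw [bary, h1, h2]
  simp only [Fin.ext_iff]
  split_ifs <;> first | omega | norm_num

theorem bl_vert (i j k : Fin (n + 1)) :
    bl k (vert i - vert j : D n) = (if k = i then 1 else 0) - if k = j then 1 else 0 := by
  rw [map_sub, ← bary_vert i k, ← bary_vert j k, bary_eq, bary_eq]
  ring

end HurB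

/-- The affine symmetries of the standard simplex. -/
theorem exists_uh_bary (hn : 1 ≤ n) (g : Equiv.Perm (Fin (n + 1))) : ∃ T : D n → D n,
    (∀ x i, bary (T x) i = bary x (g i)) ∧
    UH T (if Equiv.Perm.sign g = 1 then id else refl0) := by
  induction g using Equiv.Perm.swap_induction_on with
  | one =>
    rw [if_pos (map_one _)]
    exact ⟨id, fun _ _ => rfl, uh_id⟩
  | swap_mul f i j hij ih =>
    obtain ⟨T, hT, ih⟩ := ih
    have hu : (bl i - bl j : D n →ₗ[ℝ] ℝ) ((1 / 2 : ℝ) • (vert i - vert j)) = 1 := by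
      rw [map_smul, LinearMap.sub_apply, bl_vert, bl_vert]
      simp [hij, hij.symm]
      norm_num
    have h := uh_step hn ih hu ((if j = 0 then 1 else 0) - if i = 0 then 1 else 0)
    rw [map_mul, Equiv.Perm.sign_swap hij, neg_one_mul]
    refine ⟨_, fun x k => ?_, h⟩
    rw [hT, Equiv.Perm.mul_apply]
    generalize f k = m
    have e : bary (rf (bl i - bl j) ((if j = 0 then 1 else 0) - if i = 0 then 1 else 0)
        ((1 / 2 : ℝ) • (vert i - vert j)) x) m = bary x m - (bary x i - bary x j) *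
          ((if m = i then 1 else 0) - if m = j then 1 else 0) := by
      rw [bary_eq, rf, map_sub, map_smul, map_smul, bl_vert, LinearMap.sub_apply, bary_eq x m,
        bary_eq x i, bary_eq x j, smul_eq_mul, smul_eq_mul]
      ring
    rw [e, Equiv.swap_apply_def]
    by_cases a : m = i
    · subst a
      simp only [if_true, if_neg hij]
      ring
    · by_cases b : m = j
      · subst b
        simp only [if_true, if_neg a]
        ring
      · simp only [if_neg a, if_neg b]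
        ring

namespace HurB

theorem sph_perm (hn : 1 ≤ n) {L : ℝ} {E : D n → Ys n (Option (Fin (n + 1)))} (h : IsSph L E)
    (g : Equiv.Perm (Fin (n + 1))) : ∃ T : D n → D n,
      (∀ (α : Type) (a : α) (v : Fin (n + 1) → α) (x : D n),
        sph E a (fun i => v (g i)) x = sph E a v (T x)) ∧
      UH T (if Equiv.Perm.sign g = 1 then id else refl0) := by
  obtain ⟨T, hT, u⟩ := exists_uh_bary hn g⁻¹
  rw [Equiv.Perm.sign_inv] at u
  refine ⟨T, fun α a v x => ?_, u⟩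
  have e := h.symm g x (T x) fun i => by rw [hT]; simp
  simp only [sph]
  rw [e, mapY_mapY]
  congr 1
  funext o
  cases o <;> rfl

/-- Uniform constants for finitely many pairs of maps. -/
theorem uh_unif {ι : Type} [Finite ι] {T T' : ι → D n → D n} (h : ∀ i, UH (T i) (T' i))
    (R0 : ℝ) : ∃ C R : ℝ, 1 ≤ C ∧ 1 ≤ R ∧ ∀ (i : ι) (Z : Type) [MetricSpace Z] (y : Z) (L : ℝ)
      (e : D n → Z), 0 ≤ L → Lip L e → (∀ x, R0 ≤ ‖x‖ → e x = y) →
      Hty (C * L) 0 1 (ball 0 R) (fun x => e (T i x)) fun x => e (T' i x) := by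
  choose C R hC hR H using fun i => h i R0
  obtain ⟨C0, h0⟩ := Finite.exists_le C
  obtain ⟨R1, h1⟩ := Finite.exists_le R
  refine ⟨max C0 1, max R1 1, le_max_right _ _, le_max_right _ _, fun i Z _ y L e hL he hy => ?_⟩
  exact (H i Z y L e hL he hy).1.mono
    (mul_le_mul_of_nonneg_right ((h0 i).trans (le_max_left _ _)) hL) le_rfl le_rfl
    (ball_subset_ball ((h1 i).trans (le_max_left _ _)))

/-- Shrinking an item by the factor `R`. -/
theorem shrink {Z : Type} [MetricSpace Z] {y : Z} {L R : ℝ} {e : D n → Z} (hL : 0 ≤ L)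
    (hR : 1 ≤ R) (h : Item y L e) : Hty (2 * R * L) 0 1 (ball 0 1) e (unsc (0, R) e) := by
  have nrm : ∀ τ ∈ Icc (0 : ℝ) 1, 1 ≤ 1 + τ * (R - 1) ∧ 1 + τ * (R - 1) ≤ R := fun τ hτ =>
    ⟨by linarith only [hR, hτ, hτ.1, mul_nonneg_of_nonpos_of_nonpos (Mathlib.Tactic.Linarith.sub_nonpos_of_le hR) (Mathlib.Tactic.Linarith.sub_nonpos_of_le hτ.left)], by nlinarith [hτ.2]⟩
  have out : ∀ τ ∈ Icc (0 : ℝ) 1, ∀ x : D n, 1 ≤ ‖x‖ → e ((1 + τ * (R - 1)) • x) = y := by
    intro τ hτ x hx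
    refine h.2 _ ?_
    rw [norm_smul, Real.norm_of_nonneg (by linarith [(nrm τ hτ).1])]
    exact one_le_mul_of_one_le_of_one_le (nrm τ hτ).1 hx
  have key := Hty.of_family (U := ball 0 1) (u := e) (u' := unsc (0, R) e)
    (L := L * R) (M := L * R) (T := 1)
    (fun x τ => e ((1 + τ * (R - 1)) • x)) (by positivity) (by positivity) one_pos
    (fun x x' τ hτ τ' hτ' => ?_) (fun x => by simp) (fun x => by simp [unsc])
    fun x hx τ hτ => ?_
  · exact key.mono (le_of_eq (by ring)) le_rfl le_rfl subset_rfl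
  · refine (dist_triangle _ (e ((1 + τ * (R - 1)) • x')) _).trans (add_le_add ?_ ?_)
    · refine (h.1 _ _).trans ?_
      rw [dist_smul₀, Real.norm_of_nonneg (by linarith [(nrm τ hτ).1]), mul_assoc]
      exact mul_le_mul_of_nonneg_left
        (mul_le_mul_of_nonneg_right (nrm τ hτ).2 dist_nonneg) hL
    · by_cases hx : 1 ≤ ‖x'‖
      · rw [out τ hτ x' hx, out τ' hτ' x' hx, dist_self]
        positivity
      · refine (h.1 _ _).trans ?_
        have e1 : (1 + τ * (R - 1)) • x' - (1 + τ' * (R - 1)) • x' =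
            ((τ - τ') * (R - 1)) • x' := by module
        rw [dist_eq_norm, e1, norm_smul, Real.norm_eq_abs, abs_mul,
          abs_of_nonneg (show 0 ≤ R - 1 by linarith), mul_assoc L]
        refine mul_le_mul_of_nonneg_left ?_ hL
        have h1 : (R - 1) * ‖x'‖ ≤ R := by linarith only [hR, hx, not_le.1 hx, norm_nonneg x', mul_nonneg_of_nonpos_of_nonpos (Mathlib.Tactic.Linarith.sub_nonpos_of_le hR) (le_of_lt (Mathlib.Tactic.Linarith.sub_neg_of_lt (lt_of_not_ge hx)))]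
        linarith only [h1, abs_nonneg (τ - τ'), mul_nonneg_of_nonpos_of_nonpos (Mathlib.Tactic.Linarith.sub_nonpos_of_le h1) (Mathlib.Tactic.Linarith.sub_nonpos_of_le (abs_nonneg (τ - τ')))]
  · have hx' : 1 ≤ ‖x‖ := by simpa using hx
    rw [out τ hτ x hx', h.2 x hx']

theorem norm_refl0 (x : D n) : ‖refl0 x‖ = ‖x‖ := by
  simp only [Pi.norm_def]
  congr 2
  funext i
  simp only [refl0]
  split_ifs <;> simp

theorem item_refl0 {Z : Type} [MetricSpace Z] {y : Z} {L : ℝ} {e : D n → Z} (h : Item y L e) :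
    Item y L fun x => e (refl0 x) := by
  refine ⟨fun x x' => (h.1 _ _).trans (le_of_eq ?_), fun x hx => h.2 _ (by rwa [norm_refl0])⟩
  have e1 : refl0 x - refl0 x' = refl0 (x - x') := by
    funext i
    simp only [refl0, Pi.sub_apply]
    split_ifs <;> ring
  rw [dist_eq_norm, dist_eq_norm, e1, norm_refl0]

theorem item_sph {L : ℝ} {E : D n → Ys n (Option (Fin (n + 1)))} (h : IsSph L E) {α Z : Type}
    [MetricSpace Z] {a : α} {v : Fin (n + 1) → α} {S : Set α} {ι : Ys n α → Z} {B : ℝ}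
    (ha : a ∈ S) (hv : ∀ i, v i ∈ S) (hB : 0 ≤ B) (hι : LipS S B ι) :
    Item (ι (vtx a)) (B * max L 1) fun x => ι (sph E a v x) := by
  have hs : ∀ x, ↑(sph E a v x).supp ⊆ S := fun x b hb => by
    rcases supp_sph E a v x b hb with rfl | ⟨i, rfl⟩
    exacts [ha, hv i]
  have hi := (h.item a v).mono (le_max_left L 1)
  refine ⟨fun x x' => (hι _ _ (hs x) (hs x')).trans ?_, fun x hx => by
    simp only [hi.2 x hx]⟩
  rw [mul_assoc]
  exact mul_le_mul_of_nonneg_left (hi.1 x x') hB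

end HurB

theorem IsSph.normal (hn : 1 ≤ n) {L : ℝ} {E : D n → Ys n (Option (Fin (n + 1)))}
    (h : IsSph L E) : SphNormal E := by
  have h0 : (0 : Fin (n + 1)) ≠ Fin.last n := fun e => by
    have := congrArg Fin.val e
    simp at this
    omega
  have hg : ∀ π : Equiv.Perm (Fin n), ∃ g : Equiv.Perm (Fin (n + 1)),
      Equiv.Perm.sign g = Equiv.Perm.sign π := fun π => by
    rcases Int.units_eq_one_or (Equiv.Perm.sign π) with a | a
    · exact ⟨1, by rw [a, map_one]⟩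
    · exact ⟨Equiv.swap 0 (Fin.last n), by rw [a, Equiv.Perm.sign_swap h0]⟩
  choose g hg using hg
  choose T hT u using fun π => sph_perm hn h (g π)
  obtain ⟨C, R, hC, hR, H⟩ := uh_unif (T := fun π (x : D n) j => x (π j)) (T' := T)
    (fun π => uh_trans (uh_perm hn π) (uh_symm (hg π ▸ u π))) 1
  refine ⟨C * max L 1, R, one_le_mul_of_one_le_of_one_le hC (le_max_right _ _), hR,
    fun π => ⟨g π, hg π, fun α a v => ?_⟩⟩
  have hi := (h.item a v).mono (le_max_left L 1)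
  have := H π _ (vtx a) (max L 1) (sph E a v) (by positivity) hi.1 hi.2
  rwa [← funext (hT π α a v)] at this

theorem IsSph.cancel (hn : 2 ≤ n) (hf : FoldS n) {L : ℝ} {E : D n → Ys n (Option (Fin (n + 1)))}
    (h : IsSph L E) : SphCancel E := by
  have hn1 : 1 ≤ n := by omega
  obtain ⟨Cf, hCf, hf⟩ := hf
  choose T hT u using fun g => sph_perm hn1 h g
  obtain ⟨C, R, hC, hR, H⟩ := uh_unif u 1
  have hL0 : 1 ≤ max L 1 := le_max_right _ _
  set L0 := max L 1 with hL0d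
  set M := 2 * C * R * L0 with hM
  have hM1 : 1 ≤ M := by
    have := one_le_mul_of_one_le_of_one_le (one_le_mul_of_one_le_of_one_le hC hR) hL0
    linarith only [this]
  refine ⟨3 * (Cf * M), by linarith only [hCf, hM1, one_le_mul_of_one_le_of_one_le hCf hM1],
    fun α a v g S Z _ ι B L' P P0 hg ha hv hB hι hP0 hP hin => ?_⟩
  have pos : ∀ i, 0 < (P i).2 := fun i => hP.1 i (Finset.mem_univ i)
  have hL' : 0 ≤ L' := nonneg_of_mul_nonneg_left (hB.trans (hin 0).1) (pos 0)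
  have hML : 0 ≤ M * L' := by positivity
  have hBL : 0 ≤ B * L0 := by positivity
  have i0 := item_sph h ha hv hB hι
  have i1 := item_sph h ha (fun i => hv (g i)) hB hι
  set y := ι (vtx a)
  set e := fun x => ι (sph E a v x) with he
  set e' := fun x => ι (sph E a (fun i => v (g i)) x) with he'
  set f := unsc (0, R) e with hfd
  have big : ∀ i, 2 * R * (B * L0) ≤ M * L' * (P i).2 ∧ C * (B * L0) * R ≤ M * L' * (P i).2 := by
    intro i
    have h1 : M * B ≤ M * L' * (P i).2 := by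
      rw [mul_assoc M L']
      exact mul_le_mul_of_nonneg_left (hin i).1 (by linarith only [hM1])
    have h2 : 0 ≤ R * (B * L0) := by positivity
    have h3 : R * (B * L0) ≤ C * (R * (B * L0)) := le_mul_of_one_le_left h2 hC
    have h4 : M * B = 2 * (C * (R * (B * L0))) := by rw [hM]; ring
    constructor <;> linarith only [h1, h3, h2]
  have small : ∀ i, B * L0 ≤ M * L' * (P i).2 ∧ B * L0 * R ≤ M * L' * (P i).2 := fun i => by
    have h1 := (big i).1
    have h2 : B * L0 ≤ B * L0 * R := le_mul_of_one_le_right hBL hR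
    constructor <;> linarith only [hBL, h1, h2]
  have s0 := shrink hBL hR i0
  have s1 := shrink hBL hR i1
  have s2 : Hty (C * (B * L0) * R) 0 (1 / R) (ball 0 1) (unsc (0, R) e') fun x => f (refl0 x) := by
    have k := H g Z y (B * L0) e hBL i0.1 i0.2
    rw [hg, if_neg (by decide)] at k
    have k' := Hty.unsc (R := 1) (0, R) (show 0 < R by linarith only [hR]) (by simpa using k)
    have e1 : e' = fun x => e (T g x) := funext fun x => by simp only [he, he', hT g α a v x]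
    have e2 : (fun x => f (refl0 x)) = unsc (0, R) fun x => e (refl0 x) := by
      funext x
      simp only [hfd, unsc, zero_add]
      congr 1
      funext i
      simp only [refl0, Pi.smul_apply, smul_eq_mul]
      split_ifs <;> ring
    rw [e1, e2]
    exact k'
  have if0 : Item y (B * L0 * R) f := item_unsc (0, R) (show 0 < R by linarith only [hR]) i0.1 fun x hx =>
    i0.2 x (hR.trans (by simpa [Pos.op] using hx))
  have fit : Fit (M * L') (fun _ => y) Finset.univ P ![e, e'] :=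
    ⟨hP, fun i _ => by
      fin_cases i
      exacts [i0.mono (small 0).1, i1.mono (small 1).1], fun _ _ _ _ => rfl⟩
  have fit' : Fit (M * L') (fun _ => y) Finset.univ P ![f, fun x => f (refl0 x)] :=
    ⟨hP, fun i _ => by
      fin_cases i
      exacts [if0.mono (small 0).2, (item_refl0 if0).mono (small 1).2], fun _ _ _ _ => rfl⟩
  have k1 := Hty.items (e' := ![f, fun x => f (refl0 x)]) (κ := 0) (T := 2 * P0.2)
    (lip_const hML y) hML le_rfl fit (fun _ => 2) (fun i _ => by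
      have := (Pos.op_subset_iff hn1 (P i) P0 (pos i)).1 (hin i).2
      linarith only [this, dist_nonneg (x := (P i).1) (y := P0.1)]) fun i _ => by
      fin_cases i
      · exact s0.mono (big 0).1 le_rfl (by norm_num) subset_rfl
      · have t1 := s1.mono (big 1).1 le_rfl le_rfl subset_rfl
        have t2 := s2.mono (big 1).2 le_rfl
          (show 1 / R ≤ 1 from (div_le_one (by linarith only [hR])).2 hR) subset_rfl
        exact (t1.trans t2 (mul_nonneg hML (pos 1).le) zero_le_one zero_le_one).mono le_rfl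
          (by norm_num) (by norm_num) subset_rfl
  have k2 := hf Z y (M * L') P f P0 hML hP0 fit' fun i => (hin i).2
  have k3 := k1.mono (le_mul_of_one_le_left hML hCf) (show 2 * (0 : ℝ) ≤ 0 by norm_num) le_rfl
    (show _ ⊆ P0.op from iUnion₂_subset fun i _ => (hin i).2)
  have h0 : 0 ≤ Cf * (M * L') := by positivity
  have k4 := (k3.trans k2 h0 (by linarith only [hP0]) hP0.le).speed h0 hP0 (by linarith only [hP0])
  refine k4.mono (le_of_eq ?_) (by norm_num) le_rfl subset_rfl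
  field_simp
  ring

end Pool.Agent.Work.MP_4b5e6c_gt
end

-- merged part: Pool.Agent.Work.MP_4b5e6c_gt.Assemble
section
-- merged part: Pool.Agent.Work.MP_4b5e6c_gt.Route
section
/-! Task ROUTE: routing of arbitrarily many items over a constant background. -/

namespace Pool.Agent.Work.MP_4b5e6c_gt
open Metric Set

namespace Route

variable {n : ℕ} {Z I K : Type} [MetricSpace Z]

theorem exists_cell (C0 : DC n) (r : ℕ) : ∃ cell : DC n → DC n, ∀ Q : DC n, Q.Sub C0 →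
    (Q.Sub (cell Q) ∧ (cell Q).j = min Q.j (C0.j + r)) ∧ (cell Q).Sub C0 := by
  have h : ∀ Q : DC n, ∃ a : DC n, Q.Sub C0 →
      (Q.Sub a ∧ a.j = min Q.j (C0.j + r)) ∧ a.Sub C0 := by
    intro Q
    by_cases hQ : Q.Sub C0
    · rcases le_total Q.j (C0.j + r) with h | h
      · exact ⟨Q, fun _ => ⟨⟨DC.Sub.refl Q, (min_eq_left h).symm⟩, hQ⟩⟩
      · obtain ⟨a, h1, h2, h3⟩ := DC.exists_cube (DC.op_subset_cl _ (hQ Q.c_mem_op))
          (show C0.j ≤ C0.j + r by omega)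
        refine ⟨a, fun _ => ⟨⟨(DC.sub_or_disj (h1.le.trans h)).resolve_right fun h4 => ?_,
          h1.trans (min_eq_right h).symm⟩, h2⟩⟩
        exact Set.disjoint_left.1 h4.op_cl Q.c_mem_op h3
    · exact ⟨Q, fun h => absurd h hQ⟩
  choose cell hc using h
  exact ⟨cell, hc⟩

open Classical in
/-- Reference blocks for the classes. -/
theorem exists_ref [DecidableEq K] (hn : 1 ≤ n) (s : Finset I) (A : I → DC n) (κ : I → K) (l : ℤ)
    (hb : ∀ i ∈ s, ∀ i' ∈ s, (A i).j ≤ l → κ i' = κ i → i' = i) :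
    ∃ (T : K → DC n) (p : I → DC n), Sys s κ T p ∧ (∀ i ∈ s, (p i).j = (A i).j) ∧
      (∀ i ∈ s, (T (κ i)).side ^ n ≤ 2 ^ n * ∑ i' ∈ s with κ i' = κ i, (A i').side ^ n) ∧
      ∀ i ∈ s, (A i).j ≤ l → (T (κ i)).j = (A i).j := by
  have h : ∀ k : K, ∃ j : ℤ, ∀ i ∈ s, κ i = k →
      ∑ i' ∈ s with κ i' = k, (A i').side ^ n ≤ ((2 : ℝ) ^ (-j)) ^ n ∧
      ((2 : ℝ) ^ (-j)) ^ n ≤ 2 ^ n * ∑ i' ∈ s with κ i' = k, (A i').side ^ n ∧
      ((A i).j ≤ l → j = (A i).j) := by
    intro k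
    by_cases h1 : ∃ i ∈ s, κ i = k ∧ (A i).j ≤ l
    · obtain ⟨i, hi, rfl, h2⟩ := h1
      have e : s.filter (fun i' => κ i' = κ i) = {i} := by
        ext i'
        simp only [Finset.mem_filter, Finset.mem_singleton]
        exact ⟨fun h => hb i hi i' h.1 h2 h.2, fun h => by rw [h]; exact ⟨hi, rfl⟩⟩
      refine ⟨(A i).j, fun i' hi' h3 => ?_⟩
      rw [e, Finset.sum_singleton, hb i hi i' hi' h2 h3]
      exact ⟨le_rfl, le_mul_of_one_le_left (pow_pos (A i).side_pos n).le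
        (one_le_pow₀ (by norm_num)), fun _ => rfl⟩
    · by_cases h2 : ∃ i ∈ s, κ i = k
      · obtain ⟨i, hi, h3⟩ := h2
        obtain ⟨j, h4, h5⟩ := exists_level_pow hn
          (show 0 < ∑ i' ∈ s with κ i' = k, (A i').side ^ n from
            Finset.sum_pos (fun i' _ => pow_pos (A i').side_pos n)
              ⟨i, Finset.mem_filter.2 ⟨hi, h3⟩⟩)
        exact ⟨j, fun i' hi' h6 => ⟨h4, h5, fun h7 => absurd ⟨i', hi', h6, h7⟩ h1⟩⟩
      · exact ⟨0, fun i hi h3 => absurd ⟨i, hi, h3⟩ h2⟩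
  choose j hj using h
  have h' : ∀ i, ∃ q : I → DC n, i ∈ s → (∀ i', (q i').j = (A i').j) ∧
      Pack ⟨j (κ i), 0⟩ (s.filter fun i' => κ i' = κ i) q := by
    intro i
    by_cases hi : i ∈ s
    · obtain ⟨q, hq⟩ := exists_pack hn ⟨j (κ i), 0⟩ (s.filter fun i' => κ i' = κ i)
        (fun i' => (A i').j) (hj _ i hi rfl).1
      exact ⟨q, fun _ => hq⟩
    · exact ⟨A, fun h => absurd h hi⟩
  have h'' : ∀ k, ∃ q : I → DC n, ∀ i ∈ s, κ i = k → (∀ i', (q i').j = (A i').j) ∧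
      Pack ⟨j k, 0⟩ (s.filter fun i' => κ i' = k) q := by
    intro k
    by_cases hk : ∃ i ∈ s, κ i = k
    · obtain ⟨i, hi, rfl⟩ := hk
      obtain ⟨q, hq⟩ := h' i
      exact ⟨q, fun _ _ _ => hq hi⟩
    · exact ⟨A, fun i hi h => absurd ⟨i, hi, h⟩ hk⟩
  choose q hq using h''
  refine ⟨fun k => ⟨j k, 0⟩, fun i => q (κ i) i, ⟨fun i hi => ?_, fun i hi i' hi' hne h => ?_⟩,
    fun i hi => (hq _ i hi rfl).1 i, fun i hi => (hj _ i hi rfl).2.1,
    fun i hi => (hj _ i hi rfl).2.2⟩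
  · exact (hq _ i hi rfl).2.1 i (Finset.mem_filter.2 ⟨hi, rfl⟩)
  · simp only [← h]
    exact (hq _ i hi rfl).2.2 i (Finset.mem_filter.2 ⟨hi, rfl⟩) i'
      (Finset.mem_filter.2 ⟨hi', h.symm⟩) hne

theorem rd (hn : 1 ≤ n) {C L : ℝ} (hC : 1 ≤ C) (hFr : Fr n (2 ^ ((6 * n + 11) * n)) C)
    (y : Z) (e : I → D n → Z) (hL : 0 ≤ L) (d : ℕ) :
    RD y (C * 2 ^ (6 * n + 13) * 2 ^ (3 * n + 3)) L e d := by
  classical
  have hΛ : 1 ≤ C * 2 ^ (6 * n + 13) * 2 ^ (3 * n + 3) :=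
    one_le_mul_of_one_le_of_one_le (one_le_mul_of_one_le_of_one_le hC
      (one_le_pow₀ (by norm_num))) (one_le_pow₀ (by norm_num))
  have hΛ0 : 0 ≤ C * 2 ^ (6 * n + 13) * 2 ^ (3 * n + 3) * L := by positivity
  induction d with
  | zero =>
    intro s C0 A B hA hB hj hd he
    have h : ∀ i ∈ s, (A i).pos = (B i).pos := fun i hi => by
      have h1 := (hA.1 i hi).j_le hn
      have h2 := hd i hi
      have h3 := hj i hi
      rw [(hA.1 i hi).eq_of_j (by omega), (hB.1 i hi).eq_of_j (by omega)]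
    rw [← ins_congr hA.arr h fun _ _ => rfl]
    have f : Fit L (fun _ => y) s (fun i => (A i).pos) e := ⟨hA.arr, he, fun _ _ _ _ => rfl⟩
    exact Hty.refl ((f.lip (lip_const hL y) hL).mono (le_mul_of_one_le_left hL hΛ)) hΛ0 le_rfl
  | succ d ih =>
    intro s C0 A B hA hB hj hd he
    obtain ⟨cell, hc⟩ := exists_cell C0 (3 * n + 5)
    let κ : I → DC n × DC n := fun i => (cell (A i), cell (B i))
    have c1 := cells_card (a := fun i => cell (A i)) hA (fun i hi => (hc _ (hA.1 i hi)).1)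
      fun i hi => (hc _ (hA.1 i hi)).2
    have c2 := cells_card (a := fun i => cell (B i)) hB (fun i hi => (hc _ (hB.1 i hi)).1)
      fun i hi => (hc _ (hB.1 i hi)).2
    have c3 : ∀ t : Finset (DC n × DC n), (∀ k ∈ t, ∃ i ∈ s, κ i = k) →
        t.card ≤ 2 ^ ((6 * n + 10) * n) := by
      intro t ht
      refine (Finset.card_le_card (t := _ ×ˢ _) fun k hk => ?_).trans
        ((Finset.card_product _ _).le.trans ((Nat.mul_le_mul c1 c2).trans (le_of_eq (by ring))))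
      obtain ⟨i, hi, rfl⟩ := ht k hk
      exact Finset.mem_product.2 ⟨Finset.mem_image.2 ⟨i, hi, rfl⟩, Finset.mem_image.2 ⟨i, hi, rfl⟩⟩
    obtain ⟨T, p, h1, h2, h3, h4⟩ := exists_ref hn s A κ (C0.j + (3 * n + 5 : ℕ)) (by
      intro i hi i' hi' h h'
      have e1 := (hc _ (hA.1 i hi)).1
      have e2 : A i = cell (A i) := e1.1.eq_of_j (by rw [e1.2, min_eq_left h])
      have e3 : cell (A i') = cell (A i) := congrArg Prod.fst h'
      exact Pack.eq_of_sub hA hi' hi (e2 ▸ e3 ▸ (hc _ (hA.1 i' hi')).1.1))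
    have hs : ∀ i ∈ s, (B i).side = (A i).side := fun i hi => DC.side_eq_of_j (hj i hi).symm
    obtain ⟨W, pW, g1⟩ := gather hn hC hFr hL ih hA hd he κ Prod.fst T p
      (fun i hi => (hc _ (hA.1 i hi)).1) (fun i hi => (hc _ (hA.1 i hi)).2)
      (c3 _ fun k hk => by simpa using hk) h1 h2 h3 h4
    obtain ⟨W', pW', g2⟩ := gather hn hC hFr hL ih hB (fun i hi => hj i hi ▸ hd i hi)
      (fun i hi => hs i hi ▸ he i hi) κ Prod.snd T p
      (fun i hi => (hc _ (hB.1 i hi)).1) (fun i hi => (hc _ (hB.1 i hi)).2)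
      (c3 _ fun k hk => by simpa using hk) h1 (fun i hi => hj i hi ▸ h2 i hi)
      (fun i hi => (h3 i hi).trans (le_of_eq (by
        congr 1
        exact Finset.sum_congr rfl fun i' hi' => by rw [hs i' (Finset.mem_filter.1 hi').1])))
      fun i hi => hj i hi ▸ h4 i hi
    have g3 := rigid hC hFr (3 * n + 3) hL (by positivity) (t := s.image κ)
      (fun i hi => Finset.mem_image_of_mem _ hi)
      ((c3 _ fun k hk => by simpa using hk).trans
        (Nat.pow_le_pow_right (by norm_num) (Nat.mul_le_mul_right _ (by omega)))) h1 pW pW'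
      (fun i hi => DC.side_eq_of_j (h2 i hi) ▸ he i hi)
    have h0 := C0.side_pos
    refine ((g1.trans g3 hΛ0 (by positivity) (by positivity)).trans g2.symm hΛ0 (by positivity)
      (by positivity)).mono le_rfl (by norm_num) ?_ subset_rfl
    have h8 : (1 : ℝ) ≤ 8 ^ n := one_le_pow₀ (by norm_num)
    have h9 : (2 : ℝ) ^ (3 * n + 3 + 1) = 16 * 8 ^ n := by
      rw [pow_add, pow_add, pow_mul]
      norm_num
      ring
    have h10 : C0.side = 16 * 8 ^ n * (C0.side / 2 ^ (3 * n + 3 + 1)) := by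
      rw [h9]
      field_simp
    have h11 : 0 < C0.side / 2 ^ (3 * n + 3 + 1) := by positivity
    generalize C0.side / 2 ^ (3 * n + 3 + 1) = τ at *
    linarith only [h10, h11, h8, mul_nonneg_of_nonpos_of_nonpos (Mathlib.Tactic.Linarith.sub_nonpos_of_le h8) (le_of_lt (Mathlib.Tactic.Linarith.sub_neg_of_lt h11))]

end Route

theorem route {n : ℕ} (hn : 2 ≤ n) (hfr : FrS n) : RouteS n := by
  obtain ⟨C, hC, hFr⟩ := hfr (2 ^ ((6 * n + 11) * n))
  refine ⟨C * 2 ^ (6 * n + 13) * 2 ^ (3 * n + 3), one_le_mul_of_one_le_of_one_le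
    (one_le_mul_of_one_le_of_one_le hC (one_le_pow₀ (by norm_num))) (one_le_pow₀ (by norm_num)),
    fun Z _ I s y L C0 A B e hL hA hB hj he => ?_⟩
  refine Route.rd (by omega) hC hFr y e hL (s.sup fun i => ((A i).j - C0.j).toNat) s C0 A B hA hB
    hj (fun i hi => ?_) he
  have := Finset.le_sup (f := fun i => ((A i).j - C0.j).toNat) hi
  omega

end Pool.Agent.Work.MP_4b5e6c_gt
end

-- merged part: Pool.Agent.Work.MP_4b5e6c_gt.Move
section
/-! Task MOVE: moving items through an arbitrary Lipschitz background. -/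

namespace Pool.Agent.Work.MP_4b5e6c_gt
open Metric Set

variable {n : ℕ} {X : Type} [MetricSpace X]

namespace Move

theorem ins_sum {Z I J : Type} {b : D n → Z} {s : Finset I} {t : Finset J} {P : I ⊕ J → Pos n}
    {e : I ⊕ J → D n → Z} (h : Arr (s.disjSum t) P) :
    ins b (s.disjSum t) P e = ins (ins b s (fun i => P (Sum.inl i)) fun i => e (Sum.inl i)) t
      (fun j => P (Sum.inr j)) fun j => e (Sum.inr j) := by
  have h1 : Arr s fun i => P (Sum.inl i) :=
    ⟨fun i hi => h.1 _ (Finset.inl_mem_disjSum.2 hi), fun i hi j hj e =>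
      h.2 _ (Finset.inl_mem_disjSum.2 hi) _ (Finset.inl_mem_disjSum.2 hj) (by simpa using e)⟩
  have h2 : Arr t fun j => P (Sum.inr j) :=
    ⟨fun i hi => h.1 _ (Finset.inr_mem_disjSum.2 hi), fun i hi j hj e =>
      h.2 _ (Finset.inr_mem_disjSum.2 hi) _ (Finset.inr_mem_disjSum.2 hj) (by simpa using e)⟩
  funext x
  by_cases a : ∃ j ∈ t, x ∈ (P (Sum.inr j)).op
  · obtain ⟨j, hj, hx⟩ := a
    rw [ins_of_mem h (Finset.inr_mem_disjSum.2 hj) hx, ins_of_mem h2 hj hx]
  · push Not at a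
    rw [ins_of_not_mem (s := t) a]
    by_cases c : ∃ i ∈ s, x ∈ (P (Sum.inl i)).op
    · obtain ⟨i, hi, hx⟩ := c
      rw [ins_of_mem h (Finset.inl_mem_disjSum.2 hi) hx, ins_of_mem h1 hi hx]
    · push Not at c
      rw [ins_of_not_mem (s := s) c, ins_of_not_mem]
      rintro (i | j) hi
      · exact c i (Finset.inl_mem_disjSum.1 hi)
      · exact a j (Finset.inr_mem_disjSum.1 hi)

theorem scale {C0 : DC n} {b : D n → X} {y1 : X} {L fl : ℝ} (hL : 0 < L) (hb : Lip L b)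
    (hfl : 0 < fl) (hfl' : fl ≤ C0.side) (hd : ∀ x, dist (b x) y1 ≤ L * C0.side) :
    Scale C0 fun x => max fl (dist (b x) y1 / (8 * L)) := by
  refine ⟨fun x x' => ?_, ⟨fl, hfl, fun x => le_max_left _ _⟩, fun x => max_le hfl' ?_⟩
  · rw [Real.dist_eq, max_comm fl, max_comm fl]
    refine (abs_max_sub_max_le_abs _ _ _).trans ?_
    rw [← sub_div, abs_div, abs_of_pos (by positivity : 0 < 8 * L), div_le_iff₀ (by positivity)]
    have h1 := (abs_dist_sub_le (b x) (b x') y1).trans (hb x x')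
    linarith only [h1]
  · rw [div_le_iff₀ (by positivity)]
    have := mul_pos hL C0.side_pos
    have := hd x
    linarith

theorem disj (hn : 1 ≤ n) {C0 Q P : DC n} {b : D n → X} {y1 : X} {L fl : ℝ}
    (hσ : Scale C0 fun x => max fl (dist (b x) y1 / (8 * L))) (hfl : 0 < fl)
    (hQ : Q ∈ DC.gp (fun x => max fl (dist (b x) y1 / (8 * L))) C0) (hQ' : ∃ x ∈ Q.cl, b x ≠ y1)
    (hP : ∀ x ∈ P.cl, b x = y1) (hP' : 8 * fl < P.side) : Q.Disj P := by
  obtain ⟨x, hx, hx'⟩ := hQ'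
  rcases le_total P.j Q.j with h | h
  · exact (DC.sub_or_disj h).resolve_left fun h => hx' (hP x (h.cl_subset hx))
  · refine ((DC.sub_or_disj h).resolve_left fun h => ?_).symm
    have hc := P.op_subset_cl P.c_mem_op
    have h1 := (DC.gp_bounds hσ hQ (h.cl_subset hc)).2
    have h2 := h.side_le hn
    simp only [hP _ hc, dist_self, zero_div, max_eq_left hfl.le] at h1
    linarith only [hP', h2, h1]

/-- The background can be made constant on the cube, at the price of inserting items. -/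
theorem clear (hn : 1 ≤ n) (R : Rz n X) (hc : ConeS n X) : ∃ C : ℝ, 1 ≤ C ∧
    ∀ (y y1 : X) (L fl : ℝ) (C0 : DC n) (b : D n → X), 0 < L → Lip L b →
      (∀ x, x ∉ C0.op → b x = y) → (∃ x ∈ C0.cl, b x = y1) → 0 < fl → fl ≤ C0.side →
      ∃ (b' : D n → X) (G : Finset (DC n)) (e : DC n → D n → X) (U : Set (D n)),
        Lip (C * L) b' ∧ (∀ x ∈ C0.cl, b' x = y1) ∧ Pack C0 G id ∧
        (∀ Q ∈ G, Item y1 (C * L * (Q.core.side / 2)) (e Q)) ∧ U ⊆ C0.big ∧
        Hty (C * L) 0 C0.side U b (ins b' G (fun Q => Q.core.pos) e) ∧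
        ∀ P : DC n, P.Sub C0 → (∀ x ∈ P.cl, b x = y1) → 8 * fl < P.side →
          Disjoint P.op U ∧ ∀ Q ∈ G, Q.Disj P := by
  classical
  obtain ⟨Cc, hCc, hc⟩ := hc
  have hR := R.one_le
  refine ⟨1000 * (Cc * (8 * R.C)), by linarith only [hCc, hR, mul_nonneg_of_nonpos_of_nonpos (Mathlib.Tactic.Linarith.sub_nonpos_of_le hCc) (Mathlib.Tactic.Linarith.sub_nonpos_of_le hR)], ?_⟩
  rintro y y1 L fl C0 b hL hb hy ⟨x0, hx0, hx0'⟩ hfl hfl'
  have hs := C0.side_pos
  have hd : ∀ x ∈ C0.cl, dist (b x) y1 ≤ L * C0.side := fun x hx => by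
    rw [← hx0']
    exact (hb x x0).trans (mul_le_mul_of_nonneg_left (DC.dist_le_side hx hx0) hL.le)
  have hyy : dist y y1 ≤ L * C0.side := by
    have : Nonempty (Fin n) := ⟨⟨0, hn⟩⟩
    have h1 : dist (C0.c + fun _ => C0.side / 2) C0.c = C0.side / 2 := by
      rw [dist_self_add_left, pi_norm_const, Real.norm_of_nonneg (by positivity)]
    rw [← hy (C0.c + fun _ => C0.side / 2) fun h => (mem_ball.1 h).ne h1]
    exact hd _ (mem_closedBall.2 h1.le)
  have hd' : ∀ x, dist (b x) y1 ≤ L * C0.side := fun x => by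
    by_cases hx : x ∈ C0.op
    · exact hd x (C0.op_subset_cl hx)
    · rw [hy x hx]; exact hyy
  have hσ := scale hL hb hfl hfl' hd'
  obtain ⟨γ, hγ⟩ := R.exists_path hn y y1
  have hl : 2 * R.C * dist y y1 ≤ 2 * R.C * (L * C0.side) :=
    mul_le_mul_of_nonneg_left hyy (by positivity)
  have hRL : 0 < R.C * (L * C0.side) := by positivity
  replace hγ := hγ.mono hl
  have hit : Item y (8 * R.C * L * ((C0.c, C0.side) : Pos n).2) (bump γ : D n → X) :=
    (item_bump hγ (by positivity)).mono (by simp only; linarith only [hRL])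
  obtain ⟨u', hu'⟩ : ∃ u' : D n → X, u' = sc (C0.c, C0.side) (bump γ) := ⟨_, rfl⟩
  have u1 : Lip (8 * R.C * L) u' := hu' ▸ hit.lip_sc _ hs
  have u2 : ∀ x ∈ C0.cl, u' x = y1 := fun x hx => by
    rw [hu']
    refine hγ.2.2 _ ?_
    have h1 : ‖x - C0.c‖ ≤ C0.side / 2 := by rw [← dist_eq_norm]; exact hx
    have h2 : ‖C0.side⁻¹ • (x - C0.c)‖ ≤ 1 / 2 := by
      rw [norm_smul, norm_inv, Real.norm_of_nonneg hs.le, inv_mul_le_iff₀ hs]
      linarith only [h1]
    simp only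
    linarith only [h2]
  have u3 : ∀ x, x ∉ C0.big → u' x = b x := fun x hx => by
    rw [hy x fun h => hx (C0.cl_subset_big (C0.op_subset_cl h)), hu']
    exact hit.sc_eq _ hs fun h => hx (ball_subset_ball (by simp only; linarith only [hfl, hfl']) h)
  have u4 : ∀ x, dist (u' x) y1 ≤ 2 * R.C * (L * C0.side) := fun x => by
    rw [hu']
    exact (hγ.dist_le (by positivity) _).2
  have hL1 : L ≤ 8 * R.C * L := by linarith only [hL, hR, mul_nonneg_of_nonpos_of_nonpos (Mathlib.Tactic.Linarith.sub_nonpos_of_le hR) (le_of_lt (Mathlib.Tactic.Linarith.sub_neg_of_lt hL))]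
  have hL1' : 0 < 8 * R.C * L := by positivity
  have hL2 : 8 * R.C * L ≤ Cc * (8 * R.C * L) := by linarith only [hCc, hL, hL1, mul_nonneg_of_nonpos_of_nonpos (Mathlib.Tactic.Linarith.sub_nonpos_of_le hCc) (le_of_lt (Mathlib.Tactic.Linarith.sub_neg_of_lt hL)), mul_nonneg_of_nonpos_of_nonpos (Mathlib.Tactic.Linarith.sub_nonpos_of_le hCc) (Mathlib.Tactic.Linarith.sub_nonpos_of_le hL1)]
  obtain ⟨c, c1, c2⟩ := hc b u' _ hL1' (hb.mono hL1) u1
  obtain ⟨N, n1, n2⟩ := C0.exists_nbrs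
  obtain ⟨G, hG⟩ : ∃ G : Finset (DC n), ∀ Q, Q ∈ G ↔
      Q ∈ DC.gp (fun x => max fl (dist (b x) y1 / (8 * L))) C0 ∧ ∃ x ∈ Q.cl, b x ≠ y1 :=
    ⟨(DC.gp_finite hn hσ).toFinset.filter fun Q => ∃ x ∈ Q.cl, b x ≠ y1, fun Q => by
      rw [Finset.mem_filter, Set.Finite.mem_toFinset]⟩
  have g1 : ∀ Q ∈ G, Q.Sub C0 := fun Q hQ => ((hG Q).1 hQ).1.1
  have g2 : ∀ Q ∈ G, ∀ Q' ∈ G, Q ≠ Q' → Q.Disj Q' := fun Q hQ Q' hQ' =>
    DC.gp_disj hn ((hG Q).1 hQ).1 ((hG Q').1 hQ').1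
  have n3 : ∀ Q ∈ N, Q.Disj C0 := fun Q hQ => DC.disj_of_j_eq (n1 Q hQ).1 (n1 Q hQ).2.1
  have hNG : Disjoint N G := Finset.disjoint_left.2 fun Q h h' =>
    DC.not_disj_of_sub (g1 Q h') (n3 Q h)
  have harr : Arr (N ∪ G) fun Q => (id Q).pos := by
    refine ⟨fun Q _ => half_pos Q.side_pos, fun Q hQ Q' hQ' e => ?_⟩
    rcases Finset.mem_union.1 hQ with h | h <;> rcases Finset.mem_union.1 hQ' with h' | h'
    · exact DC.disj_of_j_eq ((n1 Q h).1.trans (n1 Q' h').1.symm) e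
    · exact (n3 Q h).mono (DC.Sub.refl Q) (g1 Q' h')
    · exact ((n3 Q' h').mono (DC.Sub.refl Q') (g1 Q h)).symm
    · exact g2 Q h Q' h' e
  obtain ⟨d1, -, d2, d3⟩ := diff hn (hL1'.le.trans hL2) hs (hb.mono (hL1.trans hL2)) (u1.mono hL2) c
    (N ∪ G) id harr (fun Q hQ => by
      rcases Finset.mem_union.1 hQ with h | h
      · exact (DC.side_eq_of_j (n1 Q h).1).le
      · exact (g1 Q h).side_le hn) {x | u' x = b x} (isClosed_eq u1.continuous hb.continuous)
    (fun x hx => by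
      by_cases h : x ∈ C0.big
      · rcases n2 x (mem_ball.1 h).le with h | ⟨Q, hQ, h⟩
        · obtain ⟨Q, hQ, h'⟩ := DC.gp_cover hn hσ h
          by_contra e
          exact hx Q (Finset.mem_union_right _ ((hG Q).2
            ⟨hQ, x, h', fun e' => e ((u2 x h).trans e'.symm)⟩)) h'
        · exact absurd h (hx Q (Finset.mem_union_left _ hQ))
      · exact u3 x h) (fun x hx => ⟨hx, fun τ _ => c1 x hx τ⟩) (fun Q hQ => c2 Q fun x hx => by
      rcases Finset.mem_union.1 hQ with h | h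
      · have h1 := dist_triangle_right (b x) (u' x) y1
        have h2 := hd' x
        have h3 := u4 x
        have h4 : L * C0.side ≤ R.C * (L * C0.side) := le_mul_of_one_le_left (by positivity) hR
        rw [DC.side_eq_of_j (n1 Q h).1]
        linarith only [hRL, h1, h2, h3, h4]
      · have h1 := (le_max_right _ _).trans (DC.gp_bounds hσ ((hG Q).1 h).1 hx).1
        rw [div_le_iff₀ (by positivity)] at h1
        have h4 : L * Q.side ≤ R.C * (L * Q.side) :=
          le_mul_of_one_le_left (mul_pos hL Q.side_pos).le hR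
        rw [u2 x ((g1 Q h).cl_subset hx)]
        linarith only [h1, h4])
  have eL : 1000 * (Cc * (8 * R.C * L)) = 1000 * (Cc * (8 * R.C)) * L := by ring
  rw [eL] at d1 d2 d3
  have b1 : ∀ x ∈ C0.cl, u' (coreMap (N ∪ G) id x) = y1 := fun x hx => by
    by_cases h : ∃ Q ∈ G, x ∈ Q.op
    · obtain ⟨Q, hQ, h⟩ := h
      exact u2 _ ((g1 Q hQ).cl_subset
        (coreMap_mem harr (Finset.mem_union_right _ hQ) (Q.op_subset_cl h)))
    · rw [coreMap_of_not_mem, u2 x hx]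
      intro Q hQ h'
      rcases Finset.mem_union.1 hQ with h1 | h1
      · exact Set.disjoint_left.1 (n3 Q h1).op_cl h' hx
      · exact h ⟨Q, h1, h'⟩
  rw [ins_union d2.arr hNG] at d3
  refine ⟨_, G, _, _, (d2.subset Finset.subset_union_left).lip d1 (by positivity),
    fun x hx => ?_, ⟨g1, g2⟩, fun Q hQ => ?_, ?_, d3, fun P hP hP' hP'' => ⟨?_, fun Q hQ =>
      disj hn hσ hfl ((hG Q).1 hQ).1 ((hG Q).1 hQ).2 hP' hP''⟩⟩
  · rw [ins_of_not_mem, b1 x hx]
    exact fun Q hQ h => Set.disjoint_left.1 (n3 Q hQ).op_cl (Q.core_sub h) hx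
  · rw [← b1 _ (C0.op_subset_cl (g1 Q hQ (Q.core_sub Q.core.c_mem_op)))]
    exact d2.item Q (Finset.mem_union_right _ hQ)
  · refine union_subset (iUnion₂_subset fun Q hQ => ?_) fun x hx => by_contra fun h => hx (u3 x h)
    rcases Finset.mem_union.1 hQ with h | h
    · exact (n1 Q h).2.2
    · exact fun x hx => C0.cl_subset_big (C0.op_subset_cl (g1 Q h hx))
  · refine Set.disjoint_left.2 fun x hx => ?_
    rintro (h | h)
    · obtain ⟨Q, hQ, h⟩ := mem_iUnion₂.1 h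
      rcases Finset.mem_union.1 hQ with h1 | h1
      · exact Set.disjoint_left.1 (n3 Q h1) h (hP hx)
      · exact Set.disjoint_left.1 (disj hn hσ hfl ((hG Q).1 h1).1 ((hG Q).1 h1).2 hP' hP'') h hx
    · exact h ((u2 x (C0.op_subset_cl (hP hx))).trans (hP' x (P.op_subset_cl hx)).symm)

end Move

theorem move (hn : 2 ≤ n) (R : Rz n X) (hc : ConeS n X) (hr : RouteS n) : MoveS n X := by
  have hn1 : 1 ≤ n := by omega
  obtain ⟨C, hC, H⟩ := Move.clear hn1 R hc
  obtain ⟨Cr, hCr, hr⟩ := hr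
  refine ⟨Cr * C * 3, by linarith only [hC, hCr, mul_nonneg_of_nonpos_of_nonpos (Mathlib.Tactic.Linarith.sub_nonpos_of_le hC) (Mathlib.Tactic.Linarith.sub_nonpos_of_le hCr)], ?_⟩
  intro I s y y1 L C0 b A B e hL hb hy hA hB hj hAB he
  have hs := C0.side_pos
  have hL1 : L ≤ C * L := le_mul_of_one_le_left hL.le hC
  have hL1' : 0 ≤ C * L := hL.le.trans hL1
  have hL2 : C * L ≤ Cr * (C * L) := le_mul_of_one_le_left hL1' hCr
  have hL2' : 0 ≤ Cr * (C * L) := hL1'.trans hL2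
  rcases s.eq_empty_or_nonempty with rfl | hne
  · rw [ins_empty, ins_empty]
    exact Hty.refl (hb.mono (by linarith only [hL, hL1, hL2])) (by linarith only [hL, hL1, hL2]) le_rfl
  obtain ⟨i0, hi0, hmin⟩ := s.exists_min_image (fun i => (A i).side) hne
  have h0 := (A i0).side_pos
  obtain ⟨b', G, f, U, h1, h2, h3, h4, h5, h6, h7⟩ := H y y1 L ((A i0).side / 16) C0 b hL hb hy
    ⟨_, C0.op_subset_cl (hA.1 i0 hi0 (A i0).c_mem_op),
      hAB i0 hi0 _ (Or.inl ((A i0).op_subset_cl (A i0).c_mem_op))⟩ (by positivity)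
    (by linarith only [hs, hn1, hA, hi0, (hA.1 i0 hi0).side_le hn1])
  have key : ∀ P : I → DC n, Pack C0 s P → (∀ i ∈ s, (A i).j = (P i).j) →
      (∀ i ∈ s, ∀ x ∈ (P i).cl, b x = y1) →
      Pack C0 (G.disjSum s) (Sum.elim DC.core P) ∧
      Hty (Cr * (C * L)) 0 C0.side C0.big (ins b s (fun i => (P i).pos) e)
        (ins b' (G.disjSum s) (fun k => (Sum.elim DC.core P k).pos) (Sum.elim f e)) := by
    intro P hP hj hb'
    have k1 := fun i hi => h7 (P i) (hP.1 i hi) (hb' i hi) (by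
      rw [← DC.side_eq_of_j (hj i hi)]
      linarith only [h0, hmin, hi, hmin i hi])
    have k2 : Pack C0 (G.disjSum s) (Sum.elim DC.core P) := by
      constructor
      · rintro (Q | i) h
        · exact Q.core_sub.trans (h3.1 Q (Finset.inl_mem_disjSum.1 h))
        · exact hP.1 i (Finset.inr_mem_disjSum.1 h)
      · rintro (Q | i) h (Q' | i') h' ne
        · exact (h3.2 Q (Finset.inl_mem_disjSum.1 h) Q' (Finset.inl_mem_disjSum.1 h')
            (by simpa using ne)).mono Q.core_sub Q'.core_sub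
        · exact ((k1 i' (Finset.inr_mem_disjSum.1 h')).2 Q (Finset.inl_mem_disjSum.1 h)).mono
            Q.core_sub (DC.Sub.refl _)
        · exact (((k1 i (Finset.inr_mem_disjSum.1 h)).2 Q' (Finset.inl_mem_disjSum.1 h')).mono
            Q'.core_sub (DC.Sub.refl _)).symm
        · exact hP.2 i (Finset.inr_mem_disjSum.1 h) i' (Finset.inr_mem_disjSum.1 h')
            (by simpa using ne)
    have hc : ∀ i ∈ s, b (P i).c = y1 := fun i hi =>
      hb' i hi _ ((P i).op_subset_cl (P i).c_mem_op)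
    have k3 : Fit (C * L) b s (fun i => (P i).pos) e := by
      refine ⟨hP.arr, fun i hi => ?_, fun i hi x hx => (hb' i hi x hx).trans (hc i hi).symm⟩
      rw [DC.pos_fst, DC.pos_snd, hc i hi, ← DC.side_eq_of_j (hj i hi)]
      exact (he i hi).mono (mul_le_mul_of_nonneg_right hL1 (half_pos (A i).side_pos).le)
    refine ⟨k2, ?_⟩
    rw [Move.ins_sum k2.arr]
    exact (h6.insert hL1' k3 fun i hi => (k1 i hi).1).1.mono hL2 le_rfl le_rfl h5
  obtain ⟨a1, a2⟩ := key A hA (fun _ _ => rfl) fun i hi x hx => hAB i hi x (Or.inl hx)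
  obtain ⟨b1, b2⟩ := key B hB hj fun i hi x hx => hAB i hi x (Or.inr hx)
  have r1 := hr X (DC n ⊕ I) (G.disjSum s) y1 (C * L) C0 (Sum.elim DC.core A) (Sum.elim DC.core B)
    (Sum.elim f e) hL1' a1 b1 (by
    rintro (Q | i) h
    · rfl
    · exact hj i (Finset.inr_mem_disjSum.1 h)) (by
    rintro (Q | i) h
    · exact h4 Q (Finset.inl_mem_disjSum.1 h)
    · exact (he i (Finset.inr_mem_disjSum.1 h)).mono
        (mul_le_mul_of_nonneg_right hL1 (half_pos (A i).side_pos).le))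
  have r2 : Hty (Cr * (C * L)) 0 C0.side C0.big
      (ins b' (G.disjSum s) (fun k => (Sum.elim DC.core A k).pos) (Sum.elim f e))
      (ins b' (G.disjSum s) (fun k => (Sum.elim DC.core B k).pos) (Sum.elim f e)) :=
    (Hty.local (h1.mono hL2) hL2' le_rfl C0.pos h2 (P := fun k => (Sum.elim DC.core A k).pos)
      (R := fun k => (Sum.elim DC.core B k).pos) a1.1 b1.1 r1).mono le_rfl
      (le_of_eq (mul_zero 2)) le_rfl (C0.op_subset_cl.trans C0.cl_subset_big)
  have r3 := ((a2.trans r2 hL2' hs.le hs.le).trans b2.symm hL2' (by positivity) hs.le).speed hL2' hs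
    (by linarith only [hs])
  refine r3.mono (le_of_eq ?_) (by norm_num) le_rfl subset_rfl
  field_simp
  ring

end Pool.Agent.Work.MP_4b5e6c_gt
end

-- merged part: Pool.Agent.Work.MP_4b5e6c_gt.Sphere
section
/-! Task SPHERE: spheres with prescribed chain. -/

namespace Pool.Agent.Work.MP_4b5e6c_gt
open Metric Set

namespace Sphere
variable {n : ℕ}

/-- The boundary of one simplex with vertex `a`. -/
theorem cone_pos (hn : 2 ≤ n) (hk : KuhnS n) {α : Type} (a : α) (v : Fin (n + 1) → α) :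
    ∃ e : D n → Ys n α, Item (vtx a) (8 * ((n : ℝ) + 1)) e ∧
      (∀ x, ∀ b ∈ (e x).supp, b = a ∨ ∃ i, b = v i) ∧
      ∀ φ : List α → ℤ, Alt φ → degY φ e = cob φ (a :: List.ofFn v) := by
  obtain ⟨κ, h1, -, h3, h4⟩ := hk
  obtain ⟨l, l1, l2⟩ := exists_cone_label hn a v
  have hP : 0 < (((0 : D n), (2 : ℝ)) : Pos n).2 := two_pos
  have hI : Item (vtx a) (1 * (4 * ((n : ℝ) + 1)) * 2) (unsc (0, 2) fun x => mapY l (κ x)) := by
    refine item_unsc (0, 2) hP ((lip_mapY l).comp h1 zero_le_one) fun x hx => ?_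
    obtain ⟨j, hj⟩ : ∃ j, 2 ≤ |x j| := by
      by_contra c
      exact hx (mem_ball_zero_iff.2 ((pi_norm_lt_iff two_pos).2 fun j =>
        not_le.1 fun d => c ⟨j, d⟩))
    refine eq_vtx_of_supp fun b hb => ?_
    obtain ⟨k, hk, rfl⟩ := mem_supp_mapY.1 hb
    refine (l1 k).resolve_right fun c => ?_
    have p := abs_lt.1 (h3 x k hk j)
    have q : (0 : ℝ) ≤ k j := by exact_mod_cast (c.1 j).1
    have r : (k j : ℝ) ≤ 1 := by exact_mod_cast (c.1 j).2
    exact not_lt.2 hj (abs_lt.2 ⟨by linarith only [p, q, p.1], by linarith [p.2]⟩)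
  refine ⟨_, hI.mono (by linarith), fun x b hb => ?_, fun φ hφ => ?_⟩
  · obtain ⟨k, -, rfl⟩ := mem_supp_mapY.1 hb
    exact (l1 k).imp id And.right
  · rw [← degY_sc hn hφ hI.1 hI.cpt (0, 2) hP, sc_unsc _ hP, h4 hn α φ l hφ, l2 φ hφ]
    exact ⟨a, (finite_Icc (0 : Fin n → ℤ) 1).subset fun k hk =>
      ⟨fun j => (((l1 k).resolve_left hk).1 j).1, fun j => (((l1 k).resolve_left hk).1 j).2⟩⟩

theorem cone (hn : 2 ≤ n) (hk : KuhnS n) {α : Type} (a : α) (w : List α) (hw : w.length = n + 1)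
    (ε : ℤ) (hε : ε = 1 ∨ ε = -1) :
    ∃ e : D n → Ys n α, Item (vtx a) (8 * ((n : ℝ) + 1)) e ∧
      (∀ x, ∀ b ∈ (e x).supp, b = a ∨ b ∈ w) ∧
      ∀ φ : List α → ℤ, Alt φ → degY φ e = ε * cob φ (a :: w) := by
  obtain ⟨v, rfl⟩ : ∃ v : Fin (n + 1) → α, w = List.ofFn v :=
    ⟨fun j => w[(j : ℕ)]'(j.2.trans_eq hw.symm), List.ext_getElem (hw.trans List.length_ofFn.symm)
      fun i _ _ => by rw [List.getElem_ofFn]⟩
  rcases hε with rfl | rfl
  · obtain ⟨e, h1, h2, h3⟩ := cone_pos hn hk a v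
    exact ⟨e, h1, fun x b hb => (h2 x b hb).imp id fun ⟨i, c⟩ => List.mem_ofFn.2 ⟨i, c.symm⟩,
      fun φ hφ => by rw [h3 φ hφ, one_mul]⟩
  · have ne : (0 : Fin (n + 1)) ≠ Fin.last n := fun c => by
      have := congrArg Fin.val c
      simp at this
      omega
    obtain ⟨e, h1, h2, h3⟩ := cone_pos hn hk a fun i => v (Equiv.swap 0 (Fin.last n) i)
    refine ⟨e, h1, fun x b hb => (h2 x b hb).imp id fun ⟨i, c⟩ => List.mem_ofFn.2 ⟨_, c.symm⟩,
      fun φ hφ => ?_⟩
    rw [h3 φ hφ, (hφ.cob.cons a).ofFn_perm v, Equiv.Perm.sign_swap ne]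
    rfl

theorem cob_eq {α : Type} (φ : List α → ℤ) (a : α) (u : List α) :
    cob φ u = ∑ i : Fin u.length, (-1) ^ (i : ℕ) * cob φ (a :: u.eraseIdx i) := by
  have := cob_cob φ (a :: u)
  rw [cob, sub_eq_zero] at this
  rw [this, cob_eq_sum]

end Sphere

theorem exists_sphere {n : ℕ} (hn : 2 ≤ n) (hk : KuhnS n) : SphereS n := by
  have n0 : (0 : ℝ) ≤ n := n.cast_nonneg
  obtain ⟨r, hr⟩ : ∃ r : ℝ, r = 1 / (2 * ((n : ℝ) + 2)) := ⟨_, rfl⟩
  have r0 : 0 < r := by rw [hr]; positivity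
  have r1 : (2 * ((n : ℝ) + 2)) * r = 1 := by rw [hr]; field_simp
  have hL : 1 ≤ 8 * ((n : ℝ) + 1) * (2 * (n + 2)) :=
    one_le_mul_of_one_le_of_one_le (by linarith only []) (by linarith only [])
  refine ⟨_, hL, fun α a u ε hu hε => ?_⟩
  have hc : ∀ i : Fin u.length, ∃ e : D n → Ys n α, Item (vtx a) (8 * ((n : ℝ) + 1)) e ∧
      (∀ x, ∀ b ∈ (e x).supp, b = a ∨ b ∈ u.eraseIdx i) ∧
      ∀ φ : List α → ℤ, Alt φ → degY φ e = ε * (-1) ^ (i : ℕ) * cob φ (a :: u.eraseIdx i) :=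
    fun i => Sphere.cone hn hk a _ (by rw [List.length_eraseIdx_of_lt i.2, hu]; rfl) _ (by
      rcases hε with rfl | rfl <;> rcases neg_one_pow_eq_or ℤ (i : ℕ) with c | c <;> simp [c])
  choose e h1 h2 h3 using hc
  have : Nonempty (Fin n) := ⟨⟨0, by omega⟩⟩
  have hF : Fit (8 * ((n : ℝ) + 1) * (2 * (n + 2))) (fun _ => vtx a) Finset.univ
      (fun i : Fin u.length => ((fun _ => 2 * (i : ℕ) * r, r) : Pos n)) e := by
    refine ⟨⟨fun _ _ => r0, fun i _ j _ ne => (Pos.disjoint_iff _ _ r0 r0).2 ?_⟩,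
      fun i _ => by rw [mul_assoc, r1, mul_one]; exact h1 i, fun _ _ _ _ => rfl⟩
    have : (1 : ℝ) ≤ |((i : ℕ) : ℝ) - (j : ℕ)| := by
      have : (1 : ℤ) ≤ |((i : ℕ) : ℤ) - (j : ℕ)| :=
        Int.one_le_abs (sub_ne_zero.2 fun c => ne (Fin.ext (by exact_mod_cast c)))
      exact_mod_cast this
    change r + r ≤ dist (fun _ : Fin n => 2 * (i : ℕ) * r) fun _ => 2 * (j : ℕ) * r
    rw [dist_pi_const, Real.dist_eq, ← sub_mul, ← mul_sub, abs_mul, abs_mul, abs_two,
      abs_of_pos r0]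
    linarith only [r0, this, mul_nonneg_of_nonpos_of_nonpos (le_of_lt (Mathlib.Tactic.Linarith.sub_neg_of_lt r0)) (Mathlib.Tactic.Linarith.sub_nonpos_of_le this)]
  refine ⟨_, hF.item_ins (by linarith only [hL]) fun i _ => ball_subset_ball' ?_, fun x b hb => ?_,
    fun φ hφ => ?_⟩
  · have : ((i : ℕ) : ℝ) + 1 ≤ n + 2 := by
      have := i.2
      exact_mod_cast (by omega : (i : ℕ) + 1 ≤ n + 2)
    change r + dist (fun _ : Fin n => 2 * (i : ℕ) * r) (fun _ => 0) ≤ 1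
    rw [dist_pi_const, Real.dist_eq, sub_zero, abs_of_nonneg (by positivity)]
    (refine le_of_not_gt fun h_nl => ?_; linarith only [h_nl, r1, this, mul_nonneg_of_nonpos_of_nonpos (Mathlib.Tactic.Linarith.sub_nonpos_of_le (Mathlib.Tactic.Linarith.natCast_nonneg ℝ n)) (le_of_lt (Mathlib.Tactic.Linarith.sub_neg_of_lt h_nl)), Mathlib.Tactic.Linarith.mul_zero_eq (Mathlib.Tactic.Linarith.sub_nonpos_of_le (Mathlib.Tactic.Linarith.natCast_nonneg ℝ ↑i)) (sub_eq_zero_of_eq r1)])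
  · rcases hF.range_ins ⟨x, rfl⟩ with ⟨z, c⟩ | c
    · rw [← c, supp_vtx] at hb
      exact .inl (Finset.mem_singleton.1 hb)
    · obtain ⟨i, -, z, c⟩ := mem_iUnion₂.1 c
      rw [← c] at hb
      exact (h2 i z b hb).imp id List.mem_of_mem_eraseIdx
  · have h0 : degY φ (fun _ : D n => (vtx a : Ys n α)) = 0 := deg_const hn hφ _
    rw [degY_ins hn hφ (by linarith only [hL]) (lip_const (by linarith only [hL]) _) ⟨0, fun _ _ => rfl⟩ hF, h0,
      zero_add, Sphere.cob_eq φ a u, Finset.mul_sum]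
    exact Finset.sum_congr rfl fun i _ => by rw [h3 i φ hφ, mul_assoc]

end Pool.Agent.Work.MP_4b5e6c_gt
end

-- merged part: Pool.Agent.Work.MP_4b5e6c_gt.Greedy
section
/-! Task GREEDY: shifts with few approximate ties. -/

namespace Pool.Agent.Work.MP_4b5e6c_gt

/-- All shifted values `F v x + t v`, `v ∈ τ`, agree up to `a`. -/
def Tie {Λ Pt : Type} (F : Λ → Pt → ℝ) (t : Λ → ℝ) (a : ℝ) (τ : Finset Λ) (x : Pt) : Prop :=
  ∀ v ∈ τ, ∀ w ∈ τ, |F v x + t v - (F w x + t w)| ≤ a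

namespace Greedy

open MeasureTheory

theorem avg {ι : Type} (J : Finset ι) (m c a : ι → ℝ) (hm : ∀ j ∈ J, 0 ≤ m j)
    (ha : ∀ j ∈ J, 0 ≤ a j) : ∃ s : ℝ, 0 ≤ s ∧ s ≤ 1 / 2 ∧
      ∑ j ∈ J, (if |s - c j| ≤ a j then m j else 0) ≤ 4 * ∑ j ∈ J, m j * a j := by
  have hi : ∀ j, Integrable ((Metric.closedBall (c j) (a j)).indicator fun _ : ℝ => m j) :=
    fun j => (integrableOn_const (measure_closedBall_lt_top (x := c j) (r := a j)).ne).integrable_indicator
      measurableSet_closedBall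
  have hv : volume (Set.Icc (0 : ℝ) (1 / 2)) = ENNReal.ofReal (1 / 2) := by simp
  obtain ⟨s, hs, le⟩ := exists_le_setAverage (μ := volume) (s := Set.Icc (0 : ℝ) (1 / 2))
    (f := fun s => ∑ j ∈ J, (Metric.closedBall (c j) (a j)).indicator (fun _ : ℝ => m j) s)
    (by rw [hv]; simp) (by rw [hv]; simp) (integrable_finsetSum J fun j _ => hi j).integrableOn
  refine ⟨s, hs.1, hs.2, ?_⟩
  have e : ∀ j, (if |s - c j| ≤ a j then m j else 0) =
      (Metric.closedBall (c j) (a j)).indicator (fun _ : ℝ => m j) s := fun j => by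
    by_cases h : s ∈ Metric.closedBall (c j) (a j)
    · rw [if_pos (show |s - c j| ≤ a j from h), Set.indicator_of_mem h]
    · rw [if_neg (show ¬ |s - c j| ≤ a j from h), Set.indicator_of_notMem h]
  simp only [e]
  refine le.trans ?_
  have hr : volume.real (Set.Icc (0 : ℝ) (1 / 2)) = 1 / 2 := by
    rw [Measure.real, hv, ENNReal.toReal_ofReal (by norm_num)]
  rw [setAverage_eq, hr, integral_finsetSum J fun j _ => (hi j).integrableOn, smul_eq_mul,
    Finset.mul_sum, Finset.mul_sum]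
  refine Finset.sum_le_sum fun j hj => ?_
  have := setIntegral_le_integral (s := Set.Icc (0 : ℝ) (1 / 2)) (hi j)
    (Filter.Eventually.of_forall fun x => Set.indicator_nonneg (fun _ _ => hm j hj) x)
  rw [integral_indicator (μ := volume) measurableSet_closedBall, setIntegral_const,
    Real.volume_real_closedBall (ha j hj), smul_eq_mul] at this
  norm_num
  linarith only [this]

theorem pick {π Pt : Type} (P : Finset π) (B : π → Finset Pt) (c : π → Pt → ℝ) (a : π → ℝ)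
    (ha : ∀ p ∈ P, 0 < a p) : ∃ s : ℝ, 0 ≤ s ∧ s ≤ 1 / 2 ∧ ∀ p ∈ P,
      (((B p).filter fun x => |s - c p x| ≤ a p).card : ℝ) ≤ 4 * P.card * a p * (B p).card := by
  obtain ⟨s, h0, h1, le⟩ := avg (P.sigma B) (fun j => (a j.1 * (B j.1).card)⁻¹)
    (fun j => c j.1 j.2) (fun j => a j.1)
    (fun j hj => by have := ha _ (Finset.mem_sigma.1 hj).1; positivity)
    (fun j hj => (ha _ (Finset.mem_sigma.1 hj).1).le)
  refine ⟨s, h0, h1, fun p hp => ?_⟩
  rw [Finset.sum_sigma, Finset.sum_sigma] at le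
  have b : ∑ p ∈ P, ∑ _x ∈ B p, (a p * (B p).card)⁻¹ * a p ≤ P.card := by
    rw [Finset.card_eq_sum_ones, Nat.cast_sum]
    refine Finset.sum_le_sum fun q hq => ?_
    rw [Finset.sum_const, nsmul_eq_mul, Nat.cast_one]
    have := mul_inv_le_one (a := a q * (B q).card)
    calc _ = a q * (B q).card * (a q * (B q).card)⁻¹ := by ring
      _ ≤ 1 := this
  have l := Finset.single_le_sum
    (f := fun p => ∑ x ∈ B p, if |s - c p x| ≤ a p then (a p * (B p).card)⁻¹ else 0)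
    (fun q hq => Finset.sum_nonneg fun x _ => by have := ha q hq; positivity) hp
  rw [← Finset.sum_filter, Finset.sum_const, nsmul_eq_mul] at l
  rcases (B p).eq_empty_or_nonempty with e | e
  · simp [e]
  have pos : 0 < a p * (B p).card := mul_pos (ha p hp) (by exact_mod_cast e.card_pos)
  rw [mul_assoc, ← div_le_iff₀ pos, div_eq_mul_inv]
  linarith only [le, b, l]

end Greedy

open Classical in
theorem greedy (M : ℕ) : ∃ C : ℝ, 1 ≤ C ∧ ∀ (Λ Θ Pt : Type) (tests : Finset Θ)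
    (Ω : Θ → Finset Pt) (Nb : Θ → Finset Λ) (a : Θ → ℝ) (F : Θ → Λ → Pt → ℝ),
    (∀ θ ∈ tests, 0 < a θ ∧ (Nb θ).card ≤ M) →
    (∀ v, (tests.filter fun θ => v ∈ Nb θ).card ≤ M) →
    ∃ t : Λ → ℝ, (∀ v, 0 ≤ t v ∧ t v ≤ 1 / 2) ∧ ∀ θ ∈ tests, ∀ τ ⊆ Nb θ, τ.Nonempty →
      (((Ω θ).filter fun x => Tie (F θ) t (a θ) τ x).card : ℝ) ≤
        (C * a θ) ^ (τ.card - 1) * (Ω θ).card := by
  refine ⟨4 * (M * 2 ^ M) + 1, by have : (0 : ℝ) ≤ 4 * (M * 2 ^ M) := by positivity
                                  linarith, ?_⟩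
  intro Λ Θ Pt tests Ω Nb a F h1 h2
  suffices H : ∀ S : Finset Λ, ∃ t : Λ → ℝ, (∀ v, 0 ≤ t v ∧ t v ≤ 1 / 2) ∧ ∀ θ ∈ tests,
      ∀ τ ⊆ Nb θ, τ ⊆ S → τ.Nonempty →
      (((Ω θ).filter fun x => Tie (F θ) t (a θ) τ x).card : ℝ) ≤
        ((4 * (M * 2 ^ M) + 1) * a θ) ^ (τ.card - 1) * (Ω θ).card by
    obtain ⟨t, b, c⟩ := H (tests.biUnion Nb)
    exact ⟨t, b, fun θ hθ τ hτ => c θ hθ τ hτ (hτ.trans (Finset.subset_biUnion_of_mem Nb hθ))⟩
  intro S
  induction S using Finset.induction_on with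
  | empty =>
    refine ⟨fun _ => 0, fun _ => by norm_num, fun θ _ τ _ e n => ?_⟩
    rw [Finset.subset_empty.1 e] at n
    simp at n
  | insert v S hv ih =>
    obtain ⟨t, b, c⟩ := ih
    let w : Finset Λ → Λ := fun τ => if h : τ.Nonempty then h.choose else v
    have hw : ∀ τ : Finset Λ, τ.Nonempty → w τ ∈ τ := fun τ h => by
      simp only [w, dif_pos h]
      exact h.choose_spec
    let P : Finset (Σ _ : Θ, Finset Λ) :=
      (tests.filter fun θ => v ∈ Nb θ).sigma fun θ => (Nb θ).powerset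
    have hP : (P.card : ℝ) ≤ M * 2 ^ M := by
      have : P.card ≤ M * 2 ^ M := by
        rw [Finset.card_sigma]
        refine (Finset.sum_le_card_nsmul _ _ (2 ^ M) fun θ hθ => ?_).trans ?_
        · rw [Finset.card_powerset]
          exact Nat.pow_le_pow_right (by norm_num) (h1 θ (Finset.mem_filter.1 hθ).1).2
        · exact Nat.mul_le_mul_right _ (h2 v)
      exact_mod_cast this
    obtain ⟨s, s0, s1, hs⟩ := Greedy.pick P
      (fun p => (Ω p.1).filter fun x => Tie (F p.1) t (a p.1) p.2 x)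
      (fun p x => F p.1 (w p.2) x + t (w p.2) - F p.1 v x) (fun p => a p.1)
      (fun p hp => (h1 _ (Finset.mem_filter.1 (Finset.mem_sigma.1 hp).1).1).1)
    have old : ∀ θ (τ : Finset Λ) x, v ∉ τ →
        (Tie (F θ) (Function.update t v s) (a θ) τ x ↔ Tie (F θ) t (a θ) τ x) := by
      intro θ τ x n
      refine forall₂_congr fun u hu => forall₂_congr fun u' hu' => ?_
      rw [Function.update_of_ne (ne_of_mem_of_not_mem hu n),
        Function.update_of_ne (ne_of_mem_of_not_mem hu' n)]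
    refine ⟨Function.update t v s, fun u => ?_, fun θ hθ τ hτ e n => ?_⟩
    · by_cases d : u = v
      · rw [d, Function.update_self]
        exact ⟨s0, s1⟩
      · rw [Function.update_of_ne d]
        exact b u
    by_cases d : v ∈ τ
    swap
    · simp only [old θ τ _ d]
      exact c θ hθ τ hτ ((Finset.subset_insert_iff_of_notMem d).1 e) n
    have cd := Finset.card_erase_add_one d
    rcases (τ.erase v).eq_empty_or_nonempty with f | f
    · rw [f, Finset.card_empty] at cd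
      rw [← cd]
      simp only [zero_add, Nat.sub_self, pow_zero, one_mul, Nat.cast_le]
      exact Finset.card_filter_le _ _
    have k1 := hs ⟨θ, τ.erase v⟩ (Finset.mem_sigma.2 ⟨Finset.mem_filter.2 ⟨hθ, hτ d⟩,
      Finset.mem_powerset.2 ((Finset.erase_subset _ _).trans hτ)⟩)
    have k2 := c θ hθ (τ.erase v) ((Finset.erase_subset _ _).trans hτ)
      (Finset.subset_insert_iff.1 e) f
    have k3 : ((Ω θ).filter fun x => Tie (F θ) (Function.update t v s) (a θ) τ x) ⊆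
        ((Ω θ).filter fun x => Tie (F θ) t (a θ) (τ.erase v) x).filter fun x =>
          |s - (F θ (w (τ.erase v)) x + t (w (τ.erase v)) - F θ v x)| ≤ a θ := by
      intro x hx
      obtain ⟨i, j⟩ := Finset.mem_filter.1 hx
      have m := Finset.mem_erase.1 (hw _ f)
      refine Finset.mem_filter.2 ⟨Finset.mem_filter.2 ⟨i, ?_⟩, ?_⟩
      · exact (old θ _ x (Finset.notMem_erase v τ)).1 fun u hu u' hu' =>
          j u (Finset.mem_of_mem_erase hu) u' (Finset.mem_of_mem_erase hu')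
      · have := j v d _ m.2
        rw [Function.update_self, Function.update_of_ne m.1] at this
        convert this using 2
        ring
    have k4 : τ.card - 1 = (τ.erase v).card - 1 + 1 := by
      have := f.card_pos
      omega
    have ap := (h1 θ hθ).1
    rw [k4, pow_succ', mul_assoc]
    refine (Nat.cast_le.2 (Finset.card_le_card k3)).trans (k1.trans ?_)
    refine mul_le_mul (mul_le_mul_of_nonneg_right (by linarith only [hP]) ap.le) k2 (Nat.cast_nonneg _) ?_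
    positivity

end Pool.Agent.Work.MP_4b5e6c_gt
end

-- merged part: Pool.Agent.Work.MP_4b5e6c_gt.KB1
section
/-! Task KB, first part: the two selections of labels. -/

namespace Pool.Agent.Work.MP_4b5e6c_gt
open Metric Set

namespace KB

section Sel1
variable {n : ℕ} {α : Type}

/-- The first score. -/
noncomputable def G1 (β : Ys n α) (v : α) : ℝ := -((n : ℝ) + 1) * β.wt v

theorem ex1 (t : α → ℝ) (β : Ys n α) :
    ∃ v ∈ β.supp, ∀ w ∈ β.supp, G1 β v + t v ≤ G1 β w + t w :=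
  Finset.exists_min_image β.supp (fun v => G1 β v + t v) β.supp_nonempty

/-- The first selection. -/
noncomputable def sel1 (t : α → ℝ) (β : Ys n α) : α := (ex1 t β).choose

theorem sel1_mem (t : α → ℝ) (β : Ys n α) : sel1 t β ∈ β.supp := (ex1 t β).choose_spec.1

theorem sel1_min (t : α → ℝ) (β : Ys n α) {w : α} (hw : w ∈ β.supp) :
    G1 β (sel1 t β) + t (sel1 t β) ≤ G1 β w + t w := (ex1 t β).choose_spec.2 w hw

theorem sel1_wt {t : α → ℝ} (ht : ∀ v, 0 ≤ t v ∧ t v ≤ 1 / 2) (β : Ys n α) :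
    1 / (2 * ((n : ℝ) + 1)) ≤ β.wt (sel1 t β) := by
  have h1 := sel1_min t β (sel_mem β)
  have h2 := wt_sel β
  have hn : (0 : ℝ) < (n : ℝ) + 1 := by positivity
  rw [div_le_iff₀ hn] at h2
  rw [div_le_iff₀ (by positivity)]
  unfold G1 at h1
  have h3 := (ht (sel1 t β)).1
  have h4 := (ht (sel β)).2
  linarith only [h1, h2, h3, h4]

theorem G1_le (β β' : Ys n α) (v : α) : G1 β v ≤ G1 β' v + ((n : ℝ) + 1) * dist β β' := by
  have h := β.abs_wt_sub_le β' v
  have hn : (0 : ℝ) ≤ (n : ℝ) + 1 := by positivity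
  have h2 := (abs_le.1 h).1
  unfold G1
  linarith only [h2, mul_nonneg_of_nonpos_of_nonpos (Mathlib.Tactic.Linarith.sub_nonpos_of_le (Mathlib.Tactic.Linarith.natCast_nonneg ℝ n)) (Mathlib.Tactic.Linarith.sub_nonpos_of_le h2)]

/-- Labels selected at nearby points are approximately tied. -/
theorem tie1 {t : α → ℝ} (ht : ∀ v, 0 ≤ t v ∧ t v ≤ 1 / 2) {β0 β β' : Ys n α} {δ : ℝ}
    (h : dist β0 β ≤ δ) (h' : dist β0 β' ≤ δ) (hδ : 2 * δ < 1 / (2 * ((n : ℝ) + 1))) :
    G1 β0 (sel1 t β) + t (sel1 t β) - (G1 β0 (sel1 t β') + t (sel1 t β')) ≤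
      2 * ((n : ℝ) + 1) * δ := by
  have hd : dist β' β < β'.wt (sel1 t β') := by
    have h1 := dist_triangle_left β' β β0
    have h2 := sel1_wt ht β'
    linarith only [h, h', hδ, h1, h2]
  have h1 := sel1_min t β (mem_supp_of_wt hd)
  have h2 := G1_le β0 β (sel1 t β)
  have h3 := G1_le β β0 (sel1 t β')
  rw [dist_comm β β0] at h3
  have hn : (0 : ℝ) ≤ (n : ℝ) + 1 := by positivity
  have h4 := mul_le_mul_of_nonneg_left h hn
  linarith only [h1, h2, h3, h4]

end Sel1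

section Sel2
variable {X : Type} [MetricSpace X]

/-- The second score. -/
noncomputable def G2 (p : X) (v : X × ℤ) : ℝ := dist p v.1 / (2 : ℝ) ^ v.2

/-- The property of the second selection. -/
def P2 (N : Finset (X × ℤ)) (s : X → ℝ) (t : X × ℤ → ℝ) (p : X) (v : X × ℤ) : Prop :=
  (v ∈ N ∧ Act s v ∧ G2 p v ≤ 2) ∧
    ∀ w, w ∈ N ∧ Act s w ∧ G2 p w ≤ 2 → G2 p v + t v ≤ G2 p w + t w

/-- The second selection. -/
noncomputable def sel2 (N : Finset (X × ℤ)) (s : X → ℝ) (t : X × ℤ → ℝ) (p : X) : X × ℤ :=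
  @Classical.epsilon _ ⟨(p, 0)⟩ (P2 N s t p)

theorem sel2_spec {N : Finset (X × ℤ)} {s : X → ℝ} {t : X × ℤ → ℝ}
    (ht : ∀ v, 0 ≤ t v ∧ t v ≤ 1 / 2) {p : X}
    (hp : ∃ v ∈ N, Act s v ∧ dist p v.1 < (2 : ℝ) ^ v.2) :
    P2 N s t p (sel2 N s t p) ∧ G2 p (sel2 N s t p) ≤ 3 / 2 := by
  classical
  obtain ⟨v0, hv0, ha0, hd0⟩ := hp
  have hG0 : G2 p v0 ≤ 1 := by
    unfold G2
    rw [div_le_one (by positivity)]
    exact hd0.le
  have hex : ∃ v, P2 N s t p v := by
    obtain ⟨v, hv, hmin⟩ := Finset.exists_min_image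
      (N.filter fun v => Act s v ∧ G2 p v ≤ 2) (fun v => G2 p v + t v)
      ⟨v0, Finset.mem_filter.2 ⟨hv0, ha0, by linarith⟩⟩
    exact ⟨v, Finset.mem_filter.1 hv, fun w hw => hmin w (Finset.mem_filter.2 hw)⟩
  have hs : P2 N s t p (sel2 N s t p) := @Classical.epsilon_spec _ (P2 N s t p) hex
  refine ⟨hs, ?_⟩
  have h1 := hs.2 v0 ⟨hv0, ha0, by linarith⟩
  have h2 := (ht (sel2 N s t p)).1
  have h3 := (ht v0).2
  linarith only [hG0, h1, h2, h3]

theorem lip_le {s : X → ℝ} (hs : Lip (1 / 1000) s) (p q : X) : s p ≤ s q + dist p q / 1000 := by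
  have h := hs p q
  rw [Real.dist_eq] at h
  have := (abs_le.1 h).2
  linarith only [this]

theorem rel_of_act {s : X → ℝ} (hs : Lip (1 / 1000) s) {v : X × ℤ} {p : X} (ha : Act s v)
    (hG : G2 p v ≤ 2) : Rel s v p := by
  have hp : (0 : ℝ) < (2 : ℝ) ^ v.2 := by positivity
  unfold G2 at hG
  rw [div_le_iff₀ hp] at hG
  have h1 := lip_le hs p v.1
  have h2 := lip_le hs v.1 p
  rw [dist_comm v.1 p] at h2
  obtain ⟨h3, h4⟩ := ha
  refine ⟨by linarith only [hG, hp, h1, h4], by linarith only [hG, hp, h2, h3], ?_⟩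
  rw [dist_comm]
  linarith only [hG, hp, h2, h3]

theorem zpow_lt_aux {a b : ℤ} (h : (2 : ℝ) ^ a ≤ 32 * (2 : ℝ) ^ b) : a ≤ b + 5 := by
  have h1 : (2 : ℝ) ^ a ≤ (2 : ℝ) ^ (b + 5) := by
    rw [zpow_add₀ (by norm_num : (2 : ℝ) ≠ 0)]
    norm_num
    linarith
  exact (zpow_le_zpow_iff_right₀ (by norm_num : (1 : ℝ) < 2)).1 h1

theorem nbr_of_rel {s : X → ℝ} (hs : Lip (1 / 1000) s) {v w : X × ℤ} {p q : X} (hv : Rel s v p)
    (hw : Rel s w q) (hd : dist p q ≤ s q) : Nbr v w := by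
  obtain ⟨a1, a2, a3⟩ := hv
  obtain ⟨b1, b2, b3⟩ := hw
  have h1 := lip_le hs p q
  have h2 := lip_le hs q p
  rw [dist_comm q p] at h2
  have hv0 : (0 : ℝ) < (2 : ℝ) ^ v.2 := by positivity
  have hw0 : (0 : ℝ) < (2 : ℝ) ^ w.2 := by positivity
  have h3 : v.2 ≤ w.2 + 5 := zpow_lt_aux (by linarith only [hd, a2, b1, h1, hw0])
  have h4 : w.2 ≤ v.2 + 5 := zpow_lt_aux (by linarith only [hd, a1, b2, h2, hv0])
  refine ⟨abs_le.2 ⟨by linarith only [h4], by linarith only [h3]⟩, ?_⟩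
  have h5 : dist v.1 w.1 ≤ dist v.1 p + dist p q + dist w.1 q := by
    have := dist_triangle4 v.1 p q w.1
    rwa [dist_comm q w.1] at this
  rcases le_total ((2 : ℝ) ^ v.2) ((2 : ℝ) ^ w.2) with h | h
  · rw [min_eq_left h]; linarith only [hd, a1, a3, b3, h2, hv0, h5]
  · rw [min_eq_right h]; linarith only [hd, a3, b1, b3, h1, hw0, h5]

theorem nbr_symm {v w : X × ℤ} (h : Nbr v w) : Nbr w v :=
  ⟨by rw [abs_sub_comm]; exact h.1, by rw [dist_comm, min_comm]; exact h.2⟩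

theorem nbr_pow {v w : X × ℤ} (h : Nbr v w) : (2 : ℝ) ^ w.2 ≤ 1024 * (2 : ℝ) ^ v.2 := by
  have h1 : w.2 ≤ v.2 + 10 := by have := (abs_le.1 h.1).1; linarith only [this]
  have h2 : (2 : ℝ) ^ w.2 ≤ (2 : ℝ) ^ (v.2 + 10) := zpow_le_zpow_right₀ (by norm_num) h1
  rw [zpow_add₀ (by norm_num : (2 : ℝ) ≠ 0)] at h2
  norm_num at h2
  linarith

theorem P2_imp {s s' : X → ℝ} (hs : Lip (1 / 1000) s) {p : X}
    (h : ∀ q, dist q p ≤ 20 * s p → s q = s' q) {v : X × ℤ} (hv : Act s v ∧ G2 p v ≤ 2) :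
    Act s' v ∧ G2 p v ≤ 2 := by
  have hr := rel_of_act hs hv.1 hv.2
  have hp : (0 : ℝ) < (2 : ℝ) ^ v.2 := by positivity
  have h1 : s v.1 = s' v.1 := h v.1 (by have := hr.2.1; have := hr.2.2; linarith)
  refine ⟨?_, hv.2⟩
  have := hv.1
  unfold Act at this ⊢
  rwa [h1] at this

theorem sel2_congr {N : Finset (X × ℤ)} {s s' : X → ℝ} (hs : Lip (1 / 1000) s)
    (hs' : Lip (1 / 1000) s') (t : X × ℤ → ℝ) {p : X} (h0 : 0 ≤ s p)
    (h : ∀ q, dist q p ≤ 20 * s p → s q = s' q) : sel2 N s t p = sel2 N s' t p := by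
  have hp : s p = s' p := h p (by rw [dist_self]; linarith only [h0])
  have h' : ∀ q, dist q p ≤ 20 * s' p → s' q = s q := fun q hq => (h q (hp ▸ hq)).symm
  have key : ∀ v, (v ∈ N ∧ Act s v ∧ G2 p v ≤ 2) ↔ (v ∈ N ∧ Act s' v ∧ G2 p v ≤ 2) := fun v =>
    ⟨fun hv => ⟨hv.1, P2_imp hs h hv.2⟩, fun hv => ⟨hv.1, P2_imp hs' h' hv.2⟩⟩
  have : P2 N s t p = P2 N s' t p := by
    funext v
    unfold P2
    simp only [key]
  unfold sel2
  rw [this]

theorem G2_le (p q : X) (v : X × ℤ) : G2 p v ≤ G2 q v + dist p q / (2 : ℝ) ^ v.2 := by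
  unfold G2
  rw [← add_div]
  refine div_le_div_of_nonneg_right ?_ (by positivity)
  have := dist_triangle p q v.1
  linarith

/-- Labels selected at nearby points are approximately tied. -/
theorem tie2 {N : Finset (X × ℤ)} {s : X → ℝ} {t : X × ℤ → ℝ} {p0 p p' : X} {v v' w : X × ℤ}
    (hv : P2 N s t p v) (hv' : P2 N s t p' v') (hG : G2 p' v' ≤ 3 / 2) {δ : ℝ}
    (h : dist p0 p ≤ δ) (h' : dist p0 p' ≤ δ) (hδ : 16 * δ ≤ s v'.1) (hn : Nbr v w)
    (hn' : Nbr v' w) :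
    G2 p0 v + t v - (G2 p0 v' + t v') ≤ 2048 * δ / (2 : ℝ) ^ w.2 := by
  have hv0 : (0 : ℝ) < (2 : ℝ) ^ v.2 := by positivity
  have hv0' : (0 : ℝ) < (2 : ℝ) ^ v'.2 := by positivity
  have hw0 : (0 : ℝ) < (2 : ℝ) ^ w.2 := by positivity
  have hδ0 : 0 ≤ δ := dist_nonneg.trans h
  have h1 : G2 p v' ≤ 2 := by
    have a1 := G2_le p p' v'
    have a2 : dist p p' / (2 : ℝ) ^ v'.2 ≤ 1 / 2 := by
      rw [div_le_iff₀ hv0']
      have := dist_triangle_left p p' p0
      have := hv'.1.2.1.2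
      linarith
    linarith only [hG, a1, a2]
  have h2 := hv.2 v' ⟨hv'.1.1, hv'.1.2.1, h1⟩
  have h3 := G2_le p0 p v
  have h4 := G2_le p p0 v'
  rw [dist_comm p p0] at h4
  have key : ∀ u : X × ℤ, Nbr u w →
      dist p0 p / (2 : ℝ) ^ u.2 ≤ 1024 * δ / (2 : ℝ) ^ w.2 := by
    intro u hu
    have hu0 : (0 : ℝ) < (2 : ℝ) ^ u.2 := by positivity
    rw [div_le_div_iff₀ hu0 hw0]
    have a1 := nbr_pow hu
    calc dist p0 p * (2 : ℝ) ^ w.2 ≤ δ * (1024 * (2 : ℝ) ^ u.2) :=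
          mul_le_mul h a1 hw0.le hδ0
      _ = _ := by ring
  have h5 := key v hn
  have h6 := key v' hn'
  have h7 : 2048 * δ / (2 : ℝ) ^ w.2 =
      1024 * δ / (2 : ℝ) ^ w.2 + 1024 * δ / (2 : ℝ) ^ w.2 := by ring
  linarith only [h2, h3, h4, h5, h6, h7]

end Sel2

section Prism
variable {n : ℕ} {S : Type}

theorem prismL_congr {l₁ l₂ l₁' l₂' : (Fin n → ℤ) → S} {g : Fin n → ℤ} {π : Equiv.Perm (Fin n)}
    (h₁ : ∀ i, l₁ (kv g π i) = l₁' (kv g π i)) (h₂ : ∀ i, l₂ (kv g π i) = l₂' (kv g π i))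
    (j : Fin (n + 1)) : prismL l₁ l₂ g π j = prismL l₁' l₂' g π j := by
  unfold prismL
  congr 1
  · refine List.map_congr_left fun a ha => ?_
    obtain ⟨i, rfl⟩ := List.mem_ofFn.1 (List.mem_of_mem_take ha)
    exact h₁ i
  · refine List.map_congr_left fun a ha => ?_
    obtain ⟨i, rfl⟩ := List.mem_ofFn.1 (List.mem_of_mem_drop ha)
    exact h₂ i

/-- A prism simplex without repetition has `j + 1` labels below and `n - j + 1` labels above. -/
theorem prismL_split {l₁ l₂ : (Fin n → ℤ) → S} {g : Fin n → ℤ} {π : Equiv.Perm (Fin n)}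
    {j : Fin (n + 1)} (h : (prismL l₁ l₂ g π j).Nodup) :
    ∃ τ₁ τ₂ : Finset S, τ₁.card = j + 1 ∧ τ₂.card = n - j + 1 ∧
      (∀ v ∈ τ₁, ∃ i, v = l₁ (kv g π i)) ∧ ∀ v ∈ τ₂, ∃ i, v = l₂ (kv g π i) := by
  classical
  unfold prismL at h
  have h1 := h.of_append_left
  have h2 := h.of_append_right
  have hj := j.isLt
  refine ⟨_, _, (List.toFinset_card_of_nodup h1).trans ?_,
    (List.toFinset_card_of_nodup h2).trans ?_, ?_, ?_⟩
  · simp only [List.length_map, List.length_take, List.length_ofFn]; omega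
  · simp only [List.length_map, List.length_drop, List.length_ofFn]; omega
  · intro v hv
    obtain ⟨a, ha, rfl⟩ := List.mem_map.1 (List.mem_toFinset.1 hv)
    obtain ⟨i, rfl⟩ := List.mem_ofFn.1 (List.mem_of_mem_take ha)
    exact ⟨i, rfl⟩
  · intro v hv
    obtain ⟨a, ha, rfl⟩ := List.mem_map.1 (List.mem_toFinset.1 hv)
    obtain ⟨i, rfl⟩ := List.mem_ofFn.1 (List.mem_of_mem_drop ha)
    exact ⟨i, rfl⟩

end Prism

end KB

end Pool.Agent.Work.MP_4b5e6c_gt
end

-- merged part: Pool.Agent.Work.MP_4b5e6c_gt.KB2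
section
/-! Task KB, second part: counting and the choice of the grid. -/

namespace Pool.Agent.Work.MP_4b5e6c_gt
open Metric Set

namespace KB

theorem count_aux {Pt Λ J : Type} [Fintype J] (n M : ℕ) (T : Finset (Pt × J)) (Nb : Finset Λ)
    (hNb : Nb.card ≤ M) (W : Finset Λ → Finset Λ → Finset Pt) {b : ℝ} (hb : 0 ≤ b)
    (hW : ∀ τ₁ ⊆ Nb, ∀ τ₂ ⊆ Nb, τ₁.card + τ₂.card = n + 2 → τ₁.Nonempty → τ₂.Nonempty →
      ((W τ₁ τ₂).card : ℝ) ≤ b)
    (hT : ∀ τ ∈ T, ∃ τ₁ ⊆ Nb, ∃ τ₂ ⊆ Nb, τ₁.card + τ₂.card = n + 2 ∧ τ₁.Nonempty ∧ τ₂.Nonempty ∧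
      τ.1 ∈ W τ₁ τ₂) : (T.card : ℝ) ≤ Fintype.card J * 4 ^ M * b := by
  classical
  set S : Finset (Finset Λ × Finset Λ) := (Nb.powerset ×ˢ Nb.powerset).filter
    fun p => p.1.card + p.2.card = n + 2 ∧ p.1.Nonempty ∧ p.2.Nonempty with hS
  have h1 : T ⊆ (S.biUnion fun p => W p.1 p.2) ×ˢ (Finset.univ : Finset J) := by
    intro τ hτ
    obtain ⟨τ₁, a1, τ₂, a2, a3, a4, a5, a6⟩ := hT τ hτ
    refine Finset.mem_product.2 ⟨Finset.mem_biUnion.2 ⟨(τ₁, τ₂), ?_, a6⟩, Finset.mem_univ _⟩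
    exact Finset.mem_filter.2 ⟨Finset.mem_product.2
      ⟨Finset.mem_powerset.2 a1, Finset.mem_powerset.2 a2⟩, a3, a4, a5⟩
  have h2 : ((S.biUnion fun p => W p.1 p.2).card : ℝ) ≤ S.card * b := by
    calc ((S.biUnion fun p => W p.1 p.2).card : ℝ) ≤ ∑ p ∈ S, ((W p.1 p.2).card : ℝ) := by
          exact_mod_cast Finset.card_biUnion_le
      _ ≤ ∑ _p ∈ S, b := by
          refine Finset.sum_le_sum fun p hp => ?_
          obtain ⟨a1, a2, a3, a4⟩ := Finset.mem_filter.1 hp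
          obtain ⟨a5, a6⟩ := Finset.mem_product.1 a1
          exact hW _ (Finset.mem_powerset.1 a5) _ (Finset.mem_powerset.1 a6) a2 a3 a4
      _ = S.card * b := by rw [Finset.sum_const, nsmul_eq_mul]
  have h3 : (S.card : ℝ) ≤ 4 ^ M := by
    have a1 : S.card ≤ 2 ^ M * 2 ^ M := by
      refine (Finset.card_filter_le _ _).trans ?_
      rw [Finset.card_product, Finset.card_powerset]
      have := Nat.pow_le_pow_right (by norm_num : 0 < 2) hNb
      exact Nat.mul_le_mul this this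
    have a2 : (2 : ℕ) ^ M * 2 ^ M = 4 ^ M := by rw [← mul_pow]; norm_num
    rw [a2] at a1
    exact_mod_cast a1
  have h4 : (T.card : ℝ) ≤ (S.biUnion fun p => W p.1 p.2).card * Fintype.card J := by
    have := Finset.card_le_card h1
    rw [Finset.card_product, Finset.card_univ] at this
    exact_mod_cast this
  have h5 : (0 : ℝ) ≤ Fintype.card J := Nat.cast_nonneg _
  calc (T.card : ℝ) ≤ (S.card * b) * Fintype.card J :=
        h4.trans (mul_le_mul_of_nonneg_right h2 h5)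
    _ ≤ (4 ^ M * b) * Fintype.card J :=
        mul_le_mul_of_nonneg_right (mul_le_mul_of_nonneg_right h3 hb) h5
    _ = _ := by ring

theorem grid_count {n : ℕ} (ℓ : ℕ) (Ω : Finset (Fin n → ℤ)) (c : Finset (DC n)) {r : ℝ}
    (hc : ∀ Q ∈ c, Q.side ≤ 300 * r) (hr : 1 ≤ r * 2 ^ ℓ)
    (hΩ : ∀ g ∈ Ω, ∃ Q ∈ c, grid ℓ g ∈ Q.cl) :
    (Ω.card : ℝ) ≤ (301 * (r * 2 ^ ℓ)) ^ n * c.card := by
  classical
  choose G hG hG' using fun Q : DC n => DC.exists_grid_finset Q ℓ
  have h1 : Ω ⊆ c.biUnion G := by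
    intro g hg
    obtain ⟨Q, hQ, hg'⟩ := hΩ g hg
    exact Finset.mem_biUnion.2 ⟨Q, hQ, (hG Q g).2 hg'⟩
  calc (Ω.card : ℝ) ≤ (c.biUnion G).card := by exact_mod_cast Finset.card_le_card h1
    _ ≤ ∑ Q ∈ c, ((G Q).card : ℝ) := by exact_mod_cast Finset.card_biUnion_le
    _ ≤ ∑ _Q ∈ c, (301 * (r * 2 ^ ℓ)) ^ n := by
        refine Finset.sum_le_sum fun Q hQ => (hG' Q).trans ?_
        have h0 := Q.side_pos
        have h2 : (0 : ℝ) < 2 ^ ℓ := by positivity
        refine pow_le_pow_left₀ (by positivity) ?_ n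
        have := mul_le_mul_of_nonneg_right (hc Q hQ) h2.le
        linarith only [hr, this]
    _ = _ := by rw [Finset.sum_const, nsmul_eq_mul, mul_comm]

/-- A grid point near a given point. -/
theorem exists_grid {n : ℕ} (ℓ : ℕ) (x : D n) : ∃ g, dist (grid ℓ g) x ≤ 1 / 2 ^ ℓ := by
  have h2 : (0 : ℝ) < 2 ^ ℓ := by positivity
  refine ⟨fun i => ⌊x i * 2 ^ ℓ⌋, (dist_pi_le_iff (by positivity)).2 fun i => ?_⟩
  have a1 := Int.floor_le (x i * 2 ^ ℓ)
  have a2 := Int.lt_floor_add_one (x i * 2 ^ ℓ)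
  have h3 : grid ℓ (fun i => ⌊x i * 2 ^ ℓ⌋) i - x i =
      ((⌊x i * 2 ^ ℓ⌋ : ℝ) - x i * 2 ^ ℓ) / 2 ^ ℓ := by
    unfold grid
    field_simp
  rw [Real.dist_eq, h3, abs_div, abs_of_pos h2]
  refine div_le_div_of_nonneg_right (abs_le.2 ⟨by linarith only [a2], by linarith only [a1]⟩) h2.le

/-- The choice of the level of the grid. -/
theorem exists_level {Λ : Type} (n : ℕ) (N : Finset Λ) (r : Λ → ℝ) (hr : ∀ w, 0 < r w)
    {κ A C d : ℝ} (hκ : 0 < κ) :
    ∃ ℓ : ℕ, 48 * (1 / 2 ^ ℓ) ≤ κ ∧ 2 * (A / κ) / 2 ^ ℓ < 1 / (2 * ((n : ℝ) + 1)) ∧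
      ∀ w ∈ N, 1 ≤ r w * 2 ^ ℓ ∧ (C / 2 ^ ℓ / r w) ^ (n + 1) * (d * 2 ^ ℓ + 1) ^ n < 1 := by
  have ht : Filter.Tendsto (fun ℓ : ℕ => (1 : ℝ) / 2 ^ ℓ) Filter.atTop (nhds 0) := by
    have := tendsto_pow_atTop_nhds_zero_of_lt_one (r := (1 : ℝ) / 2) (by norm_num) (by norm_num)
    simpa only [one_div, inv_pow] using this
  have key : ∀ (F : ℝ → ℝ) (b : ℝ), Continuous F → F 0 < b →
      ∀ᶠ ℓ : ℕ in Filter.atTop, F (1 / 2 ^ ℓ) < b := fun F b hF h0 =>
    ((hF.tendsto 0).comp ht).eventually (gt_mem_nhds h0)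
  have e1 := key (fun a => 48 * a) κ (by fun_prop) (by simpa using hκ)
  have e2 := key (fun a => 2 * (A / κ) * a) (1 / (2 * ((n : ℝ) + 1))) (by fun_prop)
    (by simp only [mul_zero]; positivity)
  have e3 : ∀ᶠ ℓ : ℕ in Filter.atTop, ∀ w ∈ N,
      1 ≤ r w * 2 ^ ℓ ∧ (C / 2 ^ ℓ / r w) ^ (n + 1) * (d * 2 ^ ℓ + 1) ^ n < 1 := by
    refine (Filter.eventually_all_finset N).2 fun w _ => ?_
    have b1 := key (fun a => a) (r w) (by fun_prop) (hr w)
    have b2 := key (fun a => (C / r w) ^ (n + 1) * a * (d + a) ^ n) 1 (by fun_prop) (by simp)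
    filter_upwards [b1, b2] with ℓ h1 h2
    have h0 : (0 : ℝ) < 2 ^ ℓ := by positivity
    refine ⟨?_, ?_⟩
    · rw [div_lt_iff₀ h0] at h1
      exact h1.le
    · have a1 : d * 2 ^ ℓ + 1 = (d + 1 / 2 ^ ℓ) * 2 ^ ℓ := by field_simp
      have a2 : C / 2 ^ ℓ / r w = C / r w * (1 / 2 ^ ℓ) := by ring
      have a3 : ((1 : ℝ) / 2 ^ ℓ) ^ n * (2 ^ ℓ) ^ n = 1 := by
        rw [← mul_pow, one_div, inv_mul_cancel₀ h0.ne', one_pow]
      rw [a1, a2, mul_pow, mul_pow, pow_succ ((1 : ℝ) / 2 ^ ℓ)]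
      calc (C / r w) ^ (n + 1) * ((1 / 2 ^ ℓ) ^ n * (1 / 2 ^ ℓ)) *
            ((d + 1 / 2 ^ ℓ) ^ n * (2 ^ ℓ) ^ n)
          = (C / r w) ^ (n + 1) * (1 / 2 ^ ℓ) * (d + 1 / 2 ^ ℓ) ^ n *
            ((1 / 2 ^ ℓ) ^ n * (2 ^ ℓ) ^ n) := by ring
        _ < 1 := by rw [a3, mul_one]; exact h2
  obtain ⟨ℓ, h1, h2, h3⟩ := (e1.and (e2.and e3)).exists
  refine ⟨ℓ, h1.le, ?_, h3⟩
  have : 2 * (A / κ) / 2 ^ ℓ = 2 * (A / κ) * (1 / 2 ^ ℓ) := by ring
  rw [this]
  exact h2

section Data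
variable {n m M : ℕ} {X : Type} [MetricSpace X] {C0 : DC n} {y : X} {h : D n → X} {κ A : ℝ}
  {s : Fin m → X → ℝ} {N : Finset (X × ℤ)} {f : Fin m → D n → Ys n (X × ℤ)}

theorem app_dist (hK : KIn C0 y h κ s) (hA : IsApp C0 y h s A N f) (k : Fin m) (x x' : D n) :
    dist (f k x) (f k x') ≤ |A| * dist x x' / s k (h x) := by
  have h0 : 0 < s k (h x) := hK.pos.trans_le (hK.ge k _)
  rw [le_div_iff₀ h0]
  exact (hA.lip k x x').trans (mul_le_mul_of_nonneg_right (le_abs_self A) dist_nonneg)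

theorem app_lip (hK : KIn C0 y h κ s) (hA : IsApp C0 y h s A N f) (k : Fin m) :
    Lip (|A| / κ) (f k) := by
  intro x x'
  refine (app_dist hK hA k x x').trans ?_
  rw [div_mul_eq_mul_div]
  exact div_le_div_of_nonneg_left (by positivity) hK.pos (hK.ge k _)

theorem cpt_of {Z : Type} {u : D n → Z} {z : Z} (c : D n) (r : ℝ)
    (hu : ∀ x, r ≤ dist x c → u x = z) : Cpt z u := by
  refine ⟨‖c‖ + r, fun x hx => hu x ?_⟩
  have := norm_sub_norm_le x c
  rw [dist_eq_norm]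
  linarith only [hx, this]

theorem h_dist (hK : KIn C0 y h κ s) (x x' : D n) : dist (h x) (h x') ≤ dist x x' := by
  simpa using hK.lip x x'

theorem lab2 (hK : KIn C0 y h κ s) (hN : IsNet y h s M N) {t : X × ℤ → ℝ}
    (ht : ∀ v, 0 ≤ t v ∧ t v ≤ 1 / 2) (k : Fin m) (x : D n) :
    P2 N (s k) t (h x) (sel2 N (s k) t (h x)) ∧ G2 (h x) (sel2 N (s k) t (h x)) ≤ 3 / 2 ∧
      Rel (s k) (sel2 N (s k) t (h x)) (h x) := by
  obtain ⟨h1, h2⟩ := sel2_spec ht (hN.cover k x)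
  exact ⟨h1, h2, rel_of_act (hK.slip k) h1.1.2.1 h1.1.2.2⟩

/-- Ties of the first labels. -/
theorem tieA (hK : KIn C0 y h κ s) (hA : IsApp C0 y h s A N f) {t : X × ℤ → ℝ}
    (ht : ∀ v, 0 ≤ t v ∧ t v ≤ 1 / 2) {ℓ : ℕ}
    (hℓ : 2 * (|A| / κ) / 2 ^ ℓ < 1 / (2 * ((n : ℝ) + 1))) (k : Fin m) {w : X × ℤ} {x0 x x' : D n}
    (hw : Rel (s k) w (h x0)) (hx : dist x x0 ≤ 1 / 2 ^ ℓ) (hx' : dist x' x0 ≤ 1 / 2 ^ ℓ) :
    G1 (f k x0) (sel1 t (f k x)) + t (sel1 t (f k x)) -
      (G1 (f k x0) (sel1 t (f k x')) + t (sel1 t (f k x'))) ≤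
        (4 * ((n : ℝ) + 1) * |A| + 6144) / 2 ^ ℓ / (2 : ℝ) ^ w.2 := by
  have h0 : 0 < s k (h x0) := hK.pos.trans_le (hK.ge k _)
  have h2 : (0 : ℝ) < 2 ^ ℓ := by positivity
  have hw0 : (0 : ℝ) < (2 : ℝ) ^ w.2 := by positivity
  have key : ∀ z, dist z x0 ≤ 1 / 2 ^ ℓ →
      dist (f k x0) (f k z) ≤ |A| * (1 / 2 ^ ℓ) / s k (h x0) := by
    intro z hz
    refine (app_dist hK hA k x0 z).trans (div_le_div_of_nonneg_right ?_ h0.le)
    rw [dist_comm]
    exact mul_le_mul_of_nonneg_left hz (abs_nonneg A)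
  have hδ : |A| * (1 / 2 ^ ℓ) / s k (h x0) ≤ |A| * (1 / 2 ^ ℓ) / κ :=
    div_le_div_of_nonneg_left (by positivity) hK.pos (hK.ge k _)
  have he : 2 * (|A| / κ) / 2 ^ ℓ = 2 * (|A| * (1 / 2 ^ ℓ) / κ) := by ring
  refine (tie1 ht (key x hx) (key x' hx') (by linarith only [hℓ, hδ, he])).trans ?_
  have h3 : |A| * (1 / 2 ^ ℓ) / s k (h x0) ≤ 2 * |A| * (1 / 2 ^ ℓ) / (2 : ℝ) ^ w.2 := by
    rw [div_le_div_iff₀ h0 hw0]
    have := mul_le_mul_of_nonneg_left hw.2.1 (show 0 ≤ |A| * (1 / 2 ^ ℓ) by positivity)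
    linarith only [this]
  have h4 := mul_le_mul_of_nonneg_left h3 (show 0 ≤ 2 * ((n : ℝ) + 1) by positivity)
  have h5 : (4 * ((n : ℝ) + 1) * |A| + 6144) / 2 ^ ℓ / (2 : ℝ) ^ w.2 =
      2 * ((n : ℝ) + 1) * (2 * |A| * (1 / 2 ^ ℓ) / (2 : ℝ) ^ w.2) +
        6144 / 2 ^ ℓ / (2 : ℝ) ^ w.2 := by ring
  have h6 : (0 : ℝ) ≤ 6144 / 2 ^ ℓ / (2 : ℝ) ^ w.2 := by positivity
  linarith only [h4, h5, h6]

theorem nbrB (hK : KIn C0 y h κ s) {ℓ : ℕ} (hℓ : 48 * (1 / (2 : ℝ) ^ ℓ) ≤ κ) (k : Fin m)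
    {v w : X × ℤ} {p0 p : X} (hw : Rel (s k) w p0) (hv : Rel (s k) v p)
    (hp : dist p0 p ≤ 3 * (1 / 2 ^ ℓ)) : Nbr v w := by
  refine nbr_of_rel (hK.slip k) hv hw ?_
  have h1 := hK.ge k p0
  have h2 : (0 : ℝ) ≤ 1 / 2 ^ ℓ := by positivity
  rw [dist_comm]
  linarith only [hℓ, hp, h1, h2]

/-- Ties of the second labels. -/
theorem tieB (hK : KIn C0 y h κ s) (hN : IsNet y h s M N) (A : ℝ) {t : X × ℤ → ℝ}
    (ht : ∀ v, 0 ≤ t v ∧ t v ≤ 1 / 2) {ℓ : ℕ} (hℓ : 48 * (1 / (2 : ℝ) ^ ℓ) ≤ κ) (k : Fin m)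
    {w : X × ℤ} {p0 : X} {x x' : D n} (hw : Rel (s k) w p0)
    (hx : dist p0 (h x) ≤ 3 * (1 / 2 ^ ℓ)) (hx' : dist p0 (h x') ≤ 3 * (1 / 2 ^ ℓ)) :
    G2 p0 (sel2 N (s k) t (h x)) + t (sel2 N (s k) t (h x)) -
      (G2 p0 (sel2 N (s k) t (h x')) + t (sel2 N (s k) t (h x'))) ≤
        (4 * ((n : ℝ) + 1) * |A| + 6144) / 2 ^ ℓ / (2 : ℝ) ^ w.2 := by
  obtain ⟨a1, -, a3⟩ := lab2 hK hN ht k x
  obtain ⟨b1, b2, b3⟩ := lab2 hK hN ht k x'
  have h1 := hK.ge k (sel2 N (s k) t (h x')).1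
  refine (tie2 a1 b1 b2 hx hx' (by linarith only [hℓ, h1]) (nbrB hK hℓ k hw a3 hx)
    (nbrB hK hℓ k hw b3 hx')).trans ?_
  have h5 : (4 * ((n : ℝ) + 1) * |A| + 6144) / 2 ^ ℓ / (2 : ℝ) ^ w.2 =
      4 * ((n : ℝ) + 1) * |A| / 2 ^ ℓ / (2 : ℝ) ^ w.2 +
        2048 * (3 * (1 / 2 ^ ℓ)) / (2 : ℝ) ^ w.2 := by ring
  have h6 : (0 : ℝ) ≤ 4 * ((n : ℝ) + 1) * |A| / 2 ^ ℓ / (2 : ℝ) ^ w.2 := by positivity
  linarith only [h5, h6]

/-- Every value of `h` is close to the value at a grid point of the cube. -/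
theorem exists_grid_cl (hK : KIn C0 y h κ s) {ℓ : ℕ} (hℓ : 48 * (1 / (2 : ℝ) ^ ℓ) ≤ κ)
    (hn : 2 ≤ n) (x : D n) :
    ∃ g, grid ℓ g ∈ C0.cl ∧ dist (h (grid ℓ g)) (h x) ≤ 1 / 2 ^ ℓ := by
  have hs := C0.side_pos
  have hsm := hK.small
  have key : ∀ x' : D n, dist x' C0.c ≤ C0.side / 3 →
      ∃ g, grid ℓ g ∈ C0.cl ∧ dist (h (grid ℓ g)) (h x') ≤ 1 / 2 ^ ℓ := by
    intro x' hx'
    obtain ⟨g, hg⟩ := exists_grid ℓ x'
    refine ⟨g, ?_, (h_dist hK _ _).trans hg⟩
    have := dist_triangle (grid ℓ g) x' C0.c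
    unfold DC.cl
    rw [mem_closedBall]
    linarith only [hℓ, hs, hsm, hx', hg, this]
  by_cases hx : C0.side / 4 ≤ dist x C0.c
  · have : Nonempty (Fin n) := ⟨⟨0, by omega⟩⟩
    have hd : dist (C0.c + fun _ => C0.side / 3) C0.c = C0.side / 3 := by
      rw [dist_eq_norm, add_sub_cancel_left, pi_norm_const, Real.norm_eq_abs,
        abs_of_pos (by positivity)]
    obtain ⟨g, h1, h2⟩ := key _ hd.le
    refine ⟨g, h1, ?_⟩
    rw [hK.out x hx, ← hK.out (C0.c + fun _ => C0.side / 3) (by rw [hd]; linarith only [hs])]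
    exact h2
  · exact key x (by linarith only [hs, hx])

end Data

end KB

end Pool.Agent.Work.MP_4b5e6c_gt
end

-- merged part: Pool.Agent.Work.MP_4b5e6c_gt.KB
section
/-! Task KB: the correction terms. -/

namespace Pool.Agent.Work.MP_4b5e6c_gt
open Metric Set

namespace KB

section Data
variable {n m M : ℕ} {X : Type} [MetricSpace X] {C0 : DC n} {y : X} {h : D n → X} {κ A : ℝ}
  {s : Fin m → X → ℝ} {N : Finset (X × ℤ)} {f : Fin m → D n → Ys n (X × ℤ)}

open Classical in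
/-- The neighbours of a vertex. -/
noncomputable def Nb (N : Finset (X × ℤ)) (w : X × ℤ) : Finset (X × ℤ) := N.filter (Nbr · w)

theorem mem_Nb {v w : X × ℤ} : v ∈ Nb N w ↔ v ∈ N ∧ Nbr v w := by
  classical
  unfold Nb
  rw [Finset.mem_filter]

theorem card_Nb (hN : IsNet y h s M N) (w : X × ℤ) : (Nb N w).card ≤ M :=
  hN.deg w _ (fun _ hv => (mem_Nb.1 hv).1) fun _ hv => (mem_Nb.1 hv).2

/-- The lower labels. -/
noncomputable def L1 (f : Fin m → D n → Ys n (X × ℤ)) (t : X × ℤ → ℝ) (ℓ : ℕ) (k : Fin m)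
    (g : Fin n → ℤ) : X × ℤ := sel1 t (f k (grid ℓ g))

/-- The upper labels. -/
noncomputable def L2 (N : Finset (X × ℤ)) (s : Fin m → X → ℝ) (h : D n → X) (t : X × ℤ → ℝ)
    (ℓ : ℕ) (k : Fin m) (g : Fin n → ℤ) : X × ℤ := sel2 N (s k) t (h (grid ℓ g))

theorem L1_spec (hA : IsApp C0 y h s A N f) (t : X × ℤ → ℝ) (ℓ : ℕ) (k : Fin m)
    (g : Fin n → ℤ) : L1 f t ℓ k g ∈ N ∧ Rel (s k) (L1 f t ℓ k g) (h (grid ℓ g)) :=
  hA.supp k _ _ (sel1_mem t _)

theorem kv_close (hK : KIn C0 y h κ s) (ℓ : ℕ) (g : Fin n → ℤ) (π : Equiv.Perm (Fin n))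
    (i : Fin (n + 1)) : dist (h (grid ℓ g)) (h (grid ℓ (kv g π i))) ≤ 3 * (1 / 2 ^ ℓ) := by
  have h1 := h_dist hK (grid ℓ g) (grid ℓ (kv g π i))
  have h2 := dist_grid_kv ℓ g π i
  have h3 : (0 : ℝ) ≤ 1 / 2 ^ ℓ := by positivity
  rw [dist_comm] at h2
  linarith only [h1, h2, h3]

theorem L1_nb (hK : KIn C0 y h κ s) (hA : IsApp C0 y h s A N f) (t : X × ℤ → ℝ) {ℓ : ℕ}
    (hℓ : 48 * (1 / (2 : ℝ) ^ ℓ) ≤ κ) (k : Fin m) {w : X × ℤ} {g : Fin n → ℤ}
    (hw : Rel (s k) w (h (grid ℓ g))) (π : Equiv.Perm (Fin n)) (i : Fin (n + 1)) :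
    L1 f t ℓ k (kv g π i) ∈ Nb N w :=
  mem_Nb.2 ⟨(L1_spec hA t ℓ k _).1,
    nbrB hK hℓ k hw (L1_spec hA t ℓ k _).2 (kv_close hK ℓ g π i)⟩

theorem L2_nb (hK : KIn C0 y h κ s) (hN : IsNet y h s M N) {t : X × ℤ → ℝ}
    (ht : ∀ v, 0 ≤ t v ∧ t v ≤ 1 / 2) {ℓ : ℕ}
    (hℓ : 48 * (1 / (2 : ℝ) ^ ℓ) ≤ κ) (k : Fin m) {w : X × ℤ} {g : Fin n → ℤ}
    (hw : Rel (s k) w (h (grid ℓ g))) (π : Equiv.Perm (Fin n)) (i : Fin (n + 1)) :
    L2 N s h t ℓ k (kv g π i) ∈ Nb N w :=
  mem_Nb.2 ⟨(lab2 hK hN ht k _).1.1.1,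
    nbrB hK hℓ k hw (lab2 hK hN ht k _).2.2 (kv_close hK ℓ g π i)⟩

/-- Locality of the labels. -/
theorem labels_loc (hK : KIn C0 y h κ s) (hA : IsApp C0 y h s A N f) (t t' : X × ℤ → ℝ) {ℓ : ℕ}
    (hℓ : 48 * (1 / (2 : ℝ) ^ ℓ) ≤ κ) {k k' : Fin m} {w : X × ℤ}
    (hs : ∀ p, dist p w.1 ≤ 1000 * (2 : ℝ) ^ w.2 → s k p = s k' p) {g : Fin n → ℤ}
    (hw : Rel (s k) w (h (grid ℓ g))) (π : Equiv.Perm (Fin n)) (i : Fin (n + 1)) :
    L1 f t ℓ k (kv g π i) = L1 f t ℓ k' (kv g π i) ∧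
      L2 N s h t' ℓ k (kv g π i) = L2 N s h t' ℓ k' (kv g π i) := by
  have key : ∀ p, dist p (h (grid ℓ (kv g π i))) ≤ 20 * s k (h (grid ℓ (kv g π i))) →
      s k p = s k' p := by
    intro p hp
    refine hs p ?_
    have h1 := kv_close hK ℓ g π i
    have h2 := lip_le (hK.slip k) (h (grid ℓ (kv g π i))) (h (grid ℓ g))
    have h3 := hK.ge k (h (grid ℓ g))
    have h4 := dist_triangle4 p (h (grid ℓ (kv g π i))) (h (grid ℓ g)) w.1
    have h5 : (0 : ℝ) ≤ 1 / 2 ^ ℓ := by positivity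
    obtain ⟨a1, -, a3⟩ := hw
    rw [dist_comm] at h1 a3
    have h6 : (0 : ℝ) < (2 : ℝ) ^ w.2 := by positivity
    linarith only [hℓ, hp, h1, h2, h3, h4, a1, a3, h6]
  refine ⟨?_, ?_⟩
  · unfold L1
    rw [hA.loc k k' _ key]
  · exact sel2_congr (hK.slip k) (hK.slip k') t' (hK.pos.le.trans (hK.ge k _)) key

open Classical in
/-- The correction terms charged to `w`. -/
noncomputable def TT (B : Finset (Fin n → ℤ)) (l₁ l₂ : (Fin n → ℤ) → X × ℤ) (w : X × ℤ) :
    Finset (Tm n) :=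
  (B ×ˢ Finset.univ).filter fun τ => (prismL l₁ l₂ τ.1 τ.2.1 τ.2.2).Nodup ∧ l₁ τ.1 = w

theorem mem_TT {B : Finset (Fin n → ℤ)} {l₁ l₂ : (Fin n → ℤ) → X × ℤ} {w : X × ℤ} {τ : Tm n} :
    τ ∈ TT B l₁ l₂ w ↔ τ.1 ∈ B ∧ (prismL l₁ l₂ τ.1 τ.2.1 τ.2.2).Nodup ∧ l₁ τ.1 = w := by
  classical
  unfold TT
  simp only [Finset.mem_filter, Finset.mem_product, Finset.mem_univ, and_true]

theorem sum_TT (B : Finset (Fin n → ℤ)) {l₁ : (Fin n → ℤ) → X × ℤ} (l₂ : (Fin n → ℤ) → X × ℤ)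
    (hl : ∀ g, l₁ g ∈ N) {φ : List (X × ℤ) → ℤ} (hφ : Alt φ) :
    ∑ w ∈ N, ∑ τ ∈ TT B l₁ l₂ w, τ.sg * cob φ (prismL l₁ l₂ τ.1 τ.2.1 τ.2.2) =
      ∑ k ∈ B, ∑ π : Equiv.Perm (Fin n), ∑ j : Fin (n + 1),
        (Equiv.Perm.sign π : ℤ) * (-1) ^ (j : ℕ) * cob φ (prismL l₁ l₂ k π j) := by
  classical
  have h1 : ∑ k ∈ B, ∑ π : Equiv.Perm (Fin n), ∑ j : Fin (n + 1),
        (Equiv.Perm.sign π : ℤ) * (-1) ^ (j : ℕ) * cob φ (prismL l₁ l₂ k π j) =
      ∑ τ ∈ (B ×ˢ Finset.univ : Finset (Tm n)),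
        Tm.sg τ * cob φ (prismL l₁ l₂ τ.1 τ.2.1 τ.2.2) := by
    rw [Finset.sum_product]
    refine Finset.sum_congr rfl fun k _ => ?_
    rw [Fintype.sum_prod_type]
    rfl
  rw [h1, ← Finset.sum_fiberwise_of_maps_to (s := (B ×ˢ Finset.univ : Finset (Tm n))) (t := N)
    (g := fun τ => l₁ τ.1) fun τ _ => hl τ.1]
  refine Finset.sum_congr rfl fun w _ => Finset.sum_subset ?_ ?_
  · intro τ hτ
    obtain ⟨a1, -, a3⟩ := mem_TT.1 hτ
    exact Finset.mem_filter.2 ⟨Finset.mem_product.2 ⟨a1, Finset.mem_univ _⟩, a3⟩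
  · intro τ hτ hτ'
    obtain ⟨a1, a2⟩ := Finset.mem_filter.1 hτ
    have : ¬ (prismL l₁ l₂ τ.1 τ.2.1 τ.2.2).Nodup := fun hh =>
      hτ' (mem_TT.2 ⟨(Finset.mem_product.1 a1).1, hh, a2⟩)
    rw [hφ.cob.eq_zero this, mul_zero]

/-- The chain identity. -/
theorem chain (hn : 2 ≤ n) (hK : KIn C0 y h κ s) (hh : Null h)
    (hA : IsApp C0 y h s A N f) {t t' : X × ℤ → ℝ} (ht : ∀ v, 0 ≤ t v ∧ t v ≤ 1 / 2) {ℓ : ℕ}
    (hℓ : 48 * (1 / (2 : ℝ) ^ ℓ) ≤ κ)
    (hℓ' : 2 * (|A| / κ) / 2 ^ ℓ < 1 / (2 * ((n : ℝ) + 1))) {B : Finset (Fin n → ℤ)}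
    (hB : ∀ g, g ∈ B ↔ grid ℓ g ∈ C0.cl) (k : Fin m)
    (hadm : Adm n (sel2 N (s k) t') (range h) (2 * (1 / 2 ^ ℓ))) {φ : List (X × ℤ) → ℤ}
    (hφ : Alt φ) :
    degY φ (f k) + ∑ w ∈ N, ∑ τ ∈ TT B (L1 f t ℓ k) (L2 N s h t' ℓ k) w,
      τ.sg * cob φ (prismL (L1 f t ℓ k) (L2 N s h t' ℓ k) τ.1 τ.2.1 τ.2.2) = 0 := by
  classical
  obtain ⟨j0, hj0⟩ := hA.out k
  have hs := C0.side_pos
  have hsm := hK.small
  have ha : (0 : ℝ) < 1 / 2 ^ ℓ := by positivity
  have c1 : Cpt (vtx (y, j0)) (f k) := cpt_of C0.c _ hj0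
  have c2 : Cpt (sel1 t (vtx (y, j0) : Ys n (X × ℤ))) fun x => sel1 t (f k x) :=
    cpt_of C0.c (C0.side / 3) fun x hx => by rw [hj0 x hx]
  have c3 : Cpt (sel2 N (s k) t' y) fun x => sel2 N (s k) t' (h x) :=
    cpt_of C0.c (C0.side / 4) fun x hx => by rw [hK.out x hx]
  have g1 : GB (L1 f t ℓ k) := c2.gb ℓ
  have g2 : GB (L2 N s h t' ℓ k) := c3.gb ℓ
  have hn1 : (0 : ℝ) < (n : ℝ) + 1 := by positivity
  have e1 : degY φ (f k) = pair φ (L1 f t ℓ k) := by
    refine degY_eq_pair hn hφ (div_nonneg (abs_nonneg A) hK.pos.le) (app_lip hK hA k) c1 g1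
      (c := 1 / (2 * ((n : ℝ) + 1))) ?_ hℓ' fun g => sel1_wt ht _
    exact one_div_le_one_div_of_le hn1 (by linarith only [])
  have e2 : pair φ (L2 N s h t' ℓ k) = 0 := by
    have b1 := hh _ _ _ (by positivity) hadm φ hφ
    have b2 : Adm n (fun x => sel2 N (s k) t' (h x)) univ (2 * (1 / 2 ^ ℓ)) :=
      hadm.comp hK.lip subset_rfl zero_le_one (by rw [one_mul])
    rw [deg_eq_pair hn hφ c3 b2 (m := ℓ) (le_of_eq (by ring))] at b1
    exact b1
  have e3 := pair_prism hn hφ g1 g2 B fun g hg π j => by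
    have hg' : C0.side / 2 < dist (grid ℓ g) C0.c := by
      have := (hB g).not.1 hg
      unfold DC.cl at this
      rwa [mem_closedBall, not_le] at this
    have far : ∀ i, C0.side / 3 ≤ dist (grid ℓ (kv g π i)) C0.c := by
      intro i
      have a1 := dist_grid_kv ℓ g π i
      have a2 := dist_triangle_left (grid ℓ g) C0.c (grid ℓ (kv g π i))
      linarith only [hℓ, hsm, ha, hg', a1, a2]
    refine not_nodup_of_card {sel1 t (vtx (y, j0) : Ys n (X × ℤ)), sel2 N (s k) t' y} ?_ ?_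
    · rw [length_prismL]
      have := Finset.card_le_two (a := sel1 t (vtx (y, j0) : Ys n (X × ℤ)))
        (b := sel2 N (s k) t' y)
      omega
    · intro a ha'
      obtain ⟨i, rfl | rfl⟩ := mem_prismL ha'
      · unfold L1
        rw [hj0 _ (far i)]
        exact Finset.mem_insert_self _ _
      · unfold L2
        rw [hK.out _ (by have := far i; linarith only [hℓ, hsm, ha, this])]
        exact Finset.mem_insert_of_mem (Finset.mem_singleton_self _)
  rw [sum_TT B _ (fun g => (L1_spec hA t ℓ k g).1) hφ, ← e3, e1, e2]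
  ring

open Classical in
/-- The grid points at which `w` is relevant. -/
noncomputable def Om (B : Finset (Fin n → ℤ)) (s : Fin m → X → ℝ) (h : D n → X) (ℓ : ℕ)
    (k : Fin m) (w : X × ℤ) : Finset (Fin n → ℤ) := B.filter fun g => Rel (s k) w (h (grid ℓ g))

theorem mem_Om {B : Finset (Fin n → ℤ)} {ℓ : ℕ} {k : Fin m} {w : X × ℤ} {g : Fin n → ℤ} :
    g ∈ Om B s h ℓ k w ↔ g ∈ B ∧ Rel (s k) w (h (grid ℓ g)) := by
  classical
  unfold Om
  rw [Finset.mem_filter]

/-- Admissibility of the upper labels. -/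
theorem adm (hn : 2 ≤ n) (hK : KIn C0 y h κ s) (hN : IsNet y h s M N) (A : ℝ) {t : X × ℤ → ℝ}
    (ht : ∀ v, 0 ≤ t v ∧ t v ≤ 1 / 2) {ℓ : ℕ} (hℓ : 48 * (1 / (2 : ℝ) ^ ℓ) ≤ κ)
    {B : Finset (Fin n → ℤ)} (hB : ∀ g, g ∈ B ↔ grid ℓ g ∈ C0.cl) (k : Fin m)
    (hno : ∀ w ∈ N, ∀ τ ⊆ Nb N w, τ.card = n + 2 → ∀ g ∈ Om B s h ℓ k w,
      ¬ Tie (fun v g => G2 (h (grid ℓ g)) v) t
        ((4 * ((n : ℝ) + 1) * |A| + 6144) / 2 ^ ℓ / (2 : ℝ) ^ w.2) τ g) :
    Adm n (sel2 N (s k) t) (range h) (2 * (1 / 2 ^ ℓ)) := by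
  classical
  rintro _ ⟨x, rfl⟩
  refine ⟨N.filter fun v => ∃ x', dist (h x') (h x) ≤ 2 * (1 / 2 ^ ℓ) ∧
    sel2 N (s k) t (h x') = v, ?_, ?_⟩
  · by_contra hc
    obtain ⟨τ, hτ, hcard⟩ := Finset.exists_subset_card_eq (show n + 2 ≤ _ from not_le.1 hc)
    obtain ⟨g, hg, hd⟩ := exists_grid_cl hK hℓ hn x
    obtain ⟨a1, -, a3⟩ := lab2 hK hN ht k (grid ℓ g)
    have key : ∀ v ∈ τ, ∃ x', dist (h (grid ℓ g)) (h x') ≤ 3 * (1 / 2 ^ ℓ) ∧
        sel2 N (s k) t (h x') = v := by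
      intro v hv
      obtain ⟨x', b1, b2⟩ := (Finset.mem_filter.1 (hτ hv)).2
      have := dist_triangle_right (h (grid ℓ g)) (h x') (h x)
      exact ⟨x', by linarith only [hd, b1, this], b2⟩
    refine hno _ a1.1.1 τ (fun v hv => ?_) hcard g (mem_Om.2 ⟨(hB g).2 hg, a3⟩) ?_
    · obtain ⟨x', b1, rfl⟩ := key v hv
      exact mem_Nb.2 ⟨(lab2 hK hN ht k _).1.1.1, nbrB hK hℓ k a3 (lab2 hK hN ht k _).2.2 b1⟩
    · intro v hv v' hv'
      obtain ⟨x1, b1, rfl⟩ := key v hv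
      obtain ⟨x2, b2, rfl⟩ := key v' hv'
      have c1 := tieB hK hN A ht hℓ k a3 b1 b2
      have c2 := tieB hK hN A ht hℓ k a3 b2 b1
      exact abs_le.2 ⟨by linarith only [c2], c1⟩
  · rintro _ ⟨x', rfl⟩ hd
    exact Finset.mem_filter.2 ⟨(lab2 hK hN ht k x').1.1.1, x', hd, rfl⟩

theorem tests_le (hN : IsNet y h s M N) (v : X × ℤ)
    (S : Finset (Fin m × (X × ℤ) × Finset (X × ℤ)))
    (hS : ∀ θ ∈ S, θ.2.1 ∈ N ∧ θ.2.2 ⊆ Nb N θ.2.1 ∧ v ∈ Nb N θ.2.1) :
    S.card ≤ (m + 1) * (M + 1) * 2 ^ M := by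
  classical
  have h1 : S ⊆ Finset.univ ×ˢ (Nb N v).biUnion fun w => {w} ×ˢ (Nb N w).powerset := by
    intro θ hθ
    obtain ⟨a1, a2, a3⟩ := hS θ hθ
    refine Finset.mem_product.2 ⟨Finset.mem_univ _, Finset.mem_biUnion.2 ⟨θ.2.1,
      mem_Nb.2 ⟨a1, nbr_symm (mem_Nb.1 a3).2⟩, Finset.mem_product.2
        ⟨Finset.mem_singleton_self _, Finset.mem_powerset.2 a2⟩⟩⟩
  refine (Finset.card_le_card h1).trans ?_
  rw [Finset.card_product, Finset.card_univ, Fintype.card_fin, mul_assoc]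
  refine Nat.mul_le_mul (Nat.le_succ m) (Finset.card_biUnion_le.trans ?_)
  refine (Finset.sum_le_card_nsmul _ _ (2 ^ M) fun w _ => ?_).trans ?_
  · rw [Finset.card_product, Finset.card_singleton, one_mul, Finset.card_powerset]
    exact Nat.pow_le_pow_right (by norm_num) (card_Nb hN w)
  · rw [smul_eq_mul]
    exact Nat.mul_le_mul_right _ ((card_Nb hN v).trans (Nat.le_succ M))

end Data

end KB

open KB in
theorem kb {n : ℕ} (hn : 2 ≤ n) (m M : ℕ) (A : ℝ) : ∃ M' : ℕ,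
    ∀ (X : Type) [MetricSpace X] (C0 : DC n) (y : X) (h : D n → X) (κ : ℝ) (s : Fin m → X → ℝ)
      (N : Finset (X × ℤ)) (f : Fin m → D n → Ys n (X × ℤ)), KIn C0 y h κ s → Null h →
      IsNet y h s M N → IsApp C0 y h s A N f →
      ∃ (T : Fin m → X × ℤ → Finset (Tm n)) (u : Fin m → Tm n → List (X × ℤ)),
        IsCor C0 h s M' N f T u := by
  classical
  obtain ⟨C, hC1, hC⟩ := greedy ((m + 1) * (M + 1) * 2 ^ M)
  set C1 : ℝ := 4 * ((n : ℝ) + 1) * |A| + 6144 with hC1def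
  have hC10 : 0 < C1 := by positivity
  refine ⟨⌈(Fintype.card (Equiv.Perm (Fin n) × Fin (n + 1)) : ℝ) * 4 ^ M *
    (301 * (C * C1)) ^ n⌉₊, ?_⟩
  intro X _ C0 y h κ s N f hK hh hN hA
  obtain ⟨ℓ, hℓ, hℓ', hℓN⟩ := exists_level n N (fun w => (2 : ℝ) ^ w.2) (fun w => by positivity)
    (A := |A|) (C := C * C1) (d := C0.side) hK.pos
  obtain ⟨B, hB, hBc⟩ := DC.exists_grid_finset C0 ℓ
  set a : X × ℤ → ℝ := fun w => C1 / 2 ^ ℓ / (2 : ℝ) ^ w.2 with ha
  have ha0 : ∀ w, 0 < a w := fun w => by simp only [ha]; positivity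
  set tests : Finset (Fin m × (X × ℤ) × Finset (X × ℤ)) :=
    Finset.univ ×ˢ N.biUnion fun w => {w} ×ˢ (Nb N w).powerset with htests
  have mem_tests : ∀ θ, θ ∈ tests ↔ θ.2.1 ∈ N ∧ θ.2.2 ⊆ Nb N θ.2.1 := by
    rintro ⟨k, w, τ⟩
    simp only [htests, Finset.mem_product, Finset.mem_univ, true_and, Finset.mem_biUnion,
      Finset.mem_singleton, Finset.mem_powerset]
    exact ⟨fun ⟨w', a1, a2, a3⟩ => a2 ▸ ⟨a1, a3⟩, fun ⟨a1, a2⟩ => ⟨w, a1, rfl, a2⟩⟩
  have hM : M ≤ (m + 1) * (M + 1) * 2 ^ M := by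
    have h1 : 1 ≤ 2 ^ M := Nat.one_le_two_pow
    calc M ≤ 1 * (M + 1) * 1 := by omega
      _ ≤ _ := Nat.mul_le_mul (Nat.mul_le_mul_right _ (by omega)) h1
  have hyp1 : ∀ θ ∈ tests, 0 < a θ.2.1 ∧ (Nb N θ.2.1).card ≤ (m + 1) * (M + 1) * 2 ^ M :=
    fun θ _ => ⟨ha0 _, (card_Nb hN _).trans hM⟩
  have hyp2 : ∀ v (S : Finset (Fin m × (X × ℤ) × Finset (X × ℤ))),
      (∀ θ ∈ S, θ ∈ tests ∧ v ∈ Nb N θ.2.1) → S.card ≤ (m + 1) * (M + 1) * 2 ^ M :=
    fun v S hS => tests_le hN v S fun θ hθ =>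
      ⟨((mem_tests θ).1 (hS θ hθ).1).1, ((mem_tests θ).1 (hS θ hθ).1).2, (hS θ hθ).2⟩
  obtain ⟨t₁, ht₁, hg₁⟩ := hC (X × ℤ) _ (Fin n → ℤ) tests (fun θ => Om B s h ℓ θ.1 θ.2.1)
    (fun θ => Nb N θ.2.1) (fun θ => a θ.2.1) (fun θ v g => G1 (f θ.1 (grid ℓ g)) v) hyp1
    fun v => hyp2 v _ fun θ hθ => by simpa only [Finset.mem_filter] using hθ
  set Om2 : Fin m → X × ℤ → Finset (X × ℤ) → Finset (Fin n → ℤ) := fun k w τ =>
    (Om B s h ℓ k w).filter fun g => Tie (fun v g => G1 (f k (grid ℓ g)) v) t₁ (a w) τ g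
    with hOm2
  obtain ⟨t₂, ht₂, hg₂⟩ := hC (X × ℤ) _ (Fin n → ℤ) tests (fun θ => Om2 θ.1 θ.2.1 θ.2.2)
    (fun θ => Nb N θ.2.1) (fun θ => a θ.2.1) (fun _ v g => G2 (h (grid ℓ g)) v) hyp1
    fun v => hyp2 v _ fun θ hθ => by simpa only [Finset.mem_filter] using hθ
  set W : Fin m → X × ℤ → Finset (X × ℤ) → Finset (X × ℤ) → Finset (Fin n → ℤ) :=
    fun k w τ τ' => (Om2 k w τ).filter fun g =>
      Tie (fun v g => G2 (h (grid ℓ g)) v) t₂ (a w) τ' g with hW
  have hO2 : ∀ k, ∀ w ∈ N, ∀ τ ⊆ Nb N w, τ.Nonempty →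
      ((Om2 k w τ).card : ℝ) ≤ (C * a w) ^ (τ.card - 1) * (Om B s h ℓ k w).card := by
    intro k w hw τ hτ hne
    have := hg₁ (k, w, ∅) ((mem_tests _).2 ⟨hw, Finset.empty_subset _⟩) τ hτ hne
    convert this
  have hW2 : ∀ k, ∀ w ∈ N, ∀ τ ⊆ Nb N w, ∀ τ' ⊆ Nb N w, τ'.Nonempty →
      ((W k w τ τ').card : ℝ) ≤ (C * a w) ^ (τ'.card - 1) * (Om2 k w τ).card := by
    intro k w hw τ hτ τ' hτ' hne
    have := hg₂ (k, w, τ) ((mem_tests _).2 ⟨hw, hτ⟩) τ' hτ' hne
    convert this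
  have hCa : ∀ w, 0 ≤ C * a w := fun w => mul_nonneg (by linarith only [hC1]) (ha0 w).le
  have hadm : ∀ k, Adm n (sel2 N (s k) t₂) (range h) (2 * (1 / 2 ^ ℓ)) := by
    intro k
    refine adm hn hK hN A ht₂ hℓ hB k fun w hw τ hτ hc g hg htie => ?_
    have b1 := hW2 k w hw ∅ (Finset.empty_subset _) τ hτ (Finset.card_pos.1 (by omega))
    have b2 : g ∈ W k w ∅ τ := by
      simp only [hW, hOm2, Finset.mem_filter]
      exact ⟨⟨hg, fun v hv => absurd hv (Finset.notMem_empty v)⟩, htie⟩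
    have b3 : (1 : ℝ) ≤ (W k w ∅ τ).card := by
      exact_mod_cast Finset.card_pos.2 ⟨g, b2⟩
    have b4 : ((Om2 k w ∅).card : ℝ) ≤ (C0.side * 2 ^ ℓ + 1) ^ n := by
      refine le_trans ?_ hBc
      exact_mod_cast Finset.card_le_card fun g hg =>
        (mem_Om.1 (Finset.mem_of_mem_filter _ hg)).1
    have b5 := (hℓN w hw).2
    have b6 : C * C1 / 2 ^ ℓ / (2 : ℝ) ^ w.2 = C * a w := by simp only [ha]; ring
    rw [b6] at b5
    rw [hc, show n + 2 - 1 = n + 1 from rfl] at b1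
    have b7 := mul_le_mul_of_nonneg_left b4 (pow_nonneg (hCa w) (n + 1))
    linarith only [b1, b3, b5, b7]
  refine ⟨fun k w => TT B (L1 f t₁ ℓ k) (L2 N s h t₂ ℓ k) w,
    fun k τ => prismL (L1 f t₁ ℓ k) (L2 N s h t₂ ℓ k) τ.1 τ.2.1 τ.2.2, ?_, ?_, ?_, ?_, ?_⟩
  · exact fun k τ => length_prismL _ _ _ _ _
  · intro k w _ τ hτ v hv
    obtain ⟨-, -, rfl⟩ := mem_TT.1 hτ
    have hw := (L1_spec hA t₁ ℓ k τ.1).2
    obtain ⟨i, rfl | rfl⟩ := mem_prismL hv
    · exact (mem_Nb.1 (L1_nb hK hA t₁ hℓ k hw _ i)).2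
    · exact (mem_Nb.1 (L2_nb hK hN ht₂ hℓ k hw _ i)).2
  · intro k w hw c hc hcov
    have b1 := grid_count ℓ (Om B s h ℓ k w) c hc (hℓN w hw).1 fun g hg =>
      hcov _ ((hB g).1 (mem_Om.1 hg).1) (mem_Om.1 hg).2
    have b2 := count_aux n M (TT B (L1 f t₁ ℓ k) (L2 N s h t₂ ℓ k) w) (Nb N w) (card_Nb hN w)
      (W k w) (b := (301 * (C * C1)) ^ n * c.card) (by positivity) ?_ ?_
    · have b3 := Nat.le_ceil ((Fintype.card (Equiv.Perm (Fin n) × Fin (n + 1)) : ℝ) * 4 ^ M *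
        (301 * (C * C1)) ^ n)
      have b4 := mul_le_mul_of_nonneg_right b3 (Nat.cast_nonneg (α := ℝ) c.card)
      rw [← mul_assoc] at b2
      exact_mod_cast b2.trans b4
    · intro τ hτ τ' hτ' hcard hne hne'
      have c1 := hW2 k w hw τ hτ τ' hτ' hne'
      have c2 := hO2 k w hw τ hτ hne
      have c3 := Finset.card_pos.2 hne
      have c4 := Finset.card_pos.2 hne'
      have c5 : τ'.card - 1 + (τ.card - 1) = n := by omega
      have c6 : C * a w * (301 * ((2 : ℝ) ^ w.2 * 2 ^ ℓ)) = 301 * (C * C1) := by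
        simp only [ha]
        field_simp
      calc ((W k w τ τ').card : ℝ)
          ≤ (C * a w) ^ (τ'.card - 1) * ((C * a w) ^ (τ.card - 1) * (Om B s h ℓ k w).card) :=
            c1.trans (mul_le_mul_of_nonneg_left c2 (pow_nonneg (hCa w) _))
        _ = (C * a w) ^ n * (Om B s h ℓ k w).card := by rw [← mul_assoc, ← pow_add, c5]
        _ ≤ (C * a w) ^ n * ((301 * ((2 : ℝ) ^ w.2 * 2 ^ ℓ)) ^ n * c.card) :=
            mul_le_mul_of_nonneg_left b1 (pow_nonneg (hCa w) _)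
        _ = _ := by rw [← mul_assoc, ← mul_pow, c6]
    · intro τ hτ
      obtain ⟨a1, a2, rfl⟩ := mem_TT.1 hτ
      have hr := (L1_spec hA t₁ ℓ k τ.1).2
      obtain ⟨τ₁, τ₂, d1, d2, d3, d4⟩ := prismL_split a2
      have hj := τ.2.2.isLt
      refine ⟨τ₁, fun v hv => ?_, τ₂, fun v hv => ?_, by omega, Finset.card_pos.1 (by omega),
        Finset.card_pos.1 (by omega), ?_⟩
      · obtain ⟨i, rfl⟩ := d3 v hv
        exact L1_nb hK hA t₁ hℓ k hr _ i
      · obtain ⟨i, rfl⟩ := d4 v hv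
        exact L2_nb hK hN ht₂ hℓ k hr _ i
      · simp only [hW, hOm2, Finset.mem_filter]
        refine ⟨⟨mem_Om.2 ⟨a1, hr⟩, fun v hv v' hv' => ?_⟩, fun v hv v' hv' => ?_⟩
        · obtain ⟨i, rfl⟩ := d3 v hv
          obtain ⟨i', rfl⟩ := d3 v' hv'
          have c1 := tieA hK hA ht₁ hℓ' k hr (dist_grid_kv ℓ τ.1 τ.2.1 i)
            (dist_grid_kv ℓ τ.1 τ.2.1 i')
          have c2 := tieA hK hA ht₁ hℓ' k hr (dist_grid_kv ℓ τ.1 τ.2.1 i')
            (dist_grid_kv ℓ τ.1 τ.2.1 i)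
          exact abs_sub_le_iff.2 ⟨c1, c2⟩
        · obtain ⟨i, rfl⟩ := d4 v hv
          obtain ⟨i', rfl⟩ := d4 v' hv'
          have c1 := tieB hK hN A ht₂ hℓ k hr (kv_close hK ℓ τ.1 τ.2.1 i)
            (kv_close hK ℓ τ.1 τ.2.1 i')
          have c2 := tieB hK hN A ht₂ hℓ k hr (kv_close hK ℓ τ.1 τ.2.1 i')
            (kv_close hK ℓ τ.1 τ.2.1 i)
          exact abs_sub_le_iff.2 ⟨c1, c2⟩
  · exact fun k φ hφ => chain hn hK hh hA ht₁ hℓ hℓ' hB k (hadm k) hφ
  · have key : ∀ k k', ∀ w : X × ℤ,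
        (∀ p, dist p w.1 ≤ 1000 * (2 : ℝ) ^ w.2 → s k p = s k' p) →
        ∀ τ ∈ TT B (L1 f t₁ ℓ k) (L2 N s h t₂ ℓ k) w,
          τ ∈ TT B (L1 f t₁ ℓ k') (L2 N s h t₂ ℓ k') w ∧
          prismL (L1 f t₁ ℓ k) (L2 N s h t₂ ℓ k) τ.1 τ.2.1 τ.2.2 =
            prismL (L1 f t₁ ℓ k') (L2 N s h t₂ ℓ k') τ.1 τ.2.1 τ.2.2 := by
      intro k k' w hs τ hτ
      obtain ⟨a1, a2, a3⟩ := mem_TT.1 hτ
      have hr := (L1_spec hA t₁ ℓ k τ.1).2
      rw [a3] at hr
      have b1 := labels_loc hK hA t₁ t₂ hℓ hs hr τ.2.1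
      have b2 := prismL_congr (fun i => (b1 i).1) (fun i => (b1 i).2) τ.2.2
      have b3 := (b1 0).1
      rw [kv_zero] at b3
      exact ⟨mem_TT.2 ⟨a1, b2 ▸ a2, b3 ▸ a3⟩, b2⟩
    intro k k' w _ hs
    refine ⟨Finset.Subset.antisymm (fun τ hτ => (key k k' w hs τ hτ).1)
      fun τ hτ => (key k' k w (fun p hp => (hs p hp).symm) τ hτ).1,
      fun τ hτ => (key k k' w hs τ hτ).2⟩

end Pool.Agent.Work.MP_4b5e6c_gt
end

-- merged part: Pool.Agent.Work.MP_4b5e6c_gt.OneA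
section
/-! Task ONEA: words of edge paths in the free group. -/

namespace Pool.Agent.Work.MP_4b5e6c_gt
open Metric Set

/-- The element of the free group attached to the oriented edge from `a` to `b`. -/
def edge {S : Type} (a b : S) : FreeGroup (S × S) := FreeGroup.of (a, b) * (FreeGroup.of (b, a))⁻¹

/-- The word of the edge path `a 0, …, a N`. -/
def word {S : Type} (a : ℕ → S) (N : ℕ) : FreeGroup (S × S) :=
  ((List.range N).map fun i => edge (a i) (a (i + 1))).prod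

namespace OneA

variable {S : Type}

theorem edge_self (a : S) : edge a a = 1 := mul_inv_cancel _

theorem edge_mul_edge (a b : S) : edge a b * edge b a = 1 := by
  simp [edge, mul_assoc]

theorem word_zero (a : ℕ → S) : word a 0 = 1 := rfl

theorem word_succ (a : ℕ → S) (N : ℕ) : word a (N + 1) = word a N * edge (a N) (a (N + 1)) := by
  simp [word, List.range_succ]

theorem word_congr {a b : ℕ → S} {N : ℕ} (h : ∀ i ≤ N, a i = b i) : word a N = word b N := by
  induction N with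
  | zero => rfl
  | succ N ih =>
    rw [word_succ, word_succ, ih fun i hi => h i (by omega), h N (by omega), h (N + 1) le_rfl]

/-- The letters of the word of an edge path. -/
def lw (g : ℕ → S) : ℕ → List ((S × S) × Bool)
  | 0 => []
  | d + 1 => lw g d ++ [((g d, g (d + 1)), true), ((g (d + 1), g d), false)]

theorem mk_lw (g : ℕ → S) (d : ℕ) : FreeGroup.mk (lw g d) = word g d := by
  induction d with
  | zero => rfl
  | succ d ih =>
    rw [lw, ← FreeGroup.mul_mk, ih, word_succ]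
    rfl

theorem reduced_lw (g : ℕ → S) (d : ℕ) (h1 : ∀ j < d, g j ≠ g (j + 1))
    (h2 : ∀ j, j + 2 ≤ d → g j ≠ g (j + 2)) : FreeGroup.IsReduced (lw g d) := by
  induction d with
  | zero => exact List.isChain_nil
  | succ d ih =>
    have h3 := ih (fun j hj => h1 j (by omega)) fun j hj => h2 j (by omega)
    rw [FreeGroup.IsReduced, lw, List.isChain_append]
    refine ⟨h3, ?_, ?_⟩
    · rw [List.isChain_pair]
      intro h
      exact absurd (congrArg Prod.fst h) (h1 d (by omega))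
    · intro x hx y hy
      cases d with
      | zero => simp [lw] at hx
      | succ d =>
        simp only [lw, List.getLast?_append, List.getLast?_cons_cons, List.getLast?_singleton,
          Option.some_or, Option.mem_def, Option.some.injEq] at hx
        simp only [List.head?_cons, Option.mem_def, Option.some.injEq] at hy
        subst hx hy
        intro h
        exact absurd (congrArg Prod.snd h) (h2 d le_rfl)

theorem eq_zero_of_word (g : ℕ → S) (d : ℕ) (h1 : ∀ j < d, g j ≠ g (j + 1))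
    (h2 : ∀ j, j + 2 ≤ d → g j ≠ g (j + 2)) (hw : word g d = 1) : d = 0 := by
  classical
  have h3 := (reduced_lw g d h1 h2).reduce_eq
  rw [← FreeGroup.toWord_mk, mk_lw, hw, FreeGroup.toWord_one] at h3
  cases d with
  | zero => rfl
  | succ d => simp [lw] at h3

/-- The reduced path from the root to the `i`-th vertex. -/
structure Inv (R : S → S → Prop) (a : ℕ → S) (i d : ℕ) (g : ℕ → S) : Prop where
  le : d ≤ i
  root : g 0 = a 0
  stab : ∀ j, d ≤ j → g j = a i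
  rel : ∀ j < d, R (g j) (g (j + 1))
  ne1 : ∀ j < d, g j ≠ g (j + 1)
  ne2 : ∀ j, j + 2 ≤ d → g j ≠ g (j + 2)
  wd : word g d = word a i

theorem Inv.step {R : S → S → Prop} (hr : ∀ a, R a a) (hs : ∀ a b, R a b → R b a) {a : ℕ → S}
    {i d : ℕ} {g : ℕ → S} (h : Inv R a i d g) (ha : R (a i) (a (i + 1))) :
    ∃ d' g', Inv R a (i + 1) d' g' ∧ ∀ j, R (g j) (g' j) := by
  classical
  have hd := h.stab d le_rfl
  by_cases h1 : a (i + 1) = a i
  · refine ⟨d, g, ⟨h.le.trans (by omega), h.root, fun j hj => by rw [h1, h.stab j hj], h.rel,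
      h.ne1, h.ne2, by rw [word_succ, h1, edge_self, mul_one, h.wd]⟩, fun j => hr _⟩
  by_cases h2 : ∃ e, d = e + 1 ∧ a (i + 1) = g e
  · obtain ⟨e, rfl, he⟩ := h2
    refine ⟨e, fun j => g (min j e), ⟨by have := h.le; omega, by simpa using h.root,
      fun j hj => by rw [min_eq_right hj, he], fun j hj => ?_, fun j hj => ?_, fun j hj => ?_, ?_⟩,
      fun j => ?_⟩
    · rw [min_eq_left hj.le, min_eq_left hj]; exact h.rel j (by omega)
    · rw [min_eq_left hj.le, min_eq_left hj]; exact h.ne1 j (by omega)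
    · rw [min_eq_left (by omega), min_eq_left hj]; exact h.ne2 j (by omega)
    · rw [word_congr (b := g) fun j hj => by rw [min_eq_left hj], word_succ, ← h.wd, word_succ, hd,
        he, mul_assoc, edge_mul_edge, mul_one]
    · beta_reduce
      rcases le_or_gt j e with hj | hj
      · rw [min_eq_left hj]; exact hr _
      · rw [min_eq_right hj.le, h.stab j hj, ← he]; exact ha
  · refine ⟨d + 1, fun j => if j ≤ d then g j else a (i + 1), ⟨by have := h.le; omega,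
      by simpa using h.root, fun j hj => if_neg (by omega), fun j hj => ?_, fun j hj => ?_,
      fun j hj => ?_, ?_⟩, fun j => ?_⟩
    · rw [if_pos (by omega)]
      split_ifs with h3
      · exact h.rel j (by omega)
      · rw [h.stab j (by omega)]; exact ha
    · rw [if_pos (by omega)]
      split_ifs with h3
      · exact h.ne1 j (by omega)
      · rw [h.stab j (by omega)]; exact Ne.symm h1
    · rw [if_pos (by omega)]
      split_ifs with h3
      · exact h.ne2 j (by omega)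
      · exact fun h4 => h2 ⟨j, by omega, h4.symm⟩
    · rw [word_succ, word_succ, word_congr (b := g) fun j hj => if_pos hj, h.wd, if_pos le_rfl,
        if_neg (by omega), hd]
    · beta_reduce
      split_ifs with h3
      · exact hr _
      · rw [h.stab j (by omega)]; exact ha

theorem exists_inv {R : S → S → Prop} (hr : ∀ a, R a a) (hs : ∀ a b, R a b → R b a) (a : ℕ → S)
    (n : ℕ) (ha : ∀ i < n, R (a i) (a (i + 1))) : ∃ (G : ℕ → ℕ → S) (d : ℕ → ℕ),
      (∀ i ≤ n, Inv R a i (d i) (G i)) ∧ ∀ i < n, ∀ j, R (G i j) (G (i + 1) j) := by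
  induction n with
  | zero =>
    refine ⟨fun _ _ => a 0, fun _ => 0, fun i hi => ?_, fun i hi => absurd hi (by omega)⟩
    obtain rfl : i = 0 := by omega
    exact ⟨le_rfl, rfl, fun _ _ => rfl, fun j hj => absurd hj (Nat.not_lt_zero _),
      fun j hj => absurd hj (Nat.not_lt_zero _), fun j hj => absurd hj (by simp), rfl⟩
  | succ n ih =>
    obtain ⟨G, d, h1, h2⟩ := ih fun i hi => ha i (by omega)
    obtain ⟨d', g', h3, h4⟩ := (h1 n le_rfl).step hr hs (ha n (by omega))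
    refine ⟨Function.update G (n + 1) g', Function.update d (n + 1) d', fun i hi => ?_,
      fun i hi j => ?_⟩
    · rcases hi.eq_or_lt with rfl | hi
      · simpa using h3
      · rw [Function.update_of_ne hi.ne, Function.update_of_ne hi.ne]
        exact h1 i (by omega)
    · rw [Function.update_of_ne hi.ne]
      rcases (Nat.lt_succ_iff.1 hi).eq_or_lt with rfl | hi
      · simpa using h4 j
      · rw [Function.update_of_ne (by omega)]
        exact h2 i hi j

theorem edge_cocycle {T : Finset S} (hT : T.card ≤ 1 + 1) {a b c : S} (ha : a ∈ T) (hb : b ∈ T)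
    (hc : c ∈ T) : edge a b * edge b c = edge a c := by
  classical
  by_cases h1 : a = b
  · rw [h1, edge_self, one_mul]
  by_cases h2 : b = c
  · rw [h2, edge_self, mul_one]
  by_cases h3 : a = c
  · rw [← h3, edge_mul_edge, edge_self]
  exfalso
  have h4 : ({a, b, c} : Finset S) ⊆ T := by
    intro x hx
    simp only [Finset.mem_insert, Finset.mem_singleton] at hx
    rcases hx with rfl | rfl | rfl <;> assumption
  have h5 := Finset.card_le_card h4
  rw [Finset.card_eq_three.2 ⟨a, b, c, h1, h3, h2, rfl⟩] at h5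
  omega

/-- Monotone chains of mesh at most `δ` and their words. -/
inductive Ch (g : ℝ → S) (δ s : ℝ) : ℝ → FreeGroup (S × S) → Prop
  | refl : Ch g δ s s 1
  | step {t u : ℝ} {w : FreeGroup (S × S)} :
      Ch g δ s t w → t ≤ u → u ≤ t + δ → Ch g δ s u (w * edge (g t) (g u))

theorem Ch.le {g : ℝ → S} {δ s t : ℝ} {w : FreeGroup (S × S)} (h : Ch g δ s t w) : s ≤ t := by
  induction h with
  | refl => exact le_rfl
  | step _ h1 _ ih => exact ih.trans h1

theorem Ch.trans {g : ℝ → S} {δ s t u : ℝ} {w w' : FreeGroup (S × S)} (h : Ch g δ s t w)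
    (h' : Ch g δ t u w') : Ch g δ s u (w * w') := by
  induction h' with
  | refl => rwa [mul_one]
  | step _ h1 h2 ih => rw [← mul_assoc]; exact ih.step h1 h2

theorem Ch.const {g : ℝ → S} {δ s t : ℝ} {w : FreeGroup (S × S)} (h : Ch g δ s t w) (c : S) :
    Ch (fun _ => c) δ s t 1 := by
  induction h with
  | refl => exact .refl
  | step _ h1 h2 ih => simpa [edge_self] using ih.step h1 h2

theorem Ch.half {g g' : ℝ → S} {δ s t c : ℝ} {w : FreeGroup (S × S)} (h : Ch g δ s t w)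
    (hg : ∀ u, s ≤ u → u ≤ t → g' ((u + c) / 2) = g u) :
    Ch g' δ ((s + c) / 2) ((t + c) / 2) w := by
  induction h with
  | refl => exact .refl
  | step h0 h1 h2 ih =>
    have h3 := h0.le
    rw [← hg _ h3 h1, ← hg _ (h3.trans h1) le_rfl]
    exact (ih fun v h4 h5 => hg v h4 (h5.trans h1)).step (by linarith only [h1]) (by linarith only [h1, h2])

theorem Ch.pot {E : Type} [PseudoMetricSpace E] {W : E → S} {K : Set E} {ρ : ℝ}
    {Φ : E → FreeGroup (S × S)}
    (hΦ : ∀ a ∈ K, ∀ b ∈ K, dist a b ≤ ρ → Φ b = Φ a * edge (W a) (W b)) {γ : ℝ → E}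
    (hγ : ∀ u v, dist (γ u) (γ v) ≤ |u - v|) {g : ℝ → S} {s t : ℝ} {w : FreeGroup (S × S)}
    (h : Ch g ρ s t w) (hK : ∀ u, s ≤ u → u ≤ t → γ u ∈ K ∧ W (γ u) = g u) :
    Φ (γ t) = Φ (γ s) * w := by
  induction h with
  | refl => rw [mul_one]
  | step h0 h1 h2 ih =>
    have h3 := h0.le
    obtain ⟨a1, a2⟩ := hK _ h3 h1
    obtain ⟨b1, b2⟩ := hK _ (h3.trans h1) le_rfl
    rw [hΦ _ a1 _ b1 ((hγ _ _).trans (abs_le.2 ⟨by linarith, by linarith⟩)),
      ih fun v h4 h5 => hK v h4 (h5.trans h1), a2, b2, mul_assoc]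

theorem Ch.of_seq (g : ℝ → S) {δ : ℝ} (x : ℕ → ℝ) (N : ℕ)
    (h : ∀ i < N, x i ≤ x (i + 1) ∧ x (i + 1) ≤ x i + δ) :
    Ch g δ (x 0) (x N) (word (fun i => g (x i)) N) := by
  induction N with
  | zero => exact .refl
  | succ N ih =>
    rw [word_succ]
    exact (ih fun i hi => h i (by omega)).step (h N (by omega)).1 (h N (by omega)).2

theorem update_const (u v : ℝ) : Function.update (fun _ : Fin (0 + 1) => u) 0 v = fun _ => v := by
  funext i
  rw [Subsingleton.elim (α := Fin 1) i 0, Function.update_self]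

theorem norm_const (u : ℝ) : ‖(fun _ => u : D 1)‖ = |u| := by
  rw [pi_norm_const, Real.norm_eq_abs]

theorem ch_pow {Z : Type} (W : Z → S) {y : Z} {f : D 1 → Z} (hf : ∀ x, 1 ≤ ‖x‖ → f x = y) {δ : ℝ}
    {w : FreeGroup (S × S)} (h : Ch (fun u => W (f fun _ => u)) δ (-1) 1 w) (m : ℕ) :
    Ch (fun u => W (powD (n := 0) y f m fun _ => u)) δ (-1) 1 (w ^ m) ∧
      powD (n := 0) y f m (fun _ => 1) = y := by
  induction m with
  | zero => rw [pow_zero]; exact ⟨h.const (W y), rfl⟩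
  | succ m ih =>
    obtain ⟨h1, h2⟩ := ih
    have k1 := h1.half (c := -1) (g' := fun u => W (powD (n := 0) y f (m + 1) fun _ => u))
      fun u _ hu => by
        simp only [powD, concatD]
        rw [if_pos (by linarith only [hu]), update_const]
        congr 3
        funext _; ring
    have k2 := h.half (c := 1) (g' := fun u => W (powD (n := 0) y f (m + 1) fun _ => u))
      fun u hu _ => by
        simp only [powD, concatD]
        split_ifs with h3
        · obtain rfl : u = -1 := by linarith only [hu, h3]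
          rw [update_const, hf _ (by rw [norm_const]; norm_num)]
          norm_num
          rw [h2]
        · rw [update_const]
          congr 3
          funext _; ring
    norm_num at k1 k2
    refine ⟨pow_succ w m ▸ k1.trans k2, ?_⟩
    simp only [powD, concatD]
    rw [if_neg (by norm_num), update_const, hf _ (by rw [norm_const]; norm_num)]

end OneA

open OneA

/-- A closed edge path with trivial word contracts in its tree. -/
theorem exists_contraction {S : Type} (R : S → S → Prop) (hr : ∀ a, R a a)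
    (hs : ∀ a b, R a b → R b a) (a : ℕ → S) (N : ℕ) (ha : ∀ i < N, R (a i) (a (i + 1)))
    (hN : a N = a 0) (hw : word a N = 1) : ∃ G : ℕ → ℕ → S, (∀ i ≤ N, G i N = a i) ∧
      (∀ i, G i 0 = a 0) ∧ (∀ j, G 0 j = a 0 ∧ G N j = a 0) ∧
      (∀ i < N, ∀ j, R (G i j) (G (i + 1) j)) ∧ ∀ i j, R (G i j) (G i (j + 1)) := by
  obtain ⟨G, d, h1, h2⟩ := exists_inv hr hs a N ha
  have h0 := h1 0 (Nat.zero_le _)
  have h3 := h1 N le_rfl
  have h4 : d N = 0 := eq_zero_of_word _ _ h3.ne1 h3.ne2 (h3.wd.trans hw)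
  refine ⟨fun i => G (min i N), fun i hi => ?_, fun i => (h1 _ (min_le_right _ _)).root,
    fun j => ⟨?_, ?_⟩, fun i hi j => ?_, fun i j => ?_⟩
  · simp only [min_eq_left hi]
    exact (h1 i hi).stab N ((h1 i hi).le.trans hi)
  · simp only [Nat.zero_min]
    exact h0.stab j (h0.le.trans (Nat.zero_le _))
  · simp only [min_self]
    rw [h3.stab j (by omega), hN]
  · simp only [min_eq_left hi.le, min_eq_left (Nat.succ_le_of_lt hi)]
    exact h2 i hi j
  · have h5 := h1 _ (min_le_right i N)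
    rcases lt_or_ge j (d (min i N)) with hj | hj
    · exact h5.rel j hj
    · simp only
      rw [h5.stab j hj, h5.stab (j + 1) (by omega)]
      exact hr _

/-- A potential for labellings with at most two labels on small balls of a convex set. -/
theorem exists_potential {S E : Type} [NormedAddCommGroup E] [NormedSpace ℝ E] (W : E → S)
    {K : Set E} (hK : Convex ℝ K) (hb : Bornology.IsBounded K) {r : ℝ} (hr : 0 < r)
    (hW : Adm 1 W K r) : ∃ Φ : E → FreeGroup (S × S),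
      ∀ a ∈ K, ∀ b ∈ K, dist a b ≤ r / 2 → Φ b = Φ a * edge (W a) (W b) := by
  rcases K.eq_empty_or_nonempty with rfl | ⟨o, ho⟩
  · exact ⟨fun _ => 1, fun a ha => absurd ha (notMem_empty a)⟩
  obtain ⟨C, hC⟩ := Metric.isBounded_iff.1 hb
  obtain ⟨N, hN⟩ := exists_nat_gt (max 0 (2 * C / r))
  have hN0 : (0 : ℝ) < N := (le_max_left _ _).trans_lt hN
  have hN1 : C / N ≤ r / 2 := by
    have := (le_max_right _ _).trans hN.le
    rw [div_le_iff₀ hr] at this
    rw [div_le_iff₀ hN0]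
    linarith only [this]
  let p : E → ℕ → E := fun x i => o + ((i : ℝ) / N) • (x - o)
  have hp : ∀ x ∈ K, ∀ i ≤ N, p x i ∈ K := fun x hx i hi =>
    hK.add_smul_sub_mem ho hx ⟨by positivity, div_le_one_of_le₀ (by exact_mod_cast hi) hN0.le⟩
  have h1 : ∀ x ∈ K, ∀ i, dist (p x (i + 1)) (p x i) ≤ r / 2 := fun x hx i => by
    have : p x (i + 1) - p x i = (N : ℝ)⁻¹ • (x - o) := by
      simp only [p]
      rw [add_sub_add_left_eq_sub, ← sub_smul]
      congr 1
      push_cast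
      ring
    rw [dist_eq_norm, this, norm_smul, norm_inv, Real.norm_natCast, ← dist_eq_norm]
    refine le_trans ?_ hN1
    rw [div_eq_inv_mul]
    exact mul_le_mul_of_nonneg_left (hC hx ho) (by positivity)
  have h2 : ∀ x y, ∀ i ≤ N, dist (p y i) (p x i) ≤ dist x y := fun x y i hi => by
    have : p y i - p x i = ((i : ℝ) / N) • (y - x) := by
      simp only [p]
      rw [add_sub_add_left_eq_sub, ← smul_sub, sub_sub_sub_cancel_right]
    rw [dist_eq_norm, this, norm_smul, ← dist_eq_norm, dist_comm, Real.norm_of_nonneg (by positivity)]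
    exact mul_le_of_le_one_left dist_nonneg (div_le_one_of_le₀ (by exact_mod_cast hi) hN0.le)
  refine ⟨fun x => word (fun i => W (p x i)) N, fun a ha b hb' hab => ?_⟩
  have key : ∀ i ≤ N, word (fun i => W (p b i)) i =
      word (fun i => W (p a i)) i * edge (W (p a i)) (W (p b i)) := by
    intro i
    induction i with
    | zero => intro _; simp [word_zero, p, edge_self]
    | succ i ih =>
      intro hi
      obtain ⟨T, hT, hm⟩ := hW _ (hp a ha i (by omega))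
      have m1 := hm _ (hp a ha i (by omega)) (by rw [dist_self]; exact hr.le)
      have m2 := hm _ (hp a ha (i + 1) hi) ((h1 a ha i).trans (by linarith only [hr]))
      have m3 := hm _ (hp b hb' i (by omega)) ((h2 a b i (by omega)).trans (by linarith only [hr, hab]))
      have m4 := hm _ (hp b hb' (i + 1) hi) ((dist_triangle _ (p a (i + 1)) _).trans
        (by linarith only [hab, h1, ha, h2, hi, h1 a ha i, h2 a b (i + 1) hi]))
      rw [word_succ, word_succ, ih (by omega), mul_assoc, mul_assoc, edge_cocycle hT m1 m3 m4,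
        edge_cocycle hT m1 m2 m4]
  have h3 : ∀ x, p x N = x := fun x => by simp [p, div_self hN0.ne']
  simpa only [h3] using key N le_rfl

/-- If a power of a loop is contractible through an admissible labelling, then the words of the
fine chains of the loop are trivial. -/
theorem word_eq_one {S Z : Type} [MetricSpace Z] (W : Z → S) {y : Z} {f : D 1 → Z} {m : ℕ}
    (hm : 1 ≤ m) (hf : ∀ x, 1 ≤ ‖x‖ → f x = y) {H : D 1 × ℝ → Z} {L ε : ℝ} (hH : Lip L H)
    (hε : 0 < ε) (hW : Adm 1 W (range H) ε) (h0 : ∀ x, H (x, 0) = powD y f m x)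
    (h1 : ∀ x, H (x, 1) = y) (hb : ∀ x t, 1 ≤ ‖x‖ → H (x, t) = y) :
    ∃ δ, 0 < δ ∧ ∀ (x : ℕ → ℝ) (N : ℕ), x 0 = -1 → x N = 1 →
      (∀ i < N, x i ≤ x (i + 1) ∧ x (i + 1) ≤ x i + δ) →
      word (fun i => W (f fun _ => x i)) N = 1 := by
  have hL : 0 < |L| + 1 := by positivity
  let K : Set (D 1 × ℝ) := closedBall 0 1 ×ˢ Icc 0 1
  obtain ⟨Φ, hΦ⟩ := exists_potential (fun z => W (H z)) (K := K)
    ((convex_closedBall _ _).prod (convex_Icc _ _)) (isBounded_closedBall.prod (isBounded_Icc _ _))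
    (div_pos hε hL) (fun z _ => by
      obtain ⟨T, hT, h⟩ := hW _ (mem_range_self z)
      refine ⟨T, hT, fun q _ hq => h _ (mem_range_self q) ((hH q z).trans ?_)⟩
      rw [le_div_iff₀ hL] at hq
      nlinarith only [hq, le_abs_self L, dist_nonneg (x := q) (y := z)])
  refine ⟨ε / (|L| + 1) / 2, by positivity, fun x N hx0 hxN hx => ?_⟩
  have c0 := Ch.of_seq (fun u => W (f fun _ => u)) x N hx
  rw [hx0, hxN] at c0
  have hor : ∀ t u v : ℝ, dist (((fun _ => u : D 1), t)) ((fun _ => v : D 1), t) ≤ |u - v| :=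
    fun t u v => by rw [Prod.dist_eq, dist_self, dist_pi_const, Real.dist_eq]; simp
  have ver : ∀ (z : D 1) (u v : ℝ), dist (z, (u + 1) / 2) (z, (v + 1) / 2) ≤ |u - v| :=
    fun z u v => by
      rw [Prod.dist_eq, dist_self, Real.dist_eq, show (u + 1) / 2 - (v + 1) / 2 = (u - v) / 2 by ring,
        abs_div, abs_two]
      exact max_le (abs_nonneg _) (half_le_self (abs_nonneg _))
  have mem : ∀ u t : ℝ, -1 ≤ u → u ≤ 1 → 0 ≤ t → t ≤ 1 → ((fun _ => u : D 1), t) ∈ K :=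
    fun u t h1 h2 h3 h4 => ⟨by rw [mem_closedBall_zero_iff, norm_const, abs_le]; exact ⟨h1, h2⟩,
      h3, h4⟩
  have e1 := Ch.pot hΦ (hor 0) (ch_pow W hf c0 m).1
    fun u a b => ⟨mem u 0 a b le_rfl zero_le_one, by rw [h0]⟩
  have e2 := Ch.pot hΦ (hor 1) (c0.const (W y))
    fun u a b => ⟨mem u 1 a b zero_le_one le_rfl, by rw [h1]⟩
  have e3 := Ch.pot hΦ (ver fun _ => -1) (c0.const (W y))
    fun u a b => ⟨mem _ _ le_rfl (by norm_num) (by linarith only [a]) (by linarith only [b]),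
      by rw [hb _ _ (by rw [norm_const]; norm_num)]⟩
  have e4 := Ch.pot hΦ (ver fun _ => 1) (c0.const (W y))
    fun u a b => ⟨mem _ _ (by norm_num) le_rfl (by linarith only [a]) (by linarith only [b]),
      by rw [hb _ _ (by rw [norm_const]; norm_num)]⟩
  rw [show ((1 : ℝ) + 1) / 2 = 1 by norm_num, show ((-1 : ℝ) + 1) / 2 = 0 by norm_num,
    mul_one] at e3 e4
  rw [mul_one] at e2
  rw [← e4, e2, e3, left_eq_mul] at e1
  exact (pow_eq_one_iff_left (by omega)).1 e1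

end Pool.Agent.Work.MP_4b5e6c_gt
end

-- merged part: Pool.Agent.Work.MP_4b5e6c_gt.OneB
section
/-! Task ONEB: a short edge path with trivial word that approximates the loop. -/

namespace Pool.Agent.Work.MP_4b5e6c_gt
open Metric Set

namespace OneB

section Words
variable {S : Type}

theorem edge_self (a : S) : edge a a = 1 := mul_inv_cancel _

theorem edge_tri {T : Finset S} (hT : T.card ≤ 2) {p q r : S} (hp : p ∈ T) (hq : q ∈ T)
    (hr : r ∈ T) : edge p q * edge q r = edge p r := by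
  by_cases h1 : p = q
  · rw [h1, edge_self, one_mul]
  by_cases h2 : q = r
  · rw [h2, edge_self, mul_one]
  by_cases h3 : p = r
  · rw [h3, edge_self]; simp [edge]
  exact absurd (Finset.two_lt_card.2 ⟨p, hp, q, hq, r, hr, h1, h3, h2⟩) (not_lt.2 hT)

theorem word_succ (a : ℕ → S) (N : ℕ) : word a (N + 1) = word a N * edge (a N) (a (N + 1)) := by
  simp [word, List.range_succ]

theorem tele (Φ : ℕ → FreeGroup (S × S)) (a : ℕ → S) (N : ℕ)
    (h : ∀ k < N, Φ (k + 1) = Φ k * edge (a k) (a (k + 1))) : Φ N = Φ 0 * word a N := by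
  induction N with
  | zero => simp [word]
  | succ N ih => rw [h N (by omega), ih fun k hk => h k (by omega), word_succ, mul_assoc]

theorem word_conj (a b : ℕ → S) (N : ℕ) (ha : a N = a 0) (hb : b N = b 0) (hw : word b N = 1)
    (h : ∀ k < N, ∃ T : Finset S, T.card ≤ 2 ∧ a k ∈ T ∧ b k ∈ T ∧ a (k + 1) ∈ T ∧
      b (k + 1) ∈ T) : word a N = 1 := by
  have := tele (fun k => word b k * edge (b k) (a k)) a N fun k hk => by
    obtain ⟨T, h0, h1, h2, h3, h4⟩ := h k hk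
    rw [word_succ, mul_assoc, mul_assoc, edge_tri h0 h2 h4 h3, edge_tri h0 h2 h1 h3]
  simp only [hw, ha, hb, one_mul] at this
  rw [show word b 0 = 1 from rfl, one_mul] at this
  exact mul_left_cancel (this.symm.trans (mul_one _).symm)

theorem word_map {S' : Type} (g : S → S') (a : ℕ → S) (N : ℕ) :
    FreeGroup.map (Prod.map g g) (word a N) = word (fun i => g (a i)) N := by
  induction N with
  | zero => simp [word]
  | succ N ih => rw [word_succ, word_succ, map_mul, ih]; simp [edge]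

end Words

theorem sub (N1 B : ℕ) (hN : 1 ≤ N1) (hB : 1 ≤ B) (ch : ℕ → Prop) [DecidablePred ch] :
    ∃ (N : ℕ) (j : ℕ → ℕ), 1 ≤ N ∧ N ≤ N1 / B + 1 + 2 * ((Finset.range N1).filter ch).card ∧
      j 0 = 0 ∧ j N = N1 ∧ (∀ k ≤ N, j k ≤ N1) ∧ ∀ k, j k ≤ j (k + 1) ∧ j (k + 1) ≤ j k + B ∧
        (j (k + 1) = j k + 1 ∨ ∀ i, j k ≤ i → i < j (k + 1) → ¬ ch i) := by
  classical
  set p : ℕ → Prop := fun i => B ∣ i ∨ ch i ∨ (1 ≤ i ∧ ch (i - 1)) ∨ N1 ≤ i with hp
  have hi : (Set.ofPred p).Infinite :=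
    (Set.Ici_infinite N1).mono fun i hi => Or.inr (Or.inr (Or.inr hi))
  have hs := Nat.nth_strictMono hi
  have e0 : Nat.nth p 0 = 0 := Nat.nth_zero_of_zero (Or.inl (dvd_zero B))
  have e1 : Nat.nth p (Nat.count p N1) = N1 := Nat.nth_count (Or.inr (Or.inr (Or.inr le_rfl)))
  refine ⟨Nat.count p N1, Nat.nth p, ?_, ?_, e0, e1, fun k hk => (hs.monotone hk).trans e1.le,
    fun k => ⟨hs.monotone (by omega), ?_, ?_⟩⟩
  · by_contra h
    have : Nat.count p N1 = 0 := by omega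
    rw [this] at e1
    omega
  · rw [Nat.count_eq_card_filter_range]
    have h1 : (Finset.range N1).filter p ⊆
        (((Finset.range (N1 / B + 1)).image fun q => B * q) ∪ (Finset.range N1).filter ch) ∪
          ((Finset.range N1).filter ch).image fun i => i + 1 := by
      intro i hi
      obtain ⟨h2, h3⟩ := Finset.mem_filter.1 hi
      have h4 := Finset.mem_range.1 h2
      simp only [Finset.mem_union, Finset.mem_image, Finset.mem_filter, Finset.mem_range]
      rcases h3 with ⟨q, rfl⟩ | h3 | h3 | h3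
      · refine Or.inl (Or.inl ⟨q, Nat.lt_succ_of_le ((Nat.le_div_iff_mul_le hB).2 ?_), rfl⟩)
        rw [mul_comm]; exact h4.le
      · exact Or.inl (Or.inr ⟨h4, h3⟩)
      · exact Or.inr ⟨i - 1, ⟨by omega, h3.2⟩, by omega⟩
      · omega
    have h2 := Finset.card_le_card h1
    have h3 := Finset.card_union_le (((Finset.range (N1 / B + 1)).image fun q => B * q) ∪
      (Finset.range N1).filter ch) (((Finset.range N1).filter ch).image fun i => i + 1)
    have h4 := Finset.card_union_le ((Finset.range (N1 / B + 1)).image fun q => B * q)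
      ((Finset.range N1).filter ch)
    have h5 := Finset.card_image_le (s := Finset.range (N1 / B + 1)) (f := fun q => B * q)
    have h6 := Finset.card_image_le (s := (Finset.range N1).filter ch) (f := fun i => i + 1)
    rw [Finset.card_range] at h5
    refine le_trans (le_of_eq_of_le ?_ h2) (by omega)
    congr
  · by_contra h
    have h1 := Nat.lt_mul_div_succ (Nat.nth p k) hB
    have h2 := Nat.mul_div_le (Nat.nth p k) B
    have h3 : B * (Nat.nth p k / B + 1) = B * (Nat.nth p k / B) + B := by ring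
    have h4 := Nat.le_nth_of_lt_nth_succ (p := p) (k := k) (a := B * (Nat.nth p k / B + 1))
      (by omega) (Or.inl (dvd_mul_right _ _))
    omega
  · by_contra h
    push Not at h
    obtain ⟨h1, i, h2, h3, h4⟩ := h
    have h5 := Nat.le_nth_of_lt_nth_succ h3 (Or.inr (Or.inl h4))
    have h6 := Nat.le_nth_of_lt_nth_succ (p := p) (k := k) (a := i + 1) (by omega)
      (Or.inr (Or.inr (Or.inl ⟨by omega, by simpa using h4⟩)))
    omega

/-- The points of the uniform grid of `[-1, 1]`. -/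
noncomputable def gr (N i : ℕ) : ℝ := -1 + i * (2 / N)

theorem gr_zero (N : ℕ) : gr N 0 = -1 := by simp [gr]

theorem gr_last {N : ℕ} (hN : 1 ≤ N) : gr N N = 1 := by
  have : (0 : ℝ) < N := by exact_mod_cast hN
  rw [gr]; field_simp; ring

theorem gr_succ (N i : ℕ) : gr N (i + 1) = gr N i + 2 / N := by
  rw [gr, gr]; push_cast; ring

theorem gr_mono (N : ℕ) {i j : ℕ} (h : i ≤ j) : gr N i ≤ gr N j := by
  have : (i : ℝ) ≤ j := by exact_mod_cast h
  unfold gr
  gcongr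

theorem gr_mem {N i : ℕ} (hN : 1 ≤ N) (h : i ≤ N) :
    (fun _ => gr N i : D 1) ∈ closedBall (0 : D 1) 1 := by
  rw [mem_closedBall_zero_iff, pi_norm_const, Real.norm_eq_abs, abs_le]
  exact ⟨(gr_zero N).ge.trans (gr_mono N (Nat.zero_le i)), (gr_mono N h).trans (gr_last hN).le⟩

theorem gr_dist (N i : ℕ) : dist (fun _ => gr N i : D 1) (fun _ => gr N (i + 1)) = 2 / N := by
  rw [dist_pi_const, gr_succ, Real.dist_eq, abs_sub_comm, add_sub_cancel_left,
    abs_of_nonneg (by positivity)]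

variable {X : Type} [MetricSpace X] {y : X} {L : ℝ} {f : D 1 → X}

theorem at_zero (hf : Item y L f) (N : ℕ) : f (fun _ => gr N 0) = y :=
  hf.2 _ (by rw [pi_norm_const, gr_zero]; simp)

theorem at_last (hf : Item y L f) {N : ℕ} (hN : 1 ≤ N) : f (fun _ => gr N N) = y :=
  hf.2 _ (by rw [pi_norm_const, gr_last hN]; simp)

theorem near_gr (hf : Item y L f) (hL : 0 < L) {N : ℕ} (hN : 1 ≤ N) (x : D 1) :
    ∃ i ≤ N, dist (f x) (f fun _ => gr N i) ≤ L * (2 / N) := by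
  have hN' : (0 : ℝ) < N := by exact_mod_cast hN
  rcases le_or_gt 1 ‖x‖ with h | h
  · exact ⟨0, Nat.zero_le _, by rw [at_zero hf, hf.2 x h, dist_self]; positivity⟩
  have hx : x = fun _ => x 0 := funext fun i => by rw [Subsingleton.elim i 0]
  have h1 : |x 0| < 1 := by rwa [hx, pi_norm_const, Real.norm_eq_abs] at h
  rw [abs_lt] at h1
  have h2' : 0 ≤ x 0 + 1 := by linarith only [h1, h1.1]
  have h2 : 0 ≤ (x 0 + 1) * N / 2 := by positivity
  have h3 := Nat.floor_le h2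
  have h4 := Nat.lt_floor_add_one ((x 0 + 1) * N / 2)
  refine ⟨⌊(x 0 + 1) * N / 2⌋₊, Nat.floor_le_of_le (by linarith only [h1, mul_nonneg_of_nonpos_of_nonpos (Mathlib.Tactic.Linarith.sub_nonpos_of_le (Mathlib.Tactic.Linarith.natCast_nonneg ℝ N)) (le_of_lt (Mathlib.Tactic.Linarith.sub_neg_of_lt h1.right))]), (hf.1 _ _).trans ?_⟩
  gcongr
  generalize (⌊(x 0 + 1) * N / 2⌋₊ : ℕ) = i at h3 h4
  rw [hx, dist_pi_const, Real.dist_eq, gr]
  have e : x 0 - (-1 + i * (2 / N)) = ((x 0 + 1) * N / 2 - i) * (2 / N) := by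
    field_simp; ring
  rw [e, abs_of_nonneg (mul_nonneg (by linarith only [h3]) (by positivity))]
  exact mul_le_of_le_one_left (by positivity) (by linarith only [h4])

theorem lip_g {ε ρ : ℝ} (hε : 0 < ε) {p z : X} (h : dist p z ≤ ρ) (v : X) :
    dist p v / ε ≤ dist z v / ε + ρ / ε := by
  rw [← add_div]
  gcongr
  linarith [dist_triangle p z v]

open Classical in
theorem label (G : Good 1 X) : ∃ C : ℝ, 1 ≤ C ∧ ∀ (y : X) (L : ℝ) (f : D 1 → X) (ε : ℝ),
    Item y L f → 0 < ε → ε ≤ L → ∃ (N : ℕ) (V : X → X), 1 ≤ N ∧ L * (2 / N) ≤ ε ∧ V y = y ∧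
      (∀ p ∈ range f, dist (V p) p ≤ 2 * ε) ∧ Adm 1 V (range f) (L * (2 * (2 / N))) ∧
      (((Finset.range N).filter fun i =>
        V (f fun _ => gr N i) ≠ V (f fun _ => gr N (i + 1))).card : ℝ) * ε ≤ C * L := by
  obtain ⟨M, hM⟩ := G.doubling 3
  obtain ⟨C, hC, hg⟩ := greedy M
  refine ⟨24 * M ^ 2 * C + 1, by linarith only [hC, sq_nonneg (M : ℝ), sq_nonneg ↑M, mul_nonneg_of_nonpos_of_nonpos (Mathlib.Tactic.Linarith.sub_nonpos_of_le (sq_nonneg ↑M)) (Mathlib.Tactic.Linarith.sub_nonpos_of_le hC)], fun y L f ε hf hε hεL => ?_⟩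
  have hL : 0 < L := hε.trans_le hεL
  have hK : IsCompact (range f) := Cpt.isCompact_range ⟨1, hf.2⟩ hf.1
  have hy : y ∈ range f := ⟨_, at_zero hf 1⟩
  obtain ⟨s, s1, -, s3, s4⟩ := exists_net (range f) hK.totallyBounded (fun _ => ε) hε
    (fun _ _ => le_rfl) {y} (by simpa using hy) (by simp)
  simp only [max_self] at s3 s4
  have ys : y ∈ s := s1 (Finset.mem_singleton_self y)
  set u := 12 * C * L / ε with hu
  have hu1 : 12 ≤ u := by rw [hu, le_div_iff₀ hε]; linarith only [hεL, hC, hε, mul_nonneg_of_nonpos_of_nonpos (Mathlib.Tactic.Linarith.sub_nonpos_of_le hC) (le_of_lt (Mathlib.Tactic.Linarith.sub_neg_of_lt hε)), mul_nonneg_of_nonpos_of_nonpos (Mathlib.Tactic.Linarith.sub_nonpos_of_le hC) (Mathlib.Tactic.Linarith.sub_nonpos_of_le hεL)]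
  obtain ⟨N, hN⟩ := exists_nat_gt (2 * u ^ 2)
  have hN0 : (1 : ℝ) ≤ N := by linarith only [hu1, hN, sq_nonneg u, mul_nonneg_of_nonpos_of_nonpos (Mathlib.Tactic.Linarith.sub_nonpos_of_le hu1) (Mathlib.Tactic.Linarith.sub_nonpos_of_le hu1)]
  have hN1 : 1 ≤ N := by exact_mod_cast hN0
  set z : ℕ → X := fun i => f fun _ => gr N i with hz
  set ρ := 3 * (L * (2 / N)) with hρ
  have hρ0 : 0 < ρ := by positivity
  set a := 2 * (ρ / ε) with ha
  have ha0 : 0 < a := by positivity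
  have hCa : C * a = u / N := by rw [ha, hρ, hu]; field_simp; ring
  have ha1 : a ≤ 1 / 2 := by
    have h1 : u / N ≤ 1 / 2 := by rw [div_le_iff₀ (by linarith only [hN0])]; linarith only [hu1, hN, mul_nonneg_of_nonpos_of_nonpos (Mathlib.Tactic.Linarith.sub_nonpos_of_le hu1) (Mathlib.Tactic.Linarith.sub_nonpos_of_le hu1)]
    linarith only [hCa, h1, hC, ha0, mul_nonneg_of_nonpos_of_nonpos (Mathlib.Tactic.Linarith.sub_nonpos_of_le hC) (le_of_lt (Mathlib.Tactic.Linarith.sub_neg_of_lt ha0))]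
  choose c c1 c2 using fun i => s4 (z i) ⟨_, rfl⟩
  set Nb : X → Finset X := fun w => s.filter fun v => dist v w ≤ 3 * ε with hNb
  have hNbM : ∀ w, (Nb w).card ≤ M := fun w => hM w ε hε _ (fun q hq => (Finset.mem_filter.1 hq).2)
    fun q hq q' hq' => s3 q (Finset.mem_filter.1 hq).1 q' (Finset.mem_filter.1 hq').1
  set Ω : X → Finset ℕ := fun w => (Finset.range (N + 1)).filter fun i => c i = w with hΩ
  obtain ⟨t, t1, t2⟩ := hg X X ℕ s Ω Nb (fun _ => a) (fun _ v i => dist (z i) v / ε)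
    (fun θ _ => ⟨ha0, hNbM θ⟩) fun v => (Finset.card_le_card fun w hw => Finset.mem_filter.2
      ⟨(Finset.mem_filter.1 hw).1, by
        rw [dist_comm]; exact (Finset.mem_filter.1 (Finset.mem_filter.1 hw).2).2⟩).trans (hNbM v)
  choose V V1 V2 using fun p => s.exists_min_image (fun v => dist p v / ε + t v) ⟨y, ys⟩
  set T : ℕ → Finset X := fun i => s.filter fun v =>
    ∀ w ∈ s, dist (z i) v / ε + t v ≤ dist (z i) w / ε + t w + a with hT
  have T1 : ∀ i p, dist p (z i) ≤ ρ → V p ∈ T i := fun i p h =>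
    Finset.mem_filter.2 ⟨V1 p, fun w hw => by
      linarith only [V2, hw, hε, h, V2 p w hw, lip_g hε h w, lip_g hε ((dist_comm _ _).trans_le h) (V p)]⟩
  have T2 : ∀ i, T i ⊆ Nb (c i) := fun i v hv => by
    obtain ⟨h1, h2⟩ := Finset.mem_filter.1 hv
    refine Finset.mem_filter.2 ⟨h1, ?_⟩
    have h3 : dist (z i) (c i) / ε < 1 := (div_lt_one hε).2 (c2 i)
    have h4 : dist (z i) v / ε ≤ 2 := by linarith only [ha1, h3, h2, c1, t1, h2 _ (c1 i), (t1 v).1, (t1 (c i)).2]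
    rw [div_le_iff₀ hε] at h4
    linarith only [h4, c2, dist_triangle_left v (c i) (z i), c2 i]
  have T3 : ∀ i, ∀ τ ⊆ T i, Tie (fun v i => dist (z i) v / ε) t a τ i := fun i τ h v hv w hw => by
    obtain ⟨h1, h2⟩ := Finset.mem_filter.1 (h hv)
    obtain ⟨h3, h4⟩ := Finset.mem_filter.1 (h hw)
    rw [abs_le]
    constructor <;> linarith only [h4, h1, h2, h3, h2 w h3, h4 v h1]
  have mΩ : ∀ i ≤ N, i ∈ Ω (c i) := fun i hi =>
    Finset.mem_filter.2 ⟨Finset.mem_range.2 (by omega), rfl⟩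
  have T4 : ∀ i ≤ N, (T i).card ≤ 1 + 1 := fun i hi => by
    by_contra h
    obtain ⟨τ, h1, h2⟩ := Finset.exists_subset_card_eq (show 3 ≤ (T i).card by omega)
    have h3 := t2 _ (c1 i) τ (h1.trans (T2 i)) (Finset.card_pos.1 (by omega))
    have h4 : (1 : ℝ) ≤ ((Ω (c i)).filter fun x =>
        Tie (fun v i => dist (z i) v / ε) t a τ x).card := by
      exact_mod_cast Finset.card_pos.2 ⟨i, Finset.mem_filter.2 ⟨mΩ i hi, T3 i τ h1⟩⟩
    have h5 : ((Ω (c i)).card : ℝ) ≤ 2 * N := by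
      have h6 := Finset.card_filter_le (Finset.range (N + 1)) fun j => c j = c i
      rw [Finset.card_range] at h6
      have h7 : (Ω (c i)).card ≤ 2 * N := h6.trans (by omega)
      exact_mod_cast h7
    rw [h2, hCa] at h3
    have h6 : (u / N) ^ (3 - 1) * (2 * N) < 1 := by
      have e : (u / N) ^ (3 - 1) * (2 * N) = 2 * u ^ 2 / N := by
        norm_num; field_simp
      rw [e, div_lt_one (by linarith only [hN0, ha0, ha1])]
      exact hN
    have h7 := mul_le_mul_of_nonneg_left h5 (show 0 ≤ (u / N) ^ (3 - 1) by positivity)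
    linarith only [h3, h4, h6, h7]
  refine ⟨N, V, hN1, ?_, ?_, ?_, ?_, ?_⟩
  · have h1 : ρ / ε ≤ 1 := by linarith only [ha0, ha1]
    rw [div_le_one hε] at h1
    linarith only [hε, h1]
  · by_contra h
    have h1 := V2 y y ys
    have h2 := (one_le_div hε).2 (s3 y ys (V y) (V1 y) (Ne.symm h))
    rw [dist_self, zero_div] at h1
    linarith only [ha0, ha1, h1, h2, t1, (t1 y).2, (t1 (V y)).1]
  · intro p hp
    obtain ⟨q, h1, h2⟩ := s4 p hp
    have h3 : dist p q / ε < 1 := (div_lt_one hε).2 h2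
    have h4 : dist p (V p) / ε ≤ 2 := by linarith only [ha0, ha1, h3, V2, h1, t1, V2 p q h1, (t1 q).2, (t1 (V p)).1]
    rwa [div_le_iff₀ hε, dist_comm] at h4
  · rintro _ ⟨x, rfl⟩
    obtain ⟨i, hi, h1⟩ := near_gr hf hL hN1 x
    exact ⟨T i, T4 i hi, fun p _ h2 => T1 i p (by linarith only [h1, h2, dist_triangle p (f x) (z i)])⟩
  · have h1 : ((Finset.range N).filter fun i => V (z i) ≠ V (z (i + 1))) ⊆
        s.biUnion fun w => ((Nb w).powersetCard 2).biUnion fun τ =>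
          (Ω w).filter fun x => Tie (fun v i => dist (z i) v / ε) t a τ x := by
      intro i hi
      obtain ⟨h2, h3⟩ := Finset.mem_filter.1 hi
      have h4 : dist (z (i + 1)) (z i) ≤ ρ := by
        have := hf.1 (fun _ => gr N i) fun _ => gr N (i + 1)
        rw [gr_dist] at this
        rw [dist_comm]
        linarith only [hρ0, this]
      have h5 : {V (z i), V (z (i + 1))} ⊆ T i := Finset.insert_subset
        (T1 i _ (by rw [dist_self]; exact hρ0.le)) (Finset.singleton_subset_iff.2 (T1 i _ h4))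
      exact Finset.mem_biUnion.2 ⟨c i, c1 i, Finset.mem_biUnion.2 ⟨_, Finset.mem_powersetCard.2
        ⟨h5.trans (T2 i), Finset.card_pair h3⟩, Finset.mem_filter.2
          ⟨mΩ i (Finset.mem_range.1 h2).le, T3 i _ h5⟩⟩⟩
    have h2 : ∀ w ∈ s, ((((Nb w).powersetCard 2).biUnion fun τ => (Ω w).filter fun x =>
        Tie (fun v i => dist (z i) v / ε) t a τ x).card : ℝ) ≤ M ^ 2 * (u / N) * (Ω w).card := by
      intro w hw
      refine (Nat.cast_le.2 Finset.card_biUnion_le).trans ?_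
      rw [Nat.cast_sum]
      refine (Finset.sum_le_card_nsmul _ _ (u / N * (Ω w).card) fun τ hτ => ?_).trans ?_
      · obtain ⟨h3, h4⟩ := Finset.mem_powersetCard.1 hτ
        have h5 := t2 w hw τ h3 (Finset.card_pos.1 (by omega))
        rwa [h4, hCa, show 2 - 1 = 1 from rfl, pow_one] at h5
      · rw [nsmul_eq_mul, mul_assoc, Finset.card_powersetCard]
        gcongr
        exact_mod_cast (Nat.choose_le_pow _ _).trans (Nat.pow_le_pow_left (hNbM w) 2)
    have h3 : ∑ w ∈ s, ((Ω w).card : ℝ) = N + 1 := by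
      have := Finset.card_eq_sum_card_fiberwise (f := c) (s := Finset.range (N + 1)) (t := s)
        fun i _ => c1 i
      rw [Finset.card_range] at this
      exact_mod_cast this.symm
    have h4 : (((Finset.range N).filter fun i => V (z i) ≠ V (z (i + 1))).card : ℝ) ≤
        M ^ 2 * (u / N) * (2 * N) := by
      refine (Nat.cast_le.2 ((Finset.card_le_card h1).trans Finset.card_biUnion_le)).trans ?_
      rw [Nat.cast_sum]
      refine (Finset.sum_le_sum h2).trans ?_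
      rw [← Finset.mul_sum, h3]
      gcongr
      linarith only [hN0]
    refine (mul_le_mul_of_nonneg_right h4 hε.le).trans ?_
    have e : (M : ℝ) ^ 2 * (u / N) * (2 * N) * ε = 24 * M ^ 2 * C * L := by
      rw [hu]; field_simp; ring
    rw [e]
    linarith only [hε, hεL]

theorem fine (G : Good 1 X) (hf : Item y L f) (hL : 0 < L) {m : ℕ} (hm : 1 ≤ m) {L' : ℝ}
    (hH : Hty L' 0 1 (ball 0 1) (powD y f m) fun _ => y) {V : X → X} {ε : ℝ} (hε : 0 < ε)
    (hV : Adm 1 V (range f) ε) {η : ℝ} (hη : 0 < η) :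
    ∃ N : ℕ, 1 ≤ N ∧ 2 / (N : ℝ) ≤ η ∧ word (fun i => V (f fun _ => gr N i)) N = 1 := by
  obtain ⟨H, h1, h2, h3, h4⟩ := hH
  have hl : Lip L' H := lip_iff_aLip.2 h1
  have hb : ∀ x t, 1 ≤ ‖x‖ → H (x, t) = y := fun x t hx => by
    rw [h4 x t (by simpa using hx)]
    exact (item_powD hL.le hf m).2 x hx
  have hc : IsCompact (range H) := by
    have e : range H = H '' (closedBall 0 1 ×ˢ Icc 0 1) := by
      refine Subset.antisymm ?_ (image_subset_range _ _)
      rintro _ ⟨⟨x, t⟩, rfl⟩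
      have h5 : y ∈ H '' (closedBall 0 1 ×ˢ Icc 0 1) := ⟨(0, 1), by simp, h3 _ _ le_rfl⟩
      rcases le_or_gt 1 ‖x‖ with c | c
      · rwa [hb x t c]
      rcases le_or_gt 1 t with d | d
      · rwa [h3 x t d]
      rcases le_or_gt t 0 with e | e
      · exact ⟨(x, 0), by simpa using c.le, by rw [h2 x t e, h2 x 0 le_rfl]⟩
      · exact ⟨(x, t), ⟨by simpa using c.le, e.le, d.le⟩, rfl⟩
    rw [e]
    exact ((isCompact_closedBall _ _).prod isCompact_Icc).image hl.continuous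
  obtain ⟨W, ε', e0, a1, a2, -⟩ := ext_label (Cpt.isCompact_range ⟨1, hf.2⟩ hf.1)
    (range_nonempty f) hc (G.thin_prod hl) hε one_pos hV
  obtain ⟨δ, hδ, hw⟩ := word_eq_one W hm hf.2 hl e0 a1 (fun x => h2 x 0 le_rfl)
    (fun x => h3 x 1 le_rfl) hb
  have hμ : 0 < min η (min δ (ε' / L)) := by positivity
  obtain ⟨N, hN⟩ := exists_nat_gt (2 / min η (min δ (ε' / L)))
  have hN0 : (0 : ℝ) < N := lt_trans (by positivity) hN
  have hN1 : 1 ≤ N := by exact_mod_cast hN0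
  rw [div_lt_comm₀ hμ hN0, lt_min_iff, lt_min_iff, lt_div_iff₀ hL] at hN
  refine ⟨N, hN1, hN.1.le, ?_⟩
  have w1 := hw (gr N) N (gr_zero N) (gr_last hN1) fun i _ =>
    ⟨gr_mono N (by omega), by rw [gr_succ]; linarith only [hN, hN.2.1]⟩
  have w2 := word_conj (fun i => some (V (f fun _ => gr N i))) _ N
    (by simp only [at_zero hf, at_last hf hN1]) (by simp only [at_zero hf, at_last hf hN1]) w1
    fun k _ => by
      obtain ⟨T, t1, t2⟩ := a2 (f fun _ => gr N k) ⟨_, rfl⟩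
      have b1 := t2 _ ⟨fun _ => gr N k, rfl⟩ (by rw [dist_self]; exact e0.le)
      have b2 := t2 _ ⟨fun _ => gr N (k + 1), rfl⟩ (by
        have := hf.1 (fun _ => gr N k) fun _ => gr N (k + 1)
        rw [gr_dist] at this
        rw [dist_comm]
        linarith only [hN, this, hN.2.2])
      exact ⟨T, t1, b1.1, b1.2, b2.1, b2.2⟩
  have w3 := word_map (fun o : Option X => o.getD y) (fun i => some (V (f fun _ => gr N i))) N
  rw [w2, map_one] at w3
  exact w3.symm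

end OneB

open OneB in
theorem Good.exists_chain {X : Type} [MetricSpace X] (G : Good 1 X) : ∃ C : ℝ, 1 ≤ C ∧
    ∀ (y : X) (L : ℝ) (f : D 1 → X) (m : ℕ), 1 ≤ m → 0 < L → Item y L f →
      (∃ L', Hty L' 0 1 (ball 0 1) (powD y f m) fun _ => y) → ∀ ε, 0 < ε → ε ≤ L →
      ∃ (N : ℕ) (x : ℕ → ℝ) (a : ℕ → X), 1 ≤ N ∧ N * ε ≤ C * L ∧ x 0 = -1 ∧ x N = 1 ∧
        (∀ i < N, x i ≤ x (i + 1) ∧ L * (x (i + 1) - x i) ≤ ε) ∧ a 0 = y ∧ a N = y ∧
        (∀ i ≤ N, dist (a i) (f fun _ => x i) ≤ C * ε) ∧ word a N = 1 := by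
  classical
  obtain ⟨C, hC, hl⟩ := label G
  refine ⟨5 + 2 * C, by linarith only [hC], fun y L f m hm hL hf ⟨L', hH⟩ ε hε hεL => ?_⟩
  obtain ⟨N1, V, n1, n2, v1, v2, v3, v4⟩ := hl y L f ε hf hε hεL
  have n0 : (0 : ℝ) < N1 := by exact_mod_cast n1
  have h0 : 0 < L * (2 / N1) := by positivity
  obtain ⟨Φ, hΦ⟩ := exists_potential (fun x => V (f x)) (convex_closedBall (0 : D 1) 1)
    isBounded_closedBall (r := 2 * (2 / N1)) (by positivity)
    ((v3.comp hf.1 Subset.rfl hL.le le_rfl).mono (subset_univ _) le_rfl)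
  have step : ∀ N : ℕ, 1 ≤ N → 2 / (N : ℝ) ≤ 2 / N1 → ∀ i < N, Φ (fun _ => gr N (i + 1)) =
      Φ (fun _ => gr N i) * edge (V (f fun _ => gr N i)) (V (f fun _ => gr N (i + 1))) :=
    fun N a b i c => hΦ _ (gr_mem a c.le) _ (gr_mem a c) (by rw [gr_dist]; linarith only [b])
  obtain ⟨N2, m1, m2, m3⟩ := fine G hf hL hm hH (by positivity) v3 (η := 2 / N1) (by positivity)
  have e1 := tele (fun i => Φ fun _ => gr N2 i) _ N2 (step N2 m1 m2)
  simp only [m3, mul_one, gr_zero, gr_last m1] at e1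
  set B := ⌊ε / (L * (2 / N1))⌋₊ with hB
  have b1 : 1 ≤ ε / (L * (2 / N1)) := (one_le_div h0).2 n2
  have b2 : 1 ≤ B := Nat.le_floor (by simpa using b1)
  have b3 : (B : ℝ) * (L * (2 / N1)) ≤ ε := (le_div_iff₀ h0).1 (Nat.floor_le (by positivity))
  have b4 : ε < (B + 1) * (L * (2 / N1)) := (div_lt_iff₀ h0).1 (Nat.lt_floor_add_one _)
  have b5 : (1 : ℝ) ≤ B := by exact_mod_cast b2
  obtain ⟨N, j, j1, j2, j3, j4, j5, j6⟩ := sub N1 B n1 b2
    fun i => V (f fun _ => gr N1 i) ≠ V (f fun _ => gr N1 (i + 1))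
  refine ⟨N, fun k => gr N1 (j k), fun k => V (f fun _ => gr N1 (j k)), j1, ?_, ?_, ?_,
    fun k _ => ⟨gr_mono _ (j6 k).1, ?_⟩, ?_, ?_, fun k _ => ?_, ?_⟩
  · have c1 : ((N1 / B : ℕ) : ℝ) * B ≤ N1 := by exact_mod_cast Nat.div_mul_le_self N1 B
    have c2 : ((N1 / B : ℕ) : ℝ) * ε ≤ 4 * L := by
      have c3 : ε ≤ 2 * B * (L * (2 / N1)) := by (refine le_of_not_gt fun h_nl => ?_; linarith only [h_nl, b4, hε, b5, mul_nonneg_of_nonpos_of_nonpos (Mathlib.Tactic.Linarith.sub_nonpos_of_le (Mathlib.Tactic.Linarith.natCast_nonneg ℝ B)) (le_of_lt (Mathlib.Tactic.Linarith.sub_neg_of_lt b4)), mul_nonneg_of_nonpos_of_nonpos (Mathlib.Tactic.Linarith.sub_nonpos_of_le (Mathlib.Tactic.Linarith.natCast_nonneg ℝ B)) (le_of_lt (Mathlib.Tactic.Linarith.sub_neg_of_lt h_nl)), mul_nonneg_of_nonpos_of_nonpos (le_of_lt (Mathlib.Tactic.Linarith.sub_neg_of_lt hε)) (Mathlib.Tactic.Linarith.sub_nonpos_of_le b5)])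
      calc ((N1 / B : ℕ) : ℝ) * ε ≤ (N1 / B : ℕ) * (2 * B * (L * (2 / N1))) := by gcongr
        _ = (N1 / B : ℕ) * B * (4 * L / N1) := by ring
        _ ≤ N1 * (4 * L / N1) := by gcongr
        _ = 4 * L := by field_simp
    have c3 := mul_le_mul_of_nonneg_right (Nat.cast_le (α := ℝ).2 j2) hε.le
    rw [Nat.cast_add, Nat.cast_add, Nat.cast_mul, Nat.cast_one, Nat.cast_ofNat] at c3
    linarith only [hεL, v4, c2, c3]
  · simp only [j3, gr_zero]
  · simp only [j4, gr_last n1]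
  · have c1 : (j (k + 1) : ℝ) ≤ j k + B := by exact_mod_cast (j6 k).2.1
    have c2 := mul_le_mul_of_nonneg_right c1 h0.le
    simp only [gr]
    linarith only [b3, c2]
  · simp only [j3, at_zero hf, v1]
  · simp only [j4, at_last hf n1, v1]
  · exact (v2 _ ⟨_, rfl⟩).trans (by linarith only [hε, hC, mul_nonneg_of_nonpos_of_nonpos (Mathlib.Tactic.Linarith.sub_nonpos_of_le hC) (le_of_lt (Mathlib.Tactic.Linarith.sub_neg_of_lt hε))])
  · have e2 := tele (fun k => Φ fun _ => gr N1 (j k)) (fun k => V (f fun _ => gr N1 (j k))) N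
      fun k hk => by
        have c1 := j5 (k + 1) hk
        rcases (j6 k).2.2 with c | c
        · rw [c] at c1 ⊢
          exact step N1 n1 le_rfl _ c1
        · have key : ∀ i, j k ≤ i → i ≤ j (k + 1) →
              Φ (fun _ => gr N1 i) = Φ (fun _ => gr N1 (j k)) ∧
                V (f fun _ => gr N1 i) = V (f fun _ => gr N1 (j k)) := by
            intro i hi
            induction i, hi using Nat.le_induction with
            | base => exact fun _ => ⟨rfl, rfl⟩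
            | succ i hi ih =>
              intro c2
              have c3 := not_not.1 (c i hi c2)
              rw [step N1 n1 le_rfl i (by omega), ← c3, edge_self, mul_one]
              exact ih (by omega)
          obtain ⟨c2, c3⟩ := key _ (j6 k).1 le_rfl
          simp only [c2, c3, edge_self, mul_one]
    simp only [j3, j4, gr_zero, gr_last n1, e1] at e2
    exact mul_left_cancel (e2.symm.trans (mul_one _).symm)

end Pool.Agent.Work.MP_4b5e6c_gt
end

-- merged part: Pool.Agent.Work.MP_4b5e6c_gt.OneC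
section
/-! Task ONEC: torsion-freeness in dimension one. -/

namespace Pool.Agent.Work.MP_4b5e6c_gt

namespace OneC
open Metric Set

variable {Z : Type} [MetricSpace Z]

theorem afam {n : ℕ} {U : Set (D n)} {u u' : D n → Z} (G : D n → ℝ → Z) {L κ : ℝ} (hL : 0 ≤ L)
    (hG : ∀ x x', ∀ τ ∈ Icc (0 : ℝ) 1, ∀ τ' ∈ Icc (0 : ℝ) 1,
      dist (G x τ) (G x' τ') ≤ L * dist x x' + L * |τ - τ'| + κ)
    (h0 : ∀ x, G x 0 = u x) (h1 : ∀ x, G x 1 = u' x)
    (hU : ∀ x, x ∉ U → ∀ τ ∈ Icc (0 : ℝ) 1, G x τ = u x) : Hty (2 * L) κ 1 U u u' := by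
  refine ⟨fun p => G p.1 (projIcc 0 1 zero_le_one p.2), fun p q => ?_, fun x t ht => ?_,
    fun x t ht => ?_, fun x t hx => hU x hx _ (projIcc 0 1 zero_le_one t).2⟩
  · refine (hG _ _ _ (projIcc 0 1 zero_le_one p.2).2 _ (projIcc 0 1 zero_le_one q.2).2).trans ?_
    have a : dist p.1 q.1 ≤ dist p q := le_max_left _ _
    have b : |p.2 - q.2| ≤ dist p q := le_max_right _ _
    have c := (abs_projIcc_sub_projIcc (h := zero_le_one) (c := p.2) (d := q.2)).trans b
    linarith only [a, hL, c, mul_le_mul_of_nonneg_left a hL, mul_le_mul_of_nonneg_left c hL]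
  · simp only [projIcc_of_le_left _ ht, h0]
  · simp only [projIcc_of_right_le _ ht, h1]

theorem chain_dist (g : ℕ → Z) {δ : ℝ} {N : ℕ} (h : ∀ i < N, dist (g i) (g (i + 1)) ≤ δ)
    {i j : ℕ} (hi : i ≤ N) (hj : j ≤ N) : dist (g i) (g j) ≤ δ * |(i : ℝ) - j| := by
  wlog hij : i ≤ j generalizing i j
  · rw [dist_comm, abs_sub_comm]
    exact this hj hi (not_le.1 hij).le
  refine (dist_le_Ico_sum_of_dist_le hij (d := fun _ => δ) fun {k} _ hk =>
    h k (lt_of_lt_of_le hk hj)).trans ?_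
  rw [abs_sub_comm, abs_of_nonneg (sub_nonneg.2 (by exact_mod_cast hij))]
  simp [Nat.cast_sub hij, mul_comm]

theorem fl_le (N : ℕ) {τ : ℝ} (h : τ ∈ Icc (0 : ℝ) 1) : ⌊N * τ⌋₊ ≤ N :=
  Nat.floor_le_of_le (mul_le_of_le_one_right N.cast_nonneg h.2)

theorem fl_sub (N : ℕ) {τ τ' : ℝ} (h : τ ∈ Icc (0 : ℝ) 1) (h' : τ' ∈ Icc (0 : ℝ) 1) :
    |(⌊N * τ⌋₊ : ℝ) - ⌊N * τ'⌋₊| ≤ N * |τ - τ'| + 1 := by
  have a := Nat.floor_le (mul_nonneg N.cast_nonneg h.1)
  have a' := Nat.floor_le (mul_nonneg N.cast_nonneg h'.1)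
  have b := Nat.lt_floor_add_one (N * τ)
  have b' := Nat.lt_floor_add_one (N * τ')
  have c := mul_le_mul_of_nonneg_left (le_abs_self (τ - τ')) (N.cast_nonneg (α := ℝ))
  have c' := mul_le_mul_of_nonneg_left (neg_abs_le (τ - τ')) (N.cast_nonneg (α := ℝ))
  rw [abs_le]
  constructor <;> linarith only [a', b, c', a, b', c]

/-- The clamped parameter of a point of the line. -/
noncomputable def par (z : D 1) : ℝ := projIcc (0 : ℝ) 1 zero_le_one ((z 0 + 1) / 2)

theorem par_mem (z : D 1) : par z ∈ Icc (0 : ℝ) 1 := (projIcc _ _ _ _).2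

theorem par_sub (z z' : D 1) : |par z - par z'| ≤ dist z z' / 2 := by
  refine (abs_projIcc_sub_projIcc (h := zero_le_one)).trans ?_
  have : |z 0 - z' 0| ≤ dist z z' := dist_le_pi_dist z z' 0
  rw [← sub_div, add_sub_add_right_eq_sub, abs_div, abs_two]
  linarith only [this]

theorem norm_one (z : D 1) : ‖z‖ = |z 0| := by
  rw [show z = fun _ => z 0 from funext fun i => by rw [Subsingleton.elim i 0], pi_norm_const]
  rfl

theorem par_out {z : D 1} (hz : 1 ≤ ‖z‖) : par z = 0 ∨ par z = 1 := by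
  rw [norm_one, le_abs] at hz
  rcases hz with h | h
  · exact Or.inr (by rw [par, projIcc_of_right_le _ (by linarith only [h])])
  · exact Or.inl (by rw [par, projIcc_of_le_left _ (by linarith)])

theorem item_par {Z : Type} {y : Z} {f : D 1 → Z} (hf : ∀ x, 1 ≤ ‖x‖ → f x = y) (z : D 1) :
    (f fun _ => 2 * par z - 1) = f z := by
  rcases le_or_gt 1 ‖z‖ with h | h
  · rw [hf z h, hf]
    rcases par_out h with k | k <;> norm_num [norm_one, k]
  · rw [norm_one, abs_lt] at h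
    congr 1
    funext i
    rw [par, projIcc_of_mem _ ⟨by linarith only [h], by linarith⟩, Subsingleton.elim i 0]
    ring

theorem approx {y : Z} {L C ε : ℝ} {f : D 1 → Z} (hL : 0 < L) (hf : Item y L f) (hC : 1 ≤ C)
    (hε : 0 < ε) {N : ℕ} {x : ℕ → ℝ} {a : ℕ → Z} (hN : N * ε ≤ C * L) (x0 : x 0 = -1)
    (xN : x N = 1) (hx : ∀ i < N, x i ≤ x (i + 1) ∧ L * (x (i + 1) - x i) ≤ ε) (a0 : a 0 = y)
    (aN : a N = y) (ha : ∀ i ≤ N, dist (a i) (f fun _ => x i) ≤ C * ε) (hw : word a N = 1) :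
    Hty (2 * (3 * C * C * L) * ((1 + 1) / 1)) (3 * C * ε + 6 * C * ε) 1 (ball 0 1) f fun _ => y := by
  have fl : ∀ s s' : ℝ, dist (f fun _ => s) (f fun _ => s') ≤ L * |s - s'| := fun s s' => by
    simpa [Real.dist_eq] using hf.1 (fun _ => s) fun _ => s'
  have hx' : ∀ i < N, dist (x i) (x (i + 1)) ≤ ε / L := fun i hi => by
    rw [dist_comm, Real.dist_eq, abs_of_nonneg (sub_nonneg.2 (hx i hi).1), le_div_iff₀' hL]
    exact (hx i hi).2
  have xd : ∀ i ≤ N, ∀ j ≤ N, L * |x i - x j| ≤ ε * |(i : ℝ) - j| := fun i hi j hj => by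
    have := chain_dist x hx' hi hj
    rwa [div_mul_eq_mul_div, le_div_iff₀' hL] at this
  have Cε : ε ≤ C * ε := le_mul_of_one_le_left hε.le hC
  have CL : L ≤ C * L := le_mul_of_one_le_left hL.le hC
  have CCL : C * L ≤ C * C * L := by linarith only [Cε, hC, hN, mul_nonneg_of_nonpos_of_nonpos (Mathlib.Tactic.Linarith.sub_nonpos_of_le (Mathlib.Tactic.Linarith.natCast_nonneg ℝ N)) (Mathlib.Tactic.Linarith.sub_nonpos_of_le Cε), mul_nonneg_of_nonpos_of_nonpos (Mathlib.Tactic.Linarith.sub_nonpos_of_le hC) (Mathlib.Tactic.Linarith.sub_nonpos_of_le hN)]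
  obtain ⟨G, g1, g2, g3, g4, g5⟩ := exists_contraction (fun p q => dist p q ≤ 3 * C * ε)
    (fun p => by rw [dist_self]; positivity) (fun p q h => by rwa [dist_comm]) a N
    (fun i hi => by
      have k1 := dist_triangle4 (a i) (f fun _ => x i) (f fun _ => x (i + 1)) (a (i + 1))
      have k2 := fl (x i) (x (i + 1))
      rw [abs_sub_comm, abs_of_nonneg (sub_nonneg.2 (hx i hi).1)] at k2
      rw [dist_comm (f _) (a (i + 1))] at k1
      linarith only [Cε, k1, k2, ha, hi, hx, ha i hi.le, ha (i + 1) (Nat.succ_le_of_lt hi), (hx i hi).2]) (aN.trans a0.symm) hw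
  set I : D 1 → ℕ := fun z => ⌊N * par z⌋₊ with hI
  have IN : ∀ z, I z ≤ N := fun z => fl_le N (par_mem z)
  have Id : ∀ z z', ε * |(I z : ℝ) - I z'| ≤ C * L * dist z z' + ε := fun z z' => by
    have k1 := mul_le_mul_of_nonneg_left (fl_sub N (par_mem z) (par_mem z')) hε.le
    have k2 := mul_le_mul hN (par_sub z z') (abs_nonneg _) (by positivity)
    have k3 : 0 ≤ C * L * dist z z' := by positivity
    linarith only [k1, k2, k3]
  have Io : ∀ z, z ∉ ball (0 : D 1) 1 → par z = 0 ∧ I z = 0 ∨ par z = 1 ∧ I z = N := fun z hz => by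
    rcases par_out (by simpa using hz : 1 ≤ ‖z‖) with k | k <;> simp [hI, k]
  have L0 : 0 ≤ 3 * C * C * L := by positivity
  refine (Hty.trans (v := fun z => a (I z)) ?_ (Hty.symm ?_) (by positivity) zero_le_one
    zero_le_one).speed (by positivity) one_pos (by norm_num)
  · classical
    set φ : D 1 → ℝ → ℝ := fun z τ => (1 - τ) * (2 * par z - 1) + τ * x (I z) with hφ
    refine afam (fun z τ => if τ = 1 then a (I z) else f fun _ => φ z τ) L0
      (fun z z' τ hτ τ' hτ' => ?_) (fun z => by simp [hφ, item_par hf.2]) (fun z => by simp)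
      fun z hz τ _ => ?_
    · have near : ∀ z τ, dist (if τ = 1 then a (I z) else f fun _ => φ z τ) (f fun _ => φ z τ) ≤
          C * ε := fun z τ => by
        split_ifs with h
        · simpa [hφ, h] using ha _ (IN z)
        · rw [dist_self]; positivity
      refine (dist_triangle4_right _ _ (f fun _ => φ z τ) (f fun _ => φ z' τ')).trans ?_
      have e : φ z τ - φ z' τ' = (1 - τ) * (2 * (par z - par z')) + τ * (x (I z) - x (I z')) +
          (τ - τ') * (x (I z') - x 0 - 2 * par z') := by simp only [hφ, x0]; ring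
      have k1 : L * |(1 - τ) * (2 * (par z - par z'))| ≤ L * dist z z' := by
        refine mul_le_mul_of_nonneg_left ?_ hL.le
        rw [abs_mul, abs_mul, abs_two, abs_of_nonneg (sub_nonneg.2 hτ.2)]
        linarith only [hτ, par_sub z z', abs_nonneg (par z - par z'), hτ.1, mul_nonneg_of_nonpos_of_nonpos (Mathlib.Tactic.Linarith.sub_nonpos_of_le (abs_nonneg (par z - par z'))) (Mathlib.Tactic.Linarith.sub_nonpos_of_le hτ.left)]
      have k2 : L * |τ * (x (I z) - x (I z'))| ≤ C * L * dist z z' + ε := by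
        refine le_trans ?_ ((xd _ (IN z) _ (IN z')).trans (Id z z'))
        rw [abs_mul, abs_of_nonneg hτ.1]
        exact mul_le_mul_of_nonneg_left (mul_le_of_le_one_left (abs_nonneg _) hτ.2) hL.le
      have k3 : L * |x (I z') - x 0 - 2 * par z'| ≤ 3 * C * C * L := by
        have l1 := xd _ (IN z') 0 N.zero_le
        have l2 : (I z' : ℝ) ≤ N := by exact_mod_cast IN z'
        rw [Nat.cast_zero, sub_zero, Nat.abs_cast] at l1
        have l3 := abs_sub (x (I z') - x 0) (2 * par z')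
        rw [abs_of_nonneg (mul_nonneg zero_le_two (par_mem z').1)] at l3
        linarith only [hN, CL, CCL, l1, l2, hε, hL, l3, (par_mem z').2, mul_le_mul_of_nonneg_left l2 hε.le, mul_nonneg_of_nonpos_of_nonpos (le_of_lt (Mathlib.Tactic.Linarith.sub_neg_of_lt hL)) (Mathlib.Tactic.Linarith.sub_nonpos_of_le l3), mul_nonneg_of_nonpos_of_nonpos (le_of_lt (Mathlib.Tactic.Linarith.sub_neg_of_lt hL)) (Mathlib.Tactic.Linarith.sub_nonpos_of_le (par_mem z').right)]
      have k4 := mul_le_mul_of_nonneg_left k3 (abs_nonneg (τ - τ'))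
      have k5 := fl (φ z τ) (φ z' τ')
      rw [e] at k5
      have k6 := mul_le_mul_of_nonneg_left (abs_add_three ((1 - τ) * (2 * (par z - par z')))
        (τ * (x (I z) - x (I z'))) ((τ - τ') * (x (I z') - x 0 - 2 * par z'))) hL.le
      rw [abs_mul (τ - τ')] at k6
      have k7 := mul_le_mul_of_nonneg_right (show L + C * L ≤ 3 * C * C * L by linarith only [hL, CL, CCL])
        (dist_nonneg (x := z) (y := z'))
      linarith only [Cε, k1, k2, k4, k5, k6, k7, near, near z τ, near z' τ']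
    · rw [hf.2 z (by simpa using hz)]
      split_ifs
      · rcases Io z hz with k | k <;> simp [k.2, a0, aN]
      · refine hf.2 _ ?_
        rcases Io z hz with k | k
        · rw [norm_one, hφ]
          simp only [k.1, k.2, x0]
          rw [le_abs]; right; linarith only []
        · rw [norm_one, hφ]
          simp only [k.1, k.2, xN]
          rw [le_abs]; left; linarith only []
  · refine afam (fun z τ => G (I z) ⌊N * τ⌋₊) L0 (fun z z' τ hτ τ' hτ' => ?_)
      (fun z => by simp [g2, a0]) (fun z => by simp [g1 _ (IN z)]) fun z hz τ _ => ?_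
    · have k1 := chain_dist (fun i => G i ⌊N * τ⌋₊) (fun i hi => g4 i hi _) (IN z) (IN z')
      have k2 := chain_dist (G (I z')) (fun j _ => g5 _ j) (fl_le N hτ) (fl_le N hτ')
      have k3 := mul_le_mul_of_nonneg_left (Id z z') (show 0 ≤ 3 * C by positivity)
      have k4 := mul_le_mul_of_nonneg_left (fl_sub N hτ hτ') (show 0 ≤ 3 * C * ε by positivity)
      have k5 := mul_le_mul_of_nonneg_left hN (show 0 ≤ 3 * C * |τ - τ'| by positivity)
      refine (dist_triangle _ (G (I z') ⌊N * τ⌋₊) _).trans ?_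
      linarith only [k1, k2, k3, k4, k5]
    · rcases Io z hz with k | k <;> simp [k.2, g3, a0]

end OneC

theorem Good.tf_one {X : Type} [MetricSpace X] (G : Good 1 X) : TF 0 X := by
  intro y L f m hm hf h
  obtain ⟨C, hC, H⟩ := G.exists_chain
  have := G.proper
  have hL : 0 < max L 1 := lt_max_of_lt_right one_pos
  have hf' : Item y (max L 1) f := ⟨hf.1.mono (le_max_left _ _), hf.2⟩
  refine ⟨2 * (3 * C * C * max L 1) * ((1 + 1) / 1), Hty.limit fun ε hε => ?_⟩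
  obtain ⟨N, x, a, -, h1, h2, h3, h4, h5, h6, h7, h8⟩ := H y _ f m hm hL hf' h
    (min (max L 1) (ε / (9 * C))) (lt_min hL (by positivity)) (min_le_left _ _)
  refine (OneC.approx hL hf' hC (lt_min hL (by positivity)) h1 h2 h3 h4 h5 h6 h7 h8).mono le_rfl
    ?_ le_rfl subset_rfl
  have := (le_div_iff₀ (by positivity)).1 (min_le_right (max L 1) (ε / (9 * C)))
  linarith only [this]

end Pool.Agent.Work.MP_4b5e6c_gt
end

-- merged part: Pool.Agent.Work.MP_4b5e6c_gt.HThin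
section
/-! Task HTHIN: the Heisenberg group is purely `(n + 1)`-unrectifiable. -/

namespace Pool.Agent.Work.MP_4b5e6c_gt
open Set

namespace HThin
open Filter Topology MeasureTheory

variable {n m : ℕ} {F : D m → Heis n} {L : ℝ} {z : D m} {A B : D m →L[ℝ] D n}

theorem slope {k : ℕ} {f : D m → D k} {A : D m →L[ℝ] D k} (h : HasFDerivAt f A z) (u v : D m) :
    Tendsto (fun r : ℝ => r⁻¹ • (f (z + r • v) - f (z + r • u))) (𝓝[>] 0) (𝓝 (A (v - u))) := by
  have := (h.hasLineDerivAt v).tendsto_slope_zero_right.sub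
    (h.hasLineDerivAt u).tendsto_slope_zero_right
  rw [← map_sub] at this
  refine this.congr fun r => ?_
  rw [← smul_sub, sub_sub_sub_cancel_right]

theorem dot {a b : ℝ → D n} {a' b' : D n} {l : Filter ℝ} (ha : Tendsto a l (𝓝 a'))
    (hb : Tendsto b l (𝓝 b')) : Tendsto (fun r => a r ⬝ᵥ b r) l (𝓝 (a' ⬝ᵥ b')) :=
  (((continuous_fst.dotProduct continuous_snd).tendsto (a', b')).comp (ha.prodMk_nhds hb) :)

/-- The rescaled vertical coordinate. -/
noncomputable def g (F : D m → Heis n) (z u v : D m) (r : ℝ) : ℝ :=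
  r⁻¹ * r⁻¹ * Heis.vert (F (z + r • u)) (F (z + r • v))

theorem cocycle (hX : HasFDerivAt (fun a => (F a).x) A z) (hY : HasFDerivAt (fun a => (F a).y) B z)
    (u v w : D m) : Tendsto (fun r => g F z u w r - g F z u v r - g F z v w r) (𝓝[>] 0)
      (𝓝 (2 * (B (v - u) ⬝ᵥ A (w - v) - A (v - u) ⬝ᵥ B (w - v)))) := by
  refine (((dot (slope hY u v) (slope hX v w)).sub
    (dot (slope hX u v) (slope hY v w))).const_mul 2).congr fun r => ?_
  simp only [g, Heis.vert_add (F (z + r • u)) (F (z + r • v)) (F (z + r • w)), smul_dotProduct,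
    dotProduct_smul, smul_eq_mul]
  ring

theorem g_le (hF : Lip L F) (u v : D m) {r : ℝ} (hr : 0 < r) :
    |g F z u v r| ≤ (2 * n + 2) * L ^ 2 * ‖v - u‖ ^ 2 := by
  have h1 := Heis.abs_vert_le (F (z + r • u)) (F (z + r • v))
  have h2 := hF (z + r • u) (z + r • v)
  rw [dist_add_left, dist_eq_norm', ← smul_sub, norm_smul, Real.norm_of_nonneg hr.le] at h2
  have h3 := pow_le_pow_left₀ dist_nonneg h2 2
  rw [g, abs_mul, abs_of_pos (by positivity), ← mul_inv, inv_mul_le_iff₀ (by positivity)]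
  refine h1.trans ((mul_le_mul_of_nonneg_left h3 (by positivity)).trans_eq (by ring))

theorem g_half (hF : Lip L F) (hX : HasFDerivAt (fun a => (F a).x) A z)
    (hY : HasFDerivAt (fun a => (F a).y) B z) (k : ℕ) : ∀ (u v : D m) (ε : ℝ), 0 < ε →
      ∀ᶠ r in 𝓝[>] (0 : ℝ), |g F z u v r| ≤ (2 * n + 2) * L ^ 2 * ‖v - u‖ ^ 2 * (1 / 2) ^ k + ε := by
  induction k with
  | zero =>
    intro u v ε hε
    filter_upwards [self_mem_nhdsWithin] with r hr
    linarith only [hε, hF, hr, g_le (z := z) hF u v hr]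
  | succ k ih =>
    intro u v ε hε
    set d := (1 / 2 : ℝ) • (v - u) with hd
    have e1 : u + d - u = d := by abel
    have e2 : v - (u + d) = d := by rw [hd]; module
    have e3 : ‖d‖ = 1 / 2 * ‖v - u‖ := by rw [hd, norm_smul]; norm_num
    have c := cocycle hX hY u (u + d) v
    rw [e1, e2, dotProduct_comm (B d), sub_self, mul_zero] at c
    filter_upwards [ih u (u + d) (ε / 3) (by positivity), ih (u + d) v (ε / 3) (by positivity),
      c.eventually (Icc_mem_nhds (show -(ε / 3) < 0 by linarith only [hε]) (show 0 < ε / 3 by linarith only [hε]))]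
      with r a b c
    rw [e1, e3, abs_le] at a
    rw [e2, e3, abs_le] at b
    rw [abs_le, pow_succ _ k]
    constructor <;> linarith only [a, b, c, a.1, a.2, b.1, b.2, c.1, c.2]

theorem g_zero (hF : Lip L F) (hX : HasFDerivAt (fun a => (F a).x) A z)
    (hY : HasFDerivAt (fun a => (F a).y) B z) (u v : D m) :
    Tendsto (g F z u v) (𝓝[>] 0) (𝓝 0) := by
  refine Metric.tendsto_nhds.2 fun ε hε => ?_
  have := (tendsto_pow_atTop_nhds_zero_of_lt_one (show (0 : ℝ) ≤ 1 / 2 by norm_num)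
    (by norm_num)).const_mul ((2 * n + 2) * L ^ 2 * ‖v - u‖ ^ 2)
  rw [mul_zero] at this
  obtain ⟨k, hk⟩ := (this.eventually (gt_mem_nhds (half_pos hε))).exists
  filter_upwards [g_half hF hX hY k u v (ε / 2) (half_pos hε)] with r hr
  rw [Real.dist_eq, sub_zero]
  linarith only [hk, hr]

theorem isotropic (hF : Lip L F) (hX : HasFDerivAt (fun a => (F a).x) A z)
    (hY : HasFDerivAt (fun a => (F a).y) B z) (u v : D m) : B u ⬝ᵥ A v = A u ⬝ᵥ B v := by
  have h := tendsto_nhds_unique (cocycle hX hY 0 u (u + v))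
    (((g_zero hF hX hY _ _).sub (g_zero hF hX hY _ _)).sub (g_zero hF hX hY _ _))
  rw [sub_zero, add_sub_cancel_left] at h
  linarith only [h]

theorem exists_ker (hm : n < m) (h : ∀ u v, B u ⬝ᵥ A v = A u ⬝ᵥ B v) :
    ∃ u, u ≠ 0 ∧ A u = 0 ∧ B u = 0 := by
  let M : D m × D m →ₗ[ℝ] D n × D n :=
    (LinearMap.coprod A.toLinearMap (-B.toLinearMap)).prod
      (LinearMap.coprod B.toLinearMap A.toLinearMap)
  obtain ⟨⟨u, v⟩, h0, h1⟩ := Submodule.exists_mem_ne_zero_of_ne_bot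
    (LinearMap.ker_ne_bot_of_finrank_lt (f := M) (by simp; omega))
  obtain ⟨k1, k2⟩ : A u = B v ∧ B u = -A v := by
    simpa [M, Prod.ext_iff, ← sub_eq_add_neg, sub_eq_zero, add_eq_zero_iff_eq_neg] using h0
  have e := h u v
  rw [k1, k2, neg_dotProduct] at e
  have p1 : 0 ≤ A v ⬝ᵥ A v := dotProduct_self_star_nonneg (A v)
  have p2 : 0 ≤ B v ⬝ᵥ B v := dotProduct_self_star_nonneg (B v)
  have a : A v = 0 := dotProduct_self_eq_zero.1 (by linarith only [p1, e, p2])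
  have b : B v = 0 := dotProduct_self_eq_zero.1 (by linarith only [p2, e, p1])
  by_cases hv : v = 0
  · exact ⟨u, fun hu => h1 (by simp [hu, hv]), by rw [k1, b], by rw [k2, a, neg_zero]⟩
  · exact ⟨v, hv, a, b⟩

theorem small (hF : Lip L F) (hX : HasFDerivAt (fun a => (F a).x) A z)
    (hY : HasFDerivAt (fun a => (F a).y) B z) {u : D m} (hA : A u = 0) (hB : B u = 0) {ε : ℝ}
    (hε : 0 < ε) : ∀ᶠ r in 𝓝[>] (0 : ℝ), dist (F (z + r • 0)) (F (z + r • u)) ≤ r * ε := by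
  have a := (slope hX 0 u).norm
  have b := (slope hY 0 u).norm
  rw [sub_zero, hA, norm_zero] at a
  rw [sub_zero, hB, norm_zero] at b
  have c := (g_zero hF hX hY 0 u).abs
  rw [abs_zero] at c
  filter_upwards [a.eventually (ge_mem_nhds hε), b.eventually (ge_mem_nhds hε),
    c.eventually (ge_mem_nhds (show 0 < (2 * (n : ℝ) + 2) * ε ^ 2 by positivity)),
    self_mem_nhdsWithin] with r a b c (hr : 0 < r)
  rw [norm_smul, Real.norm_of_nonneg (inv_pos.2 hr).le, inv_mul_le_iff₀ hr] at a b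
  rw [g, abs_mul, abs_of_pos (by positivity), ← mul_inv, inv_mul_le_iff₀ (by positivity)] at c
  exact (Heis.dist_le_iff (by positivity)).2 ⟨a, b, c.trans_eq (by ring)⟩

theorem det_zero (hm : n < m) (hF : Lip L F) (hX : HasFDerivAt (fun a => (F a).x) A z)
    (hY : HasFDerivAt (fun a => (F a).y) B z) {G : Heis n → D m} {L' : ℝ} (hG : Lip L' G)
    {C : D m →L[ℝ] D m} (hC : HasFDerivAt (fun a => G (F a)) C z) : C.det = 0 := by
  obtain ⟨u, h0, hA, hB⟩ := exists_ker hm (isotropic hF hX hY)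
  have h1 : C u = 0 := by
    refine norm_le_zero_iff.1 (le_of_forall_pos_le_add fun ε hε => ?_)
    have s := (slope hC 0 u).norm
    rw [sub_zero] at s
    refine le_of_tendsto s ?_
    filter_upwards [small hF hX hY hA hB (show 0 < ε / (|L'| + 1) by positivity),
      self_mem_nhdsWithin] with r a (hr : 0 < r)
    rw [norm_smul, Real.norm_of_nonneg (inv_pos.2 hr).le, inv_mul_le_iff₀ hr, ← dist_eq_norm',
      zero_add]
    refine (hG _ _).trans ((mul_le_mul (le_abs_self L' |>.trans (lt_add_one _).le) a dist_nonneg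
      (by positivity)).trans_eq ?_)
    field_simp
  by_contra hd
  exact h0 (((C : D m →ₗ[ℝ] D m).equivOfDetNeZero hd).injective (by simpa using h1))

theorem lw {P Q : Type} [PseudoMetricSpace P] [PseudoMetricSpace Q] {f : P → Q} (h : Lip L f) :
    LipschitzWith L.toNNReal f :=
  LipschitzWith.of_dist_le' h

end HThin

open HThin MeasureTheory in
theorem Heis.thin (n : ℕ) (F : D (n + 1) → Heis n) (L : ℝ) (hF : Lip L F) : Thin n (range F) := by
  intro G L' hG
  have hX : Lip L fun a => (F a).x := fun a b => by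
    rw [dist_eq_norm']
    exact (Heis.norm_x_le _ _).trans (hF a b)
  have hY : Lip L fun a => (F a).y := fun a b => by
    rw [dist_eq_norm']
    exact (Heis.norm_y_le _ _).trans (hF a b)
  have hC := (lw hG).comp (lw hF)
  have h := ((lw hX).ae_differentiableAt (μ := volume)).and
    (((lw hY).ae_differentiableAt (μ := volume)).and (hC.ae_differentiableAt (μ := volume)))
  set s := {z | DifferentiableAt ℝ (fun a => (F a).x) z ∧ DifferentiableAt ℝ (fun a => (F a).y) z ∧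
    DifferentiableAt ℝ (G ∘ F) z}
  rw [← range_comp, ← image_univ, ← union_compl_self s, image_union]
  refine measure_union_null (addHaar_image_eq_zero_of_det_fderivWithin_eq_zero volume
    (f' := fderiv ℝ (G ∘ F)) (fun z hz => hz.2.2.hasFDerivAt.hasFDerivWithinAt) fun z hz =>
      det_zero n.lt_succ_self hF hz.1.hasFDerivAt hz.2.1.hasFDerivAt hG hz.2.2.hasFDerivAt) ?_
  have k := hC.hausdorffMeasure_image_le (d := Fintype.card (Fin (n + 1))) (by positivity) sᶜ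
  rw [hausdorffMeasure_pi_real, show volume sᶜ = 0 from h, mul_zero] at k
  exact nonpos_iff_eq_zero.1 k

end Pool.Agent.Work.MP_4b5e6c_gt
end

-- merged part: Pool.Agent.Work.MP_4b5e6c_gt.Assemble
section
/-! Assembly of the proof. -/

namespace Pool.Agent.Work.MP_4b5e6c_gt

variable {n : ℕ} {X : Type} [MetricSpace X]

theorem Good.nice (hn : 2 ≤ n) (G : Good n X) : NiceS n X := by
  intro m
  obtain ⟨M, A, -, hA⟩ := G.ka (by omega)
  obtain ⟨M', hB⟩ := kb hn m M A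
  obtain ⟨A', hA', hC⟩ := kc_insert hn (exists_sphere hn (exists_kuhn n)) M M' A
  refine ⟨A', hA', fun C0 y h κ s hin hnull => ?_⟩
  obtain ⟨N, f, hN, hf⟩ := hA m C0 y h κ s hin
  obtain ⟨T, u, hT⟩ := hB X C0 y h κ s N f hin hnull hN hf
  exact hC m X C0 y h κ s N f T u hin hN hf hT

theorem Good.step (hn : 2 ≤ n) (G : Good n X) : StepS n X := by
  obtain ⟨R⟩ := G.exists_rz
  obtain ⟨L, E, -, hE⟩ := exists_isSph hn (exists_kuhn n)
  have hn1 : 1 ≤ n := by omega
  have hm : MoveS n X := move hn R R.cone (route hn (fr hn))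
  have hr : RelabelS R := relabel hn R
    (cancel hn hE (hE.cancel hn (fold hn)) (hE.hur hn (fr hn) (hE.normal hn1)) hm)
  exact MP_4b5e6c_gt.step hn G R (G.nice hn) (null_real hn G R hr) (collapse hn R hr)
    (split hn G R (exists_items hn1 R R.cone) (kill_layer hn R hm))

theorem Heis.good (n : ℕ) : Good n (Heis n) :=
  ⟨inferInstance, Heis.doubling n, Heis.ext_lip n, Heis.thin n⟩

theorem Heis.tf (n : ℕ) : TF n (Heis (n + 1)) := by
  rcases Nat.eq_zero_or_pos n with rfl | hn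
  · exact (Heis.good 1).tf_one
  · exact (Heis.good (n + 1)).tf_two hn ((Heis.good (n + 1)).step (by omega))

end Pool.Agent.Work.MP_4b5e6c_gt
end
end
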