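import Mathlib

/-! The notions of the problem: the Heisenberg group with its Carnot-Caratheodory distance, and
based Lipschitz maps of spheres, their homotopies and their concatenation. -/

namespace Pool.Agent.Work.MP_4b5e6c_gt.Stmt

open Set MeasureTheory unitInterval
open scoped ENNReal NNReal

/-- Points `(x, y, t)` of the Heisenberg group. -/
abbrev H (n : ℕ) : Type := (Fin n → ℝ) × (Fin n → ℝ) × ℝ

/-- The curve `γ = (x, y, t)` is absolutely continuous on `[0, 1]` and almost everywhere tangent to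
the span of `X j = ∂/∂x j + 2 y j ∂/∂t` and `Y j = ∂/∂y j - 2 x j ∂/∂t`, that is
`t' = 2 (⟨y, x'⟩ - ⟨x, y'⟩)`. -/
def IsHorizontal {n : ℕ} (γ : ℝ → H n) : Prop :=
  AbsolutelyContinuousOnInterval γ 0 1 ∧ ∀ᵐ s : ℝ, s ∈ Icc (0 : ℝ) 1 →
    (deriv γ s).2.2 = 2 * ((γ s).2.1 ⬝ᵥ (deriv γ s).1 - (γ s).1 ⬝ᵥ (deriv γ s).2.1)

/-- The length of a horizontal curve in the metric for which the `X j`, `Y j` are orthonormal. -/
noncomputable def length {n : ℕ} (γ : ℝ → H n) : ℝ≥0∞ :=
  ∫⁻ s in Icc (0 : ℝ) 1,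
    ENNReal.ofReal √(∑ j, (deriv γ s).1 j ^ 2 + ∑ j, (deriv γ s).2.1 j ^ 2)

/-- The Carnot-Caratheodory distance. -/
noncomputable def dcc {n : ℕ} (p q : H n) : ℝ≥0∞ :=
  ⨅ (γ : ℝ → H n) (_ : IsHorizontal γ ∧ γ 0 = p ∧ γ 1 = q), length γ

/-- Lipschitz maps into the Heisenberg group with the Carnot-Caratheodory distance. -/
def IsLip {A : Type} [PseudoEMetricSpace A] {n : ℕ} (f : A → H n) : Prop :=
  ∃ L : ℝ≥0, ∀ a b, dcc (f a) (f b) ≤ L * edist a b

/-- The unit sphere of dimension `k + 1` in Euclidean space. -/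
abbrev Sph (k : ℕ) : Type := Metric.sphere (0 : EuclideanSpace ℝ (Fin (k + 2))) 1

/-- The base point `(1, 0, …, 0)`. -/
noncomputable def base (k : ℕ) : Sph k := ⟨EuclideanSpace.single 0 1, by simp⟩

/-- The pinch map `x ↦ (1 - 2 x₁², 2 x₀ x₁, 2 |x₁| x₂, 2 |x₁| x₃, …)`.  It collapses the equator
`x₁ = 0` to the base point and maps each open hemisphere homeomorphically, preserving the
orientation, onto the complement of the base point. -/
noncomputable def pinch {k : ℕ} (x : Sph k) : Sph k :=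
  ⟨WithLp.toLp 2 (Fin.cons (1 - 2 * x.1 1 ^ 2)
      (Fin.cons (2 * x.1 0 * x.1 1) fun i : Fin k => 2 * |x.1 1| * x.1 i.succ.succ)), by
    have h := x.2
    rw [mem_sphere_zero_iff_norm, EuclideanSpace.norm_eq, Real.sqrt_eq_one] at h ⊢
    simp only [Fin.sum_univ_succ, Fin.cons_zero, Fin.cons_succ, Real.norm_eq_abs, sq_abs, mul_pow,
      Fin.succ_zero_eq_one, ← Finset.mul_sum] at h ⊢
    linear_combination (4 * x.1 1 ^ 2) * h⟩

/-- Based Lipschitz maps of the sphere. -/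
def IsLoop {k n : ℕ} (p : H n) (f : Sph k → H n) : Prop := IsLip f ∧ f (base k) = p

/-- Based Lipschitz homotopy. -/
def Homotopic {k n : ℕ} (p : H n) (f g : Sph k → H n) : Prop :=
  ∃ F : Sph k × I → H n, IsLip F ∧ (∀ a, F (a, 0) = f a) ∧ (∀ a, F (a, 1) = g a) ∧
    ∀ τ, F (base k, τ) = p

/-- Concatenation of spheres: `f` on one hemisphere and `g` on the other one. -/
noncomputable def concat {k : ℕ} {Z : Type} (f g : Sph k → Z) : Sph k → Z :=
  fun x => if x.1 1 ≤ 0 then f (pinch x) else g (pinch x)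

/-- The powers `f ^ 0 = p` (the constant map) and `f ^ (m + 1) = f ^ m * f`. -/
noncomputable def pow {k : ℕ} {Z : Type} (p : Z) (f : Sph k → Z) : ℕ → Sph k → Z
  | 0 => fun _ => p
  | m + 1 => concat (pow p f m) f

end Pool.Agent.Work.MP_4b5e6c_gt.Stmt
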